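import Mathlib

/-!
# Cluster expansion for the pattern `264153` with a weight per occurrence

All self-overlaps of the pattern `264153` have odd shift (`3` or `5`), so in the cluster expansion
of the reciprocal of the exponential generating function of permutations, weighted by `v` to the
number of occurrences with `v < 1`, all clusters of a given length have the same sign.
Clusters with alternating shifts `3, 5, 3, 5, ..., 3` impose only a poset of height `7`, hence are
satisfied by at least `n! / 7 ^ n` permutations.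
-/

set_option autoImplicit false

namespace Pool.Agent.Lib.Cluster264153

open Finset


/-- The exponential generating function of a sequence dominated by `M ^ n n!` is analytic at `0`,
with the expected iterated derivatives. -/
lemma egf_analytic (M : NNReal) (hM : 1 ≤ M) (α : ℕ → ℂ)
    (hα : ∀ n, ‖α n‖ ≤ (M : ℝ) ^ n * (n.factorial : ℝ)) (F : ℂ → ℂ)
    (hF : ∀ z, F z = ∑' n : ℕ, α n / ((Nat.factorial n : ℕ) : ℂ) * z ^ n) :
    AnalyticAt ℂ F 0 ∧ ∀ n, iteratedDeriv n F 0 = α n := by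
  set c : ℕ → ℂ := fun n => α n / (n.factorial : ℂ) with hc
  set p := (FormalMultilinearSeries.ofScalars ℂ c : FormalMultilinearSeries ℂ ℂ ℂ) with hp
  have hM0 : (0 : ℝ) < M := lt_of_lt_of_le one_pos (by exact_mod_cast hM)
  have hcn : ∀ n, ‖c n‖ ≤ (M : ℝ) ^ n := by
    intro n
    rw [hc]
    simp only [norm_div, Complex.norm_natCast]
    rw [div_le_iff₀ (by positivity)]
    exact hα n
  have hrad : ((M⁻¹ : NNReal) : ENNReal) ≤ p.radius := by
    refine p.le_radius_of_bound 1 (r := M⁻¹) (fun n => ?_)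
    rw [hp, FormalMultilinearSeries.ofScalars_norm]
    have h1 := hcn n
    rw [NNReal.coe_inv, inv_pow]
    calc ‖c n‖ * ((M : ℝ) ^ n)⁻¹ ≤ (M : ℝ) ^ n * ((M : ℝ) ^ n)⁻¹ :=
          mul_le_mul_of_nonneg_right h1 (by positivity)
      _ = 1 := mul_inv_cancel₀ (by positivity)
  have hpos : (0 : ENNReal) < ((M⁻¹ : NNReal) : ENNReal) := by
    rw [ENNReal.coe_pos]
    have : 0 < M := by exact_mod_cast hM0
    exact inv_pos.2 this
  have hball : HasFPowerSeriesOnBall p.sum p 0 p.radius :=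
    p.hasFPowerSeriesOnBall (lt_of_lt_of_le hpos hrad)
  have hsum : p.sum = F := by
    funext z
    rw [hF z, FormalMultilinearSeries.sum]
    refine tsum_congr fun n => ?_
    rw [hp, FormalMultilinearSeries.ofScalars_apply_eq, smul_eq_mul, hc]
  rw [hsum] at hball
  have hat : HasFPowerSeriesAt F p 0 := hball.hasFPowerSeriesAt
  have han : AnalyticAt ℂ F 0 := hat.analyticAt
  refine ⟨han, fun n => ?_⟩
  have h2 := han.hasFPowerSeriesAt
  have h3 := hat.eq_formalMultilinearSeries h2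
  have h4 : p.coeff n = (FormalMultilinearSeries.ofScalars ℂ
    (fun n ↦ iteratedDeriv n F 0 / n.factorial)).coeff n := by rw [h3]
  rw [hp, FormalMultilinearSeries.coeff_ofScalars, FormalMultilinearSeries.coeff_ofScalars] at h4
  have hne : ((n.factorial : ℕ) : ℂ) ≠ 0 := by exact_mod_cast n.factorial_ne_zero
  rw [hc] at h4
  field_simp at h4
  exact h4.symm

/-- If `f` is holomorphic near `0` and `f * F = 1` near `0`, then the Taylor coefficients of `f`
satisfy the binomial convolution identity. -/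
lemma conv_identity (α : ℕ → ℂ) (F f : ℂ → ℂ) (hF : AnalyticAt ℂ F 0)
    (hFd : ∀ n, iteratedDeriv n F 0 = α n) (hfa : AnalyticAt ℂ f 0)
    (hfF : ∀ᶠ z in nhds (0 : ℂ), f z * F z = 1) (n : ℕ) :
    ∑ i ∈ range (n + 1), (n.choose i : ℂ) * iteratedDeriv i f 0 * α (n - i)
      = if n = 0 then 1 else 0 := by
  have h1 : iteratedDeriv n (f * F) 0 = if n = 0 then 1 else 0 := by
    have h2 : (f * F) =ᶠ[nhds 0] (fun _ => (1 : ℂ)) := hfF
    rw [(h2.iteratedDeriv n).eq_of_nhds, iteratedDeriv_const]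
  rw [← h1, iteratedDeriv_mul hfa.contDiffAt hF.contDiffAt]
  refine Finset.sum_congr rfl fun i _ => ?_
  rw [hFd]

/-- Cauchy estimate: the Taylor coefficients of a function holomorphic in a disc of radius larger
than `r` satisfy `|f^(n)(0)| r^n ≤ C n!`. -/
lemma cauchy_disc (f : ℂ → ℂ) (r R : ℝ) (hr : 0 < r) (hrR : r < R)
    (hf : DifferentiableOn ℂ f (Metric.ball 0 R)) :
    ∃ C : ℝ, ∀ n, ‖iteratedDeriv n f 0‖ * r ^ n ≤ C * (n.factorial : ℝ) := by
  have hsub : Metric.closedBall (0 : ℂ) r ⊆ Metric.ball 0 R :=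
    Metric.closedBall_subset_ball hrR
  obtain ⟨C, hC⟩ := (isCompact_sphere (0 : ℂ) r).exists_bound_of_continuousOn
    (hf.continuousOn.mono (Metric.sphere_subset_closedBall.trans hsub))
  refine ⟨C, fun n => ?_⟩
  have h := Complex.norm_iteratedDeriv_le_of_forall_mem_sphere_norm_le (f := f) (c := 0) n hr
    (hf.diffContOnCl_ball hsub) hC
  rw [le_div_iff₀ (by positivity)] at h
  linarith

/-- The pattern `264153` (written `1 5 3 0 4 2` when values start at `0`). -/
def sigma : Equiv.Perm (Fin 6) where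
  toFun := ![1, 5, 3, 0, 4, 2]
  invFun := ![3, 0, 5, 2, 4, 1]
  left_inv := by decide
  right_inv := by decide

/-- A permutation of `Fin n` as a sequence of natural numbers (zero outside the range). -/
def ext {n : ℕ} (π : Equiv.Perm (Fin n)) (p : ℕ) : ℕ :=
  if h : p < n then ((π ⟨p, h⟩ : Fin n) : ℕ) else 0

/-- The sequence `x` has an occurrence of the pattern at position `i`. -/
def Occ (x : ℕ → ℕ) (i : ℕ) : Prop :=
  x (i + 3) < x i ∧ x i < x (i + 5) ∧ x (i + 5) < x (i + 2) ∧ x (i + 2) < x (i + 4) ∧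
    x (i + 4) < x (i + 1)

lemma occ_iff (x : ℕ → ℕ) (i : ℕ) :
    (∀ a b : Fin 6, (sigma a < sigma b ↔ x (i + (a : ℕ)) < x (i + (b : ℕ)))) ↔ Occ x i := by
  constructor
  · intro h
    refine ⟨?_, ?_, ?_, ?_, ?_⟩
    · exact (h 3 0).1 (by decide)
    · exact (h 0 5).1 (by decide)
    · exact (h 5 2).1 (by decide)
    · exact (h 2 4).1 (by decide)
    · exact (h 4 1).1 (by decide)
  · rintro ⟨h1, h2, h3, h4, h5⟩ a b
    fin_cases a <;> fin_cases b <;> simp [sigma] <;> omega

lemma occ_congr {x y : ℕ → ℕ} {i j : ℕ}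
    (h : ∀ a b, a < 6 → b < 6 → (x (i + a) < x (i + b) ↔ y (j + a) < y (j + b))) :
    Occ x i ↔ Occ y j := by
  have h30 := h 3 0 (by norm_num) (by norm_num)
  have h05 := h 0 5 (by norm_num) (by norm_num)
  have h52 := h 5 2 (by norm_num) (by norm_num)
  have h24 := h 2 4 (by norm_num) (by norm_num)
  have h41 := h 4 1 (by norm_num) (by norm_num)
  simp only [Nat.add_zero] at h30 h05
  unfold Occ
  rw [h30, h05, h52, h24, h41]

/-- Occurrences at distance `1`, `2` or `4` are impossible. -/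
lemma occ_overlap (x : ℕ → ℕ) (i d : ℕ) (h1 : Occ x i) (h2 : Occ x (i + d)) :
    d ≠ 1 ∧ d ≠ 2 ∧ d ≠ 4 := by
  obtain ⟨a1, a2, a3, a4, a5⟩ := h1
  obtain ⟨b1, b2, b3, b4, b5⟩ := h2
  refine ⟨?_, ?_, ?_⟩ <;> rintro rfl
  · have e1 : i + 1 + 3 = i + 4 := by ring
    have e2 : i + 1 + 5 = i + 6 := by ring
    have e3 : i + 1 + 2 = i + 3 := by ring
    have e4 : i + 1 + 4 = i + 5 := by ring
    have e5 : i + 1 + 1 = i + 2 := by ring
    rw [e1] at *; rw [e2] at *; rw [e3] at *
    omega
  · have e1 : i + 2 + 3 = i + 5 := by ring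
    have e2 : i + 2 + 5 = i + 7 := by ring
    have e3 : i + 2 + 2 = i + 4 := by ring
    have e4 : i + 2 + 4 = i + 6 := by ring
    have e5 : i + 2 + 1 = i + 3 := by ring
    rw [e1] at b1; rw [e2] at b2 b3; rw [e3] at b3 b4; rw [e4] at b4 b5; rw [e5] at b5
    omega
  · have e1 : i + 4 + 3 = i + 7 := by ring
    have e2 : i + 4 + 5 = i + 9 := by ring
    have e3 : i + 4 + 2 = i + 6 := by ring
    have e4 : i + 4 + 4 = i + 8 := by ring
    have e5 : i + 4 + 1 = i + 5 := by ring
    rw [e1] at b1; rw [e2] at b2 b3; rw [e3] at b3 b4; rw [e4] at b4 b5; rw [e5] at b5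
    omega

open Classical in
/-- Weighted signed number of chains of marked occurrences from `0` to `i` with steps at most `5`
(each marked occurrence has weight `v - 1`). -/
noncomputable def w (v : ℝ) (O : ℕ → Prop) : ℕ → ℝ
  | i => if O i then
      (if i = 0 then -(1 - v) else
        -(1 - v) * ∑ j : Fin i, if i ≤ j.1 + 5 then w v O j else 0) else 0
decreasing_by exact j.2

open Classical in
lemma w_eq (v : ℝ) (O : ℕ → Prop) (i : ℕ) :
    w v O i = if O i then
      (if i = 0 then -(1 - v) else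
        -(1 - v) * ∑ j ∈ range i, if i ≤ j + 5 then w v O j else 0) else 0 := by
  rw [w, Finset.sum_range]

lemma w_of_not (v : ℝ) (O : ℕ → Prop) (i : ℕ) (h : ¬ O i) : w v O i = 0 := by
  rw [w_eq, if_neg h]

/-- The weight `v` to the number of occurrences at or after position `i`. -/
noncomputable def e (v : ℝ) (O : ℕ → Prop) (i : ℕ) : ℝ := v ^ Set.ncard {l | i ≤ l ∧ O l}

open Classical in
lemma e_step (v : ℝ) (O : ℕ → Prop) (n : ℕ) (hO : ∀ i, O i → i < n) (i : ℕ) :
    e v O (i + 1) - e v O i = if O i then (1 - v) * e v O (i + 1) else 0 := by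
  unfold e
  have hfin : ({l | i + 1 ≤ l ∧ O l} : Set ℕ).Finite :=
    (Set.finite_lt_nat n).subset fun l hl => hO l hl.2
  by_cases hi : O i
  · have h1 : ({l | i ≤ l ∧ O l} : Set ℕ) = insert i {l | i + 1 ≤ l ∧ O l} := by
      ext l
      simp only [Set.mem_ofPred_eq, Set.mem_insert_iff]
      constructor
      · rintro ⟨h1, h2⟩
        rcases Nat.eq_or_lt_of_le h1 with h3 | h3
        · exact Or.inl h3.symm
        · exact Or.inr ⟨h3, h2⟩
      · rintro (rfl | ⟨h1, h2⟩)
        · exact ⟨le_rfl, hi⟩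
        · exact ⟨by omega, h2⟩
    have h2 : i ∉ ({l | i + 1 ≤ l ∧ O l} : Set ℕ) := by
      simp only [Set.mem_ofPred_eq, not_and]
      intro h; omega
    rw [if_pos hi, h1, Set.ncard_insert_of_notMem h2 hfin, pow_succ]
    ring
  · have h1 : ({l | i ≤ l ∧ O l} : Set ℕ) = {l | i + 1 ≤ l ∧ O l} := by
      ext l
      simp only [Set.mem_ofPred_eq]
      constructor
      · rintro ⟨h1, h2⟩
        rcases Nat.eq_or_lt_of_le h1 with h3 | h3
        · exact absurd (h3 ▸ h2) hi
        · exact ⟨h3, h2⟩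
      · rintro ⟨h1, h2⟩
        exact ⟨by omega, h2⟩
    rw [if_neg hi, h1, sub_self]

lemma w_congr (v : ℝ) (O O' : ℕ → Prop) (i : ℕ) (h : ∀ l ≤ i, (O l ↔ O' l)) :
    w v O i = w v O' i := by
  induction i using Nat.strong_induction_on with
  | _ i ih =>
    rw [w_eq, w_eq]
    have hi := h i le_rfl
    by_cases hO : O i
    · rw [if_pos hO, if_pos (hi.1 hO)]
      by_cases h0 : i = 0
      · rw [if_pos h0, if_pos h0]
      · rw [if_neg h0, if_neg h0]
        congr 1
        refine Finset.sum_congr rfl fun j hj => ?_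
        rw [Finset.mem_range] at hj
        rw [ih j hj fun l hl => h l (by omega)]
    · rw [if_neg hO, if_neg (fun h' => hO (hi.2 h'))]

lemma telescoping (v : ℝ) (O : ℕ → Prop) (n : ℕ) (hO : ∀ i, O i → i < n) (i : ℕ) (hi : 1 ≤ i) :
    ∑ j ∈ range i, w v O j * e v O (min (j + 6) i) = w v O 0 * e v O 1 := by
  classical
  induction i, hi using Nat.le_induction with
  | base => simp
  | succ i hi ih =>
    rw [Finset.sum_range_succ]
    have h1 : ∑ j ∈ range i, w v O j * e v O (min (j + 6) (i + 1))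
        = ∑ j ∈ range i, w v O j * e v O (min (j + 6) i)
          + (∑ j ∈ range i, if i ≤ j + 5 then w v O j else 0)
            * (if O i then (1 - v) * e v O (i + 1) else 0) := by
      rw [Finset.sum_mul, ← Finset.sum_add_distrib]
      refine Finset.sum_congr rfl fun j hj => ?_
      rw [Finset.mem_range] at hj
      by_cases h5 : i ≤ j + 5
      · rw [if_pos h5, ← e_step v O n hO, min_eq_right (by omega : i + 1 ≤ j + 6),
          min_eq_right (by omega : i ≤ j + 6)]
        ring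
      · rw [if_neg h5, min_eq_left (by omega : j + 6 ≤ i + 1),
          min_eq_left (by omega : j + 6 ≤ i)]
        ring
    rw [h1, ih, min_eq_right (by omega : i + 1 ≤ i + 6)]
    have h2 : w v O i = -(1 - v) * (if O i then
        (∑ j ∈ range i, if i ≤ j + 5 then w v O j else 0) else 0) := by
      rw [w_eq v O i]
      by_cases hO : O i
      · rw [if_pos hO, if_pos hO, if_neg (by omega : ¬ i = 0)]
      · rw [if_neg hO, if_neg hO, mul_zero]
    rw [h2]
    by_cases hO : O i
    · rw [if_pos hO, if_pos hO]; ring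
    · rw [if_neg hO, if_neg hO]; ring

/-- Weight attached to a first block of length `m`. -/
noncomputable def u (v : ℝ) (O : ℕ → Prop) (m : ℕ) : ℝ :=
  if m = 0 then 1 else if m = 1 then -1 else if 6 ≤ m then - w v O (m - 6) else 0

lemma block_identity (v : ℝ) (O : ℕ → Prop) (n : ℕ) (hO : ∀ i, O i → i + 6 ≤ n) :
    ∑ m ∈ range (n + 1), u v O m * e v O m = if n = 0 then 1 else 0 := by
  classical
  have hO' : ∀ i, O i → i < n := fun i hi => by have := hO i hi; omega
  have he : ∀ i, n ≤ i + 5 → e v O i = 1 := by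
    intro i hi
    unfold e
    have : ({l | i ≤ l ∧ O l} : Set ℕ) = ∅ := by
      ext l
      simp only [Set.mem_ofPred_eq, Set.mem_empty_iff_false, iff_false, not_and]
      intro hl hOl
      have := hO l hOl
      omega
    rw [this, Set.ncard_empty, pow_zero]
  rcases Nat.eq_zero_or_pos n with rfl | hn
  · simp [u, he 0 (by norm_num)]
  · rw [if_neg (by omega : ¬ n = 0)]
    have ht := telescoping v O n hO' (n + 6) (by omega)
    -- split off `m = 0, 1`
    have h0 : e v O 0 = e v O 1 + w v O 0 * e v O 1 := by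
      have h1 := e_step v O n hO' 0
      rw [w_eq v O 0]
      by_cases hO0 : O 0
      · rw [if_pos hO0] at h1
        rw [if_pos hO0, if_pos rfl]
        simp only [Nat.zero_add] at h1
        linarith
      · rw [if_neg hO0] at h1
        rw [if_neg hO0]
        simp only [Nat.zero_add] at h1
        linarith
    have hsum : ∑ j ∈ range (n + 6), w v O j * e v O (min (j + 6) (n + 6))
        = ∑ j ∈ range (n + 6), w v O j * e v O (j + 6) := by
      refine Finset.sum_congr rfl fun j _ => ?_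
      by_cases hj : j ≤ n
      · rw [min_eq_left (by omega : j + 6 ≤ n + 6)]
      · rw [min_eq_right (by omega : n + 6 ≤ j + 6), he (n + 6) (by omega), he (j + 6) (by omega)]
    rw [hsum] at ht
    -- the block sum
    have hbig : ∑ m ∈ range (n + 1), u v O m * e v O m
        = ∑ m ∈ range (n + 12), u v O m * e v O m := by
      refine Finset.sum_subset (fun m hm => ?_) (fun m _ hm2 => ?_)
      · rw [Finset.mem_range] at *; omega
      · rw [Finset.mem_range] at hm2
        have : u v O m = 0 := by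
          unfold u
          rw [if_neg (by omega), if_neg (by omega)]
          by_cases h6 : 6 ≤ m
          · rw [if_pos h6, w_of_not v O (m - 6) (fun h => by have := hO _ h; omega), neg_zero]
          · rw [if_neg h6]
        rw [this, zero_mul]
    rw [hbig, show n + 12 = 6 + (n + 6) by ring, Finset.sum_range_add]
    have hlow : ∑ m ∈ range 6, u v O m * e v O m = e v O 0 - e v O 1 := by
      simp [Finset.sum_range_succ, u]
      ring
    have hhigh : ∑ j ∈ range (n + 6), u v O (6 + j) * e v O (6 + j)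
        = - ∑ j ∈ range (n + 6), w v O j * e v O (j + 6) := by
      rw [← Finset.sum_neg_distrib]
      refine Finset.sum_congr rfl fun j _ => ?_
      have : u v O (6 + j) = - w v O j := by
        unfold u
        rw [if_neg (by omega), if_neg (by omega), if_pos (by omega),
          Nat.add_sub_cancel_left]
      rw [this, Nat.add_comm 6 j]
      ring
    rw [hlow, hhigh, ht, h0]
    ring

/-- Occurrences in a permutation of `Fin n`. -/
def O {n : ℕ} (π : Equiv.Perm (Fin n)) (i : ℕ) : Prop := i + 6 ≤ n ∧ Occ (ext π) i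

/-! ### The product formula -/

/-- The type of data (set of values used first, order of the first part, order of the second). -/
abbrev Data (a b : ℕ) : Type :=
  {s : Finset (Fin (a + b)) // s.card = a} × Equiv.Perm (Fin a) × Equiv.Perm (Fin b)

lemma compl_card {a b : ℕ} (s : {s : Finset (Fin (a + b)) // s.card = a}) :
    (s.1)ᶜ.card = b := by
  rw [Finset.card_compl, s.2, Fintype.card_fin]
  omega

/-- Gluing. -/
def glue {a b : ℕ} (d : Data a b) : Equiv.Perm (Fin (a + b)) :=
  finSumFinEquiv.symm.trans ((Equiv.sumCongr d.2.1 d.2.2).trans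
    (finSumEquivOfFinset d.1.2 (compl_card d.1)))

lemma glue_castAdd {a b : ℕ} (d : Data a b) (i : Fin a) :
    glue d (Fin.castAdd b i) = d.1.1.orderEmbOfFin d.1.2 (d.2.1 i) := by
  simp [glue]

lemma glue_natAdd {a b : ℕ} (d : Data a b) (i : Fin b) :
    glue d (Fin.natAdd a i) = (d.1.1)ᶜ.orderEmbOfFin (compl_card d.1) (d.2.2 i) := by
  simp [glue]

lemma glue_injective {a b : ℕ} : Function.Injective (glue (a := a) (b := b)) := by
  rintro ⟨⟨s, hs⟩, τ, ρ⟩ ⟨⟨s', hs'⟩, τ', ρ'⟩ h
  have hset : ∀ (t : Finset (Fin (a + b))) (ht : t.card = a) (τ : Equiv.Perm (Fin a))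
      (ρ : Equiv.Perm (Fin b)) (x : Fin (a + b)),
      x ∈ t ↔ ∃ i : Fin a, glue (⟨⟨t, ht⟩, τ, ρ⟩ : Data a b) (Fin.castAdd b i) = x := by
    intro t ht τ ρ x
    constructor
    · intro hx
      have : x ∈ Set.range (t.orderEmbOfFin ht) := by
        rw [Finset.range_orderEmbOfFin]; exact hx
      obtain ⟨j, hj⟩ := this
      refine ⟨τ.symm j, ?_⟩
      rw [glue_castAdd]
      simpa using hj
    · rintro ⟨i, rfl⟩
      rw [glue_castAdd]
      exact Finset.orderEmbOfFin_mem _ _ _
  have hss : s = s' := by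
    ext x
    rw [hset s hs τ ρ x, hset s' hs' τ' ρ' x, h]
  subst hss
  have hτ : τ = τ' := by
    ext i
    have h1 := congrArg (fun π => π (Fin.castAdd b i)) h
    simp only [glue_castAdd] at h1
    have h2 := (s.orderEmbOfFin hs).injective h1
    rw [h2]
  have hρ : ρ = ρ' := by
    ext i
    have h1 := congrArg (fun π => π (Fin.natAdd a i)) h
    simp only [glue_natAdd] at h1
    have h2 := (sᶜ.orderEmbOfFin _).injective h1
    rw [h2]
  rw [hτ, hρ]

lemma card_data (a b : ℕ) : Fintype.card (Data a b) = Fintype.card (Equiv.Perm (Fin (a + b))) := by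
  rw [Fintype.card_prod, Fintype.card_prod, Fintype.card_finset_len, Fintype.card_perm,
    Fintype.card_perm, Fintype.card_perm, Fintype.card_fin, Fintype.card_fin, Fintype.card_fin,
    ← mul_assoc]
  have := Nat.choose_mul_factorial_mul_factorial (n := a + b) (k := a) (by omega)
  rw [Nat.add_sub_cancel_left] at this
  exact this

lemma glue_bijective {a b : ℕ} : Function.Bijective (glue (a := a) (b := b)) :=
  (Fintype.bijective_iff_injective_and_card _).2 ⟨glue_injective, card_data a b⟩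

lemma product_formula {a b : ℕ} (A : Equiv.Perm (Fin a) → ℝ) (B : Equiv.Perm (Fin b) → ℝ)
    (f : Equiv.Perm (Fin (a + b)) → ℝ)
    (h : ∀ d : Data a b, f (glue d) = A d.2.1 * B d.2.2) :
    ∑ π, f π = ((a + b).choose a : ℝ) * (∑ τ, A τ) * (∑ ρ, B ρ) := by
  rw [← Equiv.sum_comp (Equiv.ofBijective _ (glue_bijective (a := a) (b := b))) f]
  simp only [Equiv.ofBijective_apply, h]
  rw [Fintype.sum_prod_type]
  simp only [Fintype.sum_prod_type]
  rw [Finset.sum_const, Finset.card_univ, Fintype.card_finset_len, Fintype.card_fin,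
    nsmul_eq_mul, mul_assoc]
  congr 1
  rw [Finset.sum_mul]
  refine Finset.sum_congr rfl fun τ _ => ?_
  rw [Finset.mul_sum]

lemma ext_glue_left {a b : ℕ} (d : Data a b) {p q : ℕ} (hp : p < a) (hq : q < a) :
    ext (glue d) p < ext (glue d) q ↔ ext d.2.1 p < ext d.2.1 q := by
  have h1 : glue d ⟨p, by omega⟩ = d.1.1.orderEmbOfFin d.1.2 (d.2.1 ⟨p, hp⟩) :=
    glue_castAdd d ⟨p, hp⟩
  have h2 : glue d ⟨q, by omega⟩ = d.1.1.orderEmbOfFin d.1.2 (d.2.1 ⟨q, hq⟩) :=
    glue_castAdd d ⟨q, hq⟩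
  unfold ext
  rw [dif_pos (by omega : p < a + b), dif_pos (by omega : q < a + b), dif_pos hp, dif_pos hq,
    h1, h2, ← Fin.lt_def, ← Fin.lt_def, OrderEmbedding.lt_iff_lt]

lemma ext_glue_right {a b : ℕ} (d : Data a b) {p q : ℕ} (hp : p < b) (hq : q < b) :
    ext (glue d) (a + p) < ext (glue d) (a + q) ↔ ext d.2.2 p < ext d.2.2 q := by
  have h1 : glue d ⟨a + p, by omega⟩ =
      (d.1.1)ᶜ.orderEmbOfFin (compl_card d.1) (d.2.2 ⟨p, hp⟩) :=
    glue_natAdd d ⟨p, hp⟩
  have h2 : glue d ⟨a + q, by omega⟩ =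
      (d.1.1)ᶜ.orderEmbOfFin (compl_card d.1) (d.2.2 ⟨q, hq⟩) :=
    glue_natAdd d ⟨q, hq⟩
  unfold ext
  rw [dif_pos (by omega : a + p < a + b), dif_pos (by omega : a + q < a + b), dif_pos hp,
    dif_pos hq, h1, h2, ← Fin.lt_def, ← Fin.lt_def, OrderEmbedding.lt_iff_lt]

lemma O_glue_left {a b : ℕ} (d : Data a b) {i : ℕ} (hi : i + 6 ≤ a) :
    O (glue d) i ↔ O d.2.1 i := by
  unfold O
  rw [occ_congr (x := ext (glue d)) (y := ext d.2.1) (i := i) (j := i)
    (fun p q hp hq => ext_glue_left d (by omega) (by omega))]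
  constructor
  · rintro ⟨-, h⟩; exact ⟨hi, h⟩
  · rintro ⟨-, h⟩; exact ⟨by omega, h⟩

lemma O_glue_right {a b : ℕ} (d : Data a b) {i : ℕ} :
    O (glue d) (a + i) ↔ O d.2.2 i := by
  unfold O
  by_cases hi : i + 6 ≤ b
  · rw [occ_congr (x := ext (glue d)) (y := ext d.2.2) (i := a + i) (j := i)
      (fun p q hp hq => by
        rw [add_assoc, add_assoc]
        exact ext_glue_right d (by omega) (by omega))]
    constructor
    · rintro ⟨-, h⟩; exact ⟨hi, h⟩
    · rintro ⟨-, h⟩; exact ⟨by omega, h⟩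
  · constructor
    · rintro ⟨h, -⟩; omega
    · rintro ⟨h, -⟩; omega
/-- Signed cluster numbers. -/
noncomputable def U (v : ℝ) (m : ℕ) : ℝ := ∑ τ : Equiv.Perm (Fin m), u v (O τ) m

/-- Total weight of the permutations of `Fin n`. -/
noncomputable def av (v : ℝ) (n : ℕ) : ℝ := ∑ ρ : Equiv.Perm (Fin n), e v (O ρ) 0

lemma u_glue (v : ℝ) {a b : ℕ} (d : Data a b) : u v (O (glue d)) a = u v (O d.2.1) a := by
  unfold u
  by_cases h0 : a = 0
  · rw [if_pos h0, if_pos h0]
  · by_cases h1 : a = 1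
    · rw [if_neg h0, if_neg h0, if_pos h1, if_pos h1]
    · rw [if_neg h0, if_neg h0, if_neg h1, if_neg h1]
      by_cases h6 : 6 ≤ a
      · rw [if_pos h6, if_pos h6,
          w_congr v (O (glue d)) (O d.2.1) (a - 6) (fun l hl => O_glue_left d (by omega))]
      · rw [if_neg h6, if_neg h6]

lemma e_glue (v : ℝ) {a b : ℕ} (d : Data a b) : e v (O (glue d)) a = e v (O d.2.2) 0 := by
  unfold e
  congr 1
  have h1 : ({l | a ≤ l ∧ O (glue d) l} : Set ℕ)
      = (fun x => a + x) '' {l | 0 ≤ l ∧ O d.2.2 l} := by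
    ext l
    simp only [Set.mem_ofPred_eq, Set.mem_image]
    constructor
    · rintro ⟨hl, hl2⟩
      obtain ⟨l', rfl⟩ := Nat.exists_eq_add_of_le hl
      exact ⟨l', ⟨Nat.zero_le _, (O_glue_right d).1 hl2⟩, rfl⟩
    · rintro ⟨l', ⟨-, hl'⟩, rfl⟩
      exact ⟨by omega, (O_glue_right d).2 hl'⟩
  rw [h1, Set.ncard_image_of_injective _ (add_right_injective a)]

lemma sum_block (v : ℝ) (n m : ℕ) (hm : m ≤ n) :
    ∑ π : Equiv.Perm (Fin n), u v (O π) m * e v (O π) m
      = (n.choose m : ℝ) * U v m * av v (n - m) := by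
  obtain ⟨b, rfl⟩ := Nat.exists_eq_add_of_le hm
  rw [Nat.add_sub_cancel_left]
  exact product_formula _ _ _ (fun d => by rw [u_glue, e_glue])

lemma recurrence (v : ℝ) (n : ℕ) :
    ∑ m ∈ range (n + 1), (n.choose m : ℝ) * U v m * av v (n - m) = if n = 0 then 1 else 0 := by
  have h1 : ∑ m ∈ range (n + 1), (n.choose m : ℝ) * U v m * av v (n - m)
      = ∑ m ∈ range (n + 1), ∑ π : Equiv.Perm (Fin n), u v (O π) m * e v (O π) m := by
    refine Finset.sum_congr rfl fun m hm => ?_
    rw [Finset.mem_range] at hm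
    rw [sum_block v n m (by omega)]
  rw [h1, Finset.sum_comm]
  have h2 : ∀ π : Equiv.Perm (Fin n), ∑ m ∈ range (n + 1), u v (O π) m * e v (O π) m
      = if n = 0 then 1 else 0 := fun π => block_identity v (O π) n (fun i hi => hi.1)
  simp only [h2]
  by_cases hn : n = 0
  · subst hn
    simp
  · simp [hn]

/-! ### Signs -/

lemma O_overlap {n : ℕ} (π : Equiv.Perm (Fin n)) (i d : ℕ) (h1 : O π i) (h2 : O π (i + d)) :
    d ≠ 1 ∧ d ≠ 2 ∧ d ≠ 4 := occ_overlap (ext π) i d h1.2 h2.2

/-- Each summand in the recursion of `w` has the right sign. -/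
lemma signed_term (v : ℝ) {n : ℕ} (π : Equiv.Perm (Fin n)) (i j : ℕ) (hji : j < i)
    (hij : i ≤ j + 5) (hi : O π i) :
    (-1 : ℝ) ^ i * w v (O π) j = (-1) ^ (j + 1) * w v (O π) j := by
  by_cases hj : O π j
  · obtain ⟨d, rfl⟩ := Nat.exists_eq_add_of_lt hji
    have := O_overlap π j (d + 1) hj (by rw [← add_assoc]; exact hi)
    have hd : d = 2 ∨ d = 4 := by omega
    rcases hd with rfl | rfl
    · rw [show j + 2 + 1 = (j + 1) + 2 by ring, pow_add (-1 : ℝ) (j + 1) 2]; norm_num
    · rw [show j + 4 + 1 = (j + 1) + 4 by ring, pow_add (-1 : ℝ) (j + 1) 4]; norm_num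
  · rw [w_of_not _ _ _ hj, mul_zero, mul_zero]

lemma signed_rec (v : ℝ) {n : ℕ} (π : Equiv.Perm (Fin n)) (i : ℕ) (h0 : i ≠ 0) (hi : O π i) :
    (-1 : ℝ) ^ (i + 1) * w v (O π) i
      = (1 - v) * ∑ j ∈ range i, if i ≤ j + 5 then (-1) ^ (j + 1) * w v (O π) j else 0 := by
  rw [w_eq, if_pos hi, if_neg h0, pow_succ]
  have : (-1 : ℝ) ^ i * -1 * (-(1 - v) * ∑ j ∈ range i, if i ≤ j + 5 then w v (O π) j else 0)
      = (1 - v) * ((-1 : ℝ) ^ i * (∑ j ∈ range i, if i ≤ j + 5 then w v (O π) j else 0)) := by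
    ring
  rw [this, Finset.mul_sum]
  congr 1
  refine Finset.sum_congr rfl fun j hj => ?_
  rw [Finset.mem_range] at hj
  by_cases h5 : i ≤ j + 5
  · rw [if_pos h5, if_pos h5, signed_term v π i j hj h5 hi]
  · rw [if_neg h5, if_neg h5, mul_zero]

lemma signed_nonneg (v : ℝ) (hv : v < 1) {n : ℕ} (π : Equiv.Perm (Fin n)) (i : ℕ) :
    0 ≤ (-1 : ℝ) ^ (i + 1) * w v (O π) i := by
  induction i using Nat.strong_induction_on with
  | _ i ih =>
    by_cases hi : O π i
    · by_cases h0 : i = 0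
      · subst h0
        rw [w_eq, if_pos hi, if_pos rfl]
        norm_num
        linarith
      · rw [signed_rec v π i h0 hi]
        refine mul_nonneg (by linarith) (Finset.sum_nonneg fun j hj => ?_)
        rw [Finset.mem_range] at hj
        by_cases h5 : i ≤ j + 5
        · rw [if_pos h5]; exact ih j hj
        · rw [if_neg h5]
    · rw [w_of_not _ _ _ hi, mul_zero]

lemma signed_step (v : ℝ) (hv : v < 1) {n : ℕ} (π : Equiv.Perm (Fin n)) (i j : ℕ) (hji : j < i)
    (hij : i ≤ j + 5) (hi : O π i) :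
    (1 - v) * ((-1 : ℝ) ^ (j + 1) * w v (O π) j) ≤ (-1 : ℝ) ^ (i + 1) * w v (O π) i := by
  rw [signed_rec v π i (by omega) hi]
  have h := Finset.single_le_sum (s := range i)
    (f := fun j => if i ≤ j + 5 then (-1 : ℝ) ^ (j + 1) * w v (O π) j else 0)
    (fun k _ => by
      by_cases h5 : i ≤ k + 5
      · rw [if_pos h5]; exact signed_nonneg v hv π k
      · rw [if_neg h5]) (Finset.mem_range.2 hji)
  simp only [if_pos hij] at h
  exact mul_le_mul_of_nonneg_left h (by linarith)

/-- If `π` has occurrences at all positions `8 t` and `8 t + 3` for `t ≤ T` then the weight is at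
least `(1 - v) ^ (2 t + 2)`. -/
lemma signed_ge (v : ℝ) (hv : v < 1) {n : ℕ} (π : Equiv.Perm (Fin n)) (T : ℕ)
    (h : ∀ t ≤ T, O π (8 * t) ∧ O π (8 * t + 3)) :
    ∀ t ≤ T, (1 - v) ^ (2 * t + 2) ≤ (-1 : ℝ) ^ (8 * t + 3 + 1) * w v (O π) (8 * t + 3) := by
  have hv0 : 0 ≤ 1 - v := by linarith
  intro t
  induction t with
  | zero =>
    intro h0
    have h1 := signed_step v hv π 3 0 (by norm_num) (by norm_num) (h 0 h0).2
    have h2 : (-1 : ℝ) ^ (0 + 1) * w v (O π) 0 = 1 - v := by
      rw [w_eq, if_pos (h 0 h0).1, if_pos rfl]; norm_num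
    rw [h2] at h1
    calc (1 - v) ^ (2 * 0 + 2) = (1 - v) * (1 - v) := by ring
      _ ≤ _ := h1
  | succ t ih =>
    intro ht
    have h1 := ih (by omega)
    have h2 := signed_step v hv π (8 * (t + 1)) (8 * t + 3) (by omega) (by omega) (h (t + 1) ht).1
    have h3 := signed_step v hv π (8 * (t + 1) + 3) (8 * (t + 1)) (by omega) (by omega)
      (h (t + 1) ht).2
    calc (1 - v) ^ (2 * (t + 1) + 2) = (1 - v) * ((1 - v) * (1 - v) ^ (2 * t + 2)) := by ring
      _ ≤ (1 - v) * ((1 - v) * ((-1 : ℝ) ^ (8 * t + 3 + 1) * w v (O π) (8 * t + 3))) :=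
          mul_le_mul_of_nonneg_left (mul_le_mul_of_nonneg_left h1 hv0) hv0
      _ ≤ (1 - v) * ((-1 : ℝ) ^ (8 * (t + 1) + 1) * w v (O π) (8 * (t + 1))) :=
          mul_le_mul_of_nonneg_left h2 hv0
      _ ≤ _ := h3

/-! ### Many permutations respecting a level function -/

/-- Permutations increasing with respect to a level function. -/
def Resp {n : ℕ} (L : Fin n → Fin 7) (π : Equiv.Perm (Fin n)) : Prop :=
  ∀ p q, L p < L q → π p < π q

lemma card_resp {n : ℕ} (L : Fin n → Fin 7) [DecidablePred (Resp L)] :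
    n.factorial ≤ (univ.filter (Resp L)).card * 7 ^ n := by
  classical
  have h1 := Finset.card_le_mul_card_image (f := fun g : Equiv.Perm (Fin n) => L ∘ g)
    (univ : Finset (Equiv.Perm (Fin n))) (univ.filter (Resp L)).card (by
      intro c hc
      rw [Finset.mem_image] at hc
      obtain ⟨g₀, -, rfl⟩ := hc
      refine Finset.card_le_card_of_injOn (fun g => (g₀.symm.trans g).trans (Tuple.sort L).symm) ?_ ?_
      · intro g hg
        rw [Finset.mem_coe, Finset.mem_filter] at hg
        rw [Finset.mem_coe, Finset.mem_filter]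
        refine ⟨Finset.mem_univ _, ?_⟩
        intro p q hpq
        by_contra hlt
        rw [not_lt] at hlt
        have hm := Tuple.monotone_sort L hlt
        simp only [Function.comp_apply, Equiv.trans_apply, Equiv.apply_symm_apply] at hm
        have hL : ∀ x, L (g (g₀.symm x)) = L x := by
          intro x
          have := congrFun hg.2 (g₀.symm x)
          simpa using this
        rw [hL, hL] at hm
        exact absurd hpq (not_lt.2 hm)
      · intro g _ g' _ hgg
        ext x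
        have := congrArg (fun π => (Tuple.sort L) (π (g₀ x))) hgg
        simpa using congrArg Fin.val this)
  rw [Finset.card_univ, Fintype.card_perm, Fintype.card_fin] at h1
  refine h1.trans (Nat.mul_le_mul_left _ ?_)
  calc (Finset.image (fun g : Equiv.Perm (Fin n) => L ∘ g) univ).card
      ≤ (univ : Finset (Fin n → Fin 7)).card := Finset.card_le_univ _
    _ = 7 ^ n := by simp

/-- The periodic level function. -/
def lev (p : ℕ) : Fin 7 :=
  if p % 8 = 0 then 2 else if p % 8 = 1 then 6 else if p % 8 = 2 then 4 else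
  if p % 8 = 3 then 1 else if p % 8 = 4 then 5 else if p % 8 = 5 then 3 else
  if p % 8 = 6 then 0 else 4

lemma resp_ext {n : ℕ} (π : Equiv.Perm (Fin n)) (h : Resp (fun p : Fin n => lev p) π) (p q : ℕ)
    (hp : p < n) (hq : q < n) (hpq : lev p < lev q) : ext π p < ext π q := by
  unfold ext
  rw [dif_pos hp, dif_pos hq]
  exact h ⟨p, hp⟩ ⟨q, hq⟩ hpq

lemma resp_O (T : ℕ) (π : Equiv.Perm (Fin (8 * T + 9)))
    (h : Resp (fun p : Fin (8 * T + 9) => lev p) π) :
    ∀ t ≤ T, O π (8 * t) ∧ O π (8 * t + 3) := by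
  intro t ht
  have key : ∀ r s, r ≤ 8 → s ≤ 8 → lev (8 * t + r) < lev (8 * t + s) →
      ext π (8 * t + r) < ext π (8 * t + s) := by
    intro r s hr hs hrs
    exact resp_ext π h _ _ (by omega) (by omega) hrs
  have l0 : lev (8 * t + 0) = 2 := by
    simp [lev]
  have l1 : lev (8 * t + 1) = 6 := by
    have : (8 * t + 1) % 8 = 1 := by omega
    simp [lev, this]
  have l2 : lev (8 * t + 2) = 4 := by
    have : (8 * t + 2) % 8 = 2 := by omega
    simp [lev, this]
  have l3 : lev (8 * t + 3) = 1 := by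
    have : (8 * t + 3) % 8 = 3 := by omega
    simp [lev, this]
  have l4 : lev (8 * t + 4) = 5 := by
    have : (8 * t + 4) % 8 = 4 := by omega
    simp [lev, this]
  have l5 : lev (8 * t + 5) = 3 := by
    have : (8 * t + 5) % 8 = 5 := by omega
    simp [lev, this]
  have l6 : lev (8 * t + 6) = 0 := by
    have : (8 * t + 6) % 8 = 6 := by omega
    simp [lev, this]
  have l7 : lev (8 * t + 7) = 4 := by
    have : (8 * t + 7) % 8 = 7 := by omega
    simp [lev, this]
  have l8 : lev (8 * t + 8) = 2 := by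
    have : (8 * t + 8) % 8 = 0 := by omega
    simp [lev, this]
  refine ⟨⟨by omega, ?_, ?_, ?_, ?_, ?_⟩, ⟨by omega, ?_, ?_, ?_, ?_, ?_⟩⟩
  · exact key 3 0 (by norm_num) (by norm_num) (by rw [l3, l0]; decide)
  · exact key 0 5 (by norm_num) (by norm_num) (by rw [l0, l5]; decide)
  · exact key 5 2 (by norm_num) (by norm_num) (by rw [l5, l2]; decide)
  · exact key 2 4 (by norm_num) (by norm_num) (by rw [l2, l4]; decide)
  · exact key 4 1 (by norm_num) (by norm_num) (by rw [l4, l1]; decide)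
  · exact key 6 3 (by norm_num) (by norm_num) (by rw [l6, l3]; decide)
  · exact key 3 8 (by norm_num) (by norm_num) (by rw [l3, l8]; decide)
  · exact key 8 5 (by norm_num) (by norm_num) (by rw [l8, l5]; decide)
  · exact key 5 7 (by norm_num) (by norm_num) (by rw [l5, l7]; decide)
  · exact key 7 4 (by norm_num) (by norm_num) (by rw [l7, l4]; decide)
/-- The signed cluster numbers do not decay super-exponentially (relative to `m!`). -/
lemma U_lower (v : ℝ) (hv : v < 1) (T : ℕ) :
    (1 - v) ^ (2 * T + 2) * ((8 * T + 9).factorial : ℝ) ≤ - U v (8 * T + 9) * 7 ^ (8 * T + 9) := by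
  classical
  have hv0 : 0 ≤ 1 - v := by linarith
  have h1 : - U v (8 * T + 9) = ∑ τ : Equiv.Perm (Fin (8 * T + 9)), w v (O τ) (8 * T + 3) := by
    unfold U
    rw [← Finset.sum_neg_distrib]
    refine Finset.sum_congr rfl fun τ _ => ?_
    unfold u
    rw [if_neg (by omega), if_neg (by omega), if_pos (by omega), neg_neg]
    rfl
  have hsign : ∀ τ : Equiv.Perm (Fin (8 * T + 9)),
      (-1 : ℝ) ^ (8 * T + 3 + 1) * w v (O τ) (8 * T + 3) = w v (O τ) (8 * T + 3) := by
    intro τ
    rw [show 8 * T + 3 + 1 = 2 * (4 * T + 2) by ring, pow_mul]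
    norm_num
  have h2 : (1 - v) ^ (2 * T + 2)
        * ((univ.filter (Resp (fun p : Fin (8 * T + 9) => lev p))).card : ℝ)
      ≤ ∑ τ : Equiv.Perm (Fin (8 * T + 9)), w v (O τ) (8 * T + 3) := by
    calc (1 - v) ^ (2 * T + 2)
          * ((univ.filter (Resp (fun p : Fin (8 * T + 9) => lev p))).card : ℝ)
        = ∑ τ ∈ univ.filter (Resp (fun p : Fin (8 * T + 9) => lev p)),
            (1 - v) ^ (2 * T + 2) := by
          rw [Finset.sum_const, nsmul_eq_mul, mul_comm]
      _ ≤ ∑ τ ∈ univ.filter (Resp (fun p : Fin (8 * T + 9) => lev p)),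
            w v (O τ) (8 * T + 3) := by
          refine Finset.sum_le_sum fun τ hτ => ?_
          rw [Finset.mem_filter] at hτ
          have := signed_ge v hv τ T (resp_O T τ hτ.2) T le_rfl
          rwa [hsign] at this
      _ ≤ ∑ τ : Equiv.Perm (Fin (8 * T + 9)), w v (O τ) (8 * T + 3) := by
          refine Finset.sum_le_sum_of_subset_of_nonneg (Finset.filter_subset _ _)
            fun τ _ _ => ?_
          have := signed_nonneg v hv τ (8 * T + 3)
          rwa [hsign] at this
  have h3 := card_resp (fun p : Fin (8 * T + 9) => lev p)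
  rw [h1]
  calc (1 - v) ^ (2 * T + 2) * ((8 * T + 9).factorial : ℝ)
      ≤ (1 - v) ^ (2 * T + 2) *
        (((univ.filter (Resp (fun p : Fin (8 * T + 9) => lev p))).card : ℝ) * 7 ^ (8 * T + 9)) := by
        refine mul_le_mul_of_nonneg_left ?_ (by positivity)
        exact_mod_cast h3
    _ = ((1 - v) ^ (2 * T + 2)
        * ((univ.filter (Resp (fun p : Fin (8 * T + 9) => lev p))).card : ℝ))
          * 7 ^ (8 * T + 9) := by ring
    _ ≤ _ := by
        apply mul_le_mul_of_nonneg_right h2 (by positivity)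

/-! ### Conclusion -/

lemma av_bound (v : ℝ) (n : ℕ) :
    |av v n| ≤ (max 1 |v|) ^ n * (n.factorial : ℝ) := by
  have hM : (1 : ℝ) ≤ max 1 |v| := le_max_left _ _
  unfold av
  calc |∑ ρ : Equiv.Perm (Fin n), e v (O ρ) 0|
      ≤ ∑ ρ : Equiv.Perm (Fin n), |e v (O ρ) 0| := Finset.abs_sum_le_sum_abs _ _
    _ ≤ ∑ ρ : Equiv.Perm (Fin n), (max 1 |v|) ^ n := by
        refine Finset.sum_le_sum fun ρ _ => ?_
        unfold e
        rw [abs_pow]
        have hcard : Set.ncard {l | 0 ≤ l ∧ O ρ l} ≤ n := by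
          have h1 : ({l | 0 ≤ l ∧ O ρ l} : Set ℕ) ⊆ Set.Iio n := by
            rintro l ⟨-, hl⟩
            have := hl.1
            simp only [Set.mem_Iio]
            omega
          have h2 := Set.ncard_le_ncard h1 (Set.finite_Iio n)
          simpa [Set.ncard_eq_toFinset_card'] using h2
        calc |v| ^ Set.ncard {l | 0 ≤ l ∧ O ρ l}
            ≤ (max 1 |v|) ^ Set.ncard {l | 0 ≤ l ∧ O ρ l} :=
              pow_le_pow_left₀ (abs_nonneg _) (le_max_right _ _) _
          _ ≤ (max 1 |v|) ^ n := pow_le_pow_right₀ hM hcard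
    _ = (max 1 |v|) ^ n * (n.factorial : ℝ) := by
        rw [Finset.sum_const, Finset.card_univ, Fintype.card_perm, Fintype.card_fin,
          nsmul_eq_mul, mul_comm]

lemma av_zero (v : ℝ) : av v 0 = 1 := by
  unfold av e
  rw [Fintype.sum_eq_single (1 : Equiv.Perm (Fin 0))]
  · have : ({l | 0 ≤ l ∧ O (1 : Equiv.Perm (Fin 0)) l} : Set ℕ) = ∅ := by
      ext l
      simp only [Set.mem_ofPred_eq, Set.mem_empty_iff_false, iff_false, not_and]
      intro _ h
      exact absurd h.1 (by omega)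
    rw [this, Set.ncard_empty, pow_zero]
  · intro x hx
    exact absurd (Subsingleton.elim x 1) hx

lemma coef_unique (v : ℝ) (a : ℕ → ℂ)
    (ha : ∀ n, ∑ i ∈ range (n + 1), (n.choose i : ℂ) * a i * ((av v (n - i) : ℝ) : ℂ)
      = if n = 0 then 1 else 0) (n : ℕ) : a n = ((U v n : ℝ) : ℂ) := by
  induction n using Nat.strong_induction_on with
  | _ n ih =>
    have h1 := ha n
    have h2 : (∑ i ∈ range (n + 1),
          (n.choose i : ℂ) * ((U v i : ℝ) : ℂ) * ((av v (n - i) : ℝ) : ℂ))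
        = if n = 0 then 1 else 0 := by
      have := recurrence v n
      have h3 := congrArg (fun z : ℝ => (z : ℂ)) this
      push_cast at h3
      rw [h3]
      by_cases hn : n = 0
      · simp [hn]
      · simp [hn]
    rw [Finset.sum_range_succ, Nat.choose_self, Nat.sub_self, av_zero] at h1 h2
    have h4 : ∑ i ∈ range n, (n.choose i : ℂ) * a i * ((av v (n - i) : ℝ) : ℂ)
        = ∑ i ∈ range n, (n.choose i : ℂ) * ((U v i : ℝ) : ℂ) * ((av v (n - i) : ℝ) : ℂ) := by
      refine Finset.sum_congr rfl fun i hi => ?_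
      rw [Finset.mem_range] at hi
      rw [ih i hi]
    rw [h4] at h1
    have h5 := h1.trans h2.symm
    have h6 := add_left_cancel h5
    simpa using h6

/-- No function holomorphic in a disc of radius `R` with `7 ^ 4 < (1 - v) R ^ 4` is a reciprocal
of the generating function near `0`. -/
theorem no_holomorphic (v : ℝ) (hv : v < 1) (R : ℝ) (hR0 : 0 < R)
    (hR : 7 ^ 4 < (1 - v) * R ^ 4) (f : ℂ → ℂ)
    (hf : DifferentiableOn ℂ f (Metric.ball 0 R))
    (hfF : ∀ᶠ z in nhds (0 : ℂ),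
      f z * (∑' n : ℕ, ((av v n : ℝ) : ℂ) / ((Nat.factorial n : ℕ) : ℂ) * z ^ n) = 1) : False := by
  have hv0 : 0 < 1 - v := by linarith
  -- a slightly smaller radius
  obtain ⟨r, hr0, hrR, hr⟩ : ∃ r : ℝ, 0 < r ∧ r < R ∧ 7 ^ 4 < (1 - v) * r ^ 4 := by
    have hcont : ContinuousAt (fun x : ℝ => (1 - v) * x ^ 4) R := by fun_prop
    have h1 : ∀ᶠ x in nhds R, 7 ^ 4 < (1 - v) * x ^ 4 := hcont.eventually_const_lt hR
    have h2 : ∀ᶠ x in nhds R, 0 < x := lt_mem_nhds hR0
    have h3 : ∃ᶠ x in nhds R, x < R :=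
      frequently_lt_nhds R
    obtain ⟨x, hx1, hx2, hx3⟩ := (h3.and_eventually (h1.and h2)).exists
    exact ⟨x, hx3, hx1, hx2⟩
  set M : NNReal := ⟨max 1 |v|, le_trans zero_le_one (le_max_left _ _)⟩ with hM
  have hM1 : 1 ≤ M := by
    rw [← NNReal.coe_le_coe]; exact le_max_left _ _
  have hbd : ∀ n, ‖((av v n : ℝ) : ℂ)‖ ≤ (M : ℝ) ^ n * (n.factorial : ℝ) := by
    intro n
    rw [Complex.norm_real]
    exact av_bound v n
  obtain ⟨hFan, hFd⟩ := egf_analytic M hM1 (fun n => ((av v n : ℝ) : ℂ)) hbd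
    (fun z => ∑' n : ℕ, ((av v n : ℝ) : ℂ) / ((Nat.factorial n : ℕ) : ℂ) * z ^ n) (fun z => rfl)
  have hfa : AnalyticAt ℂ f 0 :=
    hf.analyticAt (Metric.ball_mem_nhds 0 hR0)
  have hconv := conv_identity (fun n => ((av v n : ℝ) : ℂ)) _ f hFan hFd hfa hfF
  have hcoef := coef_unique v (fun n => iteratedDeriv n f 0) hconv
  obtain ⟨C, hC⟩ := cauchy_disc f r R hr0 hrR hf
  set q : ℝ := (1 - v) * r ^ 4 / 7 ^ 4 with hq
  have hq1 : 1 < q := by rw [hq, one_lt_div (by positivity)]; exact hr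
  -- the contradiction
  have hbig : ∀ T : ℕ, (q ^ T) * ((1 - v) ^ T * (r ^ (4 * T) / 7 ^ (4 * T))
      * ((1 - v) ^ 2 * r ^ 9 / 7 ^ 9)) ≤ C := by
    intro T
    have h1 := hC (8 * T + 9)
    rw [hcoef (8 * T + 9), Complex.norm_real, Real.norm_eq_abs] at h1
    have h2 := U_lower v hv T
    have hfac : (0 : ℝ) < ((8 * T + 9).factorial : ℝ) := by
      exact_mod_cast Nat.factorial_pos _
    have h7 : (0 : ℝ) < 7 ^ (8 * T + 9) := by positivity
    have hrp : (0 : ℝ) < r ^ (8 * T + 9) := by positivity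
    have h3 : (1 - v) ^ (2 * T + 2) * ((8 * T + 9).factorial : ℝ)
        ≤ |U v (8 * T + 9)| * 7 ^ (8 * T + 9) :=
      h2.trans (mul_le_mul_of_nonneg_right (neg_le_abs _) (by positivity))
    have h5 : ((8 * T + 9).factorial : ℝ) * ((1 - v) ^ (2 * T + 2) * r ^ (8 * T + 9))
        ≤ ((8 * T + 9).factorial : ℝ) * (C * 7 ^ (8 * T + 9)) := by
      calc ((8 * T + 9).factorial : ℝ) * ((1 - v) ^ (2 * T + 2) * r ^ (8 * T + 9))
          = ((1 - v) ^ (2 * T + 2) * ((8 * T + 9).factorial : ℝ)) * r ^ (8 * T + 9) := by ring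
        _ ≤ (|U v (8 * T + 9)| * 7 ^ (8 * T + 9)) * r ^ (8 * T + 9) :=
            mul_le_mul_of_nonneg_right h3 hrp.le
        _ = (|U v (8 * T + 9)| * r ^ (8 * T + 9)) * 7 ^ (8 * T + 9) := by ring
        _ ≤ (C * ((8 * T + 9).factorial : ℝ)) * 7 ^ (8 * T + 9) :=
            mul_le_mul_of_nonneg_right h1 (by positivity)
        _ = _ := by ring
    have h6 := le_of_mul_le_mul_left h5 hfac
    have h8 : (q ^ T) * ((1 - v) ^ T * (r ^ (4 * T) / 7 ^ (4 * T))
      * ((1 - v) ^ 2 * r ^ 9 / 7 ^ 9))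
        = ((1 - v) ^ (2 * T + 2) * r ^ (8 * T + 9)) / 7 ^ (8 * T + 9) := by
      have e7 : (7 : ℝ) ^ (8 * T + 9) = 7 ^ (4 * T) * (7 ^ (4 * T) * 7 ^ 9) := by
        rw [← pow_add, ← pow_add]
        congr 1
        ring
      rw [hq, div_pow, mul_pow, ← pow_mul, ← pow_mul, e7]
      field_simp
      ring
    rw [h8, div_le_iff₀ h7]
    exact h6
  have hpos : 0 < (1 - v) ^ 2 * r ^ 9 / 7 ^ 9 := by positivity
  have hbig2 : ∀ T : ℕ, q ^ T * ((1 - v) ^ 2 * r ^ 9 / 7 ^ 9) ≤ C := by
    intro T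
    refine le_trans ?_ (hbig T)
    refine mul_le_mul_of_nonneg_left ?_ (by positivity)
    have : (1 : ℝ) ≤ (1 - v) ^ T * (r ^ (4 * T) / 7 ^ (4 * T)) := by
      have h1 : (1 - v) ^ T * (r ^ (4 * T) / 7 ^ (4 * T)) = q ^ T := by
        rw [hq, div_pow, mul_pow, ← pow_mul, ← pow_mul, mul_div_assoc]
      rw [h1]
      exact one_le_pow₀ hq1.le
    calc (1 - v) ^ 2 * r ^ 9 / 7 ^ 9 = 1 * ((1 - v) ^ 2 * r ^ 9 / 7 ^ 9) := (one_mul _).symm
      _ ≤ _ := mul_le_mul_of_nonneg_right this hpos.le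
  obtain ⟨k, hk⟩ := pow_unbounded_of_one_lt (C / ((1 - v) ^ 2 * r ^ 9 / 7 ^ 9)) hq1
  rw [div_lt_iff₀ hpos] at hk
  exact absurd (hbig2 k) (not_le.2 hk)

end Pool.Agent.Lib.Cluster264153
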