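import Mathlib

/-!
# Fibred endomorphisms of projective space: basic definitions

`E W = (C x C) x W`; points of projective space outside the centre are represented by vectors
`(x, w)` with `x` nonzero. `Sys W` is a homogeneous map `F (x, w) = (g x, h (x, w))`.
-/

set_option autoImplicit false

open Set Metric Filter Topology

namespace MF7

/-- the base plane, with the maximum norm -/
abbrev B2 : Type := ℂ × ℂ

/-- the determinant of two vectors of the plane -/
def wedge (x y : B2) : ℂ := x.1 * y.2 - x.2 * y.1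

/-- the square of the Euclidean norm -/
noncomputable def nsq (x : B2) : ℝ := ‖x.1‖ ^ 2 + ‖x.2‖ ^ 2

/-- a vector orthogonal to `x` -/
noncomputable def perp (x : B2) : B2 :=
  (-(starRingEnd ℂ x.2), starRingEnd ℂ x.1)

/-- A homogeneous map of `(C x C) x W` of the form `(x, w) -> (g x, h (x, w))`. -/
structure Sys (W : Type) [NormedAddCommGroup W] [NormedSpace ℂ W] where
  d : ℕ
  g : B2 → B2
  h : B2 × W → W
  g_diff : Differentiable ℂ g
  h_diff : Differentiable ℂ h
  g_hom : ∀ (c : ℂ) (x : B2), g (c • x) = c ^ d • g x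
  h_hom : ∀ (c : ℂ) (v : B2 × W), h (c • v) = c ^ d • h v
  g_ne : ∀ x : B2, x ≠ 0 → g x ≠ 0
  g_surj : ∀ y : B2, y ≠ 0 → ∃ x : B2, x ≠ 0 ∧ wedge (g x) y = 0

section
variable {W : Type} [NormedAddCommGroup W] [NormedSpace ℂ W]

/-- the map of the total space -/
def Sys.F (s : Sys W) (v : B2 × W) : B2 × W := (s.g v.1, s.h v)

/-- a cone outside the centre -/
def IsCone (C : Set (B2 × W)) : Prop :=
  (∀ c : ℂ, c ≠ 0 → ∀ v ∈ C, c • v ∈ C) ∧ ∀ v ∈ C, v.1 ≠ 0

/-- bounded away from the centre -/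
def IsBdd (C : Set (B2 × W)) : Prop := ∃ M : ℝ, ∀ v ∈ C, ‖v.2‖ ≤ M * ‖v.1‖

/-- a trapping cone -/
structure Trap (s : Sys W) (U : Set (B2 × W)) : Prop where
  op : IsOpen U
  cone : IsCone U
  bdd : IsBdd U
  trap : ∀ v ∈ closure U, v.1 ≠ 0 → s.F v ∈ U

/-- a closed cone (closed outside the centre) -/
structure ClCone (C : Set (B2 × W)) : Prop where
  cone : IsCone C
  bdd : IsBdd C
  cl : ∀ v ∈ closure C, v.1 ≠ 0 → v ∈ C

/-- curves: `v z` represents a point of projective space; locally there is a continuous lift with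
holomorphic base component -/
def IsCurve (v : ℂ → B2 × W) : Prop :=
  ∀ z₀ : ℂ, ∃ r : ℝ, 0 < r ∧ ∃ (X : ℂ → B2) (Z : ℂ → W),
    DifferentiableOn ℂ X (ball z₀ r) ∧ ContinuousOn Z (ball z₀ r) ∧
    ∀ z ∈ ball z₀ r, X z ≠ 0 ∧ ∃ c : ℂ, c ≠ 0 ∧ v z = c • (X z, Z z)

/-- the base component of the curve is not constant -/
def NonConst (v : ℂ → B2 × W) : Prop := ∃ z z' : ℂ, wedge (v z).1 (v z').1 ≠ 0

/-- discs: lifts holomorphic on the ball of radius `R` with values in `N` -/
def IsDisc (N : Set (B2 × W)) (R : ℝ) (X : ℂ → B2) (Z : ℂ → W) : Prop :=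
  DifferentiableOn ℂ X (ball 0 R) ∧ DifferentiableOn ℂ Z (ball 0 R) ∧
    ∀ z ∈ ball (0 : ℂ) R, (X z, Z z) ∈ N

/-- spherical derivative of the base component -/
noncomputable def sder (X : ℂ → B2) (z : ℂ) : ℝ := ‖wedge (X z) (deriv X z)‖ / nsq (X z)

end

end MF7
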