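import Pool.Agent.Lib.MF7_PDef
import Pool.Agent.Lib.MF7_Base

/-!
# Row PA: topology of projective space, continuity of the induced maps (helper70)
-/

set_option autoImplicit false

open Set Metric Filter Topology
open scoped LinearAlgebra.Projectivization

namespace MF7

theorem continuous_pmk (n : ℕ) : Continuous
    (fun v : {v : Fin n → ℂ // v ≠ 0} => Projectivization.mk ℂ v.1 v.2) :=
  continuous_coinduced_rng

theorem isOpenMap_pmk (n : ℕ) : IsOpenMap
    (fun v : {v : Fin n → ℂ // v ≠ 0} => Projectivization.mk ℂ v.1 v.2) := by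
  intro U hU
  rw [isOpen_coinduced]
  have h1 : (fun v : {v : Fin n → ℂ // v ≠ 0} => Projectivization.mk ℂ v.1 v.2) ⁻¹'
      ((fun v : {v : Fin n → ℂ // v ≠ 0} => Projectivization.mk ℂ v.1 v.2) '' U) =
      ⋃ c : ℂˣ, (fun v : {v : Fin n → ℂ // v ≠ 0} =>
        (⟨(c : ℂ) • v.1, smul_ne_zero c.ne_zero v.2⟩ : {v : Fin n → ℂ // v ≠ 0})) ⁻¹' U := by
    ext v
    simp only [mem_preimage, mem_image, mem_iUnion]
    constructor
    · rintro ⟨u, hu, huv⟩
      obtain ⟨c, hc⟩ := (Projectivization.mk_eq_mk_iff ℂ u.1 v.1 u.2 v.2).1 huv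
      refine ⟨c, ?_⟩
      convert hu
      exact hc
    · rintro ⟨c, hc⟩
      refine ⟨_, hc, ?_⟩
      rw [Projectivization.mk_eq_mk_iff]
      exact ⟨c, rfl⟩
  rw [h1]
  refine isOpen_iUnion fun c => hU.preimage ?_
  exact (continuous_subtype_val.const_smul (c : ℂ)).subtype_mk _

theorem surjective_pmk (n : ℕ) : Function.Surjective
    (fun v : {v : Fin n → ℂ // v ≠ 0} => Projectivization.mk ℂ v.1 v.2) := fun p =>
  ⟨⟨p.rep, p.rep_nonzero⟩, p.mk_rep⟩

theorem isOpenQuotientMap_pmk (n : ℕ) : IsOpenQuotientMap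
    (fun v : {v : Fin n → ℂ // v ≠ 0} => Projectivization.mk ℂ v.1 v.2) :=
  ⟨surjective_pmk n, continuous_pmk n, isOpenMap_pmk n⟩

instance projCompact (n : ℕ) : CompactSpace (ℙ ℂ (Fin n → ℂ)) := by
  have hne : ∀ v : sphere (0 : Fin n → ℂ) 1, v.1 ≠ 0 := fun v =>
    ne_zero_of_mem_unit_sphere v
  have hc : Continuous fun v : sphere (0 : Fin n → ℂ) 1 =>
      Projectivization.mk ℂ v.1 (hne v) :=
    (continuous_pmk n).comp (continuous_subtype_val.subtype_mk hne)
  have hs : range (fun v : sphere (0 : Fin n → ℂ) 1 => Projectivization.mk ℂ v.1 (hne v)) =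
      univ := by
    refine eq_univ_of_forall fun p => ?_
    have hr : ‖p.rep‖ ≠ 0 := norm_ne_zero_iff.2 p.rep_nonzero
    have hv : ((‖p.rep‖⁻¹ : ℝ) : ℂ) • p.rep ∈ sphere (0 : Fin n → ℂ) 1 := by
      rw [mem_sphere_zero_iff_norm, norm_smul, Complex.norm_real, norm_inv, norm_norm,
        inv_mul_cancel₀ hr]
    refine ⟨⟨_, hv⟩, ?_⟩
    conv_rhs => rw [← p.mk_rep]
    rw [Projectivization.mk_eq_mk_iff']
    exact ⟨_, rfl⟩
  constructor
  rw [← hs]
  have : CompactSpace (sphere (0 : Fin n → ℂ) 1) := isCompact_iff_compactSpace.1 (isCompact_sphere _ _)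
  exact isCompact_range hc

theorem mk_eq_mk_iff_minors {n : ℕ} {v w : Fin n → ℂ} (hv : v ≠ 0) (hw : w ≠ 0) :
    Projectivization.mk ℂ v hv = Projectivization.mk ℂ w hw ↔ ∀ i j, v i * w j = v j * w i := by
  rw [Projectivization.mk_eq_mk_iff']
  constructor
  · rintro ⟨a, rfl⟩ i j
    simp only [Pi.smul_apply, smul_eq_mul]
    ring
  · intro h
    obtain ⟨j, hj⟩ := Function.ne_iff.1 hw
    have hj' : w j ≠ 0 := hj
    refine ⟨v j / w j, ?_⟩
    ext i
    rw [Pi.smul_apply, smul_eq_mul, div_mul_eq_mul_div, ← h i j, mul_div_assoc, div_self hj',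
      mul_one]

instance projT2 (n : ℕ) : T2Space (ℙ ℂ (Fin n → ℂ)) := by
  rw [t2Space_iff_of_isOpenQuotientMap (isOpenQuotientMap_pmk n)]
  have h1 : {q : {v : Fin n → ℂ // v ≠ 0} × {v : Fin n → ℂ // v ≠ 0} |
      Projectivization.mk ℂ q.1.1 q.1.2 = Projectivization.mk ℂ q.2.1 q.2.2} =
      ⋂ i, ⋂ j, {q | q.1.1 i * q.2.1 j = q.1.1 j * q.2.1 i} := by
    ext q
    simp only [mem_ofPred_eq, mem_iInter]
    exact mk_eq_mk_iff_minors q.1.2 q.2.2
  rw [h1]
  refine isClosed_iInter fun i => isClosed_iInter fun j => ?_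
  have hc1 : ∀ i : Fin n, Continuous fun q : {v : Fin n → ℂ // v ≠ 0} × {v : Fin n → ℂ // v ≠ 0} =>
      q.1.1 i := fun i =>
    (continuous_apply i).comp (continuous_subtype_val.comp continuous_fst)
  have hc2 : ∀ i : Fin n, Continuous fun q : {v : Fin n → ℂ // v ≠ 0} × {v : Fin n → ℂ // v ≠ 0} =>
      q.2.1 i := fun i =>
    (continuous_apply i).comp (continuous_subtype_val.comp continuous_snd)
  exact isClosed_eq ((hc1 i).mul (hc2 j)) ((hc1 j).mul (hc2 i))

theorem FM.continuous_Phi {n d : ℕ} (f : FM n d) : Continuous f.Φ := by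
  refine continuous_pi fun i => ?_
  obtain ⟨p, hp⟩ := f.poly i
  simp_rw [hp]
  exact MvPolynomial.continuous_eval p

theorem FM.continuous_map {n d : ℕ} (f : FM n d) : Continuous f.map := by
  rw [(isOpenQuotientMap_pmk n).isQuotientMap.continuous_iff]
  have h1 : f.map ∘ (fun v : {v : Fin n → ℂ // v ≠ 0} => Projectivization.mk ℂ v.1 v.2) =
      fun v : {v : Fin n → ℂ // v ≠ 0} => Projectivization.mk ℂ (f.Φ v.1) (f.ne v.2) :=
    funext fun v => f.map_mk v.2
  rw [h1]
  exact (continuous_pmk n).comp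
    ((f.continuous_Phi.comp continuous_subtype_val).subtype_mk fun v => f.ne v.2)

end MF7
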