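import Pool.Agent.Lib.MF7_PDef
import Pool.Agent.Lib.MF7_Base

/-!
# PB: the homogeneous system of a block-triangular map
-/

set_option autoImplicit false

open Set Metric Filter Topology

namespace MF7

theorem PB.join_smul {n : ℕ} (c : ℂ) (v : B2 × (Fin n → ℂ)) : join (c • v) = c • join v := by
  ext j
  refine Fin.cases ?_ (fun j => Fin.cases ?_ (fun j => ?_) j) j <;> simp [join]

theorem PB.join_diff (n : ℕ) : Differentiable ℂ (fun v : B2 × (Fin n → ℂ) => join v) := by
  rw [differentiable_pi]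
  intro j
  refine Fin.cases ?_ (fun j => Fin.cases ?_ (fun j => ?_) j) j
  · exact differentiable_fst.fst
  · exact differentiable_fst.snd
  · have h1 : Differentiable ℂ (fun v : B2 × (Fin n → ℂ) => v.2) := differentiable_snd
    exact (differentiable_pi.1 h1) j

theorem PB.eval_diff {n : ℕ} (p : MvPolynomial (Fin n) ℂ) :
    Differentiable ℂ (fun v : Fin n → ℂ => MvPolynomial.eval v p) := by
  induction p using MvPolynomial.induction_on with
  | C a => simp
  | add p q hp hq =>
    simp only [map_add]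
    exact hp.fun_add hq
  | mul_X p i hp =>
    simp only [map_mul, MvPolynomial.eval_X]
    exact hp.mul (differentiable_apply i)

theorem PB.Phi_diff {n d : ℕ} (f : FM n d) (i : Fin n) :
    Differentiable ℂ (fun v : Fin n → ℂ => f.Φ v i) := by
  obtain ⟨p, hp⟩ := f.poly i
  simp only [hp]
  exact PB.eval_diff p

/-- the base component -/
def PB.g {n d : ℕ} (f : FM (n + 2) d) (x : B2) : B2 :=
  (f.Φ (join (x, (0 : Fin n → ℂ))) 0, f.Φ (join (x, (0 : Fin n → ℂ))) 1)

theorem PB.g_fst {n d : ℕ} (f : FM (n + 2) d) (v : B2 × (Fin n → ℂ)) :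
    (PB.g f v.1).1 = f.Φ (join v) 0 := by
  refine f.tri _ _ _ (fun j => ?_)
  refine Fin.cases ?_ (fun j => Fin.cases ?_ (fun j => ?_) j) j
  · intro _; rfl
  · intro _; rfl
  · intro hj
    simp only [Fin.val_succ, Fin.val_zero] at hj
    omega

theorem PB.g_snd {n d : ℕ} (f : FM (n + 2) d) (v : B2 × (Fin n → ℂ)) :
    (PB.g f v.1).2 = f.Φ (join v) 1 := by
  refine f.tri _ _ _ (fun j => ?_)
  refine Fin.cases ?_ (fun j => Fin.cases ?_ (fun j => ?_) j) j
  · intro _; rfl
  · intro _; rfl
  · intro hj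
    simp only [Fin.val_succ, Fin.val_one] at hj
    omega

theorem PB.incl_diff (n : ℕ) : Differentiable ℂ (fun x : B2 => join (x, (0 : Fin n → ℂ))) :=
  (PB.join_diff n).comp (differentiable_id.prodMk (differentiable_const _))

theorem PB.g_diff {n d : ℕ} (f : FM (n + 2) d) : Differentiable ℂ (PB.g f) :=
  ((PB.Phi_diff f 0).comp (PB.incl_diff n)).prodMk ((PB.Phi_diff f 1).comp (PB.incl_diff n))

theorem PB.g_hom {n d : ℕ} (f : FM (n + 2) d) (c : ℂ) (x : B2) :
    PB.g f (c • x) = c ^ d • PB.g f x := by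
  have h1 : join (c • x, (0 : Fin n → ℂ)) = c • join (x, (0 : Fin n → ℂ)) := by
    rw [← PB.join_smul]
    simp
  unfold PB.g
  rw [h1, f.hom]
  rfl

theorem PB.g_ne {n d : ℕ} (f : FM (n + 2) d) (x : B2) (hx : x ≠ 0) : PB.g f x ≠ 0 := by
  have hex : ∃ i : Fin (n + 2), (i : ℕ) / 2 = 0 ∧ join (x, (0 : Fin n → ℂ)) i ≠ 0 := by
    by_contra hc
    push Not at hc
    apply hx
    have h0 := hc 0 (by simp)
    have h1 := hc 1 (by simp)
    rw [join_zero] at h0
    rw [join_one] at h1
    exact Prod.ext h0 h1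
  obtain ⟨i, hi, hne⟩ := hex
  obtain ⟨i', h1, h2⟩ := f.nondeg _ i hne (fun j hj => by omega)
  intro h0
  apply h2
  have h3 : (i' : ℕ) < 2 := by omega
  have h4 : i' = 0 ∨ i' = 1 := by
    rcases Nat.lt_succ_iff_lt_or_eq.1 h3 with h | h
    · left
      ext
      simp only [Fin.val_zero]
      omega
    · right
      ext
      simp only [Fin.val_one]
      omega
  rcases h4 with h | h
  · rw [h]
    exact congrArg Prod.fst h0
  · rw [h]
    exact congrArg Prod.snd h0

theorem PB.g_surj {n d : ℕ} (f : FM (n + 2) d) (hd : 1 ≤ d) (y : B2) :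
    ∃ x : B2, x ≠ 0 ∧ wedge (PB.g f x) y = 0 := by
  classical
  -- the polynomial `t ↦ wedge (g (1, t)) y`
  have hpoly : ∀ i : Fin (n + 2), ∃ P : Polynomial ℂ, ∀ t : ℂ,
      P.eval t = f.Φ (join ((1, t), (0 : Fin n → ℂ))) i := by
    intro i
    obtain ⟨p, hp⟩ := f.poly i
    refine ⟨MvPolynomial.aeval (fun j : Fin (n + 2) =>
      (Fin.cons 1 (Fin.cons Polynomial.X (fun _ : Fin n => 0)) :
        Fin (n + 2) → Polynomial ℂ) j) p, fun t => ?_⟩
    rw [hp]
    have : (Polynomial.evalRingHom t).comp (MvPolynomial.aeval (fun j : Fin (n + 2) =>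
      (Fin.cons 1 (Fin.cons Polynomial.X (fun _ : Fin n => 0)) :
        Fin (n + 2) → Polynomial ℂ) j)).toRingHom =
        MvPolynomial.eval (join ((1, t), (0 : Fin n → ℂ))) := by
      apply MvPolynomial.ringHom_ext
      · intro r
        simp
      · intro j
        refine Fin.cases ?_ (fun j => Fin.cases ?_ (fun j => ?_) j) j
        · simp [join]
        · simp [join]
        · simp [join]
    have h2 := congrArg (fun F => F p) this
    simpa using h2
  obtain ⟨P0, hP0⟩ := hpoly 0
  obtain ⟨P1, hP1⟩ := hpoly 1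
  set Q : Polynomial ℂ := P0 * Polynomial.C y.2 - P1 * Polynomial.C y.1 with hQ
  have hQe : ∀ t : ℂ, Q.eval t = wedge (PB.g f (1, t)) y := by
    intro t
    rw [hQ, wedge, PB.g]
    simp [hP0, hP1]
  by_cases hroot : ∃ t : ℂ, Q.eval t = 0
  · obtain ⟨t, ht⟩ := hroot
    refine ⟨(1, t), ?_, by rw [← hQe]; exact ht⟩
    intro h
    exact one_ne_zero (congrArg Prod.fst h)
  · push Not at hroot
    have hdeg : Q.degree = 0 := by
      by_contra hne
      obtain ⟨t, ht⟩ := IsAlgClosed.exists_root Q hne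
      exact hroot t ht
    obtain ⟨c, hc⟩ : ∃ c : ℂ, Q = Polynomial.C c := ⟨_, Polynomial.eq_C_of_degree_eq_zero hdeg⟩
    have hval : ∀ s : ℂ, s ≠ 0 → wedge (PB.g f (s, 1)) y = s ^ d * c := by
      intro s hs
      have h1 : ((s, 1) : B2) = s • ((1, s⁻¹) : B2) := by
        ext <;> simp [hs]
      rw [h1, PB.g_hom]
      have h2 := hQe s⁻¹
      rw [hc, Polynomial.eval_C] at h2
      rw [h2, wedge, wedge]
      simp only [Prod.smul_fst, Prod.smul_snd, smul_eq_mul]
      ring
    have hcont : Continuous (fun s : ℂ => wedge (PB.g f (s, 1)) y) := by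
      have hg : Continuous (PB.g f) := (PB.g_diff f).continuous
      have hg2 : Continuous (fun s : ℂ => PB.g f (s, 1)) :=
        hg.comp (continuous_id.prodMk continuous_const)
      unfold wedge
      exact (hg2.fst.mul continuous_const).sub (hg2.snd.mul continuous_const)
    have hcont2 : Continuous (fun s : ℂ => s ^ d * c) :=
      (continuous_pow d).mul continuous_const
    have hd' : Dense {s : ℂ | s ≠ 0} := dense_compl_singleton 0
    have heq := Continuous.ext_on hd' hcont hcont2 (fun s hs => hval s hs)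
    have h0 : wedge (PB.g f (0, 1)) y = (0 : ℂ) ^ d * c := congrFun heq 0
    refine ⟨(0, 1), ?_, ?_⟩
    · intro h
      exact one_ne_zero (congrArg Prod.snd h)
    · rw [h0, zero_pow (by omega), zero_mul]

/-- (PB) the homogeneous system of `f`; `g` and `h` are the components of `f.Φ (join v)` -/
theorem FM.exists_sys {n d : ℕ} (f : FM (n + 2) d) (hd : 1 ≤ d) :
    ∃ s : Sys (Fin n → ℂ), ∀ v : B2 × (Fin n → ℂ), join (s.F v) = f.Φ (join v) := by
  refine ⟨{ d := d
            g := PB.g f
            h := fun v i => f.Φ (join v) i.succ.succ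
            g_diff := PB.g_diff f
            h_diff := ?_
            g_hom := PB.g_hom f
            h_hom := ?_
            g_ne := PB.g_ne f
            g_surj := fun y _ => PB.g_surj f hd y }, ?_⟩
  · rw [differentiable_pi]
    intro i
    exact (PB.Phi_diff f _).comp (PB.join_diff n)
  · intro c v
    ext i
    simp only [PB.join_smul, f.hom, Pi.smul_apply]
  · intro v
    ext j
    refine Fin.cases ?_ (fun j => Fin.cases ?_ (fun j => ?_) j) j
    · exact PB.g_fst f v
    · exact PB.g_snd f v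
    · rfl

end MF7
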