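import Pool.Agent.Lib.MF7_PDef
import Pool.Agent.Lib.MF7_Base

/-!
# MF7: cones and points (definitions), and the embedding of the centre
-/

set_option autoImplicit false

open Set Metric Filter Topology
open scoped LinearAlgebra.Projectivization

namespace MF7

/-- the embedding of the centre -/
noncomputable def cen (n : ℕ) (p : ℙ ℂ (Fin n → ℂ)) : ℙ ℂ (Fin (n + 2) → ℂ) :=
  Projectivization.mk ℂ (ext0 p.rep) (by
    obtain ⟨i, hi⟩ := Function.ne_iff.1 p.rep_nonzero
    exact Function.ne_iff.2 ⟨i.succ.succ, by simpa [ext0, join] using hi⟩)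

theorem join_ne {n : ℕ} {v : B2 × (Fin n → ℂ)} (hv : v.1 ≠ 0) : join v ≠ 0 := by
  intro h
  apply hv
  have h0 : join v 0 = 0 := by rw [h]; rfl
  have h1 : join v 1 = 0 := by rw [h]; rfl
  exact Prod.ext h0 h1

/-- the cone of representatives (outside the centre) of a subset of projective space -/
def coneOf {n : ℕ} (C : Set (ℙ ℂ (Fin (n + 2) → ℂ))) : Set (B2 × (Fin n → ℂ)) :=
  {v | ∃ hv : v.1 ≠ 0, Projectivization.mk ℂ (join v) (join_ne hv) ∈ C}

/-- the points represented by a set of vectors -/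
def ptsOf {n : ℕ} (C : Set (B2 × (Fin n → ℂ))) : Set (ℙ ℂ (Fin (n + 2) → ℂ)) :=
  {p | ∃ v ∈ C, ∃ hv : v.1 ≠ 0, p = Projectivization.mk ℂ (join v) (join_ne hv)}

end MF7
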