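import Pool.Agent.Lib.MF7_PA
import Pool.Agent.Lib.MF7_PD0

/-!
# The centre of the projection of complex projective space
-/

set_option autoImplicit false

open Set Filter Topology
open scoped LinearAlgebra.Projectivization

namespace MF7

theorem ext0_ne {n : ℕ} {w : Fin n → ℂ} (hw : w ≠ 0) : ext0 w ≠ 0 := by
  obtain ⟨i, hi⟩ := Function.ne_iff.1 hw
  exact Function.ne_iff.2 ⟨i.succ.succ, by simpa [ext0, join] using hi⟩

theorem ext0_smul {n : ℕ} (c : ℂ) (w : Fin n → ℂ) : ext0 (c • w) = c • ext0 w := by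
  ext j
  refine Fin.cases ?_ (fun j => Fin.cases ?_ (fun j => ?_) j) j <;> simp [ext0, join]

theorem cen_mk {n : ℕ} {w : Fin n → ℂ} (hw : w ≠ 0) :
    cen n (Projectivization.mk ℂ w hw) = Projectivization.mk ℂ (ext0 w) (ext0_ne hw) := by
  unfold cen
  rw [Projectivization.mk_eq_mk_iff']
  obtain ⟨a, ha⟩ := Projectivization.exists_smul_eq_mk_rep ℂ w hw
  have ha' : (a : ℂ) • w = (Projectivization.mk ℂ w hw).rep := ha
  exact ⟨(a : ℂ), by rw [← ext0_smul, ha']⟩

theorem cen_injective (n : ℕ) : Function.Injective (cen n) := by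
  intro p q h
  induction p using Projectivization.ind with
  | _ v hv =>
  induction q using Projectivization.ind with
  | _ w hw =>
  rw [cen_mk, cen_mk, Projectivization.mk_eq_mk_iff'] at h
  obtain ⟨a, ha⟩ := h
  rw [Projectivization.mk_eq_mk_iff']
  refine ⟨a, ?_⟩
  rw [← ext0_smul] at ha
  ext i
  have := congrFun ha i.succ.succ
  simpa [ext0, join] using this

theorem cen_continuous (n : ℕ) : Continuous (cen n) := by
  rw [continuous_coinduced_dom]
  have h1 : Continuous fun v : {v : Fin n → ℂ // v ≠ 0} =>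
      (⟨ext0 v.1, ext0_ne v.2⟩ : {v : Fin (n + 2) → ℂ // v ≠ 0}) := by
    refine Continuous.subtype_mk ?_ _
    refine continuous_pi fun j => ?_
    refine Fin.cases ?_ (fun j => Fin.cases ?_ (fun j => ?_) j) j
    · simpa [ext0, join] using continuous_const
    · simpa [ext0, join] using continuous_const
    · exact (continuous_apply j).comp continuous_subtype_val
  have h2 := (continuous_pmk (n + 2)).comp h1
  refine h2.congr fun v => ?_
  exact (cen_mk v.2).symm

theorem cen_isClosedEmbedding (n : ℕ) : IsClosedEmbedding (cen n) :=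
  (cen_continuous n).isClosedEmbedding (cen_injective n)

theorem mem_range_cen {n : ℕ} {v : Fin (n + 2) → ℂ} (hv : v ≠ 0) :
    Projectivization.mk ℂ v hv ∈ range (cen n) ↔ v 0 = 0 ∧ v 1 = 0 := by
  constructor
  · rintro ⟨p, hp⟩
    induction p using Projectivization.ind with
    | _ w hw =>
    rw [cen_mk, eq_comm, Projectivization.mk_eq_mk_iff'] at hp
    obtain ⟨a, ha⟩ := hp
    rw [← ha]
    constructor
    · simp [ext0, join]
    · have : ext0 w 1 = 0 := rfl
      simp [this]
  · rintro ⟨h0, h1⟩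
    have e : ext0 (fun i : Fin n => v i.succ.succ) = v := by
      ext j
      refine Fin.cases ?_ (fun j => Fin.cases ?_ (fun j => ?_) j) j
      · exact h0.symm
      · exact h1.symm
      · rfl
    have hw : (fun i : Fin n => v i.succ.succ) ≠ 0 := by
      intro hw
      apply hv
      rw [← e, hw]
      ext j
      refine Fin.cases ?_ (fun j => Fin.cases ?_ (fun j => ?_) j) j <;> rfl
    refine ⟨Projectivization.mk ℂ _ hw, ?_⟩
    rw [cen_mk]
    congr 1

theorem FM.Phi_zero {n d : ℕ} (hd : 1 ≤ d) (f : FM n d) : f.Φ 0 = 0 := by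
  have := f.hom 0 0
  rwa [zero_smul, zero_pow (by omega), zero_smul] at this

theorem FM.Phi_ext0 {n d : ℕ} (hd : 1 ≤ d) (f : FM (n + 2) d) (w : Fin n → ℂ) :
    f.Φ (ext0 w) = ext0 (f.res.Φ w) := by
  ext j
  refine Fin.cases ?_ (fun j => Fin.cases ?_ (fun j => ?_) j) j
  · have h := f.tri 0 (ext0 w) 0 (fun j => by
      refine Fin.cases ?_ (fun j => Fin.cases ?_ (fun j => ?_) j) j
      · intro _; rfl
      · intro _; rfl
      · intro hj
        simp only [Fin.val_succ, Fin.val_zero] at hj
        omega)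
    rw [h, f.Phi_zero hd]
    rfl
  · have h := f.tri (Fin.succ 0) (ext0 w) 0 (fun j => by
      refine Fin.cases ?_ (fun j => Fin.cases ?_ (fun j => ?_) j) j
      · intro _; rfl
      · intro _; rfl
      · intro hj
        simp only [Fin.val_succ, Fin.val_zero] at hj
        omega)
    rw [h, f.Phi_zero hd]
    rfl
  · rfl

theorem cen_comm {n d : ℕ} (hd : 1 ≤ d) (f : FM (n + 2) d) (p : ℙ ℂ (Fin n → ℂ)) :
    cen n (f.res.map p) = f.map (cen n p) := by
  induction p using Projectivization.ind with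
  | _ w hw =>
  rw [cen_mk, FM.map_mk, FM.map_mk, cen_mk]
  congr 1
  exact (f.Phi_ext0 hd w).symm

theorem cen_pre {n d : ℕ} (f : FM (n + 2) d) (p : ℙ ℂ (Fin (n + 2) → ℂ))
    (h : f.map p ∈ range (cen n)) : p ∈ range (cen n) := by
  induction p using Projectivization.ind with
  | _ v hv =>
  rw [FM.map_mk, mem_range_cen] at h
  rw [mem_range_cen]
  have key : ∀ i' : Fin (n + 2), (i' : ℕ) / 2 = 0 → f.Φ v i' = 0 := by
    intro i' hi'
    have : (i' : ℕ) = 0 ∨ (i' : ℕ) = 1 := by omega
    rcases this with h0 | h0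
    · have e : i' = 0 := Fin.ext h0
      rw [e]
      exact h.1
    · have e : i' = 1 := Fin.ext (by rw [h0]; rfl)
      rw [e]
      exact h.2
  constructor
  · by_contra hne
    obtain ⟨i', h1, h2⟩ := f.nondeg v 0 hne (fun j hj => by
      simp only [Fin.val_zero] at hj
      omega)
    exact h2 (key i' (by rw [h1]; simp))
  · by_contra hne
    obtain ⟨i', h1, h2⟩ := f.nondeg v 1 hne (fun j hj => by
      have : ((1 : Fin (n + 2)) : ℕ) = 1 := rfl
      rw [this] at hj
      omega)
    have e1 : ((1 : Fin (n + 2)) : ℕ) = 1 := rfl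
    exact h2 (key i' (by rw [h1, e1]))

end MF7
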