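import Pool.Agent.Lib.MF7_PA
import Pool.Agent.Lib.MF7_PC

/-!
# Small trapping neighbourhoods of the centre
-/

set_option autoImplicit false

open Set Metric Filter Topology
open scoped LinearAlgebra.Projectivization

namespace MF7

/-- relative size of the first two coordinates -/
noncomputable def rh {n : ℕ} (p : ℙ ℂ (Fin (n + 2) → ℂ)) : ℝ :=
  max ‖p.rep 0‖ ‖p.rep 1‖ / ‖p.rep‖

theorem rh_mk {n : ℕ} {v : Fin (n + 2) → ℂ} (hv : v ≠ 0) :
    rh (Projectivization.mk ℂ v hv) = max ‖v 0‖ ‖v 1‖ / ‖v‖ := by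
  obtain ⟨a, ha⟩ := Projectivization.exists_smul_eq_mk_rep ℂ v hv
  have ha' : (a : ℂ) • v = (Projectivization.mk ℂ v hv).rep := ha
  have ha0 : 0 < ‖(a : ℂ)‖ := norm_pos_iff.2 a.ne_zero
  have hv0 : 0 < ‖v‖ := norm_pos_iff.2 hv
  rw [rh, ← ha', norm_smul]
  simp only [Pi.smul_apply, smul_eq_mul, norm_mul]
  rw [← mul_max_of_nonneg _ _ ha0.le]
  field_simp

theorem continuous_rh {n : ℕ} : Continuous (rh (n := n)) := by
  refine continuous_coinduced_dom.2 ?_
  have h : (rh (n := n)) ∘ (fun v : {v : Fin (n + 2) → ℂ // v ≠ 0} =>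
      Projectivization.mk ℂ v.1 v.2) = fun v => max ‖v.1 0‖ ‖v.1 1‖ / ‖v.1‖ := by
    ext v
    exact rh_mk v.2
  rw [h]
  refine Continuous.div ?_ (by fun_prop) fun v => (norm_pos_iff.2 v.2).ne'
  exact Continuous.max ((continuous_apply 0).comp continuous_subtype_val).norm
    ((continuous_apply 1).comp continuous_subtype_val).norm

theorem rh_nonneg {n : ℕ} (p : ℙ ℂ (Fin (n + 2) → ℂ)) : 0 ≤ rh p :=
  div_nonneg (le_max_of_le_left (norm_nonneg _)) (norm_nonneg _)

theorem rh_eq_zero {n : ℕ} {p : ℙ ℂ (Fin (n + 2) → ℂ)} : rh p = 0 ↔ p ∈ range (cen n) := by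
  induction p using Projectivization.ind with
  | h v hv =>
    rw [rh_mk, mem_range_cen]
    have hv0 : ‖v‖ ≠ 0 := (norm_pos_iff.2 hv).ne'
    rw [div_eq_zero_iff, or_iff_left hv0]
    constructor
    · intro h
      have h0 : ‖v 0‖ ≤ 0 := h ▸ le_max_left _ _
      have h1 : ‖v 1‖ ≤ 0 := h ▸ le_max_right _ _
      exact ⟨norm_le_zero_iff.1 h0, norm_le_zero_iff.1 h1⟩
    · rintro ⟨h0, h1⟩
      rw [h0, h1]
      simp

/-- lower bound for the map -/
theorem FM.lower {n d : ℕ} (f : FM (n + 2) d) :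
    ∃ c > 0, ∀ v, c * ‖v‖ ^ d ≤ ‖f.Φ v‖ := by
  have hc : IsCompact (sphere (0 : Fin (n + 2) → ℂ) 1) := isCompact_sphere _ _
  have hne : (sphere (0 : Fin (n + 2) → ℂ) 1).Nonempty := NormedSpace.sphere_nonempty.2 zero_le_one
  obtain ⟨u, hu, hmin⟩ := hc.exists_isMinOn hne (f.continuous_Phi.norm.continuousOn)
  have hu1 : ‖u‖ = 1 := by simpa using hu
  have hu0 : u ≠ 0 := by
    rintro rfl
    simp at hu1
  refine ⟨‖f.Φ u‖, norm_pos_iff.2 (f.ne hu0), fun v => ?_⟩
  by_cases hv : v = 0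
  · subst hv
    rcases Nat.eq_zero_or_pos d with rfl | hd
    · have h1 := f.hom 0 u
      rw [zero_smul, pow_zero, one_smul] at h1
      rw [h1]
      simp
    · rw [norm_zero, zero_pow hd.ne', mul_zero]
      exact norm_nonneg _
  · have hv0 : 0 < ‖v‖ := norm_pos_iff.2 hv
    have h2 : ((‖v‖ : ℂ)⁻¹ • v) ∈ sphere (0 : Fin (n + 2) → ℂ) 1 := by
      rw [mem_sphere_zero_iff_norm, norm_smul, norm_inv, Complex.norm_real, norm_norm]
      exact inv_mul_cancel₀ hv0.ne'
    have h3 := hmin h2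
    change ‖f.Φ u‖ ≤ ‖f.Φ ((‖v‖ : ℂ)⁻¹ • v)‖ at h3
    have h4 : f.Φ v = (‖v‖ : ℂ) ^ d • f.Φ ((‖v‖ : ℂ)⁻¹ • v) := by
      rw [← f.hom, smul_smul, mul_inv_cancel₀ (by exact_mod_cast hv0.ne'), one_smul]
    rw [h4, norm_smul, norm_pow, Complex.norm_real, norm_norm, mul_comm]
    exact mul_le_mul_of_nonneg_left h3 (by positivity)

/-- upper bound for the first two components -/
theorem FM.upper {n d : ℕ} (f : FM (n + 2) d) :
    ∃ C > 0, ∀ v, max ‖f.Φ v 0‖ ‖f.Φ v 1‖ ≤ C * max ‖v 0‖ ‖v 1‖ ^ d := by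
  have hc : IsCompact (closedBall (0 : Fin (n + 2) → ℂ) 1) := isCompact_closedBall _ _
  obtain ⟨C, hC⟩ := hc.exists_bound_of_continuousOn (f.continuous_Phi.continuousOn)
  have hC0 : 0 ≤ C := le_trans (norm_nonneg _) (hC 0 (by simp))
  refine ⟨C + 1, by linarith, fun v => ?_⟩
  let u : Fin (n + 2) → ℂ := join ((v 0, v 1), 0)
  have hu0 : f.Φ v 0 = f.Φ u 0 := by
    refine f.tri 0 v u fun j => ?_
    refine Fin.cases ?_ (fun j => Fin.cases ?_ (fun j => ?_) j) j
    · intro _; rfl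
    · intro _; rfl
    · intro hj
      simp only [Fin.val_succ, Fin.val_zero] at hj
      omega
  have hu1 : f.Φ v 1 = f.Φ u 1 := by
    refine f.tri 1 v u fun j => ?_
    refine Fin.cases ?_ (fun j => Fin.cases ?_ (fun j => ?_) j) j
    · intro _; rfl
    · intro _; rfl
    · intro hj
      simp only [Fin.val_succ, Fin.val_one] at hj
      omega
  have hun : ‖u‖ = max ‖v 0‖ ‖v 1‖ := by
    apply le_antisymm
    · rw [pi_norm_le_iff_of_nonneg (le_max_of_le_left (norm_nonneg _))]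
      intro j
      refine Fin.cases ?_ (fun j => Fin.cases ?_ (fun j => ?_) j) j
      · exact le_max_left _ _
      · exact le_max_right _ _
      · change ‖(0 : ℂ)‖ ≤ _
        rw [norm_zero]
        exact le_max_of_le_left (norm_nonneg _)
    · exact max_le (norm_le_pi_norm u 0) (norm_le_pi_norm u 1)
  have key : ‖f.Φ u‖ ≤ (C + 1) * ‖u‖ ^ d := by
    by_cases hz : u = 0
    · rcases Nat.eq_zero_or_pos d with rfl | hd
      · rw [pow_zero, mul_one, hz]
        exact (hC 0 (by simp)).trans (by linarith)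
      · have h1 := f.hom 0 u
        rw [zero_smul, zero_pow hd.ne', zero_smul] at h1
        rw [hz, h1]
        simp only [norm_zero]
        positivity
    · have hz0 : 0 < ‖u‖ := norm_pos_iff.2 hz
      have h2 : ((‖u‖ : ℂ)⁻¹ • u) ∈ closedBall (0 : Fin (n + 2) → ℂ) 1 := by
        rw [mem_closedBall_zero_iff, norm_smul, norm_inv, Complex.norm_real, norm_norm]
        exact (inv_mul_cancel₀ hz0.ne').le
      have h3 := hC _ h2
      have h4 : f.Φ u = (‖u‖ : ℂ) ^ d • f.Φ ((‖u‖ : ℂ)⁻¹ • u) := by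
        rw [← f.hom, smul_smul, mul_inv_cancel₀ (by exact_mod_cast hz0.ne'), one_smul]
      rw [h4, norm_smul, norm_pow, Complex.norm_real, norm_norm, mul_comm]
      exact mul_le_mul_of_nonneg_right (h3.trans (by linarith)) (by positivity)
  rw [hu0, hu1, ← hun]
  exact max_le ((norm_le_pi_norm (f.Φ u) 0).trans key) ((norm_le_pi_norm (f.Φ u) 1).trans key)

theorem FM.rh_map {n d : ℕ} (f : FM (n + 2) d) :
    ∃ K > 0, ∀ p, rh (f.map p) ≤ K * rh p ^ d := by
  obtain ⟨c, hc, hlow⟩ := f.lower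
  obtain ⟨C, hC, hup⟩ := f.upper
  refine ⟨C / c, by positivity, fun p => ?_⟩
  induction p using Projectivization.ind with
  | h v hv =>
    rw [f.map_mk hv, rh_mk, rh_mk]
    have hv0 : 0 < ‖v‖ := norm_pos_iff.2 hv
    have h1 : 0 < ‖f.Φ v‖ := norm_pos_iff.2 (f.ne hv)
    rw [div_pow, div_mul_div_comm]
    exact div_le_div₀ (by positivity) (hup v) (by positivity) (hlow v)

theorem cen_nhds {n d : ℕ} (hn : 1 ≤ n) (hd : 2 ≤ d) (f : FM (n + 2) d) :
    ∀ N, IsOpen N → range (cen n) ⊆ N → ∃ U, IsTrapping f.map U ∧ range (cen n) ⊆ U ∧ U ⊆ N ∧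
      ∀ y, (∀ m : ℕ, y ∈ f.map^[m] '' U) → y ∈ range (cen n) := by
  intro N hN hcN
  obtain ⟨K, hK, hmap⟩ := f.rh_map
  -- `rh ≥ δ` off `N`
  obtain ⟨δ, hδ, hδN⟩ : ∃ δ > 0, ∀ p, rh p < δ → p ∈ N := by
    by_cases he : (Nᶜ : Set (ℙ ℂ (Fin (n + 2) → ℂ))).Nonempty
    · obtain ⟨q, hq, hmin⟩ := (hN.isClosed_compl.isCompact).exists_isMinOn he
        continuous_rh.continuousOn
      have hq0 : 0 < rh q := by
        rcases (rh_nonneg q).lt_or_eq with h | h
        · exact h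
        · exact absurd (hcN (rh_eq_zero.1 h.symm)) hq
      refine ⟨rh q, hq0, fun p hp => ?_⟩
      by_contra hpN
      exact absurd hp (not_lt.2 (hmin hpN))
    · rw [Set.not_nonempty_iff_eq_empty, Set.compl_empty_iff] at he
      exact ⟨1, one_pos, fun p _ => he ▸ mem_univ p⟩
  -- the size
  let ε : ℝ := min δ (min 1 (1 / (2 * K)))
  have hε : 0 < ε := lt_min hδ (lt_min one_pos (by positivity))
  have hε1 : ε ≤ 1 := (min_le_right _ _).trans (min_le_left _ _)
  have hεK : K * ε ≤ 1 / 2 := by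
    have h1 : ε ≤ 1 / (2 * K) := (min_le_right _ _).trans (min_le_right _ _)
    calc K * ε ≤ K * (1 / (2 * K)) := mul_le_mul_of_nonneg_left h1 hK.le
      _ = 1 / 2 := by field_simp
  have hstep : ∀ p, rh p ≤ ε → rh (f.map p) ≤ rh p / 2 := by
    intro p hp
    have h0 := rh_nonneg p
    have h1 : rh p ^ d ≤ rh p ^ 2 := pow_le_pow_of_le_one h0 (hp.trans hε1) hd
    calc rh (f.map p) ≤ K * rh p ^ d := hmap p
      _ ≤ K * rh p ^ 2 := mul_le_mul_of_nonneg_left h1 hK.le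
      _ = (K * rh p) * rh p := by ring
      _ ≤ (K * ε) * rh p := by gcongr
      _ ≤ (1 / 2) * rh p := by gcongr
      _ = rh p / 2 := by ring
  have hiter : ∀ (m : ℕ) p, rh p ≤ ε → rh (f.map^[m] p) ≤ ε / 2 ^ m := by
    intro m
    induction m with
    | zero =>
      intro p hp
      simpa using hp
    | succ m ih =>
      intro p hp
      rw [Function.iterate_succ_apply']
      have h1 := ih p hp
      have h2 : ε / 2 ^ m ≤ ε := div_le_self hε.le (one_le_pow₀ one_le_two)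
      calc rh (f.map (f.map^[m] p)) ≤ rh (f.map^[m] p) / 2 := hstep _ (h1.trans h2)
        _ ≤ ε / 2 ^ m / 2 := by gcongr
        _ = ε / 2 ^ (m + 1) := by rw [pow_succ, div_div]
  refine ⟨{p | rh p < ε}, ⟨?_, ?_, ?_⟩, ?_, ?_, ?_⟩
  · have : Nonempty (ℙ ℂ (Fin n → ℂ)) := by
      refine ⟨Projectivization.mk ℂ (fun _ => 1) ?_⟩
      exact Function.ne_iff.2 ⟨⟨0, hn⟩, one_ne_zero⟩
    obtain ⟨q⟩ := this
    refine ⟨cen n q, ?_⟩
    change rh (cen n q) < ε
    rw [rh_eq_zero.2 ⟨q, rfl⟩]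
    exact hε
  · exact isOpen_lt continuous_rh continuous_const
  · rintro _ ⟨p, hp, rfl⟩
    have h1 : rh p ≤ ε := by
      have h2 : closure {p : ℙ ℂ (Fin (n + 2) → ℂ) | rh p < ε} ⊆ {p | rh p ≤ ε} :=
        closure_minimal (fun p hp => (show rh p ≤ ε from le_of_lt hp))
          (isClosed_le continuous_rh continuous_const)
      exact h2 hp
    have h3 := hstep p h1
    change rh (f.map p) < ε
    linarith
  · intro p hp
    change rh p < ε
    rw [rh_eq_zero.2 hp]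
    exact hε
  · intro p hp
    exact hδN p (lt_of_lt_of_le hp (min_le_left _ _))
  · intro y hy
    rw [← rh_eq_zero]
    apply le_antisymm _ (rh_nonneg y)
    have h1 : ∀ m : ℕ, rh y ≤ ε / 2 ^ m := by
      intro m
      obtain ⟨p, hp, rfl⟩ := hy m
      exact hiter m p (le_of_lt hp)
    have h2 : Tendsto (fun m : ℕ => ε / 2 ^ m) atTop (𝓝 0) := by
      have := (tendsto_pow_atTop_nhds_zero_of_lt_one (r := (1 / 2 : ℝ)) (by norm_num)
        (by norm_num)).const_mul ε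
      rw [mul_zero] at this
      refine this.congr fun m => ?_
      rw [one_div, inv_pow, div_eq_mul_inv]
    exact ge_of_tendsto' h2 h1

end MF7
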