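import Pool.Agent.Lib.MF7_PD0

/-!
# MF7, row PD2: cones and points of projective space (helper77)
-/

set_option autoImplicit false

open Set Metric Filter Topology
open scoped LinearAlgebra.Projectivization

namespace MF7

namespace PD2x

variable {n : ℕ}

/-- the inverse of `join` -/
def split (v : Fin (n + 2) → ℂ) : B2 × (Fin n → ℂ) := ((v 0, v 1), fun i => v i.succ.succ)

theorem join_split (v : Fin (n + 2) → ℂ) : join (split v) = v := by
  ext j
  refine Fin.cases ?_ (fun j => Fin.cases ?_ (fun j => ?_) j) j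
  · rfl
  · rfl
  · rfl

theorem split_join (v : B2 × (Fin n → ℂ)) : split (join v) = v := rfl

theorem split_smul (c : ℂ) (v : Fin (n + 2) → ℂ) : split (c • v) = c • split v := rfl

theorem join_smul (c : ℂ) (v : B2 × (Fin n → ℂ)) : join (c • v) = c • join v := by
  rw [← join_split (c • join v), split_smul, split_join]

theorem continuous_split : Continuous (split : (Fin (n + 2) → ℂ) → B2 × (Fin n → ℂ)) := by
  unfold split
  fun_prop

/-- the points represented by the vectors of `S` -/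
def img {k : ℕ} (S : Set (Fin k → ℂ)) : Set (ℙ ℂ (Fin k → ℂ)) :=
  {q | ∃ (w : Fin k → ℂ) (hw : w ≠ 0), w ∈ S ∧ q = Projectivization.mk ℂ w hw}

theorem mem_img {k : ℕ} {S : Set (Fin k → ℂ)} (hS : ∀ c : ℂ, c ≠ 0 → ∀ w ∈ S, c • w ∈ S)
    {w : Fin k → ℂ} (hw : w ≠ 0) : Projectivization.mk ℂ w hw ∈ img S ↔ w ∈ S := by
  constructor
  · rintro ⟨u, hu, huS, h⟩
    obtain ⟨a, ha⟩ := (Projectivization.mk_eq_mk_iff' ℂ w u hw hu).1 h
    rw [← ha]
    refine hS a ?_ u huS
    rintro rfl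
    rw [zero_smul] at ha
    exact hw ha.symm
  · intro h
    exact ⟨w, hw, h, rfl⟩

theorem isOpen_img {k : ℕ} {S : Set (Fin k → ℂ)} (hS : ∀ c : ℂ, c ≠ 0 → ∀ w ∈ S, c • w ∈ S)
    (hSo : IsOpen S) : IsOpen (img S) := by
  rw [isOpen_coinduced]
  have : (fun v : {v : Fin k → ℂ // v ≠ 0} => Projectivization.mk ℂ v.1 v.2) ⁻¹' img S =
      Subtype.val ⁻¹' S := by
    ext v
    exact mem_img hS v.2
  rw [this]
  exact hSo.preimage continuous_subtype_val

theorem cone_preimage {N : Set (B2 × (Fin n → ℂ))}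
    (hN : ∀ c : ℂ, c ≠ 0 → ∀ v ∈ N, c • v ∈ N) :
    ∀ c : ℂ, c ≠ 0 → ∀ w ∈ (split ⁻¹' N : Set (Fin (n + 2) → ℂ)), c • w ∈ split ⁻¹' N :=
  fun c hc w hw => by
    rw [mem_preimage, split_smul]
    exact hN c hc _ hw

theorem ptsOf_eq_img {N : Set (B2 × (Fin n → ℂ))} (hN : IsCone N) :
    ptsOf N = img (split ⁻¹' N) := by
  ext p
  constructor
  · rintro ⟨v, hv, hv1, rfl⟩
    exact ⟨join v, join_ne hv1, by rw [mem_preimage, split_join]; exact hv, rfl⟩
  · rintro ⟨w, hw, hwN, rfl⟩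
    refine ⟨split w, hwN, hN.2 _ hwN, ?_⟩
    congr 1
    exact (join_split w).symm

theorem cone_closure {B : Set (B2 × (Fin n → ℂ))} (hB : IsCone B) {c : ℂ} (hc : c ≠ 0)
    {v : B2 × (Fin n → ℂ)} (hv : v ∈ closure B) : c • v ∈ closure B :=
  map_mem_closure (continuous_const_smul c) hv fun x hx => hB.1 c hc x hx

end PD2x

open PD2x

theorem mk_join_eq {n : ℕ} {v w : B2 × (Fin n → ℂ)} (hv : v.1 ≠ 0) (hw : w.1 ≠ 0) :
    Projectivization.mk ℂ (join v) (join_ne hv) = Projectivization.mk ℂ (join w) (join_ne hw) ↔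
      ∃ c : ℂ, c ≠ 0 ∧ v = c • w := by
  rw [Projectivization.mk_eq_mk_iff']
  constructor
  · rintro ⟨a, ha⟩
    rw [← join_smul] at ha
    have h1 : v = a • w := by
      rw [← split_join v, ← ha, split_join]
    refine ⟨a, ?_, h1⟩
    rintro rfl
    rw [zero_smul] at h1
    exact hv (by rw [h1]; rfl)
  · rintro ⟨c, -, rfl⟩
    exact ⟨c, (join_smul c w).symm⟩

theorem ptsOf_open {n : ℕ} {N : Set (B2 × (Fin n → ℂ))} (hN : IsOpen N) (hNc : IsCone N) :
    IsOpen (ptsOf N) := by
  rw [ptsOf_eq_img hNc]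
  exact isOpen_img (cone_preimage hNc.1) (hN.preimage continuous_split)

theorem PD2x.ptsOf_coneOf_of {n : ℕ} {C : Set (ℙ ℂ (Fin (n + 2) → ℂ))}
    (hC : ∀ (v : Fin (n + 2) → ℂ) (hv : v ≠ 0), Projectivization.mk ℂ v hv ∈ C →
      ¬ (v 0 = 0 ∧ v 1 = 0)) : ptsOf (coneOf C) = C := by
  ext p
  constructor
  · rintro ⟨v, ⟨hv, hvC⟩, hv1, rfl⟩
    exact hvC
  · intro hp
    induction p with
    | h v hv =>
      have h1 : (split v).1 ≠ 0 := by
        intro h
        exact hC v hv hp ⟨congrArg Prod.fst h, congrArg Prod.snd h⟩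
      have h2 : Projectivization.mk ℂ (join (split v)) (join_ne h1) =
          Projectivization.mk ℂ v hv := by
        congr 1
        exact join_split v
      exact ⟨split v, ⟨h1, by rw [h2]; exact hp⟩, h1, h2.symm⟩

theorem PD2x.mk_mem_range_cen {n : ℕ} {v : Fin (n + 2) → ℂ} (hv : v ≠ 0)
    (h : v 0 = 0 ∧ v 1 = 0) : Projectivization.mk ℂ v hv ∈ range (cen n) := by
  set w : Fin n → ℂ := fun i => v i.succ.succ with hw
  have hvw : v = ext0 w := by
    ext j
    refine Fin.cases ?_ (fun j => Fin.cases ?_ (fun j => ?_) j) j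
    · exact h.1
    · exact h.2
    · rfl
  have hw0 : w ≠ 0 := by
    intro h0
    apply hv
    rw [hvw, h0]
    ext j
    refine Fin.cases ?_ (fun j => Fin.cases ?_ (fun j => ?_) j) j <;> rfl
  refine ⟨Projectivization.mk ℂ w hw0, ?_⟩
  rw [cen, Projectivization.mk_eq_mk_iff']
  obtain ⟨a, ha⟩ := Projectivization.exists_smul_eq_mk_rep ℂ w hw0
  have ha' : (a : ℂ) • w = (Projectivization.mk ℂ w hw0).rep := ha
  refine ⟨(a : ℂ), ?_⟩
  rw [← ha', hvw]
  ext j
  refine Fin.cases ?_ (fun j => Fin.cases ?_ (fun j => ?_) j) j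
  · exact mul_zero _
  · exact mul_zero _
  · rfl

theorem ptsOf_coneOf {n : ℕ} {C : Set (ℙ ℂ (Fin (n + 2) → ℂ))} (hCc : C ∩ range (cen n) = ∅) :
    ptsOf (coneOf C) = C := by
  refine PD2x.ptsOf_coneOf_of fun v hv hvC h => ?_
  have : Projectivization.mk ℂ v hv ∈ C ∩ range (cen n) := ⟨hvC, PD2x.mk_mem_range_cen hv h⟩
  rw [hCc] at this
  exact this

theorem coneOf_ptsOf {n : ℕ} {N : Set (B2 × (Fin n → ℂ))} (hNc : IsCone N) :
    coneOf (ptsOf N) = N := by
  ext v
  constructor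
  · rintro ⟨hv, w, hw, hw1, h⟩
    obtain ⟨c, hc, rfl⟩ := (mk_join_eq hv hw1).1 h
    exact hNc.1 c hc w hw
  · intro hv
    exact ⟨hNc.2 v hv, v, hv, hNc.2 v hv, rfl⟩

/-- closure of the points of a bounded cone -/
theorem closure_ptsOf {n : ℕ} {B : Set (B2 × (Fin n → ℂ))} (hB : IsCone B) (hb : IsBdd B)
    {p : ℙ ℂ (Fin (n + 2) → ℂ)} (hp : p ∈ closure (ptsOf B)) :
    ∃ v ∈ closure B, ∃ hv : v.1 ≠ 0, p = Projectivization.mk ℂ (join v) (join_ne hv) := by
  induction p with
  | h w hw =>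
    obtain ⟨M, hM⟩ := hb
    -- the base component is not zero
    have h1 : (split w).1 ≠ 0 := by
      intro h0
      set S : Set (Fin (n + 2) → ℂ) := {u | |M| * ‖(split u).1‖ < ‖(split u).2‖} with hS
      have hSc : ∀ c : ℂ, c ≠ 0 → ∀ u ∈ S, c • u ∈ S := by
        intro c hc u hu
        rw [hS, mem_ofPred_eq] at hu ⊢
        rw [split_smul, Prod.smul_fst, Prod.smul_snd, norm_smul, norm_smul]
        have := norm_pos_iff.2 hc
        nlinarith
      have hSo : IsOpen S :=
        isOpen_lt (continuous_const.mul (continuous_norm.comp (continuous_fst.comp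
          continuous_split))) (continuous_norm.comp (continuous_snd.comp continuous_split))
      have hwS : w ∈ S := by
        rw [hS, mem_ofPred_eq, h0, norm_zero, mul_zero, norm_pos_iff]
        intro h2
        apply hw
        rw [← join_split w, ← Prod.mk.eta (p := split w), h0, h2]
        ext j
        refine Fin.cases ?_ (fun j => Fin.cases ?_ (fun j => ?_) j) j <;> rfl
      obtain ⟨q, hq1, v, hv, hv1, rfl⟩ := mem_closure_iff.1 hp (img S) (isOpen_img hSc hSo)
        ((mem_img hSc hw).2 hwS)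
      have h3 := (mem_img hSc (join_ne hv1)).1 hq1
      rw [hS, mem_ofPred_eq, split_join] at h3
      have h4 := hM v hv
      have h5 : M * ‖v.1‖ ≤ |M| * ‖v.1‖ :=
        mul_le_mul_of_nonneg_right (le_abs_self M) (norm_nonneg _)
      linarith
    have h2 : Projectivization.mk ℂ (join (split w)) (join_ne h1) =
        Projectivization.mk ℂ w hw := by
      congr 1
      exact join_split w
    refine ⟨split w, ?_, h1, h2.symm⟩
    by_contra hcl
    set S : Set (Fin (n + 2) → ℂ) := split ⁻¹' (closure B)ᶜ with hS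
    have hSc : ∀ c : ℂ, c ≠ 0 → ∀ u ∈ S, c • u ∈ S := by
      intro c hc u hu
      rw [hS, mem_preimage, split_smul]
      intro h3
      apply hu
      have h4 := cone_closure hB (inv_ne_zero hc) h3
      rwa [smul_smul, inv_mul_cancel₀ hc, one_smul] at h4
    have hSo : IsOpen S := isClosed_closure.isOpen_compl.preimage continuous_split
    obtain ⟨q, hq1, v, hv, hv1, rfl⟩ := mem_closure_iff.1 hp (img S) (isOpen_img hSc hSo)
      ((mem_img hSc hw).2 hcl)
    have h3 := (mem_img hSc (join_ne hv1)).1 hq1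
    rw [hS, mem_preimage, split_join] at h3
    exact h3 (subset_closure hv)

/-- iterates in coordinates -/
theorem iter_mk {n d : ℕ} (f : FM (n + 2) d) {s : Sys (Fin n → ℂ)}
    (hs : ∀ v, join (s.F v) = f.Φ (join v)) (m : ℕ) {v : B2 × (Fin n → ℂ)} (hv : v.1 ≠ 0) :
    ∃ h : (s.F^[m] v).1 ≠ 0,
      f.map^[m] (Projectivization.mk ℂ (join v) (join_ne hv)) =
        Projectivization.mk ℂ (join (s.F^[m] v)) (join_ne h) := by
  induction m with
  | zero => exact ⟨hv, rfl⟩
  | succ m ih =>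
    obtain ⟨h, hm⟩ := ih
    have h' : (s.F^[m + 1] v).1 ≠ 0 := by
      rw [Function.iterate_succ_apply']
      exact s.g_ne _ h
    refine ⟨h', ?_⟩
    rw [Function.iterate_succ_apply', hm, FM.map_mk]
    congr 1
    rw [← hs, Function.iterate_succ_apply']

end MF7
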