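import Pool.Agent.Lib.MF7_PA
import Pool.Agent.Lib.MF7_PD2

/-!
# MF7, row PD1: cones of closed sets and of trapping regions (helper1)
-/

set_option autoImplicit false

open Set Metric Filter Topology
open scoped LinearAlgebra.Projectivization

namespace MF7

namespace PD1x

variable {n : ℕ}

theorem continuous_join : Continuous (join : B2 × (Fin n → ℂ) → Fin (n + 2) → ℂ) := by
  refine continuous_pi fun j => ?_
  refine Fin.cases ?_ (fun j => Fin.cases ?_ (fun j => ?_) j) j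
  · exact continuous_fst.fst
  · exact continuous_fst.snd
  · exact (continuous_apply j).comp continuous_snd

/-- the points of the vectors outside of the centre -/
noncomputable def pt (v : {v : B2 × (Fin n → ℂ) // v.1 ≠ 0}) : ℙ ℂ (Fin (n + 2) → ℂ) :=
  Projectivization.mk ℂ (join v.1) (join_ne v.2)

theorem continuous_pt : Continuous (pt (n := n)) := by
  have h1 : Continuous fun v : {v : B2 × (Fin n → ℂ) // v.1 ≠ 0} =>
      (⟨join v.1, join_ne v.2⟩ : {v : Fin (n + 2) → ℂ // v ≠ 0}) :=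
    Continuous.subtype_mk (continuous_join.comp continuous_subtype_val) _
  exact (continuous_pmk (n + 2)).comp h1

theorem isOpen_dom : IsOpen {v : B2 × (Fin n → ℂ) | v.1 ≠ 0} :=
  isOpen_ne.preimage continuous_fst

theorem isCone_coneOf (C : Set (ℙ ℂ (Fin (n + 2) → ℂ))) : IsCone (coneOf C) := by
  refine ⟨fun c hc v hv => ?_, fun v hv => hv.1⟩
  obtain ⟨h1, h2⟩ := hv
  have h3 : (c • v).1 ≠ 0 := by
    rw [Prod.smul_fst]
    exact smul_ne_zero hc h1
  refine ⟨h3, ?_⟩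
  rwa [(mk_join_eq h3 h1).2 ⟨c, hc, rfl⟩]

theorem isOpen_coneOf {U : Set (ℙ ℂ (Fin (n + 2) → ℂ))} (hU : IsOpen U) : IsOpen (coneOf U) := by
  have h1 : IsOpen (Subtype.val '' (pt (n := n) ⁻¹' U)) :=
    isOpen_dom.isOpenMap_subtype_val _ (hU.preimage continuous_pt)
  have h2 : coneOf U = Subtype.val '' (pt (n := n) ⁻¹' U) := by
    ext v
    constructor
    · rintro ⟨h, h'⟩
      exact ⟨⟨v, h⟩, h', rfl⟩
    · rintro ⟨⟨v, h⟩, h', rfl⟩
      exact ⟨h, h'⟩
  rw [h2]
  exact h1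

theorem cl_coneOf {C : Set (ℙ ℂ (Fin (n + 2) → ℂ))} (hC : IsClosed C) {v : B2 × (Fin n → ℂ)}
    (hv : v ∈ closure (coneOf C)) (h0 : v.1 ≠ 0) : v ∈ coneOf C := by
  refine ⟨h0, ?_⟩
  by_contra hcon
  have h1 : v ∈ coneOf Cᶜ := ⟨h0, hcon⟩
  obtain ⟨x, ⟨hx, hx1⟩, ⟨hx', hx2⟩⟩ := mem_closure_iff.1 hv _ (isOpen_coneOf hC.isOpen_compl) h1
  exact hx1 hx2

theorem bdd_coneOf {C : Set (ℙ ℂ (Fin (n + 2) → ℂ))} (hC : IsClosed C)
    (hCc : C ∩ range (cen n) = ∅) : IsBdd (coneOf C) := by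
  -- the normalised vectors
  set S : Set (Fin (n + 2) → ℂ) := {w | ‖w‖ = 1 ∧ ∃ hw : w ≠ 0, Projectivization.mk ℂ w hw ∈ C}
    with hS
  have hSc : IsCompact S := by
    have h1 : IsClosed S := by
      rw [← isOpen_compl_iff]
      have h2 : IsOpen {w : Fin (n + 2) → ℂ | ‖w‖ ≠ 1} := isOpen_ne.preimage continuous_norm
      have h3 : IsOpen (Subtype.val ''
          ((fun v : {v : Fin (n + 2) → ℂ // v ≠ 0} => Projectivization.mk ℂ v.1 v.2) ⁻¹' Cᶜ)) :=
        isOpen_ne.isOpenMap_subtype_val _ (hC.isOpen_compl.preimage (continuous_pmk (n + 2)))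
      have h4 : Sᶜ = {w : Fin (n + 2) → ℂ | ‖w‖ ≠ 1} ∪ (Subtype.val ''
          ((fun v : {v : Fin (n + 2) → ℂ // v ≠ 0} => Projectivization.mk ℂ v.1 v.2) ⁻¹' Cᶜ)) := by
        ext w
        constructor
        · intro hw
          by_cases h5 : ‖w‖ = 1
          · right
            have h6 : w ≠ 0 := by
              rintro rfl
              simp at h5
            refine ⟨⟨w, h6⟩, fun h7 => hw ⟨h5, h6, h7⟩, rfl⟩
          · left
            exact h5
        · rintro (h5 | ⟨⟨w, h6⟩, h7, rfl⟩) hw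
          · exact h5 hw.1
          · exact h7 hw.2.2
      rw [h4]
      exact h2.union h3
    have h5 : S ⊆ sphere (0 : Fin (n + 2) → ℂ) 1 := fun w hw => by
      rw [mem_sphere_zero_iff_norm]
      exact hw.1
    exact (isCompact_sphere _ _).of_isClosed_subset h1 h5
  have hpos : ∀ w ∈ S, 0 < ‖(PD2x.split w).1‖ := by
    rintro w ⟨-, hw, hwC⟩
    rw [norm_pos_iff]
    intro h0
    have h1 : w 0 = 0 ∧ w 1 = 0 := by
      have := Prod.ext_iff.1 h0
      exact ⟨this.1, this.2⟩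
    have : Projectivization.mk ℂ w hw ∈ C ∩ range (cen n) := ⟨hwC, PD2x.mk_mem_range_cen hw h1⟩
    rw [hCc] at this
    exact this
  have hcont : Continuous fun w : Fin (n + 2) → ℂ => ‖(PD2x.split w).1‖ :=
    (continuous_fst.comp PD2x.continuous_split).norm
  rcases S.eq_empty_or_nonempty with hSe | hSn
  · refine ⟨0, ?_⟩
    rintro v ⟨hv, hvC⟩
    exfalso
    have hw : join v ≠ 0 := join_ne hv
    have hn : (‖join v‖ : ℂ) ≠ 0 := by
      exact_mod_cast norm_ne_zero_iff.2 hw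
    have hmem : ((‖join v‖ : ℂ)⁻¹ • join v) ∈ S := by
      refine ⟨?_, smul_ne_zero (inv_ne_zero hn) hw, ?_⟩
      · rw [norm_smul, norm_inv, Complex.norm_real, norm_norm, inv_mul_cancel₀]
        exact norm_ne_zero_iff.2 hw
      · have : Projectivization.mk ℂ ((‖join v‖ : ℂ)⁻¹ • join v)
            (smul_ne_zero (inv_ne_zero hn) hw) = Projectivization.mk ℂ (join v) hw := by
          rw [Projectivization.mk_eq_mk_iff']
          exact ⟨_, rfl⟩
        rw [this]
        exact hvC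
    rw [hSe] at hmem
    exact hmem
  · obtain ⟨w₀, hw₀, hmin⟩ := hSc.exists_isMinOn hSn hcont.continuousOn
    set δ : ℝ := ‖(PD2x.split w₀).1‖ with hδ
    have hδ0 : 0 < δ := hpos w₀ hw₀
    refine ⟨δ⁻¹, ?_⟩
    rintro v ⟨hv, hvC⟩
    have hw : join v ≠ 0 := join_ne hv
    have hn0 : 0 < ‖join v‖ := norm_pos_iff.2 hw
    have hn : (‖join v‖ : ℂ) ≠ 0 := by
      exact_mod_cast hn0.ne'
    have hmem : ((‖join v‖ : ℂ)⁻¹ • join v) ∈ S := by
      refine ⟨?_, smul_ne_zero (inv_ne_zero hn) hw, ?_⟩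
      · rw [norm_smul, norm_inv, Complex.norm_real, norm_norm, inv_mul_cancel₀]
        exact norm_ne_zero_iff.2 hw
      · have : Projectivization.mk ℂ ((‖join v‖ : ℂ)⁻¹ • join v)
            (smul_ne_zero (inv_ne_zero hn) hw) = Projectivization.mk ℂ (join v) hw := by
          rw [Projectivization.mk_eq_mk_iff']
          exact ⟨_, rfl⟩
        rw [this]
        exact hvC
    have h1 : δ ≤ ‖(PD2x.split ((‖join v‖ : ℂ)⁻¹ • join v)).1‖ := hmin hmem
    rw [PD2x.split_smul, PD2x.split_join, Prod.smul_fst, norm_smul, norm_inv, Complex.norm_real,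
      norm_norm, inv_mul_eq_div, le_div_iff₀ hn0] at h1
    have h2 : ‖v.2‖ ≤ ‖join v‖ := by
      refine (pi_norm_le_iff_of_nonneg (norm_nonneg _)).2 fun i => ?_
      rw [← join_succ v i]
      exact norm_le_pi_norm _ _
    rw [inv_mul_eq_div, le_div_iff₀ hδ0]
    nlinarith

end PD1x

open PD1x

theorem coneOf_clCone {n : ℕ} {C : Set (ℙ ℂ (Fin (n + 2) → ℂ))} (hC : IsClosed C)
    (hCc : C ∩ range (cen n) = ∅) : ClCone (coneOf C) :=
  ⟨isCone_coneOf C, bdd_coneOf hC hCc, fun _ hv h0 => cl_coneOf hC hv h0⟩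

theorem coneOf_trap {n d : ℕ} (f : FM (n + 2) d) {s : Sys (Fin n → ℂ)}
    (hs : ∀ v, join (s.F v) = f.Φ (join v)) {U : Set (ℙ ℂ (Fin (n + 2) → ℂ))}
    (hU : IsTrapping f.map U) (hUc : closure U ∩ range (cen n) = ∅) : Trap s (coneOf U) := by
  obtain ⟨-, hUo, hUt⟩ := hU
  have hsub : coneOf U ⊆ coneOf (closure U) := fun v hv => ⟨hv.1, subset_closure hv.2⟩
  refine ⟨isOpen_coneOf hUo, isCone_coneOf U, ?_, ?_⟩
  · obtain ⟨M, hM⟩ := bdd_coneOf isClosed_closure hUc
    exact ⟨M, fun v hv => hM v (hsub hv)⟩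
  · intro v hv h0
    obtain ⟨h1, h2⟩ := cl_coneOf isClosed_closure (closure_mono hsub hv) h0
    have h3 : (s.F v).1 ≠ 0 := s.g_ne _ h0
    refine ⟨h3, ?_⟩
    have h4 : Projectivization.mk ℂ (join (s.F v)) (join_ne h3) =
        f.map (Projectivization.mk ℂ (join v) (join_ne h1)) := by
      rw [f.map_mk]
      congr 1
      exact hs v
    rw [h4]
    exact hUt ⟨_, h2, rfl⟩

end MF7
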