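import Pool.Agent.Lib.MF7_T2

/-!
# MF7, row T3: the centre (helper2)
-/

set_option autoImplicit false

open Set Filter Topology

namespace MF7

namespace T3x

open T2x

variable {Y : Type*} [TopologicalSpace Y] [CompactSpace Y] [T2Space Y] {f : Y → Y}

theorem quasi_closed (hf : Continuous f) {Q : Set Y} (hQ : IsQuasiAttractor f Q) : IsClosed Q := by
  obtain ⟨-, 𝒜, -, h𝒜, rfl⟩ := hQ
  exact isClosed_sInter fun A hA => (attracting_closed hf (h𝒜 A hA)).1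

omit [CompactSpace Y] [T2Space Y] in
/-- A nonempty intersection of quasi-attractors is a quasi-attractor. -/
theorem quasi_sInter {𝒬 : Set (Set Y)} (hne : 𝒬.Nonempty)
    (h : ∀ Q ∈ 𝒬, IsQuasiAttractor f Q) (hi : (⋂₀ 𝒬).Nonempty) :
    IsQuasiAttractor f (⋂₀ 𝒬) := by
  refine ⟨hi, {A | IsAttracting f A ∧ ⋂₀ 𝒬 ⊆ A}, ?_, fun A hA => hA.1, ?_⟩
  · obtain ⟨Q, hQ⟩ := hne
    obtain ⟨-, 𝒜, ⟨A, hA⟩, h𝒜, rfl⟩ := h Q hQ
    exact ⟨A, h𝒜 A hA, (sInter_subset_of_mem hQ).trans (sInter_subset_of_mem hA)⟩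
  · refine Subset.antisymm (subset_sInter fun A hA => hA.2) ?_
    refine subset_sInter fun Q hQ => ?_
    obtain ⟨-, 𝒜, -, h𝒜, hQ𝒜⟩ := h Q hQ
    have h1 : ∀ A ∈ 𝒜, A ∈ {A | IsAttracting f A ∧ ⋂₀ 𝒬 ⊆ A} := by
      intro A hA
      refine ⟨h𝒜 A hA, (sInter_subset_of_mem hQ).trans ?_⟩
      rw [hQ𝒜]
      exact sInter_subset_of_mem hA
    intro x hx
    rw [hQ𝒜]
    exact mem_sInter.2 fun A hA => mem_sInter.1 hx A (h1 A hA)

/-- Every quasi-attractor contains a minimal one. -/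
theorem exists_minimal (hf : Continuous f) {P : Set Y} (hP : IsQuasiAttractor f P) :
    ∃ P₀, IsMinimalQuasi f P₀ ∧ P₀ ⊆ P := by
  obtain ⟨P₀, hP₀, hmin⟩ := zorn_superset_nonempty {Q | IsQuasiAttractor f Q} (by
    intro c hc hchain hcne
    have h1 : (⋂₀ c).Nonempty := by
      have hne : Nonempty c := hcne.to_subtype
      rw [sInter_eq_iInter]
      refine IsCompact.nonempty_iInter_of_directed_nonempty_isCompact_isClosed _ ?_ ?_ ?_ ?_
      · intro a b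
        rcases hchain.total a.2 b.2 with hab | hab
        · exact ⟨a, Subset.rfl, hab⟩
        · exact ⟨b, hab, Subset.rfl⟩
      · exact fun a => (hc a.2).1
      · exact fun a => (quasi_closed hf (hc a.2)).isCompact
      · exact fun a => quasi_closed hf (hc a.2)
    exact ⟨⋂₀ c, quasi_sInter hcne (fun Q hQ => hc hQ) h1, fun s hs => sInter_subset_of_mem hs⟩)
    P hP
  exact ⟨P₀, ⟨hmin.1, fun Q' hQ' hle => Subset.antisymm hle (hmin.2 hQ' hle)⟩, hP₀⟩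

/-- T3, from the conclusion of T1. -/
theorem of_centre {Z : Type*} [TopologicalSpace Z] [CompactSpace Z]
    [T2Space Z] (hf : Continuous f) {e : Z → Y} (he : IsClosedEmbedding e)
    {fZ : Z → Z} (hfZ : Continuous fZ) (hcomm : ∀ z, e (fZ z) = f (e z))
    (hpre : ∀ y, f y ∈ range e → y ∈ range e)
    (hN : ∀ N, IsOpen N → range e ⊆ N → ∃ U, IsTrapping f U ∧ range e ⊆ U ∧ U ⊆ N ∧
      ∀ y, (∀ n : ℕ, y ∈ f^[n] '' U) → y ∈ range e)
    (hZ : ∀ Q', IsMinimalQuasi fZ Q' → IsAttracting fZ Q') {Q : Set Y}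
    (hQ : IsMinimalQuasi f Q)
    (hnb : ∀ N, IsOpen N → Q ⊆ N → ∃ U, IsTrapping f U ∧ Q ⊆ U ∧ U ⊆ N)
    (hmeet : (Q ∩ range e).Nonempty) : IsAttracting f Q := by
  classical
  have hcomm' : ∀ (n : ℕ) z, e (fZ^[n] z) = f^[n] (e z) := by
    intro n
    induction n with
    | zero => exact fun z => rfl
    | succ n ih =>
      intro z
      rw [Function.iterate_succ_apply, ih, hcomm, ← Function.iterate_succ_apply]
  have hpre' : ∀ (n : ℕ) y, f^[n] y ∈ range e → y ∈ range e := by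
    intro n
    induction n with
    | zero => exact fun y hy => hy
    | succ n ih =>
      intro y hy
      rw [Function.iterate_succ_apply] at hy
      exact hpre y (ih _ hy)
  -- trapping regions of the centre
  have htrZ : ∀ U, IsTrapping f U → Q ⊆ U → IsTrapping fZ (e ⁻¹' U) := by
    intro U hU hQU
    refine ⟨?_, hU.2.1.preimage he.continuous, ?_⟩
    · obtain ⟨y, hy, z, rfl⟩ := hmeet
      exact ⟨z, hQU hy⟩
    · rintro _ ⟨z, hz, rfl⟩
      change e (fZ z) ∈ U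
      rw [hcomm]
      exact hU.2.2 ⟨e z, he.continuous.closure_preimage_subset U hz, rfl⟩
  let 𝒰 : Set (Set Y) := {U | IsTrapping f U ∧ Q ⊆ U}
  let AZ : Set Y → Set Z := fun U => ⋂ n : ℕ, fZ^[n] '' (e ⁻¹' U)
  have hAZ : ∀ U ∈ 𝒰, IsAttracting fZ (AZ U) := fun U hU => ⟨e ⁻¹' U, htrZ U hU.1 hU.2, rfl⟩
  have hAZmono : ∀ U V : Set Y, U ⊆ V → AZ U ⊆ AZ V := fun U V h =>
    iInter_mono fun n => image_mono (preimage_mono h)
  have h𝒰ne : 𝒰.Nonempty := by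
    obtain ⟨U, hU, hQU, -⟩ := hnb univ isOpen_univ (subset_univ _)
    exact ⟨U, hU, hQU⟩
  let P : Set Z := ⋂₀ (AZ '' 𝒰)
  have hPq : IsQuasiAttractor fZ P := by
    refine ⟨?_, AZ '' 𝒰, h𝒰ne.image _, ?_, rfl⟩
    · have hne : Nonempty 𝒰 := h𝒰ne.to_subtype
      have h1 : P = ⋂ U : 𝒰, AZ U.1 := by
        change ⋂₀ (AZ '' 𝒰) = _
        rw [sInter_image, biInter_eq_iInter]
      rw [h1]
      refine IsCompact.nonempty_iInter_of_directed_nonempty_isCompact_isClosed _ ?_ ?_ ?_ ?_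
      · intro U V
        obtain ⟨W, hW, hQW, hWUV⟩ := hnb (U.1 ∩ V.1) (U.2.1.2.1.inter V.2.1.2.1)
          (subset_inter U.2.2 V.2.2)
        exact ⟨⟨W, hW, hQW⟩, hAZmono _ _ (hWUV.trans inter_subset_left),
          hAZmono _ _ (hWUV.trans inter_subset_right)⟩
      · exact fun U => (attracting_closed hfZ (hAZ U.1 U.2)).2
      · exact fun U => (attracting_closed hfZ (hAZ U.1 U.2)).1.isCompact
      · exact fun U => (attracting_closed hfZ (hAZ U.1 U.2)).1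
    · rintro _ ⟨U, hU, rfl⟩
      exact hAZ U hU
  have hPQ : e '' P ⊆ Q := by
    rintro _ ⟨z, hz, rfl⟩
    by_contra hzQ
    obtain ⟨U, hU, hQU, hUN⟩ := hnb {e z}ᶜ isClosed_singleton.isOpen_compl
      (fun y hy hyz => hzQ (by rw [mem_singleton_iff.1 hyz] at hy; exact hy))
    have h1 : z ∈ AZ U := mem_sInter.1 hz _ ⟨U, ⟨hU, hQU⟩, rfl⟩
    have h2 := mem_iInter.1 h1 0
    obtain ⟨z', hz', hzz⟩ := h2
    have h3 : z' = z := hzz
    rw [h3] at hz'
    exact hUN hz' rfl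
  obtain ⟨P₀, hP₀, hP₀P⟩ := exists_minimal hfZ hPq
  obtain ⟨U', ⟨hU'ne, hU'o, hU't⟩, hPU'⟩ := hZ P₀ hP₀
  -- the neighbourhoods
  let K' : Set Y := e '' (fZ '' closure U')
  have hK'c : IsCompact K' := ((isClosed_closure.isCompact).image hfZ).image he.continuous
  have hCc : IsClosed (e '' U'ᶜ) := he.isClosedMap _ hU'o.isClosed_compl
  have hK'C : K' ⊆ (e '' U'ᶜ)ᶜ := by
    rintro _ ⟨z, hz, rfl⟩ ⟨z', hz', hzz⟩
    have h1 : z' = z := he.injective hzz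
    rw [h1] at hz'
    exact hz' (hU't hz)
  obtain ⟨O, hO, hK'O, hOC⟩ := normal_exists_closure_subset hK'c.isClosed hCc.isOpen_compl hK'C
  have hOr : closure O ∩ range e ⊆ f ⁻¹' O := by
    rintro _ ⟨hy, z, rfl⟩
    have h1 : z ∈ U' := by
      by_contra h2
      exact hOC hy ⟨z, h2, rfl⟩
    refine hK'O ⟨fZ z, ⟨z, subset_closure h1, rfl⟩, hcomm z⟩
  have hbad : IsClosed (closure O ∩ (f ⁻¹' O)ᶜ) :=
    isClosed_closure.inter (hO.preimage hf).isClosed_compl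
  have hre : range e ⊆ (closure O ∩ (f ⁻¹' O)ᶜ)ᶜ := fun y hy h1 => h1.2 (hOr ⟨h1.1, hy⟩)
  have hrc : IsClosed (range e) := he.isClosed_range
  obtain ⟨N', hN'o, hrN', hN'c⟩ := normal_exists_closure_subset hrc hbad.isOpen_compl hre
  obtain ⟨N₁, hN₁, hrN₁, hN₁N', hN₁A⟩ := hN N' hN'o hrN'
  have htr : IsTrapping f (O ∩ N₁) := by
    refine ⟨?_, hO.inter hN₁.2.1, ?_⟩
    · obtain ⟨z, hz⟩ := hU'ne
      refine ⟨e (fZ z), hK'O ⟨fZ z, ⟨z, subset_closure hz, rfl⟩, rfl⟩, hrN₁ ⟨_, rfl⟩⟩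
    · rintro _ ⟨y, hy, rfl⟩
      have h1 : y ∈ closure O := closure_mono inter_subset_left hy
      have h2 : y ∈ closure N₁ := closure_mono inter_subset_right hy
      refine ⟨?_, hN₁.2.2 ⟨y, h2, rfl⟩⟩
      by_contra h3
      exact hN'c (closure_mono hN₁N' h2) ⟨h1, h3⟩
  have hAt : IsAttracting f (⋂ n : ℕ, f^[n] '' (O ∩ N₁)) := ⟨_, htr, rfl⟩
  have hsub : (⋂ n : ℕ, f^[n] '' (O ∩ N₁)) ⊆ Q := by
    intro y hy
    rw [mem_iInter] at hy
    have h1 : y ∈ range e := hN₁A y fun n => image_mono inter_subset_right (hy n)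
    obtain ⟨z, rfl⟩ := h1
    have h2 : z ∈ P₀ := by
      rw [hPU', mem_iInter]
      intro n
      obtain ⟨u, hu, huz⟩ := hy n
      obtain ⟨z', rfl⟩ := hpre' n u (by rw [huz]; exact ⟨z, rfl⟩)
      have h3 : z' ∈ U' := by
        by_contra h4
        exact hOC (subset_closure hu.1) ⟨z', h4, rfl⟩
      refine ⟨z', h3, he.injective ?_⟩
      rw [hcomm', huz]
    exact hPQ ⟨z, hP₀P h2, rfl⟩
  have hqa : IsQuasiAttractor f (⋂ n : ℕ, f^[n] '' (O ∩ N₁)) :=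
    ⟨(attracting_closed hf hAt).2, {_}, singleton_nonempty _,
      fun A hA => by rw [mem_singleton_iff.1 hA]; exact hAt, by rw [sInter_singleton]⟩
  rw [← hQ.2 _ hqa hsub]
  exact hAt

end T3x

variable {Y : Type*} [TopologicalSpace Y] [CompactSpace Y] [T2Space Y]

theorem IsMinimalQuasi.attracting_of_centre {Z : Type*} [TopologicalSpace Z] [CompactSpace Z]
    [T2Space Z] {f : Y → Y} (hf : Continuous f) {e : Z → Y} (he : IsClosedEmbedding e)
    {fZ : Z → Z} (hfZ : Continuous fZ) (hcomm : ∀ z, e (fZ z) = f (e z))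
    (hpre : ∀ y, f y ∈ range e → y ∈ range e)
    (hN : ∀ N, IsOpen N → range e ⊆ N → ∃ U, IsTrapping f U ∧ range e ⊆ U ∧ U ⊆ N ∧
      ∀ y, (∀ n : ℕ, y ∈ f^[n] '' U) → y ∈ range e)
    (hZ : ∀ Q', IsMinimalQuasi fZ Q' → IsAttracting fZ Q') {Q : Set Y}
    (hQ : IsMinimalQuasi f Q) (hmeet : (Q ∩ range e).Nonempty) : IsAttracting f Q :=
  T3x.of_centre hf he hfZ hcomm hpre hN hZ hQ (hQ.nhds hf).2.2 hmeet

end MF7
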