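import Pool.Agent.Lib.MF7_Up
import Pool.Agent.Lib.MF7_T3
import Pool.Agent.Lib.MF7_PA
import Pool.Agent.Lib.MF7_PB
import Pool.Agent.Lib.MF7_PC
import Pool.Agent.Lib.MF7_PC2
import Pool.Agent.Lib.MF7_PD1
import Pool.Agent.Lib.MF7_PD2

/-!
# Minimal quasi-attractors of block-triangular maps are attracting sets
-/

set_option autoImplicit false
set_option linter.unusedSectionVars false

open Set Metric Filter Topology
open scoped LinearAlgebra.Projectivization

namespace MF7

/-- a minimal quasi-attractor off the centre is an attracting set -/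
theorem off_centre {n d : ℕ} (hd : 1 ≤ d) (f : FM (n + 2) d)
    {Q : Set (ℙ ℂ (Fin (n + 2) → ℂ))} (hQ : IsMinimalQuasi f.map Q)
    (hc : Q ∩ range (cen n) = ∅) : IsAttracting f.map Q := by
  obtain ⟨hcl, hfwd, hnb⟩ := hQ.nhds f.continuous_map
  obtain ⟨s, hs⟩ := f.exists_sys hd
  have hQ' : ClCone (coneOf Q) := coneOf_clCone hcl hc
  have hPQ : ptsOf (coneOf Q) = Q := ptsOf_coneOf hc
  have hne : (coneOf Q).Nonempty := by
    obtain ⟨p, hp⟩ := hQ.1.1
    rw [← hPQ] at hp
    obtain ⟨v, hv, -⟩ := hp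
    exact ⟨v, hv⟩
  have hFQ : ∀ v ∈ coneOf Q, s.F v ∈ coneOf Q := by
    rintro v ⟨hv, hvQ⟩
    obtain ⟨h1, h2⟩ := iter_mk f hs 1 hv
    refine ⟨h1, ?_⟩
    have h3 := hfwd _ hvQ
    have h4 : f.map (Projectivization.mk ℂ (join v) (join_ne hv)) =
      Projectivization.mk ℂ (join (s.F^[1] v)) (join_ne h1) := h2
    rw [h4] at h3
    exact h3
  have htrap : ∀ N : Set (B2 × (Fin n → ℂ)), IsOpen N → IsCone N → coneOf Q ⊆ N →
      ∃ U, Trap s U ∧ coneOf Q ⊆ U ∧ U ⊆ N := by
    intro N hN hNc hQN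
    have hcc : IsClosed (range (cen n)) := (cen_isClosedEmbedding n).isClosed_range
    have hdisj : Disjoint Q (range (cen n)) := by
      rw [disjoint_iff_inter_eq_empty]
      exact hc
    obtain ⟨O, O', hO, hO', hQO, hcO, hOO⟩ := normal_separation hcl hcc hdisj
    have hQP : Q ⊆ ptsOf N ∩ O := by
      intro p hp
      refine ⟨?_, hQO hp⟩
      have h1 := hp
      rw [← hPQ] at h1
      obtain ⟨v, hv, hv1, rfl⟩ := h1
      exact ⟨v, hQN hv, hv1, rfl⟩
    obtain ⟨U, hU, hQU, hUN⟩ := hnb _ ((ptsOf_open hN hNc).inter hO) hQP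
    have hUc : closure U ∩ range (cen n) = ∅ := by
      have h1 : closure U ⊆ O'ᶜ := by
        refine closure_minimal ?_ hO'.isClosed_compl
        intro p hp hp'
        exact Set.disjoint_left.1 hOO (hUN hp).2 hp'
      rw [← disjoint_iff_inter_eq_empty, Set.disjoint_left]
      intro p hp hp'
      exact h1 hp (hcO hp')
    refine ⟨coneOf U, coneOf_trap f hs hU hUc, ?_, ?_⟩
    · rintro v ⟨hv, hv'⟩
      exact ⟨hv, hQU hv'⟩
    · rintro v ⟨hv, hv'⟩
      have h1 : v ∈ coneOf (ptsOf N) := ⟨hv, (hUN hv').1⟩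
      rwa [coneOf_ptsOf hNc] at h1
  obtain ⟨p, hp, B, hBo, hBc, hBb, hBne, hBB, hBQ⟩ := up_main s hQ' hne hFQ htrap
  refine hQ.attracting_of_iter f.continuous_map hp (B := ptsOf B) (ptsOf_open hBo hBc) ?_ ?_ ?_
  · obtain ⟨v, hv⟩ := hBne
    exact ⟨_, v, hv, hBc.2 v hv, rfl⟩
  · rintro _ ⟨y, hy, rfl⟩
    obtain ⟨v, hv, hv1, rfl⟩ := closure_ptsOf hBc hBb hy
    obtain ⟨h1, h2⟩ := iter_mk f hs p hv1
    rw [h2]
    exact ⟨s.F^[p] v, hBB v hv hv1, h1, rfl⟩
  · intro y hy
    obtain ⟨y0, hy0, hy0'⟩ := hy 0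
    have hyB : y ∈ ptsOf B := by
      have : y0 = y := by simpa using hy0'
      rwa [this] at hy0
    obtain ⟨v, hv, hv1, rfl⟩ := hyB
    have hvQ : v ∈ coneOf Q := by
      refine hBQ v hv1 (fun j => ?_)
      obtain ⟨z, ⟨u, hu, hu1, rfl⟩, hz⟩ := hy j
      obtain ⟨h1, h2⟩ := iter_mk f hs (j * p) hu1
      rw [h2] at hz
      obtain ⟨c, hc0, hcv⟩ := (mk_join_eq h1 hv1).1 hz
      exact ⟨u, hu, c, hc0, hcv⟩
    exact hvQ.2

/-- in a space with at most one point every nonempty set is attracting -/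
theorem attracting_of_subsingleton {Y : Type*} [TopologicalSpace Y] [Subsingleton Y] (f : Y → Y)
    {Q : Set Y} (hQ : Q.Nonempty) : IsAttracting f Q := by
  obtain ⟨q, hq⟩ := hQ
  have huniv : ∀ S : Set Y, S.Nonempty → S = univ := fun S hS => by
    obtain ⟨a, ha⟩ := hS
    exact eq_univ_of_forall fun b => by rwa [Subsingleton.elim b a]
  refine ⟨univ, ⟨⟨q, trivial⟩, isOpen_univ, subset_univ _⟩, ?_⟩
  rw [huniv Q ⟨q, hq⟩]
  refine (eq_univ_of_forall fun y => mem_iInter.2 fun m => ?_).symm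
  exact ⟨y, trivial, Subsingleton.elim _ _⟩

/-- **Main theorem**: minimal quasi-attractors of block-triangular maps are attracting sets. -/
theorem main {d : ℕ} (hd : 2 ≤ d) : ∀ (n : ℕ) (f : FM n d) (Q : Set (ℙ ℂ (Fin n → ℂ))),
    IsMinimalQuasi f.map Q → IsAttracting f.map Q
  | 0, f, Q, hQ => by
    have : Subsingleton (ℙ ℂ (Fin 0 → ℂ)) := by
      constructor
      intro a b
      exact absurd (Subsingleton.elim _ _) a.rep_nonzero
    exact attracting_of_subsingleton _ hQ.1.1
  | 1, f, Q, hQ => by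
    have : Subsingleton (ℙ ℂ (Fin 1 → ℂ)) := by
      constructor
      intro a b
      induction a using Projectivization.ind with | h v hv => ?_
      induction b using Projectivization.ind with | h w hw => ?_
      rw [mk_eq_mk_iff_minors]
      intro i j
      rw [Subsingleton.elim j i]
    exact attracting_of_subsingleton _ hQ.1.1
  | n + 2, f, Q, hQ => by
    by_cases hc : Q ∩ range (cen n) = ∅
    · exact off_centre (by omega) f hQ hc
    · have hmeet : (Q ∩ range (cen n)).Nonempty := Set.nonempty_iff_ne_empty.2 hc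
      have hn : 1 ≤ n := by
        obtain ⟨_, -, z, -⟩ := hmeet
        by_contra h0
        have : n = 0 := by omega
        subst this
        exact z.rep_nonzero (Subsingleton.elim _ _)
      exact hQ.attracting_of_centre f.continuous_map (cen_isClosedEmbedding n)
        f.res.continuous_map (cen_comm (by omega) f) (cen_pre f) (cen_nhds hn hd f)
        (main hd n f.res) hmeet

end MF7
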