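import Pool.Agent.Lib.MF7_Base

/-!
# The hull of a family of curves; openness over the base (definitions)
-/

set_option autoImplicit false

open Set Metric Filter Topology

namespace MF7

variable {W : Type} [NormedAddCommGroup W] [NormedSpace ℂ W]

/-- closure of the union of a family of curves -/
def hull {ι : Type} (v : ι → ℂ → B2 × W) : Set (B2 × W) :=
  {p | p.1 ≠ 0 ∧ p ∈ closure {q | ∃ (i : ι) (z c : ℂ), c ≠ 0 ∧ q = c • v i z}}

/-- openness over the base at the scale of fibre components -/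
def LSC (S : Set (B2 × W)) : Prop :=
  ∀ x : B2, x ≠ 0 → ∀ Ω : Set W, IsOpen Ω → (∀ w ∈ frontier Ω, (x, w) ∉ S) →
    ∀ w₀ ∈ Ω, (x, w₀) ∈ S → ∃ δ > 0, ∀ x' : B2, ‖x' - x‖ < δ → ∃ w ∈ Ω, (x', w) ∈ S

end MF7
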