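import Mathlib

/-!
# ND: common zeros of few polynomials, and nondegeneracy of block-triangular maps
-/

set_option autoImplicit false

open MvPolynomial

namespace MF7

/-- the translation of the polynomial ring by a point -/
noncomputable def ND.tr {σ : Type} (a : σ → ℂ) : MvPolynomial σ ℂ ≃ₐ[ℂ] MvPolynomial σ ℂ :=
  AlgEquiv.ofAlgHom (aeval (fun i => X i + C (a i))) (aeval (fun i => X i - C (a i)))
    (by
      apply MvPolynomial.algHom_ext
      intro i
      simp)
    (by
      apply MvPolynomial.algHom_ext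
      intro i
      simp)

theorem ND.eval_tr {σ : Type} (a x : σ → ℂ) (p : MvPolynomial σ ℂ) :
    aeval x (ND.tr a p) = aeval (x + a) p := by
  have : ((aeval x : MvPolynomial σ ℂ →ₐ[ℂ] ℂ).comp (ND.tr a).toAlgHom) = aeval (x + a) := by
    apply MvPolynomial.algHom_ext
    intro i
    simp [ND.tr]
  exact congrArg (fun F => F p) this

/-- the maximal ideal of the origin has height at least the number of variables -/
theorem ND.height_ge {σ : Type} [Finite σ] :
    (Nat.card σ : ℕ∞) ≤ (vanishingIdeal ℂ {(0 : σ → ℂ)} : Ideal (MvPolynomial σ ℂ)).height := by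
  have hdim : ringKrullDim (MvPolynomial σ ℂ) = (Nat.card σ : WithBot ℕ∞) := by
    rw [MvPolynomial.ringKrullDim_of_isNoetherianRing, ringKrullDim_eq_zero_of_field, zero_add]
  have hle : ringKrullDim (MvPolynomial σ ℂ) ≤
      ((vanishingIdeal ℂ {(0 : σ → ℂ)} : Ideal (MvPolynomial σ ℂ)).height : WithBot ℕ∞) := by
    rw [ringKrullDim_le_iff_isMaximal_height_le]
    intro M hM
    obtain ⟨a, ha⟩ := eq_vanishingIdeal_singleton_of_isMaximal ℂ hM
    have hcomap : M.comap (RingEquiv.symm (ND.tr a).toRingEquiv).symm.symm.toRingHom =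
        M.comap (RingEquiv.symm (ND.tr a).toRingEquiv).symm.symm.toRingHom := rfl
    have h1 : (vanishingIdeal ℂ {(0 : σ → ℂ)} : Ideal (MvPolynomial σ ℂ)).comap
        ((ND.tr a).toRingEquiv : MvPolynomial σ ℂ ≃+* MvPolynomial σ ℂ) = M := by
      ext p
      rw [ha, Ideal.mem_comap, mem_vanishingIdeal_singleton_iff, mem_vanishingIdeal_singleton_iff]
      have := ND.eval_tr a 0 p
      rw [zero_add] at this
      rw [← this]
      rfl
    have h2 := RingEquiv.height_comap (ND.tr a).toRingEquiv
      (vanishingIdeal ℂ {(0 : σ → ℂ)} : Ideal (MvPolynomial σ ℂ))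
    rw [← h1]
    exact_mod_cast h2.le
  rw [hdim] at hle
  exact_mod_cast hle

/-- fewer polynomials than variables, all vanishing at the origin, have another common zero -/
theorem ND.common_zero {σ ι : Type} [Finite σ] [Finite ι] (hc : Nat.card ι < Nat.card σ)
    (s : ι → MvPolynomial σ ℂ) (h0 : ∀ i, eval 0 (s i) = 0) :
    ∃ x : σ → ℂ, x ≠ 0 ∧ ∀ i, eval x (s i) = 0 := by
  by_contra hcon
  push Not at hcon
  set I : Ideal (MvPolynomial σ ℂ) := Ideal.span (Set.range s) with hI
  have hz : zeroLocus ℂ I = {(0 : σ → ℂ)} := by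
    rw [hI, zeroLocus_span]
    ext x
    simp only [Set.mem_range, forall_exists_index, forall_apply_eq_imp_iff, Set.mem_ofPred_eq,
      Set.mem_singleton_iff]
    constructor
    · intro h
      by_contra hx
      obtain ⟨i, hi⟩ := hcon x hx
      refine hi ?_
      rw [← coe_aeval_eq_eval]
      exact h i
    · intro h i
      rw [h]
      have h1 := h0 i
      rw [← coe_aeval_eq_eval] at h1
      exact h1
  have hrad : I.radical = (vanishingIdeal ℂ {(0 : σ → ℂ)} : Ideal (MvPolynomial σ ℂ)) := by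
    rw [← vanishingIdeal_zeroLocus_eq_radical (K := ℂ) I, hz]
  have hmin : (vanishingIdeal ℂ {(0 : σ → ℂ)} : Ideal (MvPolynomial σ ℂ)) ∈ I.minimalPrimes := by
    refine ⟨⟨inferInstance, ?_⟩, ?_⟩
    · rw [← hrad]
      exact Ideal.le_radical
    · rintro P ⟨hP, hIP⟩ -
      rw [← hrad]
      exact hP.radical_le_iff.2 hIP
  have hfin : (Set.range s).Finite := Set.finite_range s
  have hle := Ideal.height_le_card_of_mem_minimalPrimes_span hfin hmin
  have hcard : (Set.range s).ncard ≤ Nat.card ι := by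
    rw [← Set.image_univ]
    exact (Set.ncard_image_le Set.finite_univ).trans (by rw [Set.ncard_univ])
  have h3 : (Nat.card σ : ℕ∞) ≤ (Set.range s).ncard := ND.height_ge.trans hle
  have h4 : Nat.card σ ≤ (Set.range s).ncard := by exact_mod_cast h3
  omega

theorem ND.eval_smul {σ : Type} [Fintype σ] {d : ℕ} {p : MvPolynomial σ ℂ}
    (hp : p.IsHomogeneous d) (c : ℂ) (v : σ → ℂ) : eval (c • v) p = c ^ d * eval v p := by
  classical
  rw [eval_eq', eval_eq', Finset.mul_sum]
  refine Finset.sum_congr rfl (fun m hm => ?_)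
  have hdeg : ∑ i, m i = d := by
    have h1 := hp (mem_support_iff.1 hm)
    have h2 : m.degree = Finsupp.weight (1 : σ → ℕ) m := by
      rw [Finsupp.degree_eq_weight_one]
      rfl
    rw [← h2, Finsupp.degree_eq_sum] at h1
    exact h1
  have h2 : ∏ i, ((c • v) i) ^ m i = c ^ d * ∏ i, v i ^ m i := by
    simp only [Pi.smul_apply, smul_eq_mul, mul_pow, Finset.prod_mul_distrib]
    rw [Finset.prod_pow_eq_pow_sum, hdeg]
  rw [h2]
  ring

theorem nondeg_of_ne {n d : ℕ} (hd : 1 ≤ d) (P : Fin n → MvPolynomial (Fin n) ℂ)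
    (hom : ∀ i, (P i).IsHomogeneous d)
    (tri : ∀ i j, j ∈ (P i).vars → (j : ℕ) / 2 ≤ (i : ℕ) / 2)
    (hne : ∀ v : Fin n → ℂ, v ≠ 0 → ∃ i, MvPolynomial.eval v (P i) ≠ 0)
    (v : Fin n → ℂ) (i : Fin n) (hi : v i ≠ 0)
    (h0 : ∀ j : Fin n, (j : ℕ) / 2 < (i : ℕ) / 2 → v j = 0) :
    ∃ i' : Fin n, (i' : ℕ) / 2 = (i : ℕ) / 2 ∧ MvPolynomial.eval v (P i') ≠ 0 := by
  classical
  by_contra hcon
  push Not at hcon
  -- values agree if the relevant coordinates agree
  have hagree : ∀ (k : Fin n) (x y : Fin n → ℂ), (∀ j : Fin n, (j : ℕ) / 2 ≤ (k : ℕ) / 2 →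
      x j = y j) → eval x (P k) = eval y (P k) := by
    intro k x y hxy
    exact eval₂Hom_congr' rfl (fun j hj _ => hxy j (tri k j hj)) rfl
  have hzero : ∀ k : Fin n, eval (0 : Fin n → ℂ) (P k) = 0 := by
    intro k
    have h1 := ND.eval_smul (hom k) 0 (0 : Fin n → ℂ)
    rw [smul_zero, zero_pow (by omega), zero_mul] at h1
    exact h1
  set L : Type := {j : Fin n // (i : ℕ) / 2 < (j : ℕ) / 2} with hL
  let sub : Fin n → MvPolynomial (Option L) ℂ := fun k =>
    if h : (i : ℕ) / 2 < (k : ℕ) / 2 then X (some ⟨k, h⟩)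
    else if (k : ℕ) / 2 = (i : ℕ) / 2 then C (v k) * X none else 0
  let u : (Option L → ℂ) → Fin n → ℂ := fun x k =>
    if h : (i : ℕ) / 2 < (k : ℕ) / 2 then x (some ⟨k, h⟩)
    else if (k : ℕ) / 2 = (i : ℕ) / 2 then v k * x none else 0
  have hsub : ∀ (x : Option L → ℂ) (p : MvPolynomial (Fin n) ℂ),
      eval x (aeval sub p) = eval (u x) p := by
    intro x p
    have : (eval x).comp (aeval sub : MvPolynomial (Fin n) ℂ →ₐ[ℂ] _).toRingHom = eval (u x) := by
      apply MvPolynomial.ringHom_ext
      · intro r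
        simp
      · intro k
        simp only [RingHom.coe_comp, Function.comp_apply, AlgHom.toRingHom_eq_coe,
          RingHom.coe_coe, aeval_X, eval_X, sub, u]
        split_ifs <;> simp
    exact congrArg (fun F => F p) this
  obtain ⟨x, hx, hxz⟩ := ND.common_zero (σ := Option L) (ι := L) (by
      rw [Nat.card_eq_fintype_card, Nat.card_eq_fintype_card, Fintype.card_option]
      omega)
    (fun j => aeval sub (P j.1)) (fun j => by
      rw [hsub]
      have : u 0 = 0 := by
        ext k
        simp only [u]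
        split_ifs <;> simp
      rw [this, hzero])
  have hu : u x ≠ 0 := by
    intro h
    apply hx
    ext o
    cases o with
    | none =>
      have := congrFun h i
      simp only [u, lt_irrefl, dite_false, if_true, Pi.zero_apply] at this
      exact (mul_eq_zero.1 this).resolve_left hi
    | some j =>
      have := congrFun h j.1
      simp only [u, j.2, dite_true, Pi.zero_apply] at this
      exact this
  obtain ⟨k, hk⟩ := hne _ hu
  apply hk
  rcases lt_trichotomy ((k : ℕ) / 2) ((i : ℕ) / 2) with h | h | h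
  · rw [hagree k (u x) 0, hzero]
    intro j hj
    have h1 : ¬ (i : ℕ) / 2 < (j : ℕ) / 2 := by omega
    have h2 : ¬ (j : ℕ) / 2 = (i : ℕ) / 2 := by omega
    simp only [u, h1, h2, dite_false, if_false, Pi.zero_apply]
  · rw [hagree k (u x) (x none • v)]
    · rw [ND.eval_smul (hom k), hcon k h, mul_zero]
    · intro j hj
      have h1 : ¬ (i : ℕ) / 2 < (j : ℕ) / 2 := by omega
      simp only [u, h1, dite_false, Pi.smul_apply, smul_eq_mul]
      split_ifs with h2
      · ring
      · rw [h0 j (by omega), mul_zero]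
  · have := hxz ⟨k, h⟩
    rw [hsub] at this
    exact this

end MF7
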