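import Pool.Agent.Lib.MF7_TopDef

/-!
# Complex projective space and block-triangular maps: definitions
-/

set_option autoImplicit false

open Set Filter Topology
open scoped LinearAlgebra.Projectivization

namespace MF7

/-- the quotient topology on complex projective space -/
noncomputable instance projTop (n : ℕ) : TopologicalSpace (ℙ ℂ (Fin n → ℂ)) :=
  TopologicalSpace.coinduced
    (fun v : {v : Fin n → ℂ // v ≠ 0} => Projectivization.mk ℂ v.1 v.2) inferInstance

/-- block-triangular nondegenerate homogeneous polynomial maps (functional form); the blocks are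
the pairs of coordinates `2 b`, `2 b + 1` -/
structure FM (n d : ℕ) where
  Φ : (Fin n → ℂ) → (Fin n → ℂ)
  poly : ∀ i, ∃ p : MvPolynomial (Fin n) ℂ, ∀ v, Φ v i = MvPolynomial.eval v p
  hom : ∀ (c : ℂ) (v : Fin n → ℂ), Φ (c • v) = c ^ d • Φ v
  tri : ∀ (i : Fin n) (v w : Fin n → ℂ), (∀ j : Fin n, (j : ℕ) / 2 ≤ (i : ℕ) / 2 → v j = w j) →
    Φ v i = Φ w i
  nondeg : ∀ (v : Fin n → ℂ) (i : Fin n), v i ≠ 0 →
    (∀ j : Fin n, (j : ℕ) / 2 < (i : ℕ) / 2 → v j = 0) →
    ∃ i' : Fin n, (i' : ℕ) / 2 = (i : ℕ) / 2 ∧ Φ v i' ≠ 0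

theorem FM.ne {n d : ℕ} (f : FM n d) {v : Fin n → ℂ} (hv : v ≠ 0) : f.Φ v ≠ 0 := by
  classical
  have hex : ∃ m : ℕ, ∃ i : Fin n, (i : ℕ) = m ∧ v i ≠ 0 := by
    obtain ⟨i, hi⟩ := Function.ne_iff.1 hv
    exact ⟨i, i, rfl, hi⟩
  obtain ⟨i, hi, hvi⟩ := Nat.find_spec hex
  obtain ⟨i', -, hi'⟩ := f.nondeg v i hvi (fun j hj => by
    by_contra hne
    have h1 : (j : ℕ) < Nat.find hex := by
      rw [← hi]
      by_contra hlt
      push Not at hlt
      exact absurd hj (not_lt.2 (Nat.div_le_div_right hlt))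
    exact Nat.find_min hex h1 ⟨j, rfl, hne⟩)
  intro h0
  exact hi' (by rw [h0]; rfl)

/-- the induced map of projective space -/
noncomputable def FM.map {n d : ℕ} (f : FM n d) (p : ℙ ℂ (Fin n → ℂ)) : ℙ ℂ (Fin n → ℂ) :=
  Projectivization.mk ℂ (f.Φ p.rep) (f.ne p.rep_nonzero)

theorem FM.map_mk {n d : ℕ} (f : FM n d) {v : Fin n → ℂ} (hv : v ≠ 0) :
    f.map (Projectivization.mk ℂ v hv) = Projectivization.mk ℂ (f.Φ v) (f.ne hv) := by
  rw [FM.map, Projectivization.mk_eq_mk_iff']
  obtain ⟨a, ha⟩ := Projectivization.exists_smul_eq_mk_rep ℂ v hv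
  have ha' : (a : ℂ) • v = (Projectivization.mk ℂ v hv).rep := ha
  refine ⟨(a : ℂ) ^ d, ?_⟩
  rw [← f.hom, ha']

/-- put two coordinates in front -/
def join {n : ℕ} (v : (ℂ × ℂ) × (Fin n → ℂ)) : Fin (n + 2) → ℂ :=
  Fin.cons v.1.1 (Fin.cons v.1.2 v.2)

/-- vectors with the first two coordinates zero -/
def ext0 {n : ℕ} (w : Fin n → ℂ) : Fin (n + 2) → ℂ := join ((0, 0), w)

theorem join_zero {n : ℕ} (v : (ℂ × ℂ) × (Fin n → ℂ)) : join v 0 = v.1.1 := rfl

theorem join_one {n : ℕ} (v : (ℂ × ℂ) × (Fin n → ℂ)) : join v 1 = v.1.2 := rfl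

theorem join_succ {n : ℕ} (v : (ℂ × ℂ) × (Fin n → ℂ)) (i : Fin n) :
    join v i.succ.succ = v.2 i := rfl

/-- the restriction to the centre -/
def FM.res {n d : ℕ} (f : FM (n + 2) d) : FM n d where
  Φ w := fun i => f.Φ (ext0 w) i.succ.succ
  poly i := by
    obtain ⟨p, hp⟩ := f.poly i.succ.succ
    refine ⟨MvPolynomial.aeval (fun j : Fin (n + 2) =>
      (Fin.cons 0 (Fin.cons 0 (fun k : Fin n => MvPolynomial.X k)) :
        Fin (n + 2) → MvPolynomial (Fin n) ℂ) j) p, fun w => ?_⟩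
    rw [hp]
    have : (MvPolynomial.eval w).comp (MvPolynomial.aeval (fun j : Fin (n + 2) =>
      (Fin.cons 0 (Fin.cons 0 (fun k : Fin n => MvPolynomial.X k)) :
        Fin (n + 2) → MvPolynomial (Fin n) ℂ) j)).toRingHom = MvPolynomial.eval (ext0 w) := by
      apply MvPolynomial.ringHom_ext
      · intro r
        simp
      · intro j
        refine Fin.cases ?_ (fun j => Fin.cases ?_ (fun j => ?_) j) j
        · simp [ext0, join]
        · simp [ext0, join]
        · simp [ext0, join]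
    have h2 := congrArg (fun F => F p) this
    simpa using h2.symm
  hom c w := by
    ext i
    have : ext0 (c • w) = c • ext0 w := by
      ext j
      refine Fin.cases ?_ (fun j => Fin.cases ?_ (fun j => ?_) j) j <;> simp [ext0, join]
    rw [this, f.hom]
    rfl
  tri i v w h := by
    refine f.tri _ _ _ (fun j => ?_)
    refine Fin.cases ?_ (fun j => Fin.cases ?_ (fun j => ?_) j) j
    · intro _; rfl
    · intro _; rfl
    · intro hj
      refine h j ?_
      simp only [Fin.val_succ] at hj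
      omega
  nondeg w i hi h := by
    obtain ⟨i', h1, h2⟩ := f.nondeg (ext0 w) i.succ.succ hi (fun j => by
      refine Fin.cases ?_ (fun j => Fin.cases ?_ (fun j => ?_) j) j
      · intro _; rfl
      · intro _; rfl
      · intro hj
        refine h j ?_
        simp only [Fin.val_succ] at hj
        omega)
    simp only [Fin.val_succ] at h1
    have hi2 : 2 ≤ (i' : ℕ) := by omega
    refine ⟨⟨(i' : ℕ) - 2, by omega⟩, by simp only; omega, ?_⟩
    convert h2 using 2
    ext
    simp only [Fin.succ_mk]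
    omega

end MF7
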