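import Pool.Agent.Lib.MF7_Base

set_option autoImplicit false

open Set Metric Filter Topology

namespace MF7

/-- composition `h (k-1) o ... o h 0` -/
def itr {W : Type*} (h : ℕ → W → W) : ℕ → W → W
  | 0, w => w
  | k + 1, w => h k (itr h k w)

namespace R1x

variable {W : Type*} [NormedAddCommGroup W] [NormedSpace ℂ W]

/-- derivative of the iterates along a complex line -/
noncomputable def dd (h : ℕ → W → W) (p v : W) : ℕ → W
  | 0 => v
  | j + 1 => fderiv ℂ (h j) (itr h j p) (dd h p v j)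

theorem der (U : ℕ → Set W) (h : ℕ → W → W) (hU : ∀ j, IsOpen (U j))
    (hd : ∀ j, DifferentiableOn ℂ (h j) (U j)) {η D : ℝ} (hη : 0 < η) (hD0 : 0 < D)
    (hmar : ∀ j, ∀ w ∈ U j, ∀ w', ‖w' - h j w‖ < η → w' ∈ U (j + 1))
    (hD : ∀ j, ∀ w ∈ U j, ∀ w' ∈ U j, ‖w - w'‖ ≤ D) (p v : W)
    (hp : ball p η ⊆ U 0) (k : ℕ) :
    HasDerivAt (fun z : ℂ => itr h k (p + z • v)) (dd h p v k) 0 ∧
      ‖dd h p v k‖ ≤ D / η * (1 / (1 + η / (2 * D))) ^ k * ‖v‖ := by
  set τ : ℝ := η / (2 * D) with hτ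
  have hτ0 : 0 < τ := by positivity
  have hin : ∀ j, ∀ w ∈ U j, h j w ∈ U (j + 1) := fun j w hw =>
    hmar j w hw _ (by simpa using hη)
  have hy : ∀ j, itr h j p ∈ U j := by
    intro j
    induction j with
    | zero => exact hp (mem_ball_self hη)
    | succ j ih => exact hin j _ ih
  -- modified maps
  let h' : ℕ → W → W := fun j w =>
    itr h (j + 1) p + ((1 + τ : ℝ) : ℂ) • (h j w - itr h (j + 1) p)
  have hh' : ∀ j, ∀ w ∈ U j, h' j w ∈ U (j + 1) := by
    intro j w hw
    apply hmar j w hw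
    have h1 : h' j w - h j w = (τ : ℂ) • (h j w - itr h (j + 1) p) := by
      simp only [h']
      push_cast
      rw [add_smul, one_smul]
      abel
    rw [h1, norm_smul, Complex.norm_real, Real.norm_of_nonneg hτ0.le]
    have h2 := hD (j + 1) _ (hin j w hw) _ (hy (j + 1))
    calc τ * ‖h j w - itr h (j + 1) p‖ ≤ τ * D := by gcongr
      _ = η / 2 := by rw [hτ]; field_simp
      _ < η := by linarith
  have hd' : ∀ j, DifferentiableOn ℂ (h' j) (U j) := by
    intro j
    exact (((hd j).sub_const _).const_smul _).const_add _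
  have hfix : ∀ j, itr h' j p = itr h j p := by
    intro j
    induction j with
    | zero => rfl
    | succ j ih =>
      change h' j (itr h' j p) = _
      rw [ih]
      simp only [h']
      have : h j (itr h j p) = itr h (j + 1) p := rfl
      rw [this, sub_self, smul_zero, add_zero]
  -- derivatives
  have hder : ∀ j, HasDerivAt (fun z : ℂ => itr h j (p + z • v)) (dd h p v j) 0 ∧
      HasDerivAt (fun z : ℂ => itr h' j (p + z • v)) (((1 + τ : ℝ) : ℂ) ^ j • dd h p v j) 0 := by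
    intro j
    induction j with
    | zero =>
      have h1 : HasDerivAt (fun z : ℂ => p + z • v) v 0 := by
        simpa using ((hasDerivAt_id (0 : ℂ)).smul_const v).const_add p
      refine ⟨h1, ?_⟩
      rw [pow_zero, one_smul]
      exact h1
    | succ j ih =>
      have h1 : HasFDerivAt (h j) (fderiv ℂ (h j) (itr h j p)) (itr h j p) :=
        ((hd j).differentiableAt ((hU j).mem_nhds (hy j))).hasFDerivAt
      refine ⟨?_, ?_⟩
      · have h2 := HasFDerivAt.comp_hasDerivAt_of_eq (f := fun z : ℂ => itr h j (p + z • v))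
          (0 : ℂ) h1 ih.1 (by simp)
        exact h2
      · have h3 : HasFDerivAt (h' j) (((1 + τ : ℝ) : ℂ) • fderiv ℂ (h j) (itr h j p))
            (itr h j p) := ((h1.sub_const _).const_smul _).const_add _
        have h2 := HasFDerivAt.comp_hasDerivAt_of_eq (f := fun z : ℂ => itr h' j (p + z • v))
          (0 : ℂ) h3 ih.2 (by simp [hfix])
        refine h2.congr_deriv ?_
        simp only [dd, ContinuousLinearMap.smul_apply, map_smul, pow_succ]
        rw [smul_smul, mul_comm]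
  refine ⟨(hder k).1, ?_⟩
  by_cases hv : v = 0
  · have h1 : ∀ j, dd h p v j = 0 := by
      intro j
      induction j with
      | zero => exact hv
      | succ j ih => simp [dd, ih]
    rw [h1 k, hv]
    simp
  have hvn : 0 < ‖v‖ := norm_pos_iff.mpr hv
  have hR : 0 < η / ‖v‖ := by positivity
  have hmaps : ∀ z ∈ ball (0 : ℂ) (η / ‖v‖), p + z • v ∈ U 0 := by
    intro z hz
    apply hp
    rw [mem_ball, dist_eq_norm, add_sub_cancel_left, norm_smul]
    rw [mem_ball_zero_iff] at hz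
    calc ‖z‖ * ‖v‖ < η / ‖v‖ * ‖v‖ := by gcongr
      _ = η := by field_simp
  have hG : ∀ j, DifferentiableOn ℂ (fun z : ℂ => itr h' j (p + z • v)) (ball 0 (η / ‖v‖)) ∧
      ∀ z ∈ ball (0 : ℂ) (η / ‖v‖), itr h' j (p + z • v) ∈ U j := by
    intro j
    induction j with
    | zero =>
      refine ⟨?_, hmaps⟩
      have : Differentiable ℂ (fun z : ℂ => p + z • v) := by fun_prop
      exact this.differentiableOn
    | succ j ih =>
      exact ⟨(hd' j).comp ih.1 ih.2, fun z hz => hh' j _ (ih.2 z hz)⟩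
  have hmt : MapsTo (fun z : ℂ => itr h' k (p + z • v)) (ball 0 (η / ‖v‖))
      (closedBall (itr h' k (p + (0 : ℂ) • v)) D) := by
    intro z hz
    rw [mem_closedBall, dist_eq_norm]
    exact hD k _ ((hG k).2 z hz) _ ((hG k).2 0 (mem_ball_self hR))
  have hS := Complex.norm_deriv_le_div_of_mapsTo_ball (hG k).1 hmt hR
  rw [(hder k).2.deriv, norm_smul, norm_pow, Complex.norm_real,
    Real.norm_of_nonneg (by linarith)] at hS
  have hl : 0 < (1 + τ) ^ k := by positivity
  have h5 : ‖dd h p v k‖ ≤ D / (η / ‖v‖) / (1 + τ) ^ k := by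
    rw [le_div_iff₀ hl, mul_comm]
    exact hS
  refine h5.trans (le_of_eq ?_)
  rw [one_div, inv_pow]
  field_simp

end R1x

theorem contraction {W : Type*} [NormedAddCommGroup W] [NormedSpace ℂ W]
    (U : ℕ → Set W) (h : ℕ → W → W) (hU : ∀ j, IsOpen (U j))
    (hd : ∀ j, DifferentiableOn ℂ (h j) (U j)) {η D : ℝ} (hη : 0 < η) (hD0 : 0 < D)
    (hmar : ∀ j, ∀ w ∈ U j, ∀ w', ‖w' - h j w‖ < η → w' ∈ U (j + 1))
    (hD : ∀ j, ∀ w ∈ U j, ∀ w' ∈ U j, ‖w - w'‖ ≤ D) (a b : W)
    (hab : ∀ t ∈ Icc (0 : ℝ) 1, ball (a + t • (b - a)) η ⊆ U 0) (k : ℕ) :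
    ‖itr h k b - itr h k a‖ ≤ D / η * (1 / (1 + η / (2 * D))) ^ k * ‖b - a‖ := by
  have key : ∀ t ∈ Icc (0 : ℝ) 1,
      HasDerivWithinAt (fun s : ℝ => itr h k (a + s • (b - a)))
        (R1x.dd h (a + t • (b - a)) (b - a) k) (Icc (0 : ℝ) 1) t ∧
      ‖R1x.dd h (a + t • (b - a)) (b - a) k‖ ≤
        D / η * (1 / (1 + η / (2 * D))) ^ k * ‖b - a‖ := by
    intro t ht
    obtain ⟨h1, h2⟩ := R1x.der U h hU hd hη hD0 hmar hD (a + t • (b - a)) (b - a) (hab t ht) k
    refine ⟨?_, h2⟩
    have h3 : HasDerivAt (fun s : ℝ => ((s - t : ℝ) : ℂ)) (1 : ℂ) t := by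
      simpa using ((hasDerivAt_id t).sub_const t).ofReal_comp
    have h4 := HasDerivAt.scomp_of_eq (g₁ := fun z : ℂ =>
      itr h k (a + t • (b - a) + z • (b - a))) t h1 h3 (by simp)
    rw [one_smul] at h4
    refine HasDerivAt.hasDerivWithinAt (h4.congr_of_eventuallyEq (Eventually.of_forall ?_))
    intro s
    simp only [Function.comp_apply]
    congr 1
    rw [Complex.coe_smul, sub_smul]
    abel
  have h5 := norm_image_sub_le_of_norm_deriv_le_segment_01'
    (f := fun s : ℝ => itr h k (a + s • (b - a)))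
    (f' := fun t => R1x.dd h (a + t • (b - a)) (b - a) k)
    (C := D / η * (1 / (1 + η / (2 * D))) ^ k * ‖b - a‖)
    (fun t ht => (key t ht).1) (fun t ht => (key t ⟨ht.1, ht.2.le⟩).2)
  simpa using h5

end MF7
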