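import Pool.Agent.Lib.MF7_R10a
import Pool.Agent.Lib.MF7_R1

/-!
# MF7, row R10: the sink case (helper2)
-/

set_option autoImplicit false

open Set Metric Filter Topology

namespace MF7

namespace S10

theorem itr_const {W : Type*} (h : W → W) (k : ℕ) (w : W) : itr (fun _ => h) k w = h^[k] w := by
  induction k with
  | zero => rfl
  | succ k ih => rw [Function.iterate_succ_apply', ← ih]; rfl

/-- Two times of an orbit in a compact set, far apart, at which the orbit is nearly the same. -/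
theorem exists_return {X : Type*} [PseudoMetricSpace X] {K : Set X} (hK : IsCompact K)
    {x : ℕ → X} (hx : ∀ n, x n ∈ K) {δ : ℝ} (hδ : 0 < δ) (k : ℕ) :
    ∃ m n : ℕ, m + k < n ∧ dist (x n) (x m) < δ := by
  obtain ⟨a, -, φ, hφ, hlim⟩ := hK.tendsto_subseq hx
  rw [Metric.tendsto_atTop] at hlim
  obtain ⟨I, hI⟩ := hlim (δ / 2) (half_pos hδ)
  let J := φ I + k + 1 + I
  have hJ : I ≤ J := by omega
  have h1 : J ≤ φ J := hφ.le_apply
  refine ⟨φ I, φ J, by omega, ?_⟩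
  have h2 := hI J hJ
  have h3 := hI I le_rfl
  calc dist (x (φ J)) (x (φ I)) ≤ dist (x (φ J)) a + dist a (x (φ I)) := dist_triangle _ _ _
    _ = dist (x (φ J)) a + dist (x (φ I)) a := by rw [dist_comm a]
    _ < δ / 2 + δ / 2 := add_lt_add h2 h3
    _ = δ := by ring

section
variable {W : Type} [NormedAddCommGroup W] [NormedSpace ℂ W] [FiniteDimensional ℂ W]

/-- A linear form which does not vanish on the closed cone. -/
theorem exists_lower {Q : Set (B2 × W)} (hQ : ClCone Q) {b : B2} (hb : b ≠ 0)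
    (hmiss : ∀ w, (b, w) ∉ Q) : ∃ c > 0, ∀ v ∈ Q, c * ‖v.1‖ < ‖wedge b v.1‖ := by
  have hpos : ∀ v ∈ Q, wedge b v.1 ≠ 0 := by
    intro v hv h0
    obtain ⟨e, he⟩ := exists_e hb
    have h1 := decomp he v.1
    rw [h0, zero_smul, zero_add] at h1
    have h2 : wedge v.1 e ≠ 0 := by
      intro h2
      rw [h2, zero_smul] at h1
      exact hQ.cone.2 v hv h1
    refine hmiss ((wedge v.1 e)⁻¹ • v.2) ?_
    have h3 := hQ.cone.1 _ (inv_ne_zero h2) v hv
    have h4 : (wedge v.1 e)⁻¹ • v = (b, (wedge v.1 e)⁻¹ • v.2) := by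
      refine Prod.ext ?_ rfl
      exact (inv_smul_eq_iff₀ h2).2 h1
    rw [h4] at h3
    exact h3
  have hcont : Continuous fun v : B2 × W => ‖wedge b v.1‖ :=
    ((continuous_wedge_right b).comp continuous_fst).norm
  rcases (({v ∈ Q | ‖v.1‖ = 1} : Set (B2 × W))).eq_empty_or_nonempty with he | hne
  · refine ⟨1, one_pos, fun v hv => ?_⟩
    exfalso
    have h1 : v.1 ≠ 0 := hQ.cone.2 v hv
    have h2 : 0 < ‖v.1‖ := norm_pos_iff.2 h1
    have h3 : ((‖v.1‖ : ℂ))⁻¹ • v ∈ ({v ∈ Q | ‖v.1‖ = 1} : Set (B2 × W)) := by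
      refine ⟨hQ.cone.1 _ (inv_ne_zero (by exact_mod_cast h2.ne')) v hv, ?_⟩
      change ‖((‖v.1‖ : ℂ))⁻¹ • v.1‖ = 1
      rw [norm_smul, norm_inv, Complex.norm_real, norm_norm, inv_mul_cancel₀ h2.ne']
    rw [he] at h3
    exact h3
  · obtain ⟨v₀, hv₀, hmin⟩ := hQ.compact.exists_isMinOn hne hcont.continuousOn
    have h0 : 0 < ‖wedge b v₀.1‖ := norm_pos_iff.2 (hpos v₀ hv₀.1)
    refine ⟨‖wedge b v₀.1‖ / 2, half_pos h0, fun v hv => ?_⟩
    have h1 : v.1 ≠ 0 := hQ.cone.2 v hv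
    have h2 : 0 < ‖v.1‖ := norm_pos_iff.2 h1
    have h3 : ((‖v.1‖ : ℂ))⁻¹ • v ∈ ({v ∈ Q | ‖v.1‖ = 1} : Set (B2 × W)) := by
      refine ⟨hQ.cone.1 _ (inv_ne_zero (by exact_mod_cast h2.ne')) v hv, ?_⟩
      change ‖((‖v.1‖ : ℂ))⁻¹ • v.1‖ = 1
      rw [norm_smul, norm_inv, Complex.norm_real, norm_norm, inv_mul_cancel₀ h2.ne']
    have h4 : ‖wedge b v₀.1‖ ≤ ‖wedge b (((‖v.1‖ : ℂ))⁻¹ • v.1)‖ := hmin h3
    rw [wedge_smul_right, norm_mul, norm_inv, Complex.norm_real, norm_norm,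
      inv_mul_eq_div, le_div_iff₀ h2] at h4
    have h5 : ‖wedge b v₀.1‖ / 2 * ‖v.1‖ < ‖wedge b v₀.1‖ * ‖v.1‖ :=
      mul_lt_mul_of_pos_right (by linarith) h2
    exact h5.trans_le h4

end

end S10

open S10

section
variable {W : Type} [NormedAddCommGroup W] [NormedSpace ℂ W] [FiniteDimensional ℂ W]

/-- **The sink case.** -/
theorem sink_case (s : Sys W) {Q : Set (B2 × W)} (hQ : ClCone Q) (hne : Q.Nonempty)
    (hFQ : ∀ v ∈ Q, s.F v ∈ Q)
    (htrap : ∀ N : Set (B2 × W), IsOpen N → IsCone N → Q ⊆ N → ∃ U, Trap s U ∧ Q ⊆ U ∧ U ⊆ N)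
    (b : B2) (hb : b ≠ 0) (hmiss : ∀ w, (b, w) ∉ Q) :
    ∃ p : ℕ, 1 ≤ p ∧ ∃ B : Set (B2 × W), IsOpen B ∧ IsCone B ∧ IsBdd B ∧ B.Nonempty ∧
      (∀ v ∈ closure B, v.1 ≠ 0 → s.F^[p] v ∈ B) ∧
      ∀ v : B2 × W, v.1 ≠ 0 →
        (∀ j : ℕ, ∃ u ∈ B, ∃ c : ℂ, c ≠ 0 ∧ s.F^[j * p] u = c • v) → v ∈ Q := by
  classical
  have : ProperSpace W := FiniteDimensional.proper ℂ W
  obtain ⟨e, hbe⟩ := exists_e hb
  obtain ⟨c, hc, hlow⟩ := exists_lower hQ hb hmiss
  have hbn : 0 < ‖b‖ := norm_pos_iff.2 hb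
  -- the trapping region
  let N : Set (B2 × W) := {v | v.1 ≠ 0 ∧ c * ‖v.1‖ < ‖wedge b v.1‖}
  have hNo : IsOpen N := by
    refine IsOpen.inter (isOpen_ne_fun continuous_fst continuous_const) ?_
    exact isOpen_lt (by fun_prop) ((continuous_wedge_right b).comp continuous_fst).norm
  have hNc : IsCone N := by
    refine ⟨fun a ha v hv => ⟨smul_ne_zero ha hv.1, ?_⟩, fun v hv => hv.1⟩
    have h1 := mul_lt_mul_of_pos_left hv.2 (norm_pos_iff.2 ha)
    change c * ‖a • v.1‖ < ‖wedge b (a • v.1)‖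
    rw [wedge_smul_right, norm_smul, norm_mul]
    linarith
  obtain ⟨U, hU, hQU, hUN⟩ := htrap N hNo hNc fun v hv => ⟨hQ.cone.2 v hv, hlow v hv⟩
  have hUl : ∀ v ∈ U, wedge b v.1 ≠ 0 := by
    intro v hv h0
    have h1 := (hUN hv).2
    rw [h0, norm_zero] at h1
    exact absurd h1 (not_lt.2 (mul_nonneg hc.le (norm_nonneg _)))
  have hUF : ∀ v ∈ U, s.F v ∈ U := fun v hv => hU.trap v (subset_closure hv) (hU.cone.2 v hv)
  -- the chart
  let V : Set (ℂ × W) := {q | ph b e q ∈ U}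
  let K : Set (ℂ × W) := {q | ph b e q ∈ Q}
  let G : ℂ × W → ℂ × W := Fc s b e
  have hVo : IsOpen V := hU.op.preimage continuous_ph
  have hKV : K ⊆ V := fun q hq => hQU hq
  have hphG : ∀ q ∈ V, wedge b (s.F (ph b e q)).1 • ph b e (G q) = s.F (ph b e q) :=
    fun q hq => ph_Fc s hbe (hUl _ (hUF _ hq))
  have hGV : ∀ q ∈ V, G q ∈ V := by
    intro q hq
    have h1 := hUl _ (hUF _ hq)
    have h2 := hU.cone.1 _ (inv_ne_zero h1) _ (hUF _ hq)
    rw [(inv_smul_eq_iff₀ h1).2 (hphG q hq).symm] at h2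
    exact h2
  have hGK : ∀ q ∈ K, G q ∈ K := by
    intro q hq
    have h1 := hUl _ (hUF _ (hKV hq))
    have h2 := hQ.cone.1 _ (inv_ne_zero h1) _ (hFQ _ hq)
    rw [(inv_smul_eq_iff₀ h1).2 (hphG q (hKV hq)).symm] at h2
    exact h2
  have hGd : DifferentiableOn ℂ G V := by
    intro q hq
    have h1 : DifferentiableAt ℂ (ps b e) (s.F (ph b e q)) :=
      differentiableAt_ps (hUl _ (hUF _ hq))
    exact (h1.comp q ((differentiable_F s).differentiableAt.comp q
      differentiable_ph.differentiableAt)).differentiableWithinAt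
  -- boundedness
  obtain ⟨M, hM⟩ := hU.bdd
  have hph1 : ∀ q ∈ V, ‖(ph b e q).1‖ ≤ 1 / c := by
    intro q hq
    have h1 := (hUN hq).2
    rw [wedge_ph hbe, norm_one] at h1
    rw [le_div_iff₀ hc]
    linarith
  let R : ℝ := max (2 * ‖e‖ / c) (|M| / c) + 1
  have hR0 : 0 < R := by
    have : 0 ≤ max (2 * ‖e‖ / c) (|M| / c) := le_max_of_le_left (by positivity)
    linarith
  have hVb : ∀ q ∈ V, ‖q‖ ≤ R := by
    intro q hq
    have h1 := hph1 q hq
    have h2 : q.1 = wedge (ph b e q).1 e := by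
      have h3 := congrArg Prod.fst (ps_ph hbe q)
      change wedge (ph b e q).1 e / wedge b (ph b e q).1 = q.1 at h3
      rw [wedge_ph hbe, div_one] at h3
      exact h3.symm
    rw [Prod.norm_def]
    refine (max_le ?_ ?_).trans (by change _ ≤ max (2 * ‖e‖ / c) (|M| / c) + 1; linarith :
      max (2 * ‖e‖ / c) (|M| / c) ≤ R)
    · rw [h2]
      refine ((norm_wedge_le _ _).trans ?_).trans (le_max_left _ _)
      calc 2 * ‖(ph b e q).1‖ * ‖e‖ ≤ 2 * (1 / c) * ‖e‖ := by gcongr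
        _ = 2 * ‖e‖ / c := by ring
    · refine ((hM _ hq).trans ?_).trans (le_max_right _ _)
      calc M * ‖(ph b e q).1‖ ≤ |M| * ‖(ph b e q).1‖ :=
            mul_le_mul_of_nonneg_right (le_abs_self M) (norm_nonneg _)
        _ ≤ |M| * (1 / c) := mul_le_mul_of_nonneg_left h1 (abs_nonneg M)
        _ = |M| / c := by ring
  let D : ℝ := 2 * R
  have hD0 : 0 < D := mul_pos two_pos hR0
  have hVD : ∀ q ∈ V, ∀ q' ∈ V, ‖q - q'‖ ≤ D := by
    intro q hq q' hq'
    refine (norm_sub_le _ _).trans ?_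
    have h1 := hVb q hq
    have h2 := hVb q' hq'
    change _ ≤ 2 * R
    linarith
  -- margins
  obtain ⟨η₀, hη₀, hmarg⟩ := hU.margin
  obtain ⟨r₀, hr₀, hmargQ⟩ := hQ.margin hU.op hU.cone hQU
  set μ : ℝ := max ‖b‖ 1 with hμ
  have hμ0 : 0 < μ := lt_max_of_lt_right one_pos
  let η₁ : ℝ := η₀ / (2 * ‖b‖ * μ)
  have hη₁ : 0 < η₁ := div_pos hη₀ (by positivity)
  let ρ : ℝ := r₀ / (2 * ‖b‖ * μ)
  have hρ : 0 < ρ := div_pos hr₀ (by positivity)
  have hG1 : ∀ q ∈ V, ∀ q', ‖q' - G q‖ < η₁ → q' ∈ V := by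
    intro q hq q' hq'
    set L : ℂ := wedge b (s.F (ph b e q)).1 with hL
    have hL0 : L ≠ 0 := hUl _ (hUF _ hq)
    have hLn : ‖L‖ ≤ 2 * ‖b‖ * ‖(s.F (ph b e q)).1‖ := norm_wedge_le _ _
    have h1 : L • ph b e q' = s.F (ph b e q) + L • ((q'.1 - (G q).1) • b, q'.2 - (G q).2) := by
      rw [ph_add (G q) q', smul_add, hphG q hq]
    have h2 : s.F (ph b e q) + L • ((q'.1 - (G q).1) • b, q'.2 - (G q).2) ∈ U := by
      refine hmarg _ (subset_closure hq) (ph_ne hbe q) _ ?_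
      rw [norm_smul]
      calc ‖L‖ * ‖(((q'.1 - (G q).1) • b, q'.2 - (G q).2) : B2 × W)‖
          ≤ (2 * ‖b‖ * ‖(s.F (ph b e q)).1‖) * (μ * ‖q' - G q‖) := by
            refine mul_le_mul hLn (norm_dev_le _ _) (norm_nonneg _) (by positivity)
        _ ≤ (2 * ‖b‖ * ‖(s.F (ph b e q)).1‖) * (μ * η₁) := by
            gcongr
        _ = η₀ * ‖(s.F (ph b e q)).1‖ := by
            change _ * (μ * (η₀ / (2 * ‖b‖ * μ))) = _
            field_simp
    rw [← h1] at h2
    have h3 := hU.cone.1 _ (inv_ne_zero hL0) _ h2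
    rw [smul_smul, inv_mul_cancel₀ hL0, one_smul] at h3
    exact h3
  have hK1 : ∀ q ∈ K, ∀ q', ‖q' - q‖ ≤ ρ → q' ∈ V := by
    intro q hq q' hq'
    have h1 : 1 ≤ 2 * ‖b‖ * ‖(ph b e q).1‖ := by
      have h2 := norm_wedge_le b (ph b e q).1
      rwa [wedge_ph hbe, norm_one] at h2
    change ph b e q' ∈ U
    rw [ph_add q q']
    refine hmargQ _ hq _ ?_
    calc ‖(((q'.1 - q.1) • b, q'.2 - q.2) : B2 × W)‖ ≤ μ * ‖q' - q‖ := norm_dev_le _ _
      _ ≤ μ * ρ := by gcongr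
      _ = r₀ * (1 / (2 * ‖b‖)) := by
          change μ * (r₀ / (2 * ‖b‖ * μ)) = _
          field_simp
      _ ≤ r₀ * ‖(ph b e q).1‖ := by
          refine mul_le_mul_of_nonneg_left ?_ hr₀.le
          rw [div_le_iff₀ (by positivity)]
          linarith
  let r : ℝ := ρ / 2
  have hr : 0 < r := half_pos hρ
  let η : ℝ := min η₁ r
  have hη : 0 < η := lt_min hη₁ hr
  let θ : ℝ := 1 / (1 + η / (2 * D))
  have hθ0 : 0 ≤ θ := by positivity
  have hθ1 : θ < 1 := by
    change 1 / (1 + η / (2 * D)) < 1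
    rw [div_lt_one (by positivity)]
    have : 0 < η / (2 * D) := by positivity
    linarith
  -- the contraction
  have hcon : ∀ a ∈ K, ∀ a', ‖a' - a‖ ≤ r → ∀ k : ℕ,
      ‖G^[k] a' - G^[k] a‖ ≤ D / η * θ ^ k * r := by
    intro a ha a' ha' k
    have h1 := contraction (fun _ => V) (fun _ => G) (fun _ => hVo) (fun _ => hGd) hη hD0
      (fun _ q hq q' hq' => hG1 q hq q' (hq'.trans_le (min_le_left _ _)))
      (fun _ q hq q' hq' => hVD q hq q' hq') a a' (by
        intro t ht x hx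
        rw [mem_ball, dist_eq_norm] at hx
        refine hK1 a ha x ?_
        have h2 : x - a = (x - (a + t • (a' - a))) + t • (a' - a) := by abel
        rw [h2]
        refine (norm_add_le _ _).trans ?_
        have h3 : ‖t • (a' - a)‖ ≤ r := by
          rw [norm_smul, Real.norm_of_nonneg ht.1]
          calc t * ‖a' - a‖ ≤ 1 * ‖a' - a‖ :=
                mul_le_mul_of_nonneg_right ht.2 (norm_nonneg _)
            _ ≤ r := by rw [one_mul]; exact ha'
        have h4 : η ≤ r := min_le_right _ _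
        have h5 : ρ = r + r := (add_halves ρ).symm
        linarith) k
    rw [itr_const, itr_const] at h1
    refine h1.trans ?_
    refine mul_le_mul_of_nonneg_left ha' ?_
    positivity
  have htend : Tendsto (fun k : ℕ => D / η * θ ^ k * r) atTop (𝓝 0) := by
    have h1 := tendsto_pow_atTop_nhds_zero_of_lt_one hθ0 hθ1
    have h2 := (h1.const_mul (D / η)).mul_const r
    simpa using h2
  obtain ⟨k₀, hk₀⟩ : ∃ k₀ : ℕ, ∀ k ≥ k₀, D / η * θ ^ k * r ≤ r / 4 := by
    have h1 := (htend.eventually (gt_mem_nhds (by positivity : (0 : ℝ) < r / 4)))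
    obtain ⟨k₀, hk₀⟩ := eventually_atTop.1 h1
    exact ⟨k₀, fun k hk => (hk₀ k hk).le⟩
  -- recurrence
  have hKcl : IsClosed K := by
    rw [← closure_subset_iff_isClosed]
    intro q hq
    have h1 : ph b e q ∈ closure Q := by
      have h2 := continuous_ph.closure_preimage_subset (f := (ph b e : ℂ × W → B2 × W)) Q
      exact h2 hq
    exact hQ.cl _ h1 (ph_ne hbe q)
  have hKc : IsCompact K := by
    refine isCompact_of_isClosed_isBounded hKcl ?_
    rw [isBounded_iff_forall_norm_le]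
    exact ⟨R, fun q hq => hVb q (hKV hq)⟩
  obtain ⟨v₀, hv₀⟩ := hne
  have hq₀ : ps b e v₀ ∈ K := by
    have h1 := hUl _ (hQU hv₀)
    have h2 := hQ.cone.1 _ (inv_ne_zero h1) _ hv₀
    change ph b e (ps b e v₀) ∈ Q
    rw [(inv_smul_eq_iff₀ h1).2 (ph_ps hbe h1).symm] at h2
    exact h2
  have hitK : ∀ (n : ℕ), ∀ q ∈ K, G^[n] q ∈ K := by
    intro n
    induction n with
    | zero => exact fun q hq => hq
    | succ n ih =>
      intro q hq
      rw [Function.iterate_succ_apply]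
      exact ih _ (hGK q hq)
  obtain ⟨m, n, hmn, hdist⟩ := exists_return hKc (x := fun n => G^[n] (ps b e v₀))
    (fun n => hitK n _ hq₀) (by positivity : (0 : ℝ) < r / 4) k₀
  let a : ℂ × W := G^[m] (ps b e v₀)
  have haK : a ∈ K := hitK m _ hq₀
  let p : ℕ := n - m
  have hp1 : 1 ≤ p := by omega
  have hpk : k₀ ≤ p := by omega
  have hGp : ‖G^[p] a - a‖ < r / 4 := by
    have h1 : G^[p] a = G^[n] (ps b e v₀) := by
      change G^[p] (G^[m] (ps b e v₀)) = _
      rw [← Function.iterate_add_apply]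
      congr 1
      omega
    rw [h1, ← dist_eq_norm]
    exact hdist
  -- the semiconjugacy
  have hsemi : ∀ (k : ℕ), ∀ v ∈ U, s.F^[k] v ∈ U ∧ ps b e (s.F^[k] v) = G^[k] (ps b e v) := by
    intro k
    induction k with
    | zero => exact fun v hv => ⟨hv, rfl⟩
    | succ k ih =>
      intro v hv
      rw [Function.iterate_succ_apply, Function.iterate_succ_apply]
      obtain ⟨h1, h2⟩ := ih (s.F v) (hUF v hv)
      refine ⟨h1, ?_⟩
      rw [h2, Fc_ps s hbe (hUl v hv)]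
  have hUps : ∀ v : B2 × W, wedge b v.1 ≠ 0 → ps b e v ∈ V → v ∈ U := by
    intro v hv h1
    have h2 := hU.cone.1 _ hv _ h1
    rwa [ph_ps hbe hv] at h2
  have hball : ∀ q, ‖q - a‖ ≤ r → q ∈ V := fun q hq => hK1 a haK q (by
    have h5 : ρ = r + r := (add_halves ρ).symm
    linarith)
  -- the cone
  let B : Set (B2 × W) := {v | wedge b v.1 ≠ 0 ∧ ps b e v ∈ ball a r}
  have hBo : IsOpen B := by
    rw [isOpen_iff_mem_nhds]
    intro v hv
    have h1 : {v : B2 × W | wedge b v.1 ≠ 0} ∈ 𝓝 v :=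
      (isOpen_ne_fun ((continuous_wedge_right b).comp continuous_fst)
        continuous_const).mem_nhds hv.1
    have h2 := (continuousAt_ps (e := e) hv.1).preimage_mem_nhds (isOpen_ball.mem_nhds hv.2)
    exact inter_mem h1 h2
  have hBc : IsCone B := by
    refine ⟨fun c' hc' v hv => ⟨?_, ?_⟩, fun v hv h0 => ?_⟩
    · change wedge b (c' • v.1) ≠ 0
      rw [wedge_smul_right]
      exact mul_ne_zero hc' hv.1
    · rw [ps_smul hc']
      exact hv.2
    · apply hv.1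
      rw [h0]
      simp [wedge]
  have hBU : ∀ v ∈ B, v ∈ U := by
    intro v hv
    refine hUps v hv.1 (hball _ ?_)
    rw [← dist_eq_norm]
    exact (mem_ball.1 hv.2).le
  have hBcl : ∀ v ∈ closure B, v.1 ≠ 0 → wedge b v.1 ≠ 0 ∧ ‖ps b e v - a‖ ≤ r := by
    intro v hv hv0
    have h1 : c * ‖v.1‖ ≤ ‖wedge b v.1‖ := by
      have hcl : IsClosed {v : B2 × W | c * ‖v.1‖ ≤ ‖wedge b v.1‖} :=
        isClosed_le (by fun_prop) ((continuous_wedge_right b).comp continuous_fst).norm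
      exact hcl.closure_subset_iff.2 (fun v hv => (hUN (hBU v hv)).2.le) hv
    have h2 : wedge b v.1 ≠ 0 := by
      intro h0
      rw [h0, norm_zero] at h1
      exact absurd (mul_pos hc (norm_pos_iff.2 hv0)) (not_lt.2 h1)
    refine ⟨h2, ?_⟩
    have h3 : ps b e v ∈ closure (ball a r) := by
      have h4 := (continuousAt_ps (e := e) h2)
      rw [mem_closure_iff_frequently] at hv
      refine mem_closure_iff_frequently.2 ?_
      exact h4.tendsto.frequently (hv.mono fun x hx => hx.2)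
    have h4 := closure_ball_subset_closedBall h3
    rwa [mem_closedBall, dist_eq_norm] at h4
  refine ⟨p, hp1, B, hBo, hBc, ?_, ?_, ?_, ?_⟩
  · exact ⟨M, fun v hv => hM v (hBU v hv)⟩
  · refine ⟨ph b e a, ?_, ?_⟩
    · rw [wedge_ph hbe]
      exact one_ne_zero
    · rw [ps_ph hbe]
      exact mem_ball_self hr
  · intro v hv hv0
    obtain ⟨h1, h2⟩ := hBcl v hv hv0
    have h3 : v ∈ U := hUps v h1 (hball _ h2)
    obtain ⟨h4, h5⟩ := hsemi p v h3
    refine ⟨hUl _ h4, ?_⟩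
    rw [h5, mem_ball, dist_eq_norm]
    have h6 := (hcon a haK _ h2 p).trans (hk₀ p hpk)
    have h7 : G^[p] (ps b e v) - a = (G^[p] (ps b e v) - G^[p] a) + (G^[p] a - a) := by abel
    rw [h7]
    refine (norm_add_le _ _).trans_lt ?_
    linarith
  · intro v hv0 hv
    have hv1 : wedge b v.1 ≠ 0 := by
      obtain ⟨u, hu, c', hc', huv⟩ := hv 0
      have h1 : u = c' • v := by rw [← huv, Nat.zero_mul]; rfl
      have h2 := hu.1
      rw [h1] at h2
      change wedge b (c' • v.1) ≠ 0 at h2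
      rw [wedge_smul_right] at h2
      exact (mul_ne_zero_iff.1 h2).2
    have h1 : ps b e v ∈ closure K := by
      rw [Metric.mem_closure_iff]
      intro ε hε
      have h2 := (htend.eventually (gt_mem_nhds hε))
      obtain ⟨k₁, hk₁⟩ := eventually_atTop.1 h2
      obtain ⟨u, hu, c', hc', huv⟩ := hv k₁
      refine ⟨G^[k₁ * p] a, hitK _ _ haK, ?_⟩
      have h3 : ps b e v = G^[k₁ * p] (ps b e u) := by
        rw [← (hsemi (k₁ * p) u (hBU u hu)).2, huv, ps_smul hc']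
      rw [h3, dist_eq_norm]
      have h4 : ‖ps b e u - a‖ ≤ r := by
        rw [← dist_eq_norm]
        exact (mem_ball.1 hu.2).le
      exact (hcon a haK _ h4 (k₁ * p)).trans_lt (hk₁ _ (Nat.le_mul_of_pos_right k₁ hp1))
    rw [hKcl.closure_eq] at h1
    have h2 := hQ.cone.1 _ hv1 _ h1
    rwa [ph_ps hbe hv1] at h2

end

end MF7
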