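import Pool.Agent.Lib.MF7_R2

/-!
# MF7, row R10, part a: the affine chart of the sink case (helper2)
-/

set_option autoImplicit false

open Set Metric Filter Topology

namespace MF7

namespace S10

/-! ### the determinant -/

theorem wedge_add_right (x y z : B2) : wedge x (y + z) = wedge x y + wedge x z := by
  simp only [wedge, Prod.fst_add, Prod.snd_add]; ring

theorem wedge_add_left (x y z : B2) : wedge (x + y) z = wedge x z + wedge y z := by
  simp only [wedge, Prod.fst_add, Prod.snd_add]; ring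

theorem wedge_smul_right (c : ℂ) (x y : B2) : wedge x (c • y) = c * wedge x y := by
  simp only [wedge, Prod.smul_fst, Prod.smul_snd, smul_eq_mul]; ring

theorem wedge_smul_left (c : ℂ) (x y : B2) : wedge (c • x) y = c * wedge x y := by
  simp only [wedge, Prod.smul_fst, Prod.smul_snd, smul_eq_mul]; ring

theorem wedge_self (x : B2) : wedge x x = 0 := by
  simp only [wedge]; ring

theorem norm_wedge_le (x y : B2) : ‖wedge x y‖ ≤ 2 * ‖x‖ * ‖y‖ := by
  have h1 : ‖x.1‖ ≤ ‖x‖ := norm_fst_le x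
  have h2 : ‖x.2‖ ≤ ‖x‖ := norm_snd_le x
  have h3 : ‖y.1‖ ≤ ‖y‖ := norm_fst_le y
  have h4 : ‖y.2‖ ≤ ‖y‖ := norm_snd_le y
  calc ‖wedge x y‖ ≤ ‖x.1 * y.2‖ + ‖x.2 * y.1‖ := norm_sub_le _ _
    _ = ‖x.1‖ * ‖y.2‖ + ‖x.2‖ * ‖y.1‖ := by rw [norm_mul, norm_mul]
    _ ≤ ‖x‖ * ‖y‖ + ‖x‖ * ‖y‖ := add_le_add
      (mul_le_mul h1 h4 (norm_nonneg _) (norm_nonneg _))
      (mul_le_mul h2 h3 (norm_nonneg _) (norm_nonneg _))
    _ = _ := by ring

theorem continuous_wedge_right (x : B2) : Continuous fun y : B2 => wedge x y := by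
  unfold wedge; fun_prop

theorem continuous_wedge_left (x : B2) : Continuous fun y : B2 => wedge y x := by
  unfold wedge; fun_prop

/-- a vector with determinant one -/
theorem exists_e {b : B2} (hb : b ≠ 0) : ∃ e : B2, wedge b e = 1 := by
  by_cases h1 : b.1 = 0
  · have h2 : b.2 ≠ 0 := fun h2 => hb (Prod.ext h1 h2)
    exact ⟨(-(b.2)⁻¹, 0), by simp [wedge, h2]⟩
  · exact ⟨(0, (b.1)⁻¹), by simp [wedge, h1]⟩

/-- the coordinates with respect to `e`, `b` -/
theorem decomp {b e : B2} (h : wedge b e = 1) (x : B2) :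
    x = wedge b x • e + wedge x e • b := by
  simp only [wedge] at *
  ext
  · simp only [Prod.fst_add, Prod.smul_fst, smul_eq_mul]
    linear_combination (-x.1) * h
  · simp only [Prod.snd_add, Prod.smul_snd, smul_eq_mul]
    linear_combination (-x.2) * h

section
variable {W : Type} [NormedAddCommGroup W] [NormedSpace ℂ W]

/-- the inverse of the chart -/
def ph (b e : B2) (q : ℂ × W) : B2 × W := (e + q.1 • b, q.2)

/-- the chart -/
noncomputable def ps (b e : B2) (v : B2 × W) : ℂ × W :=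
  (wedge v.1 e / wedge b v.1, (wedge b v.1)⁻¹ • v.2)

variable {b e : B2}

omit [NormedAddCommGroup W] [NormedSpace ℂ W] in
theorem wedge_ph (h : wedge b e = 1) (q : ℂ × W) : wedge b (ph b e q).1 = 1 := by
  change wedge b (e + q.1 • b) = 1
  rw [wedge_add_right, wedge_smul_right, wedge_self, mul_zero, add_zero, h]

omit [NormedAddCommGroup W] [NormedSpace ℂ W] in
theorem ph_ne (h : wedge b e = 1) (q : ℂ × W) : (ph b e q).1 ≠ 0 := by
  intro h0
  have h1 := wedge_ph h q
  rw [h0] at h1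
  simp [wedge] at h1

theorem ps_ph (h : wedge b e = 1) (q : ℂ × W) : ps b e (ph b e q) = q := by
  have h2 : wedge (ph b e q).1 e = q.1 := by
    change wedge (e + q.1 • b) e = q.1
    rw [wedge_add_left, wedge_smul_left, wedge_self, zero_add, h, mul_one]
  rw [ps, wedge_ph h, h2]
  simp [ph]

theorem ph_ps (h : wedge b e = 1) {v : B2 × W} (hv : wedge b v.1 ≠ 0) :
    wedge b v.1 • ph b e (ps b e v) = v := by
  have h1 := decomp h v.1
  refine Prod.ext ?_ ?_
  · change wedge b v.1 • (e + (wedge v.1 e / wedge b v.1) • b) = v.1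
    rw [smul_add, smul_smul, mul_div_cancel₀ _ hv]
    exact h1.symm
  · change wedge b v.1 • ((wedge b v.1)⁻¹ • v.2) = v.2
    rw [smul_smul, mul_inv_cancel₀ hv, one_smul]

theorem ps_smul {c : ℂ} (hc : c ≠ 0) (v : B2 × W) : ps b e (c • v) = ps b e v := by
  refine Prod.ext ?_ ?_
  · change wedge (c • v.1) e / wedge b (c • v.1) = wedge v.1 e / wedge b v.1
    rw [wedge_smul_left, wedge_smul_right, mul_div_mul_left _ _ hc]
  · change (wedge b (c • v.1))⁻¹ • (c • v.2) = (wedge b v.1)⁻¹ • v.2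
    rw [wedge_smul_right, smul_smul, mul_inv, mul_comm c⁻¹, mul_assoc, inv_mul_cancel₀ hc, mul_one]

omit [NormedSpace ℂ W] in
theorem ph_add (q q' : ℂ × W) :
    ph b e q' = ph b e q + ((q'.1 - q.1) • b, q'.2 - q.2) := by
  refine Prod.ext ?_ ?_
  · change e + q'.1 • b = e + q.1 • b + (q'.1 - q.1) • b
    rw [sub_smul]; abel
  · change q'.2 = q.2 + (q'.2 - q.2)
    abel

omit [NormedSpace ℂ W] in
theorem norm_dev_le (q q' : ℂ × W) :
    ‖(((q'.1 - q.1) • b, q'.2 - q.2) : B2 × W)‖ ≤ max ‖b‖ 1 * ‖q' - q‖ := by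
  have h1 : ‖q'.1 - q.1‖ ≤ ‖q' - q‖ := norm_fst_le (q' - q)
  have h2 : ‖q'.2 - q.2‖ ≤ ‖q' - q‖ := norm_snd_le (q' - q)
  rw [Prod.norm_def]
  refine max_le ?_ ?_
  · change ‖(q'.1 - q.1) • b‖ ≤ _
    rw [norm_smul, mul_comm]
    exact mul_le_mul (le_max_left _ _) h1 (norm_nonneg _) (by positivity)
  · change ‖q'.2 - q.2‖ ≤ _
    calc ‖q'.2 - q.2‖ = 1 * ‖q'.2 - q.2‖ := (one_mul _).symm
      _ ≤ _ := mul_le_mul (le_max_right _ _) h2 (norm_nonneg _) (by positivity)

omit [NormedSpace ℂ W] in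
theorem continuous_ph : Continuous (ph b e : ℂ × W → B2 × W) := by
  unfold ph; fun_prop

theorem differentiable_ph : Differentiable ℂ (ph b e : ℂ × W → B2 × W) := by
  unfold ph; fun_prop

theorem continuousAt_ps {v : B2 × W} (hv : wedge b v.1 ≠ 0) :
    ContinuousAt (ps b e : B2 × W → ℂ × W) v := by
  have h1 : ContinuousAt (fun v : B2 × W => wedge b v.1) v :=
    ((continuous_wedge_right b).comp continuous_fst).continuousAt
  have h2 : ContinuousAt (fun v : B2 × W => wedge v.1 e) v :=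
    ((continuous_wedge_left e).comp continuous_fst).continuousAt
  exact (h2.div h1 hv).prodMk ((h1.inv₀ hv).smul continuous_snd.continuousAt)

theorem differentiableAt_ps {v : B2 × W} (hv : wedge b v.1 ≠ 0) :
    DifferentiableAt ℂ (ps b e : B2 × W → ℂ × W) v := by
  have h1 : DifferentiableAt ℂ (fun v : B2 × W => wedge b v.1) v := by
    unfold wedge; fun_prop
  have h2 : DifferentiableAt ℂ (fun v : B2 × W => wedge v.1 e) v := by
    unfold wedge; fun_prop
  have h3 : DifferentiableAt ℂ (fun v : B2 × W => (wedge b v.1)⁻¹) v := h1.fun_inv hv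
  have h4 : DifferentiableAt ℂ (fun v : B2 × W => wedge v.1 e * (wedge b v.1)⁻¹) v :=
    h2.fun_mul h3
  have h5 : DifferentiableAt ℂ (fun v : B2 × W => (wedge b v.1)⁻¹ • v.2) v :=
    h3.fun_smul differentiableAt_snd
  have h6 := h4.prodMk h5
  have h7 : (ps b e : B2 × W → ℂ × W) =
      fun v => (wedge v.1 e * (wedge b v.1)⁻¹, (wedge b v.1)⁻¹ • v.2) := by
    funext v
    rw [ps, div_eq_mul_inv]
  rw [h7]
  exact h6

/-! ### the map in the chart -/

variable (s : Sys W)

theorem Sys.F_smul (c : ℂ) (v : B2 × W) : s.F (c • v) = c ^ s.d • s.F v := by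
  refine Prod.ext ?_ ?_
  · change s.g (c • v.1) = c ^ s.d • s.g v.1
    exact s.g_hom c v.1
  · change s.h (c • v) = c ^ s.d • s.h v
    exact s.h_hom c v

theorem Sys.F_ne {v : B2 × W} (hv : v.1 ≠ 0) : (s.F v).1 ≠ 0 := s.g_ne v.1 hv

theorem differentiable_F : Differentiable ℂ s.F := by
  change Differentiable ℂ fun v : B2 × W => (s.g v.1, s.h v)
  exact (s.g_diff.comp differentiable_fst).prodMk s.h_diff

/-- the map in the chart -/
noncomputable def Fc (b e : B2) (q : ℂ × W) : ℂ × W := ps b e (s.F (ph b e q))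

/-- The chart conjugates the maps. -/
theorem Fc_ps (h : wedge b e = 1) {v : B2 × W} (hv : wedge b v.1 ≠ 0) :
    ps b e (s.F v) = Fc s b e (ps b e v) := by
  conv_lhs => rw [← ph_ps h hv, Sys.F_smul]
  rw [ps_smul (pow_ne_zero _ hv)]
  rfl

theorem ph_Fc (h : wedge b e = 1) {q : ℂ × W} (hq : wedge b (s.F (ph b e q)).1 ≠ 0) :
    wedge b (s.F (ph b e q)).1 • ph b e (Fc s b e q) = s.F (ph b e q) :=
  ph_ps h hq

end

end S10

end MF7
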