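import Pool.Agent.Lib.MF7_Base

/-!
# MF7, row R2: margins (helper59)
-/

set_option autoImplicit false

open Set Metric Filter Topology

namespace MF7

section
variable {W : Type} [NormedAddCommGroup W] [NormedSpace ℂ W] [FiniteDimensional ℂ W]

theorem ClCone.compact {C : Set (B2 × W)} (hC : ClCone C) : IsCompact {v ∈ C | ‖v.1‖ = 1} := by
  have : ProperSpace W := FiniteDimensional.proper ℂ W
  obtain ⟨M, hM⟩ := hC.bdd
  refine isCompact_of_isClosed_isBounded ?_ ?_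
  · rw [← closure_subset_iff_isClosed]
    intro v hv
    have h1 : ‖v.1‖ = 1 := by
      have hcl : IsClosed {v : B2 × W | ‖v.1‖ = 1} :=
        isClosed_eq (by fun_prop) continuous_const
      exact hcl.closure_subset_iff.2 (fun v hv => hv.2) hv
    have h2 : v ∈ closure C := closure_mono (fun v hv => hv.1) hv
    refine ⟨hC.cl v h2 ?_, h1⟩
    intro h0
    rw [h0, norm_zero] at h1
    exact one_ne_zero h1.symm
  · rw [isBounded_iff_forall_norm_le]
    refine ⟨max 1 M, fun v hv => ?_⟩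
    have h1 := hM v hv.1
    rw [hv.2, mul_one] at h1
    rw [Prod.norm_def, hv.2]
    exact max_le_max le_rfl h1

theorem ClCone.margin {C N : Set (B2 × W)} (hC : ClCone C) (hN : IsOpen N) (hNc : IsCone N)
    (hCN : C ⊆ N) : ∃ r > 0, ∀ v ∈ C, ∀ e : B2 × W, ‖e‖ ≤ r * ‖v.1‖ → v + e ∈ N := by
  obtain ⟨δ, hδ, hδN⟩ := hC.compact.exists_cthickening_subset_open hN
    (fun v hv => hCN hv.1)
  refine ⟨δ, hδ, fun v hv e he => ?_⟩
  have hv1 : v.1 ≠ 0 := hC.cone.2 v hv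
  have hpos : 0 < ‖v.1‖ := norm_pos_iff.2 hv1
  set c : ℂ := ((‖v.1‖⁻¹ : ℝ) : ℂ) with hc
  have hcn : ‖c‖ = ‖v.1‖⁻¹ := by
    rw [hc, Complex.norm_real, Real.norm_eq_abs, abs_of_pos (inv_pos.2 hpos)]
  have hc0 : c ≠ 0 := by
    rw [← norm_pos_iff, hcn]; exact inv_pos.2 hpos
  have h1 : c • v + c • e ∈ N := by
    apply hδN
    have h2 : c • v ∈ {v ∈ C | ‖v.1‖ = 1} := by
      refine ⟨hC.cone.1 c hc0 v hv, ?_⟩
      rw [Prod.smul_fst, norm_smul, hcn, inv_mul_cancel₀ hpos.ne']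
    refine mem_cthickening_of_dist_le _ (c • v) δ _ h2 ?_
    rw [dist_eq_norm, add_sub_cancel_left, norm_smul, hcn, inv_mul_le_iff₀ hpos]
    linarith
  have h3 := hNc.1 c⁻¹ (inv_ne_zero hc0) _ h1
  rwa [smul_add, smul_smul, smul_smul, inv_mul_cancel₀ hc0, one_smul, one_smul] at h3

omit [FiniteDimensional ℂ W] in
theorem Sys.F_hom (s : Sys W) (c : ℂ) (v : B2 × W) : s.F (c • v) = c ^ s.d • s.F v := by
  unfold Sys.F
  rw [Prod.smul_fst, s.g_hom, s.h_hom]
  rfl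

omit [FiniteDimensional ℂ W] in
theorem Sys.F_diff (s : Sys W) : Differentiable ℂ s.F :=
  (s.g_diff.comp differentiable_fst).prodMk s.h_diff

omit [FiniteDimensional ℂ W] in
/-- The closure of a trapping cone is a closed cone. -/
theorem Trap.clCone {s : Sys W} {U : Set (B2 × W)} (hU : Trap s U) :
    ClCone {v ∈ closure U | v.1 ≠ 0} := by
  refine ⟨⟨fun c hc v hv => ?_, fun v hv => hv.2⟩, ?_, ?_⟩
  · refine ⟨?_, ?_⟩
    · have h1 : c • v ∈ closure ((fun v : B2 × W => c • v) '' U) :=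
        image_closure_subset_closure_image (by fun_prop) (mem_image_of_mem _ hv.1)
      refine closure_mono ?_ h1
      rintro _ ⟨u, hu, rfl⟩
      exact hU.cone.1 c hc u hu
    · rw [Prod.smul_fst]; exact smul_ne_zero hc hv.2
  · obtain ⟨M, hM⟩ := hU.bdd
    refine ⟨M, fun v hv => ?_⟩
    have hcl : IsClosed {v : B2 × W | ‖v.2‖ ≤ M * ‖v.1‖} :=
      isClosed_le (by fun_prop) (by fun_prop)
    exact hcl.closure_subset_iff.2 (fun v hv => hM v hv) hv.1
  · intro v hv hv1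
    refine ⟨?_, hv1⟩
    have : v ∈ closure (closure U) := closure_mono (fun v hv => hv.1) hv
    rwa [closure_closure] at this

/-- the image of the closure of a trapping cone has a margin -/
theorem Trap.margin {s : Sys W} {U : Set (B2 × W)} (hU : Trap s U) :
    ∃ η > 0, ∀ v ∈ closure U, v.1 ≠ 0 → ∀ e : B2 × W, ‖e‖ ≤ η * ‖(s.F v).1‖ →
      s.F v + e ∈ U := by
  set K := {v : B2 × W | v ∈ {v ∈ closure U | v.1 ≠ 0} ∧ ‖v.1‖ = 1} with hK
  have hKc : IsCompact K := hU.clCone.compact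
  have hFK : IsCompact (s.F '' K) := hKc.image s.F_diff.continuous
  obtain ⟨δ, hδ, hδN⟩ := hFK.exists_cthickening_subset_open hU.op (by
    rintro _ ⟨v, hv, rfl⟩
    exact hU.trap v hv.1.1 hv.1.2)
  obtain ⟨M, hM⟩ := (isBounded_iff_forall_norm_le.1 hFK.isBounded)
  set M' := max M 1 with hM'
  have hM'0 : 0 < M' := lt_of_lt_of_le one_pos (le_max_right _ _)
  refine ⟨δ / M', by positivity, fun v hv hv1 e he => ?_⟩
  have hpos : 0 < ‖v.1‖ := norm_pos_iff.2 hv1
  set c : ℂ := ((‖v.1‖⁻¹ : ℝ) : ℂ) with hc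
  have hcn : ‖c‖ = ‖v.1‖⁻¹ := by
    rw [hc, Complex.norm_real, Real.norm_eq_abs, abs_of_pos (inv_pos.2 hpos)]
  have hc0 : c ≠ 0 := by
    rw [← norm_pos_iff, hcn]; exact inv_pos.2 hpos
  have hcd : c ^ s.d ≠ 0 := pow_ne_zero _ hc0
  have hcK : c • v ∈ K := by
    refine ⟨hU.clCone.cone.1 c hc0 v ⟨hv, hv1⟩, ?_⟩
    rw [Prod.smul_fst, norm_smul, hcn, inv_mul_cancel₀ hpos.ne']
  have h2 : s.F (c • v) ∈ s.F '' K := mem_image_of_mem _ hcK
  have h1 : s.F (c • v) + (c ^ s.d) • e ∈ U := by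
    apply hδN
    refine mem_cthickening_of_dist_le _ (s.F (c • v)) δ _ h2 ?_
    rw [dist_eq_norm, add_sub_cancel_left, norm_smul]
    calc ‖c ^ s.d‖ * ‖e‖ ≤ ‖c ^ s.d‖ * (δ / M' * ‖(s.F v).1‖) :=
          mul_le_mul_of_nonneg_left he (norm_nonneg _)
      _ = δ / M' * ‖(s.F (c • v)).1‖ := by
          rw [s.F_hom, Prod.smul_fst, norm_smul]; ring
      _ ≤ δ / M' * M' := by
          apply mul_le_mul_of_nonneg_left _ (by positivity)
          exact (norm_fst_le _).trans ((hM _ h2).trans (le_max_left _ _))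
      _ = δ := by field_simp
  have h3 := hU.cone.1 (c ^ s.d)⁻¹ (inv_ne_zero hcd) _ h1
  rwa [s.F_hom, smul_add, smul_smul, smul_smul, inv_mul_cancel₀ hcd, one_smul, one_smul] at h3

end

end MF7
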