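import Pool.Agent.Lib.MF7_R2

/-!
# MF7, row R3: big discs (helper59)
-/

set_option autoImplicit false

open Set Metric Filter Topology

namespace MF7

/-! ### The dilatation of a homogeneous map of the plane -/

theorem nsq_nonneg (x : B2) : 0 ≤ nsq x := by unfold nsq; positivity

theorem nsq_pos {x : B2} (hx : x ≠ 0) : 0 < nsq x := by
  unfold nsq
  by_cases h : x.1 = 0
  · have h2 : x.2 ≠ 0 := fun h2 => hx (Prod.ext h h2)
    have := norm_pos_iff.2 h2
    positivity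
  · have := norm_pos_iff.2 h
    positivity

theorem nsq_cast (x : B2) :
    ((nsq x : ℝ) : ℂ) = x.1 * (starRingEnd ℂ) x.1 + x.2 * (starRingEnd ℂ) x.2 := by
  unfold nsq
  rw [Complex.mul_conj, Complex.mul_conj, Complex.normSq_eq_norm_sq, Complex.normSq_eq_norm_sq]
  push_cast
  rfl

theorem wedge_perp (x : B2) : wedge x (perp x) = (nsq x : ℂ) := by
  rw [nsq_cast]
  simp only [wedge, perp]
  ring

theorem wedge_self (x : B2) : wedge x x = 0 := by simp only [wedge]; ring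

theorem wedge_add (x y z : B2) : wedge x (y + z) = wedge x y + wedge x z := by
  simp only [wedge, Prod.fst_add, Prod.snd_add]; ring

theorem wedge_smul (c : ℂ) (x y : B2) : wedge x (c • y) = c * wedge x y := by
  simp only [wedge, Prod.smul_fst, Prod.smul_snd, smul_eq_mul]; ring

/-- Decomposition of a vector. -/
theorem decomp {x : B2} (hx : x ≠ 0) (v : B2) :
    ∃ α : ℂ, v = α • x + (wedge x v / nsq x) • perp x := by
  have hn : (nsq x : ℂ) ≠ 0 := by exact_mod_cast (nsq_pos hx).ne'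
  refine ⟨((starRingEnd ℂ) x.1 * v.1 + (starRingEnd ℂ) x.2 * v.2) / nsq x, ?_⟩
  have e := nsq_cast x
  ext
  · simp only [Prod.fst_add, Prod.smul_fst, smul_eq_mul, perp, wedge]
    field_simp
    rw [e]; ring
  · simp only [Prod.snd_add, Prod.smul_snd, smul_eq_mul, perp, wedge]
    field_simp
    rw [e]; ring

/-- Homogeneous differentiable maps. -/
structure Hm (T : B2 → B2) : Prop where
  diff : Differentiable ℂ T
  hom : ∃ D : ℕ, ∀ (c : ℂ) (x : B2), T (c • x) = c ^ D • T x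

theorem Hm.euler {T : B2 → B2} (hT : Hm T) (x : B2) : ∃ D : ℕ, fderiv ℂ T x x = (D : ℂ) • T x := by
  obtain ⟨D, hD⟩ := hT.hom
  refine ⟨D, ?_⟩
  have h1 : HasDerivAt (fun c : ℂ => T (c • x)) (fderiv ℂ T x x) 1 := by
    have h2 : HasDerivAt (fun c : ℂ => c • x) x 1 := by
      simpa using (hasDerivAt_id (1 : ℂ)).smul_const x
    have h3 : HasFDerivAt T (fderiv ℂ T x) ((1 : ℂ) • x) := by
      rw [one_smul]; exact (hT.diff x).hasFDerivAt
    exact h3.comp_hasDerivAt (1 : ℂ) h2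
  have h4 : HasDerivAt (fun c : ℂ => c ^ D • T x) ((D : ℂ) • T x) 1 := by
    have := (hasDerivAt_pow D (1 : ℂ)).smul_const (T x)
    simpa using this
  have h5 : (fun c : ℂ => T (c • x)) = fun c : ℂ => c ^ D • T x := funext fun c => hD c x
  rw [h5] at h1
  exact h1.unique h4

/-- Dilatation. -/
noncomputable def dil (T : B2 → B2) (x : B2) : ℝ :=
  ‖wedge (T x) (fderiv ℂ T x (perp x))‖ / nsq (T x)

theorem Hm.wedge_fderiv {T : B2 → B2} (hT : Hm T) {x : B2} (hx : x ≠ 0) (v : B2) :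
    wedge (T x) (fderiv ℂ T x v) =
      wedge x v / nsq x * wedge (T x) (fderiv ℂ T x (perp x)) := by
  obtain ⟨α, hα⟩ := decomp hx v
  obtain ⟨D, hD⟩ := hT.euler x
  set β : ℂ := wedge x v / nsq x with hβ
  rw [hα, map_add, map_smul, map_smul, hD, wedge_add, wedge_smul, wedge_smul, wedge_smul,
    wedge_self]
  ring

theorem Hm.norm_wedge {T : B2 → B2} (hT : Hm T) {x : B2} (hx : x ≠ 0) (v : B2) :
    ‖wedge (T x) (fderiv ℂ T x v)‖ / nsq (T x) = ‖wedge x v‖ / nsq x * dil T x := by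
  rw [hT.wedge_fderiv hx, norm_mul, norm_div, Complex.norm_real, Real.norm_eq_abs,
    abs_of_pos (nsq_pos hx)]
  unfold dil
  ring

theorem Hm.dil_comp {S T : B2 → B2} (hS : Hm S) (hT : Hm T) {x : B2} (hTx : T x ≠ 0) :
    dil (S ∘ T) x = dil T x * dil S (T x) := by
  have h1 : fderiv ℂ (S ∘ T) x = (fderiv ℂ S (T x)).comp (fderiv ℂ T x) :=
    fderiv_comp x (hS.diff _) (hT.diff _)
  have h2 := hS.norm_wedge hTx (fderiv ℂ T x (perp x))
  unfold dil at h2 ⊢
  rw [h1, ContinuousLinearMap.comp_apply, Function.comp_apply, h2]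

theorem Hm.sder_comp {T : B2 → B2} (hT : Hm T) {X : ℂ → B2} {z : ℂ} (hX : DifferentiableAt ℂ X z)
    (h0 : X z ≠ 0) : sder (fun z => T (X z)) z = sder X z * dil T (X z) := by
  have h1 : deriv (fun z => T (X z)) z = fderiv ℂ T (X z) (deriv X z) :=
    ((hT.diff (X z)).hasFDerivAt.comp_hasDerivAt z hX.hasDerivAt).deriv
  unfold sder
  rw [h1]
  exact hT.norm_wedge h0 (deriv X z)

theorem Hm.comp {S T : B2 → B2} (hS : Hm S) (hT : Hm T) : Hm (S ∘ T) := by
  obtain ⟨D, hD⟩ := hS.hom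
  obtain ⟨D', hD'⟩ := hT.hom
  refine ⟨hS.diff.comp hT.diff, D' * D, fun c x => ?_⟩
  rw [Function.comp_apply, hD', hD, ← pow_mul]
  rfl

theorem Hm.id : Hm (fun x => x) := ⟨differentiable_id, 1, fun c x => by rw [pow_one]⟩

section
variable {W : Type} [NormedAddCommGroup W] [NormedSpace ℂ W]

theorem Sys.hm (s : Sys W) : Hm s.g := ⟨s.g_diff, s.d, s.g_hom⟩

theorem Sys.hm_iter (s : Sys W) (k : ℕ) : Hm (s.g^[k]) := by
  induction k with
  | zero => exact Hm.id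
  | succ k ih => rw [Function.iterate_succ']; exact s.hm.comp ih

theorem Sys.iter_ne (s : Sys W) (k : ℕ) {x : B2} (hx : x ≠ 0) : s.g^[k] x ≠ 0 := by
  induction k with
  | zero => exact hx
  | succ k ih => rw [Function.iterate_succ', Function.comp_apply]; exact s.g_ne _ ih

/-- Vectors with `wedge a b = 0` are proportional. -/
theorem prop_of_wedge {a b : B2} (ha : a ≠ 0) (hb : b ≠ 0) (h : wedge a b = 0) :
    ∃ c : ℂ, c ≠ 0 ∧ b = c • a := by
  obtain ⟨α, hα⟩ := decomp ha b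
  rw [h, zero_div, zero_smul, add_zero] at hα
  refine ⟨α, ?_, hα⟩
  rintro rfl
  rw [zero_smul] at hα
  exact hb hα

theorem Sys.iter_surj (s : Sys W) (k : ℕ) (y : B2) (hy : y ≠ 0) :
    ∃ x : B2, x ≠ 0 ∧ wedge (s.g^[k] x) y = 0 := by
  induction k generalizing y with
  | zero => exact ⟨y, hy, wedge_self y⟩
  | succ k ih =>
    obtain ⟨x, hx, h1⟩ := s.g_surj y hy
    obtain ⟨x', hx', h2⟩ := ih x hx
    refine ⟨x', hx', ?_⟩
    obtain ⟨c, hc, he⟩ := prop_of_wedge hx (s.iter_ne k hx') (by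
      have : wedge x (s.g^[k] x') = -wedge (s.g^[k] x') x := by simp only [wedge]; ring
      rw [this, h2, neg_zero])
    rw [Function.iterate_succ', Function.comp_apply, he, s.g_hom]
    have : wedge (c ^ s.d • s.g x) y = c ^ s.d * wedge (s.g x) y := by
      simp only [wedge, Prod.smul_fst, Prod.smul_snd, smul_eq_mul]; ring
    rw [this, h1, mul_zero]

end

/-! ### A point where the dilatation is at least `1/2` -/

theorem deriv_bound (p q p' q' : ℂ) :
    |2 * inner ℝ q q' * (‖p‖ ^ 2 + ‖q‖ ^ 2) - ‖q‖ ^ 2 * (2 * inner ℝ p p' + 2 * inner ℝ q q')| ≤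
      (‖p‖ ^ 2 + ‖q‖ ^ 2) * ‖p * q' - q * p'‖ := by
  have e : 2 * inner ℝ q q' * (‖p‖ ^ 2 + ‖q‖ ^ 2) -
      ‖q‖ ^ 2 * (2 * inner ℝ p p' + 2 * inner ℝ q q') =
      2 * ((starRingEnd ℂ) p * (starRingEnd ℂ) q * (p * q' - q * p')).re := by
    rw [Complex.inner, Complex.inner, Complex.sq_norm, Complex.sq_norm, Complex.normSq_apply,
      Complex.normSq_apply]
    simp only [Complex.mul_re, Complex.mul_im, Complex.sub_re, Complex.sub_im, Complex.conj_re,
      Complex.conj_im]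
    ring
  rw [e, abs_mul, abs_two]
  have h1 := Complex.abs_re_le_norm ((starRingEnd ℂ) p * (starRingEnd ℂ) q * (p * q' - q * p'))
  rw [norm_mul, norm_mul, Complex.norm_conj, Complex.norm_conj] at h1
  have h2 : 2 * (‖p‖ * ‖q‖) ≤ ‖p‖ ^ 2 + ‖q‖ ^ 2 := by nlinarith [sq_nonneg (‖p‖ - ‖q‖)]
  calc 2 * |((starRingEnd ℂ) p * (starRingEnd ℂ) q * (p * q' - q * p')).re|
      ≤ 2 * (‖p‖ * ‖q‖ * ‖p * q' - q * p'‖) := by linarith
    _ = 2 * (‖p‖ * ‖q‖) * ‖p * q' - q * p'‖ := by ring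
    _ ≤ (‖p‖ ^ 2 + ‖q‖ ^ 2) * ‖p * q' - q * p'‖ :=
        mul_le_mul_of_nonneg_right h2 (norm_nonneg _)

theorem nsq_smul (c : ℂ) (x : B2) : nsq (c • x) = ‖c‖ ^ 2 * nsq x := by
  simp only [nsq, Prod.smul_fst, Prod.smul_snd, smul_eq_mul, norm_mul]; ring

theorem exists_unit {x : B2} (hx : x ≠ 0) : ∃ c : ℂ, c ≠ 0 ∧ nsq (c • x) = 1 := by
  have h := nsq_pos hx
  have h1 : 0 < √(nsq x) := Real.sqrt_pos.2 h
  refine ⟨((√(nsq x))⁻¹ : ℝ), ?_, ?_⟩
  · exact_mod_cast (inv_pos.2 h1).ne'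
  · rw [nsq_smul, Complex.norm_real, Real.norm_eq_abs, sq_abs, inv_pow, Real.sq_sqrt h.le,
      inv_mul_cancel₀ h.ne']

/-- The real part of the hermitian product. -/
noncomputable def hre (a b : B2) : ℝ :=
  ((starRingEnd ℂ) a.1 * b.1 + (starRingEnd ℂ) a.2 * b.2).re

theorem nsq_segment (a b : B2) (t : ℝ) (ha : nsq a = 1) (hb : nsq b = 1) :
    nsq (a + (t : ℂ) • (b - a)) = (1 - t) ^ 2 + t ^ 2 + 2 * t * (1 - t) * hre a b := by
  unfold nsq at ha hb ⊢
  rw [Complex.sq_norm, Complex.sq_norm, Complex.normSq_apply, Complex.normSq_apply] at ha hb ⊢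
  simp only [hre, Prod.fst_add, Prod.snd_add, Prod.smul_fst, Prod.smul_snd, Prod.fst_sub,
    Prod.snd_sub, smul_eq_mul, Complex.add_re, Complex.add_im, Complex.mul_re, Complex.mul_im,
    Complex.sub_re, Complex.sub_im, Complex.conj_re, Complex.conj_im, Complex.ofReal_re,
    Complex.ofReal_im]
  linear_combination (1 - t) ^ 2 * ha + t ^ 2 * hb

theorem norm_wedge_le (a b : B2) (ha : nsq a = 1) (hb : nsq b = 1) : ‖wedge a b‖ ≤ 1 := by
  have h : ‖wedge a b‖ ^ 2 ≤ nsq a * nsq b := by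
    have e : nsq a * nsq b - ‖wedge a b‖ ^ 2 =
        ‖(starRingEnd ℂ) a.1 * b.1 + (starRingEnd ℂ) a.2 * b.2‖ ^ 2 := by
      unfold nsq wedge
      rw [Complex.sq_norm, Complex.sq_norm, Complex.sq_norm, Complex.sq_norm, Complex.sq_norm,
        Complex.sq_norm, Complex.normSq_apply, Complex.normSq_apply, Complex.normSq_apply,
        Complex.normSq_apply, Complex.normSq_apply, Complex.normSq_apply]
      simp only [Complex.add_re, Complex.add_im, Complex.mul_re, Complex.mul_im,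
        Complex.sub_re, Complex.sub_im, Complex.conj_re, Complex.conj_im]
      ring
    have := sq_nonneg ‖(starRingEnd ℂ) a.1 * b.1 + (starRingEnd ℂ) a.2 * b.2‖
    linarith
  rw [ha, hb, mul_one] at h
  have := norm_nonneg (wedge a b)
  nlinarith

theorem exists_dil_aux {T : B2 → B2} (hT : Hm T) (hne : ∀ x, x ≠ 0 → T x ≠ 0) {a b : B2}
    (ha : nsq a = 1) (hb : nsq b = 1) (hab : 0 ≤ hre a b) (hTa : (T a).2 = 0)
    (hTb : (T b).1 = 0) : ∃ x : B2, x ≠ 0 ∧ 1 / 2 ≤ dil T x := by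
  set X : ℝ → B2 := fun t => a + (t : ℂ) • (b - a) with hX
  have hXn : ∀ t ∈ Icc (0 : ℝ) 1, 1 / 2 ≤ nsq (X t) := by
    intro t ht
    rw [hX, nsq_segment a b t ha hb]
    have h1 : 0 ≤ 2 * t * (1 - t) * hre a b :=
      mul_nonneg (mul_nonneg (mul_nonneg zero_le_two ht.1) (by linarith [ht.2])) hab
    nlinarith [sq_nonneg (2 * t - 1)]
  have hX0 : ∀ t ∈ Icc (0 : ℝ) 1, X t ≠ 0 := by
    intro t ht h0
    have := hXn t ht
    rw [h0] at this
    simp [nsq] at this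
    linarith
  have hXd : ∀ t : ℝ, HasDerivAt X (b - a) t := by
    intro t
    have h1 : HasDerivAt (fun t : ℝ => (t : ℂ)) 1 t := Complex.ofRealCLM.hasDerivAt
    have h2 := (h1.smul_const (b - a)).const_add a
    exact h2.congr_deriv (one_smul _ _)
  set Y : ℝ → B2 := fun t => T (X t) with hY
  have hYd : ∀ t : ℝ, HasDerivAt Y (fderiv ℂ T (X t) (b - a)) t := by
    intro t
    have h1 : HasFDerivAt T ((fderiv ℂ T (X t)).restrictScalars ℝ) (X t) :=
      (hT.diff (X t)).hasFDerivAt.restrictScalars ℝ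
    exact h1.comp_hasDerivAt t (hXd t)
  have hY1 : ∀ t : ℝ, HasDerivAt (fun t => (Y t).1) (fderiv ℂ T (X t) (b - a)).1 t := fun t =>
    (hasFDerivAt_fst (𝕜 := ℝ) (p := Y t)).comp_hasDerivAt t (hYd t)
  have hY2 : ∀ t : ℝ, HasDerivAt (fun t => (Y t).2) (fderiv ℂ T (X t) (b - a)).2 t := fun t =>
    (hasFDerivAt_snd (𝕜 := ℝ) (p := Y t)).comp_hasDerivAt t (hYd t)
  have hYn : ∀ t ∈ Icc (0 : ℝ) 1, 0 < nsq (Y t) := fun t ht => nsq_pos (hne _ (hX0 t ht))
  set S : ℝ → ℝ := fun t => ‖(Y t).2‖ ^ 2 / (‖(Y t).1‖ ^ 2 + ‖(Y t).2‖ ^ 2) with hS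
  set S' : ℝ → ℝ := fun t =>
    ((2 * inner ℝ (Y t).2 (fderiv ℂ T (X t) (b - a)).2) * (‖(Y t).1‖ ^ 2 + ‖(Y t).2‖ ^ 2) -
      ‖(Y t).2‖ ^ 2 * (2 * inner ℝ (Y t).1 (fderiv ℂ T (X t) (b - a)).1 +
        2 * inner ℝ (Y t).2 (fderiv ℂ T (X t) (b - a)).2)) /
      (‖(Y t).1‖ ^ 2 + ‖(Y t).2‖ ^ 2) ^ 2 with hS'
  have hSd : ∀ t ∈ Icc (0 : ℝ) 1, HasDerivAt S (S' t) t := by
    intro t ht
    have h1 := (hY1 t).norm_sq
    have h2 := (hY2 t).norm_sq
    exact h2.div (h1.add h2) (hYn t ht).ne'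
  obtain ⟨t, ht, hts⟩ := exists_hasDerivAt_eq_slope S S' (by norm_num : (0 : ℝ) < 1)
    (fun t ht => (hSd t ht).continuousAt.continuousWithinAt)
    (fun t ht => hSd t ⟨ht.1.le, ht.2.le⟩)
  have ht' : t ∈ Icc (0 : ℝ) 1 := ⟨ht.1.le, ht.2.le⟩
  have e0 : S 0 = 0 := by
    simp [hS, hY, hX, hTa]
  have e1 : S 1 = 1 := by
    have h1 := hYn 1 (by simp)
    have hY1' : Y 1 = T b := by simp [hY, hX]
    rw [hY1', nsq, hTb] at h1
    simp only [norm_zero] at h1
    simp only [hS, hY1', hTb, norm_zero]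
    rw [zero_pow two_ne_zero, zero_add] at h1 ⊢
    exact div_self h1.ne'
  rw [e0, e1] at hts
  norm_num at hts
  refine ⟨X t, hX0 t ht', ?_⟩
  have h1 := hT.norm_wedge (hX0 t ht') (b - a)
  have h2 : wedge (X t) (b - a) = wedge a b := by
    simp only [hX, wedge, Prod.fst_add, Prod.snd_add, Prod.smul_fst, Prod.smul_snd,
      Prod.fst_sub, Prod.snd_sub, smul_eq_mul]
    ring
  have h3 : ‖wedge (X t) (b - a)‖ / nsq (X t) ≤ 2 := by
    rw [h2, div_le_iff₀ (nsq_pos (hX0 t ht'))]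
    have := norm_wedge_le a b ha hb
    have := hXn t ht'
    linarith
  have h4 : |S' t| ≤ ‖wedge (Y t) (fderiv ℂ T (X t) (b - a))‖ / nsq (Y t) := by
    have h5 := deriv_bound (Y t).1 (Y t).2 (fderiv ℂ T (X t) (b - a)).1
      (fderiv ℂ T (X t) (b - a)).2
    have h6 : 0 < ‖(Y t).1‖ ^ 2 + ‖(Y t).2‖ ^ 2 := hYn t ht'
    simp only [hS']
    rw [abs_div, abs_of_pos (pow_pos h6 2), div_le_div_iff₀ (pow_pos h6 2) (hYn t ht')]
    unfold nsq wedge
    calc _ ≤ ((‖(Y t).1‖ ^ 2 + ‖(Y t).2‖ ^ 2) *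
          ‖(Y t).1 * (fderiv ℂ T (X t) (b - a)).2 - (Y t).2 * (fderiv ℂ T (X t) (b - a)).1‖) *
          (‖(Y t).1‖ ^ 2 + ‖(Y t).2‖ ^ 2) := mul_le_mul_of_nonneg_right h5 h6.le
      _ = _ := by ring
  rw [hts, abs_one, h1] at h4
  have h7 : 0 ≤ dil T (X t) := div_nonneg (norm_nonneg _) (nsq_nonneg _)
  nlinarith

theorem exists_dil {T : B2 → B2} (hT : Hm T) (hne : ∀ x, x ≠ 0 → T x ≠ 0)
    (hs : ∀ y : B2, y ≠ 0 → ∃ x : B2, x ≠ 0 ∧ wedge (T x) y = 0) :
    ∃ x : B2, x ≠ 0 ∧ 1 / 2 ≤ dil T x := by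
  obtain ⟨D, hD⟩ := hT.hom
  obtain ⟨a, ha, h1⟩ := hs ((1, 0) : B2) (by simp)
  obtain ⟨b, hb, h2⟩ := hs ((0, 1) : B2) (by simp)
  simp only [wedge, mul_zero, mul_one, zero_sub, neg_eq_zero, sub_zero] at h1 h2
  obtain ⟨c, hc, hc1⟩ := exists_unit ha
  obtain ⟨c', hc', hc'1⟩ := exists_unit hb
  have h3 : (T (c • a)).2 = 0 := by
    rw [hD, Prod.smul_snd, h1, smul_zero]
  have h4 : (T (c' • b)).1 = 0 := by
    rw [hD, Prod.smul_fst, h2, smul_zero]
  by_cases h5 : 0 ≤ hre (c • a) (c' • b)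
  · exact exists_dil_aux hT hne hc1 hc'1 h5 h3 h4
  · push Not at h5
    have h6 : nsq ((-1 : ℂ) • (c' • b)) = 1 := by rw [nsq_smul]; simp [hc'1]
    have h7 : (T ((-1 : ℂ) • (c' • b))).1 = 0 := by
      rw [hD, Prod.smul_fst, h4, smul_zero]
    refine exists_dil_aux hT hne hc1 h6 ?_ h3 h7
    have : hre (c • a) ((-1 : ℂ) • (c' • b)) = -hre (c • a) (c' • b) := by
      simp only [hre, Prod.smul_fst, Prod.smul_snd, smul_eq_mul, neg_mul, one_mul, mul_neg,
        Complex.add_re, Complex.neg_re]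
      ring
    rw [this]; linarith

/-! ### The discs -/

/-- The linear map which fixes `x` and multiplies `perp x` by `1 + τ`. -/
noncomputable def bump (τ : ℝ) (x y : B2) : B2 := y + ((τ : ℂ) * (wedge x y / nsq x)) • perp x

theorem bump_hm (τ : ℝ) (x : B2) : Hm (bump τ x) := by
  refine ⟨?_, 1, fun c y => ?_⟩
  · unfold bump wedge
    fun_prop
  · simp only [bump, wedge_smul, pow_one, smul_add, smul_smul]
    congr 2
    ring

theorem bump_self (τ : ℝ) (x : B2) : bump τ x x = x := by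
  simp [bump, wedge_self]

theorem bump_add (τ : ℝ) (x y z : B2) : bump τ x (y + z) = bump τ x y + bump τ x z := by
  simp only [bump, wedge_add, add_div, mul_add, add_smul]
  abel

theorem dil_bump {τ : ℝ} (hτ : 0 ≤ τ) {x : B2} (hx : x ≠ 0) : dil (bump τ x) x = 1 + τ := by
  have h1 : HasFDerivAt (bump τ x) (fderiv ℂ (bump τ x) x) x :=
    ((bump_hm τ x).diff x).hasFDerivAt
  have h2 : fderiv ℂ (bump τ x) x (perp x) = bump τ x (perp x) := by
    have h3 : HasDerivAt (fun c : ℂ => bump τ x (x + c • perp x))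
        (fderiv ℂ (bump τ x) x (perp x)) 0 := by
      have h4 : HasDerivAt (fun c : ℂ => x + c • perp x) (perp x) 0 := by
        have := ((hasDerivAt_id (0 : ℂ)).smul_const (perp x)).const_add x
        simpa using this
      have h5 : HasFDerivAt (bump τ x) (fderiv ℂ (bump τ x) x) (x + (0 : ℂ) • perp x) := by
        rw [zero_smul, add_zero]; exact h1
      exact h5.comp_hasDerivAt (0 : ℂ) h4
    have h6 : HasDerivAt (fun c : ℂ => bump τ x (x + c • perp x)) (bump τ x (perp x)) 0 := by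
      have h7 : (fun c : ℂ => bump τ x (x + c • perp x)) =
          fun c : ℂ => x + c • bump τ x (perp x) := by
        funext c
        obtain ⟨D, hD⟩ := (bump_hm τ x).hom
        rw [bump_add, bump_self]
        congr 1
        simp only [bump, wedge_smul, smul_add, smul_smul]
        congr 2
        ring
      rw [h7]
      have := ((hasDerivAt_id (0 : ℂ)).smul_const (bump τ x (perp x))).const_add x
      simpa using this
    exact h3.unique h6
  unfold dil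
  rw [h2, bump_self, bump, wedge_add, wedge_smul, wedge_perp]
  have hn : (nsq x : ℂ) ≠ 0 := by exact_mod_cast (nsq_pos hx).ne'
  have h3 : (nsq x : ℂ) + (τ : ℂ) * ((nsq x : ℂ) / nsq x) * nsq x =
      (((1 + τ) * nsq x : ℝ) : ℂ) := by
    push_cast
    field_simp
  rw [h3, Complex.norm_real, Real.norm_eq_abs,
    abs_of_nonneg (mul_nonneg (by linarith) (nsq_nonneg x)), mul_div_assoc,
    div_self (nsq_pos hx).ne', mul_one]

theorem norm_perp (x : B2) : ‖perp x‖ = ‖x‖ := by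
  simp only [perp, Prod.norm_def, norm_neg, Complex.norm_conj]
  exact max_comm _ _

theorem sq_norm_le_nsq (x : B2) : ‖x‖ ^ 2 ≤ nsq x := by
  unfold nsq
  rw [Prod.norm_def]
  rcases max_choice ‖x.1‖ ‖x.2‖ with h | h <;> rw [h]
  · have := sq_nonneg ‖x.2‖; linarith
  · have := sq_nonneg ‖x.1‖; linarith

theorem norm_wedge_le' (x y : B2) : ‖wedge x y‖ ≤ 2 * ‖x‖ * ‖y‖ := by
  unfold wedge
  have h1 := norm_fst_le x
  have h2 := norm_snd_le x
  have h3 := norm_fst_le y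
  have h4 := norm_snd_le y
  calc ‖x.1 * y.2 - x.2 * y.1‖ ≤ ‖x.1‖ * ‖y.2‖ + ‖x.2‖ * ‖y.1‖ := by
        have := norm_sub_le (x.1 * y.2) (x.2 * y.1)
        rwa [norm_mul, norm_mul] at this
    _ ≤ ‖x‖ * ‖y‖ + ‖x‖ * ‖y‖ := by gcongr
    _ = 2 * ‖x‖ * ‖y‖ := by ring

theorem norm_bump_sub {τ : ℝ} (hτ : 0 ≤ τ) {x : B2} (hx : x ≠ 0) (y : B2) :
    ‖bump τ x y - y‖ ≤ 2 * τ * ‖y‖ := by
  have hn := nsq_pos hx
  unfold bump
  rw [add_sub_cancel_left, norm_smul, norm_perp, norm_mul, norm_div, Complex.norm_real,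
    Complex.norm_real, Real.norm_eq_abs, Real.norm_eq_abs, abs_of_nonneg hτ, abs_of_pos hn]
  have h1 := norm_wedge_le' x y
  have h2 := sq_norm_le_nsq x
  have h3 : ‖wedge x y‖ / nsq x * ‖x‖ ≤ 2 * ‖y‖ := by
    rw [div_mul_eq_mul_div, div_le_iff₀ hn]
    calc ‖wedge x y‖ * ‖x‖ ≤ 2 * ‖x‖ * ‖y‖ * ‖x‖ := by gcongr
      _ = 2 * ‖y‖ * ‖x‖ ^ 2 := by ring
      _ ≤ 2 * ‖y‖ * nsq x := by gcongr
  calc τ * (‖wedge x y‖ / nsq x) * ‖x‖ = τ * (‖wedge x y‖ / nsq x * ‖x‖) := by ring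
    _ ≤ τ * (2 * ‖y‖) := by gcongr
    _ = 2 * τ * ‖y‖ := by ring

section
variable {W : Type} [NormedAddCommGroup W] [NormedSpace ℂ W]

theorem disc_iter (s : Sys W) {U : Set (B2 × W)} (hU : Trap s U) {η r : ℝ} (hη : 0 < η)
    (hr : 0 < r)
    (hmar : ∀ v ∈ closure U, v.1 ≠ 0 → ∀ e : B2 × W, ‖e‖ ≤ η * ‖(s.F v).1‖ → s.F v + e ∈ U)
    {x₀ : B2} {w₀ : W} (hx₀ : x₀ ≠ 0)
    (h0 : ∀ e : B2 × W, ‖e‖ ≤ r * ‖x₀‖ → (x₀, w₀) + e ∈ U) (k : ℕ) :
    ∃ X Z, IsDisc U 1 X Z ∧ X 0 = s.g^[k] x₀ ∧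
      sder X 0 = r * (1 + η / 2) ^ k * dil (s.g^[k]) x₀ := by
  induction k with
  | zero =>
    refine ⟨fun z => x₀ + (z * r) • perp x₀, fun _ => w₀, ⟨?_, ?_, ?_⟩, ?_, ?_⟩
    · exact (by fun_prop : Differentiable ℂ fun z : ℂ => x₀ + (z * r) • perp x₀).differentiableOn
    · exact differentiableOn_const _
    · intro z hz
      rw [mem_ball_zero_iff] at hz
      have := h0 ((z * r) • perp x₀, 0) (by
        rw [Prod.norm_def]
        simp only [norm_zero, norm_smul, norm_mul, Complex.norm_real, Real.norm_eq_abs,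
          abs_of_pos hr, norm_perp]
        rw [max_eq_left (by positivity)]
        have h1 : ‖z‖ * r * ‖x₀‖ ≤ 1 * r * ‖x₀‖ := by gcongr
        linarith)
      simpa using this
    · simp
    · have h1 : deriv (fun z : ℂ => x₀ + (z * r) • perp x₀) 0 = (r : ℂ) • perp x₀ := by
        have h2 : HasDerivAt (fun z : ℂ => z * (r : ℂ)) (r : ℂ) 0 := by
          simpa using (hasDerivAt_id (0 : ℂ)).mul_const (r : ℂ)
        exact ((h2.smul_const (perp x₀)).const_add x₀).deriv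
      unfold sder dil
      rw [h1]
      have h3 : fderiv ℂ (s.g^[0]) x₀ = ContinuousLinearMap.id ℂ B2 := by
        rw [Function.iterate_zero]; exact fderiv_id
      rw [h3]
      simp only [zero_mul, zero_smul, add_zero, pow_zero, mul_one, Function.iterate_zero, id_eq,
        ContinuousLinearMap.id_apply]
      rw [wedge_smul, norm_mul, Complex.norm_real, Real.norm_eq_abs, abs_of_pos hr]
      ring
  | succ k ih =>
    obtain ⟨X, Z, ⟨hX, hZ, hXZ⟩, hX0, hXs⟩ := ih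
    have hxk : s.g^[k] x₀ ≠ 0 := s.iter_ne k hx₀
    set y : B2 := s.g (s.g^[k] x₀) with hy
    have hy0 : y ≠ 0 := s.g_ne _ hxk
    have hτ : 0 ≤ η / 2 := by positivity
    have hXat : DifferentiableAt ℂ X 0 := hX.differentiableAt (ball_mem_nhds _ one_pos)
    refine ⟨fun z => bump (η / 2) y (s.g (X z)), fun z => s.h (X z, Z z), ⟨?_, ?_, ?_⟩, ?_, ?_⟩
    · exact ((bump_hm _ y).diff.comp s.g_diff).comp_differentiableOn hX
    · exact s.h_diff.comp_differentiableOn (hX.prodMk hZ)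
    · intro z hz
      have h1 := hXZ z hz
      have h2 := hmar _ (subset_closure h1) (hU.cone.2 _ h1)
        (bump (η / 2) y (s.g (X z)) - s.g (X z), 0) (by
          rw [Prod.norm_def]
          simp only [norm_zero]
          rw [max_eq_left (norm_nonneg _)]
          refine (norm_bump_sub hτ hy0 _).trans_eq ?_
          simp only [Sys.F]
          ring)
      simpa [Sys.F] using h2
    · simp only
      rw [hX0, Function.iterate_succ', Function.comp_apply, ← hy, bump_self]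
    · have h1 : sder (fun z => bump (η / 2) y (s.g (X z))) 0 =
          sder (fun z => s.g (X z)) 0 * dil (bump (η / 2) y) (s.g (X 0)) := by
        refine (bump_hm _ y).sder_comp (X := fun z => s.g (X z)) ?_ ?_
        · exact (s.g_diff _).comp 0 hXat
        · rw [hX0]; exact hy0
      have h2 : sder (fun z => s.g (X z)) 0 = sder X 0 * dil s.g (X 0) := by
        refine s.hm.sder_comp hXat ?_
        rw [hX0]; exact hxk
      have h3 : dil (s.g^[k + 1]) x₀ = dil (s.g^[k]) x₀ * dil s.g (s.g^[k] x₀) := by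
        rw [Function.iterate_succ']
        exact s.hm.dil_comp (s.hm_iter k) hxk
      rw [h1, h2, hX0, ← hy, dil_bump hτ hy0, hXs, h3]
      ring

variable [FiniteDimensional ℂ W]

theorem big_disc (s : Sys W) {U Q : Set (B2 × W)} (hU : Trap s U) (hQ : ClCone Q) (hQU : Q ⊆ U)
    (hfull : ∀ x : B2, x ≠ 0 → ∃ w, (x, w) ∈ Q) (M : ℝ) :
    ∃ X Z, IsDisc U 1 X Z ∧ M ≤ sder X 0 := by
  obtain ⟨η, hη, hmar⟩ := hU.margin
  obtain ⟨r, hr, hrm⟩ := hQ.margin hU.op hU.cone hQU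
  have h1 : (1 : ℝ) < 1 + η / 2 := by linarith
  obtain ⟨k, hk⟩ := pow_unbounded_of_one_lt (2 * |M| / r) h1
  obtain ⟨x, hx, hd⟩ := exists_dil (s.hm_iter k) (fun x hx => s.iter_ne k hx) (s.iter_surj k)
  obtain ⟨w, hw⟩ := hfull x hx
  obtain ⟨X, Z, hXZ, -, hs⟩ := disc_iter s hU hη hr hmar hx (hrm (x, w) hw) k
  refine ⟨X, Z, hXZ, ?_⟩
  rw [hs]
  rw [div_lt_iff₀ hr] at hk
  have h2 : 0 < (1 + η / 2) ^ k := by positivity
  have h3 : r * (1 + η / 2) ^ k * (1 / 2) ≤ r * (1 + η / 2) ^ k * dil (s.g^[k]) x := by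
    gcongr
  have := le_abs_self M
  linarith

end

end MF7
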