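import Pool.Agent.Lib.MF7_Base

set_option autoImplicit false

open Set Metric Filter Topology

namespace MF7

namespace R4x

theorem nsq_pos {x : B2} (hx : x ≠ 0) : 0 < nsq x := by
  unfold nsq
  by_cases h1 : x.1 = 0
  · have h2 : x.2 ≠ 0 := fun h2 => hx (Prod.ext h1 h2)
    have := norm_pos_iff.mpr h2
    positivity
  · have := norm_pos_iff.mpr h1
    positivity

theorem sder_cont {X : ℂ → B2} (hX : DifferentiableOn ℂ X (ball 0 1))
    (h0 : ∀ z ∈ ball (0 : ℂ) 1, X z ≠ 0) : ContinuousOn (sder X) (ball 0 1) := by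
  have h1 : ContinuousOn X (ball 0 1) := hX.continuousOn
  have h2 : ContinuousOn (deriv X) (ball 0 1) := (hX.deriv isOpen_ball).continuousOn
  unfold sder wedge nsq
  refine ContinuousOn.div ?_ ?_ ?_
  · exact ((h1.fst.mul h2.snd).sub (h1.snd.mul h2.fst)).norm
  · exact (h1.fst.norm.pow 2).add (h1.snd.norm.pow 2)
  · intro z hz
    exact (nsq_pos (h0 z hz)).ne'

theorem sder_comp {X : ℂ → B2} {a z : ℂ} {ρ : ℝ} (hρ : 0 < ρ)
    (hX : DifferentiableAt ℂ X (a + (ρ : ℂ) * z)) :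
    sder (fun w => X (a + (ρ : ℂ) * w)) z = ρ * sder X (a + (ρ : ℂ) * z) := by
  have h1 : HasDerivAt (fun w : ℂ => a + (ρ : ℂ) * w) (ρ : ℂ) z := by
    simpa using ((hasDerivAt_id z).const_mul (ρ : ℂ)).const_add a
  have h2 : HasDerivAt (fun w => X (a + (ρ : ℂ) * w)) ((ρ : ℂ) • deriv X (a + (ρ : ℂ) * z)) z :=
    HasDerivAt.scomp z hX.hasDerivAt h1
  unfold sder
  rw [h2.deriv]
  have h3 : wedge (X (a + (ρ : ℂ) * z)) ((ρ : ℂ) • deriv X (a + (ρ : ℂ) * z)) =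
      (ρ : ℂ) * wedge (X (a + (ρ : ℂ) * z)) (deriv X (a + (ρ : ℂ) * z)) := by
    simp only [wedge, Prod.smul_fst, Prod.smul_snd, smul_eq_mul]
    ring
  rw [h3, norm_mul, Complex.norm_real, Real.norm_of_nonneg hρ.le, mul_div_assoc]

end R4x

section
variable {W : Type} [NormedAddCommGroup W] [NormedSpace ℂ W] [FiniteDimensional ℂ W]

theorem zalcman {N : Set (B2 × W)} (hN : IsCone N) {X : ℂ → B2} {Z : ℂ → W}
    (h : IsDisc N 1 X Z) {m : ℝ} (hm0 : 0 < m) (hm : m ≤ sder X 0) :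
    ∃ (X' : ℂ → B2) (Z' : ℂ → W), IsDisc N (m / 4) X' Z' ∧
      (∀ z ∈ ball (0 : ℂ) (m / 4), sder X' z ≤ 2) ∧ sder X' 0 = 1 := by
  obtain ⟨hX, hZ, hv⟩ := h
  have hX0 : ∀ z ∈ ball (0 : ℂ) 1, X z ≠ 0 := fun z hz => hN.2 _ (hv z hz)
  have hsub : closedBall (0 : ℂ) (1 / 2) ⊆ ball 0 1 := closedBall_subset_ball (by norm_num)
  have hsc : ContinuousOn (sder X) (closedBall 0 (1 / 2)) := (R4x.sder_cont hX hX0).mono hsub
  have hsn : ∀ z, 0 ≤ sder X z := fun z => by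
    unfold sder nsq
    positivity
  have hφ : ContinuousOn (fun z : ℂ => (1 / 2 - ‖z‖) * sder X z) (closedBall 0 (1 / 2)) :=
    (continuousOn_const.sub continuous_norm.continuousOn).mul hsc
  obtain ⟨a, ha, hmax⟩ := (isCompact_closedBall (0 : ℂ) (1 / 2)).exists_isMaxOn
    ⟨0, by simp⟩ hφ
  have hmax' : ∀ z ∈ closedBall (0 : ℂ) (1 / 2),
      (1 / 2 - ‖z‖) * sder X z ≤ (1 / 2 - ‖a‖) * sder X a := fun z hz => hmax hz
  have h0 := hmax' 0 (by simp)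
  simp only [norm_zero, sub_zero] at h0
  have hta : m / 2 ≤ (1 / 2 - ‖a‖) * sder X a := by linarith
  have ha' : ‖a‖ ≤ 1 / 2 := by simpa using ha
  have hsa : 0 < sder X a := by
    rcases (hsn a).lt_or_eq with h1 | h1
    · exact h1
    · rw [← h1, mul_zero] at hta
      linarith
  have hra : 0 < 1 / 2 - ‖a‖ := by
    by_contra hcon
    have : (1 / 2 - ‖a‖) * sder X a ≤ 0 := mul_nonpos_of_nonpos_of_nonneg (not_lt.mp hcon) hsa.le
    linarith
  set ρ : ℝ := 1 / sder X a with hρdef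
  have hρ : 0 < ρ := by positivity
  have hρm : ρ * (m / 4) ≤ (1 / 2 - ‖a‖) / 2 := by
    rw [hρdef, div_mul_eq_mul_div, div_le_iff₀ hsa]
    linarith
  have key : ∀ z ∈ ball (0 : ℂ) (m / 4), ‖a + (ρ : ℂ) * z‖ ≤ ‖a‖ + (1 / 2 - ‖a‖) / 2 := by
    intro z hz
    have hz' : ‖z‖ < m / 4 := by simpa using hz
    calc ‖a + (ρ : ℂ) * z‖ ≤ ‖a‖ + ‖(ρ : ℂ) * z‖ := norm_add_le _ _
      _ = ‖a‖ + ρ * ‖z‖ := by rw [norm_mul, Complex.norm_real, Real.norm_of_nonneg hρ.le]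
      _ ≤ ‖a‖ + ρ * (m / 4) := by gcongr
      _ ≤ _ := by linarith
  have hin : ∀ z ∈ ball (0 : ℂ) (m / 4), a + (ρ : ℂ) * z ∈ closedBall (0 : ℂ) (1 / 2) := by
    intro z hz
    have := key z hz
    rw [mem_closedBall_zero_iff]
    linarith
  have hin1 : ∀ z ∈ ball (0 : ℂ) (m / 4), a + (ρ : ℂ) * z ∈ ball (0 : ℂ) 1 :=
    fun z hz => hsub (hin z hz)
  have hdiff : ∀ z ∈ ball (0 : ℂ) (m / 4), DifferentiableAt ℂ X (a + (ρ : ℂ) * z) :=
    fun z hz => hX.differentiableAt (isOpen_ball.mem_nhds (hin1 z hz))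
  have haff : DifferentiableOn ℂ (fun w : ℂ => a + (ρ : ℂ) * w) (ball 0 (m / 4)) := by
    fun_prop
  refine ⟨fun w => X (a + (ρ : ℂ) * w), fun w => Z (a + (ρ : ℂ) * w), ⟨?_, ?_, ?_⟩, ?_, ?_⟩
  · exact hX.comp haff hin1
  · exact hZ.comp haff hin1
  · exact fun z hz => hv _ (hin1 z hz)
  · intro z hz
    rw [R4x.sder_comp hρ (hdiff z hz)]
    have h1 := hmax' _ (hin z hz)
    have h2 := key z hz
    have h3 : (1 / 2 - ‖a‖) / 2 * sder X (a + (ρ : ℂ) * z) ≤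
        (1 / 2 - ‖a + (ρ : ℂ) * z‖) * sder X (a + (ρ : ℂ) * z) :=
      mul_le_mul_of_nonneg_right (by linarith) (hsn _)
    have h4 : sder X (a + (ρ : ℂ) * z) ≤ 2 * sder X a := by
      by_contra hcon
      push_neg at hcon
      have h5 : (1 / 2 - ‖a‖) / 2 * (2 * sder X a) <
          (1 / 2 - ‖a‖) / 2 * sder X (a + (ρ : ℂ) * z) :=
        mul_lt_mul_of_pos_left hcon (by linarith)
      have h6 : (1 / 2 - ‖a‖) / 2 * (2 * sder X a) = (1 / 2 - ‖a‖) * sder X a := by ring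
      linarith
    calc ρ * sder X (a + (ρ : ℂ) * z) ≤ ρ * (2 * sder X a) := by gcongr
      _ = 2 := by rw [hρdef]; field_simp
  · have h00 : (0 : ℂ) ∈ ball (0 : ℂ) (m / 4) := by
      simp only [mem_ball, dist_self]
      positivity
    rw [R4x.sder_comp hρ (hdiff 0 h00)]
    rw [mul_zero, add_zero, hρdef]
    field_simp

end

end MF7
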