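import Pool.Agent.Lib.MF7_R5a

/-!
# R5: the limit curve
-/

set_option autoImplicit false

open Set Metric Filter Topology

namespace MF7

variable {W : Type} [NormedAddCommGroup W] [NormedSpace ℂ W]

namespace R5

theorem nsq_pos {x : B2} (hx : x ≠ 0) : 0 < nsq x := by
  unfold nsq
  by_contra hcon
  push Not at hcon
  have h2 : ‖x.1‖ ^ 2 = 0 := by nlinarith [sq_nonneg ‖x.1‖, sq_nonneg ‖x.2‖]
  have h3 : ‖x.2‖ ^ 2 = 0 := by nlinarith [sq_nonneg ‖x.1‖, sq_nonneg ‖x.2‖]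
  apply hx
  ext
  · simpa using h2
  · simpa using h3

theorem wedge_comb (a b : ℂ) (x x' : B2) :
    wedge (a • x) (a • x' + b • x) = a ^ 2 * wedge x x' := by
  simp only [wedge, Prod.smul_fst, Prod.smul_snd, Prod.fst_add, Prod.snd_add, smul_eq_mul]
  ring

/-- In the first chart. -/
theorem chart_one {X : ℂ → B2} {R : ℝ} (hX : DifferentiableOn ℂ X (ball 0 R))
    (hne : ∀ z ∈ ball (0 : ℂ) R, X z ≠ 0) (hs : ∀ z ∈ ball (0 : ℂ) R, sder X z ≤ 2) {a b : ℂ}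
    (ha : a ∈ ball (0 : ℂ) R) (hb : b ∈ ball (0 : ℂ) R) (hab : ‖b - a‖ ≤ 1 / 8)
    (h : ‖(X a).2‖ ≤ ‖(X a).1‖) : ‖X b‖ ≤ 2 * ‖(X b).1‖ := by
  have h1 := chart_lip hX hne hs ha hb
  have hna := nsq_pos (hne a ha)
  have hnb := nsq_pos (hne b hb)
  have h2 : 1 / 2 ≤ ‖(X a).1‖ ^ 2 / nsq (X a) := by
    rw [le_div_iff₀ hna]
    unfold nsq
    have := pow_le_pow_left₀ (norm_nonneg _) h 2
    linarith
  have h3 : 1 / 4 ≤ ‖(X b).1‖ ^ 2 / nsq (X b) := by
    have := abs_le.1 h1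
    linarith [this.1]
  rw [le_div_iff₀ hnb] at h3
  unfold nsq at h3
  rw [Prod.norm_def]
  apply max_le
  · linarith [norm_nonneg (X b).1]
  · have h4 : ‖(X b).2‖ ^ 2 ≤ (2 * ‖(X b).1‖) ^ 2 := by nlinarith [sq_nonneg ‖(X b).1‖]
    exact le_of_sq_le_sq h4 (by positivity)

/-- In the second chart. -/
theorem chart_two {X : ℂ → B2} {R : ℝ} (hX : DifferentiableOn ℂ X (ball 0 R))
    (hne : ∀ z ∈ ball (0 : ℂ) R, X z ≠ 0) (hs : ∀ z ∈ ball (0 : ℂ) R, sder X z ≤ 2) {a b : ℂ}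
    (ha : a ∈ ball (0 : ℂ) R) (hb : b ∈ ball (0 : ℂ) R) (hab : ‖b - a‖ ≤ 1 / 8)
    (h : ‖(X a).1‖ ≤ ‖(X a).2‖) : ‖X b‖ ≤ 2 * ‖(X b).2‖ := by
  have h1 := chart_lip hX hne hs ha hb
  have hna := nsq_pos (hne a ha)
  have hnb := nsq_pos (hne b hb)
  have h2 : ‖(X a).1‖ ^ 2 / nsq (X a) ≤ 1 / 2 := by
    rw [div_le_iff₀ hna]
    unfold nsq
    have := pow_le_pow_left₀ (norm_nonneg _) h 2
    linarith
  have h3 : ‖(X b).1‖ ^ 2 / nsq (X b) ≤ 3 / 4 := by
    have := abs_le.1 h1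
    linarith [this.2]
  rw [div_le_iff₀ hnb] at h3
  unfold nsq at h3
  rw [Prod.norm_def]
  apply max_le
  · have h4 : ‖(X b).1‖ ^ 2 ≤ (2 * ‖(X b).2‖) ^ 2 := by nlinarith [sq_nonneg ‖(X b).1‖]
    exact le_of_sq_le_sq h4 (by positivity)
  · linarith [norm_nonneg (X b).2]

/-- The local lift of the limit. -/
theorem local_lift [FiniteDimensional ℂ W] (U : Ultrafilter ℕ) (X : ℕ → ℂ → B2) (Z : ℕ → ℂ → W)
    (l : B2 →L[ℂ] ℂ) (z₀ : ℂ) (r M : ℝ) (hM : 0 ≤ M)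
    (h : ∀ᶠ j in (U : Filter ℕ), DifferentiableOn ℂ (X j) (ball z₀ r) ∧
      DifferentiableOn ℂ (Z j) (ball z₀ r) ∧ ∀ z ∈ ball z₀ r, X j z ≠ 0 ∧
        ‖X j z‖ ≤ 2 * ‖l (X j z)‖ ∧ ‖Z j z‖ ≤ M * ‖X j z‖) :
    ∃ G : ℂ → B2 × W,
      (∀ z ∈ ball z₀ r, Tendsto (fun j => (l (X j z))⁻¹ • (X j z, Z j z)) U (𝓝 (G z))) ∧
      TendstoLocallyUniformlyOn (fun j z => (l (X j z))⁻¹ • (X j z, Z j z)) G U (ball z₀ r) ∧
      (∀ᶠ j in (U : Filter ℕ),
        DifferentiableOn ℂ (fun z => (l (X j z))⁻¹ • (X j z, Z j z)) (ball z₀ r)) ∧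
      (∀ z ∈ ball z₀ r, l (G z).1 = 1) := by
  have hcomp : CompleteSpace W := FiniteDimensional.complete ℂ W
  have hpos : ∀ᶠ j in (U : Filter ℕ), ∀ z ∈ ball z₀ r, l (X j z) ≠ 0 := by
    filter_upwards [h] with j hj z hz
    intro h0
    have h1 := (hj.2.2 z hz).2.1
    rw [h0, norm_zero, mul_zero] at h1
    exact (hj.2.2 z hz).1 (norm_le_zero_iff.1 h1)
  have hbd : ∀ᶠ j in (U : Filter ℕ), ∀ z ∈ ball z₀ r,
      ‖(l (X j z))⁻¹ • (X j z, Z j z)‖ ≤ 2 * (M + 1) := by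
    filter_upwards [h, hpos] with j hj hp z hz
    obtain ⟨h0, h1, h2⟩ := hj.2.2 z hz
    have h3 : 0 < ‖l (X j z)‖ := norm_pos_iff.2 (hp z hz)
    rw [norm_smul, norm_inv]
    have h4 : ‖(X j z, Z j z)‖ ≤ (M + 1) * ‖X j z‖ := by
      rw [Prod.norm_def]
      apply max_le
      · have : 0 ≤ M * ‖X j z‖ := mul_nonneg hM (norm_nonneg _)
        simp only
        linarith
      · simp only
        linarith [norm_nonneg (X j z)]
    calc ‖l (X j z)‖⁻¹ * ‖(X j z, Z j z)‖ ≤ ‖l (X j z)‖⁻¹ * ((M + 1) * (2 * ‖l (X j z)‖)) := by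
          apply mul_le_mul_of_nonneg_left _ (inv_nonneg.2 h3.le)
          refine h4.trans ?_
          exact mul_le_mul_of_nonneg_left h1 (by linarith)
      _ = 2 * (M + 1) := by field_simp
  have hdiff : ∀ᶠ j in (U : Filter ℕ),
      DifferentiableOn ℂ (fun z => (l (X j z))⁻¹ • (X j z, Z j z)) (ball z₀ r) := by
    filter_upwards [h, hpos] with j hj hp
    have h1 : DifferentiableOn ℂ (fun z => l (X j z)) (ball z₀ r) :=
      l.differentiable.comp_differentiableOn hj.1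
    exact (h1.inv hp).smul (hj.1.prodMk hj.2.1)
  have hex : ∀ z ∈ ball z₀ r, ∃ x : B2 × W,
      Tendsto (fun j => (l (X j z))⁻¹ • (X j z, Z j z)) U (𝓝 x) := by
    intro z hz
    apply ulim U _ (2 * (M + 1))
    filter_upwards [hbd] with j hj
    exact hj z hz
  choose! G hG using hex
  refine ⟨G, hG, ?_, hdiff, ?_⟩
  · apply unif (M := 2 * (M + 1)) _ hG
    filter_upwards [hdiff, hbd] with j h1 h2
    exact ⟨h1, h2⟩
  · intro z hz
    have h1 : Tendsto (fun j => l ((l (X j z))⁻¹ • (X j z, Z j z)).1) U (𝓝 (l (G z).1)) :=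
      ((l.continuous.comp continuous_fst).tendsto _).comp (hG z hz)
    have h2 : Tendsto (fun j => l ((l (X j z))⁻¹ • (X j z, Z j z)).1) U (𝓝 1) := by
      apply tendsto_const_nhds.congr'
      filter_upwards [hpos] with j hj
      simp only [Prod.smul_fst, map_smul, smul_eq_mul]
      rw [inv_mul_cancel₀ (hj z hz)]
    exact tendsto_nhds_unique h1 h2

/-- Continuity of the wedge. -/
theorem tendsto_wedge {ι : Type*} {F : Filter ι} {f g : ι → B2 × W} {a b : B2 × W}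
    (hf : Tendsto f F (𝓝 a)) (hg : Tendsto g F (𝓝 b)) :
    Tendsto (fun j => wedge (f j).1 (g j).1) F (𝓝 (wedge a.1 b.1)) := by
  have hf1 : Tendsto (fun j => (f j).1.1) F (𝓝 a.1.1) :=
    ((continuous_fst.comp continuous_fst).tendsto a).comp hf
  have hf2 : Tendsto (fun j => (f j).1.2) F (𝓝 a.1.2) :=
    ((continuous_snd.comp continuous_fst).tendsto a).comp hf
  have hg1 : Tendsto (fun j => (g j).1.1) F (𝓝 b.1.1) :=
    ((continuous_fst.comp continuous_fst).tendsto b).comp hg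
  have hg2 : Tendsto (fun j => (g j).1.2) F (𝓝 b.1.2) :=
    ((continuous_snd.comp continuous_fst).tendsto b).comp hg
  exact (hf1.mul hg2).sub (hf2.mul hg1)

/-- The wedge of the base component of a scaled lift with its derivative. -/
theorem base_wedge (l : B2 →L[ℂ] ℂ) (x : ℂ → B2) (w : ℂ → W) (hx : DifferentiableAt ℂ x 0)
    (hf : DifferentiableAt ℂ (fun z => (l (x z))⁻¹ • ((x z, w z) : B2 × W)) 0)
    (hl0 : l (x 0) ≠ 0) :
    wedge ((l (x 0))⁻¹ • ((x 0, w 0) : B2 × W)).1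
      (deriv (fun z => (l (x z))⁻¹ • ((x z, w z) : B2 × W)) 0).1 =
      (l (x 0))⁻¹ ^ 2 * wedge (x 0) (deriv x 0) := by
  have hXd : HasDerivAt x (deriv x 0) 0 := hx.hasDerivAt
  have hld : HasDerivAt (fun z => l (x z)) (l (deriv x 0)) 0 :=
    l.hasFDerivAt.comp_hasDerivAt 0 hXd
  have hli : HasDerivAt (fun z => (l (x z))⁻¹) (-l (deriv x 0) / l (x 0) ^ 2) 0 :=
    hld.fun_inv hl0
  have hbase : HasDerivAt (fun z => (l (x z))⁻¹ • x z)
      ((l (x 0))⁻¹ • deriv x 0 + (-l (deriv x 0) / l (x 0) ^ 2) • x 0) 0 :=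
    hli.fun_smul hXd
  have hfull := hf.hasDerivAt
  have hfst : HasDerivAt (fun z => (l (x z))⁻¹ • x z)
      (deriv (fun z => (l (x z))⁻¹ • ((x z, w z) : B2 × W)) 0).1 0 :=
    (ContinuousLinearMap.fst ℂ B2 W).hasFDerivAt.comp_hasDerivAt 0 hfull
  rw [hfst.unique hbase]
  exact wedge_comb _ _ _ _

/-- The neighbourhoods. -/
def nb (Q : Set (B2 × W)) (ε : ℝ) : Set (B2 × W) := {v | v.1 ≠ 0 ∧ ∃ q ∈ Q, ‖v - q‖ < ε * ‖q.1‖}

theorem nb_open (Q : Set (B2 × W)) (ε : ℝ) : IsOpen (nb Q ε) := by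
  have : nb Q ε = {v | v.1 ≠ 0} ∩ ⋃ q ∈ Q, ball q (ε * ‖q.1‖) := by
    ext v
    simp only [nb, mem_setOf_eq, mem_inter_iff, mem_iUnion, mem_ball, dist_eq_norm, exists_prop]
  rw [this]
  apply IsOpen.inter
  · exact isOpen_ne.preimage continuous_fst
  · exact isOpen_biUnion fun q _ => isOpen_ball

theorem nb_cone {Q : Set (B2 × W)} (hQ : IsCone Q) (ε : ℝ) : IsCone (nb Q ε) := by
  refine ⟨?_, fun v hv => hv.1⟩
  rintro c hc v ⟨hv, q, hq, h⟩
  refine ⟨?_, c • q, hQ.1 c hc q hq, ?_⟩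
  · simp only [Prod.smul_fst]
    exact smul_ne_zero hc hv
  · rw [← smul_sub, norm_smul, Prod.smul_fst, norm_smul]
    have : 0 < ‖c‖ := norm_pos_iff.2 hc
    nlinarith

theorem nb_sub {Q : Set (B2 × W)} (hQ : IsCone Q) {ε : ℝ} (hε : 0 < ε) : Q ⊆ nb Q ε := by
  intro q hq
  refine ⟨hQ.2 q hq, q, hq, ?_⟩
  rw [sub_self, norm_zero]
  exact mul_pos hε (norm_pos_iff.2 (hQ.2 q hq))

end R5

open R5

theorem limit_curve [FiniteDimensional ℂ W] {Q : Set (B2 × W)} (hQ : ClCone Q)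
    (hdisc : ∀ N : Set (B2 × W), IsOpen N → IsCone N → Q ⊆ N → ∀ R : ℝ,
      ∃ (X : ℂ → B2) (Z : ℂ → W), IsDisc N R X Z ∧
        (∀ z ∈ ball (0 : ℂ) R, sder X z ≤ 2) ∧ sder X 0 = 1) :
    ∃ v : ℂ → B2 × W, IsCurve v ∧ NonConst v ∧ ∀ z, v z ∈ Q := by
  obtain ⟨M₀, hM₀⟩ := hQ.bdd
  set M : ℝ := max M₀ 0 with hMdef
  have hM0 : 0 ≤ M := le_max_right _ _
  have hQM : ∀ v ∈ Q, ‖v.2‖ ≤ M * ‖v.1‖ := by
    intro v hv
    refine (hM₀ v hv).trans ?_
    exact mul_le_mul_of_nonneg_right (le_max_left _ _) (norm_nonneg _)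
  set ε : ℕ → ℝ := fun j => 1 / ((j : ℝ) + 2) with hε
  have hε0 : ∀ j, 0 < ε j := fun j => by simp only [hε]; positivity
  have hε1 : ∀ j, ε j ≤ 1 / 2 := by
    intro j
    simp only [hε]
    apply one_div_le_one_div_of_le (by norm_num)
    have : (0 : ℝ) ≤ j := Nat.cast_nonneg j
    linarith
  have hεlim : Tendsto ε atTop (𝓝 0) := by
    have h1 : Tendsto (fun n : ℕ => 1 / ((n : ℝ) + 1)) atTop (𝓝 0) :=
      tendsto_one_div_add_atTop_nhds_zero_nat
    have h2 := h1.comp (tendsto_add_atTop_nat 1)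
    refine h2.congr fun j => ?_
    simp only [hε, Function.comp]
    push_cast
    congr 1
    ring
  have hex : ∀ j : ℕ, ∃ (X : ℂ → B2) (Z : ℂ → W), IsDisc (nb Q (ε j)) j X Z ∧
      (∀ z ∈ ball (0 : ℂ) j, sder X z ≤ 2) ∧ sder X 0 = 1 := fun j =>
    hdisc _ (nb_open Q _) (nb_cone hQ.cone _) (nb_sub hQ.cone (hε0 j)) j
  choose X Z hD hs hs0 using hex
  -- properties of points of the neighbourhoods
  have hnb : ∀ (j : ℕ) (v : B2 × W), v ∈ nb Q (ε j) → ‖v.2‖ ≤ (2 * M + 1) * ‖v.1‖ ∧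
      ∃ q ∈ Q, ‖v - q‖ ≤ ε j * (2 * ‖v.1‖) := by
    rintro j v ⟨hv, q, hq, h⟩
    have h1 : ‖(v - q).1‖ ≤ ‖v - q‖ := norm_fst_le _
    have h2 : ‖(v - q).2‖ ≤ ‖v - q‖ := norm_snd_le _
    have h3 : ‖q.1‖ ≤ ‖v.1‖ + ‖(v - q).1‖ := by
      have e : q.1 = v.1 - (v - q).1 := by simp
      calc ‖q.1‖ = ‖v.1 - (v - q).1‖ := by rw [← e]
        _ ≤ _ := norm_sub_le _ _
    have h4 : ‖v.2‖ ≤ ‖q.2‖ + ‖(v - q).2‖ := by
      have e : v.2 = q.2 + (v - q).2 := by simp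
      calc ‖v.2‖ = ‖q.2 + (v - q).2‖ := by rw [← e]
        _ ≤ _ := norm_add_le _ _
    have h5 := hε1 j
    have h6 : ε j * ‖q.1‖ ≤ 1 / 2 * ‖q.1‖ := mul_le_mul_of_nonneg_right h5 (norm_nonneg _)
    have h7 : ‖q.1‖ ≤ 2 * ‖v.1‖ := by linarith
    have h8 := hQM q hq
    refine ⟨?_, q, hq, ?_⟩
    · have h9 : M * ‖q.1‖ ≤ M * (2 * ‖v.1‖) := mul_le_mul_of_nonneg_left h7 hM0
      nlinarith
    · exact h.le.trans (mul_le_mul_of_nonneg_left h7 (hε0 j).le)
  have hXne : ∀ j : ℕ, ∀ z ∈ ball (0 : ℂ) (j : ℝ), X j z ≠ 0 := fun j z hz => ((hD j).2.2 z hz).1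
  set U : Ultrafilter ℕ := hyperfilter ℕ with hU
  have hUat : (U : Filter ℕ) ≤ atTop := Nat.hyperfilter_le_atTop
  have hbig : ∀ R : ℝ, ∀ᶠ j : ℕ in (U : Filter ℕ), R ≤ (j : ℝ) := fun R =>
    hUat (tendsto_natCast_atTop_atTop.eventually_ge_atTop R)
  -- the curve
  have hvex : ∀ z : ℂ, ∃ x : B2 × W,
      Tendsto (fun j => ((‖X j z‖ : ℂ))⁻¹ • (X j z, Z j z)) U (𝓝 x) := by
    intro z
    apply ulim U _ (2 * M + 1)
    filter_upwards [hbig (‖z‖ + 1)] with j hj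
    have hz : z ∈ ball (0 : ℂ) j := by rw [mem_ball_zero_iff]; linarith
    have h1 := (hnb j _ ((hD j).2.2 z hz)).1
    have h2 : 0 < ‖X j z‖ := norm_pos_iff.2 (hXne j z hz)
    rw [norm_smul, norm_inv, Complex.norm_real, norm_norm, Prod.norm_def]
    have h3 : max ‖(X j z, Z j z).1‖ ‖(X j z, Z j z).2‖ ≤ (2 * M + 1) * ‖X j z‖ := by
      apply max_le
      · simp only
        nlinarith
      · exact h1
    calc ‖X j z‖⁻¹ * max ‖(X j z, Z j z).1‖ ‖(X j z, Z j z).2‖ ≤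
          ‖X j z‖⁻¹ * ((2 * M + 1) * ‖X j z‖) :=
            mul_le_mul_of_nonneg_left h3 (inv_nonneg.2 h2.le)
      _ = 2 * M + 1 := by field_simp
  choose v hv using hvex
  -- norm of the base component
  have hv1 : ∀ z, ‖(v z).1‖ = 1 := by
    intro z
    have h1 : Tendsto (fun j => ‖(((‖X j z‖ : ℂ))⁻¹ • (X j z, Z j z)).1‖) U (𝓝 ‖(v z).1‖) :=
      ((continuous_norm.comp continuous_fst).tendsto _).comp (hv z)
    have h2 : Tendsto (fun j => ‖(((‖X j z‖ : ℂ))⁻¹ • (X j z, Z j z)).1‖) U (𝓝 1) := by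
      apply tendsto_const_nhds.congr'
      filter_upwards [hbig (‖z‖ + 1)] with j hj
      have hz : z ∈ ball (0 : ℂ) j := by rw [mem_ball_zero_iff]; linarith
      have h2 : 0 < ‖X j z‖ := norm_pos_iff.2 (hXne j z hz)
      rw [Prod.smul_fst, norm_smul, norm_inv, Complex.norm_real, norm_norm]
      field_simp
    exact tendsto_nhds_unique h1 h2
  -- the curve lies in Q
  have hvQ : ∀ z, v z ∈ Q := by
    intro z
    apply hQ.cl
    · rw [Metric.mem_closure_iff]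
      intro δ hδ
      have h1 : ∀ᶠ j in (U : Filter ℕ), dist (((‖X j z‖ : ℂ))⁻¹ • (X j z, Z j z)) (v z) < δ / 2 :=
        Metric.tendsto_nhds.1 (hv z) (δ / 2) (by positivity)
      have h2 : ∀ᶠ j in (U : Filter ℕ), ε j < δ / 4 := by
        have := (hεlim.mono_left hUat).eventually (gt_mem_nhds (show (0 : ℝ) < δ / 4 by positivity))
        exact this
      obtain ⟨j, hj1, hj2, hj3⟩ := (h1.and (h2.and (hbig (‖z‖ + 1)))).exists
      have hz : z ∈ ball (0 : ℂ) j := by rw [mem_ball_zero_iff]; linarith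
      have h3 : 0 < ‖X j z‖ := norm_pos_iff.2 (hXne j z hz)
      have h4 : ((‖X j z‖ : ℂ))⁻¹ ≠ 0 := by
        apply inv_ne_zero
        exact_mod_cast h3.ne'
      have h5 := (nb_cone hQ.cone (ε j)).1 _ h4 _ ((hD j).2.2 z hz)
      obtain ⟨q, hq, hq'⟩ := (hnb j _ h5).2
      refine ⟨q, hq, ?_⟩
      have h6 : ‖(((‖X j z‖ : ℂ))⁻¹ • (X j z, Z j z)).1‖ = 1 := by
        rw [Prod.smul_fst, norm_smul, norm_inv, Complex.norm_real, norm_norm]
        field_simp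
      rw [h6] at hq'
      calc dist (v z) q ≤ dist (v z) (((‖X j z‖ : ℂ))⁻¹ • (X j z, Z j z)) +
            dist (((‖X j z‖ : ℂ))⁻¹ • (X j z, Z j z)) q := dist_triangle _ _ _
        _ < δ / 2 + δ / 2 := by
            apply add_lt_add_of_lt_of_le
            · rw [dist_comm]; exact hj1
            · rw [dist_eq_norm]; linarith
        _ = δ := by ring
    · intro h0
      have := hv1 z
      rw [h0, norm_zero] at this
      exact zero_ne_one this
  -- charts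
  have hchart : ∀ z₀ : ℂ, ∃ l : B2 →L[ℂ] ℂ, (∀ x : B2, ‖l x‖ ≤ ‖x‖) ∧
      ∀ᶠ j in (U : Filter ℕ), DifferentiableOn ℂ (X j) (ball z₀ (1 / 8)) ∧
      DifferentiableOn ℂ (Z j) (ball z₀ (1 / 8)) ∧ ∀ z ∈ ball z₀ (1 / 8), X j z ≠ 0 ∧
        ‖X j z‖ ≤ 2 * ‖l (X j z)‖ ∧ ‖Z j z‖ ≤ (2 * M + 1) * ‖X j z‖ := by
    intro z₀
    have hin : ∀ j : ℕ, ‖z₀‖ + 1 ≤ (j : ℝ) → ball z₀ (1 / 8) ⊆ ball (0 : ℂ) j := by
      intro j hj z hz
      rw [mem_ball_zero_iff]
      rw [mem_ball, dist_eq_norm] at hz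
      calc ‖z‖ = ‖(z - z₀) + z₀‖ := by simp
        _ ≤ ‖z - z₀‖ + ‖z₀‖ := norm_add_le _ _
        _ < j := by linarith
    have hbase : ∀ j : ℕ, ‖z₀‖ + 1 ≤ (j : ℝ) → DifferentiableOn ℂ (X j) (ball z₀ (1 / 8)) ∧
        DifferentiableOn ℂ (Z j) (ball z₀ (1 / 8)) ∧ ∀ z ∈ ball z₀ (1 / 8), X j z ≠ 0 ∧
          ‖Z j z‖ ≤ (2 * M + 1) * ‖X j z‖ := by
      intro j hj
      refine ⟨(hD j).1.mono (hin j hj), (hD j).2.1.mono (hin j hj), fun z hz => ?_⟩
      exact ⟨hXne j z (hin j hj hz), (hnb j _ ((hD j).2.2 z (hin j hj hz))).1⟩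
    rcases U.em (fun j => ‖(X j z₀).2‖ ≤ ‖(X j z₀).1‖) with hc | hc
    · refine ⟨ContinuousLinearMap.fst ℂ ℂ ℂ, fun x => norm_fst_le x, ?_⟩
      filter_upwards [hc, hbig (‖z₀‖ + 1)] with j hj hj'
      obtain ⟨h1, h2, h3⟩ := hbase j hj'
      refine ⟨h1, h2, fun z hz => ⟨(h3 z hz).1, ?_, (h3 z hz).2⟩⟩
      apply chart_one (hD j).1 (hXne j) (hs j) (hin j hj' (mem_ball_self (by norm_num)))
        (hin j hj' hz) _ hj
      rw [mem_ball, dist_eq_norm] at hz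
      exact hz.le
    · refine ⟨ContinuousLinearMap.snd ℂ ℂ ℂ, fun x => norm_snd_le x, ?_⟩
      filter_upwards [hc, hbig (‖z₀‖ + 1)] with j hj hj'
      obtain ⟨h1, h2, h3⟩ := hbase j hj'
      refine ⟨h1, h2, fun z hz => ⟨(h3 z hz).1, ?_, (h3 z hz).2⟩⟩
      apply chart_two (hD j).1 (hXne j) (hs j) (hin j hj' (mem_ball_self (by norm_num)))
        (hin j hj' hz) _ (not_le.1 hj).le
      rw [mem_ball, dist_eq_norm] at hz
      exact hz.le
  -- comparison of the curve with local lifts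
  have hcomp : ∀ (z₀ : ℂ) (l : B2 →L[ℂ] ℂ), (∀ x : B2, ‖l x‖ ≤ ‖x‖) →
      (∀ᶠ j in (U : Filter ℕ), ∀ z ∈ ball z₀ (1 / 8), X j z ≠ 0 ∧
        ‖X j z‖ ≤ 2 * ‖l (X j z)‖) → ∀ G : ℂ → B2 × W,
      (∀ z ∈ ball z₀ (1 / 8), Tendsto (fun j => (l (X j z))⁻¹ • (X j z, Z j z)) U (𝓝 (G z))) →
      ∀ z ∈ ball z₀ (1 / 8), ∃ c : ℂ, c ≠ 0 ∧ v z = c • G z := by
    intro z₀ l hl hj G hG z hz
    obtain ⟨c, hc⟩ := ulim U (fun j => ((‖X j z‖ : ℂ))⁻¹ * l (X j z)) 1 (by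
      filter_upwards [hj] with j hj
      rw [norm_mul, norm_inv, Complex.norm_real, norm_norm]
      have h1 : 0 < ‖X j z‖ := norm_pos_iff.2 (hj z hz).1
      calc ‖X j z‖⁻¹ * ‖l (X j z)‖ ≤ ‖X j z‖⁻¹ * ‖X j z‖ :=
            mul_le_mul_of_nonneg_left (hl _) (inv_nonneg.2 h1.le)
        _ = 1 := inv_mul_cancel₀ h1.ne')
    refine ⟨c, ?_, ?_⟩
    · have h2 : 1 / 2 ≤ ‖c‖ := by
        apply ge_of_tendsto ((continuous_norm.tendsto _).comp hc)
        filter_upwards [hj] with j hj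
        simp only [Function.comp]
        rw [norm_mul, norm_inv, Complex.norm_real, norm_norm]
        have h1 : 0 < ‖X j z‖ := norm_pos_iff.2 (hj z hz).1
        have h3 := (hj z hz).2
        rw [← div_eq_inv_mul, le_div_iff₀ h1]
        linarith
      intro h0
      rw [h0, norm_zero] at h2
      norm_num at h2
    · have h3 : Tendsto (fun j => (((‖X j z‖ : ℂ))⁻¹ * l (X j z)) •
          ((l (X j z))⁻¹ • (X j z, Z j z))) U (𝓝 (c • G z)) := hc.smul (hG z hz)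
      have h4 : Tendsto (fun j => ((‖X j z‖ : ℂ))⁻¹ • (X j z, Z j z)) U (𝓝 (c • G z)) := by
        apply h3.congr'
        filter_upwards [hj] with j hj
        have h5 : l (X j z) ≠ 0 := by
          intro h0
          have h6 := (hj z hz).2
          rw [h0, norm_zero, mul_zero] at h6
          exact (hj z hz).1 (norm_le_zero_iff.1 h6)
        rw [smul_smul, mul_assoc, mul_inv_cancel₀ h5, mul_one]
      exact tendsto_nhds_unique (hv z) h4
  refine ⟨v, ?_, ?_, hvQ⟩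
  · -- IsCurve
    intro z₀
    obtain ⟨l, hl, hj⟩ := hchart z₀
    obtain ⟨G, hG, hun, hdf, hl1⟩ := local_lift U X Z l z₀ (1 / 8) (2 * M + 1) (by linarith) hj
    have hGd : DifferentiableOn ℂ G (ball z₀ (1 / 8)) :=
      hun.differentiableOn hdf isOpen_ball
    refine ⟨1 / 8, by norm_num, fun z => (G z).1, fun z => (G z).2, ?_, ?_, ?_⟩
    · exact hGd.fst
    · exact hGd.continuousOn.snd
    · intro z hz
      refine ⟨?_, hcomp z₀ l hl (hj.mono fun j h z hz => ⟨(h.2.2 z hz).1, (h.2.2 z hz).2.1⟩)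
        G hG z hz⟩
      intro h0
      have h0' : (G z).1 = 0 := h0
      have := hl1 z hz
      rw [h0', map_zero] at this
      exact zero_ne_one this
  · -- NonConst
    by_contra hcon
    unfold NonConst at hcon
    push Not at hcon
    obtain ⟨l, hl, hj⟩ := hchart 0
    obtain ⟨G, hG, hun, hdf, hl1⟩ := local_lift U X Z l 0 (1 / 8) (2 * M + 1) (by linarith) hj
    have hGd : DifferentiableOn ℂ G (ball 0 (1 / 8)) :=
      hun.differentiableOn hdf isOpen_ball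
    have h0 : (0 : ℂ) ∈ ball (0 : ℂ) (1 / 8) := mem_ball_self (by norm_num)
    have hcmp := hcomp 0 l hl (hj.mono fun j h z hz => ⟨(h.2.2 z hz).1, (h.2.2 z hz).2.1⟩) G hG
    -- the base component is constant
    have hconst : ∀ z ∈ ball (0 : ℂ) (1 / 8), (G z).1 = (G 0).1 := by
      intro z hz
      obtain ⟨c, hc, hcv⟩ := hcmp z hz
      obtain ⟨c', hc', hcv'⟩ := hcmp 0 h0
      have h1 := hcon z 0
      rw [hcv, hcv'] at h1
      simp only [Prod.smul_fst] at h1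
      have h2 : wedge (G z).1 (G 0).1 = 0 := by
        have e : wedge (c • (G z).1) (c' • (G 0).1) = c * c' * wedge (G z).1 (G 0).1 := by
          simp [wedge]; ring
        rw [e] at h1
        have : c * c' ≠ 0 := mul_ne_zero hc hc'
        exact (mul_eq_zero.1 h1).resolve_left this
      have h3 := hl1 z hz
      have h4 := hl1 0 h0
      -- (G z).1 and (G 0).1 are parallel with equal value of l
      set x := (G z).1 with hx
      set y := (G 0).1 with hy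
      have h5 : y.1 • x = x.1 • y := by
        ext
        · simp [mul_comm]
        · simp only [Prod.smul_snd, smul_eq_mul]
          unfold wedge at h2
          linear_combination -h2
      have h6 : y.2 • x = x.2 • y := by
        ext
        · simp only [Prod.smul_fst, smul_eq_mul]
          unfold wedge at h2
          linear_combination h2
        · simp [mul_comm]
      have h7 : y.1 = x.1 := by
        have := congrArg l h5
        rw [map_smul, map_smul, h3, h4] at this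
        simpa using this
      have h8 : y.2 = x.2 := by
        have := congrArg l h6
        rw [map_smul, map_smul, h3, h4] at this
        simpa using this
      exact Prod.ext h7.symm h8.symm
    have hder0 : deriv (fun z => (G z).1) 0 = 0 := by
      have : (fun z => (G z).1) =ᶠ[𝓝 0] fun _ => (G 0).1 := by
        filter_upwards [isOpen_ball.mem_nhds h0] with z hz
        exact hconst z hz
      rw [this.deriv_eq, deriv_const]
    have hdG : HasDerivAt G (deriv G 0) 0 :=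
      (hGd.differentiableAt (isOpen_ball.mem_nhds h0)).hasDerivAt
    have hdG1 : (deriv G 0).1 = 0 := by
      have h1 : HasDerivAt (fun z => (G z).1) (deriv G 0).1 0 := by
        have := (ContinuousLinearMap.fst ℂ B2 W).hasFDerivAt.comp_hasDerivAt 0 hdG
        simpa [Function.comp_def] using this
      rw [← h1.deriv, hder0]
    -- convergence of the derivatives
    have hderlim := hun.deriv hdf isOpen_ball
    have hderpt : Tendsto (fun j => deriv (fun z => (l (X j z))⁻¹ • (X j z, Z j z)) 0) U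
        (𝓝 (deriv G 0)) := by
      have := hderlim.tendsto_at h0
      exact this
    have hw : Tendsto (fun j => wedge ((l (X j 0))⁻¹ • (X j 0, Z j 0)).1
        (deriv (fun z => (l (X j z))⁻¹ • (X j z, Z j z)) 0).1) U
        (𝓝 (wedge (G 0).1 (deriv G 0).1)) := tendsto_wedge (hG 0 h0) hderpt
    rw [hdG1] at hw
    have hw0 : wedge (G 0).1 0 = 0 := by simp [wedge]
    rw [hw0] at hw
    have hge : ∀ᶠ j in (U : Filter ℕ), 1 ≤ ‖wedge ((l (X j 0))⁻¹ • (X j 0, Z j 0)).1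
        (deriv (fun z => (l (X j z))⁻¹ • (X j z, Z j z)) 0).1‖ := by
      filter_upwards [hj, hdf] with j hj hdfj
      obtain ⟨hX, hZ, hall⟩ := hj
      obtain ⟨hne, h2l, -⟩ := hall 0 h0
      have hl0 : l (X j 0) ≠ 0 := by
        intro h00
        rw [h00, norm_zero, mul_zero] at h2l
        exact hne (norm_le_zero_iff.1 h2l)
      rw [base_wedge l (X j) (Z j) (hX.differentiableAt (isOpen_ball.mem_nhds h0))
        (hdfj.differentiableAt (isOpen_ball.mem_nhds h0)) hl0]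
      rw [norm_mul, norm_pow, norm_inv]
      have hs1 := hs0 j
      unfold sder at hs1
      have hnp := nsq_pos hne
      rw [div_eq_one_iff_eq hnp.ne'] at hs1
      rw [hs1]
      have hlp : 0 < ‖l (X j 0)‖ := norm_pos_iff.2 hl0
      rw [inv_pow, ← div_eq_inv_mul, le_div_iff₀ (pow_pos hlp 2), one_mul]
      have h1 : ‖l (X j 0)‖ ≤ ‖X j 0‖ := hl _
      have h2 : ‖X j 0‖ ^ 2 ≤ nsq (X j 0) := by
        unfold nsq
        rw [Prod.norm_def]
        rcases max_cases ‖(X j 0).1‖ ‖(X j 0).2‖ with h | h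
        · rw [h.1]; nlinarith [sq_nonneg ‖(X j 0).2‖]
        · rw [h.1]; nlinarith [sq_nonneg ‖(X j 0).1‖]
      exact (pow_le_pow_left₀ hlp.le h1 2).trans h2
    have hfin := ge_of_tendsto hw.norm hge
    rw [norm_zero] at hfin
    norm_num at hfin

end MF7
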