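import Pool.Agent.Lib.MF7_Base

/-!
# R5: the limit curve
-/

set_option autoImplicit false

open Set Metric Filter Topology

namespace MF7

namespace R5

/-- Locally uniform convergence of bounded holomorphic functions which converge pointwise. -/
theorem unif {V : Type*} [NormedAddCommGroup V] [NormedSpace ℂ V] [CompleteSpace V]
    {l : Filter ℕ} [l.NeBot] {f : ℕ → ℂ → V} {g : ℂ → V} {z₀ : ℂ} {r M : ℝ}
    (hf : ∀ᶠ j in l, DifferentiableOn ℂ (f j) (ball z₀ r) ∧ ∀ z ∈ ball z₀ r, ‖f j z‖ ≤ M)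
    (hg : ∀ z ∈ ball z₀ r, Tendsto (fun j => f j z) l (𝓝 (g z))) :
    TendstoLocallyUniformlyOn f g l (ball z₀ r) := by
  rw [Metric.tendstoLocallyUniformlyOn_iff]
  intro ε hε x hx
  have hxr : dist x z₀ < r := hx
  set δ : ℝ := (r - dist x z₀) / 2 with hδ
  have hδ0 : 0 < δ := by rw [hδ]; linarith
  -- Lipschitz bounds
  have hM0 : 0 ≤ M := by
    obtain ⟨j, hj⟩ := hf.exists
    exact (norm_nonneg _).trans (hj.2 x hx)
  have hL : ∀ᶠ j in l, ∀ y ∈ ball x δ, ‖f j y - f j x‖ ≤ M / δ * ‖y - x‖ := by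
    filter_upwards [hf] with j hj y hy
    have hcb : ∀ c ∈ ball x δ, closedBall c δ ⊆ ball z₀ r := by
      intro c hc w hw
      rw [mem_ball] at hc ⊢
      rw [mem_closedBall] at hw
      calc dist w z₀ ≤ dist w c + dist c x + dist x z₀ := dist_triangle4 _ _ _ _
        _ < δ + δ + dist x z₀ := by linarith
        _ = r := by rw [hδ]; ring
    have hder : ∀ c ∈ ball x δ, ‖deriv (f j) c‖ ≤ M / δ := by
      intro c hc
      apply Complex.norm_deriv_le_of_forall_mem_sphere_norm_le hδ0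
      · apply DifferentiableOn.diffContOnCl
        rw [closure_ball _ hδ0.ne']
        exact hj.1.mono (hcb c hc)
      · intro w hw
        exact hj.2 w (hcb c hc (sphere_subset_closedBall hw))
    have hdiff : ∀ c ∈ ball x δ, DifferentiableAt ℂ (f j) c := by
      intro c hc
      apply hj.1.differentiableAt
      apply isOpen_ball.mem_nhds
      exact hcb c hc (mem_closedBall_self hδ0.le)
    exact (convex_ball x δ).norm_image_sub_le_of_norm_deriv_le hdiff hder
      (mem_ball_self hδ0) hy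
  have hsub : ball x δ ⊆ ball z₀ r := by
    intro w hw
    rw [mem_ball] at hw ⊢
    calc dist w z₀ ≤ dist w x + dist x z₀ := dist_triangle _ _ _
      _ < δ + dist x z₀ := by linarith
      _ ≤ r := by rw [hδ]; linarith
  have hgL : ∀ y ∈ ball x δ, ‖g y - g x‖ ≤ M / δ * ‖y - x‖ := by
    intro y hy
    apply le_of_tendsto ((hg y (hsub hy)).sub (hg x hx)).norm
    filter_upwards [hL] with j hj
    exact hj y hy
  set ρ : ℝ := min δ (ε / (3 * (M / δ + 1))) with hρ
  have hK : 0 < M / δ + 1 := by positivity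
  have hρ0 : 0 < ρ := lt_min hδ0 (by positivity)
  refine ⟨ball x ρ, mem_nhdsWithin_of_mem_nhds (ball_mem_nhds x hρ0), ?_⟩
  have hx' : ∀ᶠ j in l, dist (f j x) (g x) < ε / 3 :=
    (Metric.tendsto_nhds.1 (hg x hx)) (ε / 3) (by positivity)
  filter_upwards [hL, hx'] with j hj1 hj2 y hy
  have hyδ : y ∈ ball x δ := ball_subset_ball (min_le_left _ _) hy
  have h1 := hgL y hyδ
  have h2 := hj1 y hyδ
  have h3 : M / δ * ‖y - x‖ < ε / 3 := by
    have hy' : ‖y - x‖ < ρ := by rwa [mem_ball, dist_eq_norm] at hy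
    have h4 : ‖y - x‖ < ε / (3 * (M / δ + 1)) := hy'.trans_le (min_le_right _ _)
    have h5 : (M / δ + 1) * ‖y - x‖ < (M / δ + 1) * (ε / (3 * (M / δ + 1))) :=
      mul_lt_mul_of_pos_left h4 hK
    have h6 : (M / δ + 1) * (ε / (3 * (M / δ + 1))) = ε / 3 := by field_simp
    have h7 : 0 ≤ ‖y - x‖ := norm_nonneg _
    nlinarith
  have e : g y - f j y = (g y - g x) + (g x - f j x) + (f j x - f j y) := by abel
  rw [dist_eq_norm, e]
  have h8 : ‖g x - f j x‖ < ε / 3 := by rw [← dist_eq_norm, dist_comm]; exact hj2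
  have h9 : ‖f j x - f j y‖ < ε / 3 := by rw [norm_sub_rev]; linarith
  calc ‖(g y - g x) + (g x - f j x) + (f j x - f j y)‖
      ≤ ‖(g y - g x) + (g x - f j x)‖ + ‖f j x - f j y‖ := norm_add_le _ _
    _ ≤ ‖g y - g x‖ + ‖g x - f j x‖ + ‖f j x - f j y‖ := by
        gcongr; exact norm_add_le _ _
    _ < ε := by linarith

/-- Bounded sequences converge along ultrafilters. -/
theorem ulim {V : Type*} [NormedAddCommGroup V] [NormedSpace ℂ V] [FiniteDimensional ℂ V]
    (U : Ultrafilter ℕ) (a : ℕ → V) (M : ℝ) (h : ∀ᶠ j in (U : Filter ℕ), ‖a j‖ ≤ M) :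
    ∃ x, Tendsto a U (𝓝 x) := by
  have : ProperSpace V := FiniteDimensional.proper ℂ V
  have hc : IsCompact (closedBall (0 : V) M) := isCompact_closedBall 0 M
  have hm : closedBall (0 : V) M ∈ U.map a := by
    rw [Ultrafilter.mem_map]
    filter_upwards [h] with j hj
    simpa using hj
  obtain ⟨x, -, hx⟩ := hc.ultrafilter_le_nhds' (U.map a) hm
  exact ⟨x, hx⟩

theorem wedge_smul_self (lam : ℂ) (x : B2) (y : B2) : wedge (lam • x) y = lam * wedge x y := by
  simp [wedge]; ring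

/-- The square of the sine is Lipschitz on discs with bounded spherical derivative. -/
theorem chart_lip {X : ℂ → B2} {R : ℝ} (hX : DifferentiableOn ℂ X (ball 0 R))
    (hne : ∀ z ∈ ball (0 : ℂ) R, X z ≠ 0) (hs : ∀ z ∈ ball (0 : ℂ) R, sder X z ≤ 2) {a b : ℂ}
    (ha : a ∈ ball (0 : ℂ) R) (hb : b ∈ ball (0 : ℂ) R) :
    |‖(X b).1‖ ^ 2 / nsq (X b) - ‖(X a).1‖ ^ 2 / nsq (X a)| ≤ 2 * ‖b - a‖ := by
  set γ : ℝ → ℂ := fun t => a + t * (b - a) with hγ
  have hγd : ∀ t, HasDerivAt γ (b - a) t := by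
    intro t
    have h1 : HasDerivAt (fun t : ℝ => (t : ℂ)) 1 t := Complex.ofRealCLM.hasDerivAt
    have h2 := (h1.mul_const (b - a)).const_add a
    rw [one_mul] at h2
    exact h2
  have hγb : ∀ t ∈ Icc (0 : ℝ) 1, γ t ∈ ball (0 : ℂ) R := by
    intro t ht
    have h := (convex_ball (0 : ℂ) R) ha hb (sub_nonneg.2 ht.2) ht.1 (by ring)
    convert h using 1
    simp only [hγ, Complex.real_smul]
    push_cast
    ring
  set x : ℝ → ℂ := fun t => (X (γ t)).1 with hx
  set y : ℝ → ℂ := fun t => (X (γ t)).2 with hy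
  set x' : ℝ → ℂ := fun t => (b - a) * (deriv X (γ t)).1 with hx'
  set y' : ℝ → ℂ := fun t => (b - a) * (deriv X (γ t)).2 with hy'
  have hXd : ∀ t ∈ Icc (0 : ℝ) 1, HasDerivAt (fun t => X (γ t)) ((b - a) • deriv X (γ t)) t := by
    intro t ht
    have h1 : HasDerivAt X (deriv X (γ t)) (γ t) :=
      (hX.differentiableAt (isOpen_ball.mem_nhds (hγb t ht))).hasDerivAt
    exact h1.scomp t (hγd t)
  have hxd : ∀ t ∈ Icc (0 : ℝ) 1, HasDerivAt x (x' t) t := by
    intro t ht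
    have := (ContinuousLinearMap.fst ℝ ℂ ℂ).hasFDerivAt.comp_hasDerivAt t (hXd t ht)
    simpa [hx, hx', Function.comp_def] using this
  have hyd : ∀ t ∈ Icc (0 : ℝ) 1, HasDerivAt y (y' t) t := by
    intro t ht
    have := (ContinuousLinearMap.snd ℝ ℂ ℂ).hasFDerivAt.comp_hasDerivAt t (hXd t ht)
    simpa [hy, hy', Function.comp_def] using this
  have hcx : ∀ t ∈ Icc (0 : ℝ) 1,
      HasDerivAt (fun t => (starRingEnd ℂ) (x t)) ((starRingEnd ℂ) (x' t)) t := by
    intro t ht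
    have := (Complex.conjCLE.toContinuousLinearMap).hasFDerivAt.comp_hasDerivAt t (hxd t ht)
    simpa [Function.comp_def] using this
  have hcy : ∀ t ∈ Icc (0 : ℝ) 1,
      HasDerivAt (fun t => (starRingEnd ℂ) (y t)) ((starRingEnd ℂ) (y' t)) t := by
    intro t ht
    have := (Complex.conjCLE.toContinuousLinearMap).hasFDerivAt.comp_hasDerivAt t (hyd t ht)
    simpa [Function.comp_def] using this
  set n : ℝ → ℂ := fun t => x t * (starRingEnd ℂ) (x t) + y t * (starRingEnd ℂ) (y t) with hn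
  have hnreal : ∀ t, n t = ((nsq (X (γ t)) : ℝ) : ℂ) := by
    intro t
    simp only [hn, hx, hy, nsq]
    rw [Complex.mul_conj, Complex.mul_conj, Complex.normSq_eq_norm_sq, Complex.normSq_eq_norm_sq]
    push_cast
    ring
  have hnpos : ∀ t ∈ Icc (0 : ℝ) 1, 0 < nsq (X (γ t)) := by
    intro t ht
    have h1 := hne _ (hγb t ht)
    unfold nsq
    by_contra hcon
    push Not at hcon
    have h2 : ‖(X (γ t)).1‖ ^ 2 = 0 := by nlinarith [sq_nonneg ‖(X (γ t)).1‖, sq_nonneg ‖(X (γ t)).2‖]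
    have h3 : ‖(X (γ t)).2‖ ^ 2 = 0 := by nlinarith [sq_nonneg ‖(X (γ t)).1‖, sq_nonneg ‖(X (γ t)).2‖]
    apply h1
    ext
    · simpa using h2
    · simpa using h3
  set P : ℝ → ℂ := fun t => x t * (starRingEnd ℂ) (x t) / n t with hP
  have hPd : ∀ t ∈ Icc (0 : ℝ) 1, HasDerivAt P
      (((x' t * (starRingEnd ℂ) (x t) + x t * (starRingEnd ℂ) (x' t)) * n t -
        x t * (starRingEnd ℂ) (x t) * ((x' t * (starRingEnd ℂ) (x t) + x t * (starRingEnd ℂ) (x' t)) +
          (y' t * (starRingEnd ℂ) (y t) + y t * (starRingEnd ℂ) (y' t)))) / n t ^ 2) t := by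
    intro t ht
    have h1 := (hxd t ht).mul (hcx t ht)
    have h2 := h1.add ((hyd t ht).mul (hcy t ht))
    have h3 : n t ≠ 0 := by
      rw [hnreal]
      exact_mod_cast (hnpos t ht).ne'
    exact h1.div h2 h3
  have hbound : ∀ t ∈ Icc (0 : ℝ) 1, ‖(((x' t * (starRingEnd ℂ) (x t) + x t * (starRingEnd ℂ) (x' t)) * n t -
        x t * (starRingEnd ℂ) (x t) * ((x' t * (starRingEnd ℂ) (x t) + x t * (starRingEnd ℂ) (x' t)) +
          (y' t * (starRingEnd ℂ) (y t) + y t * (starRingEnd ℂ) (y' t)))) / n t ^ 2)‖ ≤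
        2 * ‖b - a‖ := by
    intro t ht
    set w : ℂ := wedge (X (γ t)) (deriv X (γ t)) with hw
    have e1 : ((x' t * (starRingEnd ℂ) (x t) + x t * (starRingEnd ℂ) (x' t)) * n t -
        x t * (starRingEnd ℂ) (x t) * ((x' t * (starRingEnd ℂ) (x t) + x t * (starRingEnd ℂ) (x' t)) +
          (y' t * (starRingEnd ℂ) (y t) + y t * (starRingEnd ℂ) (y' t)))) =
        -((starRingEnd ℂ) (x t) * (starRingEnd ℂ) (y t) * ((b - a) * w)) -
          x t * y t * (starRingEnd ℂ) ((b - a) * w) := by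
      simp only [hn, hx, hy, hx', hy', hw, wedge, map_mul, map_sub]
      ring
    rw [norm_div, e1, norm_pow, hnreal, Complex.norm_real, Real.norm_of_nonneg (hnpos t ht).le]
    have h1 : ‖-((starRingEnd ℂ) (x t) * (starRingEnd ℂ) (y t) * ((b - a) * w)) -
          x t * y t * (starRingEnd ℂ) ((b - a) * w)‖ ≤ 2 * (‖x t‖ * ‖y t‖ * (‖b - a‖ * ‖w‖)) := by
      refine (norm_sub_le _ _).trans ?_
      rw [norm_neg]
      simp only [norm_mul, RCLike.norm_conj]
      linarith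
    have hs' := hs _ (hγb t ht)
    unfold sder at hs'
    have hnp := hnpos t ht
    rw [div_le_iff₀ hnp] at hs'
    have h2 : 2 * (‖x t‖ * ‖y t‖) ≤ nsq (X (γ t)) := by
      simp only [hx, hy, nsq]
      nlinarith [sq_nonneg (‖(X (γ t)).1‖ - ‖(X (γ t)).2‖)]
    rw [div_le_iff₀ (pow_pos hnp 2)]
    have h3 : 0 ≤ ‖b - a‖ := norm_nonneg _
    have h4 : 0 ≤ ‖w‖ := norm_nonneg _
    have h5 : 2 * (‖x t‖ * ‖y t‖ * (‖b - a‖ * ‖w‖)) ≤ nsq (X (γ t)) * (‖b - a‖ * ‖w‖) := by
      nlinarith [mul_nonneg h3 h4]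
    have h6 : nsq (X (γ t)) * (‖b - a‖ * ‖w‖) ≤ nsq (X (γ t)) * (‖b - a‖ * (2 * nsq (X (γ t)))) := by
      apply mul_le_mul_of_nonneg_left _ hnp.le
      exact mul_le_mul_of_nonneg_left hs' h3
    calc _ ≤ _ := h1
      _ ≤ _ := h5
      _ ≤ _ := h6
      _ = _ := by ring
  have hfin := norm_image_sub_le_of_norm_deriv_le_segment_01' (f := P)
    (fun t ht => (hPd t ht).hasDerivWithinAt) (fun t ht => hbound t (Ico_subset_Icc_self ht))
  have hP1 : P 1 = ((‖(X b).1‖ ^ 2 / nsq (X b) : ℝ) : ℂ) := by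
    have : γ 1 = b := by simp [hγ]
    simp only [hP]
    rw [hnreal]
    simp only [hx, this]
    rw [Complex.mul_conj, Complex.normSq_eq_norm_sq]
    push_cast
    ring
  have hP0 : P 0 = ((‖(X a).1‖ ^ 2 / nsq (X a) : ℝ) : ℂ) := by
    have : γ 0 = a := by simp [hγ]
    simp only [hP]
    rw [hnreal]
    simp only [hx, this]
    rw [Complex.mul_conj, Complex.normSq_eq_norm_sq]
    push_cast
    ring
  rw [hP1, hP0, ← Complex.ofReal_sub, Complex.norm_real] at hfin
  exact hfin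

end R5

end MF7
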