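import Pool.Agent.Lib.MF7_Base

/-!
# MF7, row R6: the image of a curve (helper44)
-/

set_option autoImplicit false

open Set Metric Filter Topology

namespace MF7

namespace R6

theorem wedge_perp (x : B2) : wedge x (perp x) = ((‖x.1‖ ^ 2 + ‖x.2‖ ^ 2 : ℝ) : ℂ) := by
  simp only [wedge, perp]
  push_cast
  rw [← Complex.mul_conj', ← Complex.mul_conj']
  ring

theorem wedge_perp_ne {x : B2} (hx : x ≠ 0) : wedge x (perp x) ≠ 0 := by
  rw [wedge_perp]
  have h : ‖x.1‖ ^ 2 + ‖x.2‖ ^ 2 ≠ 0 := by
    intro h0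
    have h1 : ‖x.1‖ ^ 2 = 0 := by nlinarith [sq_nonneg ‖x.1‖, sq_nonneg ‖x.2‖]
    have h2 : ‖x.2‖ ^ 2 = 0 := by nlinarith [sq_nonneg ‖x.1‖, sq_nonneg ‖x.2‖]
    exact hx (Prod.ext (by simpa using h1) (by simpa using h2))
  exact_mod_cast h

theorem wedge_decomp (x y z : B2) : wedge x y • z = wedge z y • x + wedge x z • y := by
  refine Prod.ext ?_ ?_
  · simp only [wedge, Prod.smul_fst, Prod.fst_add, smul_eq_mul]; ring
  · simp only [wedge, Prod.smul_snd, Prod.snd_add, smul_eq_mul]; ring

theorem wedge_smul_left (c : ℂ) (x y : B2) : wedge (c • x) y = c * wedge x y := by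
  simp only [wedge, Prod.smul_fst, Prod.smul_snd, smul_eq_mul]; ring

theorem wedge_smul_right (c : ℂ) (x y : B2) : wedge x (c • y) = c * wedge x y := by
  simp only [wedge, Prod.smul_fst, Prod.smul_snd, smul_eq_mul]; ring

theorem wedge_swap (x y : B2) : wedge x y = -wedge y x := by
  simp only [wedge]; ring

theorem wedge_add_left (x x' y : B2) : wedge (x + x') y = wedge x y + wedge x' y := by
  simp only [wedge, Prod.fst_add, Prod.snd_add]; ring

theorem wedge_self (x : B2) : wedge x x = 0 := by simp only [wedge]; ring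

/-- a vector orthogonal to two independent vectors is zero -/
theorem eq_zero_of_wedge {x y z : B2} (h : wedge x y ≠ 0) (h1 : wedge z x = 0)
    (h2 : wedge z y = 0) : z = 0 := by
  have h3 := wedge_decomp x y z
  rw [h2, wedge_swap x z, h1, neg_zero, zero_smul, zero_smul, add_zero] at h3
  exact (smul_eq_zero.mp h3).resolve_left h

theorem differentiable_wedge_left (y : B2) : Differentiable ℂ (fun x : B2 => wedge x y) := by
  unfold wedge; fun_prop

theorem differentiable_wedge_right (y : B2) : Differentiable ℂ (fun x : B2 => wedge y x) := by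
  unfold wedge; fun_prop

end R6

section
variable {W : Type} [NormedAddCommGroup W] [NormedSpace ℂ W] [FiniteDimensional ℂ W]

open R6

omit [FiniteDimensional ℂ W] in
theorem R6.curve (s : Sys W) {v : ℂ → B2 × W} (hv : IsCurve v) :
    IsCurve (fun z => s.F (v z)) := by
  intro z₀
  obtain ⟨r, hr, X, Z, hX, hZ, h⟩ := hv z₀
  refine ⟨r, hr, fun z => s.g (X z), fun z => s.h (X z, Z z), ?_, ?_, ?_⟩
  · exact s.g_diff.comp_differentiableOn hX
  · exact s.h_diff.continuous.comp_continuousOn (hX.continuousOn.prodMk hZ)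
  · intro z hz
    obtain ⟨hX0, c, hc, hvc⟩ := h z hz
    refine ⟨s.g_ne _ hX0, c ^ s.d, pow_ne_zero _ hc, ?_⟩
    change (s.g (v z).1, s.h (v z)) = _
    rw [hvc, s.h_hom]
    have h1 : (c • (X z, Z z)).1 = c • X z := rfl
    rw [h1, s.g_hom]
    rfl

omit [FiniteDimensional ℂ W] in
theorem R6.base_ne {v : ℂ → B2 × W} (hv : IsCurve v) (z : ℂ) : (v z).1 ≠ 0 := by
  obtain ⟨r, hr, X, Z, -, -, h⟩ := hv z
  obtain ⟨hX0, c, hc, hvc⟩ := h z (mem_ball_self hr)
  rw [hvc]
  exact smul_ne_zero hc hX0

omit [FiniteDimensional ℂ W] in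
/-- a homogeneous holomorphic function which vanishes on the base part of a nonconstant curve is
zero -/
theorem R6.vanish {v : ℂ → B2 × W} (hv : IsCurve v) (hn : NonConst v) (P : B2 → ℂ) (d : ℕ)
    (hP : Differentiable ℂ P) (hPh : ∀ (c : ℂ) (x : B2), P (c • x) = c ^ d * P x)
    (h0 : ∀ z, P (v z).1 = 0) (x : B2) : P x = 0 := by
  obtain ⟨z₀, z₁, hz⟩ := hn
  set x₀ : B2 := (v z₀).1 with hx₀
  have hx₀0 : x₀ ≠ 0 := R6.base_ne hv z₀
  set e : B2 := perp x₀ with he
  have hxe : wedge x₀ e ≠ 0 := wedge_perp_ne hx₀0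
  -- the set where the direction is that of `x₀`
  set A : Set ℂ := {z | wedge x₀ (v z).1 = 0} with hA
  have hA0 : z₀ ∈ A := wedge_self _
  have hA1 : z₁ ∉ A := hz
  have hlift : ∀ (a : ℂ) (r : ℝ) (X : ℂ → B2) (Z : ℂ → W) (z : ℂ),
      (X z ≠ 0 ∧ ∃ c : ℂ, c ≠ 0 ∧ v z = c • (X z, Z z)) → (z ∈ A ↔ wedge x₀ (X z) = 0) := by
    intro a r X Z z ⟨hX0, c, hc, hvc⟩
    have h1 : (v z).1 = c • X z := by rw [hvc]; rfl
    change wedge x₀ (v z).1 = 0 ↔ _
    rw [h1, wedge_smul_right, mul_eq_zero, or_iff_right hc]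
  -- a point of `A` which is not an interior point
  have hex : ∃ a ∈ A, a ∉ interior A := by
    by_contra hcon
    push Not at hcon
    have hopen : IsOpen A := by
      rw [← subset_interior_iff_isOpen]
      exact hcon
    have hclosed : IsClosed A := by
      rw [← isOpen_compl_iff, isOpen_iff_mem_nhds]
      intro z hzA
      obtain ⟨r, hr, X, Z, hX, -, h⟩ := hv z
      have hb : ball z r ∈ 𝓝 z := ball_mem_nhds z hr
      have hcont : ContinuousAt (fun z => wedge x₀ (X z)) z :=
        ((differentiable_wedge_right x₀).continuous.continuousAt).comp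
          (hX.continuousOn.continuousAt hb)
      have hne : wedge x₀ (X z) ≠ 0 := fun h1 =>
        hzA ((hlift z r X Z z (h z (mem_ball_self hr))).mpr h1)
      filter_upwards [hcont.eventually_ne hne, hb] with y hy hyb
      intro hyA
      exact hy ((hlift z r X Z y (h y hyb)).mp hyA)
    have := IsClopen.eq_univ ⟨hclosed, hopen⟩ ⟨z₀, hA0⟩
    rw [this] at hA1
    exact hA1 (mem_univ _)
  obtain ⟨a, haA, hai⟩ := hex
  obtain ⟨r, hr, X, Z, hX, -, h⟩ := hv a
  have hb : ball a r ∈ 𝓝 a := ball_mem_nhds a hr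
  have hXa : DifferentiableAt ℂ X a := hX.differentiableAt hb
  have haX : wedge x₀ (X a) = 0 := (hlift a r X Z a (h a (mem_ball_self hr))).mp haA
  -- the first coefficient does not vanish at `a`
  have hal : wedge (X a) e ≠ 0 := by
    intro h1
    have h2 : X a = 0 := eq_zero_of_wedge hxe (by rw [wedge_swap, haX, neg_zero]) h1
    exact (h a (mem_ball_self hr)).1 h2
  set Q : ℂ → ℂ := fun t => P (x₀ + t • e) with hQ
  have hQd : Differentiable ℂ Q := hP.comp (by fun_prop)
  have hdecomp : ∀ y : B2, wedge y e ≠ 0 →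
      P y = (wedge y e / wedge x₀ e) ^ d * Q (wedge x₀ y / wedge y e) := by
    intro y hy
    have h1 : y = (wedge y e / wedge x₀ e) • (x₀ + (wedge x₀ y / wedge y e) • e) := by
      have h2 := wedge_decomp x₀ e y
      rw [smul_add, smul_smul]
      have h3 : y = (wedge x₀ e)⁻¹ • (wedge x₀ e • y) := by
        rw [smul_smul, inv_mul_cancel₀ hxe, one_smul]
      rw [h2, smul_add, smul_smul, smul_smul] at h3
      conv_lhs => rw [h3]
      congr 2
      · field_simp
      · field_simp
    conv_lhs => rw [h1]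
    rw [hPh]
  have ht : ContinuousAt (fun z => wedge x₀ (X z) / wedge (X z) e) a := by
    refine ContinuousAt.div ?_ ?_ hal
    · exact ((differentiable_wedge_right x₀).continuous.continuousAt).comp hXa.continuousAt
    · exact ((differentiable_wedge_left e).continuous.continuousAt).comp hXa.continuousAt
  have hal' : ∀ᶠ z in 𝓝 a, wedge (X z) e ≠ 0 :=
    (((differentiable_wedge_left e).continuous.continuousAt).comp
      hXa.continuousAt).eventually_ne hal
  have hQa : AnalyticAt ℂ Q 0 := hQd.analyticAt 0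
  have hQ0 : ∀ᶠ t in 𝓝 (0 : ℂ), Q t = 0 := by
    rcases hQa.eventually_eq_zero_or_eventually_ne_zero with h1 | h1
    · exact h1
    · exfalso
      apply hai
      rw [mem_interior_iff_mem_nhds]
      rw [eventually_nhdsWithin_iff] at h1
      have h2 : Tendsto (fun z => wedge x₀ (X z) / wedge (X z) e) (𝓝 a) (𝓝 0) := by
        have := ht.tendsto
        rwa [haX, zero_div] at this
      filter_upwards [h2.eventually h1, hal', hb] with z hz1 hz2 hz3
      by_contra hzA
      have h3 : wedge x₀ (X z) ≠ 0 := fun h4 => hzA ((hlift a r X Z z (h z hz3)).mpr h4)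
      have h4 : wedge x₀ (X z) / wedge (X z) e ≠ 0 := div_ne_zero h3 hz2
      have h5 := hz1 h4
      apply h5
      obtain ⟨-, c, hc, hvc⟩ := h z hz3
      have h6 := h0 z
      have h7 : (v z).1 = c • X z := by rw [hvc]; rfl
      rw [h7, hPh, hdecomp _ hz2] at h6
      have h8 := (mul_eq_zero.mp h6).resolve_left (pow_ne_zero _ hc)
      exact (mul_eq_zero.mp h8).resolve_left (pow_ne_zero _ (div_ne_zero hz2 hxe))
  have hQall : ∀ t, Q t = 0 := by
    have h1 : AnalyticOnNhd ℂ Q univ := fun t _ => hQd.analyticAt t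
    have h2 := h1.eq_of_eventuallyEq (g := fun _ => (0 : ℂ)) (fun t _ => analyticAt_const) hQ0
    exact fun t => congrFun h2 t
  have hPne : ∀ y : B2, wedge y e ≠ 0 → P y = 0 := by
    intro y hy
    rw [hdecomp y hy, hQall, mul_zero]
  -- by continuity everywhere
  have h1 : Continuous (fun t : ℂ => P (x + t • x₀)) := hP.continuous.comp (by fun_prop)
  have h2 : (fun t : ℂ => P (x + t • x₀)) = fun _ => (0 : ℂ) := by
    refine Continuous.ext_on (dense_compl_singleton (-(wedge x e / wedge x₀ e))) h1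
      continuous_const fun t ht => ?_
    refine hPne _ fun h3 => ht ?_
    rw [wedge_add_left, wedge_smul_left] at h3
    rw [mem_singleton_iff]
    field_simp
    linear_combination h3
  have h3 := congrFun h2 0
  simpa using h3

theorem curve_image (s : Sys W) {v : ℂ → B2 × W} (hv : IsCurve v) (hn : NonConst v) :
    IsCurve (fun z => s.F (v z)) ∧ NonConst (fun z => s.F (v z)) := by
  refine ⟨R6.curve s hv, ?_⟩
  by_contra hcon
  unfold NonConst at hcon
  push Not at hcon
  set y₀ : B2 := s.g (v 0).1 with hy₀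
  have hy₀0 : y₀ ≠ 0 := s.g_ne _ (R6.base_ne hv 0)
  have hvan : ∀ x : B2, wedge (s.g x) y₀ = 0 := by
    refine R6.vanish hv hn (fun x => wedge (s.g x) y₀) s.d ?_ ?_ ?_
    · exact (differentiable_wedge_left y₀).comp s.g_diff
    · intro c x
      beta_reduce
      rw [s.g_hom, wedge_smul_left]
    · intro z
      exact hcon z 0
  have hp : wedge y₀ (perp y₀) ≠ 0 := wedge_perp_ne hy₀0
  have hp0 : perp y₀ ≠ 0 := by
    intro h1
    rw [h1] at hp
    exact hp (by simp [wedge])
  obtain ⟨x, hx, h1⟩ := s.g_surj _ hp0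
  exact s.g_ne x hx (eq_zero_of_wedge hp (hvan x) h1)

end

end MF7
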