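import Pool.Agent.Lib.MF7_Base

/-!
# MF7, row R7: Phragmen-Lindelof for one curve (helper1)
-/

set_option autoImplicit false

open Set Metric Filter Topology

namespace MF7

section
variable {W : Type} [NormedAddCommGroup W] [NormedSpace ℂ W]

namespace R7

/-- base coordinate of a curve -/
noncomputable def uu (v : ℂ → B2 × W) (z : ℂ) : ℂ := (v z).1.2 / (v z).1.1

/-- fibre coordinate of a curve -/
noncomputable def ww (v : ℂ → B2 × W) (z : ℂ) : W := (v z).1.1⁻¹ • (v z).2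

theorem lift_data {v : ℂ → B2 × W} (hv : IsCurve v) (z₀ : ℂ) :
    ∃ r : ℝ, 0 < r ∧ ∃ (X : ℂ → B2) (Z : ℂ → W),
      DifferentiableOn ℂ X (ball z₀ r) ∧ ContinuousOn Z (ball z₀ r) ∧
      ∀ z ∈ ball z₀ r, X z ≠ 0 ∧ ((v z).1.1 = 0 ↔ (X z).1 = 0) ∧ uu v z = (X z).2 / (X z).1 ∧
        ww v z = (X z).1⁻¹ • Z z := by
  obtain ⟨r, hr, X, Z, hX, hZ, h⟩ := hv z₀
  refine ⟨r, hr, X, Z, hX, hZ, fun z hz => ?_⟩
  obtain ⟨h0, c, hc, e⟩ := h z hz
  have e1 : (v z).1.1 = c * (X z).1 := by rw [e]; rfl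
  have e2 : (v z).1.2 = c * (X z).2 := by rw [e]; rfl
  have e3 : (v z).2 = c • Z z := by rw [e]; rfl
  refine ⟨h0, ?_, ?_, ?_⟩
  · rw [e1]
    simp [hc]
  · unfold uu
    rw [e1, e2, mul_div_mul_left _ _ hc]
  · unfold ww
    rw [e1, e3, smul_smul, mul_inv, mul_comm c⁻¹, mul_assoc, inv_mul_cancel₀ hc, mul_one]

theorem local_reg {v : ℂ → B2 × W} (hv : IsCurve v) {z₀ : ℂ} (h0 : (v z₀).1.1 ≠ 0) :
    DifferentiableAt ℂ (uu v) z₀ ∧ ContinuousAt (ww v) z₀ ∧ ∀ᶠ z in 𝓝 z₀, (v z).1.1 ≠ 0 := by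
  obtain ⟨r, hr, X, Z, hX, hZ, h⟩ := lift_data hv z₀
  have hb : ball z₀ r ∈ 𝓝 z₀ := ball_mem_nhds z₀ hr
  have hX0 : DifferentiableAt ℂ X z₀ := hX.differentiableAt hb
  have hZ0 : ContinuousAt Z z₀ := hZ.continuousAt hb
  have h1 : (X z₀).1 ≠ 0 := fun e => h0 (((h z₀ (mem_ball_self hr)).2.1).2 e)
  have hx1 : DifferentiableAt ℂ (fun z => (X z).1) z₀ := hX0.fst
  have hx2 : DifferentiableAt ℂ (fun z => (X z).2) z₀ := hX0.snd
  refine ⟨?_, ?_, ?_⟩
  · refine DifferentiableAt.congr_of_eventuallyEq (hx2.div hx1 h1) ?_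
    filter_upwards [hb] with z hz
    exact (h z hz).2.2.1
  · have : ContinuousAt (fun z => (X z).1⁻¹ • Z z) z₀ :=
      (hx1.continuousAt.inv₀ h1).smul hZ0
    refine this.congr ?_
    filter_upwards [hb] with z hz
    exact ((h z hz).2.2.2).symm
  · filter_upwards [hb, hx1.continuousAt.eventually_ne h1] with z hz hz1 hz2
    exact hz1 (((h z hz).2.1).1 hz2)

theorem closure_ne {v : ℂ → B2 × W} (hv : IsCurve v) {u₀ : ℂ} {r : ℝ} {z₀ : ℂ}
    (h0 : z₀ ∈ closure {z | (v z).1.1 ≠ 0 ∧ ‖uu v z - u₀‖ < r}) : (v z₀).1.1 ≠ 0 := by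
  obtain ⟨R, hR, X, Z, hX, -, h⟩ := lift_data hv z₀
  have hb : ball z₀ R ∈ 𝓝 z₀ := ball_mem_nhds z₀ hR
  have hX0 : ContinuousAt X z₀ := (hX.differentiableAt hb).continuousAt
  intro h1
  have hx1 : (X z₀).1 = 0 := ((h z₀ (mem_ball_self hR)).2.1).1 h1
  have hx2 : (X z₀).2 ≠ 0 := by
    intro e
    exact (h z₀ (mem_ball_self hR)).1 (Prod.ext hx1 e)
  have hcont : ContinuousAt (fun z => ‖(X z).2 - u₀ * (X z).1‖ - r * ‖(X z).1‖) z₀ := by
    have a1 : ContinuousAt (fun z => (X z).1) z₀ := hX0.fst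
    have a2 : ContinuousAt (fun z => (X z).2) z₀ := hX0.snd
    exact ((a2.sub (continuousAt_const.mul a1)).norm).sub (continuousAt_const.mul a1.norm)
  have hpos : 0 < ‖(X z₀).2 - u₀ * (X z₀).1‖ - r * ‖(X z₀).1‖ := by
    rw [hx1]
    simpa using hx2
  have hev := hcont.eventually (lt_mem_nhds hpos)
  have hfr := mem_closure_iff_frequently.1 h0
  obtain ⟨z, ⟨hz1, hz2⟩, hz3, hz4⟩ := (hfr.and_eventually (hev.and hb)).exists
  have hz5 := h z hz4
  have hx : (X z).1 ≠ 0 := fun e => hz1 (hz5.2.1.2 e)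
  rw [hz5.2.2.1] at hz2
  have e1 : (X z).2 - u₀ * (X z).1 = ((X z).2 / (X z).1 - u₀) * (X z).1 := by
    field_simp
  rw [e1, norm_mul] at hz3
  have hxp : 0 < ‖(X z).1‖ := norm_pos_iff.2 hx
  nlinarith

end R7

open R7 in
theorem curve_PL {v : ℂ → B2 × W} (hv : IsCurve v) (hn : NonConst v) (Ω : Set W) (hΩ : IsOpen Ω)
    (u₀ u₁ : ℂ) {r ρ : ℝ} (hr : 0 < r) (hρ : 0 < ρ) (hu : ‖u₁ - u₀‖ < r / 2)
    (h1 : ∀ z, (v z).1.1 ≠ 0 → ‖(v z).1.2 / (v z).1.1 - u₀‖ ≤ r →
      (v z).1.1⁻¹ • (v z).2 ∉ frontier Ω)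
    (h2 : ∀ z, (v z).1.1 ≠ 0 → ‖(v z).1.2 / (v z).1.1 - u₀‖ < r →
      (v z).1.1⁻¹ • (v z).2 ∈ Ω → ρ ≤ ‖(v z).1.2 / (v z).1.1 - u₁‖) :
    ∀ z, (v z).1.1 ≠ 0 → ‖(v z).1.2 / (v z).1.1 - u₀‖ < r →
      (v z).1.1⁻¹ • (v z).2 ∈ Ω → r / 2 ≤ ‖(v z).1.2 / (v z).1.1 - u₁‖ := by
  -- the set `D`
  set D : Set ℂ := {z | (v z).1.1 ≠ 0 ∧ ‖uu v z - u₀‖ < r ∧ ww v z ∈ Ω} with hD
  have hDsub : D ⊆ {z | (v z).1.1 ≠ 0 ∧ ‖uu v z - u₀‖ < r} := fun z hz => ⟨hz.1, hz.2.1⟩
  have hclne : ∀ z ∈ closure D, (v z).1.1 ≠ 0 := fun z hz => closure_ne hv (closure_mono hDsub hz)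
  have hDo : IsOpen D := by
    rw [isOpen_iff_mem_nhds]
    intro z hz
    obtain ⟨a1, a2, a3⟩ := local_reg hv hz.1
    have b1 : ContinuousAt (fun z => ‖uu v z - u₀‖) z :=
      (a1.continuousAt.sub continuousAt_const).norm
    filter_upwards [a3, b1.eventually (gt_mem_nhds hz.2.1), a2.eventually (hΩ.mem_nhds hz.2.2)]
      with x hx1 hx2 hx3
    exact ⟨hx1, hx2, hx3⟩
  have hcl : ∀ z ∈ closure D, ‖uu v z - u₀‖ ≤ r ∧ ww v z ∈ Ω := by
    intro z hz
    obtain ⟨a1, a2, a3⟩ := local_reg hv (hclne z hz)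
    have hfr := mem_closure_iff_frequently.1 hz
    have b1 : ContinuousAt (fun z => ‖uu v z - u₀‖) z :=
      (a1.continuousAt.sub continuousAt_const).norm
    have c1 : ‖uu v z - u₀‖ ≤ r := by
      by_contra hcon
      push Not at hcon
      obtain ⟨x, hx1, hx2⟩ := (hfr.and_eventually (b1.eventually (lt_mem_nhds hcon))).exists
      exact absurd hx1.2.1 (not_lt.2 hx2.le)
    refine ⟨c1, ?_⟩
    have c2 : ww v z ∈ closure Ω := by
      rw [mem_closure_iff_frequently]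
      exact a2.frequently (hfr.mono fun x hx => hx.2.2)
    have c3 := h1 z (hclne z hz) c1
    have c4 : ww v z ∉ frontier Ω := c3
    rw [frontier, hΩ.interior_eq] at c4
    by_contra hcon
    exact c4 ⟨c2, hcon⟩
  have hfront : ∀ z ∈ frontier D, r / 2 ≤ ‖uu v z - u₁‖ := by
    intro z hz
    have hz1 : z ∈ closure D := frontier_subset_closure hz
    have hz2 : z ∉ D := by
      rw [frontier, hDo.interior_eq] at hz
      exact hz.2
    obtain ⟨c1, c2⟩ := hcl z hz1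
    have c3 : r ≤ ‖uu v z - u₀‖ := by
      by_contra hcon
      push Not at hcon
      exact hz2 ⟨hclne z hz1, hcon, c2⟩
    have c4 : ‖uu v z - u₀‖ ≤ ‖uu v z - u₁‖ + ‖u₁ - u₀‖ := by
      have : uu v z - u₀ = (uu v z - u₁) + (u₁ - u₀) := by ring
      rw [this]
      exact norm_add_le _ _
    linarith
  -- the function
  have hρcl : ∀ z ∈ closure D, ρ ≤ ‖uu v z - u₁‖ := by
    intro z hz
    obtain ⟨a1, a2, a3⟩ := local_reg hv (hclne z hz)
    have hfr := mem_closure_iff_frequently.1 hz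
    have b1 : ContinuousAt (fun z => ‖uu v z - u₁‖) z :=
      (a1.continuousAt.sub continuousAt_const).norm
    by_contra hcon
    push Not at hcon
    obtain ⟨x, hx1, hx2⟩ := (hfr.and_eventually (b1.eventually (gt_mem_nhds hcon))).exists
    exact absurd (h2 x hx1.1 hx1.2.1 hx1.2.2) (not_le.2 hx2)
  -- a ball outside of `D`
  obtain ⟨a, δ, hδ, haδ⟩ : ∃ (a : ℂ) (δ : ℝ), 0 < δ ∧ ∀ z ∈ closure D, δ ≤ ‖z - a‖ := by
    by_contra hcon
    push Not at hcon
    have hall : ∀ a : ℂ, a ∈ closure D := by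
      intro a
      rw [← closure_closure, Metric.mem_closure_iff]
      intro ε hε
      obtain ⟨z, hz1, hz2⟩ := hcon a ε hε
      refine ⟨z, hz1, ?_⟩
      rw [dist_eq_norm, norm_sub_rev]
      exact hz2
    have hd : Differentiable ℂ (uu v) := fun z => (local_reg hv (hclne z (hall z))).1
    have hbd : Bornology.IsBounded (range (uu v)) := by
      refine (isBounded_iff_forall_norm_le).2 ⟨r + ‖u₀‖, ?_⟩
      rintro _ ⟨z, rfl⟩
      have := (hcl z (hall z)).1
      have e : uu v z = (uu v z - u₀) + u₀ := by ring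
      rw [e]
      exact (norm_add_le _ _).trans (by linarith)
    obtain ⟨z, z', hzz⟩ := hn
    have e := hd.apply_eq_apply_of_bounded hbd z z'
    apply hzz
    have n1 := hclne z (hall z)
    have n2 := hclne z' (hall z')
    unfold uu at e
    rw [div_eq_div_iff n1 n2] at e
    unfold wedge
    linear_combination -e
  -- the maximum principle
  have hmax : ∀ N : ℕ, ∀ z ∈ D, ‖uu v z - u₁‖⁻¹ ^ N * δ / ‖z - a‖ ≤ (2 / r) ^ N := by
    intro N z hz
    obtain ⟨R, hR1, hR2, hR3⟩ : ∃ R : ℝ, 0 < R ∧ ‖z - a‖ < R ∧ ρ⁻¹ ^ N * δ / R ≤ (2 / r) ^ N := by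
      have hp : 0 < (2 / r) ^ N := by positivity
      refine ⟨max (‖z - a‖ + 1) (ρ⁻¹ ^ N * δ / (2 / r) ^ N), ?_, ?_, ?_⟩
      · exact lt_of_lt_of_le (by positivity) (le_max_left _ _)
      · exact lt_of_lt_of_le (by linarith) (le_max_left _ _)
      · have hM : 0 < max (‖z - a‖ + 1) (ρ⁻¹ ^ N * δ / (2 / r) ^ N) :=
          lt_of_lt_of_le (by positivity) (le_max_left _ _)
        rw [div_le_iff₀ hM, ← div_le_iff₀' hp]
        exact le_max_right _ _
    set f : ℂ → ℂ := fun x => ((uu v x - u₁)⁻¹) ^ N * δ / (x - a) with hf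
    have hne1 : ∀ x ∈ closure D, uu v x - u₁ ≠ 0 := fun x hx e => by
      have := hρcl x hx
      rw [e, norm_zero] at this
      linarith
    have hne2 : ∀ x ∈ closure D, x - a ≠ 0 := fun x hx e => by
      have := haδ x hx
      rw [e, norm_zero] at this
      linarith
    have hfd : ∀ x ∈ closure D, DifferentiableAt ℂ f x := by
      intro x hx
      have a1 := (local_reg hv (hclne x hx)).1
      have a2 : DifferentiableAt ℂ (fun x => (uu v x - u₁)⁻¹) x :=
        (a1.sub_const u₁).inv (hne1 x hx)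
      exact ((a2.pow N).mul_const _).div (differentiableAt_id.sub_const a) (hne2 x hx)
    have hfn : ∀ x, ‖f x‖ = ‖uu v x - u₁‖⁻¹ ^ N * δ / ‖x - a‖ := by
      intro x
      simp only [hf, norm_div, norm_mul, norm_pow, norm_inv, Complex.norm_real, Real.norm_eq_abs,
        abs_of_pos hδ]
    have hsub : closure (D ∩ ball a R) ⊆ closure D := closure_mono inter_subset_left
    have hdc : DiffContOnCl ℂ f (D ∩ ball a R) := by
      refine ⟨fun x hx => (hfd x (subset_closure hx.1)).differentiableWithinAt, fun x hx => ?_⟩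
      exact (hfd x (hsub hx)).continuousAt.continuousWithinAt
    have hbd : Bornology.IsBounded (D ∩ ball a R) := isBounded_ball.subset inter_subset_right
    have hfr : ∀ x ∈ frontier (D ∩ ball a R), ‖f x‖ ≤ (2 / r) ^ N := by
      intro x hx
      rw [hfn]
      have hxc : x ∈ closure D := hsub (frontier_subset_closure hx)
      have hxa := haδ x hxc
      have hxp : 0 < ‖x - a‖ := lt_of_lt_of_le hδ hxa
      rcases frontier_inter_subset D (ball a R) hx with hx1 | hx1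
      · have e1 := hfront x hx1.1
        have e2 : ‖uu v x - u₁‖⁻¹ ≤ 2 / r := by
          rw [inv_le_comm₀ (by linarith) (by positivity), inv_div]
          exact e1
        rw [mul_div_assoc]
        calc ‖uu v x - u₁‖⁻¹ ^ N * (δ / ‖x - a‖) ≤ (2 / r) ^ N * 1 := by
              refine mul_le_mul (pow_le_pow_left₀ (by positivity) e2 N) ?_ (by positivity)
                (by positivity)
              rw [div_le_one hxp]
              exact hxa
          _ = _ := mul_one _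
      · have e1 := hρcl x hxc
        have e2 : ‖uu v x - u₁‖⁻¹ ≤ ρ⁻¹ := by
          rw [inv_le_inv₀ (by linarith) hρ]
          exact e1
        have e3 : ‖x - a‖ = R := by
          have := hx1.2
          rw [frontier_ball a hR1.ne', mem_sphere_iff_norm] at this
          exact this
        rw [e3]
        refine le_trans ?_ hR3
        gcongr
    have hzc : z ∈ closure (D ∩ ball a R) := subset_closure ⟨hz, by
      rw [mem_ball_iff_norm]; exact hR2⟩
    have := Complex.norm_le_of_forall_mem_frontier_norm_le hbd hdc hfr hzc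
    rwa [hfn] at this
  -- the limit in `N`
  intro z hz1 hz2 hz3
  have hz : z ∈ D := ⟨hz1, hz2, hz3⟩
  show r / 2 ≤ ‖uu v z - u₁‖
  by_contra hcon
  push Not at hcon
  have hp := hρcl z (subset_closure hz)
  have hp0 : 0 < ‖uu v z - u₁‖ := lt_of_lt_of_le hρ hp
  set q : ℝ := r / (2 * ‖uu v z - u₁‖) with hq
  have hq1 : 1 < q := by
    rw [hq, one_lt_div (by positivity)]
    linarith
  have hza : 0 < ‖z - a‖ := lt_of_lt_of_le hδ (haδ z (subset_closure hz))
  obtain ⟨N, hN⟩ := pow_unbounded_of_one_lt (‖z - a‖ / δ) hq1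
  have hm := hmax N z hz
  rw [div_le_iff₀ hza] at hm
  have e1 : ‖uu v z - u₁‖⁻¹ ^ N = q ^ N * (2 / r) ^ N := by
    rw [← mul_pow]
    congr 1
    rw [hq]
    field_simp
  rw [e1] at hm
  have hpN : 0 < (2 / r) ^ N := by positivity
  have e2 : q ^ N * δ ≤ ‖z - a‖ := by
    have : (2 / r) ^ N * (q ^ N * δ) ≤ (2 / r) ^ N * ‖z - a‖ := by
      refine le_trans (le_of_eq ?_) hm
      ring
    exact le_of_mul_le_mul_left this hpN
  rw [div_lt_iff₀ hδ] at hN
  linarith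

end

end MF7
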