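import Pool.Agent.Lib.MF7_Hull
import Pool.Agent.Lib.MF7_R7

/-!
# The hull of a family of curves is open over the base at the scale of fibre components
-/

set_option autoImplicit false

open Set Metric Filter Topology

namespace MF7

section Hull

variable {W : Type} [NormedAddCommGroup W] [NormedSpace ℂ W]
variable {ι : Type} {v : ι → ℂ → B2 × W}

theorem hull_smul {c : ℂ} (hc : c ≠ 0) {p : B2 × W} (hp : p ∈ hull v) : c • p ∈ hull v := by
  refine ⟨smul_ne_zero hc hp.1, ?_⟩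
  refine map_mem_closure (continuous_const_smul c) hp.2 ?_
  rintro q ⟨i, z, e, he, rfl⟩
  exact ⟨i, z, c * e, mul_ne_zero hc he, smul_smul _ _ _⟩

theorem mem_hull {i : ι} {z c : ℂ} (hc : c ≠ 0) (h0 : (v i z).1 ≠ 0) : c • v i z ∈ hull v :=
  ⟨smul_ne_zero hc h0, subset_closure ⟨i, z, c, hc, rfl⟩⟩

theorem hull_bdd {M : ℝ} (hM : ∀ i z, ‖(v i z).2‖ ≤ M * ‖(v i z).1‖) {p : B2 × W}
    (hp : p ∈ hull v) : ‖p.2‖ ≤ M * ‖p.1‖ := by
  have hc : IsClosed {q : B2 × W | ‖q.2‖ ≤ M * ‖q.1‖} :=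
    isClosed_le (by fun_prop) (by fun_prop)
  refine closure_minimal ?_ hc hp.2
  rintro q ⟨i, z, c, hc, rfl⟩
  show ‖c • (v i z).2‖ ≤ M * ‖c • (v i z).1‖
  rw [norm_smul, norm_smul]
  nlinarith [mul_le_mul_of_nonneg_left (hM i z) (norm_nonneg c)]

end Hull

variable {W : Type} [NormedAddCommGroup W] [NormedSpace ℂ W] [FiniteDimensional ℂ W]
variable {ι : Type} {v : ι → ℂ → B2 × W}

theorem isCompact_proj {M : ℝ} (hM : ∀ i z, ‖(v i z).2‖ ≤ M * ‖(v i z).1‖) {Z : Set W}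
    (hZ : IsClosed Z) (u₀ : ℂ) (R : ℝ) :
    IsCompact {u : ℂ | ‖u - u₀‖ ≤ R ∧ ∃ w ∈ Z, (((1 : ℂ), u), w) ∈ hull v} := by
  have : ProperSpace W := FiniteDimensional.proper ℂ W
  have hK : IsCompact {p : ℂ × W | ‖p.1 - u₀‖ ≤ R ∧ p.2 ∈ Z ∧
      (((1 : ℂ), p.1), p.2) ∈ hull v} := by
    have hcl : IsClosed {p : ℂ × W | ‖p.1 - u₀‖ ≤ R ∧ p.2 ∈ Z ∧
        (((1 : ℂ), p.1), p.2) ∈ hull v} := by
      have e : {p : ℂ × W | ‖p.1 - u₀‖ ≤ R ∧ p.2 ∈ Z ∧ (((1 : ℂ), p.1), p.2) ∈ hull v} =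
          {p : ℂ × W | ‖p.1 - u₀‖ ≤ R} ∩ (Prod.snd ⁻¹' Z ∩
            (fun p : ℂ × W => (((1 : ℂ), p.1), p.2)) ⁻¹'
              closure {q | ∃ (i : ι) (z c : ℂ), c ≠ 0 ∧ q = c • v i z}) := by
        ext p
        simp [hull]
      rw [e]
      exact (isClosed_le (by fun_prop) continuous_const).inter
        ((hZ.preimage continuous_snd).inter (isClosed_closure.preimage (by fun_prop)))
    refine IsCompact.of_isClosed_subset ((isCompact_closedBall u₀ R).prod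
      (isCompact_closedBall (0 : W) (|M| * (1 + ‖u₀‖ + R)))) hcl ?_
    rintro ⟨u, w⟩ ⟨h1, -, h3⟩
    have h4 := hull_bdd hM h3
    have h5 : ‖((1 : ℂ), u)‖ ≤ 1 + ‖u₀‖ + R := by
      have h6 : ‖u‖ ≤ ‖u₀‖ + R := by
        have : u = u₀ + (u - u₀) := by ring
        calc ‖u‖ = ‖u₀ + (u - u₀)‖ := by rw [← this]
          _ ≤ ‖u₀‖ + ‖u - u₀‖ := norm_add_le _ _
          _ ≤ ‖u₀‖ + R := by simpa using h1
      have h7 : 0 ≤ ‖u‖ := norm_nonneg u
      rw [Prod.norm_def]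
      refine max_le ?_ ?_
      · simp only [norm_one]; linarith
      · show ‖u‖ ≤ _
        linarith
    refine ⟨?_, ?_⟩
    · simpa [dist_eq_norm] using h1
    · rw [mem_closedBall_zero_iff]
      refine h4.trans ?_
      calc M * ‖((1 : ℂ), u)‖ ≤ |M| * ‖((1 : ℂ), u)‖ :=
            mul_le_mul_of_nonneg_right (le_abs_self M) (norm_nonneg _)
        _ ≤ |M| * (1 + ‖u₀‖ + R) := mul_le_mul_of_nonneg_left h5 (abs_nonneg M)
  have h := hK.image continuous_fst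
  convert h using 1
  ext u
  constructor
  · rintro ⟨h1, w, h2, h3⟩
    exact ⟨(u, w), ⟨h1, h2, h3⟩, rfl⟩
  · rintro ⟨⟨u', w⟩, ⟨h1, h2, h3⟩, rfl⟩
    exact ⟨h1, w, h2, h3⟩

/-- The claim in a chart. -/
theorem chart_lsc (hv : ∀ i, IsCurve (v i)) (hn : ∀ i, NonConst (v i)) {M : ℝ}
    (hM : ∀ i z, ‖(v i z).2‖ ≤ M * ‖(v i z).1‖) {Ω : Set W} (hΩ : IsOpen Ω) (u₀ : ℂ)
    (hfr : ∀ w ∈ frontier Ω, (((1 : ℂ), u₀), w) ∉ hull v) {w₀ : W} (hw₀ : w₀ ∈ Ω)
    (h₀ : (((1 : ℂ), u₀), w₀) ∈ hull v) :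
    ∃ r > 0, ∀ u : ℂ, ‖u - u₀‖ < r → ∃ w ∈ Ω, (((1 : ℂ), u), w) ∈ hull v := by
  have hT := isCompact_proj hM (isClosed_frontier (s := Ω)) u₀ 1
  have hT0 : u₀ ∉ {u : ℂ | ‖u - u₀‖ ≤ 1 ∧ ∃ w ∈ frontier Ω, (((1 : ℂ), u), w) ∈ hull v} := by
    rintro ⟨-, w, hw, h⟩
    exact hfr w hw h
  obtain ⟨r₁, hr₁, hr₁b⟩ := Metric.isOpen_iff.1 hT.isClosed.isOpen_compl u₀ hT0
  obtain ⟨r, hr, hrr₁, hr1⟩ : ∃ r : ℝ, 0 < r ∧ r < r₁ ∧ r ≤ 1 :=
    ⟨min (r₁ / 2) 1, by positivity, (min_le_left _ _).trans_lt (by linarith), min_le_right _ _⟩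
  have hfr' : ∀ u : ℂ, ‖u - u₀‖ ≤ r → ∀ w ∈ frontier Ω, (((1 : ℂ), u), w) ∉ hull v := by
    intro u hu w hw h
    refine hr₁b (?_ : u ∈ ball u₀ r₁) ⟨hu.trans hr1, w, hw, h⟩
    rw [mem_ball, dist_eq_norm]
    linarith
  have hH := isCompact_proj hM (isClosed_closure (s := Ω)) u₀ r
  set H : Set ℂ := {u : ℂ | ‖u - u₀‖ ≤ r ∧ ∃ w ∈ closure Ω, (((1 : ℂ), u), w) ∈ hull v} with hHdef
  have hHo : ∀ u ∈ H, ∃ w ∈ Ω, (((1 : ℂ), u), w) ∈ hull v := by
    rintro u ⟨h1, w, h2, h3⟩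
    refine ⟨w, ?_, h3⟩
    by_contra hw
    exact hfr' u h1 w (by rw [hΩ.frontier_eq]; exact ⟨h2, hw⟩) h3
  have hHu : u₀ ∈ H := ⟨by simpa using hr.le, w₀, subset_closure hw₀, h₀⟩
  refine ⟨r / 2, by positivity, fun u₁ hu₁ => ?_⟩
  by_contra hcon
  have hu₁H : u₁ ∉ H := fun h => hcon (hHo u₁ h)
  obtain ⟨u₂, hu₂, hu₂d⟩ := hH.exists_infDist_eq_dist ⟨u₀, hHu⟩ u₁
  have hρ : 0 < dist u₁ u₂ := dist_pos.2 fun e => hu₁H (e ▸ hu₂)
  have hρr : dist u₁ u₂ < r / 2 := by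
    rw [← hu₂d]
    refine (infDist_le_dist_of_mem hHu).trans_lt ?_
    rwa [dist_eq_norm]
  have hPL : ∀ i z, (v i z).1.1 ≠ 0 → ‖(v i z).1.2 / (v i z).1.1 - u₀‖ < r →
      (v i z).1.1⁻¹ • (v i z).2 ∈ Ω → r / 2 ≤ ‖(v i z).1.2 / (v i z).1.1 - u₁‖ := by
    intro i
    have hmem : ∀ z, (v i z).1.1 ≠ 0 →
        (((1 : ℂ), (v i z).1.2 / (v i z).1.1), (v i z).1.1⁻¹ • (v i z).2) ∈ hull v := by
      intro z hz
      have h := mem_hull (v := v) (i := i) (z := z) (inv_ne_zero hz)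
        (fun e => hz (by rw [e]; rfl))
      convert h using 1
      refine Prod.ext (Prod.ext ?_ ?_) rfl
      · show (1 : ℂ) = (v i z).1.1⁻¹ * (v i z).1.1
        field_simp
      · show (v i z).1.2 / (v i z).1.1 = (v i z).1.1⁻¹ * (v i z).1.2
        field_simp
    refine curve_PL (hv i) (hn i) Ω hΩ u₀ u₁ hr hρ hu₁ ?_ ?_
    · intro z hz hzr hfrz
      exact hfr' _ hzr _ hfrz (hmem z hz)
    · intro z hz hzr hzΩ
      have h1 : (v i z).1.2 / (v i z).1.1 ∈ H := ⟨hzr.le, _, subset_closure hzΩ, hmem z hz⟩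
      have h2 := infDist_le_dist_of_mem (x := u₁) h1
      rw [hu₂d, dist_eq_norm u₁ ((v i z).1.2 / (v i z).1.1), norm_sub_rev] at h2
      exact h2
  obtain ⟨w₂, hw₂, hw₂h⟩ := hHo u₂ hu₂
  have hc1 : ContinuousAt (fun p : B2 × W => p.1.2 / p.1.1) (((1 : ℂ), u₂), w₂) :=
    ContinuousAt.div (by fun_prop) (by fun_prop) (by simp)
  have hc2 : ContinuousAt (fun p : B2 × W => p.1.1⁻¹ • p.2) (((1 : ℂ), u₂), w₂) :=
    ContinuousAt.smul (ContinuousAt.inv₀ (by fun_prop) (by simp)) (by fun_prop)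
  have he0 : ∀ᶠ p in 𝓝 ((((1 : ℂ), u₂), w₂) : B2 × W), p.1.1 ≠ 0 := by
    have : ContinuousAt (fun p : B2 × W => p.1.1) (((1 : ℂ), u₂), w₂) := by fun_prop
    exact this.eventually_ne (by simp)
  have he1 : ∀ᶠ p in 𝓝 ((((1 : ℂ), u₂), w₂) : B2 × W), ‖p.1.2 / p.1.1 - u₀‖ < r := by
    have h : ContinuousAt (fun p : B2 × W => ‖p.1.2 / p.1.1 - u₀‖) (((1 : ℂ), u₂), w₂) :=
      (hc1.sub continuousAt_const).norm
    refine h.eventually_lt continuousAt_const ?_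
    simp only [div_one]
    calc ‖u₂ - u₀‖ = ‖(u₁ - u₀) - (u₁ - u₂)‖ := by congr 1; ring
      _ ≤ ‖u₁ - u₀‖ + ‖u₁ - u₂‖ := norm_sub_le _ _
      _ < r := by rw [dist_eq_norm] at hρr; linarith
  have he2 : ∀ᶠ p in 𝓝 ((((1 : ℂ), u₂), w₂) : B2 × W), p.1.1⁻¹ • p.2 ∈ Ω :=
    hc2.eventually_mem (hΩ.mem_nhds (by simpa using hw₂))
  have he3 : ∀ᶠ p in 𝓝 ((((1 : ℂ), u₂), w₂) : B2 × W), ‖p.1.2 / p.1.1 - u₁‖ < r / 2 := by
    have h : ContinuousAt (fun p : B2 × W => ‖p.1.2 / p.1.1 - u₁‖) (((1 : ℂ), u₂), w₂) :=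
      (hc1.sub continuousAt_const).norm
    refine h.eventually_lt continuousAt_const ?_
    simp only [div_one]
    rw [dist_eq_norm, norm_sub_rev] at hρr
    exact hρr
  have hfreq := mem_closure_iff_frequently.1 hw₂h.2
  obtain ⟨p, ⟨i, z, c, hc, rfl⟩, h0, h1, h2, h3⟩ :=
    (hfreq.and_eventually (he0.and (he1.and (he2.and he3)))).exists
  have hz : (v i z).1.1 ≠ 0 := fun e => h0 (by
    show c * (v i z).1.1 = 0
    rw [e, mul_zero])
  have hq : (c • v i z).1.2 / (c • v i z).1.1 = (v i z).1.2 / (v i z).1.1 := by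
    show (c * (v i z).1.2) / (c * (v i z).1.1) = _
    rw [mul_div_mul_left _ _ hc]
  have hw : (c • v i z).1.1⁻¹ • (c • v i z).2 = (v i z).1.1⁻¹ • (v i z).2 := by
    show (c * (v i z).1.1)⁻¹ • c • (v i z).2 = _
    rw [smul_smul]
    congr 1
    field_simp
  rw [hq] at h1 h3
  rw [hw] at h2
  exact absurd (hPL i z hz h1 h2) (not_le.2 h3)

theorem lsc_chart (hv : ∀ i, IsCurve (v i)) (hn : ∀ i, NonConst (v i)) {M : ℝ}
    (hM : ∀ i z, ‖(v i z).2‖ ≤ M * ‖(v i z).1‖) {x : B2} (hx : x.1 ≠ 0) {Ω : Set W}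
    (hΩ : IsOpen Ω) (hfr : ∀ w ∈ frontier Ω, (x, w) ∉ hull v) {w₀ : W} (hw₀ : w₀ ∈ Ω)
    (h₀ : (x, w₀) ∈ hull v) :
    ∃ δ > 0, ∀ x' : B2, ‖x' - x‖ < δ → ∃ w ∈ Ω, (x', w) ∈ hull v := by
  have : ProperSpace W := FiniteDimensional.proper ℂ W
  have hx0 : x ≠ 0 := fun e => hx (by rw [e]; rfl)
  -- the compact part of the fibre
  have hK : IsCompact {w : W | w ∈ closure Ω ∧ (x, w) ∈ hull v} := by
    have hcl : IsClosed {w : W | w ∈ closure Ω ∧ (x, w) ∈ hull v} := by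
      have e : {w : W | w ∈ closure Ω ∧ (x, w) ∈ hull v} = closure Ω ∩
          (fun w : W => (x, w)) ⁻¹' closure {q | ∃ (i : ι) (z c : ℂ), c ≠ 0 ∧ q = c • v i z} := by
        ext w
        simp [hull, hx0]
      rw [e]
      exact isClosed_closure.inter (isClosed_closure.preimage (by fun_prop))
    refine IsCompact.of_isClosed_subset (isCompact_closedBall (0 : W) (M * ‖x‖)) hcl ?_
    rintro w ⟨-, hw⟩
    rw [mem_closedBall_zero_iff]
    exact hull_bdd hM hw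
  set K : Set W := {w : W | w ∈ closure Ω ∧ (x, w) ∈ hull v} with hKdef
  have hKΩ : K ⊆ Ω := by
    rintro w ⟨h1, h2⟩
    by_contra hw
    exact hfr w (by rw [hΩ.frontier_eq]; exact ⟨h1, hw⟩) h2
  obtain ⟨ε, hε, hεΩ⟩ := hK.exists_cthickening_subset_open hΩ hKΩ
  have hK' : IsCompact (cthickening ε K) := hK.cthickening
  -- the chart
  have hL : ∀ (y : B2) (w : W), y.1 ≠ 0 →
      ((y, y.1 • w) ∈ hull v ↔ (((1 : ℂ), y.2 / y.1), w) ∈ hull v) := by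
    intro y w hy
    constructor
    · intro h
      have h1 := hull_smul (inv_ne_zero hy) h
      convert h1 using 1
      refine Prod.ext (Prod.ext ?_ ?_) ?_
      · show (1 : ℂ) = y.1⁻¹ * y.1
        field_simp
      · show y.2 / y.1 = y.1⁻¹ * y.2
        field_simp
      · show w = y.1⁻¹ • y.1 • w
        rw [smul_smul, inv_mul_cancel₀ hy, one_smul]
    · intro h
      have h1 := hull_smul hy h
      convert h1 using 1
      refine Prod.ext (Prod.ext ?_ ?_) rfl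
      · show y.1 = y.1 * 1
        ring
      · show y.2 = y.1 * (y.2 / y.1)
        field_simp
  have hop : IsOpen ((fun w : W => x.1 • w) ⁻¹' thickening ε K) :=
    isOpen_thickening.preimage (continuous_const_smul _)
  obtain ⟨r, hr, hrr⟩ := chart_lsc hv hn hM hop (x.2 / x.1) (w₀ := x.1⁻¹ • w₀) (by
      intro w hw h
      have h1 : (x, x.1 • w) ∈ hull v := (hL x w hx).2 h
      have h2 : x.1 • w ∈ frontier (thickening ε K) := by
        have h3 := (Homeomorph.smulOfNeZero x.1 hx).preimage_frontier (thickening ε K)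
        have h4 : w ∈ (Homeomorph.smulOfNeZero x.1 hx) ⁻¹' frontier (thickening ε K) := by
          rw [h3]; exact hw
        exact h4
      have h5 : x.1 • w ∈ Ω := hεΩ (closure_thickening_subset_cthickening ε K h2.1)
      have h6 : x.1 • w ∈ thickening ε K :=
        self_subset_thickening hε K ⟨subset_closure h5, h1⟩
      rw [isOpen_thickening.frontier_eq] at h2
      exact h2.2 h6) (by
      show x.1 • x.1⁻¹ • w₀ ∈ thickening ε K
      rw [smul_smul, mul_inv_cancel₀ hx, one_smul]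
      exact self_subset_thickening hε K ⟨subset_closure hw₀, h₀⟩) (by
      refine (hL x _ hx).1 ?_
      rw [smul_smul, mul_inv_cancel₀ hx, one_smul]
      exact h₀)
  have he0 : ∀ᶠ x' in 𝓝 x, x'.1 ≠ 0 := by
    have : ContinuousAt (fun p : B2 => p.1) x := by fun_prop
    exact this.eventually_ne hx
  have he1 : ∀ᶠ x' in 𝓝 x, ‖x'.2 / x'.1 - x.2 / x.1‖ < r := by
    have h : ContinuousAt (fun p : B2 => ‖p.2 / p.1 - x.2 / x.1‖) x :=
      ((ContinuousAt.div (by fun_prop) (by fun_prop) hx).sub continuousAt_const).norm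
    exact h.eventually_lt continuousAt_const (by simpa using hr)
  have he2 : ∀ᶠ x' in 𝓝 x, ∀ y ∈ cthickening ε K, (x'.1 / x.1) • y ∈ Ω := by
    refine hK'.eventually_forall_of_forall_eventually fun y hy => ?_
    have h : ContinuousAt (fun p : B2 × W => (p.1.1 / x.1) • p.2) (x, y) := by fun_prop
    refine h.eventually_mem (hΩ.mem_nhds ?_)
    show (x.1 / x.1) • y ∈ Ω
    rw [div_self hx, one_smul]
    exact hεΩ hy
  obtain ⟨δ, hδ, hδ'⟩ := Metric.eventually_nhds_iff.1 (he0.and (he1.and he2))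
  refine ⟨δ, hδ, fun x' hx' => ?_⟩
  obtain ⟨g0, g1, g2⟩ := hδ' (by rwa [dist_eq_norm])
  obtain ⟨w, hw, hwh⟩ := hrr _ g1
  refine ⟨x'.1 • w, ?_, (hL x' w g0).2 hwh⟩
  have h1 := g2 (x.1 • w) (thickening_subset_cthickening ε K hw)
  rwa [smul_smul, div_mul_cancel₀ _ hx] at h1

/-! ### The other chart -/

/-- exchange of the two coordinates of the base -/
def sw (p : B2 × W) : B2 × W := ((p.1.2, p.1.1), p.2)

omit [FiniteDimensional ℂ W] in
theorem hull_sw {p : B2 × W} (hp : p ∈ hull v) : sw p ∈ hull fun i z => sw (v i z) := by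
  have hc : Continuous (sw : B2 × W → B2 × W) := by
    unfold sw
    fun_prop
  refine ⟨?_, ?_⟩
  · intro e
    have e1 := congrArg Prod.fst e
    have e2 := congrArg Prod.snd e
    exact hp.1 (Prod.ext e2 e1)
  · refine map_mem_closure hc hp.2 ?_
    rintro q ⟨i, z, c, h, rfl⟩
    exact ⟨i, z, c, h, rfl⟩

omit [NormedAddCommGroup W] [NormedSpace ℂ W] [FiniteDimensional ℂ W] in
theorem sw_sw (p : B2 × W) : sw (sw p) = p := rfl

omit [FiniteDimensional ℂ W] in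
theorem hull_sw_iff {p : B2 × W} : sw p ∈ (hull fun i z => sw (v i z)) ↔ p ∈ hull v := by
  constructor
  · intro h
    have h1 := hull_sw h
    simp only [sw_sw] at h1
    exact h1
  · exact fun h => hull_sw h

omit [FiniteDimensional ℂ W] in
theorem hull_sw_iff' (v : ι → ℂ → B2 × W) (x : B2) (w : W) :
    (((x.2, x.1), w) : B2 × W) ∈ (hull fun i z => sw (v i z)) ↔ (x, w) ∈ hull v :=
  hull_sw_iff (p := (x, w))

omit [FiniteDimensional ℂ W] in
theorem IsCurve.swap {v : ℂ → B2 × W} (h : IsCurve v) : IsCurve fun z => sw (v z) := by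
  intro z₀
  obtain ⟨r, hr, X, Z, hX, hZ, hXZ⟩ := h z₀
  refine ⟨r, hr, fun z => ((X z).2, (X z).1), Z, ?_, hZ, fun z hz => ?_⟩
  · have h1 : DifferentiableOn ℂ (fun z => (X z).1) (ball z₀ r) := hX.fst
    have h2 : DifferentiableOn ℂ (fun z => (X z).2) (ball z₀ r) := hX.snd
    exact h2.prodMk h1
  obtain ⟨h1, c, hc, h2⟩ := hXZ z hz
  refine ⟨?_, c, hc, ?_⟩
  · intro e
    have e1 := congrArg Prod.fst e
    have e2 := congrArg Prod.snd e
    exact h1 (Prod.ext e2 e1)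
  · show sw (v z) = _
    rw [h2]
    exact Prod.ext (Prod.ext rfl rfl) rfl

omit [NormedAddCommGroup W] [NormedSpace ℂ W] [FiniteDimensional ℂ W] in
theorem NonConst.swap {v : ℂ → B2 × W} (h : NonConst v) : NonConst fun z => sw (v z) := by
  obtain ⟨z, z', h⟩ := h
  refine ⟨z, z', fun e => h ?_⟩
  have : wedge (v z).1 (v z').1 = - wedge (sw (v z)).1 (sw (v z')).1 := by
    simp only [wedge, sw]
    ring
  rw [this, e, neg_zero]

theorem hull_lsc {ι : Type} (v : ι → ℂ → B2 × W) (hv : ∀ i, IsCurve (v i))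
    (hn : ∀ i, NonConst (v i)) {Q : Set (B2 × W)} (hQ : ClCone Q) (hvQ : ∀ i z, v i z ∈ Q) :
    LSC (hull v) := by
  obtain ⟨M, hM⟩ := hQ.bdd
  have hM' : ∀ i z, ‖(v i z).2‖ ≤ M * ‖(v i z).1‖ := fun i z => hM _ (hvQ i z)
  intro x hx Ω hΩ hfr w₀ hw₀ h₀
  by_cases hx1 : x.1 = 0
  · have hx2 : x.2 ≠ 0 := fun e => hx (Prod.ext hx1 e)
    obtain ⟨δ, hδ, h⟩ := lsc_chart (v := fun i z => sw (v i z)) (fun i => (hv i).swap)
      (fun i => (hn i).swap) (M := M) (fun i z => by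
        have h := hM' i z
        have e : ‖(sw (v i z)).1‖ = ‖(v i z).1‖ := by
          rw [Prod.norm_def, Prod.norm_def]
          exact max_comm _ _
        rw [e]
        exact h) (x := (x.2, x.1)) hx2 hΩ
      (fun w hw h => hfr w hw ((hull_sw_iff' v x w).1 h)) hw₀
      ((hull_sw_iff' v x w₀).2 h₀)
    refine ⟨δ, hδ, fun x' hx' => ?_⟩
    obtain ⟨w, hw, hwh⟩ := h (x'.2, x'.1) (by
      have e : ‖((x'.2, x'.1) : B2) - (x.2, x.1)‖ = ‖x' - x‖ := by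
        rw [Prod.norm_def, Prod.norm_def]
        exact max_comm _ _
      rwa [e])
    exact ⟨w, hw, (hull_sw_iff' v x' w).1 hwh⟩
  · exact lsc_chart hv hn hM' hx1 hΩ hfr hw₀ h₀

end MF7
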