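import Pool.Agent.Lib.MF7_R9d

/-!
# The fibre trapping region
-/

set_option autoImplicit false
set_option linter.unusedSectionVars false

open Set Metric Filter Topology

namespace MF7

section
variable {W : Type} [NormedAddCommGroup W] [NormedSpace ℂ W] [FiniteDimensional ℂ W]

theorem bounded_ultralimit {α : Type*} (u : Ultrafilter α) (φ : α → W) {R : ℝ}
    (h : ∀ᶠ p in (u : Filter α), ‖φ p‖ ≤ R) : ∃ w, Tendsto φ u (𝓝 w) := by
  have : ProperSpace W := FiniteDimensional.proper ℂ W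
  obtain ⟨w, -, hw⟩ := (isCompact_closedBall (0 : W) R).ultrafilter_le_nhds (u.map φ) (by
    rw [le_principal_iff]
    show φ ⁻¹' _ ∈ u
    filter_upwards [h] with p hp
    simpa using hp)
  exact ⟨w, hw⟩

theorem trap_of_lsc (s : Sys W) {U S : Set (B2 × W)} (hU : Trap s U) (hS : ClCone S)
    (hne : S.Nonempty)
    (hSU : ∀ v ∈ S, v ∈ closure {p | ∃ q ∈ U, ∃ c : ℂ, c ≠ 0 ∧ p = c • s.F q})
    (hFS : ∀ v ∈ S, s.F v ∈ S) (hl : LSC S) :
    ∃ V : Set (B2 × W), Trap s V ∧ V.Nonempty ∧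
      ∀ v : B2 × W, v.1 ≠ 0 → (∀ n : ℕ, ∃ u ∈ V, ∃ c : ℂ, c ≠ 0 ∧ s.F^[n] u = c • v) →
        v ∈ S := by
  obtain ⟨η, hη⟩ := exists_marg hU
  obtain ⟨M₀, hM₀⟩ := hU.bdd
  set M := max M₀ 1 with hMdef
  have hM0 : 0 < M := lt_of_lt_of_le one_pos (le_max_right _ _)
  have hM : ∀ v ∈ U, ‖v.2‖ ≤ M * ‖v.1‖ := fun v hv =>
    (hM₀ v hv).trans (by gcongr; exact le_max_left _ _)
  have hcone := hη.Wt_cone
  have hop := Wt_open s U η
  have hWU := hη.Wt_subset
  have hMW : ∀ v ∈ Wt s U η, ‖v.2‖ ≤ M * ‖v.1‖ := fun v hv => hM v (hWU hv)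
  obtain ⟨N, hN⟩ := exists_chain_bound hη.1 hMW
  have hSW : S ⊆ Wt s U η := by
    intro v hv
    have hv1 := hS.cone.2 v hv
    have hvp : 0 < ‖v.1‖ := norm_pos_iff.2 hv1
    have hη0 := hη.1
    have hη4 := hη.2.1
    obtain ⟨p, ⟨q, hq, c, hc, rfl⟩, hd⟩ := Metric.mem_closure_iff.1 (hSU v hv)
      (η / 2 * ‖v.1‖) (by positivity)
    refine ⟨c • s.F q, ⟨q, subset_closure hq, hU.cone.2 q hq, c, hc, rfl⟩, ?_⟩
    rw [dist_eq_norm] at hd
    have h1 : ‖v.1 - (c • s.F q).1‖ ≤ ‖v - c • s.F q‖ := norm_fst_le (v - c • s.F q)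
    have h3 : ‖v.1‖ ≤ ‖(c • s.F q).1‖ + ‖v.1 - (c • s.F q).1‖ := by
      calc ‖v.1‖ = ‖(c • s.F q).1 + (v.1 - (c • s.F q).1)‖ := by congr 1; abel
        _ ≤ _ := norm_add_le _ _
    have h4 : ‖v.1‖ / 2 < ‖(c • s.F q).1‖ := by nlinarith
    have h5 : η * (‖v.1‖ / 2) < η * ‖(c • s.F q).1‖ := by gcongr
    linarith
  -- the trapping cone
  set V : Set (B2 × W) := {v | ∃ t, (v.1, t) ∈ S ∧ Chain (Wt s U η) η v.1 N v.2 t} with hV
  have hVW : V ⊆ Wt s U η := by
    rintro v ⟨t, -, ht⟩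
    exact ht.left_mem
  have hV1 : ∀ v ∈ V, v.1 ≠ 0 := fun v hv => hcone.2 v (hVW hv)
  have hVopen : IsOpen V := by
    rw [isOpen_iff_mem_nhds]
    rintro v ⟨t, ht, hch⟩
    have hv1 : v.1 ≠ 0 := hcone.2 _ hch.left_mem
    have hvp : 0 < ‖v.1‖ := norm_pos_iff.2 hv1
    set Ω : Set W := {a | ∃ n, Chain (Wt s U η) η v.1 n a t} with hΩ
    have hΩo : IsOpen Ω := by
      rw [isOpen_iff_mem_nhds]
      rintro a ⟨n, hn⟩
      have h1 := hn.eventually hop hη.1 hv1
      have hc : Continuous fun a' : W => (v.1, a', t) := by fun_prop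
      have h2 := (hc.tendsto a).eventually h1
      filter_upwards [h2] with a' ha'
      exact ⟨n + 2, ha'⟩
    have hfr : ∀ w ∈ frontier Ω, (v.1, w) ∉ S := by
      intro w hw hwS
      have hwW := hSW hwS
      have hwc : w ∈ closure Ω := frontier_subset_closure hw
      obtain ⟨a, ⟨n, hn⟩, hd⟩ := Metric.mem_closure_iff.1 hwc (η * ‖v.1‖)
        (mul_pos hη.1 hvp)
      have : w ∈ Ω := by
        refine ⟨1 + n, (Chain.single hwW hn.left_mem ?_).trans hn⟩
        rw [← norm_sub_rev, ← dist_eq_norm]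
        exact hd
      rw [hΩo.frontier_eq] at hw
      exact hw.2 this
    have htΩ : t ∈ Ω := ⟨0, Chain.refl hch.right_mem⟩
    obtain ⟨δ, hδ, hδ'⟩ := hl v.1 hv1 Ω hΩo hfr t htΩ ht
    by_contra hcon
    have hcl : v ∈ closure Vᶜ := by
      rw [closure_compl, mem_compl_iff, mem_interior_iff_mem_nhds]
      exact hcon
    obtain ⟨u, hu1, hu2⟩ := mem_closure_iff_ultrafilter.1 hcl
    have hnear : ∀ᶠ p in (u : Filter (B2 × W)), ‖p.1 - v.1‖ < δ := by
      have h1 : ∀ᶠ p in 𝓝 v, ‖p.1 - v.1‖ < δ := by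
        filter_upwards [Metric.ball_mem_nhds v hδ] with p hp
        have := norm_fst_le (p - v)
        rw [mem_ball, dist_eq_norm] at hp
        exact lt_of_le_of_lt this hp
      exact hu2 h1
    have hex : ∀ p : B2 × W, ∃ w : W, ‖p.1 - v.1‖ < δ → w ∈ Ω ∧ (p.1, w) ∈ S := by
      intro p
      by_cases hp : ‖p.1 - v.1‖ < δ
      · obtain ⟨w, h1, h2⟩ := hδ' _ hp
        exact ⟨w, fun _ => ⟨h1, h2⟩⟩
      · exact ⟨0, fun h => absurd h hp⟩
    choose ω hω using hex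
    obtain ⟨wl, hwl⟩ := bounded_ultralimit u ω (R := M * (‖v.1‖ + δ)) (by
      filter_upwards [hnear] with p hp
      have h1 := hMW _ (hSW (hω p hp).2)
      refine h1.trans ?_
      have h2 : ‖p.1‖ ≤ ‖v.1‖ + ‖p.1 - v.1‖ := by
        calc ‖p.1‖ = ‖v.1 + (p.1 - v.1)‖ := by congr 1; abel
          _ ≤ _ := norm_add_le _ _
      show M * ‖p.1‖ ≤ _
      gcongr
      linarith)
    have hp1 : Tendsto (fun p : B2 × W => p.1) u (𝓝 v.1) :=
      (continuous_fst.tendsto v).mono_left hu2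
    have hp2 : Tendsto (fun p : B2 × W => p.2) u (𝓝 v.2) :=
      (continuous_snd.tendsto v).mono_left hu2
    have hwcl : wl ∈ closure Ω := mem_closure_of_tendsto hwl (by
      filter_upwards [hnear] with p hp using (hω p hp).1)
    have hwS : (v.1, wl) ∈ S := by
      refine hS.cl _ ?_ hv1
      exact mem_closure_of_tendsto (hp1.prodMk_nhds hwl) (by
        filter_upwards [hnear] with p hp using (hω p hp).2)
    have hwΩ : wl ∈ Ω := by
      by_contra hno
      refine hfr wl ?_ hwS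
      rw [hΩo.frontier_eq]
      exact ⟨hwcl, hno⟩
    obtain ⟨n, hn⟩ := hwΩ
    have hch' := hch.trans hn.symm
    have hev := hch'.eventually hop hη.1 hv1
    have hten : Tendsto (fun p : B2 × W => (p.1, p.2, ω p)) u (𝓝 (v.1, v.2, wl)) :=
      hp1.prodMk_nhds (hp2.prodMk_nhds hwl)
    have hfin : ∀ᶠ p in (u : Filter (B2 × W)), p ∈ V := by
      filter_upwards [hten.eventually hev, hnear] with p h1 h2
      have hp0 : p.1 ≠ 0 := hcone.2 _ h1.left_mem
      exact ⟨ω p, (hω p h2).2, hN p.1 hp0 _ _ _ h1⟩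
    have : (∅ : Set (B2 × W)) ∈ (u : Filter (B2 × W)) := by
      filter_upwards [hfin, hu1] with p h1 h2
      exact h2 h1
    exact u.empty_notMem this
  have hVtrap : ∀ v ∈ closure V, v.1 ≠ 0 → s.F v ∈ V := by
    intro v hv hv1
    have hvp : 0 < ‖v.1‖ := norm_pos_iff.2 hv1
    obtain ⟨u, hu1, hu2⟩ := mem_closure_iff_ultrafilter.1 hv
    have hex : ∀ p : B2 × W, ∃ c : ℕ → W, p ∈ V → c 0 = p.2 ∧ (p.1, c N) ∈ S ∧
        (∀ i ≤ N, (p.1, c i) ∈ Wt s U η) ∧ ∀ i < N, ‖c (i + 1) - c i‖ < η * ‖p.1‖ := by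
      intro p
      by_cases hp : p ∈ V
      · obtain ⟨t, ht, c, h0, h1, h2, h3⟩ := hp
        exact ⟨c, fun _ => ⟨h0, by rw [h1]; exact ht, h2, h3⟩⟩
      · exact ⟨0, fun h => absurd h hp⟩
    choose c hc using hex
    have hVu : ∀ᶠ p in (u : Filter (B2 × W)), p ∈ V := hu1
    have hp1 : Tendsto (fun p : B2 × W => p.1) u (𝓝 v.1) :=
      (continuous_fst.tendsto v).mono_left hu2
    have hp2 : Tendsto (fun p : B2 × W => p.2) u (𝓝 v.2) :=
      (continuous_snd.tendsto v).mono_left hu2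
    have hbd : ∀ᶠ p in (u : Filter (B2 × W)), ‖p.1‖ ≤ ‖v.1‖ + 1 :=
      (hp1.norm.eventually_lt_const (lt_add_one _)).mono fun p hp => hp.le
    have hlim : ∀ i, ∃ w, i ≤ N → Tendsto (fun p => c p i) u (𝓝 w) := by
      intro i
      by_cases hi : i ≤ N
      · obtain ⟨w, hw⟩ := bounded_ultralimit u (fun p => c p i) (R := M * (‖v.1‖ + 1)) (by
          filter_upwards [hVu, hbd] with p h1 h2
          refine (hMW _ ((hc p h1).2.2.1 i hi)).trans ?_
          show M * ‖p.1‖ ≤ _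
          gcongr)
        exact ⟨w, fun _ => hw⟩
      · exact ⟨0, fun h => absurd h hi⟩
    choose c' hc' using hlim
    have e0 : c' 0 = v.2 := by
      refine tendsto_nhds_unique (hc' 0 (Nat.zero_le _)) (hp2.congr' ?_)
      filter_upwards [hVu] with p hp using (hc p hp).1.symm
    have eN : (v.1, c' N) ∈ S := by
      refine hS.cl _ ?_ hv1
      exact mem_closure_of_tendsto (hp1.prodMk_nhds (hc' N le_rfl)) (by
        filter_upwards [hVu] with p hp using (hc p hp).2.1)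
    have eW : ∀ i ≤ N, (v.1, c' i) ∈ closure (Wt s U η) := fun i hi =>
      mem_closure_of_tendsto (hp1.prodMk_nhds (hc' i hi)) (by
        filter_upwards [hVu] with p hp using (hc p hp).2.2.1 i hi)
    have eS : ∀ i < N, ‖c' (i + 1) - c' i‖ ≤ η * ‖v.1‖ := fun i hi =>
      le_of_tendsto_of_tendsto ((hc' (i + 1) (by omega)).sub (hc' i (by omega))).norm
        (hp1.norm.const_mul η) (by
          filter_upwards [hVu] with p hp using ((hc p hp).2.2.2 i hi).le)
    obtain ⟨m, hm⟩ := chain_image hη hv1 c' N eW eS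
    rw [e0] at hm
    refine ⟨s.h (v.1, c' N), hFS _ eN, ?_⟩
    exact hN _ (s.g_ne _ hv1) _ _ _ hm
  refine ⟨V, ⟨hVopen, ⟨?_, hV1⟩, ⟨M, fun v hv => hMW v (hVW hv)⟩, hVtrap⟩, ?_, ?_⟩
  · rintro k hk v ⟨t, ht, hch⟩
    refine ⟨k • t, ?_, ?_⟩
    · have := hS.cone.1 k hk _ ht
      simpa using this
    · simpa using hch.smul hcone hk
  · obtain ⟨v, hv⟩ := hne
    refine ⟨v, v.2, by simpa using hv, ?_⟩
    exact hN _ (hS.cone.2 v hv) _ _ _ (Chain.refl (hSW hv))
  · intro v hv1 hv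
    have hvp : 0 < ‖v.1‖ := norm_pos_iff.2 hv1
    refine hS.cl v ?_ hv1
    rw [Metric.mem_closure_iff]
    intro ε hε
    -- smallness
    have hη0 := hη.1
    set θ : ℝ := 1 / (1 + η / (2 * (2 * M))) with hθ
    have hθ0 : 0 ≤ θ := by positivity
    have hθ1 : θ < 1 := by
      rw [hθ, div_lt_one (by positivity)]
      have : 0 < η / (2 * (2 * M)) := by positivity
      linarith
    have hten : Tendsto (fun k : ℕ => (N * (2 * M / η * θ ^ k * η)) * ‖v.1‖) atTop (𝓝 0) := by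
      have h1 := tendsto_pow_atTop_nhds_zero_of_lt_one hθ0 hθ1
      have h2 := ((h1.const_mul (N * (2 * M / η) * η * ‖v.1‖)))
      rw [mul_zero] at h2
      refine h2.congr fun k => ?_
      ring
    obtain ⟨k, hk⟩ := (hten.eventually_lt_const hε).exists
    obtain ⟨w, ⟨t, ht, hch⟩, c, hc, hcv⟩ := hv k
    have hw1 : w.1 ≠ 0 := hcone.2 _ hch.left_mem
    have hwp : 0 < ‖w.1‖ := norm_pos_iff.2 hw1
    -- normalise
    set κ : ℂ := ((‖w.1‖⁻¹ : ℝ) : ℂ) with hκ
    have hκ0 : κ ≠ 0 := by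
      rw [hκ]
      exact_mod_cast (inv_pos.2 hwp).ne'
    have hy : ‖κ • w.1‖ = 1 := by
      rw [norm_smul, hκ, Complex.norm_real, Real.norm_eq_abs, abs_of_pos (inv_pos.2 hwp)]
      field_simp
    have hch2 := hch.smul hcone hκ0
    have hcon := chain_contraction hU hη hM0 hM hy k hch2
    obtain ⟨r, hr, hit⟩ := iter_eq s hy k
    set y' := yb s (κ • w.1) k with hy'
    have hy'n : ‖y'‖ = 1 := yb_norm s hy k
    set α := itr (hb s (κ • w.1)) k (κ • w.2) with hα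
    set β := itr (hb s (κ • w.1)) k (κ • t) with hβ
    have hr0 : (r : ℂ) ≠ 0 := by exact_mod_cast hr.ne'
    -- the point with `β` is in `S`
    have hSit : ∀ (n : ℕ) (p : B2 × W), p ∈ S → s.F^[n] p ∈ S := by
      intro n
      induction n with
      | zero => intro p hp; exact hp
      | succ n ih => intro p hp; rw [Function.iterate_succ_apply]; exact ih _ (hFS p hp)
    have hβS : (y', β) ∈ S := by
      have h1 : (κ • w.1, κ • t) ∈ S := by
        have := hS.cone.1 κ hκ0 _ ht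
        simpa using this
      have h2 := hSit k _ h1
      rw [hit] at h2
      have h3 := hS.cone.1 (r : ℂ)⁻¹ (inv_ne_zero hr0) _ h2
      rwa [inv_smul_smul₀ hr0] at h3
    -- the point with `α` is a multiple of `v`
    have hFk : ∀ (n : ℕ) (q : ℂ) (p : B2 × W), q ≠ 0 → ∃ q' : ℂ, q' ≠ 0 ∧
        s.F^[n] (q • p) = q' • s.F^[n] p := by
      intro n
      induction n with
      | zero => intro q p hq; exact ⟨q, hq, rfl⟩
      | succ n ih =>
        intro q p hq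
        rw [Function.iterate_succ_apply, Function.iterate_succ_apply, s.F_hom]
        exact ih (q ^ s.d) (s.F p) (pow_ne_zero _ hq)
    obtain ⟨q', hq', hq⟩ := hFk k κ w hκ0
    have hα1 : (r : ℂ) • (y', α) = (q' * c) • v := by
      rw [← hit, mul_smul, ← hcv, ← hq]
      rfl
    set l : ℂ := (r : ℂ)⁻¹ * (q' * c) with hl'
    have hl0 : l ≠ 0 := mul_ne_zero (inv_ne_zero hr0) (mul_ne_zero hq' hc)
    have hα2 : (y', α) = l • v := by
      rw [hl', mul_smul, ← hα1, inv_smul_smul₀ hr0]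
    have hlv : ‖l‖ * ‖v.1‖ = 1 := by
      have : y' = l • v.1 := congrArg Prod.fst hα2
      rw [← norm_smul, ← this, hy'n]
    have hlp : 0 < ‖l‖ := norm_pos_iff.2 hl0
    refine ⟨l⁻¹ • (y', β), hS.cone.1 _ (inv_ne_zero hl0) _ hβS, ?_⟩
    have hv2 : v = l⁻¹ • (y', α) := by rw [hα2, inv_smul_smul₀ hl0]
    rw [hv2, dist_eq_norm, ← smul_sub, norm_smul, norm_inv]
    have h7 : ‖((y', α) : B2 × W) - (y', β)‖ = ‖β - α‖ := by
      rw [Prod.norm_def]
      simp [norm_sub_rev]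
    rw [h7]
    have h8 : ‖l‖⁻¹ = ‖v.1‖ := by
      field_simp
      linarith
    rw [h8]
    calc ‖v.1‖ * ‖β - α‖ ≤ ‖v.1‖ * (N * (2 * M / η * θ ^ k * η)) := by gcongr
      _ = (N * (2 * M / η * θ ^ k * η)) * ‖v.1‖ := by ring
      _ < ε := hk

end

end MF7
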