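import Pool.Agent.Lib.MF7_Base

/-!
# Chains in the fibres
-/

set_option autoImplicit false
set_option linter.unusedSectionVars false

open Set Metric Filter Topology

namespace MF7

section
variable {W : Type} [NormedAddCommGroup W] [NormedSpace ℂ W]

/-- chains of length `n` in the fibre of `D` over `x`, steps smaller than `η ‖x‖` -/
def Chain (D : Set (B2 × W)) (η : ℝ) (x : B2) (n : ℕ) (a b : W) : Prop :=
  ∃ c : ℕ → W, c 0 = a ∧ c n = b ∧ (∀ i ≤ n, (x, c i) ∈ D) ∧
    ∀ i < n, ‖c (i + 1) - c i‖ < η * ‖x‖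

theorem Chain.refl {D : Set (B2 × W)} {η : ℝ} {x : B2} {a : W} (ha : (x, a) ∈ D) :
    Chain D η x 0 a a :=
  ⟨fun _ => a, rfl, rfl, fun _ _ => ha, fun i hi => absurd hi (Nat.not_lt_zero i)⟩

theorem Chain.left_mem {D : Set (B2 × W)} {η : ℝ} {x : B2} {n : ℕ} {a b : W}
    (h : Chain D η x n a b) : (x, a) ∈ D := by
  obtain ⟨c, h0, -, h2, -⟩ := h
  rw [← h0]
  exact h2 0 (Nat.zero_le _)

theorem Chain.right_mem {D : Set (B2 × W)} {η : ℝ} {x : B2} {n : ℕ} {a b : W}
    (h : Chain D η x n a b) : (x, b) ∈ D := by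
  obtain ⟨c, -, h1, h2, -⟩ := h
  rw [← h1]
  exact h2 n le_rfl

theorem Chain.symm {D : Set (B2 × W)} {η : ℝ} {x : B2} {n : ℕ} {a b : W}
    (h : Chain D η x n a b) : Chain D η x n b a := by
  obtain ⟨c, h0, h1, h2, h3⟩ := h
  refine ⟨fun i => c (n - i), by simpa using h1, by simpa using h0,
    fun i hi => h2 _ (Nat.sub_le _ _), fun i hi => ?_⟩
  have : n - i = (n - (i + 1)) + 1 := by omega
  show ‖c (n - (i + 1)) - c (n - i)‖ < η * ‖x‖
  rw [this, norm_sub_rev]
  exact h3 _ (by omega)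

theorem Chain.trans {D : Set (B2 × W)} {η : ℝ} {x : B2} {n m : ℕ} {a b e : W}
    (h : Chain D η x n a b) (h' : Chain D η x m b e) : Chain D η x (n + m) a e := by
  obtain ⟨c, h0, h1, h2, h3⟩ := h
  obtain ⟨c', h0', h1', h2', h3'⟩ := h'
  refine ⟨fun i => if i ≤ n then c i else c' (i - n), by simp [h0], ?_, fun i hi => ?_,
    fun i hi => ?_⟩
  · by_cases hm : m = 0
    · subst hm
      simp only [Nat.add_zero, le_refl, if_true, h1]
      rw [← h0', h1']
    · simp only [show ¬ (n + m ≤ n) by omega, if_false]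
      rw [show n + m - n = m by omega, h1']
  · by_cases hin : i ≤ n
    · simp only [hin, if_true]
      exact h2 i hin
    · simp only [hin, if_false]
      exact h2' _ (by omega)
  · by_cases hin : i + 1 ≤ n
    · simp only [hin, if_true, show i ≤ n by omega]
      exact h3 i (by omega)
    · by_cases hin' : i ≤ n
      · have : i = n := by omega
        subst this
        simp only [hin, if_false, le_refl, if_true, h1]
        rw [show i + 1 - i = 0 + 1 by omega, ← h0']
        exact h3' 0 (by omega)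
      · simp only [hin, if_false, hin']
        rw [show i + 1 - n = (i - n) + 1 by omega]
        exact h3' _ (by omega)

theorem Chain.single {D : Set (B2 × W)} {η : ℝ} {x : B2} {a b : W} (ha : (x, a) ∈ D)
    (hb : (x, b) ∈ D) (hab : ‖b - a‖ < η * ‖x‖) : Chain D η x 1 a b := by
  refine ⟨fun i => if i = 0 then a else b, by simp, by simp, fun i hi => ?_, fun i hi => ?_⟩
  · by_cases h : i = 0
    · simpa [h] using ha
    · simpa [h] using hb
  · have : i = 0 := by omega
    subst this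
    simpa using hab

/-- padding -/
theorem Chain.mono {D : Set (B2 × W)} {η : ℝ} (hη : 0 < η) {x : B2} (hx : x ≠ 0) {n m : ℕ}
    {a b : W} (h : Chain D η x n a b) (hnm : n ≤ m) : Chain D η x m a b := by
  obtain ⟨k, rfl⟩ := Nat.exists_eq_add_of_le hnm
  clear hnm
  induction k with
  | zero => simpa using h
  | succ k ih =>
    have h1 : Chain D η x 1 b b := Chain.single h.right_mem h.right_mem (by
      simpa using mul_pos hη (norm_pos_iff.2 hx))
    have h2 := Chain.trans ih h1
    exact h2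

/-- scaling -/
theorem Chain.smul {D : Set (B2 × W)} (hD : IsCone D) {η : ℝ} {x : B2} {n : ℕ} {a b : W}
    (h : Chain D η x n a b) {k : ℂ} (hk : k ≠ 0) : Chain D η (k • x) n (k • a) (k • b) := by
  obtain ⟨c, h0, h1, h2, h3⟩ := h
  refine ⟨fun i => k • c i, by simp [h0], by simp [h1], fun i hi => ?_, fun i hi => ?_⟩
  · have := hD.1 k hk _ (h2 i hi)
    simpa using this
  · rw [← smul_sub, norm_smul, norm_smul]
    have := h3 i hi
    have hk' : 0 < ‖k‖ := norm_pos_iff.2 hk
    calc ‖k‖ * ‖c (i + 1) - c i‖ < ‖k‖ * (η * ‖x‖) := by gcongr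
      _ = η * (‖k‖ * ‖x‖) := by ring

/-- openness -/
theorem Chain.eventually {D : Set (B2 × W)} (hD : IsOpen D) {η : ℝ} (hη : 0 < η) {x : B2}
    (hx : x ≠ 0) {n : ℕ} {a b : W} (h : Chain D η x n a b) :
    ∀ᶠ p : B2 × W × W in 𝓝 (x, a, b), Chain D η p.1 (n + 2) p.2.1 p.2.2 := by
  obtain ⟨c, h0, h1, h2, h3⟩ := h
  have hpos : 0 < η * ‖x‖ := mul_pos hη (norm_pos_iff.2 hx)
  have hcn : Continuous fun p : B2 × W × W => η * ‖p.1‖ := by fun_prop
  have e1 : ∀ᶠ p : B2 × W × W in 𝓝 (x, a, b), ∀ i ∈ Finset.range (n + 1), (p.1, c i) ∈ D := by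
    rw [Filter.eventually_all_finset]
    intro i hi
    have hc : Continuous fun p : B2 × W × W => (p.1, c i) := by fun_prop
    exact hc.continuousAt.eventually (hD.mem_nhds (h2 i (by simpa [Nat.lt_succ_iff] using hi)))
  have e2 : ∀ᶠ p : B2 × W × W in 𝓝 (x, a, b), ∀ i ∈ Finset.range n,
      ‖c (i + 1) - c i‖ < η * ‖p.1‖ := by
    rw [Filter.eventually_all_finset]
    intro i hi
    exact hcn.continuousAt.eventually (lt_mem_nhds (h3 i (by simpa using hi)))
  have e3 : ∀ᶠ p : B2 × W × W in 𝓝 (x, a, b), (p.1, p.2.1) ∈ D := by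
    have hc : Continuous fun p : B2 × W × W => (p.1, p.2.1) := by fun_prop
    exact hc.continuousAt.eventually (hD.mem_nhds (by simpa [h0] using h2 0 (Nat.zero_le _)))
  have e4 : ∀ᶠ p : B2 × W × W in 𝓝 (x, a, b), (p.1, p.2.2) ∈ D := by
    have hc : Continuous fun p : B2 × W × W => (p.1, p.2.2) := by fun_prop
    exact hc.continuousAt.eventually (hD.mem_nhds (by simpa [h1] using h2 n le_rfl))
  have e5 : ∀ᶠ p : B2 × W × W in 𝓝 (x, a, b), ‖c 0 - p.2.1‖ < η * ‖p.1‖ := by
    have hc : Continuous fun p : B2 × W × W => η * ‖p.1‖ - ‖c 0 - p.2.1‖ := by fun_prop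
    have := (hc.tendsto (x, a, b)).eventually_const_lt (u := 0) (by simpa [h0] using hpos)
    filter_upwards [this] with p hp
    linarith
  have e6 : ∀ᶠ p : B2 × W × W in 𝓝 (x, a, b), ‖p.2.2 - c n‖ < η * ‖p.1‖ := by
    have hc : Continuous fun p : B2 × W × W => η * ‖p.1‖ - ‖p.2.2 - c n‖ := by fun_prop
    have := (hc.tendsto (x, a, b)).eventually_const_lt (u := 0) (by simpa [h1] using hpos)
    filter_upwards [this] with p hp
    linarith
  filter_upwards [e1, e2, e3, e4, e5, e6] with p p1 p2 p3 p4 p5 p6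
  have hmid : Chain D η p.1 n (c 0) (c n) :=
    ⟨c, rfl, rfl, fun i hi => p1 i (by simpa [Nat.lt_succ_iff] using hi),
      fun i hi => p2 i (by simpa using hi)⟩
  have hl : Chain D η p.1 1 p.2.1 (c 0) := Chain.single p3 hmid.left_mem p5
  have hr : Chain D η p.1 1 (c n) p.2.2 := Chain.single hmid.right_mem p4 p6
  have := (hl.trans hmid).trans hr
  rwa [show 1 + n + 1 = n + 2 by omega] at this

end

end MF7
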