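import Pool.Agent.Lib.MF7_R9a

/-!
# Bounding the length of chains
-/

set_option autoImplicit false
set_option linter.unusedSectionVars false

open Set Metric Filter Topology

namespace MF7

section
variable {W : Type} [NormedAddCommGroup W] [NormedSpace ℂ W]

/-- in a shortest chain non-neighbours are far apart -/
theorem Chain.exists_separated {D : Set (B2 × W)} {η : ℝ} {x : B2} {n : ℕ} {a b : W}
    (h : Chain D η x n a b) :
    ∃ m : ℕ, ∃ c : ℕ → W, c 0 = a ∧ c m = b ∧ (∀ i ≤ m, (x, c i) ∈ D) ∧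
      (∀ i < m, ‖c (i + 1) - c i‖ < η * ‖x‖) ∧
      ∀ i j, i + 2 ≤ j → j ≤ m → η * ‖x‖ ≤ ‖c j - c i‖ := by
  classical
  have hex : ∃ m, Chain D η x m a b := ⟨n, h⟩
  obtain ⟨c, h0, h1, h2, h3⟩ := Nat.find_spec hex
  refine ⟨Nat.find hex, c, h0, h1, h2, h3, fun i j hij hj => ?_⟩
  by_contra hlt
  push Not at hlt
  have c1 : Chain D η x i a (c i) :=
    ⟨c, h0, rfl, fun k hk => h2 k (by omega), fun k hk => h3 k (by omega)⟩
  have c2 : Chain D η x 1 (c i) (c j) := Chain.single (h2 i (by omega)) (h2 j hj) hlt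
  have c3 : Chain D η x (Nat.find hex - j) (c j) b := by
    refine ⟨fun k => c (j + k), by simp, ?_, fun k hk => h2 _ (by omega), fun k hk => ?_⟩
    · show c (j + (Nat.find hex - j)) = b
      rw [show j + (Nat.find hex - j) = Nat.find hex by omega, h1]
    · have := h3 (j + k) (by omega)
      simpa [Nat.add_assoc] using this
  have c4 := (c1.trans c2).trans c3
  exact Nat.find_min hex (m := i + 1 + (Nat.find hex - j)) (by omega) c4

/-- uniform bound for the length of chains -/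
theorem exists_chain_bound [FiniteDimensional ℂ W] {D : Set (B2 × W)} {η M : ℝ} (hη : 0 < η)
    (hM : ∀ v ∈ D, ‖v.2‖ ≤ M * ‖v.1‖) :
    ∃ N : ℕ, ∀ (x : B2), x ≠ 0 → ∀ (n : ℕ) (a b : W), Chain D η x n a b →
      Chain D η x N a b := by
  classical
  have : ProperSpace W := FiniteDimensional.proper ℂ W
  obtain ⟨t, -, ht⟩ := (isCompact_closedBall (0 : W) M).elim_nhds_subcover
    (fun y => ball y (η / 2)) (fun y _ => ball_mem_nhds y (half_pos hη))
  refine ⟨2 * t.card + 1, fun x hx n a b h => ?_⟩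
  obtain ⟨m, c, h0, h1, h2, h3, h4⟩ := h.exists_separated
  have hxp : 0 < ‖x‖ := norm_pos_iff.2 hx
  suffices hm : m ≤ 2 * t.card + 1 from
    Chain.mono hη hx (⟨c, h0, h1, h2, h3⟩ : Chain D η x m a b) hm
  by_contra hcon
  push Not at hcon
  have key : ∀ i ≤ m, ∃ y ∈ t, (((‖x‖⁻¹ : ℝ) : ℂ) • c i) ∈ ball (y : W) (η / 2) := by
    intro i hi
    have hb : (((‖x‖⁻¹ : ℝ) : ℂ) • c i) ∈ closedBall (0 : W) M := by
      rw [mem_closedBall_zero_iff, norm_smul, Complex.norm_real, Real.norm_eq_abs,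
        abs_of_pos (inv_pos.2 hxp)]
      have := hM _ (h2 i hi)
      calc ‖x‖⁻¹ * ‖c i‖ ≤ ‖x‖⁻¹ * (M * ‖x‖) := by gcongr
        _ = M := by field_simp
    have := ht hb
    simp only [mem_iUnion] at this
    obtain ⟨y, hy, hy'⟩ := this
    exact ⟨y, hy, hy'⟩
  choose! y hyt hy using key
  have hmaps : ∀ i ∈ Finset.range (t.card + 1), y (2 * i) ∈ t := by
    intro i hi
    exact hyt _ (by have := Finset.mem_range.1 hi; omega)
  obtain ⟨i, hi, j, hj, hne, heq⟩ := Finset.exists_ne_map_eq_of_card_lt_of_maps_to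
    (by simp : t.card < (Finset.range (t.card + 1)).card) hmaps
  have hi' := Finset.mem_range.1 hi
  have hj' := Finset.mem_range.1 hj
  wlog hlt : i < j generalizing i j
  · exact this j hj i hi hne.symm heq.symm hj' hi' (by omega)
  have d1 := hy (2 * i) (by omega)
  have d2 := hy (2 * j) (by omega)
  rw [heq] at d1
  have d3 : ‖(((‖x‖⁻¹ : ℝ) : ℂ) • c (2 * j)) - (((‖x‖⁻¹ : ℝ) : ℂ) • c (2 * i))‖ < η := by
    rw [← dist_eq_norm]
    calc _ ≤ dist (((‖x‖⁻¹ : ℝ) : ℂ) • c (2 * j)) ((y (2 * j) : W)) +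
          dist (((‖x‖⁻¹ : ℝ) : ℂ) • c (2 * i)) ((y (2 * j) : W)) := dist_triangle_right _ _ _
      _ < η / 2 + η / 2 := add_lt_add (mem_ball.1 d2) (mem_ball.1 d1)
      _ = η := by ring
  rw [← smul_sub, norm_smul, Complex.norm_real, Real.norm_eq_abs, abs_of_pos (inv_pos.2 hxp)] at d3
  have d4 := h4 (2 * i) (2 * j) (by omega) (by omega)
  have d5 : ‖x‖⁻¹ * (η * ‖x‖) ≤ ‖x‖⁻¹ * ‖c (2 * j) - c (2 * i)‖ := by gcongr
  rw [show ‖x‖⁻¹ * (η * ‖x‖) = η by field_simp] at d5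
  linarith

/-- a path with values in the fibre gives a chain -/
theorem chain_of_path {D : Set (B2 × W)} {η : ℝ} (hη : 0 < η) {x : B2} (hx : x ≠ 0)
    {γ : ℝ → W} (hγ : ContinuousOn γ (Icc 0 1)) (hD : ∀ t ∈ Icc (0 : ℝ) 1, (x, γ t) ∈ D) :
    ∃ m, Chain D η x m (γ 0) (γ 1) := by
  have hpos : 0 < η * ‖x‖ := mul_pos hη (norm_pos_iff.2 hx)
  have hu := isCompact_Icc.uniformContinuousOn_of_continuous hγ
  rw [Metric.uniformContinuousOn_iff] at hu
  obtain ⟨δ, hδ, hδ'⟩ := hu _ hpos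
  obtain ⟨m, hm⟩ := exists_nat_gt (1 / δ)
  have hm0 : (0 : ℝ) < m := lt_trans (by positivity) hm
  have hmN : 0 < m := by exact_mod_cast hm0
  refine ⟨m, fun i => γ (i / m), by simp, by simp [div_self hm0.ne'], fun i hi => ?_,
    fun i hi => ?_⟩
  · refine hD _ ⟨by positivity, ?_⟩
    rw [div_le_one hm0]
    exact_mod_cast hi
  · rw [← dist_eq_norm]
    have hi0 : (i : ℝ) / m ∈ Icc (0 : ℝ) 1 := ⟨by positivity, by
      rw [div_le_one hm0]; exact_mod_cast hi.le⟩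
    have hi1 : ((i + 1 : ℕ) : ℝ) / m ∈ Icc (0 : ℝ) 1 := ⟨by positivity, by
      rw [div_le_one hm0]; exact_mod_cast hi⟩
    refine hδ' _ hi1 _ hi0 ?_
    rw [Real.dist_eq, ← sub_div]
    have : ((i + 1 : ℕ) : ℝ) - i = 1 := by push_cast; ring
    rw [this, abs_of_pos (by positivity)]
    rw [div_lt_iff₀ hm0]
    rw [div_lt_iff₀ hδ] at hm
    linarith

end

end MF7
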