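import Pool.Agent.Lib.MF7_R9b
import Pool.Agent.Lib.MF7_R1
import Pool.Agent.Lib.MF7_R2
import Pool.Agent.Lib.MF7_Hull

/-!
# The fibre neighbourhood
-/

set_option autoImplicit false
set_option linter.unusedSectionVars false

open Set Metric Filter Topology

namespace MF7

section
variable {W : Type} [NormedAddCommGroup W] [NormedSpace ℂ W]

/-- the cone over the image of the closure -/
def core (s : Sys W) (U : Set (B2 × W)) : Set (B2 × W) :=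
  {p | ∃ q ∈ closure U, q.1 ≠ 0 ∧ ∃ c : ℂ, c ≠ 0 ∧ p = c • s.F q}

/-- a conical neighbourhood of the core -/
def Wt (s : Sys W) (U : Set (B2 × W)) (η : ℝ) : Set (B2 × W) :=
  {v | ∃ p ∈ core s U, ‖v - p‖ < η * ‖p.1‖}

theorem core_ne {s : Sys W} {U : Set (B2 × W)} {p : B2 × W} (hp : p ∈ core s U) : p.1 ≠ 0 := by
  obtain ⟨q, -, hq, c, hc, rfl⟩ := hp
  exact smul_ne_zero hc (s.g_ne _ hq)

/-- the margin of the core -/
def Marg (s : Sys W) (U : Set (B2 × W)) (η : ℝ) : Prop :=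
  0 < η ∧ η ≤ 1 / 4 ∧ ∀ p ∈ core s U, ∀ e : B2 × W, ‖e‖ ≤ 4 * η * ‖p.1‖ → p + e ∈ U

theorem exists_marg [FiniteDimensional ℂ W] {s : Sys W} {U : Set (B2 × W)} (hU : Trap s U) :
    ∃ η, Marg s U η := by
  obtain ⟨η₀, h0, h⟩ := hU.margin
  refine ⟨min (η₀ / 4) (1 / 4), by positivity, min_le_right _ _, ?_⟩
  rintro p ⟨q, hq, hq1, c, hc, rfl⟩ e he
  have hcp : 0 < ‖c‖ := norm_pos_iff.2 hc
  have h1 : ‖c⁻¹ • e‖ ≤ η₀ * ‖(s.F q).1‖ := by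
    rw [norm_smul, norm_inv]
    have h2 : ‖(c • s.F q).1‖ = ‖c‖ * ‖(s.F q).1‖ := by
      rw [Prod.smul_fst, norm_smul]
    rw [h2] at he
    have h3 : 4 * min (η₀ / 4) (1 / 4) ≤ η₀ := by
      have := min_le_left (η₀ / 4) (1 / 4 : ℝ)
      linarith
    calc ‖c‖⁻¹ * ‖e‖ ≤ ‖c‖⁻¹ * (4 * min (η₀ / 4) (1 / 4) * (‖c‖ * ‖(s.F q).1‖)) := by gcongr
      _ ≤ ‖c‖⁻¹ * (η₀ * (‖c‖ * ‖(s.F q).1‖)) := by gcongr
      _ = η₀ * ‖(s.F q).1‖ := by field_simp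
  have h4 := hU.cone.1 c hc _ (h q hq hq1 _ h1)
  rwa [smul_add, smul_inv_smul₀ hc] at h4

theorem core_subset_Wt {s : Sys W} {U : Set (B2 × W)} {η : ℝ} (hη : 0 < η) :
    core s U ⊆ Wt s U η := by
  intro p hp
  refine ⟨p, hp, ?_⟩
  rw [sub_self, norm_zero]
  exact mul_pos hη (norm_pos_iff.2 (core_ne hp))

theorem Wt_open (s : Sys W) (U : Set (B2 × W)) (η : ℝ) : IsOpen (Wt s U η) := by
  have : Wt s U η = ⋃ p ∈ core s U, ball p (η * ‖p.1‖) := by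
    ext v
    simp [Wt, dist_eq_norm]
  rw [this]
  exact isOpen_biUnion fun p _ => isOpen_ball

theorem Marg.Wt_ne {s : Sys W} {U : Set (B2 × W)} {η : ℝ} (h : Marg s U η) {v : B2 × W}
    {p : B2 × W} (hp : p ∈ core s U) (hv : ‖v - p‖ < η * ‖p.1‖) :
    ‖v.1‖ ≤ (1 + η) * ‖p.1‖ ∧ (1 - η) * ‖p.1‖ ≤ ‖v.1‖ := by
  have h1 : ‖v.1 - p.1‖ ≤ ‖v - p‖ := norm_fst_le (v - p)
  have h2 : ‖v.1‖ ≤ ‖p.1‖ + ‖v.1 - p.1‖ := by
    calc ‖v.1‖ = ‖p.1 + (v.1 - p.1)‖ := by congr 1; abel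
      _ ≤ _ := norm_add_le _ _
  have h3 : ‖p.1‖ ≤ ‖v.1‖ + ‖v.1 - p.1‖ := by
    calc ‖p.1‖ = ‖v.1 - (v.1 - p.1)‖ := by congr 1; abel
      _ ≤ _ := norm_sub_le _ _
  constructor <;> nlinarith

theorem Marg.Wt_cone {s : Sys W} {U : Set (B2 × W)} {η : ℝ} (h : Marg s U η) :
    IsCone (Wt s U η) := by
  constructor
  · rintro c hc v ⟨p, ⟨q, hq, hq1, k, hk, rfl⟩, hv⟩
    refine ⟨(c * k) • s.F q, ⟨q, hq, hq1, c * k, mul_ne_zero hc hk, rfl⟩, ?_⟩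
    rw [mul_smul, ← smul_sub, norm_smul, Prod.smul_fst, norm_smul]
    have hcp : 0 < ‖c‖ := norm_pos_iff.2 hc
    nlinarith
  · rintro v ⟨p, hp, hv⟩ h0
    have h1 := (h.Wt_ne hp hv).2
    rw [h0, norm_zero] at h1
    have h2 := norm_pos_iff.2 (core_ne hp)
    have h3 := h.2.1
    nlinarith

/-- points near the closure of `Wt` in the fibre belong to `U` -/
theorem Marg.near {s : Sys W} {U : Set (B2 × W)} {η : ℝ} (h : Marg s U η) {v : B2 × W}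
    (hv : v ∈ closure (Wt s U η)) (hv1 : v.1 ≠ 0) {z : W} (hz : ‖z‖ ≤ η * ‖v.1‖) :
    (v.1, v.2 + z) ∈ U := by
  obtain ⟨hη, hη4, hm⟩ := h
  have hvp : 0 < ‖v.1‖ := norm_pos_iff.2 hv1
  obtain ⟨v', ⟨p, hp, hv'⟩, hd⟩ := Metric.mem_closure_iff.1 hv (η / 4 * ‖v.1‖) (by positivity)
  have hpp : 0 < ‖p.1‖ := norm_pos_iff.2 (core_ne hp)
  rw [dist_eq_norm] at hd
  have h1 : ‖v.1 - p.1‖ ≤ ‖v - p‖ := norm_fst_le (v - p)
  have h2 : ‖v - p‖ ≤ ‖v - v'‖ + ‖v' - p‖ := by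
    calc ‖v - p‖ = ‖(v - v') + (v' - p)‖ := by congr 1; abel
      _ ≤ _ := norm_add_le _ _
  have h3 : ‖v.1‖ ≤ ‖p.1‖ + ‖v.1 - p.1‖ := by
    calc ‖v.1‖ = ‖p.1 + (v.1 - p.1)‖ := by congr 1; abel
      _ ≤ _ := norm_add_le _ _
  have h4 : ‖v.1‖ ≤ 2 * ‖p.1‖ := by nlinarith
  have e1 : (v.1, v.2 + z) = p + ((v - p) + ((0 : B2), z)) := by
    refine Prod.ext (by simp) ?_
    show v.2 + z = p.2 + ((v.2 - p.2) + z)
    abel
  rw [e1]
  refine hm p hp _ ?_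
  have h5 : ‖((0 : B2), z)‖ = ‖z‖ := by
    rw [Prod.norm_def]
    simp
  calc ‖(v - p) + ((0 : B2), z)‖ ≤ ‖v - p‖ + ‖((0 : B2), z)‖ := norm_add_le _ _
    _ ≤ (‖v - v'‖ + ‖v' - p‖) + η * ‖v.1‖ := by rw [h5]; gcongr
    _ ≤ (η / 4 * (2 * ‖p.1‖) + η * ‖p.1‖) + η * (2 * ‖p.1‖) := by
        have : ‖v - v'‖ ≤ η / 4 * (2 * ‖p.1‖) := by
          refine hd.le.trans ?_
          gcongr
        have h6 : η * ‖v.1‖ ≤ η * (2 * ‖p.1‖) := by gcongr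
        linarith
    _ ≤ 4 * η * ‖p.1‖ := by nlinarith

theorem Marg.near' {s : Sys W} {U : Set (B2 × W)} {η : ℝ} (h : Marg s U η) {v : B2 × W}
    (hv : v ∈ Wt s U η) {z : W} (hz : ‖z‖ ≤ 2 * η * ‖v.1‖) : (v.1, v.2 + z) ∈ U := by
  obtain ⟨hη, hη4, hm⟩ := id h
  obtain ⟨p, hp, hvp⟩ := hv
  have hpp : 0 < ‖p.1‖ := norm_pos_iff.2 (core_ne hp)
  have h3 := (h.Wt_ne hp hvp).1
  have e1 : (v.1, v.2 + z) = p + ((v - p) + ((0 : B2), z)) := by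
    refine Prod.ext (by simp) ?_
    show v.2 + z = p.2 + ((v.2 - p.2) + z)
    abel
  rw [e1]
  refine hm p hp _ ?_
  have h5 : ‖((0 : B2), z)‖ = ‖z‖ := by
    rw [Prod.norm_def]
    simp
  calc ‖(v - p) + ((0 : B2), z)‖ ≤ ‖v - p‖ + ‖((0 : B2), z)‖ := norm_add_le _ _
    _ ≤ η * ‖p.1‖ + 2 * η * ((1 + η) * ‖p.1‖) := by
        rw [h5]
        have : 2 * η * ‖v.1‖ ≤ 2 * η * ((1 + η) * ‖p.1‖) := by gcongr
        linarith
    _ ≤ 4 * η * ‖p.1‖ := by nlinarith [mul_pos hη hpp]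

theorem Marg.Wt_subset {s : Sys W} {U : Set (B2 × W)} {η : ℝ} (h : Marg s U η) :
    Wt s U η ⊆ U := by
  intro v hv
  have := h.near' hv (z := 0) (by
    rw [norm_zero]
    have := h.1
    positivity)
  simpa using this

theorem F_mem_core {s : Sys W} {U : Set (B2 × W)} {v : B2 × W} (hv : v ∈ closure U)
    (h1 : v.1 ≠ 0) : s.F v ∈ core s U :=
  ⟨v, hv, h1, 1, one_ne_zero, by simp⟩

theorem step_image {s : Sys W} {U : Set (B2 × W)} {η : ℝ} (h : Marg s U η) {x : B2}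
    (hx : x ≠ 0) {a b : W} (ha : (x, a) ∈ closure (Wt s U η)) (hab : ‖b - a‖ ≤ η * ‖x‖) :
    ∃ m, Chain (Wt s U η) η (s.g x) m (s.h (x, a)) (s.h (x, b)) := by
  have hc : Continuous fun t : ℝ => s.h (x, a + (t : ℂ) • (b - a)) := by
    have h1 := s.h_diff.continuous
    fun_prop
  have := chain_of_path (D := Wt s U η) h.1 (s.g_ne x hx) (γ := fun t : ℝ =>
    s.h (x, a + (t : ℂ) • (b - a))) hc.continuousOn (fun t ht => by
      have hU : (x, a + (t : ℂ) • (b - a)) ∈ U := by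
        refine h.near ha hx ?_
        rw [norm_smul, Complex.norm_real, Real.norm_eq_abs, abs_of_nonneg ht.1]
        calc t * ‖b - a‖ ≤ 1 * ‖b - a‖ := by gcongr; exact ht.2
          _ ≤ η * ‖x‖ := by rw [one_mul]; exact hab
      exact core_subset_Wt h.1 (F_mem_core (subset_closure hU) hx))
  simpa using this

theorem chain_image {s : Sys W} {U : Set (B2 × W)} {η : ℝ} (h : Marg s U η) {x : B2}
    (hx : x ≠ 0) (c : ℕ → W) (n : ℕ) (hc : ∀ i ≤ n, (x, c i) ∈ closure (Wt s U η))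
    (hs : ∀ i < n, ‖c (i + 1) - c i‖ ≤ η * ‖x‖) :
    ∃ m, Chain (Wt s U η) η (s.g x) m (s.h (x, c 0)) (s.h (x, c n)) := by
  induction n with
  | zero =>
    have := step_image h hx (hc 0 le_rfl) (b := c 0) (by
      rw [sub_self, norm_zero]
      have := h.1
      positivity)
    exact this
  | succ n ih =>
    obtain ⟨m, hm⟩ := ih (fun i hi => hc i (by omega)) (fun i hi => hs i (by omega))
    obtain ⟨m', hm'⟩ := step_image h hx (hc n (by omega)) (b := c (n + 1)) (hs n (by omega))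
    exact ⟨m + m', hm.trans hm'⟩

end

end MF7
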