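import Pool.Agent.Lib.MF7_R9c

/-!
# Contraction along chains
-/

set_option autoImplicit false
set_option linter.unusedSectionVars false

open Set Metric Filter Topology

namespace MF7

section
variable {W : Type} [NormedAddCommGroup W] [NormedSpace ℂ W]

/-- normalised base orbit -/
noncomputable def yb (s : Sys W) (y : B2) : ℕ → B2
  | 0 => y
  | k + 1 => ((‖s.g (yb s y k)‖⁻¹ : ℝ) : ℂ) • s.g (yb s y k)

theorem yb_norm (s : Sys W) {y : B2} (hy : ‖y‖ = 1) (k : ℕ) : ‖yb s y k‖ = 1 := by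
  induction k with
  | zero => exact hy
  | succ k ih =>
    have hne : yb s y k ≠ 0 := by
      rw [← norm_pos_iff, ih]
      exact one_pos
    have hg : 0 < ‖s.g (yb s y k)‖ := norm_pos_iff.2 (s.g_ne _ hne)
    show ‖((‖s.g (yb s y k)‖⁻¹ : ℝ) : ℂ) • s.g (yb s y k)‖ = 1
    rw [norm_smul, Complex.norm_real, Real.norm_eq_abs, abs_of_pos (inv_pos.2 hg)]
    field_simp

/-- normalised fibre maps -/
noncomputable def hb (s : Sys W) (y : B2) (k : ℕ) (w : W) : W :=
  ((‖s.g (yb s y k)‖⁻¹ : ℝ) : ℂ) • s.h (yb s y k, w)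

theorem iter_eq (s : Sys W) {y : B2} (hy : ‖y‖ = 1) (k : ℕ) :
    ∃ r : ℝ, 0 < r ∧ ∀ w : W, s.F^[k] (y, w) = (r : ℂ) • (yb s y k, itr (hb s y) k w) := by
  induction k with
  | zero => exact ⟨1, one_pos, fun w => by simp [itr, yb]⟩
  | succ k ih =>
    obtain ⟨r, hr, h⟩ := ih
    have hne : yb s y k ≠ 0 := by
      rw [← norm_pos_iff, yb_norm s hy]
      exact one_pos
    have hg : 0 < ‖s.g (yb s y k)‖ := norm_pos_iff.2 (s.g_ne _ hne)
    refine ⟨r ^ s.d * ‖s.g (yb s y k)‖, by positivity, fun w => ?_⟩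
    rw [Function.iterate_succ_apply', h, s.F_hom]
    have hcc : ((‖s.g (yb s y k)‖ : ℝ) : ℂ) * ((‖s.g (yb s y k)‖⁻¹ : ℝ) : ℂ) = 1 := by
      rw [← Complex.ofReal_mul, mul_inv_cancel₀ hg.ne', Complex.ofReal_one]
    refine Prod.ext ?_ ?_
    · show (r : ℂ) ^ s.d • s.g (yb s y k) = ((r ^ s.d * ‖s.g (yb s y k)‖ : ℝ) : ℂ) •
        (((‖s.g (yb s y k)‖⁻¹ : ℝ) : ℂ) • s.g (yb s y k))
      rw [Complex.ofReal_mul, Complex.ofReal_pow, mul_smul, smul_smul (((‖_‖ : ℝ) : ℂ)), hcc,
        one_smul]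
    · show (r : ℂ) ^ s.d • s.h (yb s y k, itr (hb s y) k w) =
        ((r ^ s.d * ‖s.g (yb s y k)‖ : ℝ) : ℂ) •
        (((‖s.g (yb s y k)‖⁻¹ : ℝ) : ℂ) • s.h (yb s y k, itr (hb s y) k w))
      rw [Complex.ofReal_mul, Complex.ofReal_pow, mul_smul, smul_smul (((‖_‖ : ℝ) : ℂ)), hcc,
        one_smul]

/-- contraction of one step -/
theorem step_contraction {s : Sys W} {U : Set (B2 × W)} (hU : Trap s U) {η M : ℝ}
    (h : Marg s U η) (hM0 : 0 < M) (hM : ∀ v ∈ U, ‖v.2‖ ≤ M * ‖v.1‖) {y : B2} (hy : ‖y‖ = 1)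
    (k : ℕ) {a b : W} (ha : (y, a) ∈ Wt s U η) (hab : ‖b - a‖ < η) :
    ‖itr (hb s y) k b - itr (hb s y) k a‖ ≤
      2 * M / η * (1 / (1 + η / (2 * (2 * M)))) ^ k * η := by
  have hη := h.1
  have key := contraction (W := W) (fun j => {w | (yb s y j, w) ∈ U}) (hb s y)
    (fun j => by
      have : Continuous fun w : W => (yb s y j, w) := by fun_prop
      exact hU.op.preimage this)
    (fun j => by
      have : Differentiable ℂ (hb s y j) := by
        have h1 : Differentiable ℂ fun w : W => (yb s y j, w) :=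
          (differentiable_const _).prodMk differentiable_id
        exact (s.h_diff.comp h1).const_smul _
      exact this.differentiableOn)
    (η := η) (D := 2 * M) hη (by positivity)
    (fun j w hw w' hw' => by
      have hne : yb s y j ≠ 0 := by
        rw [← norm_pos_iff, yb_norm s hy]
        exact one_pos
      have hg : 0 < ‖s.g (yb s y j)‖ := norm_pos_iff.2 (s.g_ne _ hne)
      have hcc : ((‖s.g (yb s y j)‖⁻¹ : ℝ) : ℂ) * ((‖s.g (yb s y j)‖ : ℝ) : ℂ) = 1 := by
        rw [← Complex.ofReal_mul, inv_mul_cancel₀ hg.ne', Complex.ofReal_one]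
      have h1 : s.F (yb s y j, w) ∈ core s U := F_mem_core (subset_closure hw) hne
      have h2 := h.2.2 _ h1 ((0 : B2), ((‖s.g (yb s y j)‖ : ℝ) : ℂ) • (w' - hb s y j w)) (by
        have h5 : ‖((0 : B2), ((‖s.g (yb s y j)‖ : ℝ) : ℂ) • (w' - hb s y j w))‖ =
            ‖s.g (yb s y j)‖ * ‖w' - hb s y j w‖ := by
          rw [Prod.norm_def]
          simp [norm_smul]
          positivity
        rw [h5]
        show _ ≤ 4 * η * ‖s.g (yb s y j)‖
        nlinarith)
      have h3 := hU.cone.1 ((‖s.g (yb s y j)‖⁻¹ : ℝ) : ℂ) (by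
        exact_mod_cast (inv_pos.2 hg).ne') _ h2
      show (yb s y (j + 1), w') ∈ U
      convert h3 using 1
      refine Prod.ext ?_ ?_
      · show ((‖s.g (yb s y j)‖⁻¹ : ℝ) : ℂ) • s.g (yb s y j) =
          ((‖s.g (yb s y j)‖⁻¹ : ℝ) : ℂ) • (s.g (yb s y j) + 0)
        rw [add_zero]
      · show w' = ((‖s.g (yb s y j)‖⁻¹ : ℝ) : ℂ) •
          (s.h (yb s y j, w) + ((‖s.g (yb s y j)‖ : ℝ) : ℂ) • (w' - hb s y j w))
        rw [smul_add, smul_smul, hcc, one_smul]
        show w' = hb s y j w + (w' - hb s y j w)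
        abel)
    (fun j w hw w' hw' => by
      have h1 := hM _ hw
      have h2 := hM _ hw'
      simp only [yb_norm s hy, mul_one] at h1 h2
      calc ‖w - w'‖ ≤ ‖w‖ + ‖w'‖ := norm_sub_le _ _
        _ ≤ 2 * M := by linarith)
    a b (fun t ht z hz => by
      show (y, z) ∈ U
      rw [mem_ball, dist_eq_norm] at hz
      have h1 := h.near' ha (z := z - a) (by
        have : z - a = (z - (a + t • (b - a))) + t • (b - a) := by abel
        rw [this]
        calc _ ≤ ‖z - (a + t • (b - a))‖ + ‖t • (b - a)‖ := norm_add_le _ _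
          _ ≤ η + 1 * η := by
            rw [norm_smul, Real.norm_eq_abs, abs_of_nonneg ht.1]
            have h6 : t * ‖b - a‖ ≤ 1 * η := by
              have := ht.2
              have := ht.1
              gcongr
            linarith
          _ = 2 * η * ‖((y, a) : B2 × W).1‖ := by
            show η + 1 * η = 2 * η * ‖y‖
            rw [hy]
            ring)
      simpa using h1) k
  refine key.trans ?_
  have hθ : 0 ≤ 2 * M / η * (1 / (1 + η / (2 * (2 * M)))) ^ k := by positivity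
  gcongr

/-- contraction along chains -/
theorem chain_contraction {s : Sys W} {U : Set (B2 × W)} (hU : Trap s U) {η M : ℝ}
    (h : Marg s U η) (hM0 : 0 < M) (hM : ∀ v ∈ U, ‖v.2‖ ≤ M * ‖v.1‖) {y : B2} (hy : ‖y‖ = 1)
    (k : ℕ) {n : ℕ} {a b : W} (hab : Chain (Wt s U η) η y n a b) :
    ‖itr (hb s y) k b - itr (hb s y) k a‖ ≤
      n * (2 * M / η * (1 / (1 + η / (2 * (2 * M)))) ^ k * η) := by
  obtain ⟨c, h0, h1, h2, h3⟩ := hab
  rw [← h0, ← h1]
  clear h0 h1
  induction n with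
  | zero => simp
  | succ n ih =>
    have i1 := ih (fun i hi => h2 i (by omega)) (fun i hi => h3 i (by omega))
    have i2 := step_contraction hU h hM0 hM hy k (h2 n (by omega)) (b := c (n + 1)) (by
      have := h3 n (by omega)
      rwa [hy, mul_one] at this)
    have : itr (hb s y) k (c (n + 1)) - itr (hb s y) k (c 0) =
      (itr (hb s y) k (c (n + 1)) - itr (hb s y) k (c n)) +
        (itr (hb s y) k (c n) - itr (hb s y) k (c 0)) := by abel
    rw [this]
    refine (norm_add_le _ _).trans ?_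
    push_cast
    linarith

end

end MF7
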