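import Pool.Agent.Lib.MF7_TopDef

/-!
# Row T1: neighbourhoods of a minimal quasi-attractor (helper70)
-/

set_option autoImplicit false

open Set Filter Topology

namespace MF7

variable {Y : Type*} [TopologicalSpace Y]

theorem IsTrapping.image_subset {f : Y → Y} {U : Set Y} (hU : IsTrapping f U) :
    f '' U ⊆ U := (image_mono subset_closure).trans hU.2.2

theorem iterate_succ_image_closure {f : Y → Y} {U : Set Y} (hU : IsTrapping f U) (n : ℕ) :
    f^[n + 1] '' closure U ⊆ f^[n] '' U := by
  rw [Function.iterate_succ, image_comp]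
  exact image_mono hU.2.2

/-- the attracting set of a trapping region, in terms of the closure -/
theorem attr_eq {f : Y → Y} {U : Set Y} (hU : IsTrapping f U) :
    ⋂ n : ℕ, f^[n] '' U = ⋂ n : ℕ, f^[n] '' closure U := by
  apply Subset.antisymm
  · exact iInter_mono fun n => image_mono subset_closure
  · exact subset_iInter fun n => (iInter_subset _ (n + 1)).trans (iterate_succ_image_closure hU n)

theorem attr_forward {f : Y → Y} {U : Set Y} (hU : IsTrapping f U) {y : Y}
    (hy : y ∈ ⋂ n : ℕ, f^[n] '' U) : f y ∈ ⋂ n : ℕ, f^[n] '' U := by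
  rw [mem_iInter] at hy ⊢
  intro n
  obtain ⟨u, hu, rfl⟩ := hy n
  refine ⟨f u, hU.image_subset ⟨u, hu, rfl⟩, ?_⟩
  rw [← Function.iterate_succ_apply, Function.iterate_succ_apply']

theorem antitone_image_closure {f : Y → Y} {U : Set Y} (hU : IsTrapping f U) :
    Antitone fun n : ℕ => f^[n] '' closure U :=
  antitone_nat_of_succ_le fun n =>
    (iterate_succ_image_closure hU n).trans (image_mono subset_closure)

variable [CompactSpace Y]

theorem isCompact_image_closure {f : Y → Y} (hf : Continuous f) (U : Set Y) (n : ℕ) :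
    IsCompact (f^[n] '' closure U) := isClosed_closure.isCompact.image (hf.iterate n)

variable [T2Space Y]

theorem attr_isClosed {f : Y → Y} (hf : Continuous f) {U : Set Y} (hU : IsTrapping f U) :
    IsClosed (⋂ n : ℕ, f^[n] '' U) := by
  rw [attr_eq hU]
  exact isClosed_iInter fun n => (isCompact_image_closure hf U n).isClosed

theorem exists_trapping {f : Y → Y} (hf : Continuous f) {Q U N : Set Y} (hU : IsTrapping f U)
    (hN : IsOpen N) (hne : Q.Nonempty) (hfQ : ∀ y ∈ Q, f y ∈ Q) (hQU : Q ⊆ ⋂ n : ℕ, f^[n] '' U)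
    {m : ℕ} (hm : f^[m + 1] '' closure U ⊆ N) : ∃ U', IsTrapping f U' ∧ Q ⊆ U' ∧ U' ⊆ N := by
  have hfi : ∀ i : ℕ, ∀ y ∈ Q, f^[i] y ∈ Q := by
    intro i
    induction i with
    | zero => exact fun y hy => hy
    | succ i ih =>
      intro y hy
      rw [Function.iterate_succ_apply]
      exact ih _ (hfQ y hy)
  have hQK : Q ⊆ f^[m + 1] '' closure U :=
    hQU.trans ((iInter_subset _ (m + 1)).trans (image_mono subset_closure))
  have hsub : f^[m + 1] '' closure U ⊆ U :=
    (iterate_succ_image_closure hU m).trans (by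
      rintro _ ⟨u, hu, rfl⟩
      clear hm hQK
      induction m with
      | zero => exact hu
      | succ m ih =>
        rw [Function.iterate_succ_apply']
        exact hU.image_subset ⟨_, ih, rfl⟩)
  obtain ⟨ρ, hρ0, hρ1, hρ⟩ := exists_continuous_zero_one_of_isClosed
    (isCompact_image_closure hf U (m + 1)).isClosed (hN.inter hU.2.1).isClosed_compl
    (disjoint_compl_right_iff_subset.2 (subset_inter hm hsub))
  let t : ℕ → ℝ := fun i => 1 / ((i : ℝ) + 2)
  have ht : ∀ i, t (i + 1) < t i := by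
    intro i
    simp only [t]
    apply one_div_lt_one_div_of_lt
    · positivity
    · push_cast
      linarith
  have htpos : ∀ i, 0 < t i := fun i => by simp only [t]; positivity
  let U' : Set Y := {z | ∀ i ∈ Finset.range (m + 1), ρ (f^[i] z) < t i}
  have hU'N : U' ⊆ N ∩ U := by
    intro z hz
    by_contra hcon
    have h1 := hz 0 (Finset.mem_range.2 (Nat.succ_pos m))
    have h2 : ρ z = 1 := hρ1 hcon
    simp only [Function.iterate_zero, id_eq, h2, t] at h1
    norm_num at h1
  have hQU' : Q ⊆ U' := by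
    intro z hz i _
    have h1 : ρ (f^[i] z) = 0 := hρ0 (hQK (hfi i z hz))
    rw [h1]
    exact htpos i
  refine ⟨U', ⟨hne.mono hQU', ?_, ?_⟩, hQU', fun z hz => (hU'N hz).1⟩
  · have : U' = ⋂ i ∈ Finset.range (m + 1), {z | ρ (f^[i] z) < t i} := by
      ext z
      simp [U']
    rw [this]
    exact isOpen_biInter_finset fun i _ =>
      isOpen_lt (ρ.continuous.comp (hf.iterate i)) continuous_const
  · rintro _ ⟨z, hz, rfl⟩ i hi
    have hle : ∀ j ∈ Finset.range (m + 1), ρ (f^[j] z) ≤ t j := by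
      intro j hj
      have hcl : IsClosed {z | ρ (f^[j] z) ≤ t j} :=
        isClosed_le (ρ.continuous.comp (hf.iterate j)) continuous_const
      exact closure_minimal (fun w hw => (hw j hj).le) hcl hz
    have hzU : z ∈ closure U := closure_mono (fun w hw => (hU'N hw).2) hz
    rw [← Function.iterate_succ_apply]
    rcases Nat.lt_or_ge (i + 1) (m + 1) with h | h
    · exact (hle (i + 1) (Finset.mem_range.2 h)).trans_lt (ht i)
    · have h1 : i + 1 = m + 1 := le_antisymm (Nat.succ_le_of_lt (Finset.mem_range.1 hi)) h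
      have h2 : ρ (f^[i.succ] z) = 0 := by
        rw [Nat.succ_eq_add_one, h1]
        exact hρ0 ⟨z, hzU, rfl⟩
      rw [h2]
      exact htpos i

theorem IsMinimalQuasi.nhds {f : Y → Y} (hf : Continuous f) {Q : Set Y}
    (hQ : IsMinimalQuasi f Q) :
    IsClosed Q ∧ (∀ y ∈ Q, f y ∈ Q) ∧
      ∀ N, IsOpen N → Q ⊆ N → ∃ U, IsTrapping f U ∧ Q ⊆ U ∧ U ⊆ N := by
  classical
  obtain ⟨⟨hne, 𝒜, h𝒜ne, h𝒜, hQeq⟩, hmin⟩ := hQ
  choose! u hu using h𝒜
  have hclosed : IsClosed Q := by
    rw [hQeq]
    refine isClosed_sInter fun A hA => ?_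
    rw [(hu A hA).2]
    exact attr_isClosed hf (hu A hA).1
  have hfwd : ∀ y ∈ Q, f y ∈ Q := by
    intro y hy
    rw [hQeq] at hy ⊢
    intro A hA
    have h1 := hy A hA
    rw [(hu A hA).2] at h1 ⊢
    exact attr_forward (hu A hA).1 h1
  refine ⟨hclosed, hfwd, fun N hN hQN => ?_⟩
  -- finite intersections
  let W : Finset 𝒜 → Set Y := fun F => ⋂ a ∈ F, u a.1
  have hQW : ∀ F, Q ⊆ W F := by
    intro F
    refine subset_iInter₂ fun a _ => ?_
    rw [hQeq]
    refine (sInter_subset_of_mem a.2).trans ?_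
    conv_lhs => rw [(hu a.1 a.2).2]
    exact (iInter_subset _ 0).trans (by simp)
  have hW : ∀ F, IsTrapping f (W F) := by
    intro F
    refine ⟨hne.mono (hQW F), isOpen_biInter_finset fun a _ => (hu a.1 a.2).1.2.1, ?_⟩
    rintro _ ⟨z, hz, rfl⟩
    refine mem_iInter₂.2 fun a ha => ?_
    exact (hu a.1 a.2).1.2.2 ⟨z, closure_mono (iInter₂_subset a ha) hz, rfl⟩
  have hWanti : ∀ F G, F ⊆ G → W G ⊆ W F := fun F G hFG =>
    biInter_subset_biInter_left (fun a ha => hFG ha)
  let K : Finset 𝒜 × ℕ → Set Y := fun p => f^[p.2] '' closure (W p.1)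
  have hKc : ∀ p, IsCompact (K p) := fun p => isCompact_image_closure hf _ _
  have hKanti : ∀ p q : Finset 𝒜 × ℕ, p ≤ q → K q ⊆ K p := by
    intro p q hpq
    exact (antitone_image_closure (hW q.1) hpq.2).trans
      (image_mono (closure_mono (hWanti _ _ hpq.1)))
  have hdir : Directed (· ⊇ ·) K := by
    intro p q
    exact ⟨p ⊔ q, hKanti _ _ le_sup_left, hKanti _ _ le_sup_right⟩
  have hKne : ∀ p, (K p).Nonempty := fun p => (hW p.1).1.closure.image _
  -- the quasi-attractor of the finite intersections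
  let A' : Finset 𝒜 → Set Y := fun F => ⋂ n : ℕ, f^[n] '' W F
  have hK' : ⋂ p, K p = ⋂₀ range A' := by
    rw [sInter_range]
    ext y
    simp only [K, A', mem_iInter]
    constructor
    · intro h F
      have h1 : y ∈ ⋂ n : ℕ, f^[n] '' closure (W F) := mem_iInter.2 fun n => h (F, n)
      rw [← attr_eq (hW F)] at h1
      exact mem_iInter.1 h1
    · intro h p
      exact image_mono subset_closure (h p.1 p.2)
  have hne' : (⋂₀ range A').Nonempty := by
    rw [← hK']
    exact IsCompact.nonempty_iInter_of_directed_nonempty_isCompact_isClosed K hdir hKne hKc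
      fun p => (hKc p).isClosed
  have hqa : IsQuasiAttractor f (⋂₀ range A') := by
    refine ⟨hne', range A', range_nonempty _, ?_, rfl⟩
    rintro _ ⟨F, rfl⟩
    exact ⟨W F, hW F, rfl⟩
  have hsubQ : ⋂₀ range A' ⊆ Q := by
    rw [hQeq]
    refine subset_sInter fun A hA => ?_
    have h0 : A' {(⟨A, hA⟩ : 𝒜)} ∈ range A' := ⟨_, rfl⟩
    refine (sInter_subset_of_mem h0).trans ?_
    have h1 : W {(⟨A, hA⟩ : 𝒜)} = u A := by
      ext x
      simp only [W, Finset.mem_singleton, mem_iInter]
      exact ⟨fun h => h _ rfl, fun h i hi => by rw [hi]; exact h⟩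
    simp only [A', h1]
    conv_rhs => rw [(hu A hA).2]
  have heq : ⋂₀ range A' = Q := hmin _ hqa hsubQ
  obtain ⟨p, hp⟩ := exists_subset_nhds_of_isCompact' hdir hKc (fun p => (hKc p).isClosed)
    (U := N) (by
      intro x hx
      rw [hK', heq] at hx
      exact hN.mem_nhds (hQN hx))
  refine exists_trapping hf (hW p.1) hN hne hfwd ?_ (m := p.2) ?_
  · rw [← heq]
    exact sInter_subset_of_mem ⟨p.1, rfl⟩
  · exact (hKanti p (p.1, p.2 + 1) ⟨le_rfl, Nat.le_succ _⟩).trans hp

end MF7
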