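import Pool.Agent.Lib.MF7_T1

/-!
# MF7, row T2: from an iterate to an attracting set (helper2)
-/

set_option autoImplicit false

open Set Filter Topology

namespace MF7

namespace T2x

variable {Y : Type*} [TopologicalSpace Y]

/-- The image of a decreasing intersection of compact sets. -/
theorem image_iInter [T2Space Y] {Z : Type*} [TopologicalSpace Z] [T2Space Z] {f : Y → Z}
    (hf : Continuous f) {K : ℕ → Set Y} (hK : ∀ n, IsCompact (K n)) (hd : ∀ n, K (n + 1) ⊆ K n)
    {z : Z} (hz : ∀ n, z ∈ f '' K n) : z ∈ f '' ⋂ n, K n := by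
  have hanti : Antitone K := antitone_nat_of_succ_le hd
  have h1 : (⋂ n, K n ∩ f ⁻¹' {z}).Nonempty := by
    refine IsCompact.nonempty_iInter_of_directed_nonempty_isCompact_isClosed _ ?_ ?_ ?_ ?_
    · intro a b
      exact ⟨max a b, inter_subset_inter_left _ (hanti (le_max_left a b)),
        inter_subset_inter_left _ (hanti (le_max_right a b))⟩
    · intro n
      obtain ⟨y, hy, hyz⟩ := hz n
      exact ⟨y, hy, hyz⟩
    · intro n
      exact (hK n).inter_right (isClosed_singleton.preimage hf)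
    · intro n
      exact ((hK n).isClosed).inter (isClosed_singleton.preimage hf)
  obtain ⟨y, hy⟩ := h1
  rw [mem_iInter] at hy
  exact ⟨y, mem_iInter.2 fun n => (hy n).1, (hy 0).2⟩

variable [CompactSpace Y] [T2Space Y] {f : Y → Y}

omit [CompactSpace Y] [T2Space Y] in
/-- The forward images of the closure of a trapping region decrease. -/
theorem anti_closure {U : Set Y} (h : f '' closure U ⊆ U) (n : ℕ) :
    f^[n + 1] '' closure U ⊆ f^[n] '' U := by
  rintro _ ⟨y, hy, rfl⟩
  rw [Function.iterate_succ_apply]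
  exact ⟨f y, h ⟨y, hy, rfl⟩, rfl⟩

/-- Attracting sets are closed and not empty. -/
theorem attracting_closed (hf : Continuous f) {A : Set Y} (hA : IsAttracting f A) :
    IsClosed A ∧ A.Nonempty := by
  obtain ⟨U, ⟨hne, hU, htr⟩, rfl⟩ := hA
  have h1 : (⋂ n : ℕ, f^[n] '' U) = ⋂ n : ℕ, f^[n] '' closure U := by
    refine Subset.antisymm (iInter_mono fun n => image_mono subset_closure) ?_
    refine subset_iInter fun n => ?_
    exact (iInter_subset _ (n + 1)).trans (anti_closure htr n)
  have hc : ∀ n : ℕ, IsCompact (f^[n] '' closure U) := fun n =>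
    (isClosed_closure.isCompact).image (hf.iterate n)
  have hd : ∀ n : ℕ, f^[n + 1] '' closure U ⊆ f^[n] '' closure U := fun n =>
    (anti_closure htr n).trans (image_mono subset_closure)
  rw [h1]
  refine ⟨isClosed_iInter fun n => (hc n).isClosed, ?_⟩
  exact IsCompact.nonempty_iInter_of_sequence_nonempty_isCompact_isClosed _ hd
    (fun n => (hne.closure).image _) (hc 0) fun n => (hc n).isClosed

/-- A chain of open sets between a closed set and an open set. -/
theorem exists_chain {K B : Set Y} (hK : IsClosed K) (hB : IsOpen B) (hKB : K ⊆ B) :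
    ∃ C : ℕ → Set Y, C 0 = B ∧ ∀ i, IsOpen (C i) ∧ K ⊆ C i ∧ closure (C (i + 1)) ⊆ C i := by
  classical
  have h1 : ∀ U : {U : Set Y // IsOpen U ∧ K ⊆ U}, ∃ V : {U : Set Y // IsOpen U ∧ K ⊆ U},
      closure V.1 ⊆ U.1 := by
    intro U
    obtain ⟨V, hV, hKV, hVU⟩ := normal_exists_closure_subset hK U.2.1 U.2.2
    exact ⟨⟨V, hV, hKV⟩, hVU⟩
  choose nx hnx using h1
  let C : ℕ → {U : Set Y // IsOpen U ∧ K ⊆ U} := fun n =>
    Nat.rec ⟨B, hB, hKB⟩ (fun _ U => nx U) n
  refine ⟨fun n => (C n).1, rfl, fun i => ⟨(C i).2.1, (C i).2.2, ?_⟩⟩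
  exact hnx (C i)

end T2x

open T2x

variable {Y : Type*} [TopologicalSpace Y] [CompactSpace Y] [T2Space Y]

/-- T2, for an invariant set. -/
theorem IsMinimalQuasi.attracting_of_iter' {f : Y → Y} (hf : Continuous f) {Q : Set Y}
    (hQ : IsMinimalQuasi f Q) (hfQ : ∀ y ∈ Q, f y ∈ Q) {p : ℕ} (hp : 1 ≤ p) {B : Set Y}
    (hB : IsOpen B) (hne : B.Nonempty) (hBB : f^[p] '' closure B ⊆ B)
    (hBQ : ∀ y, (∀ j : ℕ, y ∈ f^[j * p] '' B) → y ∈ Q) : IsAttracting f Q := by
  classical
  have hK : IsClosed (f^[p] '' closure B) :=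
    ((isClosed_closure.isCompact).image (hf.iterate p)).isClosed
  obtain ⟨C, hC0, hC⟩ := exists_chain hK hB hBB
  have hCB : ∀ i, C i ⊆ B := by
    intro i
    induction i with
    | zero => rw [hC0]
    | succ i ih => exact (subset_closure.trans (hC i).2.2).trans ih
  -- the trapping region
  let U : Set Y := ⋃ i ∈ Finset.range p, f^[i] ⁻¹' C i
  have hUo : IsOpen U := isOpen_biUnion fun i _ => (hC i).1.preimage (hf.iterate i)
  have hUcl : closure U ⊆ ⋃ i ∈ Finset.range p, f^[i] ⁻¹' closure (C i) := by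
    refine closure_minimal ?_ ?_
    · exact iUnion₂_mono fun i _ => preimage_mono subset_closure
    · exact (Finset.range p).finite_toSet.isClosed_biUnion fun i _ =>
        isClosed_closure.preimage (hf.iterate i)
  have htr : f '' closure U ⊆ U := by
    rintro _ ⟨y, hy, rfl⟩
    have h1 := hUcl hy
    simp only [mem_iUnion, mem_preimage, exists_prop] at h1
    obtain ⟨i, hi, hyi⟩ := h1
    have hip := Finset.mem_range.1 hi
    rcases Nat.eq_zero_or_pos i with h0 | h0
    · subst h0
      rw [hC0] at hyi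
      refine mem_iUnion₂.2 ⟨p - 1, Finset.mem_range.2 (by omega), ?_⟩
      refine (hC (p - 1)).2.1 ⟨y, hyi, ?_⟩
      have h2 : p = (p - 1) + 1 := by omega
      conv_lhs => rw [h2, Function.iterate_succ_apply]
    · refine mem_iUnion₂.2 ⟨i - 1, Finset.mem_range.2 (by omega), ?_⟩
      have h2 : i = (i - 1) + 1 := by omega
      rw [h2] at hyi
      have h3 := (hC (i - 1)).2.2 hyi
      rw [Function.iterate_succ_apply] at h3
      exact h3
  have hUne : U.Nonempty := by
    obtain ⟨b, hb⟩ := hne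
    refine ⟨b, mem_iUnion₂.2 ⟨0, Finset.mem_range.2 (by omega), ?_⟩⟩
    change b ∈ C 0
    rw [hC0]
    exact hb
  have hAt : IsAttracting f (⋂ n : ℕ, f^[n] '' U) := ⟨U, ⟨hUne, hUo, htr⟩, rfl⟩
  -- the attracting set is contained in `Q`
  have hK' : ∀ j : ℕ, f^[(j + 1) * p] '' closure B ⊆ f^[j * p] '' B := by
    intro j
    rintro _ ⟨y, hy, rfl⟩
    refine ⟨f^[p] y, hBB ⟨y, hy, rfl⟩, ?_⟩
    rw [← Function.iterate_add_apply]
    congr 1
    ring
  have hKd : ∀ j : ℕ, f^[(j + 1) * p] '' closure B ⊆ f^[j * p] '' closure B := fun j =>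
    (hK' j).trans (image_mono subset_closure)
  have hKc : ∀ j : ℕ, IsCompact (f^[j * p] '' closure B) := fun j =>
    (isClosed_closure.isCompact).image (hf.iterate _)
  have hKQ : ∀ y ∈ ⋂ j : ℕ, f^[j * p] '' closure B, y ∈ Q := by
    intro y hy
    rw [mem_iInter] at hy
    exact hBQ y fun j => hK' j (hy (j + 1))
  have hiterQ : ∀ (r : ℕ), ∀ y ∈ Q, f^[r] y ∈ Q := by
    intro r
    induction r with
    | zero => exact fun y hy => hy
    | succ r ih =>
      intro y hy
      rw [Function.iterate_succ_apply]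
      exact ih _ (hfQ y hy)
  have hsub : (⋂ n : ℕ, f^[n] '' U) ⊆ Q := by
    intro z hz
    rw [mem_iInter] at hz
    by_contra hzQ
    have h1 : ∀ r : ℕ, ∃ j : ℕ, z ∉ f^[r] '' (f^[j * p] '' closure B) := by
      intro r
      by_contra hcon
      push Not at hcon
      obtain ⟨y, hy, hyz⟩ := image_iInter (hf.iterate r) hKc hKd hcon
      exact hzQ (hyz ▸ hiterQ r y (hKQ y hy))
    choose j hj using h1
    let J := (Finset.range p).sup j
    have hanti : Antitone fun j : ℕ => f^[j * p] '' closure B := antitone_nat_of_succ_le hKd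
    obtain ⟨y, hy, hyz⟩ := hz ((J + 1) * p)
    simp only [U, mem_iUnion, mem_preimage, exists_prop] at hy
    obtain ⟨i, hi, hyi⟩ := hy
    have hip := Finset.mem_range.1 hi
    have hb : f^[i] y ∈ B := hCB i hyi
    set m := (J + 1) * p - i with hm
    have hmi : m + i = (J + 1) * p := by
      have : i ≤ (J + 1) * p := hip.le.trans (Nat.le_mul_of_pos_left p (by omega))
      omega
    have hmz : f^[m] (f^[i] y) = z := by
      rw [← Function.iterate_add_apply, hmi]
      exact hyz
    have hrp : m % p < p := Nat.mod_lt _ (by omega)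
    have hdiv : J ≤ m / p := by
      rw [Nat.le_div_iff_mul_le (by omega)]
      have : (J + 1) * p = J * p + p := by ring
      omega
    refine hj (m % p) ⟨f^[(m / p) * p] (f^[i] y), ?_, ?_⟩
    · refine hanti ((Finset.le_sup (f := j) (Finset.mem_range.2 hrp)).trans hdiv) ?_
      exact ⟨f^[i] y, subset_closure hb, rfl⟩
    · rw [← Function.iterate_add_apply]
      have h2 : m % p + m / p * p = m := by
        rw [mul_comm]
        exact Nat.mod_add_div m p
      rw [h2]
      exact hmz
  have hqa : IsQuasiAttractor f (⋂ n : ℕ, f^[n] '' U) :=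
    ⟨(attracting_closed hf hAt).2, {⋂ n : ℕ, f^[n] '' U}, singleton_nonempty _,
      fun A hA => by rw [mem_singleton_iff.1 hA]; exact hAt, by rw [sInter_singleton]⟩
  rw [← hQ.2 _ hqa hsub]
  exact hAt

theorem IsMinimalQuasi.attracting_of_iter {f : Y → Y} (hf : Continuous f) {Q : Set Y}
    (hQ : IsMinimalQuasi f Q) {p : ℕ} (hp : 1 ≤ p) {B : Set Y} (hB : IsOpen B)
    (hne : B.Nonempty) (hBB : f^[p] '' closure B ⊆ B)
    (hBQ : ∀ y, (∀ j : ℕ, y ∈ f^[j * p] '' B) → y ∈ Q) : IsAttracting f Q :=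
  hQ.attracting_of_iter' hf (hQ.nhds hf).2.1 hp hB hne hBB hBQ

end MF7
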