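import Pool.Agent.Lib.MF7_Base

/-!
# Trapping regions, attracting sets, quasi-attractors of a continuous map
-/

set_option autoImplicit false

open Set Filter Topology

namespace MF7

variable {Y : Type*} [TopologicalSpace Y]

/-- trapping region: nonempty open set whose closure is mapped into it -/
def IsTrapping (f : Y → Y) (U : Set Y) : Prop := U.Nonempty ∧ IsOpen U ∧ f '' closure U ⊆ U

/-- attracting set: the intersection of the forward images of a trapping region -/
def IsAttracting (f : Y → Y) (A : Set Y) : Prop :=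
  ∃ U, IsTrapping f U ∧ A = ⋂ n : ℕ, f^[n] '' U

/-- quasi-attractor: nonempty intersection of a (nonempty) family of attracting sets -/
def IsQuasiAttractor (f : Y → Y) (Q : Set Y) : Prop :=
  Q.Nonempty ∧ ∃ 𝒜 : Set (Set Y), 𝒜.Nonempty ∧ (∀ A ∈ 𝒜, IsAttracting f A) ∧ Q = ⋂₀ 𝒜

/-- minimal quasi-attractor -/
def IsMinimalQuasi (f : Y → Y) (Q : Set Y) : Prop :=
  IsQuasiAttractor f Q ∧ ∀ Q', IsQuasiAttractor f Q' → Q' ⊆ Q → Q' = Q

end MF7
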