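import Pool.Agent.Lib.MF7_R3
import Pool.Agent.Lib.MF7_R4
import Pool.Agent.Lib.MF7_R5
import Pool.Agent.Lib.MF7_R6
import Pool.Agent.Lib.MF7_R8
import Pool.Agent.Lib.MF7_R9
import Pool.Agent.Lib.MF7_R10

/-!
# The theorem on cones
-/

set_option autoImplicit false
set_option linter.unusedSectionVars false

open Set Metric Filter Topology

namespace MF7

section
variable {W : Type} [NormedAddCommGroup W] [NormedSpace ℂ W] [FiniteDimensional ℂ W]

theorem IsDisc.mono {N N' : Set (B2 × W)} {R R' : ℝ} {X : ℂ → B2} {Z : ℂ → W}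
    (h : IsDisc N R X Z) (hN : N ⊆ N') (hR : R' ≤ R) : IsDisc N' R' X Z := by
  obtain ⟨h1, h2, h3⟩ := h
  have hb : ball (0 : ℂ) R' ⊆ ball 0 R := ball_subset_ball hR
  exact ⟨h1.mono hb, h2.mono hb, fun z hz => hN (h3 z (hb hz))⟩

/-- the case where the base projection is surjective -/
theorem full_case (s : Sys W) {Q : Set (B2 × W)} (hQ : ClCone Q)
    (hFQ : ∀ v ∈ Q, s.F v ∈ Q)
    (htrap : ∀ N : Set (B2 × W), IsOpen N → IsCone N → Q ⊆ N → ∃ U, Trap s U ∧ Q ⊆ U ∧ U ⊆ N)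
    (hfull : ∀ x : B2, x ≠ 0 → ∃ w, (x, w) ∈ Q) :
    ∃ V : Set (B2 × W), Trap s V ∧ V.Nonempty ∧
      ∀ v : B2 × W, v.1 ≠ 0 → (∀ n : ℕ, ∃ u ∈ V, ∃ c : ℂ, c ≠ 0 ∧ s.F^[n] u = c • v) →
        v ∈ Q := by
  obtain ⟨v, hv, hvn, hvQ⟩ := limit_curve hQ (fun N hN hNc hQN R => by
    obtain ⟨U, hU, hQU, hUN⟩ := htrap N hN hNc hQN
    obtain ⟨X, Z, hXZ, hM⟩ := big_disc s hU hQ hQU hfull (4 * (|R| + 1))
    obtain ⟨X', Z', h1, h2, h3⟩ := zalcman hU.cone hXZ (m := 4 * (|R| + 1)) (by positivity) hM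
    have hR : R ≤ 4 * (|R| + 1) / 4 := by
      have := le_abs_self R
      linarith
    exact ⟨X', Z', h1.mono hUN hR, fun z hz => h2 z (ball_subset_ball hR hz), h3⟩)
  set c : ℕ → ℂ → B2 × W := fun k z => s.F^[k + 1] (v z) with hc
  have hcur : ∀ k, IsCurve (c k) ∧ NonConst (c k) := by
    intro k
    induction k with
    | zero =>
      have := curve_image s hv hvn
      simpa [hc] using this
    | succ k ih =>
      have := curve_image s ih.1 ih.2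
      have e : (fun z => s.F (c k z)) = c (k + 1) := by
        funext z
        simp only [hc]
        rw [Function.iterate_succ_apply' s.F (k + 1)]
      rwa [e] at this
  have hit : ∀ k z, s.F^[k] (v z) ∈ Q := by
    intro k z
    induction k with
    | zero => exact hvQ z
    | succ k ih => rw [Function.iterate_succ_apply']; exact hFQ _ ih
  have hcQ : ∀ k z, c k z ∈ Q := fun k z => hit (k + 1) z
  have hlsc : LSC (hull c) := hull_lsc c (fun k => (hcur k).1) (fun k => (hcur k).2) hQ hcQ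
  set T : Set (B2 × W) := {q | ∃ (i : ℕ) (z k : ℂ), k ≠ 0 ∧ q = k • c i z} with hT
  have hTQ : T ⊆ Q := by
    rintro q ⟨i, z, k, hk, rfl⟩
    exact hQ.cone.1 k hk _ (hcQ i z)
  have hSQ : hull c ⊆ Q := by
    rintro p ⟨hp1, hp2⟩
    exact hQ.cl p (closure_mono hTQ hp2) hp1
  have hS : ClCone (hull c) := by
    refine ⟨⟨fun k hk p hp => hull_smul hk hp, fun p hp => hp.1⟩, ?_, ?_⟩
    · obtain ⟨M, hM⟩ := hQ.bdd
      exact ⟨M, fun p hp => hM p (hSQ hp)⟩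
    · intro p hp hp1
      refine ⟨hp1, ?_⟩
      have : hull c ⊆ closure T := fun q hq => hq.2
      have := closure_mono this hp
      rwa [closure_closure] at this
  obtain ⟨U, hU, hQU, -⟩ := htrap {v | v.1 ≠ 0}
    (isOpen_ne.preimage continuous_fst)
    ⟨fun k hk v hv => smul_ne_zero hk hv, fun v hv => hv⟩ (fun v hv => hQ.cone.2 v hv)
  obtain ⟨V, hV, hVne, hVS⟩ := trap_of_lsc s hU hS
    ⟨(1 : ℂ) • c 0 0, mem_hull one_ne_zero (hQ.cone.2 _ (hcQ 0 0))⟩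
    (fun p hp => by
      refine closure_mono ?_ hp.2
      rintro q ⟨i, z, k, hk, rfl⟩
      exact ⟨s.F^[i] (v z), hQU (hit i z), k, hk, by
        simp only [hc]
        rw [Function.iterate_succ_apply']⟩)
    (fun p hp => by
      refine ⟨s.g_ne _ hp.1, ?_⟩
      have hcont : Continuous s.F := s.F_diff.continuous
      have h1 : s.F p ∈ closure (s.F '' T) := image_closure_subset_closure_image hcont ⟨p, hp.2, rfl⟩
      refine closure_mono ?_ h1
      rintro q ⟨q', ⟨i, z, k, hk, rfl⟩, rfl⟩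
      refine ⟨i + 1, z, k ^ s.d, pow_ne_zero _ hk, ?_⟩
      rw [s.F_hom]
      congr 1
      simp only [hc]
      rw [Function.iterate_succ_apply' s.F (i + 1)])
    hlsc
  exact ⟨V, hV, hVne, fun p hp h => hSQ (hVS p hp h)⟩

theorem up_main (s : Sys W) {Q : Set (B2 × W)} (hQ : ClCone Q) (hne : Q.Nonempty)
    (hFQ : ∀ v ∈ Q, s.F v ∈ Q)
    (htrap : ∀ N : Set (B2 × W), IsOpen N → IsCone N → Q ⊆ N →
      ∃ U, Trap s U ∧ Q ⊆ U ∧ U ⊆ N) :
    ∃ p : ℕ, 1 ≤ p ∧ ∃ B : Set (B2 × W), IsOpen B ∧ IsCone B ∧ IsBdd B ∧ B.Nonempty ∧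
      (∀ v ∈ closure B, v.1 ≠ 0 → s.F^[p] v ∈ B) ∧
      ∀ v : B2 × W, v.1 ≠ 0 →
        (∀ j : ℕ, ∃ u ∈ B, ∃ c : ℂ, c ≠ 0 ∧ s.F^[j * p] u = c • v) → v ∈ Q := by
  by_cases h : ∀ x : B2, x ≠ 0 → ∃ w, (x, w) ∈ Q
  · obtain ⟨V, hV, hVne, hVQ⟩ := full_case s hQ hFQ htrap h
    refine ⟨1, le_rfl, V, hV.op, hV.cone, hV.bdd, hVne, fun v hv hv1 => hV.trap v hv hv1, ?_⟩
    intro v hv1 hv
    exact hVQ v hv1 (fun n => by simpa using hv n)
  · push Not at h
    obtain ⟨b, hb, hmiss⟩ := h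
    exact sink_case s hQ hne hFQ htrap b hb hmiss

end

end MF7
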