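import Pool.Agent.Lib.WPP_Base

/-!
# PROJECT WPP, row A1: the rank bound for a graph with surjective fundamental group
-/

namespace WPP

open FreeGroup List

/-- the exponent homomorphism of a row vector -/
def a1_hom {n : ℕ} (α : Fin n → ℚ) : FreeGroup (Fin n) →* Multiplicative ℚ :=
  FreeGroup.lift fun i => Multiplicative.ofAdd (α i)

theorem a1_lt {n : ℕ} (α : Fin n → ℚ) (y : Ltr n) :
    (a1_hom α (lt y)).toAdd = if y.2 = true then α y.1 else - α y.1 := by
  obtain ⟨i, b⟩ := y
  cases b
  · have : (lt (i, false) : FreeGroup (Fin n)) = (FreeGroup.of i)⁻¹ := rfl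
    simp [this, a1_hom]
  · have : (lt (i, true) : FreeGroup (Fin n)) = FreeGroup.of i := rfl
    simp [this, a1_hom]

theorem a1_conn {n : ℕ} {V : Type} (E : Finset (V × Fin n × V)) (f : V → ℚ) (α : Fin n → ℚ)
    (hk : ∀ e ∈ E, f e.2.2 - f e.1 = α e.2.1) {u v : V} {g : FreeGroup (Fin n)}
    (h : Conn E u g v) : f v - f u = (a1_hom α g).toAdd := by
  induction h with
  | refl => simp
  | @step v w g y hc he ih =>
    rw [_root_.map_mul, toAdd_mul, ← ih, a1_lt]
    rcases he with ⟨hy, he⟩ | ⟨hy, he⟩
    · have := hk _ he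
      simp only at this
      rw [if_pos hy, ← this]
      ring
    · have := hk _ he
      simp only at this
      rw [if_neg (by simp [hy]), ← this]
      ring

theorem full_rank {n : ℕ} {V : Type} [Fintype V] [DecidableEq V] [Nonempty V]
    (E : Finset (V × Fin n × V)) (h : Full E) : Fintype.card V + n ≤ E.card + 1 := by
  classical
  let L : ((V → ℚ) × (Fin n → ℚ)) →ₗ[ℚ] (E → ℚ) :=
    { toFun := fun p e => p.1 e.1.2.2 - p.1 e.1.1 - p.2 e.1.2.1
      map_add' := by
        intro p q
        funext e
        simp only [Prod.fst_add, Prod.snd_add, Pi.add_apply]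
        ring
      map_smul' := by
        intro c p
        funext e
        simp only [Prod.smul_fst, Prod.smul_snd, Pi.smul_apply, smul_eq_mul, RingHom.id_apply]
        ring }
  obtain ⟨u0⟩ := ‹Nonempty V›
  have hker : ∀ p ∈ LinearMap.ker L, (∀ v, p.1 v = p.1 u0) ∧ ∀ i, p.2 i = 0 := by
    intro p hp
    have hk : ∀ e ∈ E, p.1 e.2.2 - p.1 e.1 = p.2 e.2.1 := by
      intro e he
      have := congrFun (LinearMap.mem_ker.1 hp) ⟨e, he⟩
      simp only [L, LinearMap.coe_mk, AddHom.coe_mk, Pi.zero_apply] at this
      linarith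
    refine ⟨fun v => ?_, fun i => ?_⟩
    · have := a1_conn E p.1 p.2 hk (h u0 v 1)
      simp at this
      linarith
    · have := a1_conn E p.1 p.2 hk (h u0 u0 (lt (i, true)))
      rw [a1_lt] at this
      simp at this
      exact this.symm
  have hker1 : Module.finrank ℚ (LinearMap.ker L) ≤ 1 := by
    let φ : LinearMap.ker L →ₗ[ℚ] ℚ :=
      { toFun := fun p => p.1.1 u0
        map_add' := by intro p q; rfl
        map_smul' := by intro c p; rfl }
    have hinj : Function.Injective φ := by
      rw [← LinearMap.ker_eq_bot, LinearMap.ker_eq_bot']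
      intro p hp
      have h1 := hker p.1 p.2
      have hp' : p.1.1 u0 = 0 := hp
      apply Subtype.ext
      apply Prod.ext
      · funext v
        rw [h1.1 v, hp']
        rfl
      · funext i
        rw [h1.2 i]
        rfl
    simpa using LinearMap.finrank_le_finrank_of_injective hinj
  have hrn := LinearMap.finrank_range_add_finrank_ker L
  have hdom : Module.finrank ℚ ((V → ℚ) × (Fin n → ℚ)) = Fintype.card V + n := by
    simp [Module.finrank_prod]
  have hran : Module.finrank ℚ (LinearMap.range L) ≤ E.card := by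
    refine (Submodule.finrank_le _).trans ?_
    simp
  omega

end WPP
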