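import Pool.Agent.Lib.WPP_Base

/-!
# PROJECT WPP, row A2: a graph with surjective fundamental group and two vertices can be folded
-/

namespace WPP

open FreeGroup List

/-- a partial injection of a finite set extends to a permutation -/
theorem a2_extend {V : Type} [Fintype V] [DecidableEq V] (R : V → V → Prop)
    (h1 : ∀ u v w, R u v → R u w → v = w) (h2 : ∀ u v w, R u w → R v w → u = v) :
    ∃ σ : Equiv.Perm V, ∀ u v, R u v → σ u = v := by
  classical
  let f : V → V := fun u => if h : ∃ v, R u v then h.choose else u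
  have hf : ∀ u v, R u v → f u = v := by
    intro u v huv
    have h : ∃ v, R u v := ⟨v, huv⟩
    have : f u = h.choose := dif_pos h
    rw [this]
    exact h1 u _ _ h.choose_spec huv
  obtain ⟨g, hg⟩ := Finset.exists_equiv_extend_of_card_eq (α := V) (β := V)
    (t := Finset.univ) (by simp) (s := Finset.univ.filter fun u => ∃ v, R u v) (f := f)
    (Finset.subset_univ _) (by
      intro a ha b hb hab
      obtain ⟨v, hv⟩ := (Finset.mem_filter.1 (Finset.mem_coe.1 ha)).2
      obtain ⟨w, hw⟩ := (Finset.mem_filter.1 (Finset.mem_coe.1 hb)).2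
      rw [hf a v hv, hf b w hw] at hab
      subst hab
      exact h2 a b v hv hw)
  refine ⟨g.trans (Equiv.subtypeUnivEquiv (fun v => Finset.mem_univ v)), fun u v huv => ?_⟩
  have := hg u (Finset.mem_filter.2 ⟨Finset.mem_univ _, v, huv⟩)
  rw [hf u v huv] at this
  exact this

theorem exists_fold {n : ℕ} {V : Type} [Fintype V] [DecidableEq V]
    (E : Finset (V × Fin n × V)) (h : Full E) (h2 : 2 ≤ Fintype.card V) :
    ∃ (u q₁ q₂ : V) (y : Ltr n), q₁ ≠ q₂ ∧ Edge E u y q₁ ∧ Edge E u y q₂ := by
  classical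
  by_contra hcon
  push Not at hcon
  have hinj : ∀ (u : V) (y : Ltr n) (q₁ q₂ : V), Edge E u y q₁ → Edge E u y q₂ → q₁ = q₂ := by
    intro u y q₁ q₂ h1 h2
    by_contra hne
    exact hcon u q₁ q₂ y hne h1 h2
  have hσ : ∀ i : Fin n, ∃ σ : Equiv.Perm V, ∀ u v, (u, i, v) ∈ E → σ u = v := by
    intro i
    refine a2_extend (fun u v => (u, i, v) ∈ E) (fun u v w hv hw => ?_) fun u v w hu hv => ?_
    · exact hinj u (i, true) v w (Or.inl ⟨rfl, hv⟩) (Or.inl ⟨rfl, hw⟩)
    · exact hinj w (i, false) u v (Or.inr ⟨rfl, hu⟩) (Or.inr ⟨rfl, hv⟩)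
  choose σ hσ using hσ
  let ρ : FreeGroup (Fin n) →* Equiv.Perm V := FreeGroup.lift fun i => (σ i)⁻¹
  have hρ : ∀ (u v : V) (g : FreeGroup (Fin n)), Conn E u g v → ρ g v = u := by
    intro u v g hc
    induction hc with
    | refl => simp
    | @step v w g y hc he ih =>
      rw [_root_.map_mul, Equiv.Perm.mul_apply]
      have : ρ (lt y) w = v := by
        obtain ⟨i, b⟩ := y
        rcases he with ⟨hy, he⟩ | ⟨hy, he⟩
        · simp only at hy he
          subst hy
          have e : (lt (i, true) : FreeGroup (Fin n)) = FreeGroup.of i := rfl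
          rw [e, FreeGroup.lift_apply_of, Equiv.Perm.inv_eq_iff_eq]
          exact (hσ i _ _ he).symm
        · simp only at hy he
          subst hy
          have e : (lt (i, false) : FreeGroup (Fin n)) = (FreeGroup.of i)⁻¹ := rfl
          rw [e, _root_.map_inv, FreeGroup.lift_apply_of, inv_inv]
          exact hσ i _ _ he
      rw [this, ih]
  obtain ⟨u, v, huv⟩ := Fintype.one_lt_card_iff.1 (by omega : 1 < Fintype.card V)
  apply huv
  have := hρ u v 1 (h u v 1)
  simpa using this.symm

end WPP
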