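import Pool.Agent.Lib.WPP_A1

/-!
# PROJECT WPP, row A3: folding two edges
-/

namespace WPP

open FreeGroup List

/-- if the image of a finite set has only one element less then there is only one collision -/
theorem a3_uniq {α β : Type} [DecidableEq α] [DecidableEq β] (E : Finset α) (F : α → β)
    (e1 e2 : α) (h1 : e1 ∈ E) (h2 : e2 ∈ E) (hne : e1 ≠ e2) (hF : F e1 = F e2)
    (hcard : E.card ≤ (E.image F).card + 1) :
    ∀ e ∈ E, ∀ e' ∈ E, F e = F e' → e = e' ∨ (e = e1 ∧ e' = e2) ∨ (e = e2 ∧ e' = e1) := by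
  have key : ∀ x y : α, x ∈ E → y ∈ E → x ≠ y → F x = F y →
      Set.InjOn F (E.erase y : Finset α) := by
    intro x y hx hy hxy hFxy
    have him : (E.erase y).image F = E.image F := by
      apply Finset.Subset.antisymm (Finset.image_subset_image (Finset.erase_subset _ _))
      intro z hz
      obtain ⟨w, hw, rfl⟩ := Finset.mem_image.1 hz
      by_cases hwy : w = y
      · subst hwy
        exact Finset.mem_image.2 ⟨x, Finset.mem_erase.2 ⟨hxy, hx⟩, hFxy⟩
      · exact Finset.mem_image.2 ⟨w, Finset.mem_erase.2 ⟨hwy, hw⟩, rfl⟩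
    apply Finset.card_image_iff.1
    apply le_antisymm Finset.card_image_le
    rw [him, Finset.card_erase_of_mem hy]
    omega
  have k2 := key e1 e2 h1 h2 hne hF
  have k1 := key e2 e1 h2 h1 hne.symm hF.symm
  intro e he e' he' hee
  by_cases heq : e = e'
  · exact Or.inl heq
  right
  have c2 : e = e2 ∨ e' = e2 := by
    by_contra hcon
    push Not at hcon
    exact heq (k2 (Finset.mem_coe.2 (Finset.mem_erase.2 ⟨hcon.1, he⟩))
      (Finset.mem_coe.2 (Finset.mem_erase.2 ⟨hcon.2, he'⟩)) hee)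
  have c1 : e = e1 ∨ e' = e1 := by
    by_contra hcon
    push Not at hcon
    exact heq (k1 (Finset.mem_coe.2 (Finset.mem_erase.2 ⟨hcon.1, he⟩))
      (Finset.mem_coe.2 (Finset.mem_erase.2 ⟨hcon.2, he'⟩)) hee)
  rcases c2 with rfl | rfl <;> rcases c1 with rfl | rfl
  · exact absurd rfl hne
  · exact Or.inr ⟨rfl, rfl⟩
  · exact Or.inl ⟨rfl, rfl⟩
  · exact absurd rfl hne

theorem a3_map {n : ℕ} {V V' : Type} (E : Finset (V × Fin n × V)) (E' : Finset (V' × Fin n × V'))
    (f : V → V') (hf : ∀ a d b, Edge E a d b → Edge E' (f a) d (f b)) {u v : V}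
    {g : FreeGroup (Fin n)} (h : Conn E u g v) : Conn E' (f u) g (f v) := by
  induction h with
  | refl => exact Conn.refl _
  | @step v w g y _ he ih => exact Conn.step ih (hf _ _ _ he)

theorem fold_step {n : ℕ} {V : Type} [Fintype V] [DecidableEq V]
    (E : Finset (V × Fin n × V)) (h : Full E) (hc : E.card + 1 ≤ Fintype.card V + n)
    (u q₁ q₂ : V) (y : Ltr n) (hne : q₁ ≠ q₂) (h1 : Edge E u y q₁) (h2 : Edge E u y q₂) :
    ∃ (V' : Type) (_ : Fintype V') (_ : DecidableEq V') (E' : Finset (V' × Fin n × V'))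
      (f : V → V'), Full E' ∧ Fintype.card V' + 1 = Fintype.card V ∧
      E'.card + 1 ≤ Fintype.card V' + n ∧
      (∀ a d b, Edge E a d b → Edge E' (f a) d (f b)) ∧
      (∀ a b, f a = f b ↔ a = b ∨ ((a = q₁ ∨ a = q₂) ∧ (b = q₁ ∨ b = q₂))) ∧
      (∀ d a b a' b', Edge E a d b → Edge E a' d b' → f a = f a' → f b = f b' →
        (a = a' ∧ b = b') ∨ (d = y ∧ a = u ∧ a' = u) ∨ (d = bar y ∧ b = u ∧ b' = u)) := by
  classical
  let f : V → {z : V // z ≠ q₂} := fun z => if hz : z = q₂ then ⟨q₁, hne⟩ else ⟨z, hz⟩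
  have hfne : ∀ z (hz : z ≠ q₂), f z = ⟨z, hz⟩ := fun z hz => dif_neg hz
  have hfq : f q₂ = ⟨q₁, hne⟩ := dif_pos rfl
  have hfq1 : f q₁ = ⟨q₁, hne⟩ := hfne q₁ hne
  let F : V × Fin n × V → {z : V // z ≠ q₂} × Fin n × {z : V // z ≠ q₂} :=
    fun e => (f e.1, e.2.1, f e.2.2)
  have hcardV : Fintype.card {z : V // z ≠ q₂} + 1 = Fintype.card V := by
    have : Fintype.card {z : V // z ≠ q₂} = Fintype.card V - 1 := by
      simp
    have hpos : 0 < Fintype.card V := Fintype.card_pos_iff.2 ⟨q₁⟩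
    omega
  have hedge : ∀ a d b, Edge E a d b → Edge (E.image F) (f a) d (f b) := by
    rintro a d b (⟨hd, he⟩ | ⟨hd, he⟩)
    · exact Or.inl ⟨hd, Finset.mem_image.2 ⟨_, he, rfl⟩⟩
    · exact Or.inr ⟨hd, Finset.mem_image.2 ⟨_, he, rfl⟩⟩
  have hfull : Full (E.image F) := by
    intro a b g
    have := a3_map E (E.image F) f hedge (h a.1 b.1 g)
    rwa [hfne a.1 a.2, hfne b.1 b.2] at this
  have hfeq : ∀ a b, f a = f b ↔ a = b ∨ ((a = q₁ ∨ a = q₂) ∧ (b = q₁ ∨ b = q₂)) := by
    intro a b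
    by_cases ha : a = q₂ <;> by_cases hb : b = q₂
    · simp [ha, hb]
    · rw [ha, hfq, hfne b hb, Subtype.mk.injEq]
      constructor
      · intro h; exact Or.inr ⟨Or.inr rfl, Or.inl h.symm⟩
      · rintro (h | ⟨-, h | h⟩)
        · exact absurd h.symm hb
        · exact h.symm
        · exact absurd h hb
    · rw [hb, hfq, hfne a ha, Subtype.mk.injEq]
      constructor
      · intro h; exact Or.inr ⟨Or.inl h, Or.inr rfl⟩
      · rintro (h | ⟨h | h, -⟩)
        · exact absurd h ha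
        · exact h
        · exact absurd h ha
    · rw [hfne a ha, hfne b hb, Subtype.mk.injEq]
      constructor
      · intro h; exact Or.inl h
      · rintro (h | ⟨h | h, h' | h'⟩)
        · exact h
        · rw [h, h']
        · exact absurd h' hb
        · exact absurd h ha
        · exact absurd h ha
  -- the two folded edges
  obtain ⟨e1, e2, he1, he2, hee, hFe, hcase⟩ : ∃ e1 e2 : V × Fin n × V, e1 ∈ E ∧ e2 ∈ E ∧
      e1 ≠ e2 ∧ F e1 = F e2 ∧
      ((y = (e1.2.1, true) ∧ e2.2.1 = e1.2.1 ∧ e1.1 = u ∧ e2.1 = u) ∨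
        (y = (e1.2.1, false) ∧ e2.2.1 = e1.2.1 ∧ e1.2.2 = u ∧ e2.2.2 = u)) := by
    obtain ⟨j, b⟩ := y
    rcases h1 with ⟨hy, he1⟩ | ⟨hy, he1⟩ <;> rcases h2 with ⟨hy', he2⟩ | ⟨hy', he2⟩ <;>
      simp only at hy hy' he1 he2
    · refine ⟨_, _, he1, he2, ?_, ?_, Or.inl ?_⟩
      · intro h
        exact hne (by simpa using h)
      · simp only [F, hfq, hfq1]
      · exact ⟨by rw [hy], rfl, rfl, rfl⟩
    · rw [hy] at hy'
      exact absurd hy' (by decide)
    · rw [hy] at hy'
      exact absurd hy' (by decide)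
    · refine ⟨_, _, he1, he2, ?_, ?_, Or.inr ?_⟩
      · intro h
        exact hne (by simpa using h)
      · simp only [F, hfq, hfq1]
      · exact ⟨by rw [hy], rfl, rfl, rfl⟩
  have hlt : (E.image F).card < E.card := by
    apply lt_of_le_of_ne Finset.card_image_le
    intro heq
    exact hee (Finset.card_image_iff.1 heq (Finset.mem_coe.2 he1) (Finset.mem_coe.2 he2) hFe)
  have : Nonempty {z : V // z ≠ q₂} := ⟨⟨q₁, hne⟩⟩
  have hrank := full_rank (E.image F) hfull
  have huniq := a3_uniq E F e1 e2 he1 he2 hee hFe (by omega)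
  refine ⟨{z : V // z ≠ q₂}, inferInstance, inferInstance, E.image F, f, hfull, hcardV,
    by omega, hedge, hfeq, ?_⟩
  intro d a b a' b' hab hab' hfa hfb
  obtain ⟨i, c⟩ := d
  rcases hab with ⟨hd, he⟩ | ⟨hd, he⟩ <;> rcases hab' with ⟨hd', he'⟩ | ⟨hd', he'⟩ <;>
    simp only at hd hd' he he'
  · have hFF : F (a, i, b) = F (a', i, b') := by simp only [F, hfa, hfb]
    rcases huniq _ he _ he' hFF with heq | ⟨ha, ha'⟩ | ⟨ha, ha'⟩
    · left
      simpa using heq
    · right
      rcases hcase with ⟨hy, h3, h4, h5⟩ | ⟨hy, h3, h4, h5⟩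
      · left
        rw [← ha] at hy h4
        rw [← ha'] at h5
        exact ⟨by rw [hy, hd], h4, h5⟩
      · right
        rw [← ha] at hy h4
        rw [← ha'] at h5
        exact ⟨by rw [hy, hd]; rfl, h4, h5⟩
    · right
      rcases hcase with ⟨hy, h3, h4, h5⟩ | ⟨hy, h3, h4, h5⟩
      · left
        rw [← ha'] at hy h4
        rw [← ha] at h5
        exact ⟨by rw [hy, hd], h5, h4⟩
      · right
        rw [← ha'] at hy h4
        rw [← ha] at h5
        exact ⟨by rw [hy, hd]; rfl, h5, h4⟩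
  · rw [hd] at hd'
    exact absurd hd' (by decide)
  · rw [hd] at hd'
    exact absurd hd' (by decide)
  · have hFF : F (b, i, a) = F (b', i, a') := by simp only [F, hfa, hfb]
    rcases huniq _ he _ he' hFF with heq | ⟨ha, ha'⟩ | ⟨ha, ha'⟩
    · left
      have : b = b' ∧ a = a' := by simpa using heq
      exact ⟨this.2, this.1⟩
    · right
      rcases hcase with ⟨hy, h3, h4, h5⟩ | ⟨hy, h3, h4, h5⟩
      · right
        rw [← ha] at hy h4
        rw [← ha'] at h5
        exact ⟨by rw [hy, hd]; rfl, h4, h5⟩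
      · left
        rw [← ha] at hy h4
        rw [← ha'] at h5
        exact ⟨by rw [hy, hd], h4, h5⟩
    · right
      rcases hcase with ⟨hy, h3, h4, h5⟩ | ⟨hy, h3, h4, h5⟩
      · right
        rw [← ha'] at hy h4
        rw [← ha] at h5
        exact ⟨by rw [hy, hd]; rfl, h5, h4⟩
      · left
        rw [← ha'] at hy h4
        rw [← ha] at h5
        exact ⟨by rw [hy, hd], h5, h4⟩

end WPP
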