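import Pool.Agent.Lib.WPP_Base

/-! # PROJECT WPP, row A4: a closed walk between two folded vertices gives a cut pair -/

namespace WPP
open FreeGroup List

theorem a4_edge_symm {n : ℕ} {V : Type} {E : Finset (V × Fin n × V)} {u v : V} {y : Ltr n}
    (h : Edge E u y v) : Edge E v (bar y) u := by
  rcases h with ⟨h1, h2⟩ | ⟨h1, h2⟩
  · right; exact ⟨by simp [bar, h1], h2⟩
  · left; exact ⟨by simp [bar, h1], h2⟩

theorem a4_rel {β : Type} {R : β → β → Prop} {l : List β} (h : Cyc R l) {u v : β}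
    (hp : CPair l u v) : R u v := by
  obtain ⟨t, ht, hv⟩ := hp
  cases l with
  | nil => exact absurd (List.isRotated_nil_iff.1 ht) (by simp)
  | cons a m =>
    have hc : Cycle.Chain R ((a :: m : List β) : Cycle β) := by
      rw [Cycle.chain_coe_cons]
      have h3 : List.IsChain R ((a :: m) ++ [a]) := by
        rw [List.isChain_append]
        refine ⟨h.1, by simp, ?_⟩
        intro x hx y hy
        exact h.2 x hx y (by simpa using hy)
      simpa using h3
    have he : ((a :: m : List β) : Cycle β) = ((u :: t : List β) : Cycle β) :=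
      Cycle.coe_eq_coe.2 ht.symm
    rw [he, Cycle.chain_coe_cons] at hc
    cases hs : t ++ [u] with
    | nil => simp at hs
    | cons b s =>
      rw [hs] at hv hc
      simp only [List.head?_cons, Option.some.injEq] at hv
      subst hv
      exact (List.isChain_cons_cons.1 hc).1

theorem a4_map {β γ : Type} (f : β → γ) {l : List β} {u v : γ} (hp : CPair (l.map f) u v) :
    ∃ a b, CPair l a b ∧ f a = u ∧ f b = v := by
  obtain ⟨t, ht, hv⟩ := hp
  obtain ⟨k, hk⟩ := ht.symm
  rw [← List.map_rotate] at hk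
  cases hs : l.rotate k with
  | nil => rw [hs] at hk; simp at hk
  | cons a s =>
    rw [hs] at hk
    simp only [List.map_cons, List.cons.injEq] at hk
    obtain ⟨h1, h2⟩ := hk
    have h3 : ((s ++ [a]).map f).head? = some v := by
      rw [List.map_append, h2]; simpa [h1] using hv
    rw [List.head?_map] at h3
    cases h4 : (s ++ [a]).head? with
    | none => rw [h4] at h3; simp at h3
    | some b =>
      rw [h4] at h3
      simp only [Option.map_some, Option.some.injEq] at h3
      refine ⟨a, b, ⟨s, ?_, h4⟩, h1, h3⟩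
      exact (show l ~r (a :: s) from ⟨k, hs⟩).symm

theorem a4_succ {β : Type} {l : List β} {a : β} (h : a ∈ l) : ∃ b, CPair l a b := by
  obtain ⟨l1, l2, rfl⟩ := List.append_of_mem h
  have h1 : (a :: (l2 ++ l1)) ~r (l1 ++ a :: l2) := by
    have := List.isRotated_append (l := a :: l2) (l' := l1)
    simpa using this
  cases h2 : (l2 ++ l1) ++ [a] with
  | nil => simp at h2
  | cons b s => exact ⟨b, l2 ++ l1, h1, by rw [h2]; rfl⟩

theorem a4_pred {β : Type} {l : List β} {b : β} (h : b ∈ l) : ∃ a, CPair l a b := by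
  obtain ⟨l1, l2, rfl⟩ := List.append_of_mem h
  have h1 : (b :: (l2 ++ l1)) ~r (l1 ++ b :: l2) := by
    have := List.isRotated_append (l := b :: l2) (l' := l1)
    simpa using this
  have hne : b :: (l2 ++ l1) ≠ [] := by simp
  refine ⟨(b :: (l2 ++ l1)).getLast hne, (b :: (l2 ++ l1)).dropLast, ?_, ?_⟩
  · refine List.IsRotated.trans ?_ h1
    have h3 := List.isRotated_append (l := [(b :: (l2 ++ l1)).getLast hne])
      (l' := (b :: (l2 ++ l1)).dropLast)
    rw [List.dropLast_append_getLast hne] at h3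
    simpa using h3
  · rw [List.dropLast_append_getLast hne]; rfl

theorem a4_mem {β : Type} {l : List β} {a b : β} (h : CPair l a b) : a ∈ l ∧ b ∈ l := by
  obtain ⟨t, ht, hv⟩ := h
  have h1 : ∀ x, x ∈ a :: t ↔ x ∈ l := fun x => ht.mem_iff
  refine ⟨(h1 a).1 (by simp), (h1 b).1 ?_⟩
  have h2 : b ∈ t ++ [a] := List.mem_of_mem_head? (by rw [hv]; rfl)
  simp only [List.mem_append, List.mem_singleton] at h2
  rcases h2 with h2 | h2
  · exact List.mem_cons_of_mem _ h2
  · rw [h2]; simp

theorem a4_bar_ne {n : ℕ} (y : Ltr n) : bar y ≠ y := by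
  intro h
  have := congrArg Prod.snd h
  simp [bar] at this

theorem a4_bar_bar {n : ℕ} (y : Ltr n) : bar (bar y) = y := by
  simp [bar]

theorem a4_red {n : ℕ} {p : Word n} (h : IsCyclicallyReduced p) {u v : Ltr n}
    (hp : CPair p u v) : v ≠ bar u := by
  have h1 : Cyc (fun a b : Ltr n => a.1 = b.1 → a.2 = b.2) p := h
  have h2 := a4_rel h1 hp
  intro he
  rw [he] at h2
  have := h2 rfl
  simp [bar] at this

theorem cut_two {n : ℕ} {V : Type} (E : Finset (V × Fin n × V)) (l : List (V × Ltr n))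
    (hl : Cyc (fun a b => Edge E a.1 a.2 b.1) l)
    (hred : IsCyclicallyReduced (l.map Prod.snd)) (q₁ q₂ : V) (hne : q₁ ≠ q₂)
    (hin : ∀ a ∈ l, a.1 = q₁ ∨ a.1 = q₂) (hq1 : ∃ a ∈ l, a.1 = q₁) (hq2 : ∃ a ∈ l, a.1 = q₂)
    (u : V) (y : Ltr n) (h1 : Edge E u y q₁) (h2 : Edge E u y q₂)
    (huniq : ∀ d c c', (c = q₁ ∨ c = q₂) → (c' = q₁ ∨ c' = q₂) → Edge E q₁ d c →
      Edge E q₂ d c' → d = bar y ∧ c = u ∧ c' = u) :
    ∃ (A : Ltr n → Prop) (x : Ltr n), Cut A x (l.map Prod.snd) := by
  classical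
  -- directions used by the walk
  set U : V → Ltr n → Prop := fun q d =>
    ∃ a b, CPair l a b ∧ ((a.1 = q ∧ a.2 = d) ∨ (b.1 = q ∧ bar a.2 = d)) with hU
  have hUe : ∀ q d, U q d → ∃ c, (c = q₁ ∨ c = q₂) ∧ Edge E q d c := by
    rintro q d ⟨a, b, hab, h | h⟩
    · obtain ⟨rfl, rfl⟩ := h
      exact ⟨b.1, hin b (a4_mem hab).2, a4_rel hl hab⟩
    · obtain ⟨rfl, rfl⟩ := h
      exact ⟨a.1, hin a (a4_mem hab).1, a4_edge_symm (a4_rel hl hab)⟩
  have hUturn : ∀ p v, CPair (l.map Prod.snd) p v → ∃ q, (q = q₁ ∨ q = q₂) ∧ U q (bar p) ∧ U q v := by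
    intro p v hp
    obtain ⟨a, b, hab, rfl, rfl⟩ := a4_map Prod.snd hp
    obtain ⟨c, hbc⟩ := a4_succ (a4_mem hab).2
    exact ⟨b.1, hin b (a4_mem hab).2, ⟨a, b, hab, Or.inr ⟨rfl, rfl⟩⟩,
      ⟨b, c, hbc, Or.inl ⟨rfl, rfl⟩⟩⟩
  have hmap : ∀ a b, CPair l a b → CPair (l.map Prod.snd) a.2 b.2 := by
    rintro a b ⟨t, ht, hv⟩
    refine ⟨t.map Prod.snd, ?_, ?_⟩
    · have := ht.map Prod.snd
      simpa using this
    · have : ((t ++ [a]).map Prod.snd).head? = some b.2 := by rw [List.head?_map, hv]; rfl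
      simpa using this
  -- every used direction has another used direction in its turn
  have hturn2 : ∀ q d, U q d → ∃ d', U q d' ∧ d' ≠ d ∧
      ((∃ p, bar p = d' ∧ CPair (l.map Prod.snd) p d) ∨
        (∃ p, bar p = d ∧ CPair (l.map Prod.snd) p d')) := by
    rintro q d ⟨a, b, hab, h | h⟩
    · obtain ⟨rfl, rfl⟩ := h
      obtain ⟨c, hca⟩ := a4_pred (a4_mem hab).1
      have h3 := hmap _ _ hca
      refine ⟨bar c.2, ⟨c, a, hca, Or.inr ⟨rfl, rfl⟩⟩, ?_, Or.inl ⟨c.2, rfl, h3⟩⟩
      intro he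
      exact a4_red hred h3 he.symm
    · obtain ⟨rfl, rfl⟩ := h
      obtain ⟨c, hbc⟩ := a4_succ (a4_mem hab).2
      have h3 := hmap _ _ hab
      exact ⟨b.2, ⟨b, c, hbc, Or.inl ⟨rfl, rfl⟩⟩, fun he => a4_red hred h3 he,
        Or.inr ⟨a.2, rfl, h3⟩⟩
  have hinter : ∀ d, U q₁ d → U q₂ d → d = bar y ∧ (u = q₁ ∨ u = q₂) := by
    intro d hd1 hd2
    obtain ⟨c, hc, he⟩ := hUe _ _ hd1
    obtain ⟨c', hc', he'⟩ := hUe _ _ hd2
    obtain ⟨h3, h4, -⟩ := huniq d c c' hc hc' he he'
    exact ⟨h3, by rw [← h4]; exact hc⟩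
  by_cases hcase : ∃ d, U q₁ d ∧ U q₂ d
  · -- the direction `bar y` is used at both vertices
    obtain ⟨d, hd1, hd2⟩ := hcase
    obtain ⟨hdy, hu⟩ := hinter d hd1 hd2
    rw [hdy] at hd1 hd2
    -- both edges `bar y` end at `u`
    obtain ⟨c, hc, he⟩ := hUe _ _ hd1
    obtain ⟨c', hc', he'⟩ := hUe _ _ hd2
    obtain ⟨-, h4, h5⟩ := huniq _ c c' hc hc' he he'
    rw [h4] at he
    rw [h5] at he'
    -- symmetric statement for the vertex `r` different from `u`
    have key : ∀ r s : V, (r = q₁ ∧ s = q₂ ∨ r = q₂ ∧ s = q₁) → u = s →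
        ∃ (A : Ltr n → Prop) (x : Ltr n), Cut A x (l.map Prod.snd) := by
      intro r s hrs hus
      have hUr : U r (bar y) := by rcases hrs with ⟨rfl, -⟩ | ⟨rfl, -⟩ <;> assumption
      have hUrs : ∀ d, U r d → U s d → d = bar y := by
        intro d hr hs
        rcases hrs with ⟨rfl, rfl⟩ | ⟨rfl, rfl⟩
        · exact (hinter d hr hs).1
        · exact (hinter d hs hr).1
      have hyr : ¬ U r y := by
        intro hy
        obtain ⟨e, he1, he2⟩ := hUe _ _ hy
        rcases hrs with ⟨rfl, rfl⟩ | ⟨rfl, rfl⟩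
        · -- s = q₂ = u, loop at u : Edge q₂ y q₂
          have h6 : Edge E s y s := by rw [hus] at h2; exact h2
          exact a4_bar_ne y (huniq y e s he1 (Or.inr rfl) he2 h6).1.symm
        · have h6 : Edge E s y s := by rw [hus] at h1; exact h1
          exact a4_bar_ne y (huniq y s e (Or.inl rfl) he1 h6 he2).1.symm
      refine ⟨U r, bar y, hUr, by rw [a4_bar_bar]; exact hyr, ?_, ?_⟩
      · intro p v hp
        obtain ⟨q, hq, hq1', hq2'⟩ := hUturn p v hp
        have hqrs : q = r ∨ q = s := by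
          rcases hrs with ⟨rfl, rfl⟩ | ⟨rfl, rfl⟩
          · exact hq
          · exact hq.symm
        rcases hqrs with rfl | rfl
        · exact ⟨fun _ => hq2', fun _ => hq1'⟩
        · exact ⟨fun h => absurd (hUrs _ h.1 hq1') h.2, fun h => absurd (hUrs _ h.1 hq2') h.2⟩
      · obtain ⟨d', hd', hne', h7 | h7⟩ := hturn2 r (bar y) hUr
        · obtain ⟨p, hp, hp2⟩ := h7
          exact ⟨p, bar y, hp2, Or.inr ⟨rfl, by rw [hp]; exact hd', by rw [hp]; exact hne'⟩⟩
        · obtain ⟨p, hp, hp2⟩ := h7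
          exact ⟨p, d', hp2, Or.inl ⟨hp, hd', hne'⟩⟩
    rcases hu with hu | hu
    · exact key q₂ q₁ (Or.inr ⟨rfl, rfl⟩) hu
    · exact key q₁ q₂ (Or.inl ⟨rfl, rfl⟩) hu
  · -- no common direction
    push Not at hcase
    -- a step from q₁ to q₂
    have hstep : ∃ a b, CPair l a b ∧ a.1 = q₁ ∧ b.1 = q₂ := by
      by_contra hno
      push Not at hno
      -- then all vertices are q₁
      obtain ⟨a, ha, ha1⟩ := hq1
      obtain ⟨t, ht, -⟩ := (a4_succ ha).choose_spec
      have hall : ∀ b ∈ a :: t, b.1 = q₁ := by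
        have hch : Cyc (fun a b : V × Ltr n => a.1 = q₁ → b.1 = q₁) (a :: t) := by
          have hR : ∀ c d, CPair (a :: t) c d → (c.1 = q₁ → d.1 = q₁) := by
            rintro c d ⟨s, hs, hs2⟩ hc
            have h8 : CPair l c d := ⟨s, hs.trans ht, hs2⟩
            rcases hin d (a4_mem h8).2 with h9 | h9
            · exact h9
            · exact absurd h9 (hno c d h8 hc)
          refine ⟨?_, ?_⟩
          · rw [List.isChain_iff_forall_rel_of_append_cons_cons]
            intro c d l1 l2 hl12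
            apply hR c d
            refine ⟨d :: l2 ++ l1, ?_, by simp⟩
            rw [hl12]
            have := List.isRotated_append (l := c :: d :: l2) (l' := l1)
            simpa using this
          · intro c hc d hd
            simp only [List.head?_cons, Option.mem_some_iff] at hd
            apply hR c d
            subst hd
            have hne2 : a :: t ≠ [] := by simp
            have hc' : (a :: t).getLast hne2 = c := by
              rw [List.getLast?_eq_some_getLast hne2] at hc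
              simpa using hc
            refine ⟨(a :: t).dropLast, ?_, ?_⟩
            · have h3 := List.isRotated_append (l := [(a :: t).getLast hne2])
                (l' := (a :: t).dropLast)
              rw [List.dropLast_append_getLast hne2] at h3
              rw [← hc']
              simpa using h3
            · rw [← hc', List.dropLast_append_getLast hne2]; rfl
        have h9 : ∀ (m : List (V × Ltr n)) (c : V × Ltr n), c.1 = q₁ →
            List.IsChain (fun a b : V × Ltr n => a.1 = q₁ → b.1 = q₁) (c :: m) →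
            ∀ b ∈ c :: m, b.1 = q₁ := by
          intro m
          induction m with
          | nil => intro c hc _ b hb; simp only [List.mem_singleton] at hb; rw [hb]; exact hc
          | cons d m ih =>
            intro c hc hch b hb
            rw [List.isChain_cons_cons] at hch
            rcases List.mem_cons.1 hb with rfl | hb
            · exact hc
            · exact ih d (hch.1 hc) hch.2 b hb
        exact h9 t a ha1 hch.1
      obtain ⟨b, hb, hb2⟩ := hq2
      exact hne ((hall b (ht.mem_iff.2 hb)).symm.trans hb2)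
    obtain ⟨a, b, hab, ha, hb⟩ := hstep
    have hA : U q₁ a.2 := ⟨a, b, hab, Or.inl ⟨ha, rfl⟩⟩
    have hB : U q₂ (bar a.2) := ⟨a, b, hab, Or.inr ⟨hb, rfl⟩⟩
    refine ⟨U q₁, a.2, hA, fun h => hcase _ h hB, ?_, ?_⟩
    · intro p v hp
      obtain ⟨q, hq, hq1', hq2'⟩ := hUturn p v hp
      rcases hq with rfl | rfl
      · exact ⟨fun _ => hq2', fun _ => hq1'⟩
      · exact ⟨fun h => absurd hq1' (hcase _ h.1), fun h => absurd hq2' (hcase _ h.1)⟩
    · obtain ⟨d', hd', hne', h7 | h7⟩ := hturn2 q₁ a.2 hA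
      · obtain ⟨p, hp, hp2⟩ := h7
        exact ⟨p, a.2, hp2, Or.inr ⟨rfl, by rw [hp]; exact hd', by rw [hp]; exact hne'⟩⟩
      · obtain ⟨p, hp, hp2⟩ := h7
        exact ⟨p, d', hp2, Or.inl ⟨hp, hd', hne'⟩⟩

end WPP
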