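import Pool.Agent.Lib.WPP_A2
import Pool.Agent.Lib.WPP_A3
import Pool.Agent.Lib.WPP_A4

/-! PROJECT WPP, row A5: a closed walk through two vertices gives a cut pair -/

namespace WPP

open FreeGroup List

theorem cut_of_walk_aux {n : ℕ} (N : ℕ) : ∀ (V : Type) [Fintype V] [DecidableEq V]
    (E : Finset (V × Fin n × V)), Fintype.card V ≤ N → Full E →
    E.card + 1 ≤ Fintype.card V + n →
    ∀ (l : List (V × Ltr n)), Cyc (fun a b => Edge E a.1 a.2 b.1) l →
    IsCyclicallyReduced (l.map Prod.snd) → (∃ a ∈ l, ∃ b ∈ l, a.1 ≠ b.1) →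
    ∃ (A : Ltr n → Prop) (x : Ltr n), Cut A x (l.map Prod.snd) := by
  induction N with
  | zero =>
    rintro V _ _ E hN - - l - - ⟨a, -, -⟩
    have : 0 < Fintype.card V := Fintype.card_pos_iff.2 ⟨a.1⟩
    omega
  | succ N ih =>
    intro V _ _ E hN h hc l hl hred hv
    obtain ⟨a₀, ha₀, b₀, hb₀, hab⟩ := hv
    have h2 : 2 ≤ Fintype.card V := Fintype.one_lt_card_iff.2 ⟨a₀.1, b₀.1, hab⟩
    obtain ⟨u, q₁, q₂, y, hne, h1, h2'⟩ := exists_fold E h h2
    obtain ⟨V', _, _, E', f, hF, hcard, hc', hE, hf, hu⟩ :=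
      fold_step E h hc u q₁ q₂ y hne h1 h2'
    by_cases hall : ∃ a ∈ l, ∃ b ∈ l, f a.1 ≠ f b.1
    · have hl' : Cyc (fun a b : V' × Ltr n => Edge E' a.1 a.2 b.1)
          (l.map fun a => (f a.1, a.2)) := by
        constructor
        · rw [List.isChain_map]
          exact List.IsChain.imp (fun a b hab => hE _ _ _ hab) hl.1
        · intro a ha b hb
          rw [List.getLast?_map, Option.mem_def, Option.map_eq_some_iff] at ha
          rw [List.head?_map, Option.mem_def, Option.map_eq_some_iff] at hb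
          obtain ⟨a', ha', rfl⟩ := ha
          obtain ⟨b', hb', rfl⟩ := hb
          exact hE _ _ _ (hl.2 a' ha' b' hb')
      have hm : (l.map fun a => (f a.1, a.2)).map Prod.snd = l.map Prod.snd := by
        rw [List.map_map]
        rfl
      obtain ⟨a, ha, b, hb, hfab⟩ := hall
      have := ih V' E' (by omega) hF hc' (l.map fun a => (f a.1, a.2)) hl' (hm ▸ hred)
        ⟨(f a.1, a.2), List.mem_map.2 ⟨a, ha, rfl⟩, (f b.1, b.2), List.mem_map.2 ⟨b, hb, rfl⟩,
          hfab⟩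
      rwa [hm] at this
    · push Not at hall
      have hq := (hf a₀.1 b₀.1).1 (hall a₀ ha₀ b₀ hb₀)
      have hin : ∀ a ∈ l, a.1 = q₁ ∨ a.1 = q₂ := by
        intro a ha
        rcases (hf a.1 a₀.1).1 (hall a ha a₀ ha₀) with h3 | ⟨h3, -⟩
        · rcases hq with hq | ⟨hq, -⟩
          · exact absurd hq hab
          · rw [h3]
            exact hq
        · exact h3
      have hq1 : ∃ a ∈ l, a.1 = q₁ := by
        rcases hin a₀ ha₀ with h3 | h3
        · exact ⟨a₀, ha₀, h3⟩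
        · rcases hin b₀ hb₀ with h4 | h4
          · exact ⟨b₀, hb₀, h4⟩
          · exact absurd (h3.trans h4.symm) hab
      have hq2 : ∃ a ∈ l, a.1 = q₂ := by
        rcases hin a₀ ha₀ with h3 | h3
        · rcases hin b₀ hb₀ with h4 | h4
          · exact absurd (h3.trans h4.symm) hab
          · exact ⟨b₀, hb₀, h4⟩
        · exact ⟨a₀, ha₀, h3⟩
      have hf12 : f q₁ = f q₂ := (hf q₁ q₂).2 (Or.inr ⟨Or.inl rfl, Or.inr rfl⟩)
      refine cut_two E l hl hred q₁ q₂ hne hin hq1 hq2 u y h1 h2' ?_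
      intro d c c' hc1 hc2 hd1 hd2
      rcases hu d q₁ c q₂ c' hd1 hd2 hf12 ((hf c c').2 (Or.inr ⟨hc1, hc2⟩)) with h3 | h3 | h3
      · exact absurd h3.1 hne
      · exact absurd (h3.2.1.trans h3.2.2.symm) hne
      · exact h3

theorem cut_of_walk {n : ℕ} {V : Type} [Fintype V] [DecidableEq V]
    (E : Finset (V × Fin n × V)) (h : Full E) (hc : E.card + 1 ≤ Fintype.card V + n)
    (l : List (V × Ltr n)) (hl : Cyc (fun a b => Edge E a.1 a.2 b.1) l)
    (hred : IsCyclicallyReduced (l.map Prod.snd)) (hv : ∃ a ∈ l, ∃ b ∈ l, a.1 ≠ b.1) :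
    ∃ (A : Ltr n → Prop) (x : Ltr n), Cut A x (l.map Prod.snd) :=
  cut_of_walk_aux (Fintype.card V) V E le_rfl h hc l hl hred hv

end WPP
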