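import Pool.Agent.Lib.WPP_Base

/-! PROJECT WPP, row A6: the wedge of loops labelled by the images of the basis -/

namespace WPP

section conn

variable {n : ℕ} {V : Type} (E : Finset (V × Fin n × V))

theorem a6_trans {u v : V} {g : FreeGroup (Fin n)} (h1 : Conn E u g v) :
    ∀ {w : V} {h : FreeGroup (Fin n)}, Conn E v h w → Conn E u (g * h) w := by
  intro w h h2
  induction h2 with
  | refl => rw [mul_one]; exact h1
  | step _ he ih => rw [← mul_assoc]; exact Conn.step ih he

theorem a6_edge {u v : V} {y : Ltr n} (h : Edge E u y v) : Conn E u (lt y) v := by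
  have := Conn.step (Conn.refl u) h
  rwa [one_mul] at this

theorem a6_edge_bar {u v : V} {y : Ltr n} (h : Edge E u y v) : Edge E v (bar y) u := by
  rcases h with ⟨h1, h2⟩ | ⟨h1, h2⟩
  · exact Or.inr ⟨by simp [bar, h1], h2⟩
  · exact Or.inl ⟨by simp [bar, h1], h2⟩

theorem a6_lt_bar (y : Ltr n) : lt (bar y) = (lt y)⁻¹ := by
  obtain ⟨i, b⟩ := y
  cases b
  · show FreeGroup.of i = ((FreeGroup.of i)⁻¹)⁻¹
    rw [inv_inv]
  · rfl

theorem a6_symm {u v : V} {g : FreeGroup (Fin n)} (h : Conn E u g v) : Conn E v g⁻¹ u := by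
  induction h with
  | refl => rw [inv_one]; exact Conn.refl u
  | step _ he ih =>
    rw [mul_inv_rev, ← a6_lt_bar]
    exact a6_trans E (a6_edge E (a6_edge_bar E he)) ih

end conn

section wedge

variable {n : ℕ} (b : Fin n → Word n)

/-- vertices of the wedge -/
abbrev A6V : Type := Option (Σ j : Fin n, Fin ((b j).length - 1))

/-- the vertex at distance `t` on the loop `j` -/
def a6_vert (j : Fin n) (t : ℕ) : A6V b :=
  if h : 0 < t ∧ t < (b j).length then some ⟨j, ⟨t - 1, by omega⟩⟩ else none

theorem a6_vert_zero (j : Fin n) : a6_vert b j 0 = none := by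
  unfold a6_vert
  rw [dif_neg]
  omega

theorem a6_vert_len (j : Fin n) : a6_vert b j (b j).length = none := by
  unfold a6_vert
  rw [dif_neg]
  omega

/-- the positive edge of a step -/
def a6_tri {V : Type} (u : V) (y : Ltr n) (v : V) : V × Fin n × V :=
  bif y.2 then (u, y.1, v) else (v, y.1, u)

theorem a6_tri_edge {V : Type} (E : Finset (V × Fin n × V)) (u : V) (y : Ltr n) (v : V)
    (h : a6_tri u y v ∈ E) : Edge E u y v := by
  obtain ⟨i, c⟩ := y
  cases c
  · exact Or.inr ⟨rfl, h⟩
  · exact Or.inl ⟨rfl, h⟩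

/-- the edges of the wedge -/
def a6_E : Finset (A6V b × Fin n × A6V b) :=
  (Finset.univ : Finset (Σ j : Fin n, Fin (b j).length)).image
    fun s => a6_tri (a6_vert b s.1 s.2.1) ((b s.1)[s.2.1]) (a6_vert b s.1 (s.2.1 + 1))

theorem a6_E_edge (j : Fin n) (t : ℕ) (h : t < (b j).length) :
    Edge (a6_E b) (a6_vert b j t) ((b j)[t]) (a6_vert b j (t + 1)) := by
  apply a6_tri_edge
  unfold a6_E
  rw [Finset.mem_image]
  exact ⟨⟨j, ⟨t, h⟩⟩, Finset.mem_univ _, rfl⟩

theorem a6_path (j : Fin n) : ∀ t : ℕ, t ≤ (b j).length →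
    Conn (a6_E b) none (FreeGroup.mk ((b j).take t)) (a6_vert b j t) := by
  intro t
  induction t with
  | zero =>
    intro _
    rw [a6_vert_zero, List.take_zero]
    exact Conn.refl none
  | succ t ih =>
    intro h
    have h1 := ih (by omega)
    have h2 := Conn.step h1 (a6_E_edge b j t (by omega))
    have e : FreeGroup.mk ((b j).take t) * lt ((b j)[t]) = FreeGroup.mk ((b j).take (t + 1)) := by
      rw [lt, FreeGroup.mul_mk, ← List.take_concat_get' (b j) t (by omega)]
    rw [e] at h2
    exact h2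

theorem a6_loop (j : Fin n) : Conn (a6_E b) none (FreeGroup.mk (b j)) none := by
  have h := a6_path b j (b j).length le_rfl
  rw [a6_vert_len, List.take_length] at h
  exact h

theorem a6_base (hgen : Subgroup.closure (Set.range fun j => FreeGroup.mk (b j)) = ⊤)
    (g : FreeGroup (Fin n)) : Conn (a6_E b) none g none := by
  have hg : g ∈ Subgroup.closure (Set.range fun j => FreeGroup.mk (b j)) := by
    rw [hgen]; exact Subgroup.mem_top g
  induction hg using Subgroup.closure_induction with
  | mem x hx =>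
    obtain ⟨j, rfl⟩ := hx
    exact a6_loop b j
  | one => exact Conn.refl none
  | mul x y _ _ hx hy => exact a6_trans _ hx hy
  | inv x _ hx => exact a6_symm _ hx

theorem a6_reach (v : A6V b) : ∃ g, Conn (a6_E b) none g v := by
  cases v with
  | none => exact ⟨1, Conn.refl none⟩
  | some s =>
    obtain ⟨j, t⟩ := s
    have ht : t.1 + 1 < (b j).length := by have := t.2; omega
    have h := a6_path b j (t.1 + 1) (by omega)
    have e : a6_vert b j (t.1 + 1) = some ⟨j, t⟩ := by
      unfold a6_vert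
      rw [dif_pos ⟨by omega, ht⟩]
      rfl
    rw [e] at h
    exact ⟨_, h⟩

theorem a6_full (hgen : Subgroup.closure (Set.range fun j => FreeGroup.mk (b j)) = ⊤) :
    Full (a6_E b) := by
  intro u v g
  obtain ⟨gu, hu⟩ := a6_reach b u
  obtain ⟨gv, hv⟩ := a6_reach b v
  have h := a6_trans _ (a6_trans _ (a6_symm _ hu) (a6_base b hgen (gu * g * gv⁻¹))) hv
  have e : gu⁻¹ * (gu * g * gv⁻¹) * gv = g := by group
  rwa [e] at h

theorem a6_card (hb : ∀ j, b j ≠ []) : (a6_E b).card + 1 ≤ Fintype.card (A6V b) + n := by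
  have h1 : (a6_E b).card ≤ ∑ j : Fin n, (b j).length := by
    refine le_trans Finset.card_image_le ?_
    rw [Finset.card_univ, Fintype.card_sigma]
    simp
  have h2 : Fintype.card (A6V b) = (∑ j : Fin n, ((b j).length - 1)) + 1 := by
    rw [Fintype.card_option, Fintype.card_sigma]
    simp
  have h3 : (∑ j : Fin n, ((b j).length - 1)) + n = ∑ j : Fin n, (b j).length := by
    have : (∑ j : Fin n, (b j).length) = ∑ j : Fin n, (((b j).length - 1) + 1) := by
      apply Finset.sum_congr rfl
      intro j _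
      have := List.length_pos_iff.mpr (hb j)
      omega
    rw [this, Finset.sum_add_distrib]
    simp
  omega

end wedge

theorem wedge_graph {n : ℕ} (b : Fin n → Word n) (hb : ∀ j, b j ≠ [])
    (hgen : Subgroup.closure (Set.range fun j => FreeGroup.mk (b j)) = ⊤) (i : Fin n)
    (h2 : 2 ≤ (b i).length) :
    ∃ (V : Type) (_ : Fintype V) (_ : DecidableEq V) (E : Finset (V × Fin n × V))
      (l : List (V × Ltr n)), Full E ∧ E.card + 1 ≤ Fintype.card V + n ∧
      Cyc (fun a b => Edge E a.1 a.2 b.1) l ∧ l.map Prod.snd = b i ∧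
      ∃ a ∈ l, ∃ b ∈ l, a.1 ≠ b.1 := by
  refine ⟨A6V b, inferInstance, inferInstance, a6_E b,
    List.ofFn (fun t : Fin (b i).length => (a6_vert b i t.1, (b i)[t.1])),
    a6_full b hgen, a6_card b hb, ⟨?_, ?_⟩, ?_, ?_⟩
  · rw [List.isChain_ofFn]
    intro t ht
    exact a6_E_edge b i t (by omega)
  · intro a ha c hc
    have hpos : 0 < (b i).length := by omega
    rw [List.getLast?_eq_getElem?, List.length_ofFn] at ha
    rw [List.head?_eq_getElem?] at hc
    rw [List.getElem?_ofFn] at ha hc
    rw [dif_pos (by omega)] at ha hc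
    simp only [Option.mem_def, Option.some.injEq] at ha hc
    rw [← ha, ← hc]
    have h := a6_E_edge b i ((b i).length - 1) (by omega)
    have e : (b i).length - 1 + 1 = (b i).length := by omega
    rw [e, a6_vert_len] at h
    simp only [a6_vert_zero]
    exact h
  · rw [List.map_ofFn]
    exact List.ofFn_getElem
  · refine ⟨(a6_vert b i 0, (b i)[0]), ?_, (a6_vert b i 1, (b i)[1]), ?_, ?_⟩
    · rw [List.mem_ofFn]
      exact ⟨⟨0, by omega⟩, rfl⟩
    · rw [List.mem_ofFn]
      exact ⟨⟨1, by omega⟩, rfl⟩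
    · show a6_vert b i 0 ≠ a6_vert b i 1
      rw [a6_vert_zero]
      unfold a6_vert
      rw [dif_pos ⟨by omega, by omega⟩]
      simp

end WPP
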