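import Pool.Agent.Lib.WPP_A5
import Pool.Agent.Lib.WPP_A6

/-! PROJECT WPP, row A7: the cut vertex lemma for primitive cyclic words -/

namespace WPP

open FreeGroup List

theorem cut_exists {n : ℕ} (p : Word n) (hp : IsCyclicallyReduced p) (h2 : 2 ≤ p.length)
    (hprim : Prim (FreeGroup.mk p)) : ∃ (A : Ltr n → Prop) (x : Ltr n), Cut A x p := by
  obtain ⟨φ, i, hφ⟩ := hprim
  have hmk : ∀ j, FreeGroup.mk (if j = i then p else (φ (FreeGroup.of j)).toWord) =
      φ (FreeGroup.of j) := by
    intro j
    split_ifs with hj
    · rw [hj, hφ]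
    · exact FreeGroup.mk_toWord
  have hb : ∀ j, (if j = i then p else (φ (FreeGroup.of j)).toWord) ≠ [] := by
    intro j h0
    have h1 := hmk j
    rw [h0] at h1
    exact FreeGroup.of_ne_one j (φ.injective (h1.symm.trans φ.map_one.symm))
  have hgen : Subgroup.closure (Set.range fun j => FreeGroup.mk
      (if j = i then p else (φ (FreeGroup.of j)).toWord)) = ⊤ := by
    have h1 : (Set.range fun j => FreeGroup.mk
        (if j = i then p else (φ (FreeGroup.of j)).toWord)) =
        φ.toMonoidHom '' Set.range (FreeGroup.of : Fin n → FreeGroup (Fin n)) := by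
      rw [← Set.range_comp]
      congr 1
      funext j
      exact hmk j
    rw [h1, ← MonoidHom.map_closure, FreeGroup.closure_range_of, ← MonoidHom.range_eq_map]
    exact MonoidHom.range_eq_top.2 φ.surjective
  obtain ⟨V, _, _, E, l, hF, hc, hl, hlab, hv⟩ := wedge_graph
    (fun j => if j = i then p else (φ (FreeGroup.of j)).toWord) hb hgen i (by simpa using h2)
  have hlab' : l.map Prod.snd = p := by simpa using hlab
  have := cut_of_walk E hF hc l hl (hlab' ▸ hp) hv
  rwa [hlab'] at this

end WPP
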