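import Pool.Agent.Lib.WPP_Base

namespace WPP

open FreeGroup List

section RowB

variable {n : ℕ}

theorem rowB_bar_bar (y : Ltr n) : bar (bar y) = y := by
  rcases y with ⟨i, b⟩; simp [bar]

theorem rowB_bar_ne (y : Ltr n) : bar y ≠ y := by
  rcases y with ⟨i, b⟩; simp [bar]

/-- reducedness and the two turn conditions for a pair of consecutive letters -/
def rowB_T (A : Ltr n → Prop) (x u v : Ltr n) : Prop :=
  v ≠ bar u ∧ ((A (bar u) ∧ bar u ≠ x → A v) ∧ (A v ∧ v ≠ x → A (bar u)))

/-- the letter `v` between `u` and `w` is dropped -/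
def rowB_D (A : Ltr n → Prop) (x u v w : Ltr n) : Prop :=
  (v = x ∧ A (bar u)) ∨ (v = bar x ∧ A w)

open Classical in
/-- delete the dropped letters of a list which is preceded by `u` and followed by `z` -/
noncomputable def rowB_dl {β : Type} (lab : β → Ltr n) (A : Ltr n → Prop) (x : Ltr n) :
    β → List β → β → List β
  | _, [], _ => []
  | u, v :: l, z =>
    if rowB_D A x (lab u) (lab v) (lab (l.headD z)) then rowB_dl lab A x v l z
    else v :: rowB_dl lab A x v l z

/-- a consecutive pair of letters, the second one and the first one not dropped -/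
theorem rowB_match (A : Ltr n → Prop) (x u v : Ltr n) (hx : A x) (hbx : ¬ A (bar x))
    (h : rowB_T A x u v) (hu : u = bar x → ¬ A v) (hv : v = x → ¬ A (bar u)) :
    (Xs A x u ↔ Es A x v) := by
  obtain ⟨h1, h2, h3⟩ := h
  unfold Xs Es
  by_cases hux : u = x
  · subst hux
    by_cases hvx : v = u
    · simp [hvx]
    · by_cases hvb : v = bar u
      · exact absurd hvb h1
      · have : ¬ A v := fun h => hbx (h3 ⟨h, hvx⟩)
        simp [this]
  · by_cases hub : u = bar x
    · have : ¬ A v := hu hub
      simp [hub, this]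
    · by_cases hvx : v = x
      · have := hv hvx
        simp [hvx, this]
      · by_cases hvb : v = bar x
        · have hne : bar u ≠ x := fun h => hub (by rw [← h, rowB_bar_bar])
          have : ¬ A (bar u) := fun h => hbx (hvb ▸ h2 ⟨h, hne⟩)
          simp [hvb, this]
        · have hne : bar u ≠ x := fun h => hub (by rw [← h, rowB_bar_bar])
          have e : A (bar u) ↔ A v := ⟨fun h => h2 ⟨h, hne⟩, fun h => h3 ⟨h, hvx⟩⟩
          simp [hux, hub, hvx, hvb, e]

/-- the chain lemma -/
theorem rowB_chain {β : Type} (lab : β → Ltr n) (R : β → β → Prop) (A : Ltr n → Prop)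
    (x : Ltr n) (hx : A x) (hbx : ¬ A (bar x)) (z : β) (hz : lab z ≠ x)
    (hz' : lab z ≠ bar x) :
    ∀ (N : ℕ) (l : List β) (u : β), l.length ≤ N →
      List.IsChain R (u :: (l ++ [z])) →
      List.IsChain (fun a b => rowB_T A x (lab a) (lab b)) (u :: (l ++ [z])) →
      (lab u = bar x → ¬ A (lab (l.headD z))) →
      List.IsChain (mv lab A x R) (u :: (rowB_dl lab A x u l z ++ [z])) := by
  intro N
  induction N with
  | zero =>
    intro l u hl hR hT hu
    have : l = [] := List.length_eq_zero_iff.1 (Nat.le_zero.1 hl)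
    subst this
    simp only [rowB_dl, List.nil_append, List.isChain_cons_cons, List.isChain_singleton,
      and_true] at hR hT ⊢
    exact Or.inl ⟨hR, rowB_match A x _ _ hx hbx hT hu (fun h => absurd h hz)⟩
  | succ N ih =>
    intro l u hl hR hT hu
    rcases l with _ | ⟨v, l⟩
    · simp only [rowB_dl, List.nil_append, List.isChain_cons_cons, List.isChain_singleton,
        and_true] at hR hT ⊢
      exact Or.inl ⟨hR, rowB_match A x _ _ hx hbx hT hu (fun h => absurd h hz)⟩
    · simp only [List.cons_append, List.isChain_cons_cons] at hR hT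
      obtain ⟨hRuv, hR'⟩ := hR
      obtain ⟨hTuv, hT'⟩ := hT
      simp only [List.headD_cons] at hu
      simp only [List.length_cons] at hl
      by_cases hd : rowB_D A x (lab u) (lab v) (lab (l.headD z))
      · simp only [rowB_dl, hd, if_true]
        have key : ∀ w, rowB_T A x (lab v) (lab w) → R v w →
            lab (l.headD z) = lab w → mv lab A x R u w := by
          intro w hTw hRw hw
          refine Or.inr ⟨v, hRuv, hRw, ?_⟩
          rw [hw] at hd
          rcases hd with ⟨hv, hA⟩ | ⟨hv, hA⟩
          · left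
            refine ⟨hv, ?_, ?_⟩
            · unfold Xs
              push Not
              refine ⟨?_, ?_, hA⟩
              · intro h; rw [h] at hA; exact hbx hA
              · intro h
                exact hTuv.1 (by rw [hv, h, rowB_bar_bar])
            · unfold Es
              by_cases h : lab w = x
              · exact Or.inl h
              · refine Or.inr (Or.inr fun h' => ?_)
                have := hTw.2.2 ⟨h', h⟩
                rw [hv] at this
                exact hbx this
          · right
            refine ⟨hv, ?_, ?_⟩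
            · unfold Xs
              by_cases h : bar (lab u) = x
              · right; left; rw [← h, rowB_bar_bar]
              · right; right; intro h'
                have := hTuv.2.1 ⟨h', h⟩
                rw [hv] at this
                exact hbx this
            · unfold Es
              push Not
              refine ⟨?_, ?_, hA⟩
              · intro h
                exact hTw.1 (by rw [hv, rowB_bar_bar, h])
              · intro h; rw [h] at hA; exact hbx hA
        rcases l with _ | ⟨w, l⟩
        · simp only [rowB_dl, List.nil_append, List.isChain_cons_cons, List.isChain_singleton,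
            and_true] at hR' hT' ⊢
          exact key z hT' hR' rfl
        · simp only [List.cons_append, List.isChain_cons_cons] at hR' hT'
          obtain ⟨hRvw, hR''⟩ := hR'
          obtain ⟨hTvw, hT''⟩ := hT'
          simp only [List.headD_cons] at hd
          have hnd : ¬ rowB_D A x (lab v) (lab w) (lab (l.headD z)) := by
            rintro (⟨h1, h2⟩ | ⟨h1, h2⟩)
            · rcases hd with ⟨hv, hA⟩ | ⟨hv, hA⟩
              · rw [hv] at h2; exact hbx h2
              · exact hTvw.1 (by rw [hv, rowB_bar_bar, h1])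
            · rcases hd with ⟨hv, hA⟩ | ⟨hv, hA⟩
              · exact hTvw.1 (by rw [hv, h1])
              · rw [h1] at hA; exact hbx hA
          simp only [rowB_dl, hnd, if_false, List.cons_append, List.isChain_cons_cons]
          refine ⟨key w hTvw hRvw rfl, ih l w ?_ hR'' hT'' ?_⟩
          · simp only [List.length_cons] at hl; omega
          · intro h
            exfalso
            rcases hd with ⟨hv, hA⟩ | ⟨hv, hA⟩
            · exact hTvw.1 (by rw [hv, h])
            · rw [h] at hA; exact hbx hA
      · simp only [rowB_dl, hd, if_false, List.cons_append, List.isChain_cons_cons]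
        refine ⟨Or.inl ⟨hRuv, rowB_match A x _ _ hx hbx hTuv hu ?_⟩,
          ih l v (by omega) hR' hT' ?_⟩
        · intro h h'
          exact hd (Or.inl ⟨h, h'⟩)
        · intro h h'
          exact hd (Or.inr ⟨h, h'⟩)

end RowB

section RowB2

variable {n : ℕ}

theorem rowB_cyc {β : Type} (R : β → β → Prop) (a : β) (t : List β) :
    Cyc R (a :: t) ↔ List.IsChain R (a :: (t ++ [a])) := by
  unfold Cyc
  rw [show a :: (t ++ [a]) = (a :: t) ++ [a] by simp, List.isChain_append]
  simp

theorem rowB_cyc_app {β : Type} (R : β → β → Prop) (l₁ l₂ : List β)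
    (h : Cyc R (l₁ ++ l₂)) : Cyc R (l₂ ++ l₁) := by
  rcases l₁ with _ | ⟨a, l₁⟩
  · simpa using h
  rcases l₂ with _ | ⟨b, l₂⟩
  · simpa using h
  rw [List.cons_append] at h ⊢
  rw [rowB_cyc] at h ⊢
  rw [show a :: (l₁ ++ b :: l₂ ++ [a]) = (a :: l₁) ++ b :: (l₂ ++ [a]) by simp,
    List.isChain_split] at h
  rw [show b :: (l₂ ++ a :: l₁ ++ [b]) = (b :: l₂) ++ a :: (l₁ ++ [b]) by simp,
    List.isChain_split]
  refine ⟨?_, ?_⟩
  · simpa using h.2
  · simpa using h.1

theorem rowB_rot {β : Type} {l l' : List β} (h : l ~r l') :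
    ∃ l₁ l₂, l = l₁ ++ l₂ ∧ l' = l₂ ++ l₁ := by
  obtain ⟨k, rfl⟩ := h
  refine ⟨l.take (k % l.length), l.drop (k % l.length), (List.take_append_drop _ _).symm, ?_⟩
  exact List.rotate_eq_drop_append_take_mod

theorem rowB_cyc_rot {β : Type} {R : β → β → Prop} {l l' : List β} (h : l ~r l')
    (hc : Cyc R l) : Cyc R l' := by
  obtain ⟨l₁, l₂, rfl, rfl⟩ := rowB_rot h
  exact rowB_cyc_app R _ _ hc

theorem rowB_app_rot {β : Type} (l₁ l₂ : List β) : (l₁ ++ l₂) ~r (l₂ ++ l₁) :=
  List.isRotated_append

/-- consecutive pairs of a closed chain -/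
theorem rowB_cyc_iff {β : Type} (S : β → β → Prop) (a : β) (t : List β) :
    Cyc S (a :: t) ↔ ∀ u v, CPair (a :: t) u v → S u v := by
  constructor
  · rintro h u v ⟨t', h1, h2⟩
    have := rowB_cyc_rot h1.symm h
    rw [rowB_cyc, List.isChain_cons] at this
    exact this.1 v (by rw [h2]; rfl)
  · intro h
    have key : ∀ (l₂ l₁ : List β), a :: t = l₁ ++ l₂ → List.IsChain S (l₂ ++ [a]) := by
      intro l₂
      induction l₂ with
      | nil => intro l₁ _; simp
      | cons c l₂ ih =>
        intro l₁ hl
        rw [List.cons_append, List.isChain_cons]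
        refine ⟨?_, ih (l₁ ++ [c]) (by rw [hl]; simp)⟩
        intro y hy
        refine h c y ⟨l₂ ++ l₁, ?_, ?_⟩
        · rw [hl, ← List.cons_append]; exact rowB_app_rot _ _
        · rcases l₂ with _ | ⟨d, l₂⟩
          · simp only [List.nil_append, List.head?_cons, Option.mem_def, Option.some.injEq] at hy
            subst hy
            rcases l₁ with _ | ⟨e, l₁⟩
            · simp only [List.nil_append, List.cons.injEq] at hl
              simp [hl.1]
            · simp only [List.cons_append, List.cons.injEq] at hl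
              simp [hl.1]
          · simpa using hy
    rw [rowB_cyc]
    have := key (a :: t) [] rfl
    simpa using this

theorem rowB_cpair_rot {β : Type} {p p' : List β} (h : p ~r p') {u v : β}
    (hc : CPair p u v) : CPair p' u v := by
  obtain ⟨t, h1, h2⟩ := hc
  exact ⟨t, h1.trans h, h2⟩

theorem rowB_cpair_mem {β : Type} {p : List β} {u v : β} (hc : CPair p u v) :
    u ∈ p ∧ v ∈ p := by
  obtain ⟨t, h1, h2⟩ := hc
  refine ⟨h1.mem_iff.1 (by simp), h1.mem_iff.1 ?_⟩
  have : v ∈ t ++ [u] := List.mem_of_head? h2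
  simp only [List.mem_append, List.mem_singleton] at this
  rcases this with h | h <;> simp [h]

theorem rowB_acc_rot {β : Type} {lab : β → Ltr n} {R : β → β → Prop} {w w' : Word n}
    (h : w ~r w') (hc : Acc lab R w) : Acc lab R w' := by
  obtain ⟨l, rfl, hl⟩ := hc
  obtain ⟨k, rfl⟩ := h
  refine ⟨l.rotate k, by rw [List.map_rotate], rowB_cyc_rot ⟨k, rfl⟩ hl⟩

theorem rowB_pow_split {β : Type} (l₁ l₂ : List β) (k : ℕ) :
    (List.replicate (k + 1) (l₁ ++ l₂)).flatten =
      l₁ ++ ((List.replicate k (l₂ ++ l₁)).flatten ++ l₂) := by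
  induction k with
  | zero => simp
  | succ k ih =>
    rw [List.replicate_succ, List.flatten_cons, ih, List.replicate_succ (n := k),
      List.flatten_cons]
    simp

theorem rowB_pow_rot {β : Type} {w w' : List β} (h : w ~r w') (k : ℕ) :
    (List.replicate k w).flatten ~r (List.replicate k w').flatten := by
  obtain ⟨l₁, l₂, rfl, rfl⟩ := rowB_rot h
  rcases k with _ | k
  · simp
  · rw [rowB_pow_split, List.replicate_succ', List.flatten_append]
    simp only [List.flatten_cons, List.flatten_nil, List.append_nil]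
    rw [← List.append_assoc]
    have := rowB_app_rot l₁ ((List.replicate k (l₂ ++ l₁)).flatten ++ l₂)
    simpa using this

theorem rowB_chain_pow {β : Type} (S : β → β → Prop) (a : β) (t : List β)
    (h : List.IsChain S (a :: (t ++ [a]))) (k : ℕ) :
    List.IsChain S ((List.replicate k (a :: t)).flatten ++ [a]) := by
  induction k with
  | zero => simp
  | succ k ih =>
    rw [List.replicate_succ, List.flatten_cons]
    rcases k with _ | k
    · simpa using h
    · rw [List.replicate_succ, List.flatten_cons] at ih ⊢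
      rw [show (a :: t) ++ ((a :: t) ++ (List.replicate k (a :: t)).flatten) ++ [a]
        = (a :: t) ++ a :: (t ++ (List.replicate k (a :: t)).flatten ++ [a]) by simp,
        List.isChain_split]
      refine ⟨by simpa using h, by simpa using ih⟩

/-- the deletion depends on the labels only -/
theorem rowB_map {β : Type} (lab : β → Ltr n) (A : Ltr n → Prop) (x : Ltr n) (z : β) :
    ∀ (l : List β) (u : β), (rowB_dl lab A x u l z).map lab =
      rowB_dl (fun y => y) A x (lab u) (l.map lab) (lab z) := by
  intro l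
  induction l with
  | nil => intro u; simp [rowB_dl]
  | cons v l ih =>
    intro u
    have e : (l.map lab).headD (lab z) = lab (l.headD z) := by cases l <;> simp
    by_cases hd : rowB_D A x (lab u) (lab v) (lab (l.headD z))
    · simp only [rowB_dl, List.map_cons, e, hd, if_true]
      exact ih v
    · simp only [rowB_dl, List.map_cons, e, hd, if_false]
      rw [ih v]

theorem rowB_dl_app {β : Type} (lab : β → Ltr n) (A : Ltr n → Prop) (x : Ltr n) (a : β)
    (h1 : lab a ≠ x) (h2 : lab a ≠ bar x) (l₂ : List β) (z : β) :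
    ∀ (l₁ : List β) (u : β), rowB_dl lab A x u (l₁ ++ a :: l₂) z =
      rowB_dl lab A x u l₁ a ++ a :: rowB_dl lab A x a l₂ z := by
  intro l₁
  induction l₁ with
  | nil =>
    intro u
    have : ¬ rowB_D A x (lab u) (lab a) (lab (l₂.headD z)) := by
      rintro (⟨h, _⟩ | ⟨h, _⟩)
      · exact h1 h
      · exact h2 h
    simp only [rowB_dl, List.nil_append, this, if_false]
  | cons v l ih =>
    intro u
    have e : (l ++ a :: l₂).headD z = l.headD a := by cases l <;> simp
    by_cases hd : rowB_D A x (lab u) (lab v) (lab (l.headD a))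
    · simp only [rowB_dl, List.cons_append, e, hd, if_true]
      exact ih v
    · simp only [rowB_dl, List.cons_append, e, hd, if_false]
      rw [ih v]

theorem rowB_dl_pow {β : Type} (lab : β → Ltr n) (A : Ltr n → Prop) (x : Ltr n) (a : β)
    (h1 : lab a ≠ x) (h2 : lab a ≠ bar x) (t : List β) (m : ℕ) :
    a :: rowB_dl lab A x a (t ++ (List.replicate m (a :: t)).flatten) a =
      (List.replicate (m + 1) (a :: rowB_dl lab A x a t a)).flatten := by
  induction m with
  | zero => simp
  | succ m ih =>
    rw [List.replicate_succ, List.flatten_cons, List.cons_append, rowB_dl_app lab A x a h1 h2,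
      ih, List.replicate_succ (n := m + 1), List.flatten_cons]
    simp

theorem rowB_len {β : Type} (lab : β → Ltr n) (A : Ltr n → Prop) (x : Ltr n) (z : β)
    (hz : lab z ≠ x) :
    ∀ (l : List β) (u : β), (lab u = bar x → ¬ A (lab (l.headD z))) →
      (rowB_dl lab A x u l z).length ≤ l.length ∧
      ((rowB_dl lab A x u l z).length < l.length ∨
      List.IsChain (fun c d => ¬ (lab d = x ∧ A (bar (lab c))) ∧
        ¬ (lab c = bar x ∧ A (lab d))) (u :: (l ++ [z]))) := by
  intro l
  induction l with
  | nil =>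
    intro u hu
    refine ⟨by simp [rowB_dl], Or.inr ?_⟩
    simp only [List.nil_append, List.isChain_cons_cons, List.isChain_singleton, and_true]
    exact ⟨fun h => hz h.1, fun h => hu h.1 h.2⟩
  | cons v l ih =>
    intro u hu
    have hle : ∀ (l : List β) (u : β), (rowB_dl lab A x u l z).length ≤ l.length := by
      intro l
      induction l with
      | nil => intro u; simp [rowB_dl]
      | cons v l ih =>
        intro u
        have := ih v
        by_cases hd : rowB_D A x (lab u) (lab v) (lab (l.headD z))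
        · simp only [rowB_dl, hd, if_true, List.length_cons]; omega
        · simp only [rowB_dl, hd, if_false, List.length_cons]; omega
    refine ⟨hle _ _, ?_⟩
    by_cases hd : rowB_D A x (lab u) (lab v) (lab (l.headD z))
    · left
      have := hle l v
      simp only [rowB_dl, hd, if_true, List.length_cons]; omega
    · simp only [rowB_dl, hd, if_false, List.length_cons, List.cons_append,
        List.isChain_cons_cons]
      rcases (ih v (fun h h' => hd (Or.inr ⟨h, h'⟩))).2 with h | h
      · left; omega
      · right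
        exact ⟨⟨fun h' => hd (Or.inl h'), fun h' => hu h'.1 h'.2⟩, h⟩

/-- removed letters do not create inverse pairs -/
theorem rowB_mv_red (A : Ltr n → Prop) (x : Ltr n) (a b : Ltr n)
    (h : mv (fun y : Ltr n => y) A x (rowB_T A x) a b) : b ≠ bar a := by
  rcases h with ⟨h, _⟩ | ⟨m, h1, h2, h | h⟩
  · exact h.1
  · obtain ⟨hm, hX, hE⟩ := h
    rintro rfl
    unfold Xs at hX
    unfold Es at hE
    push Not at hX
    rcases hE with h | h | h
    · have h' : bar a = x := h
      exact hX.2.1 (by rw [← h', rowB_bar_bar])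
    · have h' : bar a = bar x := h
      exact hX.1 (by rw [← rowB_bar_bar a, h', rowB_bar_bar])
    · exact h hX.2.2
  · obtain ⟨hm, hX, hE⟩ := h
    rintro rfl
    unfold Xs at hX
    unfold Es at hE
    push Not at hE
    rcases hX with h | h | h
    · have h' : a = x := h
      exact hE.2.1 (by rw [h'])
    · have h' : a = bar x := h
      exact hE.1 (by rw [h', rowB_bar_bar])
    · exact h hE.2.2

theorem rowB_red (u v : Ltr n) : (u.1 = v.1 → u.2 = v.2) ↔ v ≠ bar u := by
  rcases u with ⟨i, b⟩
  rcases v with ⟨j, c⟩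
  simp only [bar, ne_eq, Prod.mk.injEq, not_and]
  constructor
  · intro h hj hc
    have := h hj.symm
    subst this
    cases b <;> simp at hc
  · intro h hj
    have := h hj.symm
    cases b <;> cases c <;> simp_all

theorem rowB_cycred (p : Word n) : IsCyclicallyReduced p ↔ Cyc (fun u v => v ≠ bar u) p := by
  unfold IsCyclicallyReduced Cyc FreeGroup.IsReduced
  constructor
  · rintro ⟨h1, h2⟩
    exact ⟨h1.imp fun a b h => (rowB_red a b).1 h, fun a ha b hb => (rowB_red a b).1 (h2 a ha b hb)⟩
  · rintro ⟨h1, h2⟩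
    exact ⟨h1.imp fun a b h => (rowB_red a b).2 h, fun a ha b hb => (rowB_red a b).2 (h2 a ha b hb)⟩

end RowB2

section RowB3

variable {n : ℕ}

open Classical in
/-- `x` if `P` holds, `1` otherwise -/
noncomputable def rowB_k (x : Ltr n) (P : Prop) : FreeGroup (Fin n) := if P then lt x else 1

theorem rowB_k_pos {x : Ltr n} {P : Prop} (h : P) : rowB_k x P = lt x := by
  simp [rowB_k, h]

theorem rowB_k_neg {x : Ltr n} {P : Prop} (h : ¬ P) : rowB_k x P = 1 := by
  simp [rowB_k, h]

/-- the Whitehead automorphism on generators -/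
noncomputable def rowB_f (A : Ltr n → Prop) (x : Ltr n) (i : Fin n) : FreeGroup (Fin n) :=
  if i = x.1 then FreeGroup.of i
  else rowB_k x (A (i, true)) * FreeGroup.of i * (rowB_k x (A (i, false)))⁻¹

/-- the inverse on generators -/
noncomputable def rowB_g (A : Ltr n → Prop) (x : Ltr n) (i : Fin n) : FreeGroup (Fin n) :=
  if i = x.1 then FreeGroup.of i
  else (rowB_k x (A (i, true)))⁻¹ * FreeGroup.of i * rowB_k x (A (i, false))

theorem rowB_lt_true (i : Fin n) : lt ((i, true) : Ltr n) = FreeGroup.of i := rfl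

theorem rowB_lt_bar (y : Ltr n) : lt (bar y) = (lt y)⁻¹ := by
  rcases y with ⟨i, b⟩
  simp [lt, bar, FreeGroup.inv_mk, FreeGroup.invRev]

theorem rowB_lift_x (f : Fin n → FreeGroup (Fin n)) (x : Ltr n)
    (h : f x.1 = FreeGroup.of x.1) : FreeGroup.lift f (lt x) = lt x := by
  rcases x with ⟨i, b⟩
  cases b
  · have : lt ((i, false) : Ltr n) = (FreeGroup.of i)⁻¹ := by
      rw [← rowB_lt_true, ← rowB_lt_bar]; rfl
    rw [this, _root_.map_inv, FreeGroup.lift_apply_of, h]
  · rw [rowB_lt_true, FreeGroup.lift_apply_of, h]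

theorem rowB_lift_k (f : Fin n → FreeGroup (Fin n)) (x : Ltr n)
    (h : f x.1 = FreeGroup.of x.1) (P : Prop) :
    FreeGroup.lift f (rowB_k x P) = rowB_k x P := by
  by_cases hP : P
  · rw [rowB_k_pos hP, rowB_lift_x f x h]
  · rw [rowB_k_neg hP, _root_.map_one]

/-- the Whitehead automorphism -/
noncomputable def rowB_tau (A : Ltr n → Prop) (x : Ltr n) :
    FreeGroup (Fin n) ≃* FreeGroup (Fin n) :=
  MonoidHom.toMulEquiv (FreeGroup.lift (rowB_f A x)) (FreeGroup.lift (rowB_g A x))
    (by
      ext i
      simp only [MonoidHom.comp_apply, FreeGroup.lift_apply_of, MonoidHom.id_apply]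
      by_cases hi : i = x.1
      · simp [rowB_f, rowB_g, hi]
      · simp only [rowB_f, hi, if_false, _root_.map_mul, _root_.map_inv, FreeGroup.lift_apply_of]
        rw [rowB_lift_k _ x (by simp [rowB_g]), rowB_lift_k _ x (by simp [rowB_g])]
        simp only [rowB_g, hi, if_false]
        group)
    (by
      ext i
      simp only [MonoidHom.comp_apply, FreeGroup.lift_apply_of, MonoidHom.id_apply]
      by_cases hi : i = x.1
      · simp [rowB_f, rowB_g, hi]
      · simp only [rowB_g, hi, if_false, _root_.map_mul, _root_.map_inv, FreeGroup.lift_apply_of]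
        rw [rowB_lift_k _ x (by simp [rowB_f]), rowB_lift_k _ x (by simp [rowB_f])]
        simp only [rowB_f, hi, if_false]
        group)

theorem rowB_tau_x (A : Ltr n → Prop) (x : Ltr n) : rowB_tau A x (lt x) = lt x :=
  rowB_lift_x _ x (by simp [rowB_f])

theorem rowB_tau_lt (A : Ltr n → Prop) (x y : Ltr n) (h1 : y ≠ x) (h2 : y ≠ bar x) :
    rowB_tau A x (lt y) = rowB_k x (A y) * lt y * (rowB_k x (A (bar y)))⁻¹ := by
  have hi : y.1 ≠ x.1 := by
    intro h
    rcases x with ⟨i, b⟩
    rcases y with ⟨j, c⟩
    simp only at h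
    subst h
    cases b <;> cases c <;> simp [bar] at h1 h2
  have ht : ∀ i : Fin n, i ≠ x.1 → rowB_tau A x (lt (i, true)) =
      rowB_k x (A (i, true)) * lt (i, true) * (rowB_k x (A (i, false)))⁻¹ := by
    intro i hi
    have : rowB_tau A x (lt (i, true)) = FreeGroup.lift (rowB_f A x) (FreeGroup.of i) := rfl
    rw [this, FreeGroup.lift_apply_of]
    simp [rowB_f, hi, rowB_lt_true]
  rcases y with ⟨j, c⟩
  cases c
  · have e : lt ((j, false) : Ltr n) = (lt (j, true))⁻¹ := by
      rw [← rowB_lt_bar]; rfl
    rw [e, _root_.map_inv, ht j hi]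
    simp only [bar, Bool.not_false]
    group
  · exact ht j hi

/-- one letter -/
theorem rowB_letter (A : Ltr n → Prop) (x u v w : Ltr n) (hx : A x) (hbx : ¬ A (bar x))
    (h1 : rowB_T A x u v) (h2 : rowB_T A x v w) :
    rowB_tau A x (lt v) * rowB_k x (A (bar v) ∧ A w) =
      rowB_k x (A (bar u) ∧ A v) * (open Classical in if rowB_D A x u v w then 1 else lt v) := by
  by_cases hvx : v = x
  · subst hvx
    have e1 : ¬ (A (bar v) ∧ A w) := fun h => hbx h.1
    rw [rowB_k_neg e1, rowB_tau_x, mul_one]
    by_cases hA : A (bar u)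
    · have hD : rowB_D A v u v w := Or.inl ⟨rfl, hA⟩
      rw [rowB_k_pos ⟨hA, hx⟩, if_pos hD, mul_one]
    · have hD : ¬ rowB_D A v u v w := by
        rintro (h | h)
        · exact hA h.2
        · exact rowB_bar_ne v h.1.symm
      rw [rowB_k_neg (fun h => hA h.1), if_neg hD, one_mul]
  · by_cases hvb : v = bar x
    · have e1 : ¬ (A (bar u) ∧ A v) := fun h => hbx (hvb ▸ h.2)
      rw [rowB_k_neg e1, one_mul]
      have e2 : bar v = x := by rw [hvb, rowB_bar_bar]
      have e3 : rowB_tau A x (lt v) = (lt x)⁻¹ := by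
        rw [hvb, rowB_lt_bar, _root_.map_inv, rowB_tau_x]
      by_cases hA : A w
      · have hD : rowB_D A x u v w := Or.inr ⟨hvb, hA⟩
        rw [rowB_k_pos ⟨by rw [e2]; exact hx, hA⟩, if_pos hD, e3]
        group
      · have hD : ¬ rowB_D A x u v w := by
          rintro (h | h)
          · exact hvx h.1
          · exact hA h.2
        rw [rowB_k_neg (fun h => hA h.2), if_neg hD, e3, mul_one, hvb, rowB_lt_bar]
    · have hD : ¬ rowB_D A x u v w := by
        rintro (h | h)
        · exact hvx h.1
        · exact hvb h.1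
      rw [if_neg hD, rowB_tau_lt A x v hvx hvb]
      have hb : bar v ≠ x := fun h => hvb (by rw [← h, rowB_bar_bar])
      have e1 : (A (bar v) ∧ A w) ↔ A (bar v) := ⟨fun h => h.1, fun h => ⟨h, h2.2.1 ⟨h, hb⟩⟩⟩
      have e2 : (A (bar u) ∧ A v) ↔ A v := ⟨fun h => h.2, fun h => ⟨h1.2.2 ⟨h, hvx⟩, h⟩⟩
      rw [propext e1, propext e2]
      group

theorem rowB_mk_cons (v : Ltr n) (l : Word n) :
    FreeGroup.mk (v :: l) = lt v * FreeGroup.mk l := by
  rw [lt, FreeGroup.mul_mk]; rfl

/-- the effect of the automorphism on a word -/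
theorem rowB_word (A : Ltr n → Prop) (x : Ltr n) (hx : A x) (hbx : ¬ A (bar x)) (z : Ltr n) :
    ∀ (l : Word n) (u : Ltr n), List.IsChain (rowB_T A x) (u :: (l ++ [z])) →
      rowB_tau A x (FreeGroup.mk l) *
        rowB_k x (A (bar ((u :: l).getLast (by simp))) ∧ A z) =
      rowB_k x (A (bar u) ∧ A (l.headD z)) *
        FreeGroup.mk (rowB_dl (fun y => y) A x u l z) := by
  intro l
  induction l with
  | nil =>
    intro u hT
    simp only [rowB_dl, List.getLast_singleton, List.headD_nil]
    rw [← FreeGroup.one_eq_mk, _root_.map_one, one_mul, mul_one]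
  | cons v l ih =>
    intro u hT
    rw [List.cons_append, List.isChain_cons_cons] at hT
    have h2 : rowB_T A x v (l.headD z) := by
      have := hT.2
      rw [List.isChain_cons] at this
      refine this.1 _ ?_
      cases l <;> simp
    have hlet := rowB_letter A x u v (l.headD z) hx hbx hT.1 h2
    have hih := ih v hT.2
    have e : ((u :: v :: l).getLast (by simp)) = ((v :: l).getLast (by simp)) :=
      List.getLast_cons (by simp)
    rw [e, rowB_mk_cons, _root_.map_mul, mul_assoc, hih, ← mul_assoc, hlet, List.headD_cons]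
    by_cases hD : rowB_D A x u v (l.headD z)
    · simp only [rowB_dl, hD, if_true, mul_one]
    · simp only [rowB_dl, hD, if_false]
      rw [rowB_mk_cons, mul_assoc]

end RowB3

/-- ROW B: the move on cyclic words -/
theorem move_word {n : ℕ} (p : Word n) (hp : IsCyclicallyReduced p) (A : Ltr n → Prop)
    (x : Ltr n) (hc : Cut A x p) :
    ∃ (p' : Word n) (ψ : FreeGroup (Fin n) ≃* FreeGroup (Fin n)), IsCyclicallyReduced p' ∧
      p' ≠ [] ∧ p'.length < p.length ∧ FreeGroup.mk p' = ψ (FreeGroup.mk p) ∧
      ∀ (β : Type) (lab : β → Ltr n) (R : β → β → Prop) (k : ℕ),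
        Acc lab R (List.replicate k p).flatten →
          Acc lab (mv lab A x R) (List.replicate k p').flatten := by
  obtain ⟨hx, hbx, hturn, u₀, v₀, hcp, hst⟩ := hc
  -- a letter of `p` different from `x`, `x⁻¹`
  have hex : ∃ a ∈ p, a ≠ x ∧ a ≠ bar x := by
    have hm := rowB_cpair_mem hcp
    rcases hst with ⟨_, h2, h3⟩ | ⟨_, h2, h3⟩
    · exact ⟨v₀, hm.2, h3, fun h => hbx (h ▸ h2)⟩
    · refine ⟨u₀, hm.1, fun h => hbx (h ▸ h2), fun h => h3 (by rw [h, rowB_bar_bar])⟩
  obtain ⟨a, hap, hax, hab⟩ := hex
  obtain ⟨l₁, l₂, hl⟩ := List.append_of_mem hap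
  -- the rotated word
  have hrot : p ~r (a :: (l₂ ++ l₁)) := by
    rw [hl, ← List.cons_append]; exact rowB_app_rot _ _
  generalize ht : l₂ ++ l₁ = t at hrot
  have hred : Cyc (fun u v => v ≠ bar u) (a :: t) :=
    rowB_cyc_rot hrot ((rowB_cycred p).1 hp)
  have hT : List.IsChain (rowB_T A x) (a :: (t ++ [a])) := by
    rw [← rowB_cyc, rowB_cyc_iff]
    intro u v huv
    exact ⟨(rowB_cyc_iff _ a t).1 hred u v huv, hturn u v (rowB_cpair_rot hrot.symm huv)⟩
  set d := rowB_dl (fun y => y) A x a t a with hd
  -- the automorphism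
  have hmk : FreeGroup.mk (a :: d) = (rowB_k x (A a))⁻¹ *
      rowB_tau A x ((FreeGroup.mk l₁)⁻¹ * FreeGroup.mk p * FreeGroup.mk l₁) *
        rowB_k x (A a) := by
    have hp0 : (FreeGroup.mk l₁)⁻¹ * FreeGroup.mk p * FreeGroup.mk l₁ =
        FreeGroup.mk (a :: t) := by
      rw [hl, ← ht, ← FreeGroup.mul_mk (L₁ := l₁) (L₂ := a :: l₂),
        show a :: (l₂ ++ l₁) = (a :: l₂) ++ l₁ by rfl,
        ← FreeGroup.mul_mk (L₁ := a :: l₂) (L₂ := l₁)]
      group
    rw [hp0, rowB_mk_cons a t, _root_.map_mul, rowB_tau_lt A x a hax hab, rowB_mk_cons]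
    have hw := rowB_word A x hx hbx a t a hT
    have hl1 : rowB_T A x ((a :: t).getLast (by simp)) a := by
      have h1 : Cyc (rowB_T A x) (a :: t) := (rowB_cyc _ _ _).2 hT
      refine h1.2 _ ?_ _ rfl
      rw [Option.mem_def]
      exact List.getLast?_eq_getLast_of_ne_nil (by simp)
    have hl2 : rowB_T A x a (t.headD a) := by
      rw [List.isChain_cons] at hT
      refine hT.1 _ ?_
      cases t <;> simp
    have hba : bar a ≠ x := fun h => hab (by rw [← h, rowB_bar_bar])
    have e1 : (A (bar ((a :: t).getLast (by simp))) ∧ A a) ↔ A a :=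
      ⟨fun h => h.2, fun h => ⟨hl1.2.2 ⟨h, hax⟩, h⟩⟩
    have e2 : (A (bar a) ∧ A (t.headD a)) ↔ A (bar a) :=
      ⟨fun h => h.1, fun h => ⟨h, hl2.2.1 ⟨h, hba⟩⟩⟩
    rw [propext e1, propext e2] at hw
    have hw' : rowB_tau A x (FreeGroup.mk t) =
        rowB_k x (A (bar a)) * FreeGroup.mk d * (rowB_k x (A a))⁻¹ := by
      rw [← hw]; group
    rw [hw']
    group
  refine ⟨a :: d, ((MulAut.conj ((FreeGroup.mk l₁)⁻¹)).trans (rowB_tau A x)).trans
    (MulAut.conj ((rowB_k x (A a))⁻¹)), ?_, by simp, ?_, ?_, ?_⟩
  · -- reduced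
    rw [rowB_cycred, rowB_cyc]
    have := rowB_chain (fun y : Ltr n => y) (rowB_T A x) A x hx hbx a hax hab t.length t a
      le_rfl hT hT (fun h => absurd h hab)
    exact this.imp fun u v h => rowB_mv_red A x u v h
  · -- shorter
    have hlen : p.length = t.length + 1 := by
      rw [hrot.perm.length_eq]; simp
    rw [hlen, List.length_cons]
    rcases (rowB_len (fun y : Ltr n => y) A x a hax t a (fun h => absurd h hab)).2 with h | h
    · exact Nat.succ_lt_succ h
    · exfalso
      have h' := (rowB_cyc_iff _ a t).1 ((rowB_cyc _ a t).2 h) u₀ v₀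
        (rowB_cpair_rot hrot hcp)
      rcases hst with ⟨h1, h2, h3⟩ | ⟨h1, h2, h3⟩
      · exact h'.2 ⟨by rw [← h1, rowB_bar_bar], h2⟩
      · exact h'.1 ⟨h1, h2⟩
  · -- the image
    rw [hmk]
    simp [MulAut.conj_apply, mul_assoc]
  · -- the powers
    intro β lab R k hacc
    rcases k with _ | k
    · exact ⟨[], rfl, by simp [Cyc]⟩
    have hacc' := rowB_acc_rot (rowB_pow_rot hrot (k + 1)) hacc
    obtain ⟨l, hlab, hcyc⟩ := hacc'
    rw [List.replicate_succ, List.flatten_cons, List.cons_append] at hlab
    rcases l with _ | ⟨b, l⟩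
    · simp at hlab
    rw [List.map_cons, List.cons.injEq] at hlab
    obtain ⟨hb, hl'⟩ := hlab
    have hch : List.IsChain R (b :: (l ++ [b])) := (rowB_cyc _ _ _).1 hcyc
    have hTp : List.IsChain (fun c e => rowB_T A x (lab c) (lab e)) (b :: (l ++ [b])) := by
      rw [← List.isChain_map lab (R := rowB_T A x)]
      have := rowB_chain_pow (rowB_T A x) a t hT (k + 1)
      rw [List.replicate_succ, List.flatten_cons] at this
      simpa [hb, hl'] using this
    have hres := rowB_chain lab R A x hx hbx b (by rw [hb]; exact hax) (by rw [hb]; exact hab)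
      l.length l b le_rfl hch hTp (fun h => absurd (hb ▸ h) hab)
    refine ⟨b :: rowB_dl lab A x b l b, ?_, (rowB_cyc _ _ _).2 hres⟩
    rw [List.map_cons, rowB_map, hl', hb]
    exact rowB_dl_pow (fun y : Ltr n => y) A x a hax hab t k

end WPP
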