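import Mathlib

/-!
# PROJECT WPP (MP_2e2606_al): base definitions

Words over the letters `x_i^{±1}` (`(i, true)` is `x_i`, `(i, false)` its inverse), closed chains,
cut pairs (the conclusion of Whitehead's cut vertex lemma), the effect of a Whitehead move on a
relation between positions, and the position automaton of a finite list of generating words.
-/

namespace WPP

open FreeGroup List

/-- letters `x_i^{±1}` -/
abbrev Ltr (n : ℕ) := Fin n × Bool

/-- words -/
abbrev Word (n : ℕ) := List (Ltr n)

/-- the inverse letter -/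
def bar {n : ℕ} (y : Ltr n) : Ltr n := (y.1, !y.2)

/-- a letter as an element of the free group -/
def lt {n : ℕ} (y : Ltr n) : FreeGroup (Fin n) := FreeGroup.mk [y]

/-- the subgroup generated by a finite list of words -/
def gen {n : ℕ} (ws : List (Word n)) : Subgroup (FreeGroup (Fin n)) :=
  Subgroup.closure {g | ∃ w ∈ ws, g = FreeGroup.mk w}

/-- primitive elements: images of a basis letter under an automorphism -/
def Prim {n : ℕ} (p : FreeGroup (Fin n)) : Prop :=
  ∃ (φ : FreeGroup (Fin n) ≃* FreeGroup (Fin n)) (i : Fin n), φ (FreeGroup.of i) = p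

/-- closed (cyclic) chain of a relation along a list -/
def Cyc {β : Type} (R : β → β → Prop) (l : List β) : Prop :=
  List.IsChain R l ∧ ∀ a ∈ l.getLast?, ∀ b ∈ l.head?, R a b

/-- `u`, `v` are cyclically consecutive entries of `p` (for a one letter word `u = v`) -/
def CPair {β : Type} (p : List β) (u v : β) : Prop :=
  ∃ t : List β, (u :: t) ~r p ∧ (t ++ [u]).head? = some v

/-- `(A, x)` is a cut pair for the cyclic word `p`: `x ∈ A`, `x⁻¹ ∉ A`, every turn
`{u⁻¹, v}` (for cyclically consecutive letters `u v`) with one end in `A \ {x}` has both ends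
in `A`, and some turn joins `x` to a letter of `A \ {x}`. -/
structure Cut {n : ℕ} (A : Ltr n → Prop) (x : Ltr n) (p : Word n) : Prop where
  hx : A x
  hbx : ¬ A (bar x)
  turn : ∀ u v, CPair p u v →
    ((A (bar u) ∧ bar u ≠ x → A v) ∧ (A v ∧ v ≠ x → A (bar u)))
  strict : ∃ u v, CPair p u v ∧
    ((bar u = x ∧ A v ∧ v ≠ x) ∨ (v = x ∧ A (bar u) ∧ bar u ≠ x))

/-- letter edges of a graph with positive edges `E` labelled by basis elements -/
def Edge {n : ℕ} {V : Type} (E : Finset (V × Fin n × V)) (u : V) (y : Ltr n) (v : V) : Prop :=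
  (y.2 = true ∧ (u, y.1, v) ∈ E) ∨ (y.2 = false ∧ (v, y.1, u) ∈ E)

/-- `Conn E u g v`: some path from `u` to `v` has the label `g` in the free group -/
inductive Conn {n : ℕ} {V : Type} (E : Finset (V × Fin n × V)) :
    V → FreeGroup (Fin n) → V → Prop
  | refl (v : V) : Conn E v 1 v
  | step {u v w : V} {g : FreeGroup (Fin n)} {y : Ltr n} :
      Conn E u g v → Edge E v y w → Conn E u (g * lt y) w

/-- connected and surjective on fundamental groups -/
def Full {n : ℕ} {V : Type} (E : Finset (V × Fin n × V)) : Prop :=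
  ∀ (u v : V) (g : FreeGroup (Fin n)), Conn E u g v

/-- the word `w` is read along a closed chain of `R` (`lab` gives the letter of a position) -/
def Acc {n : ℕ} {β : Type} (lab : β → Ltr n) (R : β → β → Prop) (w : Word n) : Prop :=
  ∃ l : List β, l.map lab = w ∧ Cyc R l

/-- entry side of a letter (true: the side outside of `A`) -/
def Es {n : ℕ} (A : Ltr n → Prop) (x y : Ltr n) : Prop := y = x ∨ y = bar x ∨ ¬ A y

/-- exit side of a letter (true: the side outside of `A`) -/
def Xs {n : ℕ} (A : Ltr n → Prop) (x y : Ltr n) : Prop := y = x ∨ y = bar x ∨ ¬ A (bar y)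

/-- the relation on positions after the Whitehead move `(A, x)` -/
def mv {n : ℕ} {β : Type} (lab : β → Ltr n) (A : Ltr n → Prop) (x : Ltr n)
    (R : β → β → Prop) (a b : β) : Prop :=
  (R a b ∧ (Xs A x (lab a) ↔ Es A x (lab b))) ∨
  ∃ m, R a m ∧ R m b ∧
    ((lab m = x ∧ ¬ Xs A x (lab a) ∧ Es A x (lab b)) ∨
     (lab m = bar x ∧ Xs A x (lab a) ∧ ¬ Es A x (lab b)))

/-- soundness of a relation on positions with respect to a subgroup `S`:
the position `a` starts at the coset `S * pre a`. -/
def Sound {n : ℕ} {β : Type} (S : Subgroup (FreeGroup (Fin n))) (lab : β → Ltr n)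
    (R : β → β → Prop) (pre : β → FreeGroup (Fin n)) : Prop :=
  ∀ a b, R a b → pre a * lt (lab a) * (pre b)⁻¹ ∈ S

/-- positions: (letter, index of the word, index of the letter in the word) -/
abbrev Pos (n : ℕ) := Ltr n × ℕ × ℕ

/-- the list of all letter occurrences of a list of words -/
def posn {n : ℕ} (W : List (Word n)) : List (Pos n) :=
  (List.range W.length).flatMap fun i =>
    (List.range (W.getD i []).length).filterMap fun j =>
      ((W.getD i [])[j]?).map fun y => (y, i, j)

/-- successor relation of the flower automaton of `W` -/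
def D0 {n : ℕ} (W : List (Word n)) (a b : Pos n) : Prop :=
  (a.2.1 = b.2.1 ∧ a.2.2 + 1 = b.2.2) ∨ (a.2.2 + 1 = (W.getD a.2.1 []).length ∧ b.2.2 = 0)

/-- a relation on positions which contains the successor relation of the flower automaton and is
closed under cancellation -/
structure Base {n : ℕ} (W : List (Word n)) (E : Pos n → Pos n → Prop) : Prop where
  d0 : ∀ a ∈ posn W, ∀ b ∈ posn W, D0 W a b → E a b
  cancel : ∀ a ∈ posn W, ∀ b ∈ posn W, ∀ c ∈ posn W, ∀ d ∈ posn W,
    E a b → E b c → E c d → c.1 = bar b.1 → E a d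

/-- the words together with their inverses -/
def sym {n : ℕ} (ws : List (Word n)) : List (Word n) := ws ++ ws.map FreeGroup.invRev

/-- `S` contains a `k`-th power of a primitive element -/
def Q {n : ℕ} (ws : List (Word n)) (k : ℕ) : Prop :=
  ∃ q : FreeGroup (Fin n), Prim q ∧ q ^ k ∈ gen ws

/-- the list of all letters -/
def letters (n : ℕ) : List (Ltr n) := (List.finRange n).flatMap fun i => [(i, true), (i, false)]

/-- all Whitehead moves `(A, x)`, `A` given as a list of letters -/
def moves (n : ℕ) : List (List (Ltr n) × Ltr n) :=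
  ((letters n).sublists.flatMap fun A => (letters n).map fun x => (A, x)).filter
    fun m => decide (m.2 ∈ m.1 ∧ bar m.2 ∉ m.1)

/-- `mv` for relations given as lists, positions restricted to `posn W` -/
def mvL {n : ℕ} (W : List (Word n)) (m : List (Ltr n) × Ltr n) (R : List (Pos n × Pos n))
    (a b : Pos n) : Prop :=
  ((a, b) ∈ R ∧ (Xs (· ∈ m.1) m.2 a.1 ↔ Es (· ∈ m.1) m.2 b.1)) ∨
  ∃ c ∈ posn W, (a, c) ∈ R ∧ (c, b) ∈ R ∧
    ((c.1 = m.2 ∧ ¬ Xs (· ∈ m.1) m.2 a.1 ∧ Es (· ∈ m.1) m.2 b.1) ∨
     (c.1 = bar m.2 ∧ Xs (· ∈ m.1) m.2 a.1 ∧ ¬ Es (· ∈ m.1) m.2 b.1))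

/-- end points of the walks of length `k` from `a`, through positions of `posn W` labelled `y` -/
def walk {n : ℕ} (W : List (Word n)) (R : List (Pos n × Pos n)) (y : Ltr n) (a : Pos n) :
    ℕ → List (Pos n)
  | 0 => [a]
  | k + 1 => (walk W R y a k).flatMap fun b =>
      (posn W).filter fun c => decide (c.1 = y ∧ (b, c) ∈ R)

/-- the certificate for the negative answer: `E` contains the flower automaton and is closed under
cancellation; the finite list `L` of relations contains `E`, is closed (up to enlarging) under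
all Whitehead moves, and no relation of `L` has a closed walk of length `k` with constant label -/
structure Chk {n : ℕ} (W : List (Word n)) (k : ℕ) (E : List (Pos n × Pos n))
    (L : List (List (Pos n × Pos n))) : Prop where
  d0 : ∀ a ∈ posn W, ∀ b ∈ posn W, D0 W a b → (a, b) ∈ E
  cancel : ∀ a ∈ posn W, ∀ b ∈ posn W, ∀ c ∈ posn W, ∀ d ∈ posn W,
    (a, b) ∈ E → (b, c) ∈ E → (c, d) ∈ E → c.1 = bar b.1 → (a, d) ∈ E
  mem : E ∈ L
  closed : ∀ R ∈ L, ∀ m ∈ moves n, ∃ R' ∈ L, ∀ a ∈ posn W, ∀ b ∈ posn W,
    mvL W m R a b → (a, b) ∈ R'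
  noLoop : ∀ R ∈ L, ∀ a ∈ posn W, a ∉ walk W R a.1 a k

/-- substitution: the image of the word `w` under the endomorphism given by the list `us` of the
images of the basis letters -/
def subst {n : ℕ} (us : List (Word n)) (w : Word n) : Word n :=
  w.flatMap fun y => bif y.2 then us.getD y.1.1 [] else FreeGroup.invRev (us.getD y.1.1 [])

/-- the certificate for the positive answer: `us` and `vs` are inverse automorphisms and
`φ(x_i)^k` is the product of the generating words indexed by `e` -/
structure ChkPos {n : ℕ} (ws : List (Word n)) (k : ℕ) (us vs : List (Word n)) (i : Fin n)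
    (e : List (ℕ × Bool)) : Prop where
  left : ∀ j : Fin n, FreeGroup.reduce (subst us (vs.getD j.1 [])) = [(j, true)]
  right : ∀ j : Fin n, FreeGroup.reduce (subst vs (us.getD j.1 [])) = [(j, true)]
  eq : FreeGroup.reduce (subst us (List.replicate k (i, true))) =
    FreeGroup.reduce (e.flatMap fun q =>
      bif q.2 then ws.getD q.1 [] else FreeGroup.invRev (ws.getD q.1 []))

end WPP
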