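import Pool.Agent.Lib.WPP_Base

/-! PROJECT WPP, row C1: the Whitehead move on relations between positions is sound -/

namespace WPP

open Classical in
/-- `kap P` is `1` if `P` (outside of `A`) and the letter `x` otherwise -/
noncomputable def c1_kap {n : ℕ} (x : Ltr n) (P : Prop) : FreeGroup (Fin n) :=
  if P then 1 else lt x

theorem c1_kap_true {n : ℕ} (x : Ltr n) {P : Prop} (h : P) : c1_kap x P = 1 := by
  simp [c1_kap, h]

theorem c1_kap_false {n : ℕ} (x : Ltr n) {P : Prop} (h : ¬ P) : c1_kap x P = lt x := by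
  simp [c1_kap, h]

theorem c1_kap_congr {n : ℕ} (x : Ltr n) {P P' : Prop} (h : P ↔ P') :
    c1_kap x P = c1_kap x P' := by
  rw [propext h]

theorem c1_lt_true {n : ℕ} (i : Fin n) : lt (i, true) = FreeGroup.of i := rfl

theorem c1_lt_false {n : ℕ} (i : Fin n) : lt (i, false) = (FreeGroup.of i)⁻¹ := rfl

theorem c1_lt_bar {n : ℕ} (y : Ltr n) : lt (bar y) = (lt y)⁻¹ := by
  obtain ⟨i, b⟩ := y
  cases b
  · show lt (i, true) = _
    rw [c1_lt_false, c1_lt_true, inv_inv]
  · show lt (i, false) = _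
    rw [c1_lt_false, c1_lt_true]

theorem c1_bar_bar {n : ℕ} (y : Ltr n) : bar (bar y) = y := by
  obtain ⟨i, b⟩ := y
  simp [bar]

/-- the Whitehead automorphism `(A, x)` as an endomorphism -/
noncomputable def c1_tau {n : ℕ} (A : Ltr n → Prop) (x : Ltr n) :
    FreeGroup (Fin n) →* FreeGroup (Fin n) :=
  FreeGroup.lift fun i => c1_kap x (Es A x (i, true)) * lt (i, true) *
    (c1_kap x (Xs A x (i, true)))⁻¹

/-- its inverse -/
noncomputable def c1_tau' {n : ℕ} (A : Ltr n → Prop) (x : Ltr n) :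
    FreeGroup (Fin n) →* FreeGroup (Fin n) :=
  FreeGroup.lift fun i => (c1_kap x (Es A x (i, true)))⁻¹ * lt (i, true) *
    (c1_kap x (Xs A x (i, true)))

theorem c1_Es_bar {n : ℕ} (A : Ltr n → Prop) (x y : Ltr n) :
    Es A x (bar y) ↔ Xs A x y := by
  have h1 : bar y = x ↔ y = bar x := by
    constructor
    · intro h; rw [← h, c1_bar_bar]
    · intro h; rw [h, c1_bar_bar]
  have h2 : bar y = bar x ↔ y = x := by
    constructor
    · intro h; rw [← c1_bar_bar y, h, c1_bar_bar]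
    · intro h; rw [h]
  unfold Es Xs
  rw [h1, h2]
  tauto

theorem c1_Xs_bar {n : ℕ} (A : Ltr n → Prop) (x y : Ltr n) :
    Xs A x (bar y) ↔ Es A x y := by
  have h := c1_Es_bar A x (bar y)
  rw [c1_bar_bar] at h
  exact h.symm

theorem c1_tau_lt {n : ℕ} (A : Ltr n → Prop) (x y : Ltr n) :
    c1_tau A x (lt y) = c1_kap x (Es A x y) * lt y * (c1_kap x (Xs A x y))⁻¹ := by
  have key : ∀ i : Fin n, c1_tau A x (lt (i, true)) =
      c1_kap x (Es A x (i, true)) * lt (i, true) * (c1_kap x (Xs A x (i, true)))⁻¹ := by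
    intro i
    rw [c1_lt_true, c1_tau, FreeGroup.lift_apply_of, c1_lt_true]
  obtain ⟨i, b⟩ := y
  cases b
  · have e1 : lt ((i, false) : Ltr n) = (lt (i, true))⁻¹ := by
      rw [c1_lt_false, c1_lt_true]
    have e2 : ((i, false) : Ltr n) = bar (i, true) := rfl
    rw [e1, map_inv, key]
    rw [e2, c1_kap_congr x (c1_Es_bar A x (i, true)), c1_kap_congr x (c1_Xs_bar A x (i, true))]
    group
  · exact key i

theorem c1_tau'_lt {n : ℕ} (A : Ltr n → Prop) (x y : Ltr n) :
    c1_tau' A x (lt y) = (c1_kap x (Es A x y))⁻¹ * lt y * (c1_kap x (Xs A x y)) := by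
  have key : ∀ i : Fin n, c1_tau' A x (lt (i, true)) =
      (c1_kap x (Es A x (i, true)))⁻¹ * lt (i, true) * (c1_kap x (Xs A x (i, true))) := by
    intro i
    rw [c1_lt_true, c1_tau', FreeGroup.lift_apply_of, c1_lt_true]
  obtain ⟨i, b⟩ := y
  cases b
  · have e1 : lt ((i, false) : Ltr n) = (lt (i, true))⁻¹ := by
      rw [c1_lt_false, c1_lt_true]
    have e2 : ((i, false) : Ltr n) = bar (i, true) := rfl
    rw [e1, map_inv, key]
    rw [e2, c1_kap_congr x (c1_Es_bar A x (i, true)), c1_kap_congr x (c1_Xs_bar A x (i, true))]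
    group
  · exact key i

theorem c1_Es_x {n : ℕ} (A : Ltr n → Prop) (x : Ltr n) : Es A x x := Or.inl rfl

theorem c1_Xs_x {n : ℕ} (A : Ltr n → Prop) (x : Ltr n) : Xs A x x := Or.inl rfl

theorem c1_tau_x {n : ℕ} (A : Ltr n → Prop) (x : Ltr n) : c1_tau A x (lt x) = lt x := by
  rw [c1_tau_lt, c1_kap_true x (c1_Es_x A x), c1_kap_true x (c1_Xs_x A x)]
  simp

theorem c1_tau'_x {n : ℕ} (A : Ltr n → Prop) (x : Ltr n) : c1_tau' A x (lt x) = lt x := by
  rw [c1_tau'_lt, c1_kap_true x (c1_Es_x A x), c1_kap_true x (c1_Xs_x A x)]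
  simp

theorem c1_tau_kap {n : ℕ} (A : Ltr n → Prop) (x : Ltr n) (P : Prop) :
    c1_tau A x (c1_kap x P) = c1_kap x P := by
  by_cases h : P
  · rw [c1_kap_true x h, map_one]
  · rw [c1_kap_false x h, c1_tau_x]

theorem c1_tau'_kap {n : ℕ} (A : Ltr n → Prop) (x : Ltr n) (P : Prop) :
    c1_tau' A x (c1_kap x P) = c1_kap x P := by
  by_cases h : P
  · rw [c1_kap_true x h, map_one]
  · rw [c1_kap_false x h, c1_tau'_x]

/-- the Whitehead automorphism `(A, x)` -/
noncomputable def c1_aut {n : ℕ} (A : Ltr n → Prop) (x : Ltr n) :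
    FreeGroup (Fin n) ≃* FreeGroup (Fin n) :=
  MonoidHom.toMulEquiv (c1_tau A x) (c1_tau' A x)
    (by
      apply FreeGroup.ext_hom
      intro i
      show c1_tau' A x (c1_tau A x (lt (i, true))) = lt (i, true)
      rw [c1_tau_lt, map_mul, map_mul, map_inv, c1_tau'_kap, c1_tau'_kap, c1_tau'_lt]
      group)
    (by
      apply FreeGroup.ext_hom
      intro i
      show c1_tau A x (c1_tau' A x (lt (i, true))) = lt (i, true)
      rw [c1_tau'_lt, map_mul, map_mul, map_inv, c1_tau_kap, c1_tau_kap, c1_tau_lt]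
      group)

theorem c1_aut_apply {n : ℕ} (A : Ltr n → Prop) (x : Ltr n) (g : FreeGroup (Fin n)) :
    c1_aut A x g = c1_tau A x g := rfl

theorem sound_mv {n : ℕ} {β : Type} (S : Subgroup (FreeGroup (Fin n))) (lab : β → Ltr n)
    (R : β → β → Prop) (pre : β → FreeGroup (Fin n)) (h : Sound S lab R pre)
    (A : Ltr n → Prop) (x : Ltr n) (hx : A x) (hbx : ¬ A (bar x)) :
    ∃ (ψ : FreeGroup (Fin n) ≃* FreeGroup (Fin n)) (pre' : β → FreeGroup (Fin n)),
      Sound (S.map ψ.toMonoidHom) lab (mv lab A x R) pre' := by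
  refine ⟨c1_aut A x, fun a => c1_tau A x (pre a) * c1_kap x (Es A x (lab a)), ?_⟩
  intro a b hab
  rcases hab with ⟨hR, hXE⟩ | ⟨m, h1, h2, hm⟩
  · refine ⟨_, h a b hR, ?_⟩
    show c1_tau A x (pre a * lt (lab a) * (pre b)⁻¹) =
      c1_tau A x (pre a) * c1_kap x (Es A x (lab a)) * lt (lab a) *
        (c1_tau A x (pre b) * c1_kap x (Es A x (lab b)))⁻¹
    rw [map_mul, map_mul, map_inv, c1_tau_lt, c1_kap_congr x hXE]
    group
  · have hprod : pre a * lt (lab a) * lt (lab m) * (pre b)⁻¹ ∈ S := by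
      have := S.mul_mem (h a m h1) (h m b h2)
      have e : pre a * lt (lab a) * (pre m)⁻¹ * (pre m * lt (lab m) * (pre b)⁻¹) =
          pre a * lt (lab a) * lt (lab m) * (pre b)⁻¹ := by group
      rwa [e] at this
    refine ⟨_, hprod, ?_⟩
    show c1_tau A x (pre a * lt (lab a) * lt (lab m) * (pre b)⁻¹) =
      c1_tau A x (pre a) * c1_kap x (Es A x (lab a)) * lt (lab a) *
        (c1_tau A x (pre b) * c1_kap x (Es A x (lab b)))⁻¹
    rcases hm with ⟨hlm, hX, hE⟩ | ⟨hlm, hX, hE⟩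
    · rw [hlm, map_mul, map_mul, map_mul, map_inv, c1_tau_x, c1_tau_lt,
        c1_kap_false x hX, c1_kap_true x hE]
      group
    · rw [hlm, map_mul, map_mul, map_mul, map_inv, c1_lt_bar, map_inv, c1_tau_x, c1_tau_lt,
        c1_kap_true x hX, c1_kap_false x hE]
      group

end WPP
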