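import Pool.Agent.Lib.WPP_Base

/-! PROJECT WPP, row C2: closed walks with constant label give conjugates of powers of letters -/

namespace WPP

theorem c2_aux {n : ℕ} (S : Subgroup (FreeGroup (Fin n))) (W : List (Word n))
    (R : List (Pos n × Pos n)) (pre : Pos n → FreeGroup (Fin n))
    (h : Sound S (fun a : Pos n => a.1) (fun a b => (a, b) ∈ R) pre) (a : Pos n) :
    ∀ (k : ℕ) (b : Pos n), b ∈ walk W R a.1 a k →
      b.1 = a.1 ∧ pre a * lt a.1 ^ k * (pre b)⁻¹ ∈ S := by
  intro k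
  induction k with
  | zero =>
    intro b hb
    simp only [walk, List.mem_singleton] at hb
    subst hb
    refine ⟨rfl, ?_⟩
    have e : pre b * lt b.1 ^ 0 * (pre b)⁻¹ = 1 := by
      rw [pow_zero]; group
    rw [e]
    exact S.one_mem
  | succ k ih =>
    intro c hc
    simp only [walk, List.mem_flatMap, List.mem_filter, decide_eq_true_eq] at hc
    obtain ⟨b, hb, _, hc1, hbc⟩ := hc
    obtain ⟨hb1, hbS⟩ := ih b hb
    refine ⟨hc1, ?_⟩
    have h2 : pre b * lt b.1 * (pre c)⁻¹ ∈ S := h b c hbc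
    have h3 := S.mul_mem hbS h2
    have e : pre a * lt a.1 ^ k * (pre b)⁻¹ * (pre b * lt b.1 * (pre c)⁻¹) =
        pre a * lt a.1 ^ (k + 1) * (pre c)⁻¹ := by
      rw [hb1, pow_succ]
      group
    rwa [e] at h3

theorem walk_sound {n : ℕ} (S : Subgroup (FreeGroup (Fin n))) (W : List (Word n))
    (R : List (Pos n × Pos n)) (pre : Pos n → FreeGroup (Fin n))
    (h : Sound S (fun a : Pos n => a.1) (fun a b => (a, b) ∈ R) pre) (a : Pos n) (k : ℕ)
    (hw : a ∈ walk W R a.1 a k) : pre a * lt a.1 ^ k * (pre a)⁻¹ ∈ S :=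
  (c2_aux S W R pre h a k a hw).2

end WPP
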