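import Pool.Agent.Lib.WPP_Base

/-! PROJECT WPP, row C3: closed chains with constant label are closed walks -/

namespace WPP

theorem c3_aux {n : ℕ} (W : List (Word n)) (R : List (Pos n × Pos n)) (y : Ltr n) (a : Pos n) :
    ∀ (t : List (Pos n)) (b : Pos n) (j : ℕ), b ∈ walk W R y a j →
      List.IsChain (fun a b => (a, b) ∈ R) (b :: t) → (∀ c ∈ t, c ∈ posn W) →
      (∀ c ∈ t, c.1 = y) → (b :: t).getLast (List.cons_ne_nil b t) ∈ walk W R y a (j + t.length) := by
  intro t
  induction t with
  | nil =>
    intro b j hb _ _ _
    simpa using hb
  | cons c t ih =>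
    intro b j hb hch hin hlab
    have hch' := (List.isChain_cons_cons.mp hch)
    have hc : c ∈ walk W R y a (j + 1) := by
      simp only [walk, List.mem_flatMap, List.mem_filter, decide_eq_true_eq]
      exact ⟨b, hb, hin c List.mem_cons_self, hlab c List.mem_cons_self, hch'.1⟩
    have h := ih c (j + 1) hc hch'.2 (fun d hd => hin d (List.mem_cons_of_mem c hd))
      (fun d hd => hlab d (List.mem_cons_of_mem c hd))
    rw [List.getLast_cons (List.cons_ne_nil c t)]
    have e : j + (c :: t).length = j + 1 + t.length := by
      simp only [List.length_cons]; omega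
    rw [e]
    exact h

theorem walk_complete {n : ℕ} (W : List (Word n)) (R : List (Pos n × Pos n)) (y : Ltr n)
    (k : ℕ) (hk : 1 ≤ k) (l : List (Pos n)) (hin : ∀ a ∈ l, a ∈ posn W)
    (hlab : l.map (fun a => a.1) = List.replicate k y)
    (hl : Cyc (fun a b => (a, b) ∈ R) l) : ∃ a ∈ posn W, a ∈ walk W R a.1 a k := by
  have hlen : l.length = k := by
    have := congrArg List.length hlab
    simpa using this
  have hall : ∀ c ∈ l, c.1 = y := by
    intro c hc
    have : c.1 ∈ l.map (fun a => a.1) := List.mem_map_of_mem (f := fun a : Pos n => a.1) hc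
    rw [hlab] at this
    exact List.eq_of_mem_replicate this
  cases l with
  | nil => simp at hlen; omega
  | cons a t =>
    refine ⟨a, hin a List.mem_cons_self, ?_⟩
    have ha : a.1 = y := hall a List.mem_cons_self
    rw [ha]
    obtain ⟨hch, hcl⟩ := hl
    have hlast : ((a :: t).getLast (List.cons_ne_nil a t), a) ∈ R :=
      hcl _ (by rw [List.getLast?_eq_some_getLast (List.cons_ne_nil a t)]; rfl) a rfl
    have hch2 : List.IsChain (fun a b => (a, b) ∈ R) (a :: (t ++ [a])) := by
      rw [← List.cons_append, List.isChain_append]
      refine ⟨hch, List.isChain_singleton a, ?_⟩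
      intro u hu v hv
      simp only [List.head?_cons, Option.mem_def, Option.some.injEq] at hv
      rw [← hv]
      exact hcl u hu a rfl
    have h := c3_aux W R y a (t ++ [a]) a 0 (by simp [walk]) hch2
      (by
        intro c hc
        rcases List.mem_append.mp hc with h | h
        · exact hin c (List.mem_cons_of_mem a h)
        · rw [List.mem_singleton.mp h]; exact hin a List.mem_cons_self)
      (by
        intro c hc
        rcases List.mem_append.mp hc with h | h
        · exact hall c (List.mem_cons_of_mem a h)
        · rw [List.mem_singleton.mp h]; exact ha)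
    have e1 : (a :: (t ++ [a])).getLast (List.cons_ne_nil a (t ++ [a])) = a := by
      rw [List.getLast_cons (by simp)]
      simp
    have e2 : 0 + (t ++ [a]).length = k := by
      simp only [List.length_append, List.length_cons, List.length_nil] at hlen ⊢
      omega
    rw [e1, e2] at h
    exact h

end WPP
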