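import Pool.Agent.Lib.WPP_Base

/-! PROJECT WPP, row F3: the positive certificate is correct -/

namespace WPP

open FreeGroup List

theorem mk_flat {n : ℕ} {β : Type} (f : β → Word n) (w : List β) :
    FreeGroup.mk (w.flatMap f) = (w.map fun y => FreeGroup.mk (f y)).prod := by
  induction w with
  | nil => rfl
  | cons y t ih =>
    rw [List.flatMap_cons, ← FreeGroup.mul_mk, ih, List.map_cons, List.prod_cons]

/-- the endomorphism given by the images of the basis letters -/
def hom {n : ℕ} (us : List (Word n)) : FreeGroup (Fin n) →* FreeGroup (Fin n) :=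
  FreeGroup.lift fun j : Fin n => FreeGroup.mk (us.getD j.1 [])

theorem mk_subst {n : ℕ} (us : List (Word n)) (w : Word n) :
    FreeGroup.mk (subst us w) = hom us (FreeGroup.mk w) := by
  unfold subst hom
  rw [mk_flat, FreeGroup.lift_mk]
  congr 1
  refine List.map_congr_left fun y _ => ?_
  rcases y with ⟨j, b⟩
  cases b <;> simp [FreeGroup.inv_mk]

theorem hom_of {n : ℕ} (us : List (Word n)) (j : Fin n) :
    hom us (FreeGroup.of j) = FreeGroup.mk (us.getD j.1 []) := by
  unfold hom
  exact FreeGroup.lift_apply_of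

theorem toWord_of' {n : ℕ} (j : Fin n) : (FreeGroup.of j).toWord = [((j, true) : Ltr n)] := by
  simp

theorem red_eq_iff {n : ℕ} (w : Word n) (g : FreeGroup (Fin n)) :
    FreeGroup.reduce w = g.toWord ↔ FreeGroup.mk w = g := by
  rw [← FreeGroup.toWord_mk]
  exact FreeGroup.toWord_inj

theorem red_red_iff {n : ℕ} (w v : Word n) :
    FreeGroup.reduce w = FreeGroup.reduce v ↔ FreeGroup.mk w = FreeGroup.mk v := by
  rw [← FreeGroup.toWord_mk, ← FreeGroup.toWord_mk]
  exact FreeGroup.toWord_inj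

theorem mk_bif_mem {n : ℕ} (ws : List (Word n)) (q : ℕ × Bool) :
    FreeGroup.mk (bif q.2 then ws.getD q.1 [] else FreeGroup.invRev (ws.getD q.1 [])) ∈
      gen ws := by
  have h0 : FreeGroup.mk (ws.getD q.1 []) ∈ gen ws := by
    by_cases hq : q.1 < ws.length
    · refine Subgroup.subset_closure ⟨ws.getD q.1 [], ?_, rfl⟩
      rw [List.getD_eq_getElem _ _ hq]
      exact List.getElem_mem hq
    · rw [List.getD_eq_default _ _ (not_lt.1 hq)]
      exact (gen ws).one_mem
  rcases q with ⟨j, b⟩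
  cases b
  · simp only [cond_false]
    rw [← FreeGroup.inv_mk]
    exact (gen ws).inv_mem h0
  · simpa using h0

theorem exists_exp {n : ℕ} (ws : List (Word n)) (g : FreeGroup (Fin n)) (hg : g ∈ gen ws) :
    ∃ e : List (ℕ × Bool), FreeGroup.mk (e.flatMap fun q =>
      bif q.2 then ws.getD q.1 [] else FreeGroup.invRev (ws.getD q.1 [])) = g := by
  have hg' : g ∈ Submonoid.closure ({x | ∃ w ∈ ws, x = FreeGroup.mk w} ∪
      ({x | ∃ w ∈ ws, x = FreeGroup.mk w} : Set (FreeGroup (Fin n)))⁻¹) := by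
    rw [← Subgroup.closure_toSubmonoid]
    exact hg
  obtain ⟨l, hl, rfl⟩ := Submonoid.exists_list_of_mem_closure hg'
  clear hg hg'
  induction l with
  | nil => exact ⟨[], rfl⟩
  | cons y t ih =>
    obtain ⟨e, he⟩ := ih fun z hz => hl z (List.mem_cons_of_mem _ hz)
    have hy := hl y List.mem_cons_self
    have key : ∃ q : ℕ × Bool, FreeGroup.mk (bif q.2 then ws.getD q.1 [] else
        FreeGroup.invRev (ws.getD q.1 [])) = y := by
      rcases hy with ⟨w, hw, hyw⟩ | ⟨w, hw, hyw⟩
      · obtain ⟨i, hi, rfl⟩ := List.getElem_of_mem hw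
        refine ⟨(i, true), ?_⟩
        simp only [cond_true]
        rw [List.getD_eq_getElem _ _ hi, hyw]
      · obtain ⟨i, hi, rfl⟩ := List.getElem_of_mem hw
        refine ⟨(i, false), ?_⟩
        simp only [cond_false]
        rw [List.getD_eq_getElem _ _ hi, ← FreeGroup.inv_mk, ← hyw, inv_inv]
    obtain ⟨q, hq⟩ := key
    refine ⟨q :: e, ?_⟩
    rw [List.flatMap_cons, ← FreeGroup.mul_mk, he, hq, List.prod_cons]

theorem getD_ofFn {n : ℕ} (f : Fin n → Word n) (j : Fin n) :
    (List.ofFn f).getD j.1 [] = f j := by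
  rw [List.getD_eq_getElem _ _ (by simp)]
  simp

theorem hom_ofFn {n : ℕ} (φ : FreeGroup (Fin n) →* FreeGroup (Fin n)) :
    hom (List.ofFn fun j : Fin n => (φ (FreeGroup.of j)).toWord) = φ := by
  refine FreeGroup.ext_hom _ _ fun j => ?_
  rw [hom_of, getD_ofFn, FreeGroup.mk_toWord]

theorem mk_rep {n : ℕ} (i : Fin n) (k : ℕ) :
    FreeGroup.mk (List.replicate k ((i, true) : Ltr n)) = FreeGroup.of i ^ k := by
  induction k with
  | zero => rfl
  | succ k ih =>
    rw [List.replicate_succ, pow_succ', ← ih]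
    rfl

theorem Q_iff_chkPos {n : ℕ} (ws : List (Word n)) (k : ℕ) :
    Q ws k ↔ ∃ us vs i e, ChkPos ws k us vs i e := by
  constructor
  · rintro ⟨q, ⟨φ, i, rfl⟩, hk⟩
    obtain ⟨e, he⟩ := exists_exp ws _ hk
    refine ⟨List.ofFn fun j : Fin n => (φ.toMonoidHom (FreeGroup.of j)).toWord,
      List.ofFn fun j : Fin n => (φ.symm.toMonoidHom (FreeGroup.of j)).toWord, i, e, ?_, ?_, ?_⟩
    · intro j
      rw [getD_ofFn, ← toWord_of', red_eq_iff, mk_subst, hom_ofFn, FreeGroup.mk_toWord]
      simp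
    · intro j
      rw [getD_ofFn, ← toWord_of', red_eq_iff, mk_subst, hom_ofFn, FreeGroup.mk_toWord]
      simp
    · rw [red_red_iff, he, mk_subst, hom_ofFn, mk_rep, map_pow]
      rfl
  · rintro ⟨us, vs, i, e, h⟩
    have h1 : (hom us).comp (hom vs) = MonoidHom.id _ := by
      refine FreeGroup.ext_hom _ _ fun j => ?_
      have := h.left j
      rw [← toWord_of', red_eq_iff, mk_subst] at this
      rw [MonoidHom.comp_apply, hom_of, this]
      rfl
    have h2 : (hom vs).comp (hom us) = MonoidHom.id _ := by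
      refine FreeGroup.ext_hom _ _ fun j => ?_
      have := h.right j
      rw [← toWord_of', red_eq_iff, mk_subst] at this
      rw [MonoidHom.comp_apply, hom_of, this]
      rfl
    refine ⟨hom us (FreeGroup.of i), ⟨MonoidHom.toMulEquiv (hom us) (hom vs) h2 h1, i, rfl⟩, ?_⟩
    have h3 := h.eq
    rw [red_red_iff, mk_subst, mk_rep, map_pow] at h3
    rw [h3, mk_flat]
    refine Subgroup.list_prod_mem _ fun y hy => ?_
    obtain ⟨q, -, rfl⟩ := List.mem_map.1 hy
    exact mk_bif_mem ws q

end WPP
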