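import Pool.Agent.Lib.WPP_B
import Pool.Agent.Lib.WPP_F3

/-! PROJECT WPP, row D1: powers in the subgroup are read along closed chains of positions -/

namespace WPP

open FreeGroup List

/-- closed chains in a relation closed under cancellation: cancel the first two entries -/
theorem d1_head {n : ℕ} {R : Pos n → Pos n → Prop}
    (hR : ∀ a b c d, R a b → R b c → R c d → c.1 = bar b.1 → R a d)
    (b c : Pos n) (m : List (Pos n)) (hm : m ≠ []) (hbc : c.1 = bar b.1)
    (h : Cyc R (b :: c :: m)) : Cyc R m := by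
  obtain ⟨d, t, rfl⟩ := List.exists_cons_of_ne_nil hm
  obtain ⟨h1, h2⟩ := h
  rw [List.isChain_cons_cons, List.isChain_cons_cons] at h1
  refine ⟨h1.2.2, ?_⟩
  intro a ha d' hd'
  have hd : d' = d := by simpa using hd'.symm
  subst hd
  have hab : R a b := h2 a (by simpa using ha) b (by simp)
  exact hR a b c _ hab h1.1 h1.2.1 hbc

/-- cancellation inside of the closed chain -/
theorem d1_mid {n : ℕ} {R : Pos n → Pos n → Prop}
    (hR : ∀ a b c d, R a b → R b c → R c d → c.1 = bar b.1 → R a d)
    (b c : Pos n) (l₁ l₂ : List (Pos n)) (hm : l₁ ++ l₂ ≠ []) (hbc : c.1 = bar b.1)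
    (h : Cyc R (l₁ ++ b :: c :: l₂)) : Cyc R (l₁ ++ l₂) := by
  have h1 := rowB_cyc_app R l₁ (b :: c :: l₂) h
  have h2 : Cyc R (l₂ ++ l₁) := by
    refine d1_head hR b c (l₂ ++ l₁) ?_ hbc (by simpa using h1)
    intro h0
    rw [List.append_eq_nil_iff] at h0
    exact hm (by rw [h0.1, h0.2]; rfl)
  exact rowB_cyc_app R l₂ l₁ h2

theorem d1_step {n : ℕ} {R : Pos n → Pos n → Prop}
    (hR : ∀ a b c d, R a b → R b c → R c d → c.1 = bar b.1 → R a d)
    {u v : Word n} (hs : FreeGroup.Red.Step u v) (hv : v ≠ []) (l : List (Pos n))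
    (hl : l.map (fun a => a.1) = u) (h : Cyc R l) :
    ∃ l' : List (Pos n), l'.map (fun a => a.1) = v ∧ Cyc R l' := by
  obtain ⟨L₁, L₂, x, b, rfl, rfl⟩ : ∃ (L₁ L₂ : Word n) (x : Fin n) (b : Bool),
      u = L₁ ++ (x, b) :: (x, !b) :: L₂ ∧ v = L₁ ++ L₂ := by
    cases hs with
    | not => exact ⟨_, _, _, _, rfl, rfl⟩
  rw [List.map_eq_append_iff] at hl
  obtain ⟨l₁, l', rfl, hl₁, hl'⟩ := hl
  rw [List.map_eq_cons_iff] at hl'
  obtain ⟨p, l'', rfl, hp, hl''⟩ := hl'
  rw [List.map_eq_cons_iff] at hl''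
  obtain ⟨q, l₂, rfl, hq, hl₂⟩ := hl''
  have hmap : (l₁ ++ l₂).map (fun a => a.1) = L₁ ++ L₂ := by
    rw [List.map_append, hl₁, hl₂]
  refine ⟨l₁ ++ l₂, hmap, d1_mid hR p q l₁ l₂ ?_ ?_ h⟩
  · intro h0
    rw [h0] at hmap
    exact hv hmap.symm
  · rw [hp, hq]
    rfl

theorem d1_red {n : ℕ} {R : Pos n → Pos n → Prop}
    (hR : ∀ a b c d, R a b → R b c → R c d → c.1 = bar b.1 → R a d)
    {u w : Word n} (hr : FreeGroup.Red u w) (hw : w ≠ []) :
    ∀ l : List (Pos n), l.map (fun a => a.1) = u → Cyc R l →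
    ∃ l' : List (Pos n), l'.map (fun a => a.1) = w ∧ Cyc R l' := by
  induction hr using Relation.ReflTransGen.head_induction_on with
  | refl => exact fun l hl h => ⟨l, hl, h⟩
  | head hs hr ih =>
    rename_i u' v'
    intro l hl h
    have hv : v' ≠ [] := by
      intro h0
      rw [h0] at hr
      exact hw (FreeGroup.Red.nil_iff.1 hr)
    obtain ⟨l', hl', h'⟩ := d1_step hR hs hv l hl h
    exact ih l' hl' h'

theorem d1_conj {n : ℕ} {R : Pos n → Pos n → Prop}
    (hR : ∀ a b c d, R a b → R b c → R c d → c.1 = bar b.1 → R a d)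
    (P : Word n) (hP : P ≠ []) (c : Word n) :
    ∀ l : List (Pos n), l.map (fun a => a.1) = c ++ P ++ FreeGroup.invRev c → Cyc R l →
    ∃ l' : List (Pos n), l'.map (fun a => a.1) = P ∧ Cyc R l' := by
  induction c with
  | nil =>
    intro l hl h
    exact ⟨l, by simpa using hl, h⟩
  | cons y c ih =>
    intro l hl h
    have hinv : FreeGroup.invRev (y :: c) = FreeGroup.invRev c ++ [bar y] := by
      simp [FreeGroup.invRev, bar]
    rw [hinv, show y :: c ++ P ++ (FreeGroup.invRev c ++ [bar y]) =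
      y :: ((c ++ P ++ FreeGroup.invRev c) ++ [bar y]) by simp, List.map_eq_cons_iff] at hl
    obtain ⟨a, l₁, rfl, ha, hl₁⟩ := hl
    rw [List.map_eq_append_iff] at hl₁
    obtain ⟨m, l₂, rfl, hm, hl₂⟩ := hl₁
    rw [List.map_eq_cons_iff] at hl₂
    obtain ⟨z, l₃, rfl, hz, hl₃⟩ := hl₂
    rw [List.map_eq_nil_iff] at hl₃
    subst hl₃
    have h1 : Cyc R (z :: a :: m) := by
      have := rowB_cyc_app R (a :: m) [z] (by simpa using h)
      simpa using this
    have hmne : m ≠ [] := by
      rintro rfl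
      simp only [List.map_nil] at hm
      have := congrArg List.length hm
      simp only [List.length_nil, List.length_append] at this
      exact hP (List.length_eq_zero_iff.1 (by omega))
    refine ih m hm (d1_head hR z a m hmne ?_ h1)
    rw [ha, hz, rowB_bar_bar]

/-- positions of one word -/
def prow {n : ℕ} (i : ℕ) : Word n → ℕ → List (Pos n)
  | [], _ => []
  | y :: w, s => (y, i, s) :: prow i w (s + 1)

theorem prow_map {n : ℕ} (i : ℕ) (w : Word n) (s : ℕ) :
    (prow i w s).map (fun a => a.1) = w := by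
  induction w generalizing s with
  | nil => rfl
  | cons y w ih => simp [prow, ih]

theorem prow_mem {n : ℕ} (i : ℕ) (w : Word n) (s : ℕ) (a : Pos n) (ha : a ∈ prow i w s) :
    a.2.1 = i ∧ s ≤ a.2.2 ∧ w[a.2.2 - s]? = some a.1 := by
  induction w generalizing s with
  | nil => simp [prow] at ha
  | cons y w ih =>
    simp only [prow, List.mem_cons] at ha
    rcases ha with rfl | ha
    · simp
    · obtain ⟨h1, h2, h3⟩ := ih (s + 1) ha
      refine ⟨h1, by omega, ?_⟩
      rw [show a.2.2 - s = (a.2.2 - (s + 1)) + 1 by omega, List.getElem?_cons_succ]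
      exact h3

theorem prow_head {n : ℕ} (i : ℕ) (w : Word n) (s : ℕ) (a : Pos n)
    (ha : a ∈ (prow i w s).head?) : a.2.1 = i ∧ a.2.2 = s := by
  cases w with
  | nil => simp [prow] at ha
  | cons y w =>
    simp only [prow, List.head?_cons, Option.mem_def, Option.some.injEq] at ha
    subst ha
    simp

theorem prow_last {n : ℕ} (i : ℕ) (w : Word n) (s : ℕ) (a : Pos n)
    (ha : a ∈ (prow i w s).getLast?) : a.2.1 = i ∧ a.2.2 + 1 = s + w.length := by
  induction w generalizing s with
  | nil => simp [prow] at ha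
  | cons y w ih =>
    cases w with
    | nil =>
      simp only [prow, List.getLast?_singleton, Option.mem_def, Option.some.injEq] at ha
      subst ha
      simp
    | cons y' w =>
      have : a ∈ (prow i (y' :: w) (s + 1)).getLast? := by
        simpa [prow, List.getLast?_cons_cons] using ha
      obtain ⟨h1, h2⟩ := ih (s + 1) this
      refine ⟨h1, ?_⟩
      simp only [List.length_cons] at h2 ⊢
      omega

theorem prow_chain {n : ℕ} (W : List (Word n)) (i : ℕ) (w : Word n) (s : ℕ) :
    List.IsChain (D0 W) (prow i w s) := by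
  induction w generalizing s with
  | nil => exact List.isChain_nil
  | cons y w ih =>
    rw [prow, List.isChain_cons]
    refine ⟨?_, ih (s + 1)⟩
    intro b hb
    obtain ⟨h1, h2⟩ := prow_head i w (s + 1) b hb
    exact Or.inl ⟨h1.symm, h2.symm⟩

/-- the position list of a product of words of `W` -/
def plist {n : ℕ} (W : List (Word n)) (js : List ℕ) : List (Pos n) :=
  js.flatMap fun i => prow i (W.getD i []) 0

theorem plist_map {n : ℕ} (W : List (Word n)) (js : List ℕ) :
    (plist W js).map (fun a => a.1) = js.flatMap fun i => W.getD i [] := by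
  unfold plist
  rw [List.map_flatMap]
  congr 1
  funext i
  exact prow_map i _ 0

theorem plist_chain {n : ℕ} (W : List (Word n)) (js : List ℕ) :
    List.IsChain (D0 W) (plist W js) ∧ (∀ a ∈ (plist W js).head?, a.2.2 = 0) ∧
      (∀ a ∈ (plist W js).getLast?, a.2.2 + 1 = (W.getD a.2.1 []).length) := by
  induction js with
  | nil => simp [plist]
  | cons i js ih =>
    obtain ⟨h1, h2, h3⟩ := ih
    have he : plist W (i :: js) = prow i (W.getD i []) 0 ++ plist W js := by
      simp [plist]
    have hlast : ∀ a ∈ (prow i (W.getD i []) 0).getLast?,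
        a.2.2 + 1 = (W.getD a.2.1 []).length := by
      intro a ha
      obtain ⟨h4, h5⟩ := prow_last i _ 0 a ha
      rw [h4]
      omega
    rw [he]
    refine ⟨?_, ?_, ?_⟩
    · rw [List.isChain_append]
      refine ⟨prow_chain W i _ 0, h1, ?_⟩
      intro a ha b hb
      exact Or.inr ⟨hlast a ha, h2 b hb⟩
    · intro a ha
      rcases hw : prow i (W.getD i []) 0 with _ | ⟨z, t⟩
      · rw [hw] at ha
        exact h2 a (by simpa using ha)
      · rw [hw] at ha
        have hz : z = a := by simpa using ha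
        subst hz
        exact (prow_head i (W.getD i []) 0 z (by rw [hw]; rfl)).2
    · intro a ha
      rw [List.getLast?_append] at ha
      rcases ho : (plist W js).getLast? with _ | z
      · rw [ho] at ha
        exact hlast a (by simpa using ha)
      · rw [ho] at ha
        have hz : z = a := by simpa using ha
        subst hz
        exact h3 z (by rw [ho]; rfl)

theorem d1_posn {n : ℕ} (W : List (Word n)) (a : Pos n)
    (h : (W.getD a.2.1 [])[a.2.2]? = some a.1) : a ∈ posn W := by
  obtain ⟨y, i, j⟩ := a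
  simp only at h
  have hi : i < W.length := by
    by_contra hi
    rw [List.getD_eq_default _ _ (not_lt.1 hi)] at h
    simp at h
  have hj : j < (W.getD i []).length := by
    by_contra hj
    rw [List.getElem?_eq_none (not_lt.1 hj)] at h
    simp at h
  unfold posn
  rw [List.mem_flatMap]
  refine ⟨i, List.mem_range.2 hi, ?_⟩
  rw [List.mem_filterMap]
  refine ⟨j, List.mem_range.2 hj, ?_⟩
  rw [h]
  rfl

theorem plist_mem {n : ℕ} (W : List (Word n)) (js : List ℕ) (a : Pos n)
    (ha : a ∈ plist W js) : a ∈ posn W := by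
  unfold plist at ha
  rw [List.mem_flatMap] at ha
  obtain ⟨i, -, ha⟩ := ha
  obtain ⟨h1, -, h2⟩ := prow_mem i _ 0 a ha
  refine d1_posn W a ?_
  rw [h1]
  simpa using h2

theorem d1_index {n : ℕ} (ws : List (Word n)) (q : ℕ × Bool) :
    ∃ i : ℕ, (sym ws).getD i [] =
      bif q.2 then ws.getD q.1 [] else FreeGroup.invRev (ws.getD q.1 []) := by
  obtain ⟨j, b⟩ := q
  by_cases hj : j < ws.length
  · cases b
    · refine ⟨ws.length + j, ?_⟩
      unfold sym
      rw [List.getD_append_right _ _ _ _ (by omega), Nat.add_sub_cancel_left]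
      simp [hj]
    · refine ⟨j, ?_⟩
      unfold sym
      rw [List.getD_append _ _ _ _ hj]
      rfl
  · refine ⟨(sym ws).length, ?_⟩
    rw [List.getD_eq_default _ _ le_rfl]
    simp only [List.getD_eq_default _ _ (not_lt.1 hj)]
    cases b <;> simp

theorem flower_complete {n : ℕ} (ws : List (Word n)) (E : Pos n → Pos n → Prop)
    (hE : Base (sym ws) E) (q : FreeGroup (Fin n)) (hq : q ≠ 1) (k : ℕ) (hk : 1 ≤ k)
    (hS : q ^ k ∈ gen ws) :
    ∃ l : List (Pos n), (∀ a ∈ l, a ∈ posn (sym ws)) ∧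
      l.map (fun a => a.1) = (List.replicate k (reduceCyclically q.toWord)).flatten ∧
      Cyc E l := by
  obtain ⟨e, he⟩ := exists_exp ws _ hS
  choose f hf using d1_index ws
  -- the relation restricted to the positions
  have hR : ∀ a b c d : Pos n,
      (E a b ∧ a ∈ posn (sym ws) ∧ b ∈ posn (sym ws)) →
      (E b c ∧ b ∈ posn (sym ws) ∧ c ∈ posn (sym ws)) →
      (E c d ∧ c ∈ posn (sym ws) ∧ d ∈ posn (sym ws)) → c.1 = bar b.1 →
      (E a d ∧ a ∈ posn (sym ws) ∧ d ∈ posn (sym ws)) := by
    rintro a b c d ⟨h1, ha, hb⟩ ⟨h2, -, hc⟩ ⟨h3, -, hd⟩ h4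
    exact ⟨hE.cancel a ha b hb c hc d hd h1 h2 h3 h4, ha, hd⟩
  obtain ⟨hc1, hc2, hc3⟩ := plist_chain (sym ws) (e.map f)
  have hcyc : Cyc (fun a b => E a b ∧ a ∈ posn (sym ws) ∧ b ∈ posn (sym ws))
      (plist (sym ws) (e.map f)) := by
    constructor
    · refine List.IsChain.imp_of_mem_imp ?_ hc1
      intro a b ha hb hab
      have ha' := plist_mem _ _ a ha
      have hb' := plist_mem _ _ b hb
      exact ⟨hE.d0 a ha' b hb' hab, ha', hb'⟩
    · intro a ha b hb
      have ha' := plist_mem _ _ a (List.mem_of_getLast? ha)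
      have hb' := plist_mem _ _ b (List.mem_of_head? hb)
      exact ⟨hE.d0 a ha' b hb' (Or.inr ⟨hc3 a ha, hc2 b hb⟩), ha', hb'⟩
  have hu : FreeGroup.mk ((e.map f).flatMap fun i => (sym ws).getD i []) = q ^ k := by
    rw [← he, List.flatMap_map]
    congr 2
    funext q
    exact hf q
  have hconj := reduceCyclically.conj_conjugator_reduceCyclically q.toWord
  have hpne : reduceCyclically q.toWord ≠ [] := by
    intro h0
    rw [h0, List.append_nil] at hconj
    have h1 := congrArg FreeGroup.mk hconj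
    rw [← FreeGroup.mul_mk, ← FreeGroup.inv_mk, mul_inv_cancel, FreeGroup.mk_toWord] at h1
    exact hq h1.symm
  obtain ⟨k, rfl⟩ : ∃ k', k = k' + 1 := ⟨k - 1, by omega⟩
  have hPne : (List.replicate (k + 1) (reduceCyclically q.toWord)).flatten ≠ [] := by
    rw [List.replicate_succ, List.flatten_cons]
    intro h0
    exact hpne (List.append_eq_nil_iff.1 h0).1
  have hred : FreeGroup.reduce ((e.map f).flatMap fun i => (sym ws).getD i []) =
      reduceCyclically.conjugator q.toWord ++
      (List.replicate (k + 1) (reduceCyclically q.toWord)).flatten ++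
      FreeGroup.invRev (reduceCyclically.conjugator q.toWord) := by
    rw [← reduceCyclically.reduce_flatten_replicate_succ FreeGroup.isReduced_toWord,
      red_red_iff, hu, ← FreeGroup.pow_mk, FreeGroup.mk_toWord]
  have hrr := FreeGroup.reduce.red (L := (e.map f).flatMap fun i => (sym ws).getD i [])
  rw [hred] at hrr
  obtain ⟨l₁, hl₁, hl₁'⟩ := d1_red hR hrr (by
    intro h0
    rw [List.append_eq_nil_iff, List.append_eq_nil_iff] at h0
    exact hPne h0.1.2) _ (plist_map (sym ws) (e.map f)) hcyc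
  obtain ⟨l₂, hl₂, hl₂'⟩ := d1_conj hR _ hPne _ l₁ hl₁ hl₁'
  refine ⟨l₂, ?_, hl₂, ?_⟩
  · intro a ha
    obtain ⟨s, t, rfl⟩ := List.append_of_mem ha
    have h1 := rowB_cyc_app _ _ _ hl₂'
    rw [List.cons_append, rowB_cyc] at h1
    rcases hm : t ++ s with _ | ⟨b, m⟩
    · rw [hm] at h1
      simp only [List.nil_append] at h1
      exact ((List.isChain_cons_cons.1 h1).1).2.1
    · rw [hm, List.cons_append] at h1
      exact ((List.isChain_cons_cons.1 h1).1).2.1
  · exact ⟨List.IsChain.imp (fun a b hab => hab.1) hl₂'.1,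
      fun a ha b hb => (hl₂'.2 a ha b hb).1⟩

end WPP
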