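import Pool.Agent.Lib.WPP_Base
import Pool.Agent.Lib.WPP_C1

/-! PROJECT WPP, row D2: the least relation on positions closed under cancellation is sound -/

namespace WPP

open FreeGroup List

/-- least relation on positions which contains the flower successor relation and is closed under
cancellation -/
inductive Fl {n : ℕ} (W : List (Word n)) : Pos n → Pos n → Prop
  | base {a b : Pos n} : a ∈ posn W → b ∈ posn W → D0 W a b → Fl W a b
  | cancel {a b c d : Pos n} : Fl W a b → Fl W b c → Fl W c d → c.1 = bar b.1 → Fl W a d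

theorem d2_posn {n : ℕ} (W : List (Word n)) (a : Pos n) (ha : a ∈ posn W) :
    a.2.1 < W.length ∧ (W.getD a.2.1 [])[a.2.2]? = some a.1 := by
  obtain ⟨y, i, j⟩ := a
  simp only [posn, List.mem_flatMap, List.mem_range, List.mem_filterMap,
    Option.map_eq_some_iff, Prod.mk.injEq] at ha
  obtain ⟨i', hi', j', hj', y', hy', h1, h2, h3⟩ := ha
  subst h1 h2 h3
  exact ⟨hi', hy'⟩

theorem d2_supp {n : ℕ} (W : List (Word n)) (a b : Pos n) (h : Fl W a b) :
    a ∈ posn W ∧ b ∈ posn W := by
  induction h with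
  | base ha hb _ => exact ⟨ha, hb⟩
  | cancel _ _ _ _ h1 _ h3 => exact ⟨h1.1, h3.2⟩

theorem d2_mem {n : ℕ} (ws : List (Word n)) (w : Word n) (hw : w ∈ sym ws) :
    FreeGroup.mk w ∈ gen ws := by
  simp only [sym, List.mem_append, List.mem_map] at hw
  rcases hw with hw | ⟨v, hv, rfl⟩
  · exact Subgroup.subset_closure ⟨w, hw, rfl⟩
  · rw [← FreeGroup.inv_mk]
    exact (gen ws).inv_mem (Subgroup.subset_closure ⟨v, hv, rfl⟩)

theorem flower_sound {n : ℕ} (ws : List (Word n)) :
    ∃ (R : Pos n → Pos n → Prop) (pre : Pos n → FreeGroup (Fin n)), Base (sym ws) R ∧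
      (∀ a b, R a b → a ∈ posn (sym ws) ∧ b ∈ posn (sym ws)) ∧
      Sound (gen ws) (fun a : Pos n => a.1) R pre := by
  refine ⟨Fl (sym ws), fun a => FreeGroup.mk (((sym ws).getD a.2.1 []).take a.2.2),
    ⟨?_, ?_⟩, d2_supp (sym ws), ?_⟩
  · intro a ha b hb h
    exact Fl.base ha hb h
  · intro a _ b _ c _ d _ h1 h2 h3 h4
    exact Fl.cancel h1 h2 h3 h4
  · intro a b h
    induction h with
    | @base a b ha hb h =>
      obtain ⟨hi, hj⟩ := d2_posn _ a ha
      have hstep : FreeGroup.mk (((sym ws).getD a.2.1 []).take a.2.2) * lt a.1 =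
          FreeGroup.mk (((sym ws).getD a.2.1 []).take (a.2.2 + 1)) := by
        rw [lt, FreeGroup.mul_mk, List.take_add_one, hj]
        rfl
      change FreeGroup.mk _ * lt a.1 * _ ∈ _
      rw [hstep]
      rcases h with ⟨h1, h2⟩ | ⟨h1, h2⟩
      · rw [h1, h2, mul_inv_cancel]
        exact (gen ws).one_mem
      · beta_reduce
        rw [h1, h2, List.take_length, List.take_zero]
        have : FreeGroup.mk ([] : Word n) = 1 := rfl
        rw [this, inv_one, mul_one]
        apply d2_mem
        rw [List.getD_eq_getElem _ _ hi]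
        exact List.getElem_mem _
    | @cancel a b c d _ _ _ h4 h1 h2 h3 =>
      have e : lt c.1 = (lt b.1)⁻¹ := by rw [h4, c1_lt_bar]
      have h := (gen ws).mul_mem ((gen ws).mul_mem h1 h2) h3
      beta_reduce at h ⊢
      rw [e] at h
      convert h using 1
      group

end WPP
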