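import Pool.Agent.Lib.WPP_A7
import Pool.Agent.Lib.WPP_B
import Pool.Agent.Lib.WPP_C3
import Pool.Agent.Lib.WPP_D1

/-! PROJECT WPP, row E1: a certificate excludes powers of primitive elements -/

namespace WPP

open FreeGroup List

theorem cyc_imp {β : Type} {R R' : β → β → Prop} {l : List β} (h : Cyc R l)
    (hi : ∀ a b, R a b → R' a b) : Cyc R' l :=
  ⟨List.IsChain.imp (fun a b => hi a b) h.1, fun a ha b hb => hi a b (h.2 a ha b hb)⟩

/-- on a closed chain every entry is related to some entry -/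
theorem cyc_rel {β : Type} {R : β → β → Prop} {l : List β} (h : Cyc R l) (a : β) (ha : a ∈ l) :
    ∃ b ∈ l, R a b := by
  obtain ⟨s, t, rfl⟩ := List.append_of_mem ha
  rcases t with _ | ⟨b, t⟩
  · have hne : s ++ [a] ≠ [] := by simp
    refine ⟨(s ++ [a]).head hne, List.head_mem hne, h.2 a (by simp) _ ?_⟩
    rw [List.head?_eq_some_head hne]
    rfl
  · refine ⟨b, by simp, ?_⟩
    have h1 := List.IsChain.right_of_append h.1
    exact (List.isChain_cons_cons.1 h1).1

theorem prim_conj {n : ℕ} {p : FreeGroup (Fin n)} (hp : Prim p)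
    (ψ : FreeGroup (Fin n) ≃* FreeGroup (Fin n)) : Prim (ψ p) := by
  obtain ⟨φ, i, rfl⟩ := hp
  exact ⟨φ.trans ψ, i, rfl⟩

theorem prim_ne_one {n : ℕ} {p : FreeGroup (Fin n)} (hp : Prim p) : p ≠ 1 := by
  obtain ⟨φ, i, rfl⟩ := hp
  intro h
  exact FreeGroup.of_ne_one i (φ.injective (h.trans φ.map_one.symm))

theorem prim_cyc {n : ℕ} {p : FreeGroup (Fin n)} (hp : Prim p) :
    Prim (FreeGroup.mk (reduceCyclically p.toWord)) := by
  have h := reduceCyclically.conj_conjugator_reduceCyclically p.toWord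
  have h2 : p = FreeGroup.mk (reduceCyclically.conjugator p.toWord) *
      FreeGroup.mk (reduceCyclically p.toWord) *
      (FreeGroup.mk (reduceCyclically.conjugator p.toWord))⁻¹ := by
    rw [FreeGroup.inv_mk, FreeGroup.mul_mk, FreeGroup.mul_mk, h, FreeGroup.mk_toWord]
  have h3 : FreeGroup.mk (reduceCyclically p.toWord) =
      MulAut.conj (FreeGroup.mk (reduceCyclically.conjugator p.toWord))⁻¹ p := by
    rw [MulAut.conj_apply, inv_inv]
    nth_rw 3 [h2]
    group
  rw [h3]
  exact prim_conj hp _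

theorem mem_letters {n : ℕ} (y : Ltr n) : y ∈ letters n := by
  unfold letters
  rw [List.mem_flatMap]
  refine ⟨y.1, List.mem_finRange _, ?_⟩
  rcases y with ⟨i, b⟩
  cases b <;> simp

open Classical in
theorem exists_move {n : ℕ} (A : Ltr n → Prop) (x : Ltr n) (hx : A x) (hbx : ¬ A (bar x)) :
    ∃ m ∈ moves n, (∀ y, y ∈ m.1 ↔ A y) ∧ m.2 = x := by
  have hA : ∀ y, y ∈ (letters n).filter (fun y => decide (A y)) ↔ A y := by
    intro y
    simp [List.mem_filter, mem_letters]
  refine ⟨((letters n).filter (fun y => decide (A y)), x), ?_, hA, rfl⟩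
  unfold moves
  rw [List.mem_filter]
  constructor
  · rw [List.mem_flatMap]
    refine ⟨(letters n).filter (fun y => decide (A y)), ?_, ?_⟩
    · rw [List.mem_sublists]
      exact List.filter_sublist
    · exact List.mem_map.2 ⟨x, mem_letters x, rfl⟩
  · have h1 := (hA x).2 hx
    have h2 : ¬ bar x ∈ (letters n).filter (fun y => decide (A y)) := fun h => hbx ((hA _).1 h)
    exact decide_eq_true ⟨h1, h2⟩

/-- no relation of the certificate reads a `k`-th power of a primitive cyclic word -/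
theorem chk_no_read {n : ℕ} (W : List (Word n)) (k : ℕ) (hk : 1 ≤ k)
    (E : List (Pos n × Pos n)) (L : List (List (Pos n × Pos n)))
    (h : Chk W k E L) (N : ℕ) : ∀ (p : Word n), p.length ≤ N → IsCyclicallyReduced p → p ≠ [] →
      Prim (FreeGroup.mk p) → ∀ R ∈ L,
        ¬ Acc (fun a : Pos n => a.1) (fun a b => (a, b) ∈ R ∧ a ∈ posn W ∧ b ∈ posn W)
          (List.replicate k p).flatten := by
  induction N with
  | zero =>
    intro p hN _ hne
    exact absurd (List.length_eq_zero_iff.1 (Nat.le_zero.1 hN)) hne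
  | succ N ih =>
    intro p hN hp hne hprim R hR hacc
    by_cases h2 : 2 ≤ p.length
    · obtain ⟨A, x, hc⟩ := cut_exists p hp h2 hprim
      obtain ⟨p', ψ, hp', hne', hlt, hmk, hmv⟩ := move_word p hp A x hc
      obtain ⟨m, hm, hmA, hmx⟩ := exists_move A x hc.hx hc.hbx
      obtain ⟨R', hR', hcl⟩ := h.closed R hR m hm
      refine ih p' (by omega) hp' hne' (hmk ▸ prim_conj hprim ψ) R' hR' ?_
      obtain ⟨l, hl1, hl2⟩ := hmv _ _ _ k hacc
      refine ⟨l, hl1, cyc_imp hl2 ?_⟩
      have hAe : (fun y => y ∈ m.1) = A := funext fun y => propext (hmA y)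
      intro a b hab
      rcases hab with ⟨⟨h1, h2, h3⟩, h4⟩ | ⟨c, ⟨h1, h2, h3⟩, ⟨h4, h5, h6⟩, h7⟩
      · refine ⟨hcl a h2 b h3 (Or.inl ⟨h1, ?_⟩), h2, h3⟩
        rw [hAe, hmx]
        exact h4
      · refine ⟨hcl a h2 b h6 (Or.inr ⟨c, h3, h1, h4, ?_⟩), h2, h6⟩
        rw [hAe, hmx]
        exact h7
    · have h1 : p.length = 1 := by
        have := List.length_pos_iff.2 hne
        omega
      obtain ⟨y, rfl⟩ := List.length_eq_one_iff.1 h1
      obtain ⟨l, hl1, hl2⟩ := hacc
      have hrep : (List.replicate k [y]).flatten = List.replicate k y := by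
        clear * -
        induction k with
        | zero => rfl
        | succ k ih => rw [List.replicate_succ, List.flatten_cons, ih, List.replicate_succ]; rfl
      rw [hrep] at hl1
      obtain ⟨a, ha, haw⟩ := walk_complete W R y k hk l
        (fun a ha => by
          obtain ⟨b, -, -, h1, -⟩ := cyc_rel hl2 a ha
          exact h1) hl1 (cyc_imp hl2 fun a b hab => hab.1)
      exact h.noLoop R hR a ha haw

theorem chk_not_Q {n : ℕ} (ws : List (Word n)) (k : ℕ) (hk : 1 ≤ k)
    (E : List (Pos n × Pos n)) (L : List (List (Pos n × Pos n)))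
    (h : Chk (sym ws) k E L) : ¬ Q ws k := by
  rintro ⟨q, hq, hqk⟩
  obtain ⟨l, hl1, hl2, hl3⟩ := flower_complete ws
    (fun a b => (a, b) ∈ E ∧ a ∈ posn (sym ws) ∧ b ∈ posn (sym ws))
    ⟨fun a ha b hb hab => ⟨h.d0 a ha b hb hab, ha, hb⟩,
      fun a ha b hb c hc d hd h1 h2 h3 h4 =>
        ⟨h.cancel a ha b hb c hc d hd h1.1 h2.1 h3.1 h4, ha, hd⟩⟩ q (prim_ne_one hq) k hk hqk
  refine chk_no_read (sym ws) k hk E L h _ (reduceCyclically q.toWord) le_rfl
    (reduceCyclically.isCyclicallyReduced FreeGroup.isReduced_toWord) ?_ (prim_cyc hq) E h.mem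
    ⟨l, hl2, hl3⟩
  intro h0
  have := prim_cyc hq
  rw [h0] at this
  exact prim_ne_one this rfl

end WPP
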