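import Pool.Agent.Lib.WPP_Base
import Pool.Agent.Lib.WPP_C1
import Pool.Agent.Lib.WPP_C2
import Pool.Agent.Lib.WPP_D2

/-! PROJECT WPP, row E2: if `S` contains no `k`-th power of a primitive element, there is a
certificate -/

namespace WPP

open FreeGroup List

theorem e2_prim_of {n : ℕ} (i : Fin n) : Prim (FreeGroup.of i) := ⟨MulEquiv.refl _, i, rfl⟩

theorem e2_prim_map {n : ℕ} {p : FreeGroup (Fin n)} (h : Prim p)
    (ψ : FreeGroup (Fin n) ≃* FreeGroup (Fin n)) : Prim (ψ p) := by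
  obtain ⟨φ, i, rfl⟩ := h
  exact ⟨φ.trans ψ, i, rfl⟩

/-- the automorphism inverting all basis letters -/
def e2_invAll (n : ℕ) : FreeGroup (Fin n) ≃* FreeGroup (Fin n) :=
  MonoidHom.toMulEquiv (FreeGroup.lift fun i => (FreeGroup.of i)⁻¹)
    (FreeGroup.lift fun i => (FreeGroup.of i)⁻¹)
    (by ext i; simp) (by ext i; simp)

theorem e2_prim_lt {n : ℕ} (y : Ltr n) : Prim (lt y) := by
  obtain ⟨i, b⟩ := y
  cases b
  · refine ⟨e2_invAll n, i, ?_⟩
    change (FreeGroup.lift fun i => (FreeGroup.of i)⁻¹) (FreeGroup.of i) = _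
    rw [FreeGroup.lift_apply_of]
    rfl
  · exact e2_prim_of i

theorem exists_chk {n : ℕ} (ws : List (Word n)) (k : ℕ) (_hk : 1 ≤ k) (h : ¬ Q ws k) :
    ∃ (E : List (Pos n × Pos n)) (L : List (List (Pos n × Pos n))), Chk (sym ws) k E L := by
  classical
  obtain ⟨R0, pre0, hbase, hsup, hsound⟩ := flower_sound ws
  let U : List (Pos n × Pos n) := (posn (sym ws)) ×ˢ (posn (sym ws))
  have hU : ∀ a b, (a, b) ∈ U ↔ a ∈ posn (sym ws) ∧ b ∈ posn (sym ws) := by
    intro a b
    exact List.pair_mem_product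
  let E : List (Pos n × Pos n) := U.filter fun z => decide (R0 z.1 z.2)
  have hE : ∀ a b, (a, b) ∈ E ↔ R0 a b := by
    intro a b
    simp only [E, List.mem_filter, decide_eq_true_eq, hU]
    exact ⟨fun z => z.2, fun z => ⟨hsup a b z, z⟩⟩
  let G : List (Pos n × Pos n) → Prop := fun R =>
    ∃ (ψ : FreeGroup (Fin n) ≃* FreeGroup (Fin n)) (pre : Pos n → FreeGroup (Fin n)),
      Sound ((gen ws).map ψ.toMonoidHom) (fun a : Pos n => a.1) (fun a b => (a, b) ∈ R) pre
  let L : List (List (Pos n × Pos n)) := U.sublists.filter fun R => decide (G R)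
  have hL : ∀ R, R ∈ L ↔ R <+ U ∧ G R := by
    intro R
    simp only [L, List.mem_filter, List.mem_sublists, decide_eq_true_eq]
  refine ⟨E, L, ?_, ?_, ?_, ?_, ?_⟩
  · intro a ha b hb hab
    exact (hE a b).2 (hbase.d0 a ha b hb hab)
  · intro a ha b hb c hc d hd h1 h2 h3 h4
    exact (hE a d).2 (hbase.cancel a ha b hb c hc d hd ((hE _ _).1 h1) ((hE _ _).1 h2)
      ((hE _ _).1 h3) h4)
  · refine (hL E).2 ⟨List.filter_sublist, MulEquiv.refl _, pre0, ?_⟩
    intro a b hab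
    have h1 := hsound a b ((hE a b).1 hab)
    exact ⟨_, h1, rfl⟩
  · intro R hR m hm
    obtain ⟨hRU, ψ, pre, hs⟩ := (hL R).1 hR
    obtain ⟨A, x⟩ := m
    have hm2 : x ∈ A ∧ bar x ∉ A := by
      simp only [moves, List.mem_filter, decide_eq_true_eq] at hm
      exact hm.2
    obtain ⟨ψ', pre', hs'⟩ := sound_mv ((gen ws).map ψ.toMonoidHom) (fun a : Pos n => a.1)
      (fun a b => (a, b) ∈ R) pre hs (· ∈ A) x hm2.1 hm2.2
    refine ⟨U.filter fun z => decide (mv (fun a : Pos n => a.1) (· ∈ A) x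
      (fun a b => (a, b) ∈ R) z.1 z.2), (hL _).2 ⟨List.filter_sublist, ψ.trans ψ', pre', ?_⟩, ?_⟩
    · intro a b hab
      simp only [List.mem_filter, decide_eq_true_eq] at hab
      have h1 := hs' a b hab.2
      rw [Subgroup.map_map] at h1
      exact h1
    · intro a ha b hb hab
      simp only [List.mem_filter, decide_eq_true_eq, hU]
      refine ⟨⟨ha, hb⟩, ?_⟩
      rcases hab with hab | ⟨c, hc, h1, h2, h3⟩
      · exact Or.inl hab
      · exact Or.inr ⟨c, h1, h2, h3⟩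
  · intro R hR a ha hw
    obtain ⟨hRU, ψ, pre, hs⟩ := (hL R).1 hR
    have h1 := walk_sound ((gen ws).map ψ.toMonoidHom) (sym ws) R pre hs a k hw
    obtain ⟨s, hs1, hs2⟩ := h1
    apply h
    refine ⟨ψ.symm (pre a * lt a.1 * (pre a)⁻¹), ?_, ?_⟩
    · have h2 : Prim (pre a * lt a.1 * (pre a)⁻¹) :=
        e2_prim_map (e2_prim_lt a.1) (MulAut.conj (pre a))
      exact e2_prim_map h2 ψ.symm
    · have h3 : (ψ.symm (pre a * lt a.1 * (pre a)⁻¹)) ^ k = s := by
        rw [← map_pow, conj_pow]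
        apply ψ.injective
        rw [ψ.apply_symm_apply]
        exact hs2.symm
      rw [h3]
      exact hs1

end WPP
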