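import Pool.Agent.Lib.WPP_Base

/-! PROJECT WPP, row F1: the negative certificate is primitive recursive -/

namespace WPP

open FreeGroup List

section generic

variable {α β γ : Type} [Primcodable α] [Primcodable β] [Primcodable γ]

theorem pp_all {l : α → List β} {P : α → β → Prop} (hl : Primrec l)
    (hP : PrimrecPred fun z : α × β => P z.1 z.2) : PrimrecPred fun a => ∀ b ∈ l a, P a b := by
  have h1 : PrimrecRel fun (b : β) (a : α) => P a b :=
    hP.comp (Primrec.pair Primrec.snd Primrec.fst)
  exact h1.forall_mem_list.comp hl Primrec.id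

theorem pp_ex {l : α → List β} {P : α → β → Prop} (hl : Primrec l)
    (hP : PrimrecPred fun z : α × β => P z.1 z.2) : PrimrecPred fun a => ∃ b ∈ l a, P a b := by
  have h1 : PrimrecRel fun (b : β) (a : α) => P a b :=
    hP.comp (Primrec.pair Primrec.snd Primrec.fst)
  exact h1.exists_mem_list.comp hl Primrec.id

theorem pp_imp {p q : α → Prop} (hp : PrimrecPred p) (hq : PrimrecPred q) :
    PrimrecPred fun a => p a → q a :=
  (hp.not.or hq).of_eq fun a => by tauto

theorem pp_iff {p q : α → Prop} (hp : PrimrecPred p) (hq : PrimrecPred q) :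
    PrimrecPred fun a => (p a ↔ q a) :=
  ((pp_imp hp hq).and (pp_imp hq hp)).of_eq fun a => by tauto

theorem pp_eq {f g : α → β} (hf : Primrec f) (hg : Primrec g) :
    PrimrecPred fun a => f a = g a := by
  classical
  exact Primrec.eq.comp hf hg

theorem pp_mem {f : α → β} {l : α → List β} (hf : Primrec f) (hl : Primrec l) :
    PrimrecPred fun a => f a ∈ l a :=
  (pp_ex (P := fun a b => b = f a) hl
    (pp_eq Primrec.snd (hf.comp Primrec.fst))).of_eq fun a => by simp

end generic

theorem bar_primrec {n : ℕ} : Primrec (bar : Ltr n → Ltr n) := Primrec.dom_finite _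

theorem posn_primrec (n : ℕ) : Primrec (posn : List (Word n) → List (Pos n)) := by
  unfold posn
  refine Primrec.list_flatMap (Primrec.list_range.comp Primrec.list_length) ?_
  have hg : Primrec₂ fun (W : List (Word n)) (i : ℕ) => W.getD i [] := Primrec.list_getD []
  refine Primrec.listFilterMap
    (Primrec.list_range.comp (Primrec.list_length.comp hg)) ?_
  have h1 : Primrec fun z : (List (Word n) × ℕ) × ℕ => (z.1.1.getD z.1.2 [])[z.2]? :=
    Primrec.list_getElem?.comp (hg.comp (Primrec.fst.comp Primrec.fst)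
      (Primrec.snd.comp Primrec.fst)) Primrec.snd
  refine Primrec.option_map h1 ?_
  exact Primrec.pair Primrec.snd (Primrec.pair (Primrec.snd.comp (Primrec.fst.comp Primrec.fst))
    (Primrec.snd.comp Primrec.fst))

section

variable {α : Type} [Primcodable α]

theorem es_primrec {n : ℕ} {A : α → List (Ltr n)} {x y : α → Ltr n} (hA : Primrec A)
    (hx : Primrec x) (hy : Primrec y) : PrimrecPred fun a => Es (· ∈ A a) (x a) (y a) :=
  (pp_eq hy hx).or ((pp_eq hy (bar_primrec.comp hx)).or (pp_mem hy hA).not)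

theorem xs_primrec {n : ℕ} {A : α → List (Ltr n)} {x y : α → Ltr n} (hA : Primrec A)
    (hx : Primrec x) (hy : Primrec y) : PrimrecPred fun a => Xs (· ∈ A a) (x a) (y a) :=
  (pp_eq hy hx).or ((pp_eq hy (bar_primrec.comp hx)).or
    (pp_mem (bar_primrec.comp hy) hA).not)

theorem mvL_primrec {n : ℕ} {W : α → List (Word n)} {m : α → List (Ltr n) × Ltr n}
    {R : α → List (Pos n × Pos n)} {a b : α → Pos n} (hW : Primrec W) (hm : Primrec m)
    (hR : Primrec R) (ha : Primrec a) (hb : Primrec b) :
    PrimrecPred fun z => mvL (W z) (m z) (R z) (a z) (b z) := by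
  have hA : Primrec fun z => (m z).1 := Primrec.fst.comp hm
  have hx : Primrec fun z => (m z).2 := Primrec.snd.comp hm
  have ha1 : Primrec fun z => (a z).1 := Primrec.fst.comp ha
  have hb1 : Primrec fun z => (b z).1 := Primrec.fst.comp hb
  refine PrimrecPred.or ?_ ?_
  · exact (pp_mem (Primrec.pair ha hb) hR).and
      (pp_iff (xs_primrec hA hx ha1) (es_primrec hA hx hb1))
  · refine pp_ex ((posn_primrec n).comp hW) ?_
    have F : Primrec (Prod.fst : α × Pos n → α) := Primrec.fst
    have S : Primrec (Prod.snd : α × Pos n → Pos n) := Primrec.snd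
    have S1 : Primrec fun z : α × Pos n => z.2.1 := Primrec.fst.comp Primrec.snd
    refine (pp_mem (Primrec.pair (ha.comp F) S) (hR.comp F)).and
      ((pp_mem (Primrec.pair S (hb.comp F)) (hR.comp F)).and (PrimrecPred.or ?_ ?_))
    · exact (pp_eq S1 (hx.comp F)).and
        ((xs_primrec (hA.comp F) (hx.comp F) (ha1.comp F)).not.and
          (es_primrec (hA.comp F) (hx.comp F) (hb1.comp F)))
    · exact (pp_eq S1 (bar_primrec.comp (hx.comp F))).and
        ((xs_primrec (hA.comp F) (hx.comp F) (ha1.comp F)).and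
          (es_primrec (hA.comp F) (hx.comp F) (hb1.comp F)).not)

theorem walk_primrec {n : ℕ} {W : α → List (Word n)} {R : α → List (Pos n × Pos n)}
    {y : α → Ltr n} {a : α → Pos n} {k : α → ℕ} (hW : Primrec W) (hR : Primrec R)
    (hy : Primrec y) (ha : Primrec a) (hk : Primrec k) :
    Primrec fun z => walk (W z) (R z) (y z) (a z) (k z) := by
  classical
  have h0 : Primrec fun z => [a z] := Primrec.list_cons.comp ha (Primrec.const [])
  have hs : Primrec₂ fun (z : α) (q : ℕ × List (Pos n)) =>
      q.2.flatMap fun b => (posn (W z)).filter fun c => decide (c.1 = y z ∧ (b, c) ∈ R z) := by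
    refine Primrec.list_flatMap (Primrec.snd.comp Primrec.snd) ?_
    have hF : Primrec fun v : (α × ℕ × List (Pos n)) × Pos n => v.1.1 :=
      Primrec.fst.comp Primrec.fst
    have hP : PrimrecRel fun (c : Pos n) (v : (α × ℕ × List (Pos n)) × Pos n) =>
        c.1 = y v.1.1 ∧ (v.2, c) ∈ R v.1.1 := by
      have hF' : Primrec fun w : Pos n × ((α × ℕ × List (Pos n)) × Pos n) => w.2.1.1 :=
        hF.comp Primrec.snd
      exact (pp_eq (Primrec.fst.comp Primrec.fst) (hy.comp hF')).and
        (pp_mem (Primrec.pair (Primrec.snd.comp Primrec.snd) Primrec.fst) (hR.comp hF'))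
    have := hP.listFilter.comp (((posn_primrec n).comp (hW.comp hF))) Primrec.id
    exact this
  have h := Primrec.nat_rec' hk h0 hs
  refine h.of_eq fun z => ?_
  induction k z with
  | zero => rfl
  | succ m ih =>
    rw [walk]
    simp only [ih]

end

theorem invRev_primrec {n : ℕ} : Primrec (FreeGroup.invRev : Word n → Word n) := by
  have h : Primrec fun w : Word n => (w.map fun g => bar g).reverse :=
    Primrec.list_reverse.comp (Primrec.list_map Primrec.id (bar_primrec.comp Primrec.snd))
  exact h.of_eq fun w => rfl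

theorem sym_primrec {n : ℕ} : Primrec (sym : List (Word n) → List (Word n)) :=
  Primrec.list_append.comp Primrec.id
    (Primrec.list_map Primrec.id (invRev_primrec.comp Primrec.snd))

theorem d0_primrec {α : Type} [Primcodable α] {n : ℕ} {W : α → List (Word n)}
    {a b : α → Pos n} (hW : Primrec W) (ha : Primrec a) (hb : Primrec b) :
    PrimrecPred fun z => D0 (W z) (a z) (b z) := by
  have a1 : Primrec fun z => (a z).2.1 := Primrec.fst.comp (Primrec.snd.comp ha)
  have a2 : Primrec fun z => (a z).2.2 := Primrec.snd.comp (Primrec.snd.comp ha)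
  have b1 : Primrec fun z => (b z).2.1 := Primrec.fst.comp (Primrec.snd.comp hb)
  have b2 : Primrec fun z => (b z).2.2 := Primrec.snd.comp (Primrec.snd.comp hb)
  have hg : Primrec fun z => (W z).getD (a z).2.1 [] := (Primrec.list_getD []).comp hW a1
  exact ((pp_eq a1 b1).and (pp_eq (Primrec.succ.comp a2) b2)).or
    ((pp_eq (Primrec.succ.comp a2) (Primrec.list_length.comp hg)).and
      (pp_eq b2 (Primrec.const 0)))

/-- the certificate with `W` in the place of `sym ws` -/
theorem chk_primrec' {α : Type} [Primcodable α] {n : ℕ} {W : α → List (Word n)} {k : α → ℕ}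
    {E : α → List (Pos n × Pos n)} {L : α → List (List (Pos n × Pos n))} (hW : Primrec W)
    (hk : Primrec k) (hE : Primrec E) (hL : Primrec L) :
    PrimrecPred fun z => Chk (W z) (k z) (E z) (L z) := by
  have hp : Primrec fun z => posn (W z) := (posn_primrec n).comp hW
  have c1 : PrimrecPred fun z => ∀ a ∈ posn (W z), ∀ b ∈ posn (W z),
      D0 (W z) a b → (a, b) ∈ E z := by
    refine pp_all hp (pp_all (hp.comp Primrec.fst) ?_)
    have F : Primrec fun v : (α × Pos n) × Pos n => v.1.1 := Primrec.fst.comp Primrec.fst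
    have A : Primrec fun v : (α × Pos n) × Pos n => v.1.2 := Primrec.snd.comp Primrec.fst
    have B : Primrec fun v : (α × Pos n) × Pos n => v.2 := Primrec.snd
    exact pp_imp (d0_primrec (hW.comp F) A B) (pp_mem (Primrec.pair A B) (hE.comp F))
  have c2 : PrimrecPred fun z => ∀ a ∈ posn (W z), ∀ b ∈ posn (W z), ∀ c ∈ posn (W z),
      ∀ d ∈ posn (W z), (a, b) ∈ E z → (b, c) ∈ E z → (c, d) ∈ E z → c.1 = bar b.1 →
        (a, d) ∈ E z := by
    refine pp_all hp (pp_all (hp.comp Primrec.fst) (pp_all (hp.comp (Primrec.fst.comp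
      Primrec.fst)) (pp_all (hp.comp (Primrec.fst.comp (Primrec.fst.comp Primrec.fst))) ?_)))
    have F : Primrec fun v : (((α × Pos n) × Pos n) × Pos n) × Pos n => v.1.1.1.1 :=
      Primrec.fst.comp (Primrec.fst.comp (Primrec.fst.comp Primrec.fst))
    have A : Primrec fun v : (((α × Pos n) × Pos n) × Pos n) × Pos n => v.1.1.1.2 :=
      Primrec.snd.comp (Primrec.fst.comp (Primrec.fst.comp Primrec.fst))
    have B : Primrec fun v : (((α × Pos n) × Pos n) × Pos n) × Pos n => v.1.1.2 :=
      Primrec.snd.comp (Primrec.fst.comp Primrec.fst)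
    have C : Primrec fun v : (((α × Pos n) × Pos n) × Pos n) × Pos n => v.1.2 :=
      Primrec.snd.comp Primrec.fst
    have D : Primrec fun v : (((α × Pos n) × Pos n) × Pos n) × Pos n => v.2 := Primrec.snd
    exact pp_imp (pp_mem (Primrec.pair A B) (hE.comp F)) (pp_imp
      (pp_mem (Primrec.pair B C) (hE.comp F)) (pp_imp (pp_mem (Primrec.pair C D) (hE.comp F))
        (pp_imp (pp_eq (Primrec.fst.comp C) (bar_primrec.comp (Primrec.fst.comp B)))
          (pp_mem (Primrec.pair A D) (hE.comp F)))))
  have c3 : PrimrecPred fun z => E z ∈ L z := pp_mem hE hL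
  have c4 : PrimrecPred fun z => ∀ R ∈ L z, ∀ m ∈ moves n, ∃ R' ∈ L z, ∀ a ∈ posn (W z),
      ∀ b ∈ posn (W z), mvL (W z) m R a b → (a, b) ∈ R' := by
    refine pp_all hL (pp_all (Primrec.const (moves n)) (pp_ex (hL.comp (Primrec.fst.comp
      Primrec.fst)) (pp_all (hp.comp (Primrec.fst.comp (Primrec.fst.comp Primrec.fst)))
        (pp_all (hp.comp (Primrec.fst.comp (Primrec.fst.comp (Primrec.fst.comp
          Primrec.fst)))) ?_))))
    have F : Primrec fun v : ((((α × List (Pos n × Pos n)) × (List (Ltr n) × Ltr n)) ×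
        List (Pos n × Pos n)) × Pos n) × Pos n => v.1.1.1.1.1 :=
      Primrec.fst.comp (Primrec.fst.comp (Primrec.fst.comp (Primrec.fst.comp Primrec.fst)))
    have R : Primrec fun v : ((((α × List (Pos n × Pos n)) × (List (Ltr n) × Ltr n)) ×
        List (Pos n × Pos n)) × Pos n) × Pos n => v.1.1.1.1.2 :=
      Primrec.snd.comp (Primrec.fst.comp (Primrec.fst.comp (Primrec.fst.comp Primrec.fst)))
    have M : Primrec fun v : ((((α × List (Pos n × Pos n)) × (List (Ltr n) × Ltr n)) ×
        List (Pos n × Pos n)) × Pos n) × Pos n => v.1.1.1.2 :=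
      Primrec.snd.comp (Primrec.fst.comp (Primrec.fst.comp Primrec.fst))
    have R' : Primrec fun v : ((((α × List (Pos n × Pos n)) × (List (Ltr n) × Ltr n)) ×
        List (Pos n × Pos n)) × Pos n) × Pos n => v.1.1.2 :=
      Primrec.snd.comp (Primrec.fst.comp Primrec.fst)
    have A : Primrec fun v : ((((α × List (Pos n × Pos n)) × (List (Ltr n) × Ltr n)) ×
        List (Pos n × Pos n)) × Pos n) × Pos n => v.1.2 := Primrec.snd.comp Primrec.fst
    have B : Primrec fun v : ((((α × List (Pos n × Pos n)) × (List (Ltr n) × Ltr n)) ×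
        List (Pos n × Pos n)) × Pos n) × Pos n => v.2 := Primrec.snd
    exact pp_imp (mvL_primrec (hW.comp F) M R A B) (pp_mem (Primrec.pair A B) R')
  have c5 : PrimrecPred fun z => ∀ R ∈ L z, ∀ a ∈ posn (W z),
      a ∉ walk (W z) R a.1 a (k z) := by
    refine pp_all hL (pp_all (hp.comp Primrec.fst) ?_)
    have F : Primrec fun v : (α × List (Pos n × Pos n)) × Pos n => v.1.1 :=
      Primrec.fst.comp Primrec.fst
    have R : Primrec fun v : (α × List (Pos n × Pos n)) × Pos n => v.1.2 :=
      Primrec.snd.comp Primrec.fst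
    have A : Primrec fun v : (α × List (Pos n × Pos n)) × Pos n => v.2 := Primrec.snd
    exact (pp_mem A (walk_primrec (hW.comp F) R (Primrec.fst.comp A) A (hk.comp F))).not
  exact (c1.and (c2.and (c3.and (c4.and c5)))).of_eq fun z =>
    ⟨fun h => ⟨h.1, h.2.1, h.2.2.1, h.2.2.2.1, h.2.2.2.2⟩,
      fun h => ⟨h.d0, h.cancel, h.mem, h.closed, h.noLoop⟩⟩

theorem chk_primrec (n : ℕ) :
    PrimrecPred (fun z : (List (Word n) × ℕ) ×
      (List (Pos n × Pos n) × List (List (Pos n × Pos n))) =>
        Chk (sym z.1.1) z.1.2 z.2.1 z.2.2) :=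
  chk_primrec' (sym_primrec.comp (Primrec.fst.comp Primrec.fst))
    (Primrec.snd.comp Primrec.fst) (Primrec.fst.comp Primrec.snd)
    (Primrec.snd.comp Primrec.snd)

end WPP
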