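import Pool.Agent.Lib.WPP_F1

/-! PROJECT WPP, row F2: the positive certificate is primitive recursive -/

namespace WPP

open FreeGroup List

theorem reduce_primrec (n : ℕ) : Primrec (FreeGroup.reduce : Word n → Word n) := by
  have hc : Primrec₂ fun (z : Ltr n × Word n) (q : Ltr n × Word n) =>
      if z.1.1 = q.1.1 ∧ z.1.2 = !q.1.2 then q.2 else z.1 :: q.1 :: q.2 := by
    refine Primrec.ite ?_ ?_ ?_
    · refine (pp_eq ?_ ?_).and (pp_eq ?_ ?_)
      · exact Primrec.fst.comp (Primrec.fst.comp Primrec.fst)
      · exact Primrec.fst.comp (Primrec.fst.comp Primrec.snd)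
      · exact Primrec.snd.comp (Primrec.fst.comp Primrec.fst)
      · exact Primrec.not.comp (Primrec.snd.comp (Primrec.fst.comp Primrec.snd))
    · exact Primrec.snd.comp Primrec.snd
    · exact Primrec.list_cons.comp (Primrec.fst.comp Primrec.fst)
        (Primrec.list_cons.comp (Primrec.fst.comp Primrec.snd) (Primrec.snd.comp Primrec.snd))
  have h1 : Primrec fun z : Ltr n × Word n =>
      List.casesOn (motive := fun _ => Word n) z.2 [z.1] fun a l =>
        if z.1.1 = a.1 ∧ z.1.2 = !a.2 then l else z.1 :: a :: l :=
    Primrec.list_casesOn Primrec.snd (Primrec.list_cons.comp Primrec.fst (Primrec.const [])) hc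
  have h1' : Primrec₂ fun (_ : Word n) (z : Ltr n × Word n) =>
      List.casesOn (motive := fun _ => Word n) z.2 [z.1] fun a l =>
        if z.1.1 = a.1 ∧ z.1.2 = !a.2 then l else z.1 :: a :: l := h1.comp Primrec.snd
  have h2 : Primrec fun w : Word n => w.foldr (fun b s =>
      List.casesOn (motive := fun _ => Word n) s [b] fun a l =>
        if b.1 = a.1 ∧ b.2 = !a.2 then l else b :: a :: l) [] :=
    Primrec.list_foldr Primrec.id (Primrec.const []) h1'
  refine h2.of_eq fun w => ?_
  induction w with
  | nil => rfl
  | cons b t ih =>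
    rw [List.foldr_cons, ih]
    rfl

section

variable {α : Type} [Primcodable α]

theorem pp_bif {β : Type} [Primcodable β] {c : α → Bool} {f g : α → β} (hc : Primrec c)
    (hf : Primrec f) (hg : Primrec g) : Primrec fun a => bif c a then f a else g a :=
  Primrec.cond hc hf hg

theorem subst_primrec {n : ℕ} {us : α → List (Word n)} {w : α → Word n} (hu : Primrec us)
    (hw : Primrec w) : Primrec fun z => subst (us z) (w z) := by
  refine Primrec.list_flatMap hw ?_
  have hv : Primrec fun v : α × Ltr n => v.2.1.1 := by
    have : Primrec (fun y : Ltr n => y.1.1) := Primrec.dom_finite _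
    exact this.comp Primrec.snd
  have hg : Primrec fun v : α × Ltr n => (us v.1).getD v.2.1.1 [] :=
    (Primrec.list_getD []).comp (hu.comp Primrec.fst) hv
  exact pp_bif (Primrec.snd.comp Primrec.snd) hg (invRev_primrec.comp hg)

theorem replicate_primrec {β : Type} [Primcodable β] {k : α → ℕ} {f : α → β} (hk : Primrec k)
    (hf : Primrec f) : Primrec fun a => List.replicate (k a) (f a) :=
  (Primrec.list_map (g := fun a _ => f a) (Primrec.list_range.comp hk)
    (hf.comp Primrec.fst)).of_eq fun a => by
    simp

end

theorem chkPos_primrec (n : ℕ) :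
    PrimrecPred (fun z : (List (Word n) × ℕ) ×
      (List (Word n) × List (Word n) × Fin n × List (ℕ × Bool)) =>
        ChkPos z.1.1 z.1.2 z.2.1 z.2.2.1 z.2.2.2.1 z.2.2.2.2) := by
  have hws : Primrec fun z : (List (Word n) × ℕ) ×
      (List (Word n) × List (Word n) × Fin n × List (ℕ × Bool)) => z.1.1 :=
    Primrec.fst.comp Primrec.fst
  have hk : Primrec fun z : (List (Word n) × ℕ) ×
      (List (Word n) × List (Word n) × Fin n × List (ℕ × Bool)) => z.1.2 :=
    Primrec.snd.comp Primrec.fst
  have hus : Primrec fun z : (List (Word n) × ℕ) ×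
      (List (Word n) × List (Word n) × Fin n × List (ℕ × Bool)) => z.2.1 :=
    Primrec.fst.comp Primrec.snd
  have hvs : Primrec fun z : (List (Word n) × ℕ) ×
      (List (Word n) × List (Word n) × Fin n × List (ℕ × Bool)) => z.2.2.1 :=
    Primrec.fst.comp (Primrec.snd.comp Primrec.snd)
  have hi : Primrec fun z : (List (Word n) × ℕ) ×
      (List (Word n) × List (Word n) × Fin n × List (ℕ × Bool)) => z.2.2.2.1 :=
    Primrec.fst.comp (Primrec.snd.comp (Primrec.snd.comp Primrec.snd))
  have he : Primrec fun z : (List (Word n) × ℕ) ×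
      (List (Word n) × List (Word n) × Fin n × List (ℕ × Bool)) => z.2.2.2.2 :=
    Primrec.snd.comp (Primrec.snd.comp (Primrec.snd.comp Primrec.snd))
  have key : ∀ {us vs : (List (Word n) × ℕ) ×
      (List (Word n) × List (Word n) × Fin n × List (ℕ × Bool)) → List (Word n)},
      Primrec us → Primrec vs → PrimrecPred fun z =>
        ∀ j ∈ List.finRange n, FreeGroup.reduce (subst (us z) ((vs z).getD j.1 [])) =
          [((j, true) : Ltr n)] := by
    intro us vs hu hv
    refine pp_all (Primrec.const (List.finRange n)) ?_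
    have hj : Primrec fun v : ((List (Word n) × ℕ) ×
      (List (Word n) × List (Word n) × Fin n × List (ℕ × Bool))) × Fin n => v.2.1 := by
      have : Primrec (fun y : Fin n => y.1) := Primrec.dom_finite _
      exact this.comp Primrec.snd
    have hg : Primrec fun v : ((List (Word n) × ℕ) ×
      (List (Word n) × List (Word n) × Fin n × List (ℕ × Bool))) × Fin n =>
        (vs v.1).getD v.2.1 [] :=
      (Primrec.list_getD []).comp (hv.comp Primrec.fst) hj
    refine pp_eq ((reduce_primrec n).comp (subst_primrec (hu.comp Primrec.fst) hg)) ?_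
    exact Primrec.list_cons.comp (Primrec.pair Primrec.snd (Primrec.const true))
      (Primrec.const [])
  have c3 : PrimrecPred fun z : (List (Word n) × ℕ) ×
      (List (Word n) × List (Word n) × Fin n × List (ℕ × Bool)) =>
      FreeGroup.reduce (subst z.2.1 (List.replicate z.1.2 ((z.2.2.2.1, true) : Ltr n))) =
        FreeGroup.reduce (z.2.2.2.2.flatMap fun q =>
          bif q.2 then z.1.1.getD q.1 [] else FreeGroup.invRev (z.1.1.getD q.1 [])) := by
    refine pp_eq ((reduce_primrec n).comp (subst_primrec hus (replicate_primrec hk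
      (Primrec.pair hi (Primrec.const true))))) ((reduce_primrec n).comp
        (Primrec.list_flatMap he ?_))
    have hg : Primrec fun v : ((List (Word n) × ℕ) ×
      (List (Word n) × List (Word n) × Fin n × List (ℕ × Bool))) × (ℕ × Bool) =>
        v.1.1.1.getD v.2.1 [] :=
      (Primrec.list_getD []).comp (hws.comp Primrec.fst) (Primrec.fst.comp Primrec.snd)
    exact pp_bif (Primrec.snd.comp Primrec.snd) hg (invRev_primrec.comp hg)
  exact ((key hus hvs).and ((key hvs hus).and c3)).of_eq fun z =>
    ⟨fun h => ⟨fun j => h.1 j (List.mem_finRange j), fun j => h.2.1 j (List.mem_finRange j),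
      h.2.2⟩, fun h => ⟨fun j _ => h.left j, fun j _ => h.right j, h.eq⟩⟩

end WPP
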