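import Pool.Agent.Lib.WPP_Base

/-! PROJECT WPP, row F4: a predicate with primitive recursive certificates for both answers is
computable -/

namespace WPP

theorem f4_re {α β : Type} [Primcodable α] [Primcodable β]
    (P : α → Prop) (C : α × β → Prop) (h : PrimrecPred C)
    (hP : ∀ a, P a ↔ ∃ b, C (a, b)) : REPred P := by
  classical
  -- total function: does `m` code a certificate?
  have h1 : Primrec (fun z : α × ℕ =>
      ((Encodable.decode (α := β) z.2).bind
        (fun b => if C (z.1, b) then some b else none) : Option β)) := by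
    refine Primrec.option_bind (Primrec.decode.comp Primrec.snd) ?_
    refine Primrec.ite (c := fun q : (α × ℕ) × β => C (q.1.1, q.2)) ?_ ?_ ?_
    · exact h.comp (Primrec.pair (Primrec.fst.comp Primrec.fst) Primrec.snd)
    · exact Primrec.option_some.comp Primrec.snd
    · exact Primrec.const _
  have h2 : Partrec (fun a : α => Nat.rfindOpt (fun m =>
      ((Encodable.decode (α := β) m).bind
        (fun b => if C (a, b) then some b else none) : Option β))) :=
    Partrec.rfindOpt (h1.to_comp : Computable₂ (fun (a : α) (m : ℕ) =>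
      ((Encodable.decode (α := β) m).bind
        (fun b => if C (a, b) then some b else none) : Option β)))
  refine h2.dom_re.of_eq ?_
  intro a
  rw [Nat.rfindOpt_dom, hP]
  constructor
  · rintro ⟨m, b, hb⟩
    rw [Option.mem_def, Option.bind_eq_some_iff] at hb
    obtain ⟨b', -, hb'⟩ := hb
    by_cases hc : C (a, b')
    · exact ⟨b', hc⟩
    · simp [hc] at hb'
  · rintro ⟨b, hb⟩
    refine ⟨Encodable.encode b, b, ?_⟩
    simp [hb]

theorem computablePred_of_certs {α β γ : Type} [Primcodable α] [Primcodable β] [Primcodable γ]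
    (P : α → Prop) (C₁ : α × β → Prop) (C₂ : α × γ → Prop) (h₁ : PrimrecPred C₁)
    (h₂ : PrimrecPred C₂) (hP : ∀ a, P a ↔ ∃ b, C₁ (a, b)) (hN : ∀ a, ¬ P a ↔ ∃ c, C₂ (a, c)) :
    ComputablePred P :=
  ComputablePred.computable_iff_re_compl_re'.2
    ⟨f4_re P C₁ h₁ hP, f4_re (fun a => ¬ P a) C₂ h₂ hN⟩

end WPP
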