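import Pool.Agent.Lib.WPP_GDef

/-! PROJECT WPP, row G1: the exponent sums find `k` -/

namespace WPP

open List

/-- exponent sum of `i` as a homomorphism -/
noncomputable def g1_E {n : ℕ} (i : Fin n) : FreeGroup (Fin n) →* Multiplicative ℤ :=
  FreeGroup.lift fun j => Multiplicative.ofAdd (if j = i then (1 : ℤ) else 0)

theorem g1_E_mk {n : ℕ} (i : Fin n) (w : Word n) :
    Multiplicative.toAdd (g1_E i (FreeGroup.mk w)) = esum i w := by
  induction w with
  | nil => simp [g1_E, esum]
  | cons y t ih =>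
    have h1 : FreeGroup.mk (y :: t) = FreeGroup.mk [y] * FreeGroup.mk t := by
      rw [FreeGroup.mul_mk]; rfl
    rw [h1, _root_.map_mul, toAdd_mul, ih]
    obtain ⟨j, b⟩ := y
    have h2 : Multiplicative.toAdd (g1_E i (FreeGroup.mk [(j, b)])) =
        (if j = i then (if b then (1 : ℤ) else -1) else 0) := by
      cases b <;> by_cases hj : j = i <;> simp [g1_E, FreeGroup.lift_mk, hj]
    rw [h2]
    simp [esum]

/-- a homomorphism to the integers is a combination of exponent sums -/
theorem g1_comb {n : ℕ} (ψ : FreeGroup (Fin n) →* Multiplicative ℤ) (g : FreeGroup (Fin n)) :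
    Multiplicative.toAdd (ψ g) =
      ∑ i, Multiplicative.toAdd (ψ (FreeGroup.of i)) * Multiplicative.toAdd (g1_E i g) := by
  induction g using FreeGroup.induction_on with
  | C1 => simp
  | of j =>
    rw [Finset.sum_eq_single j]
    · simp [g1_E]
    · intro i _ hi
      simp [g1_E, Ne.symm hi]
    · intro h; exact absurd (Finset.mem_univ j) h
  | inv_of j ih =>
    rw [_root_.map_inv, toAdd_inv, ih, ← Finset.sum_neg_distrib]
    refine Finset.sum_congr rfl fun i _ => ?_
    rw [_root_.map_inv, toAdd_inv]; ring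
  | mul x y hx hy =>
    rw [_root_.map_mul, toAdd_mul, hx, hy, ← Finset.sum_add_distrib]
    refine Finset.sum_congr rfl fun i _ => ?_
    rw [_root_.map_mul, toAdd_mul]; ring

theorem g1_pow {n : ℕ} (ψ : FreeGroup (Fin n) →* Multiplicative ℤ) (g : FreeGroup (Fin n))
    (k : ℕ) : Multiplicative.toAdd (ψ (g ^ k)) = k * Multiplicative.toAdd (ψ g) := by
  rw [_root_.map_pow, toAdd_pow]; simp

/-- for a primitive element some homomorphism to the integers has the value one -/
theorem g1_one {n : ℕ} {p : FreeGroup (Fin n)} (hp : Prim p) :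
    ∃ ψ : FreeGroup (Fin n) →* Multiplicative ℤ, Multiplicative.toAdd (ψ p) = 1 := by
  obtain ⟨φ, i, rfl⟩ := hp
  refine ⟨(g1_E i).comp φ.symm.toMonoidHom, ?_⟩
  simp [g1_E]

theorem g1_inv {n : ℕ} {p : FreeGroup (Fin n)} (hp : Prim p) : Prim p⁻¹ := by
  obtain ⟨φ, i, rfl⟩ := hp
  let f : FreeGroup (Fin n) →* FreeGroup (Fin n) :=
    FreeGroup.lift fun j => if j = i then (FreeGroup.of j)⁻¹ else FreeGroup.of j
  have hf : f.comp f = MonoidHom.id _ := by
    refine FreeGroup.ext_hom _ _ fun j => ?_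
    by_cases hj : j = i
    · subst hj; simp [f]
    · simp [f, hj]
  have hf' : ∀ g, f (f g) = g := fun g => DFunLike.congr_fun hf g
  let e : FreeGroup (Fin n) ≃* FreeGroup (Fin n) :=
    { toFun := f, invFun := f, left_inv := hf', right_inv := hf', map_mul' := f.map_mul }
  refine ⟨e.trans φ, i, ?_⟩
  have : e (FreeGroup.of i) = (FreeGroup.of i)⁻¹ := by
    change f (FreeGroup.of i) = _
    simp [f]
  rw [MulEquiv.trans_apply, this, _root_.map_inv]

theorem g1_abs {n : ℕ} (i : Fin n) (w : Word n) : |esum i w| ≤ w.length := by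
  induction w with
  | nil => simp [esum]
  | cons y t ih =>
    have h1 : esum i (y :: t) = (if y.1 = i then (if y.2 then (1 : ℤ) else -1) else 0) + esum i t := by
      simp [esum]
    rw [h1]
    have h2 : |(if y.1 = i then (if y.2 then (1 : ℤ) else -1) else 0)| ≤ 1 := by
      split_ifs <;> simp
    calc |(if y.1 = i then (if y.2 then (1 : ℤ) else -1) else 0) + esum i t|
        ≤ |(if y.1 = i then (if y.2 then (1 : ℤ) else -1) else 0)| + |esum i t| := abs_add_le _ _
      _ ≤ 1 + t.length := add_le_add h2 ih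
      _ = ((y :: t).length : ℤ) := by push_cast [List.length_cons]; ring

theorem cont_spec {n : ℕ} (w : Word n) (h1 : FreeGroup.mk w ≠ 1) :
    1 ≤ cont w ∧
    (∀ (p : FreeGroup (Fin n)) (k : ℕ), Prim p → FreeGroup.mk w = p ^ k → k = cont w) ∧
    (Q [w] (cont w) → ∃ p : FreeGroup (Fin n), Prim p ∧ FreeGroup.mk w = p ^ cont w) := by
  have hw : w ≠ [] := by
    rintro rfl
    exact h1 rfl
  have hlen : 1 ≤ w.length := List.length_pos_iff.2 hw
  have hc1 : 1 ≤ cont w := by
    unfold cont
    exact Nat.le_findGreatest hlen (fun i => by simp)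
  have hcl : cont w ≤ w.length := Nat.findGreatest_le _
  have hcd : ∀ i : Fin n, ((cont w : ℕ) : ℤ) ∣ esum i w :=
    Nat.findGreatest_spec (P := fun k => ∀ i : Fin n, (k : ℤ) ∣ esum i w) hlen
      (fun i => by simp)
  refine ⟨hc1, ?_, ?_⟩
  · intro p k hp hk
    obtain ⟨ψ, hψ⟩ := g1_one hp
    have hk0 : k ≠ 0 := by
      rintro rfl
      exact h1 (by rw [hk, pow_zero])
    -- divisors of `k` are the common divisors of the exponent sums
    have hdiv : ∀ m : ℕ, (∀ i : Fin n, (m : ℤ) ∣ esum i w) → m ∣ k := by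
      intro m hm
      have h2 : ((k : ℕ) : ℤ) = Multiplicative.toAdd (ψ (FreeGroup.mk w)) := by
        rw [hk, g1_pow, hψ, mul_one]
      have h3 : (m : ℤ) ∣ (k : ℤ) := by
        rw [h2, g1_comb]
        refine Finset.dvd_sum fun i _ => ?_
        rw [g1_E_mk]
        exact Dvd.dvd.mul_left (hm i) _
      exact_mod_cast h3
    have hkd : ∀ i : Fin n, (k : ℤ) ∣ esum i w := by
      intro i
      rw [← g1_E_mk, hk, g1_pow]
      exact dvd_mul_right _ _
    have hkl : k ≤ w.length := by
      -- some exponent sum of `p` is not zero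
      have h4 : ∃ i : Fin n, esum i w ≠ 0 := by
        by_contra hcon
        push Not at hcon
        have h5 : ((k : ℕ) : ℤ) = Multiplicative.toAdd (ψ (FreeGroup.mk w)) := by
          rw [hk, g1_pow, hψ, mul_one]
        rw [g1_comb] at h5
        have h6 : ((k : ℕ) : ℤ) = 0 := by
          rw [h5]
          refine Finset.sum_eq_zero fun i _ => ?_
          rw [g1_E_mk, hcon i, mul_zero]
        exact hk0 (by exact_mod_cast h6)
      obtain ⟨i, hi⟩ := h4
      have h7 : (k : ℤ) ≤ |esum i w| :=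
        Int.le_of_dvd (abs_pos.2 hi) ((dvd_abs _ _).2 (hkd i))
      exact_mod_cast h7.trans (g1_abs i w)
    have h8 : k ≤ cont w := Nat.le_findGreatest hkl hkd
    have h9 : cont w ≤ k := Nat.le_of_dvd (Nat.pos_of_ne_zero hk0) (hdiv _ hcd)
    exact le_antisymm h8 h9
  · rintro ⟨q, hq, hmem⟩
    have hgen : gen [w] = Subgroup.zpowers (FreeGroup.mk w) := by
      rw [gen, Subgroup.zpowers_eq_closure]
      congr 1
      ext g
      simp
    rw [hgen, Subgroup.mem_zpowers_iff] at hmem
    obtain ⟨m, hm⟩ := hmem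
    obtain ⟨ψ, hψ⟩ := g1_one hq
    -- exponent sums
    choose s hs using hcd
    have hc0 : ((cont w : ℕ) : ℤ) ≠ 0 := by
      have : cont w ≠ 0 := by omega
      exact_mod_cast this
    have h2 : ∀ i, Multiplicative.toAdd (g1_E i q) = m * s i := by
      intro i
      have h3 : Multiplicative.toAdd (g1_E i (q ^ cont w)) =
          m * esum i w := by
        rw [← hm, _root_.map_zpow, toAdd_zpow, g1_E_mk]; simp
      rw [g1_pow, hs i] at h3
      have h4 : ((cont w : ℕ) : ℤ) * Multiplicative.toAdd (g1_E i q) =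
          ((cont w : ℕ) : ℤ) * (m * s i) := by rw [h3]; ring
      exact mul_left_cancel₀ hc0 h4
    have h5 : (m : ℤ) ∣ 1 := by
      rw [← hψ, g1_comb]
      refine Finset.dvd_sum fun i _ => ?_
      rw [h2 i]
      exact Dvd.dvd.mul_left (dvd_mul_right _ _) _
    rcases Int.isUnit_iff.1 (isUnit_of_dvd_one h5) with h6 | h6
    · refine ⟨q, hq, ?_⟩
      rw [← hm, h6, zpow_one]
    · refine ⟨q⁻¹, g1_inv hq, ?_⟩
      rw [inv_pow, ← hm, h6, zpow_neg, zpow_one, inv_inv]

end WPP
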