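import Pool.Agent.Lib.WPP_GDef

/-! PROJECT WPP, row G2: `cont` is primitive recursive -/

namespace WPP

open List

/-- number of occurrences of a letter -/
def g2_cnt {n : ℕ} (w : Word n) (y : Ltr n) : ℕ := (w.filter fun a => decide (a = y)).length

theorem g2_esum {n : ℕ} (i : Fin n) (w : Word n) :
    esum i w = (g2_cnt w (i, true) : ℤ) - (g2_cnt w (i, false) : ℤ) := by
  induction w with
  | nil => simp [esum, g2_cnt]
  | cons y t ih =>
    have h1 : esum i (y :: t) =
        (if y.1 = i then (if y.2 then (1 : ℤ) else -1) else 0) + esum i t := by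
      simp [esum]
    rw [h1, ih]
    obtain ⟨j, b⟩ := y
    by_cases hj : j = i
    · subst hj
      cases b <;> simp [g2_cnt] <;> ring
    · simp [g2_cnt, hj]

theorem g2_cnt_primrec (n : ℕ) : Primrec₂ (fun (w : Word n) (y : Ltr n) => g2_cnt w y) := by
  have h1 : PrimrecRel (fun (a : Ltr n) (y : Ltr n) => a = y) := Primrec.eq
  have h2 : Primrec₂ (fun (w : Word n) (y : Ltr n) => w.filter fun a => decide (a = y)) :=
    h1.listFilter
  exact Primrec.list_length.comp₂ h2

theorem cont_primrec (n : ℕ) : Primrec (fun w : Word n => cont w) := by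
  have hR : PrimrecRel (fun (i : Fin n) (z : Word n × ℕ) =>
      g2_cnt z.1 (i, true) % z.2 = g2_cnt z.1 (i, false) % z.2) := by
    have hc : ∀ b : Bool, Primrec (fun q : Fin n × (Word n × ℕ) => g2_cnt q.2.1 (q.1, b)) := by
      intro b
      exact (g2_cnt_primrec n).comp (Primrec.fst.comp Primrec.snd)
        (Primrec.pair Primrec.fst (Primrec.const b))
    have hm : ∀ b : Bool, Primrec (fun q : Fin n × (Word n × ℕ) =>
        g2_cnt q.2.1 (q.1, b) % q.2.2) := by
      intro b
      exact Primrec.nat_mod.comp (hc b) (Primrec.snd.comp Primrec.snd)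
    exact Primrec.eq.comp (hm true) (hm false)
  have hL : PrimrecRel (fun (L : List (Fin n)) (z : Word n × ℕ) => ∀ i ∈ L,
      g2_cnt z.1 (i, true) % z.2 = g2_cnt z.1 (i, false) % z.2) := hR.forall_mem_list
  have hP : PrimrecRel (fun (w : Word n) (k : ℕ) => ∀ i : Fin n, (k : ℤ) ∣ esum i w) := by
    have h3 : PrimrecPred (fun z : Word n × ℕ => ∀ i ∈ List.finRange n,
        g2_cnt z.1 (i, true) % z.2 = g2_cnt z.1 (i, false) % z.2) :=
      hL.comp (Primrec.const (List.finRange n)) Primrec.id
    refine h3.of_eq ?_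
    rintro ⟨w, k⟩
    simp only [List.mem_finRange, forall_const]
    refine forall_congr' fun i => ?_
    rw [g2_esum]
    constructor
    · intro h
      exact (Nat.modEq_iff_dvd (n := k)).1 (show g2_cnt w (i, false) ≡ g2_cnt w (i, true) [MOD k]
        from h.symm)
    · intro h
      exact ((Nat.modEq_iff_dvd (n := k)).2 h).symm
  have h4 := Primrec.nat_findGreatest (Primrec.list_length (α := Ltr n)) hP
  refine h4.of_eq ?_
  intro w
  unfold cont
  congr 1

end WPP
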