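import Pool.Agent.Lib.WPP_E1
import Pool.Agent.Lib.WPP_E2
import Pool.Agent.Lib.WPP_F1
import Pool.Agent.Lib.WPP_F2
import Pool.Agent.Lib.WPP_F3
import Pool.Agent.Lib.WPP_F4
import Pool.Agent.Lib.WPP_G1
import Pool.Agent.Lib.WPP_G2

/-! PROJECT WPP, row G3: the decision procedure -/

namespace WPP

open FreeGroup List

theorem g3_comp {α β : Type} [Primcodable α] [Primcodable β] {p : β → Prop} {f : α → β}
    (hp : ComputablePred p) (hf : Computable f) : ComputablePred fun a => p (f a) := by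
  obtain ⟨g, hg, rfl⟩ := ComputablePred.computable_iff.1 hp
  exact ComputablePred.computable_iff.2 ⟨fun a => g (f a), hg.comp hf, rfl⟩

theorem g3_and {α : Type} [Primcodable α] {p q : α → Prop}
    (hp : ComputablePred p) (hq : ComputablePred q) : ComputablePred fun a => p a ∧ q a := by
  obtain ⟨f, hf, rfl⟩ := ComputablePred.computable_iff.1 hp
  obtain ⟨g, hg, rfl⟩ := ComputablePred.computable_iff.1 hq
  refine ComputablePred.computable_iff.2 ⟨fun a => f a && g a, ?_, ?_⟩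
  · exact Primrec.and.to_comp.comp hf hg
  · funext a
    simp

theorem g3_or {α : Type} [Primcodable α] {p q : α → Prop}
    (hp : ComputablePred p) (hq : ComputablePred q) : ComputablePred fun a => p a ∨ q a := by
  obtain ⟨f, hf, rfl⟩ := ComputablePred.computable_iff.1 hp
  obtain ⟨g, hg, rfl⟩ := ComputablePred.computable_iff.1 hq
  refine ComputablePred.computable_iff.2 ⟨fun a => f a || g a, ?_, ?_⟩
  · exact Primrec.or.to_comp.comp hf hg
  · funext a
    simp

/-- it is decidable whether the subgroup contains a `(k+1)`-st power of a primitive element -/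
theorem g3_Q (n : ℕ) : ComputablePred fun z : List (Word n) × ℕ => Q z.1 (z.2 + 1) := by
  have hm : Primrec fun z : List (Word n) × ℕ => (z.1, z.2 + 1) :=
    Primrec.pair Primrec.fst (Primrec.succ.comp Primrec.snd)
  refine computablePred_of_certs
    (β := List (Word n) × List (Word n) × Fin n × List (ℕ × Bool))
    (γ := List (Pos n × Pos n) × List (List (Pos n × Pos n))) _
    (fun z => ChkPos z.1.1 (z.1.2 + 1) z.2.1 z.2.2.1 z.2.2.2.1 z.2.2.2.2)
    (fun z => Chk (sym z.1.1) (z.1.2 + 1) z.2.1 z.2.2) ?_ ?_ ?_ ?_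
  · exact (chkPos_primrec n).comp (Primrec.pair (hm.comp Primrec.fst) Primrec.snd)
  · exact (chk_primrec n).comp (Primrec.pair (hm.comp Primrec.fst) Primrec.snd)
  · intro a
    rw [Q_iff_chkPos]
    constructor
    · rintro ⟨us, vs, i, e, h⟩
      exact ⟨(us, vs, i, e), h⟩
    · rintro ⟨⟨us, vs, i, e⟩, h⟩
      exact ⟨us, vs, i, e, h⟩
  · intro a
    constructor
    · intro h
      obtain ⟨E, L, h⟩ := exists_chk a.1 (a.2 + 1) (by omega) h
      exact ⟨(E, L), h⟩
    · rintro ⟨⟨E, L⟩, h⟩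
      exact chk_not_Q a.1 (a.2 + 1) (by omega) E L h

theorem g3_swap {n : ℕ} (i j : Fin n) :
    ∃ φ : FreeGroup (Fin n) ≃* FreeGroup (Fin n), φ (FreeGroup.of i) = FreeGroup.of j := by
  refine ⟨FreeGroup.freeGroupCongr (Equiv.swap i j), ?_⟩
  simp

theorem g3_mk_iff {n : ℕ} (w : Word n) : FreeGroup.mk w = 1 ↔ FreeGroup.reduce w = [] := by
  rw [← FreeGroup.toWord_mk, FreeGroup.toWord_eq_nil_iff]

theorem g3_first {n : ℕ} (w : Word n) (h1 : FreeGroup.mk w ≠ 1) :
    (∃ (ψ : FreeGroup (Fin n) ≃* FreeGroup (Fin n)) (i : Fin n) (k : ℕ),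
        FreeGroup.mk w = ψ (FreeGroup.of i) ^ k) ↔ Q [w] (cont w) := by
  obtain ⟨-, h3, h4⟩ := cont_spec w h1
  constructor
  · rintro ⟨ψ, i, k, h⟩
    have hk := h3 (ψ (FreeGroup.of i)) k ⟨ψ, i, rfl⟩ h
    refine ⟨ψ (FreeGroup.of i), ⟨ψ, i, rfl⟩, ?_⟩
    rw [← hk, ← h]
    exact Subgroup.subset_closure ⟨w, by simp, rfl⟩
  · intro h
    obtain ⟨p, ⟨ψ, i, rfl⟩, h⟩ := h4 h
    exact ⟨ψ, i, cont w, h⟩

theorem g3_second {n : ℕ} (ws : List (Word n)) (w : Word n) (h1 : FreeGroup.mk w ≠ 1) :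
    ((∃ (ψ : FreeGroup (Fin n) ≃* FreeGroup (Fin n)) (i : Fin n) (k : ℕ),
        FreeGroup.mk w = ψ (FreeGroup.of i) ^ k) ∧
      ∃ φ : FreeGroup (Fin n) ≃* FreeGroup (Fin n), φ (FreeGroup.mk w) ∈ gen ws) ↔
      Q [w] (cont w) ∧ Q ws (cont w) := by
  rw [g3_first w h1]
  refine and_congr_right fun hq => ?_
  obtain ⟨p, ⟨ψ, i, rfl⟩, hp⟩ := (cont_spec w h1).2.2 hq
  constructor
  · rintro ⟨φ, hφ⟩
    refine ⟨φ (ψ (FreeGroup.of i)), ⟨ψ.trans φ, i, rfl⟩, ?_⟩
    rw [← map_pow, ← hp]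
    exact hφ
  · rintro ⟨q, ⟨φ, j, rfl⟩, hq⟩
    obtain ⟨σ, hσ⟩ := g3_swap i j
    refine ⟨(ψ.symm.trans σ).trans φ, ?_⟩
    have e : ((ψ.symm.trans σ).trans φ) (FreeGroup.mk w) = φ (FreeGroup.of j) ^ cont w := by
      rw [hp, map_pow]
      congr 1
      change φ (σ (ψ.symm (ψ (FreeGroup.of i)))) = _
      rw [ψ.symm_apply_apply, hσ]
    rw [e]
    exact hq

theorem g3_red (n : ℕ) : ComputablePred fun w : Word n => FreeGroup.reduce w = [] :=
  PrimrecPred.computablePred (Primrec.eq.comp (reduce_primrec n) (Primrec.const []))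

theorem g3_main (n : ℕ) :
    ComputablePred (fun w : Word n =>
      ∃ (ψ : FreeGroup (Fin n) ≃* FreeGroup (Fin n)) (i : Fin n) (k : ℕ),
        FreeGroup.mk w = ψ (FreeGroup.of i) ^ k) ∧
    ComputablePred (fun z : List (Word n) × Word n =>
      (∃ (ψ : FreeGroup (Fin n) ≃* FreeGroup (Fin n)) (i : Fin n) (k : ℕ),
        FreeGroup.mk z.2 = ψ (FreeGroup.of i) ^ k) ∧
      ∃ φ : FreeGroup (Fin n) ≃* FreeGroup (Fin n), φ (FreeGroup.mk z.2) ∈ gen z.1) := by
  have hn : ∀ (α : Type) [Primcodable α], ComputablePred fun _ : α => 0 < n := fun α _ =>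
    PrimrecPred.computablePred (Primrec.eq.comp (Primrec.const (decide (0 < n)))
      (Primrec.const true)) |>.of_eq fun _ => by simp
  have hpred : Primrec fun w : Word n => cont w - 1 := Primrec.pred.comp (cont_primrec n)
  have hA : ComputablePred fun w : Word n => Q [w] (cont w - 1 + 1) :=
    g3_comp (f := fun w : Word n => ([w], cont w - 1)) (g3_Q n)
      (Primrec.pair (Primrec.list_cons.comp Primrec.id (Primrec.const [])) hpred).to_comp
  have hB : ComputablePred fun z : List (Word n) × Word n => Q z.1 (cont z.2 - 1 + 1) :=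
    g3_comp (f := fun z : List (Word n) × Word n => (z.1, cont z.2 - 1)) (g3_Q n)
      (Primrec.pair Primrec.fst (hpred.comp Primrec.snd)).to_comp
  have h0 : ∀ w : Word n, FreeGroup.mk w = 1 →
      ((∃ (ψ : FreeGroup (Fin n) ≃* FreeGroup (Fin n)) (i : Fin n) (k : ℕ),
        FreeGroup.mk w = ψ (FreeGroup.of i) ^ k) ↔ 0 < n) := by
    intro w hw
    constructor
    · rintro ⟨-, i, -⟩
      exact i.pos
    · intro h
      exact ⟨MulEquiv.refl _, ⟨0, h⟩, 0, by rw [hw, pow_zero]⟩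
  constructor
  · refine (g3_or (g3_and (g3_red n) (hn _)) (g3_and (g3_red n).not hA)).of_eq fun w => ?_
    by_cases hw : FreeGroup.mk w = 1
    · rw [h0 w hw]
      have := (g3_mk_iff w).1 hw
      simp [this]
    · have h1 := (cont_spec w hw).1
      rw [g3_first w hw, Nat.sub_add_cancel h1]
      have : ¬ FreeGroup.reduce w = [] := fun h => hw ((g3_mk_iff w).2 h)
      simp [this]
  · have hr : ComputablePred fun z : List (Word n) × Word n => FreeGroup.reduce z.2 = [] :=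
      g3_comp (g3_red n) Computable.snd
    refine (g3_or (g3_and hr (hn _)) (g3_and hr.not
      (g3_and (g3_comp hA Computable.snd) hB))).of_eq fun z => ?_
    by_cases hw : FreeGroup.mk z.2 = 1
    · rw [h0 z.2 hw]
      have h2 := (g3_mk_iff z.2).1 hw
      have h3 : ∃ φ : FreeGroup (Fin n) ≃* FreeGroup (Fin n),
          φ (FreeGroup.mk z.2) ∈ gen z.1 := by
        refine ⟨MulEquiv.refl _, ?_⟩
        rw [hw]
        exact (gen z.1).one_mem
      simp [h2, h3]
    · have h1 := (cont_spec z.2 hw).1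
      rw [g3_second z.1 z.2 hw, Nat.sub_add_cancel h1]
      have : ¬ FreeGroup.reduce z.2 = [] := fun h => hw ((g3_mk_iff z.2).2 h)
      simp [this]

end WPP
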