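import Pool.Agent.Lib.WPP_Base

/-! PROJECT WPP: exponent sums -/

namespace WPP

open FreeGroup List

/-- signed exponent sum of the basis letter `i` -/
def esum {n : ℕ} (i : Fin n) (w : Word n) : ℤ :=
  (w.map fun y => if y.1 = i then (if y.2 then (1 : ℤ) else -1) else 0).sum

/-- greatest common divisor of the exponent sums (the length of the word if all vanish) -/
def cont {n : ℕ} (w : Word n) : ℕ :=
  Nat.findGreatest (fun k => ∀ i : Fin n, (k : ℤ) ∣ esum i w) w.length

end WPP
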