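import Pool.Agent.Lib.WPQ_SX

/-!
# PROJECT WPQ (MP_2e2606_al): a word without cut pair in the orbit of a quadratic word is quadratic
-/

namespace WPQ

open WPP FreeGroup List Filter

variable {n : ℕ}

/-- the inner end of a crossing line, seen from the first vertex of the half space -/
theorem inner_ray (p : Word n) (hu : Function.Injective fun m : ℕ => FreeGroup.mk p ^ m)
    (x : Ltr n) (g : FreeGroup (Fin n)) (hg : cr (FreeGroup.mk p) g (Cyl [x])) :
    ∃ q, Rt p q ∧ q.getLast? = some x ∧ ∀ B : Set (FreeGroup (Fin n)), AI B →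
      (InEnd (FreeGroup.mk p) g (Cyl [x]) B ↔ en (FreeGroup.mk q) (FreeGroup.mk [x]) B) := by
  have hAI : AI (Cyl ([] ++ [x])) := ai_Cyl _ (by simp)
  have key : ∀ (p' : Word n) (hu' : Function.Injective fun m : ℕ => FreeGroup.mk p' ^ m),
      en (FreeGroup.mk p') g (Cyl ([] ++ [x])) → en (FreeGroup.mk p')⁻¹ g (Cyl ([] ++ [x]))ᶜ →
      ∃ q, q ~r p' ∧ q.getLast? = some x ∧ ∀ B : Set (FreeGroup (Fin n)), AI B →
        (en (FreeGroup.mk p') g B ↔ en (FreeGroup.mk q) (FreeGroup.mk [x]) B) := by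
    intro p' hu' h1 h2
    obtain ⟨m, t₁, t₂, hp, ht⟩ := line_enter p' [] x g h1 h2
    rw [FreeGroup.toWord_eq_nil_iff] at ht
    refine ⟨t₂ ++ (t₁ ++ [x]), ?_, by simp, fun B hB => ?_⟩
    · rw [hp, show t₁ ++ x :: t₂ = (t₁ ++ [x]) ++ t₂ by simp]
      exact List.isRotated_append
    · have h3 : FreeGroup.mk (t₂ ++ (t₁ ++ [x])) = (FreeGroup.mk (t₁ ++ [x]))⁻¹ *
          FreeGroup.mk p' * FreeGroup.mk (t₁ ++ [x]) := by
        conv_rhs => rw [hp, show t₁ ++ x :: t₂ = (t₁ ++ [x]) ++ t₂ by simp]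
        rw [← FreeGroup.mul_mk, ← FreeGroup.mul_mk (L₁ := t₁ ++ [x]) (L₂ := t₂)]
        group
      have h4 : FreeGroup.mk [x] = g * FreeGroup.mk p' ^ m * FreeGroup.mk (t₁ ++ [x]) := by
        rw [q_mk_snoc, ← mul_assoc, ht, one_mul]
        rfl
      rw [h3, h4, en_right hu' _ hB, (en_zpow hu' hB m).1]
  by_cases h1 : en (FreeGroup.mk p) g (Cyl ([] ++ [x]))
  · have h2 : ¬ en (FreeGroup.mk p)⁻¹ g (Cyl ([] ++ [x])) := fun h2 =>
      hg ⟨fun _ => h2, fun _ => h1⟩
    obtain ⟨q, hq, hx, h3⟩ := key p hu h1 ((en_compl (inj_inv hu) hAI).2 h2)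
    refine ⟨q, Or.inl hq, hx, fun B hB => ?_⟩
    rw [← h3 B hB]
    unfold InEnd
    constructor
    · rintro (⟨-, -, h⟩ | ⟨h, -, -⟩)
      · exact h
      · exact absurd h h2
    · exact fun h => Or.inl ⟨h1, h2, h⟩
  · have h2 : en (FreeGroup.mk p)⁻¹ g (Cyl ([] ++ [x])) := by
      by_contra h2
      exact hg ⟨fun h => absurd h h1, fun h => absurd h h2⟩
    have h1' := (en_compl hu hAI).2 h1
    have hui : Function.Injective fun m : ℕ => FreeGroup.mk (FreeGroup.invRev p) ^ m := by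
      rw [← FreeGroup.inv_mk]
      exact inj_inv hu
    obtain ⟨q, hq, hx, h3⟩ := key (FreeGroup.invRev p) hui (by rwa [← FreeGroup.inv_mk])
      (by rwa [← FreeGroup.inv_mk, inv_inv])
    refine ⟨q, Or.inr hq, hx, fun B hB => ?_⟩
    rw [← h3 B hB, ← FreeGroup.inv_mk]
    unfold InEnd
    constructor
    · rintro (⟨h, -, -⟩ | ⟨-, -, h⟩)
      · exact absurd h h1
      · exact h
    · exact fun h => Or.inr ⟨h2, h1, h⟩

/-- (SX) -/
theorem SX (p : Word n) (hp : IsCyclicallyReduced p)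
    (hu : Function.Injective fun m : ℕ => FreeGroup.mk p ^ m)
    (hcut : ¬ ∃ (A : Ltr n → Prop) (x : Ltr n), Cut A x p) (x : Ltr n)
    (B C : Set (FreeGroup (Fin n))) (hB : AI B) (hC : AI C)
    (hBC : B ∪ C = Cyl [x]) (hNJ : NJ (FreeGroup.mk p) B C) (g g' : FreeGroup (Fin n))
    (hg' : cr (FreeGroup.mk p) g' (Cyl [x]))
    (h : InEnd (FreeGroup.mk p) g (Cyl [x]) B) : InEnd (FreeGroup.mk p) g' (Cyl [x]) B := by
  have hg : cr (FreeGroup.mk p) g (Cyl [x]) := by
    rcases h with ⟨h1, h2, -⟩ | ⟨h1, h2, -⟩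
    · exact fun h => h2 (h.1 h1)
    · exact fun h => h2 (h.2 h1)
  obtain ⟨N, hN⟩ := ai_radius hB
  obtain ⟨q, hq, hx, h1⟩ := inner_ray p hu x g hg
  obtain ⟨q', hq', hx', h1'⟩ := inner_ray p hu x g' hg'
  rw [h1' B hB]
  rw [h1 B hB] at h
  exact (sx_claim p hp hu hcut x B C hB hC hBC hNJ N hN N [] x
    FreeGroup.IsReduced.singleton (List.prefix_refl _) (by omega) q q' hq hq' hx hx').1 h

theorem toWord_pow_cyc {q : Word n} (hq : IsCyclicallyReduced q) (m : ℕ) :
    (FreeGroup.mk q ^ m).toWord = (List.replicate m q).flatten := by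
  rw [FreeGroup.pow_mk, toWord_mk' (hq.flatten_replicate m).isReduced]

/-- a line through `1` which leaves by `x` crosses the half space of `x` -/
theorem cr_start {x : Ltr n} {t : Word n} (hq : IsCyclicallyReduced (x :: t)) :
    cr (FreeGroup.mk (x :: t)) 1 (Cyl [x]) := by
  have h1 : en (FreeGroup.mk (x :: t)) 1 (Cyl [x]) := by
    refine eventually_atTop.2 ⟨1, fun m hm => ?_⟩
    obtain ⟨k, rfl⟩ : ∃ k, m = k + 1 := ⟨m - 1, by omega⟩
    rw [one_mul, mem_Cyl, toWord_pow_cyc hq, List.replicate_succ, List.flatten_cons]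
    exact ⟨t ++ (List.replicate k (x :: t)).flatten, by simp⟩
  have h2 : ¬ en (FreeGroup.mk (x :: t))⁻¹ 1 (Cyl [x]) := by
    intro h
    obtain ⟨m, hm⟩ := (h.and (eventually_ge_atTop 1)).exists
    obtain ⟨k, rfl⟩ : ∃ k, m = k + 1 := ⟨m - 1, by omega⟩
    obtain ⟨t', z, ht⟩ : ∃ t' z, x :: t = t' ++ [z] :=
      ⟨(x :: t).dropLast, (x :: t).getLast (by simp), (List.dropLast_append_getLast _).symm⟩
    have h3 := hm.1
    rw [one_mul, mem_Cyl, FreeGroup.inv_mk, toWord_pow_cyc (cycred_inv hq),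
      List.replicate_succ, List.flatten_cons, ht, invRev_snoc, List.cons_append,
      List.cons_prefix_cons] at h3
    have h4 := hq.2 z (by rw [ht]; simp) x (by simp)
    rw [red_step] at h4
    exact h4 h3.1
  exact fun h => h2 (h.1 h1)

theorem prefix_inj {p : Word n} (hp : IsCyclicallyReduced p) (A A' : Word n)
    (hA : A <+: p) (hA' : A' <+: p) (m : ℤ)
    (h : FreeGroup.mk A = FreeGroup.mk p ^ m * FreeGroup.mk A') :
    (A.length : ℤ) = m * p.length + A'.length := by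
  have key : ∀ (A A' : Word n), A <+: p → A' <+: p → ∀ k : ℕ,
      FreeGroup.mk A = FreeGroup.mk p ^ k * FreeGroup.mk A' →
      A.length = k * p.length + A'.length := by
    intro A A' hA hA' k h
    have h1 : IsReduced A := red_sub hp.1 hA.isInfix
    have h2 : IsReduced ((List.replicate k p).flatten ++ A') := by
      have h3 := (hp.flatten_replicate (k + 1)).isReduced
      rw [List.replicate_succ', List.flatten_append] at h3
      obtain ⟨C', hC'⟩ := hA'
      refine red_sub h3 ⟨[], C', ?_⟩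
      simp [hC']
    rw [FreeGroup.pow_mk, FreeGroup.mul_mk] at h
    have h4 := congrArg FreeGroup.toWord h
    rw [toWord_mk' h1, toWord_mk' h2] at h4
    have h5 := congrArg List.length h4
    rw [h5]
    simp [List.length_flatten]
  rcases le_total 0 m with hm | hm
  · obtain ⟨k, rfl⟩ := Int.eq_ofNat_of_zero_le hm
    have := key A A' hA hA' k (by rwa [zpow_natCast] at h)
    exact_mod_cast this
  · obtain ⟨k, hk⟩ := Int.exists_eq_neg_ofNat hm
    subst hk
    have h1 : FreeGroup.mk A' = FreeGroup.mk p ^ k * FreeGroup.mk A := by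
      rw [h, zpow_neg, zpow_natCast, mul_inv_cancel_left]
    have := key A' A hA' hA k h1
    have h2 : (A'.length : ℤ) = k * p.length + A.length := by exact_mod_cast this
    rw [h2]
    ring

theorem Fp_inj (p : Word n) (hp : IsCyclicallyReduced p) (x : Ltr n) :
    Set.InjOn (Fp (FreeGroup.mk p) [] x p) (PP x.1 p) := by
  -- time at the vertex `1` and at the vertex `x`
  have data : ∀ t₁ ∈ PP x.1 p, ∃ (g : FreeGroup (Fin n)) (T S : Word n),
      Fp (FreeGroup.mk p) [] x p t₁ = g ∧ T <+: p ∧ S <+: p ∧ g * FreeGroup.mk T = 1 ∧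
      g * FreeGroup.mk S = lt x ∧
      ((T = t₁ ∧ S.length = t₁.length + 1 ∧ T.length < p.length) ∨
        (S = t₁ ∧ T.length = t₁.length + 1)) := by
    rintro t₁ ⟨y, t₂, hp', hy⟩
    unfold Fp
    by_cases hc : ∃ t₂, p = t₁ ++ x :: t₂
    · obtain ⟨t₃, hp₃⟩ := hc
      rw [if_pos ⟨t₃, hp₃⟩]
      refine ⟨_, t₁, t₁ ++ [x], rfl, ⟨x :: t₃, hp₃.symm⟩, ⟨t₃, by rw [hp₃]; simp⟩, ?_, ?_,
        Or.inl ⟨rfl, by simp, ?_⟩⟩
      · rw [show FreeGroup.mk ([] : Word n) = 1 from rfl]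
        group
      · rw [show FreeGroup.mk ([] : Word n) = 1 from rfl, q_mk_snoc]
        group
      · rw [hp₃]
        simp
    · rw [if_neg hc]
      have hyx : y = bar x := by
        obtain ⟨i, b⟩ := x
        obtain ⟨i', b'⟩ := y
        simp only at hy
        subst hy
        by_cases hb : b' = b
        · subst hb
          exact absurd ⟨t₂, hp'⟩ hc
        · simp only [bar, Prod.mk.injEq, true_and]
          cases b <;> cases b' <;> simp_all
      subst hyx
      refine ⟨_, t₁ ++ [bar x], t₁, rfl, ⟨t₂, by rw [hp']; simp⟩, ⟨bar x :: t₂, hp'.symm⟩,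
        ?_, ?_, Or.inr ⟨rfl, by simp⟩⟩
      · rw [List.nil_append, q_mk_snoc, q_lt_bar, show FreeGroup.mk [x] = lt x from rfl]
        group
      · rw [List.nil_append, show FreeGroup.mk [x] = lt x from rfl]
        group
  intro t ht t' ht' hF
  obtain ⟨g, T, S, h1, h2, h3, h4, h5, h6⟩ := data t ht
  obtain ⟨g', T', S', h1', h2', h3', h4', h5', h6'⟩ := data t' ht'
  rw [h1, h1', QuotientGroup.eq, Subgroup.mem_zpowers_iff] at hF
  obtain ⟨m, hm⟩ := hF
  have hg : g' = g * FreeGroup.mk p ^ m := by rw [hm]; group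
  have e1 : FreeGroup.mk T = FreeGroup.mk p ^ m * FreeGroup.mk T' := by
    have := h4.trans h4'.symm
    rw [hg, mul_assoc] at this
    exact mul_left_cancel this
  have e2 : FreeGroup.mk S = FreeGroup.mk p ^ m * FreeGroup.mk S' := by
    have := h5.trans h5'.symm
    rw [hg, mul_assoc] at this
    exact mul_left_cancel this
  have f1 := prefix_inj hp T T' h2 h2' m e1
  have f2 := prefix_inj hp S S' h3 h3' m e2
  have lT := h2.length_le
  have lT' := h2'.length_le
  have hm0 : m = 0 := by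
    rcases h6 with ⟨a1, a2, a3⟩ | ⟨a1, a2⟩ <;> rcases h6' with ⟨b1, b2, b3⟩ | ⟨b1, b2⟩
    · by_contra hm0
      rcases lt_or_gt_of_ne hm0 with hm1 | hm1
      · nlinarith
      · nlinarith
    · exfalso
      subst a1 b1
      omega
    · exfalso
      subst a1 b1
      omega
    · by_contra hm0
      rcases lt_or_gt_of_ne hm0 with hm1 | hm1
      · have : (m : ℤ) ≤ -1 := by omega
        nlinarith
      · have : (1 : ℤ) ≤ m := by omega
        nlinarith
  subst hm0
  simp only [zero_mul, zero_add, Nat.cast_inj] at f1 f2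
  have pre : ∀ {a b : Word n}, a <+: p → b <+: p → a.length = b.length → a = b :=
    fun ha hb hab => (List.prefix_of_prefix_length_le ha hb hab.le).eq_of_length hab
  rcases h6 with ⟨a1, a2, a3⟩ | ⟨a1, a2⟩ <;> rcases h6' with ⟨b1, b2, b3⟩ | ⟨b1, b2⟩
  · rw [← a1, ← b1]
    exact pre h2 h2' f1
  · exfalso
    subst a1 b1
    omega
  · exfalso
    subst a1 b1
    omega
  · rw [← a1, ← b1]
    exact pre h3 h3' f2

theorem Fp_maps (p : Word n) (hp : IsCyclicallyReduced p)
    (hu : Function.Injective fun m : ℕ => FreeGroup.mk p ^ m) (x : Ltr n) :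
    Set.MapsTo (Fp (FreeGroup.mk p) [] x p) (PP x.1 p) (Cr (FreeGroup.mk p) (Cyl [x])) := by
  have hAI : AI (Cyl [x]) := ai_Cyl _ (by simp)
  -- a line which runs through the edge crosses
  have key : ∀ (p' : Word n), IsCyclicallyReduced p' →
      (Function.Injective fun m : ℕ => FreeGroup.mk p' ^ m) → ∀ t₁ t₂, p' = t₁ ++ x :: t₂ →
      cr (FreeGroup.mk p') (FreeGroup.mk t₁)⁻¹ (Cyl [x]) := by
    intro p' hp' hu' t₁ t₂ hpt
    have hrot : x :: t₂ ++ t₁ ~r p' := by
      rw [hpt]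
      exact List.isRotated_append
    have h1 : cr (FreeGroup.mk (x :: t₂ ++ t₁)) 1 (Cyl [x]) :=
      cr_start (t := t₂ ++ t₁) (cycred_rot hrot hp')
    have h2 : FreeGroup.mk (x :: t₂ ++ t₁) =
        (FreeGroup.mk t₁)⁻¹ * FreeGroup.mk p' * FreeGroup.mk t₁ := by
      conv_rhs => rw [hpt]
      rw [← FreeGroup.mul_mk, ← FreeGroup.mul_mk (L₁ := t₁)]
      group
    unfold cr at h1 ⊢
    have e1 := en_right (g := (FreeGroup.mk t₁)⁻¹) hu' (FreeGroup.mk t₁) hAI
    have e2 := en_right (g := (FreeGroup.mk t₁)⁻¹) (inj_inv hu') (FreeGroup.mk t₁) hAI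
    rw [inv_mul_cancel] at e1 e2
    rw [h2, show ((FreeGroup.mk t₁)⁻¹ * FreeGroup.mk p' * FreeGroup.mk t₁)⁻¹ =
      (FreeGroup.mk t₁)⁻¹ * (FreeGroup.mk p')⁻¹ * FreeGroup.mk t₁ by group, e1, e2] at h1
    exact h1
  rintro t₁ ⟨y, t₂, hp', hy⟩
  unfold Fp
  by_cases hc : ∃ t₂, p = t₁ ++ x :: t₂
  · rw [if_pos hc, mem_Cr hu hAI, show FreeGroup.mk ([] : Word n) = 1 from rfl, one_mul]
    obtain ⟨t₃, hp₃⟩ := hc
    exact key p hp hu t₁ t₃ hp₃
  · rw [if_neg hc, List.nil_append]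
    have hyx : y = bar x := by
      obtain ⟨i, b⟩ := x
      obtain ⟨i', b'⟩ := y
      simp only at hy
      subst hy
      by_cases hb : b' = b
      · subst hb
        exact absurd ⟨t₂, hp'⟩ hc
      · simp only [bar, Prod.mk.injEq, true_and]
        cases b <;> cases b' <;> simp_all
    subst hyx
    have hinv : FreeGroup.invRev p = FreeGroup.invRev t₂ ++ x :: FreeGroup.invRev t₁ := by
      rw [hp', invRev_app, invRev_cons, q_bar_bar]
      simp
    have hui : Function.Injective fun m : ℕ => FreeGroup.mk (FreeGroup.invRev p) ^ m := by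
      rw [← FreeGroup.inv_mk]
      exact inj_inv hu
    have h1 := key (FreeGroup.invRev p) (cycred_inv hp) hui _ _ hinv
    rw [← FreeGroup.inv_mk, ← FreeGroup.inv_mk, inv_inv] at h1
    have h2 : cr (FreeGroup.mk p) (FreeGroup.mk t₂) (Cyl [x]) := by
      unfold cr at h1 ⊢
      rw [inv_inv] at h1
      exact fun h => h1 h.symm
    have h3 : FreeGroup.mk [x] * (FreeGroup.mk t₁)⁻¹ =
        FreeGroup.mk t₂ * FreeGroup.mk p ^ (-1 : ℤ) := by
      conv_rhs => rw [hp']
      rw [← FreeGroup.mul_mk, q_mk_cons (bar x) t₂, q_lt_bar, show FreeGroup.mk [x] = lt x from rfl]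
      group
    rw [h3, coset_zpow, mem_Cr hu hAI]
    exact h2

/-- CLAIM S -/
theorem quad_of_noCut (w p : Word n) (φ : FreeGroup (Fin n) ≃* FreeGroup (Fin n))
    (hw : ∀ j : Fin n, (w.countP fun y => decide (y.1 = j)) ≤ 2)
    (hp : IsCyclicallyReduced p) (hp0 : p ≠ []) (hφ : FreeGroup.mk p = φ (FreeGroup.mk w))
    (hcut : ¬ ∃ (A : Ltr n → Prop) (x : Ltr n), Cut A x p) (j : Fin n) :
    (p.countP fun y => decide (y.1 = j)) ≤ 2 := by
  have hp1 : FreeGroup.mk p ≠ 1 := by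
    intro h
    have := congrArg FreeGroup.toWord h
    rw [toWord_mk' hp.1, FreeGroup.toWord_one] at this
    exact hp0 this
  have hinj : ∀ g : FreeGroup (Fin n), g ≠ 1 → Function.Injective fun m : ℕ => g ^ m := by
    intro g hg
    exact injective_pow_iff_not_isOfFinOrder.2 (by
      intro hf
      obtain ⟨k, hk, hgk⟩ := isOfFinOrder_iff_pow_eq_one.1 hf
      exact hg ((pow_eq_one_iff_left (by omega)).1 hgk))
  have hw1 : FreeGroup.mk w ≠ 1 := by
    intro h
    rw [h, _root_.map_one] at hφ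
    exact hp1 hφ
  have hu := hinj _ hp1
  have hu' := hinj _ hw1
  set x : Ltr n := (j, true) with hx
  have hAI : AI (Cyl [x]) := ai_Cyl _ (by simp)
  have hAI' : AI (φ ⁻¹' (Cyl [x])) := ai_preimage φ hAI
  -- transport
  have htr : ∀ g : FreeGroup (Fin n), ∀ D : Set (FreeGroup (Fin n)),
      (en (FreeGroup.mk w) g (φ ⁻¹' D) ↔ en (FreeGroup.mk p) (φ g) D) ∧
      (en (FreeGroup.mk w)⁻¹ g (φ ⁻¹' D) ↔ en (FreeGroup.mk p)⁻¹ (φ g) D) := by
    intro g D
    rw [hφ, ← _root_.map_inv, en_map, en_map]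
    exact ⟨Iff.rfl, Iff.rfl⟩
  have hpre : ∀ A : Set (FreeGroup (Fin n)), φ ⁻¹' (φ.symm ⁻¹' A) = A := by
    intro A
    ext g
    simp
  have hmax : (Cr (FreeGroup.mk w) (φ ⁻¹' (Cyl [x]))).encard ≤ 2 := by
    refine max_arg w hu' hw _ hAI' ?_
    intro A C hA hC hd hAC hNJ g g' hg' hg
    have hAC' : (φ.symm ⁻¹' A) ∪ (φ.symm ⁻¹' C) = Cyl [x] := by
      rw [← Set.preimage_union, hAC]
      ext g
      simp
    have hNJ' : NJ (FreeGroup.mk p) (φ.symm ⁻¹' A) (φ.symm ⁻¹' C) := by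
      intro g
      have h1 := hNJ (φ.symm g)
      rw [← hpre A, ← hpre C, (htr _ _).1, (htr _ _).2, (htr _ _).1, (htr _ _).2,
        MulEquiv.apply_symm_apply] at h1
      exact h1
    have hin : ∀ g : FreeGroup (Fin n), InEnd (FreeGroup.mk w) g (φ ⁻¹' (Cyl [x])) A ↔
        InEnd (FreeGroup.mk p) (φ g) (Cyl [x]) (φ.symm ⁻¹' A) := by
      intro g
      unfold InEnd
      rw [(htr g _).1, (htr g _).2]
      conv_lhs => rw [← hpre A]
      rw [(htr g _).1, (htr g _).2]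
    rw [hin] at hg ⊢
    refine SX p hp hu hcut x _ _ (ai_preimage φ.symm hA) (ai_preimage φ.symm hC) hAC' hNJ'
      (φ g) (φ g') ?_ hg
    unfold cr at hg' ⊢
    rwa [(htr g' _).1, (htr g' _).2] at hg'
  have hmax' : (Cr (FreeGroup.mk p) (Cyl [x])).encard ≤ 2 := by
    refine le_trans ?_ hmax
    refine le_trans (Set.encard_le_encard (t := (fun l : FreeGroup (Fin n) ⧸
      Subgroup.zpowers (FreeGroup.mk w) => ((φ l.out : FreeGroup (Fin n)) :
        FreeGroup (Fin n) ⧸ Subgroup.zpowers (FreeGroup.mk p))) ''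
        Cr (FreeGroup.mk w) (φ ⁻¹' (Cyl [x]))) ?_) (Set.encard_image_le _ _)
    rintro l ⟨g, rfl, hg⟩
    refine ⟨((φ.symm g : FreeGroup (Fin n)) : FreeGroup (Fin n) ⧸
      Subgroup.zpowers (FreeGroup.mk w)), ?_, ?_⟩
    · rw [mem_Cr hu' hAI']
      unfold cr at hg ⊢
      rwa [(htr _ _).1, (htr _ _).2, MulEquiv.apply_symm_apply]
    · obtain ⟨⟨h, hh⟩, hout⟩ := QuotientGroup.mk_out_eq_mul
        (Subgroup.zpowers (FreeGroup.mk w)) (φ.symm g)
      obtain ⟨m, rfl⟩ := Subgroup.mem_zpowers_iff.1 hh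
      simp only [hout]
      rw [_root_.map_mul, MulEquiv.apply_symm_apply, _root_.map_zpow, ← hφ, coset_zpow]
  have h1 : (PP x.1 p).encard ≤ (Cr (FreeGroup.mk p) (Cyl [x])).encard :=
    Set.encard_le_encard_of_injOn (Fp_maps p hp hu x) (Fp_inj p hp x)
  have h2 := h1.trans hmax'
  rw [PP_encard] at h2
  exact_mod_cast h2

end WPQ
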