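import Mathlib

/-!
# PROJECT WPQ (MP_2e2606_al): almost invariant sets and the ends of lines

`G` a group, `u` an element of infinite order, the lines are the cosets `g⟨u⟩`. For an almost
invariant set `B` (every right translate differs from `B` by a finite set) the truth value of
`g u^m ∈ B` is eventually constant.
-/

namespace WPQ

open Filter

variable {G : Type} [Group G]

/-- almost invariant sets -/
def AI (B : Set G) : Prop := ∀ s : G, {h : G | ¬ (h ∈ B ↔ h * s ∈ B)}.Finite

theorem ai_compl {B : Set G} (h : AI B) : AI Bᶜ := by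
  intro s
  refine (h s).subset ?_
  intro x hx
  simp only [Set.mem_ofPred_eq, Set.mem_compl_iff] at hx ⊢
  tauto

theorem ai_union {B C : Set G} (h : AI B) (h' : AI C) : AI (B ∪ C) := by
  intro s
  refine ((h s).union (h' s)).subset ?_
  intro x hx
  simp only [Set.mem_ofPred_eq, Set.mem_union] at hx ⊢
  tauto

theorem ai_inter {B C : Set G} (h : AI B) (h' : AI C) : AI (B ∩ C) := by
  intro s
  refine ((h s).union (h' s)).subset ?_
  intro x hx
  simp only [Set.mem_ofPred_eq, Set.mem_union, Set.mem_inter_iff] at hx ⊢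
  tauto

theorem ai_diff {B C : Set G} (h : AI B) (h' : AI C) : AI (B \ C) := by
  rw [Set.sdiff_eq]
  exact ai_inter h (ai_compl h')

theorem ai_empty : AI (∅ : Set G) := by
  intro s
  simp

theorem ai_preimage {H : Type} [Group H] (φ : G ≃* H) {B : Set H} (h : AI B) :
    AI (φ ⁻¹' B) := by
  intro s
  refine ((h (φ s)).preimage φ.injective.injOn).subset ?_
  intro x hx
  simpa using hx

/-- the end of the ray `g, g u, g u^2, ..` is in `B` -/
def en (u g : G) (B : Set G) : Prop := ∀ᶠ m : ℕ in atTop, g * u ^ m ∈ B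

theorem en_mono {u g : G} {B C : Set G} (hBC : B ⊆ C) (h : en u g B) : en u g C :=
  h.mono fun _ hm => hBC hm

theorem en_inter {u g : G} {B C : Set G} (h : en u g B) (h' : en u g C) : en u g (B ∩ C) :=
  (h.and h').mono fun _ hm => hm

theorem en_not_empty {u g : G} : ¬ en u g (∅ : Set G) := by
  intro h
  obtain ⟨m, hm⟩ := h.exists
  exact hm

theorem en_disj {u g : G} {B C : Set G} (hd : Disjoint B C) (h : en u g B) : ¬ en u g C := by
  intro h'
  have := en_inter h h'
  rw [Set.disjoint_iff_inter_eq_empty.1 hd] at this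
  exact en_not_empty this

theorem en_fin {u g : G} (hu : Function.Injective fun m : ℕ => u ^ m) {D : Set G}
    (hD : D.Finite) : ∀ᶠ m : ℕ in atTop, g * u ^ m ∉ D := by
  have h1 : (fun m : ℕ => g * u ^ m) ⁻¹' D |>.Finite := by
    refine hD.preimage ?_
    intro a _ b _ hab
    exact hu (mul_left_cancel hab)
  have h2 := h1.eventually_cofinite_notMem
  rw [Nat.cofinite_eq_atTop] at h2
  exact h2

theorem en_dich {u g : G} (hu : Function.Injective fun m : ℕ => u ^ m) {B : Set G}
    (hB : AI B) : en u g B ∨ en u g Bᶜ := by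
  obtain ⟨M, hM⟩ := eventually_atTop.1 (en_fin (g := g) hu (hB u))
  have hM' : ∀ m ≥ M, (g * u ^ m ∈ B ↔ g * u ^ M ∈ B) := by
    intro m hm
    induction m, hm using Nat.le_induction with
    | base => exact Iff.rfl
    | succ m hm ih =>
      have h1 := hM m hm
      simp only [Set.mem_ofPred_eq, not_not] at h1
      rw [pow_succ, ← mul_assoc, ← h1]
      exact ih
  by_cases h : g * u ^ M ∈ B
  · exact Or.inl (eventually_atTop.2 ⟨M, fun m hm => (hM' m hm).2 h⟩)
  · exact Or.inr (eventually_atTop.2 ⟨M, fun m hm hmB => h ((hM' m hm).1 hmB)⟩)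

theorem en_compl {u g : G} (hu : Function.Injective fun m : ℕ => u ^ m) {B : Set G}
    (hB : AI B) : en u g Bᶜ ↔ ¬ en u g B := by
  constructor
  · intro h h'
    exact en_disj disjoint_compl_right h' h
  · intro h
    rcases en_dich (g := g) hu hB with h' | h'
    · exact absurd h' h
    · exact h'

theorem en_union {u g : G} (hu : Function.Injective fun m : ℕ => u ^ m) {B C : Set G}
    (hB : AI B) : en u g (B ∪ C) ↔ en u g B ∨ en u g C := by
  constructor
  · intro h
    rcases en_dich (g := g) hu hB with h' | h'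
    · exact Or.inl h'
    · refine Or.inr (en_mono ?_ (en_inter h h'))
      rintro x ⟨hx | hx, hx'⟩
      · exact absurd hx hx'
      · exact hx
  · rintro (h | h)
    · exact en_mono Set.subset_union_left h
    · exact en_mono Set.subset_union_right h

/-- right translation -/
theorem en_right {u g : G} (hu : Function.Injective fun m : ℕ => u ^ m) (c : G) {B : Set G}
    (hB : AI B) : en (c⁻¹ * u * c) (g * c) B ↔ en u g B := by
  have h1 : ∀ m : ℕ, g * c * (c⁻¹ * u * c) ^ m = g * u ^ m * c := by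
    intro m
    have : (c⁻¹ * u * c) ^ m = c⁻¹ * u ^ m * c := by
      have := conj_pow (i := m) (a := c⁻¹) (b := u)
      simpa using this
    rw [this]
    group
  have h2 := en_fin (g := g) hu (hB c)
  unfold en
  constructor
  · intro h
    refine (h.and h2).mono ?_
    rintro m ⟨hm, hm'⟩
    rw [h1] at hm
    simp only [Set.mem_ofPred_eq, not_not] at hm'
    exact hm'.2 hm
  · intro h
    refine (h.and h2).mono ?_
    rintro m ⟨hm, hm'⟩
    rw [h1]
    simp only [Set.mem_ofPred_eq, not_not] at hm'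
    exact hm'.1 hm

theorem inj_inv {u : G} (hu : Function.Injective fun m : ℕ => u ^ m) :
    Function.Injective fun m : ℕ => u⁻¹ ^ m := by
  intro a b hab
  simp only [inv_pow, inv_inj] at hab
  exact hu hab

theorem inj_conj {u : G} (hu : Function.Injective fun m : ℕ => u ^ m) (c : G) :
    Function.Injective fun m : ℕ => (c⁻¹ * u * c) ^ m := by
  intro a b hab
  have h : ∀ m : ℕ, (c⁻¹ * u * c) ^ m = c⁻¹ * u ^ m * c := by
    intro m
    have := conj_pow (i := m) (a := c⁻¹) (b := u)
    simpa using this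
  simp only [h] at hab
  exact hu (mul_left_cancel (mul_right_cancel hab))

theorem en_shift {u g : G} (hu : Function.Injective fun m : ℕ => u ^ m) {B : Set G}
    (hB : AI B) : en u (g * u) B ↔ en u g B := by
  have := en_right (g := g) hu u hB
  rwa [show u⁻¹ * u * u = u by group] at this

theorem en_shift_inv {u g : G} (hu : Function.Injective fun m : ℕ => u ^ m) {B : Set G}
    (hB : AI B) : en u⁻¹ (g * u) B ↔ en u⁻¹ g B := by
  have := en_right (g := g) (inj_inv hu) u hB
  rwa [show u⁻¹ * u⁻¹ * u = u⁻¹ by group] at this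

theorem en_zpow {u g : G} (hu : Function.Injective fun m : ℕ => u ^ m) {B : Set G}
    (hB : AI B) (m : ℤ) : (en u (g * u ^ m) B ↔ en u g B) ∧
      (en u⁻¹ (g * u ^ m) B ↔ en u⁻¹ g B) := by
  induction m using Int.induction_on with
  | zero => simp
  | succ i ih =>
    rw [zpow_add_one, ← mul_assoc]
    exact ⟨(en_shift hu hB).trans ih.1, (en_shift_inv hu hB).trans ih.2⟩
  | pred i ih =>
    have h1 : g * u ^ (-(i : ℤ)) = g * u ^ (-(i : ℤ) - 1) * u := by
      rw [mul_assoc, ← zpow_add_one]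
      congr 2
      ring
    rw [h1] at ih
    exact ⟨(en_shift hu hB).symm.trans ih.1, (en_shift_inv hu hB).symm.trans ih.2⟩

/-- the line of `g` crosses `B` -/
def cr (u g : G) (B : Set G) : Prop := ¬ (en u g B ↔ en u⁻¹ g B)

theorem cr_zpow {u g : G} (hu : Function.Injective fun m : ℕ => u ^ m) {B : Set G}
    (hB : AI B) (m : ℤ) : cr u (g * u ^ m) B ↔ cr u g B := by
  unfold cr
  rw [(en_zpow hu hB m).1, (en_zpow hu hB m).2]

theorem cr_coset {u g g' : G} (hu : Function.Injective fun m : ℕ => u ^ m) {B : Set G}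
    (hB : AI B) (h : (g : G ⧸ Subgroup.zpowers u) = g') : cr u g B ↔ cr u g' B := by
  rw [QuotientGroup.eq] at h
  obtain ⟨m, hm⟩ := Subgroup.mem_zpowers_iff.1 h
  have : g' = g * u ^ m := by rw [hm]; group
  rw [this, cr_zpow hu hB]

/-- the lines which cross `B` -/
def Cr (u : G) (B : Set G) : Set (G ⧸ Subgroup.zpowers u) :=
  {l | ∃ g : G, (g : G ⧸ Subgroup.zpowers u) = l ∧ cr u g B}

theorem mem_Cr {u g : G} (hu : Function.Injective fun m : ℕ => u ^ m) {B : Set G}
    (hB : AI B) : (g : G ⧸ Subgroup.zpowers u) ∈ Cr u B ↔ cr u g B := by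
  constructor
  · rintro ⟨g', hg', h⟩
    exact (cr_coset hu hB hg').1 h
  · exact fun h => ⟨g, rfl, h⟩

theorem Cr_union {u : G} (hu : Function.Injective fun m : ℕ => u ^ m) {B C : Set G}
    (hB : AI B) (hC : AI C) (hd : Disjoint B C) :
    Cr u (B ∪ C) ⊆ (Cr u B \ Cr u C) ∪ (Cr u C \ Cr u B) := by
  rintro l ⟨g, rfl, h⟩
  rw [Set.mem_union, Set.mem_sdiff, Set.mem_sdiff, mem_Cr hu hB, mem_Cr hu hC]
  unfold cr at h ⊢
  rw [en_union hu hB, en_union (inj_inv hu) hB] at h
  have h1 : ¬ (en u g B ∧ en u g C) := fun h => en_disj hd h.1 h.2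
  have h2 : ¬ (en u⁻¹ g B ∧ en u⁻¹ g C) := fun h => en_disj hd h.1 h.2
  tauto

/-- two sets of at most two lines with a common line -/
theorem encard_aux {α : Type} {S T U : Set α} (hS : S.encard ≤ 2) (hT : T.encard ≤ 2)
    (hST : (S ∩ T).Nonempty) (hU : U ⊆ (S \ T) ∪ (T \ S)) : U.encard ≤ 2 := by
  have h1 : (S \ T).encard + (S ∩ T).encard = S.encard := Set.encard_sdiff_add_encard_inter S T
  have h2 : (T \ S).encard + (T ∩ S).encard = T.encard := Set.encard_sdiff_add_encard_inter T S
  have h3 : 1 ≤ (S ∩ T).encard := Set.one_le_encard_iff_nonempty.2 hST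
  rw [Set.inter_comm T S] at h2
  have h4 : (S \ T).encard ≤ 1 := by
    by_contra hc
    push Not at hc
    have hc2 : (2 : ℕ∞) ≤ (S \ T).encard := Order.add_one_le_of_lt hc
    have h5 : (2 : ℕ∞) + 1 ≤ 2 := (add_le_add hc2 h3).trans (h1.trans_le hS)
    exact absurd h5 (by decide)
  have h5 : (T \ S).encard ≤ 1 := by
    by_contra hc
    push Not at hc
    have hc2 : (2 : ℕ∞) ≤ (T \ S).encard := Order.add_one_le_of_lt hc
    have h5 : (2 : ℕ∞) + 1 ≤ 2 := (add_le_add hc2 h3).trans (h2.trans_le hT)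
    exact absurd h5 (by decide)
  calc U.encard ≤ ((S \ T) ∪ (T \ S)).encard := Set.encard_le_encard hU
    _ ≤ (S \ T).encard + (T \ S).encard := Set.encard_union_le _ _
    _ ≤ 1 + 1 := add_le_add h4 h5
    _ = 2 := by norm_num

/-- no line joins `B` and `C` -/
def NJ (u : G) (B C : Set G) : Prop :=
  ∀ g : G, ¬ (en u g B ∧ en u⁻¹ g C) ∧ ¬ (en u g C ∧ en u⁻¹ g B)

theorem NJ_conj {u : G} (hu : Function.Injective fun m : ℕ => u ^ m) (c : G) {B C : Set G}
    (hB : AI B) (hC : AI C) (h : NJ u B C) : NJ (c⁻¹ * u * c) B C := by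
  intro g
  have h1 := h (g * c⁻¹)
  have e1 : ∀ D : Set G, AI D → (en (c⁻¹ * u * c) g D ↔ en u (g * c⁻¹) D) := by
    intro D hD
    have := en_right (g := g * c⁻¹) hu c hD
    rwa [show g * c⁻¹ * c = g by group] at this
  have e2 : ∀ D : Set G, AI D → (en (c⁻¹ * u * c)⁻¹ g D ↔ en u⁻¹ (g * c⁻¹) D) := by
    intro D hD
    have := en_right (g := g * c⁻¹) (inj_inv hu) c hD
    rwa [show g * c⁻¹ * c = g by group, show c⁻¹ * u⁻¹ * c = (c⁻¹ * u * c)⁻¹ by group] at this
  rw [e1 B hB, e1 C hC, e2 B hB, e2 C hC]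
  exact h1

theorem en_map {H : Type} [Group H] (φ : G ≃* H) (u g : G) (B : Set H) :
    en (φ u) (φ g) B ↔ en u g (φ ⁻¹' B) := by
  unfold en
  simp

end WPQ
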