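import Pool.Agent.Lib.WPQ_Tree

/-!
# PROJECT WPQ (MP_2e2606_al): the maximality argument
-/

namespace WPQ

open WPP FreeGroup List Filter

variable {n : ℕ}

/-- an almost invariant set is a union of cylinders outside of a ball -/
theorem ai_radius {B : Set (FreeGroup (Fin n))} (hB : AI B) :
    ∃ N : ℕ, ∀ h : FreeGroup (Fin n), N ≤ h.toWord.length → ∀ y : Ltr n,
      (h ∈ B ↔ h * lt y ∈ B) := by
  have h1 : (⋃ y : Ltr n, {h : FreeGroup (Fin n) | ¬ (h ∈ B ↔ h * lt y ∈ B)}).Finite :=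
    Set.finite_iUnion fun y => hB (lt y)
  obtain ⟨N, hN⟩ := (h1.image fun h => h.toWord.length).bddAbove
  refine ⟨N + 1, fun h hh y => ?_⟩
  by_contra hc
  have := hN ⟨h, Set.mem_iUnion.2 ⟨y, hc⟩, rfl⟩
  simp only at this
  omega

theorem ai_stable {B : Set (FreeGroup (Fin n))} {N : ℕ}
    (hN : ∀ h : FreeGroup (Fin n), N ≤ h.toWord.length → ∀ y : Ltr n,
      (h ∈ B ↔ h * lt y ∈ B)) (L t : Word n) (hL : N ≤ L.length) (hr : IsReduced (L ++ t)) :
    FreeGroup.mk (L ++ t) ∈ B ↔ FreeGroup.mk L ∈ B := by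
  induction t using List.reverseRecOn with
  | nil => simp
  | append_singleton t y ih =>
    have hr' : IsReduced (L ++ t) := red_sub hr ⟨[], [y], by simp⟩
    rw [← List.append_assoc, q_mk_snoc, ← ih hr']
    refine (hN _ ?_ y).symm
    rw [toWord_mk' hr', List.length_append]
    omega

theorem ball_finite (M : ℕ) : {h : FreeGroup (Fin n) | h.toWord.length < M}.Finite := by
  have h1 : {L : Word n | L.length < M}.Finite := by
    have : {L : Word n | L.length < M} = ⋃ k : Fin M, {L : Word n | L.length = k} := by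
      ext L
      simp only [Set.mem_ofPred_eq, Set.mem_iUnion]
      exact ⟨fun h => ⟨⟨L.length, h⟩, rfl⟩, fun ⟨k, hk⟩ => hk ▸ k.2⟩
    rw [this]
    exact Set.finite_iUnion fun k => List.finite_length_eq _ _
  exact h1.preimage FreeGroup.toWord_injective.injOn

/-- finite unions of cylinders -/
def ZZ (s : Finset (Word n)) : Set (FreeGroup (Fin n)) := {h | ∃ v ∈ s, h ∈ Cyl v}

theorem ZZ_insert [DecidableEq (Word n)] (s : Finset (Word n)) (v : Word n) :
    ZZ (insert v s) = ZZ s ∪ Cyl v := by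
  ext h
  simp only [ZZ, Finset.mem_insert, Set.mem_ofPred_eq, Set.mem_union]
  constructor
  · rintro ⟨v', rfl | h1, h2⟩
    · exact Or.inr h2
    · exact Or.inl ⟨v', h1, h2⟩
  · rintro (⟨v', h1, h2⟩ | h2)
    · exact ⟨v', Or.inr h1, h2⟩
    · exact ⟨v, Or.inl rfl, h2⟩

theorem ai_ZZ (s : Finset (Word n)) (hs : ∀ v ∈ s, v ≠ []) : AI (ZZ s) := by
  classical
  induction s using Finset.induction_on with
  | empty =>
    have : ZZ (∅ : Finset (Word n)) = ∅ := by
      ext h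
      simp [ZZ]
    rw [this]
    exact ai_empty
  | insert v s hv ih =>
    rw [ZZ_insert]
    exact ai_union (ih fun v' h' => hs v' (Finset.mem_insert_of_mem h'))
      (ai_Cyl v (hs v (Finset.mem_insert_self _ _)))

theorem en_ZZ {u g : FreeGroup (Fin n)} (hu : Function.Injective fun m : ℕ => u ^ m)
    (s : Finset (Word n)) (hs : ∀ v ∈ s, v ≠ []) (h : en u g (ZZ s)) :
    ∃ v ∈ s, en u g (Cyl v) := by
  classical
  induction s using Finset.induction_on with
  | empty =>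
    have : ZZ (∅ : Finset (Word n)) = ∅ := by
      ext h
      simp [ZZ]
    rw [this] at h
    exact absurd h en_not_empty
  | insert v s hv ih =>
    have hs' : ∀ v' ∈ s, v' ≠ [] := fun v' h' => hs v' (Finset.mem_insert_of_mem h')
    rw [ZZ_insert, en_union hu (ai_ZZ s hs')] at h
    rcases h with h | h
    · obtain ⟨v', h1, h2⟩ := ih hs' h
      exact ⟨v', Finset.mem_insert_of_mem h1, h2⟩
    · exact ⟨v, Finset.mem_insert_self _ _, h⟩

/-- the crossing line `g` of `B` has its inner end in `A` -/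
def InEnd (u g : FreeGroup (Fin n)) (B A : Set (FreeGroup (Fin n))) : Prop :=
  (en u g B ∧ ¬ en u⁻¹ g B ∧ en u g A) ∨ (en u⁻¹ g B ∧ ¬ en u g B ∧ en u⁻¹ g A)

theorem max_arg (p : Word n) (hu : Function.Injective fun m : ℕ => FreeGroup.mk p ^ m)
    (hq : ∀ j : Fin n, (p.countP fun y => decide (y.1 = j)) ≤ 2)
    (B : Set (FreeGroup (Fin n))) (hB : AI B)
    (hSX : ∀ A C : Set (FreeGroup (Fin n)), AI A → AI C → Disjoint A C → A ∪ C = B →
      NJ (FreeGroup.mk p) A C → ∀ g g', cr (FreeGroup.mk p) g' B →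
        InEnd (FreeGroup.mk p) g B A → InEnd (FreeGroup.mk p) g' B A) :
    (Cr (FreeGroup.mk p) B).encard ≤ 2 := by
  classical
  rcases Set.eq_empty_or_nonempty (Cr (FreeGroup.mk p) B) with h0 | ⟨l₀, g₀, -, hg₀⟩
  · rw [h0, Set.encard_empty]
    exact bot_le
  obtain ⟨N, hN⟩ := ai_radius hB
  set u := FreeGroup.mk p with hudef
  have hVfin : {L : Word n | L.length = N + 1 ∧ IsReduced L ∧ FreeGroup.mk L ∈ B}.Finite :=
    (List.finite_length_eq (Ltr n) (N + 1)).subset fun L hL => hL.1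
  set V : Finset (Word n) := hVfin.toFinset with hV
  have hVmem : ∀ L, L ∈ V ↔ (L.length = N + 1 ∧ IsReduced L ∧ FreeGroup.mk L ∈ B) := by
    intro L
    rw [hV, Set.Finite.mem_toFinset]
    rfl
  have hVne : ∀ v ∈ V, v ≠ [] := by
    intro v hv h
    have := ((hVmem v).1 hv).1
    rw [h] at this
    simp at this
  have hsub : ∀ s : Finset (Word n), s ⊆ V → ZZ s ⊆ B := by
    rintro s hs h ⟨v, hv, t, ht⟩
    obtain ⟨h1, h2, h3⟩ := (hVmem v).1 (hs hv)
    have hr : IsReduced (v ++ t) := ht ▸ FreeGroup.isReduced_toWord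
    have := (ai_stable hN v t (by omega) hr).2 h3
    rwa [ht, FreeGroup.mk_toWord] at this
  have hend : ∀ u' g : FreeGroup (Fin n), (Function.Injective fun m : ℕ => u' ^ m) →
      en u' g B → en u' g (ZZ V) := by
    intro u' g hu' h
    refine (h.and (en_fin (g := g) hu' (ball_finite (N + 1)))).mono ?_
    rintro m ⟨h1, h2⟩
    simp only [Set.mem_ofPred_eq, not_lt] at h2
    set h' := g * u' ^ m with hh'
    have hr : IsReduced h'.toWord := FreeGroup.isReduced_toWord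
    have hsplit : h'.toWord.take (N + 1) ++ h'.toWord.drop (N + 1) = h'.toWord :=
      List.take_append_drop _ _
    refine ⟨h'.toWord.take (N + 1), ?_, List.take_prefix _ _⟩
    rw [hVmem]
    have hlen : (h'.toWord.take (N + 1)).length = N + 1 := by
      rw [List.length_take]
      omega
    refine ⟨hlen, red_sub hr (List.take_prefix _ _).isInfix, ?_⟩
    rw [← ai_stable hN (h'.toWord.take (N + 1)) (h'.toWord.drop (N + 1)) (by omega)
      (by rw [hsplit]; exact hr), hsplit, FreeGroup.mk_toWord]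
    exact h1
  -- the cylinder of the inner end of the first line
  obtain ⟨v₀, hv₀, hin₀⟩ : ∃ v₀ ∈ V, InEnd u g₀ B (Cyl v₀) := by
    by_cases h1 : en u g₀ B
    · have h2 : ¬ en u⁻¹ g₀ B := fun h2 => hg₀ ⟨fun _ => h2, fun _ => h1⟩
      obtain ⟨v, hv, hv'⟩ := en_ZZ hu V hVne (hend u g₀ hu h1)
      exact ⟨v, hv, Or.inl ⟨h1, h2, hv'⟩⟩
    · have h2 : en u⁻¹ g₀ B := by
        by_contra h2
        exact hg₀ ⟨fun h => absurd h h1, fun h => absurd h h2⟩
      obtain ⟨v, hv, hv'⟩ := en_ZZ (inj_inv hu) V hVne (hend u⁻¹ g₀ (inj_inv hu) h2)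
      exact ⟨v, hv, Or.inr ⟨h2, h1, hv'⟩⟩
  -- a maximal union
  set PF : Finset (Finset (Word n)) :=
    V.powerset.filter fun s => v₀ ∈ s ∧ (Cr u (ZZ s)).encard ≤ 2 with hPF
  have hPFmem : ∀ s, s ∈ PF ↔ (s ⊆ V ∧ v₀ ∈ s ∧ (Cr u (ZZ s)).encard ≤ 2) := by
    intro s
    rw [hPF, Finset.mem_filter, Finset.mem_powerset]
  have hZsingle : ∀ v : Word n, ZZ {v} = Cyl v := by
    intro v
    ext h
    simp [ZZ]
  have hne : PF.Nonempty := by
    refine ⟨{v₀}, (hPFmem _).2 ⟨Finset.singleton_subset_iff.2 hv₀,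
      Finset.mem_singleton_self _, ?_⟩⟩
    rw [hZsingle]
    exact Cr_Cyl_le p hu v₀ (hVne v₀ hv₀) hq
  obtain ⟨s, hs, hmax⟩ := PF.exists_max_image Finset.card hne
  obtain ⟨hsV, hv₀s, hs2⟩ := (hPFmem s).1 hs
  have hsne : ∀ v ∈ s, v ≠ [] := fun v hv => hVne v (hsV hv)
  have hAs : AI (ZZ s) := ai_ZZ s hsne
  have hdisj : ∀ v ∈ V, v ∉ s → Disjoint (ZZ s) (Cyl v) := by
    intro v hv hvs
    rw [Set.disjoint_left]
    rintro h ⟨v', hv', h1⟩ h2
    have h3 := ((hVmem v).1 hv).1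
    have h4 := ((hVmem v').1 (hsV hv')).1
    have : v = v' := by
      rw [mem_Cyl] at h1 h2
      exact (List.prefix_of_prefix_length_le h2 h1 (by omega)).eq_of_length (by omega)
    exact hvs (this ▸ hv')
  have hstep : ∀ v ∈ V, v ∉ s → ∀ g, cr u g (ZZ s) → ¬ cr u g (Cyl v) := by
    intro v hv hvs g h1 h2
    have hAv : AI (Cyl v) := ai_Cyl v (hVne v hv)
    have h3 : (Cr u (ZZ (insert v s))).encard ≤ 2 := by
      rw [ZZ_insert]
      refine encard_aux hs2 (Cr_Cyl_le p hu v (hVne v hv) hq) ?_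
        (Cr_union hu hAs hAv (hdisj v hv hvs))
      exact ⟨(g : FreeGroup (Fin n) ⧸ Subgroup.zpowers u), (mem_Cr hu hAs).2 h1,
        (mem_Cr hu hAv).2 h2⟩
    have h4 : insert v s ∈ PF := by
      rw [hPFmem]
      refine ⟨?_, Finset.mem_insert_of_mem hv₀s, h3⟩
      intro x hx
      rcases Finset.mem_insert.1 hx with rfl | hx
      · exact hv
      · exact hsV hx
    have h5 := hmax _ h4
    rw [Finset.card_insert_of_notMem hvs] at h5
    omega
  have hjoin : ∀ u' g : FreeGroup (Fin n), (Function.Injective fun m : ℕ => u' ^ m) →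
      (u' = u ∨ u' = u⁻¹) → en u' g (ZZ s) → ¬ en u'⁻¹ g (B \ ZZ s) := by
    intro u' g hu' huu h1 h2
    have h3 : en u'⁻¹ g B := en_mono Set.sdiff_subset h2
    obtain ⟨v, hv, h4⟩ := en_ZZ (inj_inv hu') V hVne (hend u'⁻¹ g (inj_inv hu') h3)
    have hvs : v ∉ s := by
      intro hvs
      have h5 : en u'⁻¹ g (ZZ s) := en_mono (fun h hh => ⟨v, hvs, hh⟩) h4
      exact en_disj Set.disjoint_sdiff_right h5 h2
    have h5 : ¬ en u' g (Cyl v) := en_disj (hdisj v hv hvs) h1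
    have h6 : ¬ en u'⁻¹ g (ZZ s) := fun h6 => en_disj Set.disjoint_sdiff_right h6 h2
    rcases huu with rfl | rfl
    · exact hstep v hv hvs g (fun h => h6 (h.1 h1)) (fun h => h5 (h.2 h4))
    · rw [inv_inv] at h4 h6
      exact hstep v hv hvs g (fun h => h6 (h.2 h1)) (fun h => h5 (h.1 h4))
  have hNJ : NJ u (ZZ s) (B \ ZZ s) := by
    intro g
    refine ⟨fun h => hjoin u g hu (Or.inl rfl) h.1 h.2, fun h => ?_⟩
    refine hjoin u⁻¹ g (inj_inv hu) (Or.inr rfl) h.2 ?_
    rw [inv_inv]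
    exact h.1
  have hall := hSX (ZZ s) (B \ ZZ s) hAs (ai_diff hB hAs) Set.disjoint_sdiff_right
    (Set.union_sdiff_cancel (hsub s hsV)) hNJ
  have hin : InEnd u g₀ B (ZZ s) := by
    have hss : Cyl v₀ ⊆ ZZ s := fun h hh => ⟨v₀, hv₀s, hh⟩
    rcases hin₀ with ⟨h1, h2, h3⟩ | ⟨h1, h2, h3⟩
    · exact Or.inl ⟨h1, h2, en_mono hss h3⟩
    · exact Or.inr ⟨h1, h2, en_mono hss h3⟩
  refine (Set.encard_le_encard ?_).trans hs2
  rintro l ⟨g, rfl, hg⟩
  rw [mem_Cr hu hAs]
  rcases hall g₀ g hg hin with ⟨h1, h2, h3⟩ | ⟨h1, h2, h3⟩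
  · intro h
    exact h2 (en_mono (hsub s hsV) (h.1 h3))
  · intro h
    exact h2 (en_mono (hsub s hsV) (h.2 h3))

end WPQ
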