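import Pool.Agent.Lib.WPQ_Max

/-!
# PROJECT WPQ (MP_2e2606_al): words without cut pair do not split their half spaces
-/

namespace WPQ

open WPP FreeGroup List Filter

variable {n : ℕ}

theorem cycred_inv {p : Word n} (hp : IsCyclicallyReduced p) :
    IsCyclicallyReduced (FreeGroup.invRev p) := by
  constructor
  · have h1 : (FreeGroup.mk p)⁻¹.toWord = FreeGroup.invRev p := by
      rw [FreeGroup.toWord_inv, toWord_mk' hp.1]
    rw [← h1]
    exact FreeGroup.isReduced_toWord
  · intro a ha b hb
    rcases p with _ | ⟨y, t⟩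
    · simp at ha
    · rw [invRev_cons] at ha
      have ha' : bar y = a := by simpa using ha
      obtain ⟨t', z, ht⟩ : ∃ t' z, y :: t = t' ++ [z] :=
        ⟨(y :: t).dropLast, (y :: t).getLast (by simp), (List.dropLast_append_getLast _).symm⟩
      rw [ht, invRev_snoc] at hb
      have hb' : bar z = b := by simpa using hb
      have h2 := hp.2 z (by rw [ht]; simp) y (by simp)
      subst ha' hb'
      simp only [bar]
      intro h3
      rw [h2 h3.symm]

theorem cycred_rot {p q : Word n} (h : q ~r p) (hp : IsCyclicallyReduced p) :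
    IsCyclicallyReduced q := by
  rw [rowB_cycred] at hp ⊢
  exact rowB_cyc_rot h.symm hp

theorem invRev_rot {p q : Word n} (h : q ~r p) : FreeGroup.invRev q ~r FreeGroup.invRev p := by
  obtain ⟨l₁, l₂, rfl, rfl⟩ := rowB_rot h
  rw [invRev_app, invRev_app]
  exact List.isRotated_append

/-- rotations of `p` and of its inverse -/
def Rt (p q : Word n) : Prop := q ~r p ∨ q ~r FreeGroup.invRev p

theorem Rt_cycred {p q : Word n} (hp : IsCyclicallyReduced p) (h : Rt p q) :
    IsCyclicallyReduced q := by
  rcases h with h | h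
  · exact cycred_rot h hp
  · exact cycred_rot h (cycred_inv hp)

theorem Rt_rot {p q q' : Word n} (h : Rt p q) (h' : q' ~r q) : Rt p q' := by
  rcases h with h | h
  · exact Or.inl (h'.trans h)
  · exact Or.inr (h'.trans h)

theorem Rt_inv {p q : Word n} (h : Rt p q) : Rt p (FreeGroup.invRev q) := by
  rcases h with h | h
  · exact Or.inr (invRev_rot h)
  · refine Or.inl ?_
    have := invRev_rot h
    rwa [FreeGroup.invRev_invRev] at this

theorem mk_rot {p q : Word n} (h : q ~r p) :
    ∃ c : FreeGroup (Fin n), FreeGroup.mk q = c⁻¹ * FreeGroup.mk p * c := by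
  obtain ⟨l₁, l₂, rfl, rfl⟩ := rowB_rot h
  refine ⟨FreeGroup.mk l₂, ?_⟩
  rw [← FreeGroup.mul_mk, ← FreeGroup.mul_mk]
  group

theorem Rt_inj {p q : Word n} (hu : Function.Injective fun m : ℕ => FreeGroup.mk p ^ m)
    (h : Rt p q) : Function.Injective fun m : ℕ => FreeGroup.mk q ^ m := by
  rcases h with h | h
  · obtain ⟨c, hc⟩ := mk_rot h
    rw [hc]
    exact inj_conj hu c
  · obtain ⟨c, hc⟩ := mk_rot h
    rw [hc, ← FreeGroup.inv_mk]
    exact inj_conj (inj_inv hu) c

theorem NJ_inv {u : FreeGroup (Fin n)} {B C : Set (FreeGroup (Fin n))} (h : NJ u B C) :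
    NJ u⁻¹ B C := by
  intro g
  have := h g
  rw [inv_inv]
  exact ⟨fun h1 => this.2 ⟨h1.2, h1.1⟩, fun h1 => this.1 ⟨h1.2, h1.1⟩⟩

theorem Rt_NJ {p q : Word n} (hu : Function.Injective fun m : ℕ => FreeGroup.mk p ^ m)
    {B C : Set (FreeGroup (Fin n))} (hB : AI B) (hC : AI C) (hNJ : NJ (FreeGroup.mk p) B C)
    (h : Rt p q) : NJ (FreeGroup.mk q) B C := by
  rcases h with h | h
  · obtain ⟨c, hc⟩ := mk_rot h
    rw [hc]
    exact NJ_conj hu c hB hC hNJ
  · obtain ⟨c, hc⟩ := mk_rot h
    rw [hc, ← FreeGroup.inv_mk]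
    exact NJ_conj (inj_inv hu) c hB hC (NJ_inv hNJ)

theorem en_next {y : Ltr n} {t : Word n} {h : FreeGroup (Fin n)}
    (hu : Function.Injective fun m : ℕ => FreeGroup.mk (y :: t) ^ m)
    {B : Set (FreeGroup (Fin n))} (hB : AI B) :
    en (FreeGroup.mk (y :: t)) h B ↔ en (FreeGroup.mk (t ++ [y])) (h * lt y) B := by
  rw [← en_right hu (lt y) hB, q_mk_cons, q_mk_snoc]
  rw [show (lt y)⁻¹ * (lt y * FreeGroup.mk t) * lt y = FreeGroup.mk t * lt y by group]

theorem ray_red {L q' : Word n} {z : Ltr n} (hL : IsReduced (L ++ [z]))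
    (hq : IsCyclicallyReduced (q' ++ [z])) (m : ℕ) :
    IsReduced ((L ++ [z]) ++ (List.replicate m (q' ++ [z])).flatten) := by
  refine FreeGroup.IsReduced.append_overlap hL ?_ (by simp)
  have h1 := (hq.flatten_replicate (m + 1)).isReduced
  rw [List.replicate_succ, List.flatten_cons, List.append_assoc] at h1
  exact red_sub h1 ⟨q', [], by simp⟩

theorem ray_mul {L q : Word n} (m : ℕ) :
    FreeGroup.mk L * FreeGroup.mk q ^ m = FreeGroup.mk (L ++ (List.replicate m q).flatten) := by
  rw [FreeGroup.pow_mk, FreeGroup.mul_mk]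

theorem ray_cyl {L q : Word n} {z : Ltr n} (hL : IsReduced (L ++ [z]))
    (hq : IsCyclicallyReduced q) (hz : q.getLast? = some z) :
    en (FreeGroup.mk q) (FreeGroup.mk (L ++ [z])) (Cyl (L ++ [z])) := by
  obtain ⟨q', rfl⟩ := List.getLast?_eq_some_iff.1 hz
  refine Eventually.of_forall fun m => ?_
  rw [ray_mul, mem_Cyl, toWord_mk' (ray_red hL hq m)]
  exact List.prefix_append _ _

theorem sx_claim (p : Word n) (hp : IsCyclicallyReduced p)
    (hu : Function.Injective fun m : ℕ => FreeGroup.mk p ^ m)
    (hcut : ¬ ∃ (A : Ltr n → Prop) (x : Ltr n), Cut A x p) (x : Ltr n)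
    (B C : Set (FreeGroup (Fin n))) (hB : AI B) (hC : AI C)
    (hBC : B ∪ C = Cyl [x]) (hNJ : NJ (FreeGroup.mk p) B C) (N : ℕ)
    (hN : ∀ h : FreeGroup (Fin n), N ≤ h.toWord.length → ∀ y : Ltr n,
      (h ∈ B ↔ h * lt y ∈ B)) (k : ℕ) :
    ∀ (L : Word n) (z : Ltr n), IsReduced (L ++ [z]) → [x] <+: L ++ [z] →
      N ≤ (L ++ [z]).length + k → ∀ q q', Rt p q → Rt p q' → q.getLast? = some z →
      q'.getLast? = some z →
      (en (FreeGroup.mk q) (FreeGroup.mk (L ++ [z])) B ↔
        en (FreeGroup.mk q') (FreeGroup.mk (L ++ [z])) B) := by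
  induction k with
  | zero =>
    intro L z hL hx hlen
    have key : ∀ q, Rt p q → q.getLast? = some z →
        (en (FreeGroup.mk q) (FreeGroup.mk (L ++ [z])) B ↔ FreeGroup.mk (L ++ [z]) ∈ B) := by
      intro q hq hz
      have hqc := Rt_cycred hp hq
      obtain ⟨q', rfl⟩ := List.getLast?_eq_some_iff.1 hz
      have h1 : ∀ m : ℕ, (FreeGroup.mk (L ++ [z]) * FreeGroup.mk (q' ++ [z]) ^ m ∈ B ↔
          FreeGroup.mk (L ++ [z]) ∈ B) := by
        intro m
        rw [ray_mul]
        exact ai_stable hN _ _ (by omega) (ray_red hL hqc m)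
      unfold en
      simp only [h1]
      exact eventually_const
    intro q q' hq hq' hz hz'
    rw [key q hq hz, key q' hq' hz']
  | succ k ih =>
    intro L z hL hx hlen
    set h := FreeGroup.mk (L ++ [z]) with hh
    -- children
    have hchild : ∀ y, y ≠ bar z → IsReduced ((L ++ [z]) ++ [y]) := by
      intro y hy
      unfold FreeGroup.IsReduced
      rw [List.isChain_append]
      refine ⟨hL, List.isChain_singleton _, ?_⟩
      intro a ha b hb
      have ha' : z = a := by simpa using ha
      have hb' : y = b := by simpa using hb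
      subst ha' hb'
      rw [red_step]
      exact hy
    set c : Ltr n → Prop := fun y => ∃ q, Rt p q ∧ q.getLast? = some y ∧
      en (FreeGroup.mk q) (FreeGroup.mk ((L ++ [z]) ++ [y])) B with hc
    have hcol : ∀ y, y ≠ bar z → ∀ q, Rt p q → q.getLast? = some y →
        (en (FreeGroup.mk q) (FreeGroup.mk ((L ++ [z]) ++ [y])) B ↔ c y) := by
      intro y hy q hq hqy
      constructor
      · exact fun h1 => ⟨q, hq, hqy, h1⟩
      · rintro ⟨q', hq', hqy', h1⟩
        refine (ih (L ++ [z]) y (hchild y hy) (hx.trans (List.prefix_append _ _)) ?_ q' q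
          hq' hq hqy' hqy).1 h1
        simp only [List.length_append, List.length_cons, List.length_nil] at hlen ⊢
        omega
    have hstart : ∀ y t, Rt p (y :: t) → y ≠ bar z →
        (en (FreeGroup.mk (y :: t)) h B ↔ c y) := by
      intro y t hq hy
      rw [en_next (Rt_inj hu hq) hB, hh, ← q_mk_snoc]
      exact hcol y hy _ (Rt_rot hq (List.isRotated_append (l := t) (l' := [y]))) (by simp)
    have hcylx : ∀ y t, Rt p (y :: t) → y ≠ bar z → en (FreeGroup.mk (y :: t)) h (Cyl [x]) := by
      intro y t hq hy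
      rw [en_next (Rt_inj hu hq) (ai_Cyl [x] (by simp)), hh, ← q_mk_snoc]
      have hq' : Rt p (t ++ [y]) := Rt_rot hq (List.isRotated_append (l := t) (l' := [y]))
      refine en_mono ?_ (ray_cyl (hchild y hy) (Rt_cycred hp hq') (by simp))
      intro g hg
      exact (hx.trans (List.prefix_append _ _)).trans hg
    have hturn : ∀ a b, CPair p a b → bar a ≠ bar z → b ≠ bar z → (c (bar a) ↔ c b) := by
      rintro a b ⟨t, ht, hb⟩ ha hbz
      obtain ⟨t', ht'⟩ : ∃ t', t ++ [a] = b :: t' := by
        rcases hta : t ++ [a] with _ | ⟨b', t'⟩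
        · simp at hta
        · rw [hta] at hb
          have : b' = b := by simpa using hb
          exact ⟨t', by rw [this]⟩
      have hq1 : Rt p (t ++ [a]) := by
        refine Or.inl (List.IsRotated.trans ?_ ht)
        exact List.isRotated_append (l := t) (l' := [a])
      have hq1' : Rt p (b :: t') := ht' ▸ hq1
      have hq2 : Rt p (bar a :: FreeGroup.invRev t) := by
        have := Rt_inv hq1
        rwa [invRev_snoc] at this
      have hinv : FreeGroup.mk (bar a :: FreeGroup.invRev t) =
          (FreeGroup.mk (b :: t'))⁻¹ := by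
        rw [← ht', FreeGroup.inv_mk, invRev_snoc]
      have e1 := hstart b t' hq1' hbz
      have e2 := hstart (bar a) (FreeGroup.invRev t) hq2 ha
      have f1 := hcylx b t' hq1' hbz
      have f2 := hcylx (bar a) (FreeGroup.invRev t) hq2 ha
      rw [← hBC, en_union (Rt_inj hu hq1') hB] at f1
      rw [← hBC, en_union (Rt_inj hu hq2) hB] at f2
      rw [hinv] at e2 f2
      have hnj := Rt_NJ hu hB hC hNJ hq1' h
      rw [← e1, ← e2]
      tauto
    -- a different colour gives a cut pair
    have hall : ∀ y t, Rt p (y :: t) → (y :: t).getLast? = some z → (c y ↔ c z) := by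
      intro y t hq hz
      by_contra hne
      have hqc := Rt_cycred hp hq
      have hy : y ≠ bar z := by
        rw [← red_step]
        exact hqc.2 z hz y (by simp)
      apply hcut
      refine ⟨fun d => d = bar z ∨ (d ≠ bar z ∧ ¬ (c d ↔ c z)), bar z, Or.inl rfl, ?_, ?_, ?_⟩
      · rw [q_bar_bar]
        rintro (h1 | ⟨-, h1⟩)
        · exact q_bar_ne z h1.symm
        · exact h1 Iff.rfl
      · intro a b hab
        constructor
        · rintro ⟨h1, h2⟩
          by_cases hb : b = bar z
          · exact Or.inl hb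
          · refine Or.inr ⟨hb, ?_⟩
            rcases h1 with h1 | ⟨-, h1⟩
            · exact absurd h1 h2
            · rwa [← hturn a b hab h2 hb]
        · rintro ⟨h1, h2⟩
          by_cases ha : bar a = bar z
          · exact Or.inl ha
          · refine Or.inr ⟨ha, ?_⟩
            rcases h1 with h1 | ⟨-, h1⟩
            · exact absurd h1 h2
            · rwa [hturn a b hab ha h2]
      · obtain ⟨t', ht'⟩ := List.getLast?_eq_some_iff.1 hz
        rcases hq with hq | hq
        · refine ⟨z, y, ⟨t', ?_, ?_⟩, Or.inl ⟨rfl, Or.inr ⟨hy, hne⟩, hy⟩⟩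
          · refine List.IsRotated.trans ?_ hq
            rw [ht']
            exact List.isRotated_append (l := [z]) (l' := t')
          · rw [← ht']
            rfl
        · refine ⟨bar y, bar z, ⟨FreeGroup.invRev t, ?_, ?_⟩, Or.inr ⟨rfl, ?_, ?_⟩⟩
          · have h1 := invRev_rot hq
            rw [FreeGroup.invRev_invRev, invRev_cons] at h1
            refine List.IsRotated.trans ?_ h1
            exact List.isRotated_append (l := [bar y]) (l' := FreeGroup.invRev t)
          · rw [← invRev_cons, ht', invRev_snoc]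
            rfl
          · rw [q_bar_bar]
            exact Or.inr ⟨hy, hne⟩
          · rw [q_bar_bar]
            exact hy
    intro q q' hq hq' hz hz'
    rcases q with _ | ⟨y, t⟩
    · simp at hz
    rcases q' with _ | ⟨y', t'⟩
    · simp at hz'
    have hy : y ≠ bar z := by
      rw [← red_step]
      exact (Rt_cycred hp hq).2 z hz y (by simp)
    have hy' : y' ≠ bar z := by
      rw [← red_step]
      exact (Rt_cycred hp hq').2 z hz' y' (by simp)
    rw [hstart y t hq hy, hstart y' t' hq' hy', hall y t hq hz, hall y' t' hq' hz']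

end WPQ
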