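import Pool.Agent.Lib.WPP_B
import Pool.Agent.Lib.WPQ_Ends

/-!
# PROJECT WPQ (MP_2e2606_al): cylinders of the free group and the lines which cross them
-/

namespace WPQ

open WPP FreeGroup List Filter

variable {n : ℕ}

/-- factors of reduced words are reduced -/
theorem red_sub {L L' : Word n} (h : IsReduced L) (h' : L' <:+: L) : IsReduced L' := by
  obtain ⟨s, t, rfl⟩ := h'
  unfold FreeGroup.IsReduced at h ⊢
  exact (List.isChain_append.1 (List.isChain_append.1 h).1).2.1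

theorem red_step (u v : Ltr n) : (u.1 = v.1 → u.2 = v.2) ↔ v ≠ bar u := rowB_red u v

theorem q_bar_bar (y : Ltr n) : bar (bar y) = y := rowB_bar_bar y

theorem q_bar_ne (y : Ltr n) : bar y ≠ y := rowB_bar_ne y

theorem q_mk_cons (v : Ltr n) (l : Word n) : FreeGroup.mk (v :: l) = lt v * FreeGroup.mk l :=
  rowB_mk_cons v l

theorem q_lt_bar (y : Ltr n) : lt (bar y) = (lt y)⁻¹ := rowB_lt_bar y

theorem q_mk_snoc (l : Word n) (v : Ltr n) : FreeGroup.mk (l ++ [v]) = FreeGroup.mk l * lt v := by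
  rw [← FreeGroup.mul_mk]
  rfl

theorem toWord_mk' {L : Word n} (h : IsReduced L) : (FreeGroup.mk L).toWord = L := by
  rw [FreeGroup.toWord_mk, h.reduce_eq]

theorem invRev_snoc (l : Word n) (v : Ltr n) :
    FreeGroup.invRev (l ++ [v]) = bar v :: FreeGroup.invRev l := by
  simp [FreeGroup.invRev, bar]

theorem invRev_cons (l : Word n) (v : Ltr n) :
    FreeGroup.invRev (v :: l) = FreeGroup.invRev l ++ [bar v] := by
  simp [FreeGroup.invRev, bar]

theorem invRev_app (l m : Word n) :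
    FreeGroup.invRev (l ++ m) = FreeGroup.invRev m ++ FreeGroup.invRev l := by
  simp [FreeGroup.invRev]

theorem ai_of_letters {B : Set (FreeGroup (Fin n))}
    (h : ∀ y : Ltr n, {x : FreeGroup (Fin n) | ¬ (x ∈ B ↔ x * lt y ∈ B)}.Finite) : AI B := by
  intro s
  rw [← FreeGroup.mk_toWord (x := s)]
  generalize s.toWord = w
  induction w with
  | nil =>
    refine Set.finite_empty.subset ?_
    intro x hx
    simp only [Set.mem_ofPred_eq] at hx
    exact hx (by rw [show FreeGroup.mk ([] : Word n) = 1 from rfl, mul_one])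
  | cons y w ih =>
    have h1 := ih.preimage (f := fun x => x * lt y) (mul_left_injective _).injOn
    refine ((h y).union h1).subset ?_
    intro x hx
    simp only [Set.mem_ofPred_eq, Set.mem_union, Set.mem_preimage] at hx ⊢
    rw [q_mk_cons, ← mul_assoc] at hx
    tauto

/-- the reduced word of `h y` -/
theorem toWord_mul_lt (h : FreeGroup (Fin n)) (y : Ltr n) :
    (∃ t, h.toWord = t ++ [bar y] ∧ (h * lt y).toWord = t) ∨
      ((h * lt y).toWord = h.toWord ++ [y] ∧ ∀ t, h.toWord ≠ t ++ [bar y]) := by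
  by_cases hc : ∃ t, h.toWord = t ++ [bar y]
  · obtain ⟨t, ht⟩ := hc
    refine Or.inl ⟨t, ht, ?_⟩
    have hr : IsReduced (t ++ [bar y]) := ht ▸ FreeGroup.isReduced_toWord
    have : h = FreeGroup.mk t * lt (bar y) := by
      rw [← q_mk_snoc, ← ht, FreeGroup.mk_toWord]
    rw [this, q_lt_bar, inv_mul_cancel_right]
    exact toWord_mk' (red_sub hr ⟨[], [bar y], by simp⟩)
  · refine Or.inr ⟨?_, fun t ht => hc ⟨t, ht⟩⟩
    have hr : IsReduced (h.toWord ++ [y]) := by
      unfold FreeGroup.IsReduced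
      rw [List.isChain_append]
      refine ⟨FreeGroup.isReduced_toWord, List.isChain_singleton _, ?_⟩
      intro a ha b hb
      have hb' : y = b := by simpa using hb
      subst hb'
      rw [red_step]
      intro hy
      apply hc
      obtain ⟨t, ht⟩ := List.getLast?_eq_some_iff.1 ha
      refine ⟨t, ?_⟩
      rw [ht, hy, q_bar_bar]
    have : h * lt y = FreeGroup.mk (h.toWord ++ [y]) := by
      rw [q_mk_snoc, FreeGroup.mk_toWord]
    rw [this]
    exact toWord_mk' hr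

/-- cylinders -/
def Cyl (v : Word n) : Set (FreeGroup (Fin n)) := {h | v <+: h.toWord}

theorem mem_Cyl {v : Word n} {h : FreeGroup (Fin n)} : h ∈ Cyl v ↔ v <+: h.toWord := Iff.rfl

/-- entering a cylinder -/
theorem cyl_enter {v : Word n} {z : Ltr n} {h : FreeGroup (Fin n)} {y : Ltr n}
    (h1 : h ∉ Cyl (v ++ [z])) (h2 : h * lt y ∈ Cyl (v ++ [z])) : h.toWord = v ∧ y = z := by
  rw [mem_Cyl] at h1 h2
  rcases toWord_mul_lt h y with ⟨t, ht, ht'⟩ | ⟨ht, -⟩
  · exfalso
    rw [ht'] at h2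
    rw [ht] at h1
    exact h1 (h2.trans (List.prefix_append _ _))
  · rw [ht, List.prefix_concat_iff] at h2
    rcases h2 with h2 | h2
    · obtain ⟨h3, h4⟩ := List.append_inj' h2 rfl
      exact ⟨h3.symm, by simpa using h4.symm⟩
    · exact absurd h2 h1

/-- leaving a cylinder -/
theorem cyl_leave {v : Word n} {z : Ltr n} {h : FreeGroup (Fin n)} {y : Ltr n}
    (h1 : h ∈ Cyl (v ++ [z])) (h2 : h * lt y ∉ Cyl (v ++ [z])) :
    h.toWord = v ++ [z] ∧ y = bar z := by
  have h3 : h * lt y * lt (bar y) = h := by rw [q_lt_bar, mul_inv_cancel_right]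
  have h4 := cyl_enter h2 (y := bar y) (by rwa [h3])
  obtain ⟨h5, h6⟩ := h4
  have h7 : y = bar z := by rw [← h6, q_bar_bar]
  refine ⟨?_, h7⟩
  rcases toWord_mul_lt h y with ⟨t, ht, ht'⟩ | ⟨ht, -⟩
  · rw [ht'] at h5
    rw [ht, h5, h6]
  · exfalso
    rw [mem_Cyl] at h1 h2
    apply h2
    rw [ht]
    exact h1.trans (List.prefix_append _ _)

theorem ai_Cyl (v : Word n) (hv : v ≠ []) : AI (Cyl v) := by
  obtain ⟨v', z, rfl⟩ : ∃ v' z, v = v' ++ [z] :=
    ⟨v.dropLast, v.getLast hv, (List.dropLast_append_getLast hv).symm⟩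
  refine ai_of_letters fun y => ?_
  refine (Set.toFinite {FreeGroup.mk v', FreeGroup.mk (v' ++ [z])}).subset ?_
  intro h hh
  simp only [Set.mem_ofPred_eq] at hh
  by_cases h1 : h ∈ Cyl (v' ++ [z])
  · have h2 : h * lt y ∉ Cyl (v' ++ [z]) := fun h2 => hh ⟨fun _ => h2, fun _ => h1⟩
    have := (cyl_leave h1 h2).1
    refine Or.inr ?_
    rw [Set.mem_singleton_iff, ← this, FreeGroup.mk_toWord]
  · have h2 : h * lt y ∈ Cyl (v' ++ [z]) := by
      by_contra h2
      exact hh ⟨fun h => absurd h h1, fun h => absurd h h2⟩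
    have := (cyl_enter h1 h2).1
    refine Or.inl ?_
    rw [← this, FreeGroup.mk_toWord]

/-- discrete intermediate value theorem -/
theorem int_ivt (f : ℤ → Prop) (a b : ℕ) (ha : ¬ f (-(a : ℤ))) (hb : f b) :
    ∃ m : ℤ, ¬ f m ∧ f (m + 1) := by
  by_contra hc
  push Not at hc
  have : ∀ k : ℕ, ¬ f (-(a : ℤ) + k) := by
    intro k
    induction k with
    | zero => simpa using ha
    | succ k ih =>
      have := hc _ ih
      rw [show -(a : ℤ) + ((k + 1 : ℕ) : ℤ) = -(a : ℤ) + k + 1 by push_cast; ring]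
      exact this
  have h := this (a + b)
  apply h
  rw [show -(a : ℤ) + ((a + b : ℕ) : ℤ) = b by push_cast; ring]
  exact hb

theorem word_ivt (B : Set (FreeGroup (Fin n))) (w : Word n) (h : FreeGroup (Fin n))
    (h1 : h ∉ B) (h2 : h * FreeGroup.mk w ∈ B) :
    ∃ t₁ y t₂, w = t₁ ++ y :: t₂ ∧ h * FreeGroup.mk t₁ ∉ B ∧ h * FreeGroup.mk t₁ * lt y ∈ B := by
  induction w generalizing h with
  | nil =>
    exfalso
    rw [show FreeGroup.mk ([] : Word n) = 1 from rfl, mul_one] at h2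
    exact h1 h2
  | cons y w ih =>
    by_cases h3 : h * lt y ∈ B
    · refine ⟨[], y, w, rfl, ?_, ?_⟩
      · rwa [show FreeGroup.mk ([] : Word n) = 1 from rfl, mul_one]
      · rwa [show FreeGroup.mk ([] : Word n) = 1 from rfl, mul_one]
    · rw [q_mk_cons, ← mul_assoc] at h2
      obtain ⟨t₁, y', t₂, rfl, h4, h5⟩ := ih _ h3 h2
      refine ⟨y :: t₁, y', t₂, rfl, ?_, ?_⟩
      · rwa [q_mk_cons, ← mul_assoc]
      · rwa [q_mk_cons, ← mul_assoc]

/-- a line which enters the cylinder of `v z` runs through the last edge -/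
theorem line_enter (p : Word n) (v : Word n) (z : Ltr n) (g : FreeGroup (Fin n))
    (h1 : en (FreeGroup.mk p) g (Cyl (v ++ [z])))
    (h2 : en (FreeGroup.mk p)⁻¹ g (Cyl (v ++ [z]))ᶜ) :
    ∃ (m : ℤ) (t₁ t₂ : Word n), p = t₁ ++ z :: t₂ ∧
      (g * FreeGroup.mk p ^ m * FreeGroup.mk t₁).toWord = v := by
  obtain ⟨b, hb⟩ := h1.exists
  obtain ⟨a, ha⟩ := h2.exists
  obtain ⟨m, hm, hm'⟩ := int_ivt (fun m => g * FreeGroup.mk p ^ m ∈ Cyl (v ++ [z])) a b
    (by rw [zpow_neg, zpow_natCast, ← inv_pow]; exact ha) (by rw [zpow_natCast]; exact hb)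
  rw [zpow_add_one, ← mul_assoc] at hm'
  obtain ⟨t₁, y, t₂, hp, h3, h4⟩ := word_ivt _ p _ hm hm'
  obtain ⟨h5, h6⟩ := cyl_enter h3 h4
  exact ⟨m, t₁, t₂, h6 ▸ hp, h5⟩

/-- positions of the letters `j^{±1}`, given as prefixes -/
def PP (j : Fin n) (w : Word n) : Set (Word n) := {t₁ | ∃ y t₂, w = t₁ ++ y :: t₂ ∧ y.1 = j}

theorem PP_encard (j : Fin n) (w : Word n) :
    (PP j w).encard = (w.countP fun y => decide (y.1 = j) : ℕ) := by
  induction w with
  | nil =>
    have : PP j ([] : Word n) = ∅ := by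
      ext t
      simp [PP]
    rw [this]
    simp
  | cons a w ih =>
    have h1 : PP j (a :: w) = {t | t = [] ∧ a.1 = j} ∪ (List.cons a) '' PP j w := by
      ext t
      simp only [PP, Set.mem_ofPred_eq, Set.mem_union, Set.mem_image]
      constructor
      · rintro ⟨y, t₂, h2, h3⟩
        rcases t with _ | ⟨b, t⟩
        · simp only [List.nil_append, List.cons.injEq] at h2
          exact Or.inl ⟨rfl, h2.1 ▸ h3⟩
        · simp only [List.cons_append, List.cons.injEq] at h2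
          exact Or.inr ⟨t, ⟨y, t₂, h2.2, h3⟩, by rw [h2.1]⟩
      · rintro (⟨rfl, h2⟩ | ⟨t', ⟨y, t₂, h2, h3⟩, rfl⟩)
        · exact ⟨a, w, rfl, h2⟩
        · exact ⟨y, t₂, by rw [h2]; rfl, h3⟩
    have hd : Disjoint {t : Word n | t = [] ∧ a.1 = j} ((List.cons a) '' PP j w) := by
      rw [Set.disjoint_left]
      rintro t ⟨rfl, -⟩ ⟨t', -, h⟩
      simp at h
    rw [h1, Set.encard_union_eq hd, (List.cons_injective).encard_image, ih]
    by_cases hj : a.1 = j
    · have : {t : Word n | t = [] ∧ a.1 = j} = {[]} := by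
        ext t
        simp [hj]
      rw [this, Set.encard_singleton, List.countP_cons]
      simp [hj, add_comm]
    · have : {t : Word n | t = [] ∧ a.1 = j} = ∅ := by
        ext t
        simp [hj]
      rw [this, Set.encard_empty, List.countP_cons]
      simp [hj]

/-- the line of a position -/
noncomputable def Fp (u : FreeGroup (Fin n)) (v : Word n) (z : Ltr n) (p : Word n)
    (t₁ : Word n) : FreeGroup (Fin n) ⧸ Subgroup.zpowers u :=
  open Classical in
  if ∃ t₂, p = t₁ ++ z :: t₂ then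
    ((FreeGroup.mk v * (FreeGroup.mk t₁)⁻¹ : FreeGroup (Fin n)) :
      FreeGroup (Fin n) ⧸ Subgroup.zpowers u)
  else ((FreeGroup.mk (v ++ [z]) * (FreeGroup.mk t₁)⁻¹ : FreeGroup (Fin n)) :
      FreeGroup (Fin n) ⧸ Subgroup.zpowers u)

theorem coset_zpow (u a : FreeGroup (Fin n)) (m : ℤ) :
    ((a * u ^ m : FreeGroup (Fin n)) : FreeGroup (Fin n) ⧸ Subgroup.zpowers u) = a := by
  rw [QuotientGroup.eq, Subgroup.mem_zpowers_iff]
  exact ⟨-m, by group⟩

theorem Cr_Cyl_sub (p : Word n) (hu : Function.Injective fun m : ℕ => FreeGroup.mk p ^ m)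
    (v : Word n) (z : Ltr n) :
    Cr (FreeGroup.mk p) (Cyl (v ++ [z])) ⊆ Fp (FreeGroup.mk p) v z p '' PP z.1 p := by
  have hAI : AI (Cyl (v ++ [z])) := ai_Cyl _ (by simp)
  rintro l ⟨g, rfl, hg⟩
  by_cases h1 : en (FreeGroup.mk p) g (Cyl (v ++ [z]))
  · have h2 : ¬ en (FreeGroup.mk p)⁻¹ g (Cyl (v ++ [z])) := fun h2 =>
      hg ⟨fun _ => h2, fun _ => h1⟩
    rw [← en_compl (inj_inv hu) hAI] at h2
    obtain ⟨m, t₁, t₂, hp, ht⟩ := line_enter p v z g h1 h2
    refine ⟨t₁, ⟨z, t₂, hp, rfl⟩, ?_⟩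
    unfold Fp
    rw [if_pos ⟨t₂, hp⟩, ← ht, FreeGroup.mk_toWord, mul_inv_cancel_right, coset_zpow]
  · have h2 : en (FreeGroup.mk p)⁻¹ g (Cyl (v ++ [z])) := by
      by_contra h2
      exact hg ⟨fun h => absurd h h1, fun h => absurd h h2⟩
    rw [← en_compl hu hAI] at h1
    rw [FreeGroup.inv_mk] at h2
    obtain ⟨m, s₁, s₂, hs, ht⟩ := line_enter (FreeGroup.invRev p) v z g h2
      (by rwa [← FreeGroup.inv_mk, inv_inv])
    have hp : p = FreeGroup.invRev s₂ ++ bar z :: FreeGroup.invRev s₁ := by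
      have := congrArg FreeGroup.invRev hs
      rw [FreeGroup.invRev_invRev, invRev_app, invRev_cons] at this
      simpa using this
    refine ⟨FreeGroup.invRev s₂, ⟨bar z, _, hp, rfl⟩, ?_⟩
    unfold Fp
    rw [if_neg]
    · have h3 : FreeGroup.mk v = g * (FreeGroup.mk p)⁻¹ ^ m * FreeGroup.mk s₁ := by
        rw [← ht, FreeGroup.mk_toWord, ← FreeGroup.inv_mk]
      have h4 : FreeGroup.mk p = (FreeGroup.mk s₂)⁻¹ * ((lt z)⁻¹ * (FreeGroup.mk s₁)⁻¹) := by
        conv_lhs => rw [hp]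
        rw [← FreeGroup.mul_mk, q_mk_cons, q_lt_bar, ← FreeGroup.inv_mk, ← FreeGroup.inv_mk]
      have h5 : FreeGroup.mk (v ++ [z]) * (FreeGroup.mk (FreeGroup.invRev s₂))⁻¹ =
          g * FreeGroup.mk p ^ (-m - 1) := by
        rw [q_mk_snoc, h3, ← FreeGroup.inv_mk, inv_inv, zpow_sub_one, inv_zpow', mul_assoc g,
          mul_assoc, mul_assoc]
        congr 1
        rw [mul_assoc]
        congr 1
        rw [h4]
        group
      rw [h5, coset_zpow]
    · rintro ⟨t₂, ht₂⟩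
      have h5 := hp.symm.trans ht₂
      rw [List.append_right_inj, List.cons.injEq] at h5
      exact q_bar_ne z h5.1

/-- (SY): at most as many crossing lines as occurrences of the last letter -/
theorem Cr_Cyl_le (p : Word n) (hu : Function.Injective fun m : ℕ => FreeGroup.mk p ^ m)
    (v : Word n) (hv : v ≠ []) (hq : ∀ j : Fin n, (p.countP fun y => decide (y.1 = j)) ≤ 2) :
    (Cr (FreeGroup.mk p) (Cyl v)).encard ≤ 2 := by
  obtain ⟨v', z, rfl⟩ : ∃ v' z, v = v' ++ [z] :=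
    ⟨v.dropLast, v.getLast hv, (List.dropLast_append_getLast hv).symm⟩
  calc (Cr (FreeGroup.mk p) (Cyl (v' ++ [z]))).encard
      ≤ (Fp (FreeGroup.mk p) v' z p '' PP z.1 p).encard :=
        Set.encard_le_encard (Cr_Cyl_sub p hu v' z)
    _ ≤ (PP z.1 p).encard := Set.encard_image_le _ _
    _ = _ := PP_encard z.1 p
    _ ≤ 2 := by exact_mod_cast hq z.1

end WPQ
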