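import Pool.Agent.Lib.WPP_Base

/-!
# PROJECT WPR (MP_2e2606_al), strong form: base definitions

Whitehead moves `tau A x`, signed permutations `omg σ s`, walks in a set with an action of the free
group, configurations on `M` points and their transitions, marked cyclic words in two letters.
-/

namespace WPP

open FreeGroup List

/-- `z` if `d ∈ A`, else `1` -/
noncomputable def Kp {n : ℕ} (A : Ltr n → Prop) (z d : Ltr n) : FreeGroup (Fin n) := by
  classical
  exact if A d then lt z else 1

/-- the endomorphism `y ↦ K(y) y K(y⁻¹)⁻¹` (letters `z^{±1}` fixed) -/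
noncomputable def tauHom {n : ℕ} (A : Ltr n → Prop) (z : Ltr n) :
    FreeGroup (Fin n) →* FreeGroup (Fin n) :=
  FreeGroup.lift fun i =>
    if i = z.1 then FreeGroup.of i
    else Kp A z (i, true) * FreeGroup.of i * (Kp A z (i, false))⁻¹

theorem lt_true {n : ℕ} (i : Fin n) : lt (i, true) = FreeGroup.of i := rfl

theorem lt_false {n : ℕ} (i : Fin n) : lt (i, false) = (FreeGroup.of i)⁻¹ := rfl

theorem lt_bar {n : ℕ} (d : Ltr n) : lt (bar d) = (lt d)⁻¹ := by
  obtain ⟨i, b⟩ := d
  cases b
  · show lt (i, true) = (lt (i, false))⁻¹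
    rw [lt_true, lt_false, inv_inv]
  · rfl

theorem bar_bar {n : ℕ} (d : Ltr n) : bar (bar d) = d := by
  obtain ⟨i, b⟩ := d
  simp [bar]

theorem tauHom_fix {n : ℕ} (A : Ltr n → Prop) (z d : Ltr n) (h : d.1 = z.1) :
    tauHom A z (lt d) = lt d := by
  obtain ⟨i, b⟩ := d
  have hi : tauHom A z (FreeGroup.of i) = FreeGroup.of i := by
    have h' : i = z.1 := h
    simp [tauHom, h']
  cases b
  · rw [lt_false, _root_.map_inv, hi]
  · rw [lt_true, hi]

theorem tauHom_lt {n : ℕ} (A : Ltr n → Prop) (z d : Ltr n) (h : d.1 ≠ z.1) :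
    tauHom A z (lt d) = Kp A z d * lt d * (Kp A z (bar d))⁻¹ := by
  obtain ⟨i, b⟩ := d
  have h' : ¬ i = z.1 := h
  have hi : tauHom A z (FreeGroup.of i) =
      Kp A z (i, true) * FreeGroup.of i * (Kp A z (i, false))⁻¹ := by
    simp [tauHom, h']
  cases b
  · rw [lt_false, _root_.map_inv, hi]
    simp only [bar, Bool.not_false]
    group
  · rw [lt_true, hi]
    rfl

theorem tauHom_Kp {n : ℕ} (A : Ltr n → Prop) (z y d : Ltr n) (h : y.1 = z.1) :
    tauHom A z (Kp A y d) = Kp A y d := by
  classical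
  unfold Kp
  by_cases hd : A d
  · simp only [hd, if_true]
    exact tauHom_fix A z y h
  · simp [hd]

theorem Kp_bar {n : ℕ} (A : Ltr n → Prop) (z d : Ltr n) : Kp A (bar z) d = (Kp A z d)⁻¹ := by
  classical
  unfold Kp
  by_cases hd : A d
  · simp only [hd, if_true]
    exact lt_bar z
  · simp [hd]

theorem tauHom_tauHom {n : ℕ} (A : Ltr n → Prop) (z : Ltr n) (g : FreeGroup (Fin n)) :
    tauHom A (bar z) (tauHom A z g) = g := by
  have key : (tauHom A (bar z)).comp (tauHom A z) = MonoidHom.id _ := by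
    refine FreeGroup.ext_hom _ _ fun i => ?_
    rw [MonoidHom.comp_apply, MonoidHom.id_apply, ← lt_true]
    by_cases h : i = z.1
    · rw [tauHom_fix A z (i, true) h, tauHom_fix A (bar z) (i, true) h]
    · rw [tauHom_lt A z (i, true) h, _root_.map_mul, _root_.map_mul, _root_.map_inv,
        tauHom_Kp A (bar z) z _ rfl, tauHom_Kp A (bar z) z _ rfl,
        tauHom_lt A (bar z) (i, true) h, Kp_bar, Kp_bar]
      group
  exact DFunLike.congr_fun key g

/-- the Whitehead automorphism of `(A, x)` -/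
noncomputable def tau {n : ℕ} (A : Ltr n → Prop) (x : Ltr n) :
    FreeGroup (Fin n) ≃* FreeGroup (Fin n) where
  toFun := tauHom A x
  invFun := tauHom A (bar x)
  left_inv := tauHom_tauHom A x
  right_inv g := by
    have h := tauHom_tauHom A (bar x) g
    rwa [bar_bar] at h
  map_mul' := _root_.map_mul _

theorem tau_apply {n : ℕ} (A : Ltr n → Prop) (x : Ltr n) (g : FreeGroup (Fin n)) :
    tau A x g = tauHom A x g := rfl

theorem tau_symm_apply {n : ℕ} (A : Ltr n → Prop) (x : Ltr n) (g : FreeGroup (Fin n)) :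
    (tau A x).symm g = tauHom A (bar x) g := rfl

/-- signed permutation of the letters -/
def oml {n : ℕ} (σ : Equiv.Perm (Fin n)) (s : Fin n → Bool) (d : Ltr n) : Ltr n :=
  (σ d.1, d.2 == s d.1)

theorem oml_bar {n : ℕ} (σ : Equiv.Perm (Fin n)) (s : Fin n → Bool) (d : Ltr n) :
    oml σ s (bar d) = bar (oml σ s d) := by
  obtain ⟨i, b⟩ := d
  simp only [oml, bar, Prod.mk.injEq, true_and]
  cases b <;> cases s i <;> rfl

/-- the endomorphism of a signed permutation -/
def omgHom {n : ℕ} (σ : Equiv.Perm (Fin n)) (s : Fin n → Bool) :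
    FreeGroup (Fin n) →* FreeGroup (Fin n) :=
  FreeGroup.lift fun i => lt (oml σ s (i, true))

theorem omgHom_lt {n : ℕ} (σ : Equiv.Perm (Fin n)) (s : Fin n → Bool) (d : Ltr n) :
    omgHom σ s (lt d) = lt (oml σ s d) := by
  obtain ⟨i, b⟩ := d
  cases b
  · have h : lt ((i, false) : Ltr n) = (lt ((i, true) : Ltr n))⁻¹ := rfl
    rw [h, _root_.map_inv]
    have h2 : omgHom σ s (lt (i, true)) = lt (oml σ s (i, true)) := by
      rw [lt_true]; simp [omgHom]
    rw [h2]
    have h3 : oml σ s ((i, false) : Ltr n) = bar (oml σ s (i, true)) := by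
      rw [← oml_bar]; rfl
    rw [h3, lt_bar]
  · rw [lt_true]; simp [omgHom]

/-- the automorphism of a signed permutation -/
def omg {n : ℕ} (σ : Equiv.Perm (Fin n)) (s : Fin n → Bool) :
    FreeGroup (Fin n) ≃* FreeGroup (Fin n) where
  toFun := omgHom σ s
  invFun := omgHom σ.symm (fun i => s (σ.symm i))
  left_inv g := by
    have key : (omgHom σ.symm (fun i => s (σ.symm i))).comp (omgHom σ s) = MonoidHom.id _ := by
      refine FreeGroup.ext_hom _ _ fun i => ?_
      rw [MonoidHom.comp_apply, MonoidHom.id_apply, ← lt_true, omgHom_lt, omgHom_lt]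
      congr 1
      simp only [oml, Equiv.symm_apply_apply, Prod.mk.injEq, true_and]
      cases s i <;> rfl
    exact DFunLike.congr_fun key g
  right_inv g := by
    have key : (omgHom σ s).comp (omgHom σ.symm (fun i => s (σ.symm i))) = MonoidHom.id _ := by
      refine FreeGroup.ext_hom _ _ fun i => ?_
      rw [MonoidHom.comp_apply, MonoidHom.id_apply, ← lt_true, omgHom_lt, omgHom_lt]
      congr 1
      simp only [oml, Equiv.apply_symm_apply, Prod.mk.injEq, true_and]
      cases s (σ.symm i) <;> rfl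
    exact DFunLike.congr_fun key g
  map_mul' := _root_.map_mul _

theorem omg_lt {n : ℕ} (σ : Equiv.Perm (Fin n)) (s : Fin n → Bool) (d : Ltr n) :
    omg σ s (lt d) = lt (oml σ s d) := omgHom_lt σ s d

/-- all images of basis elements have length at most `3` -/
def Short {n : ℕ} (e : FreeGroup (Fin n) ≃* FreeGroup (Fin n)) : Prop :=
  ∀ i : Fin n, (e (FreeGroup.of i)).toWord.length ≤ 3

/-! ### walks in a set with an action -/

/-- the end of the walk from `c` along the letter `d` -/
def stp {n : ℕ} {X : Type} (ρ : FreeGroup (Fin n) →* Equiv.Perm X) (c : X) (d : Ltr n) : X :=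
  (ρ (lt d))⁻¹ c

/-- `Pth ρ V c h`: some walk from `c` with label `h` stays in `V` -/
inductive Pth {n : ℕ} {X : Type} (ρ : FreeGroup (Fin n) →* Equiv.Perm X) (V : Set X) :
    X → FreeGroup (Fin n) → Prop
  | refl {c : X} : c ∈ V → Pth ρ V c 1
  | step {c : X} {h : FreeGroup (Fin n)} (d : Ltr n) :
      Pth ρ V c h → (ρ (h * lt d))⁻¹ c ∈ V → Pth ρ V c (h * lt d)

/-- every walk between points of `V` can be replaced by one in `V` with the same label -/
def Car {n : ℕ} {X : Type} (ρ : FreeGroup (Fin n) →* Equiv.Perm X) (V : Set X) : Prop :=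
  ∀ c ∈ V, ∀ h : FreeGroup (Fin n), (ρ h)⁻¹ c ∈ V → Pth ρ V c h

/-- transitivity -/
def Trans {n : ℕ} {X : Type} (ρ : FreeGroup (Fin n) →* Equiv.Perm X) : Prop :=
  ∀ c c' : X, ∃ h, ρ h c = c'

/-- all point stabilisers are free factors of rank at most `m` (in a form which needs no theory:
`B` generates the stabiliser, `B` and `C` together generate the group, `|B| + |C| ≤ n`) -/
def FF {n : ℕ} {X : Type} (ρ : FreeGroup (Fin n) →* Equiv.Perm X) (m : ℕ) : Prop :=
  ∀ c : X, ∃ B C : Finset (FreeGroup (Fin n)), B.card ≤ m ∧ B.card + C.card ≤ n ∧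
    Subgroup.closure ((B : Set (FreeGroup (Fin n))) ∪ C) = ⊤ ∧
    ∀ h, ρ h c = c ↔ h ∈ Subgroup.closure (B : Set (FreeGroup (Fin n)))

/-- the action transported by an automorphism -/
def tw {n : ℕ} {X : Type} (ρ : FreeGroup (Fin n) →* Equiv.Perm X)
    (e : FreeGroup (Fin n) ≃* FreeGroup (Fin n)) : FreeGroup (Fin n) →* Equiv.Perm X :=
  ρ.comp e.symm.toMonoidHom

/-- cut pair for a vertex set `V` -/
structure CutV {n : ℕ} {X : Type} (ρ : FreeGroup (Fin n) →* Equiv.Perm X) (V : Set X)
    (A : Ltr n → Prop) (x : Ltr n) : Prop where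
  hx : A x
  hbx : ¬ A (bar x)
  turn : ∀ c ∈ V, ∀ d d', stp ρ c d ∈ V → stp ρ c d' ∈ V → A d → d ≠ x → A d'
  strict : ∃ c ∈ V, stp ρ c x ∈ V ∧ ∀ d, stp ρ c d ∈ V → A d

/-- the turn condition of a cut pair for a cyclic word -/
def Turn {n : ℕ} (A : Ltr n → Prop) (x : Ltr n) (p : Word n) : Prop :=
  ∀ u v, CPair p u v → ((A (bar u) ∧ bar u ≠ x → A v) ∧ (A v ∧ v ≠ x → A (bar u)))

/-! ### configurations -/

/-- labelled relations on `M` points -/
abbrev Cfg (n M : ℕ) := (Fin M → Ltr n) × (Fin M → Fin M → Prop)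

/-- sound for the subgroup `S` -/
def SndC {n M : ℕ} (S : Subgroup (FreeGroup (Fin n))) (c : Cfg n M) : Prop :=
  ∃ pre : Fin M → FreeGroup (Fin n), Sound S c.1 c.2 pre

/-- transition between configurations: a short automorphism carries soundness over -/
def Tr {n M : ℕ} (c c' : Cfg n M) : Prop :=
  ∃ e : FreeGroup (Fin n) ≃* FreeGroup (Fin n), Short e.symm ∧
    ∀ S : Subgroup (FreeGroup (Fin n)), SndC S c → SndC (S.map e.toMonoidHom) c'

/-- the cyclically reduced word `w` is read by `c` with at most `N` different points -/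
def St {n M : ℕ} (N : ℕ) (c : Cfg n M) (w : Word n) : Prop :=
  IsCyclicallyReduced w ∧ w ≠ [] ∧
    ∃ l : List (Fin M), l.map c.1 = w ∧ Cyc c.2 l ∧ l.toFinset.card ≤ N

/-- conjugate elements -/
def Cj {n : ℕ} (g h : FreeGroup (Fin n)) : Prop := ∃ k, g = k * h * k⁻¹

/-! ### the general move on positions -/

/-- points: (position, false = start / true = end of the position, side) -/
abbrev Pt (β : Type) := β × Bool × Bool

/-- labels of the new positions: `(p, 0)` and `(p, 1)` are `p` read at its natural sides / at the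
inner side, `(p, 2)` is `x` inserted after `p`, `(p, 3)` is `x⁻¹` inserted before `p` -/
def labG {n : ℕ} {β : Type} (lab : β → Ltr n) (x : Ltr n) (q : β × Fin 4) : Ltr n :=
  if q.2 = 0 ∨ q.2 = 1 then lab q.1 else if q.2 = 2 then x else bar x

/-- elementary identifications of points -/
def rel0 {n : ℕ} {β : Type} (lab : β → Ltr n) (x : Ltr n) (R : β → β → Prop)
    (s t : Pt β) : Prop :=
  (R s.1 t.1 ∧ s.2.1 = true ∧ t.2.1 = false ∧ s.2.2 = t.2.2) ∨
  (s.1 = t.1 ∧ lab s.1 = x ∧ s.2 = (false, false) ∧ t.2 = (true, true)) ∨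
  (s.1 = t.1 ∧ lab s.1 = bar x ∧ s.2 = (false, true) ∧ t.2 = (true, false))

/-- start point of a new position (side `true` = outside of `A`) -/
noncomputable def stG {n : ℕ} {β : Type} (lab : β → Ltr n) (A : Ltr n → Prop) (x : Ltr n)
    (q : β × Fin 4) : Pt β := by
  classical
  exact if q.2 = 0 then (q.1, false, decide (Es A x (lab q.1)))
    else if q.2 = 1 then (q.1, false, false)
    else if q.2 = 2 then (q.1, true, true) else (q.1, false, false)

/-- end point of a new position -/
noncomputable def enG {n : ℕ} {β : Type} (lab : β → Ltr n) (A : Ltr n → Prop) (x : Ltr n)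
    (q : β × Fin 4) : Pt β := by
  classical
  exact if q.2 = 0 then (q.1, true, decide (Xs A x (lab q.1)))
    else if q.2 = 1 then (q.1, true, false)
    else if q.2 = 2 then (q.1, true, false) else (q.1, false, true)

/-- the relation on the new positions. Positions `(p, 1)` are only used for `lab p = x^{±1}`. -/
def mvG {n : ℕ} {β : Type} (lab : β → Ltr n) (A : Ltr n → Prop) (x : Ltr n)
    (R : β → β → Prop) (a b : β × Fin 4) : Prop :=
  (a.2 = 1 → (lab a.1).1 = x.1) ∧ (b.2 = 1 → (lab b.1).1 = x.1) ∧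
  Relation.EqvGen (rel0 lab x R) (enG lab A x a) (stG lab A x b)

/-! ### two letters -/

/-- the set `A` of the move `α⁻¹ : x_j ↦ x_i⁻¹ x_j`, with `x = x_i⁻¹` -/
def Aal {n : ℕ} (i j : Fin n) : Ltr n → Prop := fun d => d = (i, false) ∨ d = (j, true)

/-- `α : x_j ↦ x_i x_j` -/
noncomputable def alp {n : ℕ} (i j : Fin n) : FreeGroup (Fin n) ≃* FreeGroup (Fin n) :=
  (tau (Aal i j) (i, false)).symm

/-- the swap of `x_i` and `x_j` -/
def swp {n : ℕ} (i j : Fin n) : FreeGroup (Fin n) ≃* FreeGroup (Fin n) :=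
  omg (Equiv.swap i j) fun _ => true

/-- product of `α` (true) and swaps (false); the first entry is applied last -/
noncomputable def muE {n : ℕ} (i j : Fin n) : List Bool → FreeGroup (Fin n) ≃* FreeGroup (Fin n)
  | [] => MulEquiv.refl _
  | true :: μ => (muE i j μ).trans (alp i j)
  | false :: μ => (muE i j μ).trans (swp i j)

/-- the marked cyclic word contains a factor `c d^k d*` (`d*` = marked) -/
def Forb {n : ℕ} (c d : Ltr n) (w : List (Ltr n × Bool)) : Prop :=
  ∃ (m : Bool) (ms : List Bool) (t : List (Ltr n × Bool)),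
    ((c, m) :: (ms.map (fun m' => (d, m')) ++ (d, true) :: t)) ~r w

/-- the marked cyclic word contains a factor `d* d^k c` -/
def ForbR {n : ℕ} (c d : Ltr n) (w : List (Ltr n × Bool)) : Prop :=
  ∃ (m : Bool) (ms : List Bool) (t : List (Ltr n × Bool)),
    ((d, true) :: (ms.map (fun m' => (d, m')) ++ (c, m) :: t)) ~r w

/-- the invariant of marked cyclic words -/
structure NoF {n : ℕ} (i j : Fin n) (w : List (Ltr n × Bool)) : Prop where
  f1 : ¬ Forb (i, true) (j, true) w
  f2 : ¬ Forb (j, true) (i, true) w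
  f3 : ¬ ForbR (j, false) (i, false) w
  f4 : ¬ ForbR (i, false) (j, false) w

/-- subgroup generated by the basis elements in `T` -/
def FT {n : ℕ} (T : Set (Fin n)) : Subgroup (FreeGroup (Fin n)) :=
  Subgroup.closure (FreeGroup.of '' T)

/-- the graph of a finite vertex set `V` in a set with an action -/
noncomputable def gE {n : ℕ} {X : Type} (ρ : FreeGroup (Fin n) →* Equiv.Perm X)
    (V : Finset X) : Finset ({c // c ∈ V} × Fin n × {c // c ∈ V}) := by
  classical
  exact Finset.univ.filter fun t => (ρ (FreeGroup.of t.2.1))⁻¹ t.1.1 = t.2.2.1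

/-- composition of a list of automorphisms, the last entry is applied first -/
def cmp {n : ℕ} : List (FreeGroup (Fin n) ≃* FreeGroup (Fin n)) →
    (FreeGroup (Fin n) ≃* FreeGroup (Fin n))
  | [] => MulEquiv.refl _
  | e :: es => (cmp es).trans e

/-- number of configurations on `M` points -/
def bnd (n M : ℕ) : ℕ := (2 * n) ^ M * 2 ^ (M * M)

/-- `g` lies in a free factor of rank at most two -/
def C2 {n : ℕ} (g : FreeGroup (Fin n)) : Prop :=
  ∃ (φ : FreeGroup (Fin n) ≃* FreeGroup (Fin n)) (T : Finset (Fin n)),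
    T.card ≤ 2 ∧ φ g ∈ FT (T : Set (Fin n))

/-- number of different basis letters of a word -/
def supp {n : ℕ} (w : Word n) : ℕ := (w.map Prod.fst).dedup.length

end WPP
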