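import Pool.Agent.Lib.WPR_Base

/-!
# PROJECT WPR (MP_2e2606_al): definitions for the algorithm

Finite lists of codes of short automorphisms, quadratic words, start words.
-/

namespace WPP

open FreeGroup List

/-- all lists of length `k` over `L` -/
def lists {β : Type} (L : List β) : ℕ → List (List β)
  | 0 => [[]]
  | k + 1 => (lists L k).flatMap fun l => L.map fun a => a :: l

/-- all words of length at most three -/
def words3 (n : ℕ) : List (Word n) := (List.range 4).flatMap fun k => lists (letters n) k

/-- codes of the short automorphisms: lists of the images of the basis elements -/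
noncomputable def codes (n : ℕ) : List (List (Word n)) := by
  classical
  exact (lists (words3 n) n).filter fun us =>
    decide (∃ e : FreeGroup (Fin n) ≃* FreeGroup (Fin n),
      ∀ i : Fin n, e (FreeGroup.of i) = FreeGroup.mk (us.getD i.1 []))

/-- all sequences of at most `B` codes -/
noncomputable def seqs (n B : ℕ) : List (List (List (Word n))) :=
  (List.range (B + 1)).flatMap fun k => lists (codes n) k

/-- the image of a word under a sequence of codes, the last entry is applied first -/
def substSeq {n : ℕ} (s : List (List (Word n))) (w : Word n) : Word n :=
  s.foldr (fun us v => FreeGroup.reduce (subst us v)) w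

/-- cyclically reduced form -/
def crw {n : ℕ} (w : Word n) : Word n := reduceCyclically (FreeGroup.reduce w)

/-- every basis letter occurs at most twice -/
def Quad {n : ℕ} (q : Word n) : Prop := ∀ i : Fin n, (q.map Prod.fst).count i ≤ 2

/-- some automorphic image of `g` is a power of a quadratic word -/
def QP {n : ℕ} (g : FreeGroup (Fin n)) : Prop :=
  ∃ (φ : FreeGroup (Fin n) ≃* FreeGroup (Fin n)) (q : Word n) (k : ℕ),
    Quad q ∧ φ g = FreeGroup.mk q ^ k

/-- words of length at most `2 n` -/
def words2 (n : ℕ) : List (Word n) := (List.range (2 * n + 1)).flatMap fun k => lists (letters n) k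

/-- pairs of quadratic words in the same orbit -/
noncomputable def table (n : ℕ) : List (Word n × Word n) := by
  classical
  exact ((words2 n).flatMap fun q => (words2 n).map fun q' => (q, q')).filter fun z =>
    decide (Quad z.1 ∧ ∃ φ : FreeGroup (Fin n) ≃* FreeGroup (Fin n),
      φ (FreeGroup.mk z.1) = FreeGroup.mk z.2)

/-- start words of a cyclically reduced word -/
noncomputable def startW {n : ℕ} (v : Word n) : List (Word n) :=
  (if supp v ≤ 2 then [v] else []) ++
  (table n).flatMap fun z => (List.range (v.length + 1)).flatMap fun k =>
    if v = (List.replicate k z.1).flatten then [(List.replicate k z.2).flatten] else []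

/-- start words of a word -/
noncomputable def start {n : ℕ} (w : Word n) : List (Word n) :=
  (seqs n w.length).flatMap fun s => startW (crw (substSeq s w))

end WPP
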