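import Pool.Agent.Lib.WPR_Base

/-! # PROJECT WPR, row a1: a connected graph over two folded vertices gives a cut pair -/

namespace WPP
open FreeGroup List

theorem cut_two_general {n : ℕ} {V : Type} (E : Finset (V × Fin n × V)) {D : Type}
    (ed : D → Ltr n → D → Prop) (hsym : ∀ c d c', ed c d c' → ed c' (bar d) c)
    (hconn : ∀ c c', Relation.ReflTransGen (fun a b => ∃ d, ed a d b) c c')
    (f : D → V) (hf : ∀ c d c', ed c d c' → Edge E (f c) d (f c')) (q₁ q₂ : V) (hne : q₁ ≠ q₂)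
    (hin : ∀ c, f c = q₁ ∨ f c = q₂) (hq1 : ∃ c, f c = q₁) (hq2 : ∃ c, f c = q₂)
    (u : V) (y : Ltr n) (h1 : Edge E u y q₁) (h2 : Edge E u y q₂)
    (huniq : ∀ d c c', (c = q₁ ∨ c = q₂) → (c' = q₁ ∨ c' = q₂) → Edge E q₁ d c →
      Edge E q₂ d c' → d = bar y ∧ c = u ∧ c' = u) :
    ∃ (A : Ltr n → Prop) (x : Ltr n), A x ∧ ¬ A (bar x) ∧
      (∀ c d d', (∃ c', ed c d c') → (∃ c', ed c d' c') → A d → d ≠ x → A d') ∧
      ∃ c, (∃ c', ed c x c') ∧ ∀ d, (∃ c', ed c d c') → A d := by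
  classical
  -- directions used over a vertex
  set U : V → Ltr n → Prop := fun q d => ∃ c c', f c = q ∧ ed c d c' with hU
  have hUe : ∀ q d, U q d → ∃ c, (c = q₁ ∨ c = q₂) ∧ Edge E q d c := by
    rintro q d ⟨c, c', rfl, he⟩
    exact ⟨f c', hin c', hf c d c' he⟩
  have hinter : ∀ d, U q₁ d → U q₂ d → d = bar y ∧ (u = q₁ ∨ u = q₂) := by
    intro d hd1 hd2
    obtain ⟨c, hc, he⟩ := hUe _ _ hd1
    obtain ⟨c', hc', he'⟩ := hUe _ _ hd2
    obtain ⟨h3, h4, -⟩ := huniq d c c' hc hc' he he'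
    exact ⟨h3, by rw [← h4]; exact hc⟩
  have hyne : bar y ≠ y := by
    intro h
    have := congrArg Prod.snd h
    simp [bar] at this
  by_cases hcase : ∃ d, U q₁ d ∧ U q₂ d
  · -- the direction `bar y` is used over both vertices
    obtain ⟨d, hd1, hd2⟩ := hcase
    obtain ⟨hdy, hu⟩ := hinter d hd1 hd2
    rw [hdy] at hd1 hd2
    have key : ∀ r s : V, (r = q₁ ∧ s = q₂ ∨ r = q₂ ∧ s = q₁) → u = s →
        ∃ (A : Ltr n → Prop) (x : Ltr n), A x ∧ ¬ A (bar x) ∧
          (∀ c d d', (∃ c', ed c d c') → (∃ c', ed c d' c') → A d → d ≠ x → A d') ∧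
          ∃ c, (∃ c', ed c x c') ∧ ∀ d, (∃ c', ed c d c') → A d := by
      intro r s hrs hus
      have hUr : U r (bar y) := by rcases hrs with ⟨rfl, -⟩ | ⟨rfl, -⟩ <;> assumption
      have hUrs : ∀ d, U r d → U s d → d = bar y := by
        intro d hr hs
        rcases hrs with ⟨rfl, rfl⟩ | ⟨rfl, rfl⟩
        · exact (hinter d hr hs).1
        · exact (hinter d hs hr).1
      have hyr : ¬ U r y := by
        intro hy
        obtain ⟨e, he1, he2⟩ := hUe _ _ hy
        rcases hrs with ⟨rfl, rfl⟩ | ⟨rfl, rfl⟩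
        · have h6 : Edge E s y s := by rw [hus] at h2; exact h2
          exact hyne (huniq y e s he1 (Or.inr rfl) he2 h6).1.symm
        · have h6 : Edge E s y s := by rw [hus] at h1; exact h1
          exact hyne (huniq y s e (Or.inl rfl) he1 h6 he2).1.symm
      refine ⟨U r, bar y, hUr, by rw [bar_bar]; exact hyr, ?_, ?_⟩
      · rintro c d d' ⟨e, he⟩ ⟨e', he'⟩ hd hdx
        have hqrs : f c = r ∨ f c = s := by
          rcases hrs with ⟨rfl, rfl⟩ | ⟨rfl, rfl⟩
          · exact hin c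
          · exact (hin c).symm
        rcases hqrs with h | h
        · exact ⟨c, e', h, he'⟩
        · exact absurd (hUrs d hd ⟨c, e, h, he⟩) hdx
      · obtain ⟨c, c', hc, he⟩ := hUr
        exact ⟨c, ⟨c', he⟩, fun d ⟨e, hd⟩ => ⟨c, e, hc, hd⟩⟩
    rcases hu with hu | hu
    · exact key q₂ q₁ (Or.inr ⟨rfl, rfl⟩) hu
    · exact key q₁ q₂ (Or.inl ⟨rfl, rfl⟩) hu
  · -- no common direction
    push Not at hcase
    have hstep : ∃ a b d, ed a d b ∧ f a = q₁ ∧ f b = q₂ := by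
      obtain ⟨a, ha⟩ := hq1
      obtain ⟨b, hb⟩ := hq2
      by_contra hno
      push Not at hno
      have hall : ∀ c, Relation.ReflTransGen (fun a b => ∃ d, ed a d b) a c → f c = q₁ := by
        intro c hc
        induction hc with
        | refl => exact ha
        | tail _ hd ih =>
          obtain ⟨d, hd⟩ := hd
          rcases hin _ with h9 | h9
          · exact h9
          · exact absurd h9 (hno _ _ d hd ih)
      exact hne ((hall b (hconn a b)).symm.trans hb)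
    obtain ⟨a, b, x, hab, ha, hb⟩ := hstep
    have hA : U q₁ x := ⟨a, b, ha, hab⟩
    have hB : U q₂ (bar x) := ⟨b, a, hb, hsym _ _ _ hab⟩
    refine ⟨U q₁, x, hA, fun h => hcase _ h hB, ?_, ⟨a, ⟨b, hab⟩, fun d ⟨e, hd⟩ => ⟨a, e, ha, hd⟩⟩⟩
    rintro c d d' ⟨e, he⟩ ⟨e', he'⟩ hd -
    rcases hin c with h | h
    · exact ⟨c, e', h, he'⟩
    · exact absurd ⟨c, e, h, he⟩ (hcase d hd)

end WPP
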