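import Pool.Agent.Lib.WPP_A2
import Pool.Agent.Lib.WPP_A3
import Pool.Agent.Lib.WPR_a1

/-! PROJECT WPR, row a2: the general cut lemma -/

namespace WPP

open FreeGroup List

theorem wpr_a2_aux {n : ℕ} {D : Type} (ed : D → Ltr n → D → Prop)
    (hsym : ∀ c d c', ed c d c' → ed c' (bar d) c)
    (hconn : ∀ c c', Relation.ReflTransGen (fun a b => ∃ d, ed a d b) c c') (N : ℕ) :
    ∀ (V : Type) [Fintype V] [DecidableEq V] (E : Finset (V × Fin n × V)),
    Fintype.card V ≤ N → Full E → E.card + 1 ≤ Fintype.card V + n →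
    ∀ f : D → V, (∀ c d c', ed c d c' → Edge E (f c) d (f c')) → (∃ c c', f c ≠ f c') →
    ∃ (A : Ltr n → Prop) (x : Ltr n), A x ∧ ¬ A (bar x) ∧
      (∀ c d d', (∃ c', ed c d c') → (∃ c', ed c d' c') → A d → d ≠ x → A d') ∧
      ∃ c, (∃ c', ed c x c') ∧ ∀ d, (∃ c', ed c d c') → A d := by
  induction N with
  | zero =>
    rintro V _ _ E hN - - f - ⟨a, -, -⟩
    have : 0 < Fintype.card V := Fintype.card_pos_iff.2 ⟨f a⟩
    omega
  | succ N ih =>
    intro V _ _ E hN h hc f hf hne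
    obtain ⟨a₀, b₀, hab⟩ := hne
    have h2 : 2 ≤ Fintype.card V := Fintype.one_lt_card_iff.2 ⟨f a₀, f b₀, hab⟩
    obtain ⟨u, q₁, q₂, y, hq, h1, h2'⟩ := exists_fold E h h2
    obtain ⟨V', _, _, E', f', hF, hcard, hc', hE, hf', hu⟩ :=
      fold_step E h hc u q₁ q₂ y hq h1 h2'
    by_cases hall : ∃ c c', f' (f c) ≠ f' (f c')
    · exact ih V' E' (by omega) hF hc' (fun c => f' (f c))
        (fun c d c' hcd => hE _ _ _ (hf c d c' hcd)) hall
    · push Not at hall
      have hq0 := (hf' (f a₀) (f b₀)).1 (hall a₀ b₀)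
      have hin : ∀ c, f c = q₁ ∨ f c = q₂ := by
        intro c
        rcases (hf' (f c) (f a₀)).1 (hall c a₀) with h3 | ⟨h3, -⟩
        · rcases hq0 with hq0 | ⟨hq0, -⟩
          · exact absurd hq0 hab
          · rw [h3]
            exact hq0
        · exact h3
      have hq1 : ∃ c, f c = q₁ := by
        rcases hin a₀ with h3 | h3
        · exact ⟨a₀, h3⟩
        · rcases hin b₀ with h4 | h4
          · exact ⟨b₀, h4⟩
          · exact absurd (h3.trans h4.symm) hab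
      have hq2 : ∃ c, f c = q₂ := by
        rcases hin a₀ with h3 | h3
        · rcases hin b₀ with h4 | h4
          · exact absurd (h3.trans h4.symm) hab
          · exact ⟨b₀, h4⟩
        · exact ⟨a₀, h3⟩
      have hf12 : f' q₁ = f' q₂ := (hf' q₁ q₂).2 (Or.inr ⟨Or.inl rfl, Or.inr rfl⟩)
      refine cut_two_general E ed hsym hconn f hf q₁ q₂ hq hin hq1 hq2 u y h1 h2' ?_
      intro d c c' hc1 hc2 hd1 hd2
      rcases hu d q₁ c q₂ c' hd1 hd2 hf12 ((hf' c c').2 (Or.inr ⟨hc1, hc2⟩)) with h3 | h3 | h3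
      · exact absurd h3.1 hq
      · exact absurd (h3.2.1.trans h3.2.2.symm) hq
      · exact h3

theorem cut_general {n : ℕ} {V : Type} [Fintype V] [DecidableEq V]
    (E : Finset (V × Fin n × V)) (h : Full E) (hc : E.card + 1 ≤ Fintype.card V + n)
    {D : Type} (ed : D → Ltr n → D → Prop) (hsym : ∀ c d c', ed c d c' → ed c' (bar d) c)
    (hconn : ∀ c c', Relation.ReflTransGen (fun a b => ∃ d, ed a d b) c c')
    (f : D → V) (hf : ∀ c d c', ed c d c' → Edge E (f c) d (f c'))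
    (hne : ∃ c c', f c ≠ f c') :
    ∃ (A : Ltr n → Prop) (x : Ltr n), A x ∧ ¬ A (bar x) ∧
      (∀ c d d', (∃ c', ed c d c') → (∃ c', ed c d' c') → A d → d ≠ x → A d') ∧
      ∃ c, (∃ c', ed c x c') ∧ ∀ d, (∃ c', ed c d c') → A d :=
  wpr_a2_aux ed hsym hconn (Fintype.card V) V E le_rfl h hc f hf hne

end WPP
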