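import Pool.Agent.Lib.WPR_Base

/-!
# PROJECT WPR (MP_2e2606_al), row b1: attach a loop with a given label to a graph
-/

namespace WPP

open FreeGroup List

/-- a map of graphs transports paths -/
theorem wpr_b1_conn_map {n : ℕ} {V V' : Type} {E : Finset (V × Fin n × V)}
    {E' : Finset (V' × Fin n × V')} {f : V → V'}
    (hf : ∀ a d c, Edge E a d c → Edge E' (f a) d (f c)) {u v : V} {g : FreeGroup (Fin n)}
    (h : Conn E u g v) : Conn E' (f u) g (f v) := by
  induction h with
  | refl => exact Conn.refl _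
  | step _ he ih => exact Conn.step ih (hf _ _ _ he)

theorem attach_loop {n : ℕ} {V : Type} [Fintype V] [DecidableEq V]
    (E : Finset (V × Fin n × V)) (v0 : V) (hconn : ∀ v, ∃ g, Conn E v0 g v)
    (b : Word n) (hb : b ≠ []) :
    ∃ (V' : Type) (_ : Fintype V') (_ : DecidableEq V') (E' : Finset (V' × Fin n × V'))
      (f : V → V'), Function.Injective f ∧ (∀ a d c, Edge E a d c → Edge E' (f a) d (f c)) ∧
      (∀ v, ∃ g, Conn E' (f v0) g v) ∧ Conn E' (f v0) (FreeGroup.mk b) (f v0) ∧
      Fintype.card V' + 1 = Fintype.card V + b.length ∧ E'.card ≤ E.card + b.length := by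
  classical
  have hl : 0 < b.length := List.length_pos_iff.2 hb
  let V' := V ⊕ Fin (b.length - 1)
  let p : ℕ → V' := fun i =>
    if h : 0 < i ∧ i < b.length then Sum.inr ⟨i - 1, by omega⟩ else Sum.inl v0
  have hp0 : p 0 = Sum.inl v0 := by simp [p]
  have hpl : p b.length = Sum.inl v0 := by simp [p]
  let ed : Fin b.length → V' × Fin n × V' := fun i =>
    if (b.get i).2 = true then (p i, (b.get i).1, p (i + 1)) else (p (i + 1), (b.get i).1, p i)
  let m : V × Fin n × V → V' × Fin n × V' := fun t => (Sum.inl t.1, t.2.1, Sum.inl t.2.2)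
  let E' : Finset (V' × Fin n × V') := E.image m ∪ Finset.univ.image ed
  have hf : ∀ a d c, Edge E a d c → Edge E' (Sum.inl a : V') d (Sum.inl c) := by
    rintro a d c (⟨h1, h2⟩ | ⟨h1, h2⟩)
    · exact Or.inl ⟨h1, Finset.mem_union_left _ (Finset.mem_image.2 ⟨_, h2, rfl⟩)⟩
    · exact Or.inr ⟨h1, Finset.mem_union_left _ (Finset.mem_image.2 ⟨_, h2, rfl⟩)⟩
  have hed : ∀ i : Fin b.length, Edge E' (p i) (b.get i) (p (i + 1)) := by
    intro i
    have hi : ed i ∈ E' :=
      Finset.mem_union_right _ (Finset.mem_image.2 ⟨i, Finset.mem_univ _, rfl⟩)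
    by_cases h : (b.get i).2 = true
    · refine Or.inl ⟨h, ?_⟩
      have e : ed i = (p i, (b.get i).1, p (i + 1)) := if_pos h
      rwa [e] at hi
    · refine Or.inr ⟨by simpa using h, ?_⟩
      have e : ed i = (p (i + 1), (b.get i).1, p i) := if_neg h
      rwa [e] at hi
  have hwalk : ∀ i, i ≤ b.length → Conn E' (Sum.inl v0 : V') (FreeGroup.mk (b.take i)) (p i) := by
    intro i
    induction i with
    | zero =>
      intro _
      rw [hp0, List.take_zero]
      exact Conn.refl _
    | succ i ih =>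
      intro hi
      have hi' : i < b.length := by omega
      have e : FreeGroup.mk (b.take (i + 1)) = FreeGroup.mk (b.take i) * lt (b.get ⟨i, hi'⟩) := by
        rw [lt, FreeGroup.mul_mk, List.get_eq_getElem, List.take_concat_get' b i hi']
      rw [e]
      exact Conn.step (ih (by omega)) (hed ⟨i, hi'⟩)
  refine ⟨V', inferInstance, inferInstance, E', Sum.inl, Sum.inl_injective, hf, ?_, ?_, ?_, ?_⟩
  · rintro (v | j)
    · obtain ⟨g, hg⟩ := hconn v
      exact ⟨g, wpr_b1_conn_map hf hg⟩
    · have hj := j.2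
      refine ⟨FreeGroup.mk (b.take (j.1 + 1)), ?_⟩
      have h1 := hwalk (j.1 + 1) (by omega)
      have e : p (j.1 + 1) = Sum.inr j := by
        have h2 : 0 < j.1 + 1 ∧ j.1 + 1 < b.length := ⟨by omega, by omega⟩
        simp only [p, dif_pos h2, Nat.add_sub_cancel]
      rwa [e] at h1
  · have h1 := hwalk b.length le_rfl
    rwa [List.take_length, hpl] at h1
  · simp only [V', Fintype.card_sum, Fintype.card_fin]
    omega
  · refine (Finset.card_union_le _ _).trans (add_le_add Finset.card_image_le ?_)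
    refine Finset.card_image_le.trans ?_
    simp

end WPP
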