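import Pool.Agent.Lib.WPR_Base
import Pool.Agent.Lib.WPP_A6

/-!
# PROJECT WPR (MP_2e2606_al), row b2: a graph with enough closed paths is full
-/

namespace WPP

open FreeGroup List

theorem full_of_gen {n : ℕ} {V : Type} (E : Finset (V × Fin n × V)) (v0 : V)
    (hconn : ∀ v, ∃ g, Conn E v0 g v) (S : Set (FreeGroup (Fin n)))
    (hS : Subgroup.closure S = ⊤) (hloop : ∀ g ∈ S, Conn E v0 g v0) : Full E := by
  have hall : ∀ g : FreeGroup (Fin n), Conn E v0 g v0 := by
    intro g
    have hg : g ∈ Subgroup.closure S := by rw [hS]; exact Subgroup.mem_top g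
    induction hg using Subgroup.closure_induction with
    | mem x hx => exact hloop x hx
    | one => exact Conn.refl _
    | mul x y _ _ hx hy => exact a6_trans E hx hy
    | inv x _ hx => exact a6_symm E hx
  intro u v g
  obtain ⟨gu, hu⟩ := hconn u
  obtain ⟨gv, hv⟩ := hconn v
  have h1 := a6_trans E (a6_trans E (a6_symm E hu) (hall (gu * g * gv⁻¹))) hv
  have e : gu⁻¹ * (gu * g * gv⁻¹) * gv = g := by group
  rwa [e] at h1

end WPP
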