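import Pool.Agent.Lib.WPR_Base

/-!
# PROJECT WPR, row b3: the rank of the graph of `V`
-/

namespace WPP

open FreeGroup List

section b3

variable {n : ℕ} {X : Type} (ρ : FreeGroup (Fin n) →* Equiv.Perm X)

/-- the permutation of `X × ℚ` which integrates `f` -/
def b3_perm (f : X → Fin n → ℚ) (i : Fin n) : Equiv.Perm (X × ℚ) where
  toFun p := ((ρ (FreeGroup.of i))⁻¹ p.1, p.2 + f p.1 i)
  invFun p := (ρ (FreeGroup.of i) p.1, p.2 - f (ρ (FreeGroup.of i) p.1) i)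
  left_inv p := by simp
  right_inv p := by simp

/-- the action on `X × ℚ` -/
def b3_hom (f : X → Fin n → ℚ) : FreeGroup (Fin n) →* Equiv.Perm (X × ℚ) :=
  FreeGroup.lift fun i => (b3_perm ρ f i)⁻¹

/-- the integral of `f` along the walk from `c` with label `h` -/
def b3_J (f : X → Fin n → ℚ) (c : X) (h : FreeGroup (Fin n)) : ℚ :=
  ((b3_hom ρ f h)⁻¹ (c, 0)).2

theorem b3_apply (f : X → Fin n → ℚ) (h : FreeGroup (Fin n)) :
    ∀ (c : X) (t : ℚ), (b3_hom ρ f h)⁻¹ (c, t) = ((ρ h)⁻¹ c, t + b3_J ρ f c h) := by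
  induction h using FreeGroup.induction_on with
  | C1 =>
    intro c t
    simp [b3_J]
  | of i =>
    intro c t
    show (b3_hom ρ f (FreeGroup.of i))⁻¹ (c, t) = ((ρ (FreeGroup.of i))⁻¹ c, t + b3_J ρ f c (FreeGroup.of i))
    unfold b3_J b3_hom
    rw [FreeGroup.lift_apply_of, inv_inv]
    simp [b3_perm]
  | inv_of i ih =>
    intro c t
    show (b3_hom ρ f (FreeGroup.of i)⁻¹)⁻¹ (c, t) =
      ((ρ (FreeGroup.of i)⁻¹)⁻¹ c, t + b3_J ρ f c (FreeGroup.of i)⁻¹)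
    unfold b3_J b3_hom
    rw [_root_.map_inv, FreeGroup.lift_apply_of, inv_inv, _root_.map_inv, inv_inv]
    show (b3_perm ρ f i).symm (c, t) = (ρ (FreeGroup.of i) c, t + ((b3_perm ρ f i).symm (c, 0)).2)
    simp [b3_perm]
    ring
  | mul g h ihg ihh =>
    intro c t
    have key : ∀ s, (b3_hom ρ f (g * h))⁻¹ (c, s) =
        ((ρ (g * h))⁻¹ c, s + b3_J ρ f c g + b3_J ρ f ((ρ g)⁻¹ c) h) := by
      intro s
      rw [_root_.map_mul, mul_inv_rev, Equiv.Perm.mul_apply, ihg, ihh, _root_.map_mul,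
        mul_inv_rev, Equiv.Perm.mul_apply]
    rw [key t]
    unfold b3_J
    rw [key 0]
    simp only [Prod.mk.injEq, true_and]
    unfold b3_J
    ring

theorem b3_mul (f : X → Fin n → ℚ) (c : X) (g h : FreeGroup (Fin n)) :
    b3_J ρ f c (g * h) = b3_J ρ f c g + b3_J ρ f ((ρ g)⁻¹ c) h := by
  have h1 : b3_J ρ f c (g * h) = ((b3_hom ρ f (g * h))⁻¹ (c, 0)).2 := rfl
  rw [h1, _root_.map_mul, mul_inv_rev, Equiv.Perm.mul_apply, b3_apply, b3_apply]
  ring

theorem b3_one (f : X → Fin n → ℚ) (c : X) : b3_J ρ f c 1 = 0 := by simp [b3_J]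

theorem b3_of (f : X → Fin n → ℚ) (c : X) (i : Fin n) : b3_J ρ f c (FreeGroup.of i) = f c i := by
  unfold b3_J b3_hom
  rw [FreeGroup.lift_apply_of, inv_inv]
  simp [b3_perm]

theorem b3_inv (f : X → Fin n → ℚ) (c : X) (h : FreeGroup (Fin n)) :
    b3_J ρ f c h⁻¹ = - b3_J ρ f (ρ h c) h := by
  have h1 := b3_mul ρ f c h⁻¹ h
  rw [inv_mul_cancel, b3_one, _root_.map_inv, inv_inv] at h1
  linarith

theorem b3_add (f g : X → Fin n → ℚ) (h : FreeGroup (Fin n)) :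
    ∀ c : X, b3_J ρ (f + g) c h = b3_J ρ f c h + b3_J ρ g c h := by
  induction h using FreeGroup.induction_on with
  | C1 =>
    intro c
    simp [b3_one]
  | of i =>
    intro c
    show b3_J ρ (f + g) c (FreeGroup.of i) = b3_J ρ f c (FreeGroup.of i) + b3_J ρ g c (FreeGroup.of i)
    rw [b3_of, b3_of, b3_of]
    rfl
  | inv_of i ih =>
    intro c
    show b3_J ρ (f + g) c (FreeGroup.of i)⁻¹ =
      b3_J ρ f c (FreeGroup.of i)⁻¹ + b3_J ρ g c (FreeGroup.of i)⁻¹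
    rw [b3_inv, b3_inv, b3_inv, b3_of, b3_of, b3_of]
    simp only [Pi.add_apply]
    ring
  | mul u v ihu ihv =>
    intro c
    rw [b3_mul, b3_mul, b3_mul, ihu, ihv]
    ring

theorem b3_smul (a : ℚ) (f : X → Fin n → ℚ) (h : FreeGroup (Fin n)) :
    ∀ c : X, b3_J ρ (a • f) c h = a * b3_J ρ f c h := by
  induction h using FreeGroup.induction_on with
  | C1 =>
    intro c
    simp [b3_one]
  | of i =>
    intro c
    show b3_J ρ (a • f) c (FreeGroup.of i) = a * b3_J ρ f c (FreeGroup.of i)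
    rw [b3_of, b3_of]
    rfl
  | inv_of i ih =>
    intro c
    show b3_J ρ (a • f) c (FreeGroup.of i)⁻¹ = a * b3_J ρ f c (FreeGroup.of i)⁻¹
    rw [b3_inv, b3_inv, b3_of, b3_of]
    simp only [Pi.smul_apply, smul_eq_mul]
    ring
  | mul u v ihu ihv =>
    intro c
    rw [b3_mul, b3_mul, ihu, ihv]
    ring

/-- if the integrals over the generators of the stabiliser vanish then `f` is a gradient -/
theorem b3_grad (htr : Trans ρ) (c0 : X) (B : Finset (FreeGroup (Fin n)))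
    (hB : ∀ h, ρ h c0 = c0 ↔ h ∈ Subgroup.closure (B : Set (FreeGroup (Fin n))))
    (f : X → Fin n → ℚ) (hf : ∀ b ∈ B, b3_J ρ f c0 b = 0) :
    ∃ θ : X → ℚ, ∀ c i, f c i = θ ((ρ (FreeGroup.of i))⁻¹ c) - θ c := by
  have hst : ∀ h ∈ Subgroup.closure (B : Set (FreeGroup (Fin n))), b3_J ρ f c0 h = 0 := by
    intro h hh
    induction hh using Subgroup.closure_induction with
    | mem x hx => exact hf x (Finset.mem_coe.1 hx)
    | one => exact b3_one ρ f c0
    | mul x y hx hy ihx ihy =>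
      rw [b3_mul, ihx, zero_add]
      have h1 : ρ x c0 = c0 := (hB x).2 hx
      have h2 : (ρ x)⁻¹ c0 = c0 := by
        rw [Equiv.Perm.inv_eq_iff_eq]
        exact h1.symm
      rw [h2, ihy]
    | inv x hx ihx =>
      rw [b3_inv, (hB x).2 hx, ihx, neg_zero]
  choose g hg using fun c => htr c c0
  -- `ρ (g c) c = c0`
  have hJ : ∀ c h, (ρ h)⁻¹ c0 = c → b3_J ρ f c0 h = b3_J ρ f c0 (g c) := by
    intro c h hc
    have h1 : h = (h * (g c)⁻¹) * g c := by group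
    have h2 : ρ (h * (g c)⁻¹) c0 = c0 := by
      rw [_root_.map_mul, _root_.map_inv, Equiv.Perm.mul_apply]
      have h3 : (ρ (g c))⁻¹ c0 = c := by
        rw [Equiv.Perm.inv_eq_iff_eq]
        exact (hg c).symm
      rw [h3]
      rw [Equiv.Perm.inv_eq_iff_eq] at hc
      exact hc.symm
    have h4 : (ρ (h * (g c)⁻¹))⁻¹ c0 = c0 := by
      rw [Equiv.Perm.inv_eq_iff_eq]
      exact h2.symm
    conv_lhs => rw [h1]
    rw [b3_mul, hst _ ((hB _).1 h2), h4, zero_add]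
  refine ⟨fun c => b3_J ρ f c0 (g c), fun c i => ?_⟩
  have h3 : (ρ (g c))⁻¹ c0 = c := by
    rw [Equiv.Perm.inv_eq_iff_eq]
    exact (hg c).symm
  have h5 := b3_mul ρ f c0 (g c) (FreeGroup.of i)
  rw [h3, b3_of] at h5
  have h6 := hJ ((ρ (FreeGroup.of i))⁻¹ c) (g c * FreeGroup.of i) (by
    rw [_root_.map_mul, mul_inv_rev, Equiv.Perm.mul_apply, h3])
  show f c i = b3_J ρ f c0 (g ((ρ (FreeGroup.of i))⁻¹ c)) - b3_J ρ f c0 (g c)
  rw [← h6]
  linarith

end b3

theorem rank_V {n : ℕ} {X : Type} (ρ : FreeGroup (Fin n) →* Equiv.Perm X) (htr : Trans ρ)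
    (V : Finset X) (hcar : Car ρ (V : Set X)) (c0 : X) (hc0 : c0 ∈ V) (B : Finset (FreeGroup (Fin n)))
    (hB : ∀ h, ρ h c0 = c0 ↔ h ∈ Subgroup.closure (B : Set (FreeGroup (Fin n)))) :
    (gE ρ V).card + 1 ≤ V.card + B.card := by
  classical
  have _ := hcar
  have hmem : ∀ (c : X) (i : Fin n) (h1 : c ∈ V) (h2 : (ρ (FreeGroup.of i))⁻¹ c ∈ V),
      ((⟨c, h1⟩, i, ⟨_, h2⟩) : {c // c ∈ V} × Fin n × {c // c ∈ V}) ∈ gE ρ V := by
    intro c i h1 h2
    unfold gE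
    simp
  let ext : (gE ρ V → ℚ) → X → Fin n → ℚ := fun F c i =>
    if h : c ∈ V ∧ (ρ (FreeGroup.of i))⁻¹ c ∈ V then
      F ⟨(⟨c, h.1⟩, i, ⟨_, h.2⟩), hmem c i h.1 h.2⟩ else 0
  have hpos : ∀ F c i (h : c ∈ V ∧ (ρ (FreeGroup.of i))⁻¹ c ∈ V),
      ext F c i = F ⟨(⟨c, h.1⟩, i, ⟨_, h.2⟩), hmem c i h.1 h.2⟩ := fun F c i h => dif_pos h
  have hneg : ∀ F c i, ¬ (c ∈ V ∧ (ρ (FreeGroup.of i))⁻¹ c ∈ V) → ext F c i = 0 :=
    fun F c i h => dif_neg h
  have hadd : ∀ F G, ext (F + G) = ext F + ext G := by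
    intro F G
    funext c i
    show ext (F + G) c i = ext F c i + ext G c i
    by_cases h : c ∈ V ∧ (ρ (FreeGroup.of i))⁻¹ c ∈ V
    · rw [hpos _ _ _ h, hpos _ _ _ h, hpos _ _ _ h]
      rfl
    · rw [hneg _ _ _ h, hneg _ _ _ h, hneg _ _ _ h, add_zero]
  have hsmul : ∀ (a : ℚ) F, ext (a • F) = a • ext F := by
    intro a F
    funext c i
    show ext (a • F) c i = a * ext F c i
    by_cases h : c ∈ V ∧ (ρ (FreeGroup.of i))⁻¹ c ∈ V
    · rw [hpos _ _ _ h, hpos _ _ _ h]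
      rfl
    · rw [hneg _ _ _ h, hneg _ _ _ h, mul_zero]
  let I : (gE ρ V → ℚ) →ₗ[ℚ] (B → ℚ) :=
    { toFun := fun F b => b3_J ρ (ext F) c0 b.1
      map_add' := by
        intro F G
        funext b
        show b3_J ρ (ext (F + G)) c0 b.1 = b3_J ρ (ext F) c0 b.1 + b3_J ρ (ext G) c0 b.1
        rw [hadd, b3_add]
      map_smul' := by
        intro a F
        funext b
        show b3_J ρ (ext (a • F)) c0 b.1 = a * b3_J ρ (ext F) c0 b.1
        rw [hsmul, b3_smul] }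
  let Gr : ({c // c ∈ V} → ℚ) →ₗ[ℚ] (gE ρ V → ℚ) :=
    { toFun := fun θ e => θ e.1.2.2 - θ e.1.1
      map_add' := by
        intro θ η
        funext e
        simp only [Pi.add_apply]
        ring
      map_smul' := by
        intro a θ
        funext e
        simp only [Pi.smul_apply, smul_eq_mul, RingHom.id_apply]
        ring }
  have hker : LinearMap.ker I ≤ LinearMap.range Gr := by
    intro F hF
    have hF' : ∀ b ∈ B, b3_J ρ (ext F) c0 b = 0 := by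
      intro b hb
      have := congrFun (LinearMap.mem_ker.1 hF) ⟨b, hb⟩
      exact this
    obtain ⟨θ, hθ⟩ := b3_grad ρ htr c0 B hB (ext F) hF'
    refine ⟨fun c => θ c.1, ?_⟩
    funext e
    obtain ⟨⟨c, i, c'⟩, he⟩ := e
    have he' : (ρ (FreeGroup.of i))⁻¹ c.1 = c'.1 := by
      have := he
      unfold gE at this
      exact (Finset.mem_filter.1 this).2
    show θ c'.1 - θ c.1 = F ⟨(c, i, c'), he⟩
    have h1 := hθ c.1 i
    rw [he'] at h1
    rw [← h1]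
    have h2 : c.1 ∈ V ∧ (ρ (FreeGroup.of i))⁻¹ c.1 ∈ V := ⟨c.2, by rw [he']; exact c'.2⟩
    rw [hpos F c.1 i h2]
    congr 1
    apply Subtype.ext
    show ((⟨c.1, h2.1⟩, i, ⟨_, h2.2⟩) : {c // c ∈ V} × Fin n × {c // c ∈ V}) = (c, i, c')
    rw [Prod.mk.injEq, Prod.mk.injEq]
    exact ⟨rfl, rfl, Subtype.ext he'⟩
  -- dimensions
  have hdim1 := LinearMap.finrank_range_add_finrank_ker I
  have hdim2 := LinearMap.finrank_range_add_finrank_ker Gr
  have hdimE : Module.finrank ℚ (gE ρ V → ℚ) = (gE ρ V).card := by simp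
  have hdimV : Module.finrank ℚ ({c // c ∈ V} → ℚ) = V.card := by simp
  have hranI : Module.finrank ℚ (LinearMap.range I) ≤ B.card := by
    refine (Submodule.finrank_le _).trans ?_
    simp
  have hkerI : Module.finrank ℚ (LinearMap.ker I) ≤ Module.finrank ℚ (LinearMap.range Gr) :=
    Submodule.finrank_mono hker
  have hkerG : 1 ≤ Module.finrank ℚ (LinearMap.ker Gr) := by
    have h1 : (fun _ => (1 : ℚ)) ∈ LinearMap.ker Gr := by
      rw [LinearMap.mem_ker]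
      funext e
      show (1 : ℚ) - 1 = 0
      ring
    have hne : (⟨fun _ => (1 : ℚ), h1⟩ : LinearMap.ker Gr) ≠ 0 := by
      intro h
      have h2 := congrArg (fun z : LinearMap.ker Gr => z.1 ⟨c0, hc0⟩) h
      simp at h2
    have : Nontrivial (LinearMap.ker Gr) := ⟨⟨_, _, hne⟩⟩
    exact Module.finrank_pos
  omega

end WPP
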