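import Pool.Agent.Lib.WPR_a2
import Pool.Agent.Lib.WPR_b3
import Pool.Agent.Lib.WPR_b1
import Pool.Agent.Lib.WPR_b2

/-!
# PROJECT WPR (MP_2e2606_al), row b4: cut pairs for the vertex set of an action
-/

namespace WPP

open FreeGroup List

/-- edges of the graph of `V` are steps of the action -/
theorem wpr_b4_edge {n : ℕ} {X : Type} (ρ : FreeGroup (Fin n) →* Equiv.Perm X) (V : Finset X)
    (c c' : {c // c ∈ V}) (d : Ltr n) : Edge (gE ρ V) c d c' ↔ stp ρ c.1 d = c'.1 := by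
  classical
  obtain ⟨i, s⟩ := d
  have hmem : ∀ a b : {c // c ∈ V}, (a, i, b) ∈ gE ρ V ↔ (ρ (FreeGroup.of i))⁻¹ a.1 = b.1 := by
    intro a b
    simp [gE]
  cases s
  · constructor
    · rintro (⟨h, _⟩ | ⟨_, h⟩)
      · exact absurd h (by simp)
      · have h1 := (hmem _ _).1 h
        show (ρ (lt ((i, false) : Ltr n)))⁻¹ c.1 = c'.1
        rw [lt_false, _root_.map_inv, inv_inv, ← h1]
        exact Equiv.apply_symm_apply _ _
    · intro h
      refine Or.inr ⟨rfl, (hmem _ _).2 ?_⟩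
      have h1 : (ρ (lt ((i, false) : Ltr n)))⁻¹ c.1 = c'.1 := h
      rw [lt_false, _root_.map_inv, inv_inv] at h1
      rw [← h1]
      exact Equiv.symm_apply_apply _ _
  · constructor
    · rintro (⟨_, h⟩ | ⟨h, _⟩)
      · exact (hmem _ _).1 h
      · exact absurd h (by simp)
    · intro h
      exact Or.inl ⟨rfl, (hmem _ _).2 h⟩

/-- walks in `V` are paths of the graph of `V` -/
theorem wpr_b4_conn {n : ℕ} {X : Type} (ρ : FreeGroup (Fin n) →* Equiv.Perm X) (V : Finset X)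
    {c : X} {h : FreeGroup (Fin n)} (hp : Pth ρ (V : Set X) c h) (hc : c ∈ V) :
    ∃ hc' : (ρ h)⁻¹ c ∈ V, Conn (gE ρ V) ⟨c, hc⟩ h ⟨(ρ h)⁻¹ c, hc'⟩ := by
  induction hp with
  | refl hc0 =>
    refine ⟨by simpa using hc, ?_⟩
    have e : (⟨(ρ (1 : FreeGroup (Fin n)))⁻¹ _, by simpa using hc⟩ : {c // c ∈ V}) =
        ⟨_, hc⟩ := Subtype.ext (by simp)
    rw [e]
    exact Conn.refl _
  | @step h d _ hV ih =>
    obtain ⟨hc', hconn⟩ := ih
    refine ⟨hV, Conn.step hconn ((wpr_b4_edge ρ V _ _ d).2 ?_)⟩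
    show (ρ (lt d))⁻¹ ((ρ h)⁻¹ c) = (ρ (h * lt d))⁻¹ c
    rw [_root_.map_mul, mul_inv_rev, Equiv.Perm.mul_apply]

/-- attach several loops -/
theorem wpr_b4_attach {n : ℕ} : ∀ (bs : List (Word n)), (∀ b ∈ bs, b ≠ []) →
    ∀ {V : Type} [Fintype V] [DecidableEq V] (E : Finset (V × Fin n × V)) (v0 : V),
    (∀ v, ∃ g, Conn E v0 g v) →
    ∃ (V' : Type) (_ : Fintype V') (_ : DecidableEq V') (E' : Finset (V' × Fin n × V'))
      (f : V → V'), Function.Injective f ∧ (∀ a d c, Edge E a d c → Edge E' (f a) d (f c)) ∧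
      (∀ v, ∃ g, Conn E' (f v0) g v) ∧ (∀ b ∈ bs, Conn E' (f v0) (FreeGroup.mk b) (f v0)) ∧
      E'.card + Fintype.card V ≤ E.card + Fintype.card V' + bs.length := by
  intro bs
  induction bs with
  | nil =>
    intro _ V _ _ E v0 hconn
    exact ⟨V, inferInstance, inferInstance, E, id, Function.injective_id, fun _ _ _ h => h,
      hconn, by simp, by simp⟩
  | cons b bs ih =>
    intro hbs V _ _ E v0 hconn
    obtain ⟨V₁, _, _, E₁, f₁, hinj₁, hed₁, hconn₁, hloop₁, hcard₁, hcardE₁⟩ :=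
      attach_loop E v0 hconn b (hbs b (by simp))
    obtain ⟨V₂, _, _, E₂, f₂, hinj₂, hed₂, hconn₂, hloop₂, hcard₂⟩ :=
      ih (fun b' hb' => hbs b' (by simp [hb'])) E₁ (f₁ v0) hconn₁
    refine ⟨V₂, inferInstance, inferInstance, E₂, f₂ ∘ f₁, hinj₂.comp hinj₁,
      fun a d c h => hed₂ _ _ _ (hed₁ _ _ _ h), hconn₂, ?_, ?_⟩
    · intro b' hb'
      rcases List.mem_cons.1 hb' with rfl | hb'
      · exact wpr_b1_conn_map hed₂ hloop₁
      · exact hloop₂ b' hb'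
    · rw [List.length_cons]
      omega

/-- paths of the graph of `V` between points of `V` -/
theorem wpr_b4_path {n : ℕ} {X : Type} (ρ : FreeGroup (Fin n) →* Equiv.Perm X) (V : Finset X)
    (hcar : Car ρ (V : Set X)) (c c' : {c // c ∈ V}) (h : FreeGroup (Fin n))
    (hh : (ρ h)⁻¹ c.1 = c'.1) : Conn (gE ρ V) c h c' := by
  obtain ⟨hc', h1⟩ := wpr_b4_conn ρ V
    (hcar c.1 c.2 h (by rw [hh]; exact Finset.mem_coe.2 c'.2)) c.2
  have e : (⟨(ρ h)⁻¹ c.1, hc'⟩ : {c // c ∈ V}) = c' := Subtype.ext hh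
  rwa [e] at h1

theorem wpr_b4_conn2 {n : ℕ} {X : Type} (ρ : FreeGroup (Fin n) →* Equiv.Perm X)
    (htr : Trans ρ) (V : Finset X) (hcar : Car ρ (V : Set X)) (c c' : {c // c ∈ V}) :
    ∃ g, Conn (gE ρ V) c g c' := by
  obtain ⟨h, hh⟩ := htr c'.1 c.1
  refine ⟨h, wpr_b4_path ρ V hcar c c' h ?_⟩
  rw [← hh]
  exact Equiv.symm_apply_apply _ _

/-- the graph of `V` embeds in a full graph with few edges -/
theorem wpr_b4_graph {n : ℕ} {X : Type} (ρ : FreeGroup (Fin n) →* Equiv.Perm X)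
    (htr : Trans ρ) (m : ℕ) (hFF : FF ρ m) (V : Finset X) (hcar : Car ρ (V : Set X))
    (hV : V.Nonempty) :
    ∃ (V' : Type) (_ : Fintype V') (_ : DecidableEq V') (E' : Finset (V' × Fin n × V'))
      (f : {c // c ∈ V} → V'), Function.Injective f ∧
      (∀ c d c', stp ρ c.1 d = c'.1 → Edge E' (f c) d (f c')) ∧ Full E' ∧
      E'.card + 1 ≤ Fintype.card V' + n := by
  classical
  obtain ⟨c0, hc0⟩ := hV
  obtain ⟨B, C, _, hBC, hgen, hstab⟩ := hFF c0
  have hrank := rank_V ρ htr V hcar c0 hc0 B hstab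
  -- attach the loops of `C`
  let bs : List (Word n) := (C.filter fun g => g ≠ 1).toList.map FreeGroup.toWord
  have hbs : ∀ b ∈ bs, b ≠ [] := by
    intro b hb
    obtain ⟨g, hg, rfl⟩ := List.mem_map.1 hb
    have hg1 : g ≠ 1 := (Finset.mem_filter.1 (Finset.mem_toList.1 hg)).2
    exact fun h => hg1 (FreeGroup.toWord_eq_nil_iff.1 h)
  have hbsl : bs.length ≤ C.card := by
    rw [List.length_map, Finset.length_toList]
    exact Finset.card_filter_le _ _
  obtain ⟨V', _, _, E', f, hinj, hed, hconn', hloop, hcard⟩ :=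
    wpr_b4_attach bs hbs (gE ρ V) ⟨c0, hc0⟩ (wpr_b4_conn2 ρ htr V hcar ⟨c0, hc0⟩)
  refine ⟨V', inferInstance, inferInstance, E', f, hinj,
    fun c d c' h => hed _ _ _ ((wpr_b4_edge ρ V _ _ d).2 h), ?_, ?_⟩
  · refine full_of_gen E' (f ⟨c0, hc0⟩) hconn' _ hgen ?_
    rintro g (hg | hg)
    · refine wpr_b1_conn_map hed (wpr_b4_path ρ V hcar _ _ g ?_)
      have h1 : ρ g c0 = c0 := (hstab g).2 (Subgroup.subset_closure hg)
      show (ρ g)⁻¹ c0 = c0
      rw [Equiv.Perm.inv_eq_iff_eq]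
      exact h1.symm
    · by_cases h1 : g = 1
      · rw [h1]; exact Conn.refl _
      · have h3 := hloop g.toWord (List.mem_map.2
          ⟨g, Finset.mem_toList.2 (Finset.mem_filter.2 ⟨Finset.mem_coe.1 hg, h1⟩), rfl⟩)
        rwa [FreeGroup.mk_toWord] at h3
  · have h3 : Fintype.card {c // c ∈ V} = V.card := Fintype.card_coe V
    rw [h3] at hcard
    omega

theorem cut_V {n : ℕ} {X : Type} (ρ : FreeGroup (Fin n) →* Equiv.Perm X) (htr : Trans ρ)
    (m : ℕ) (hFF : FF ρ m) (V : Finset X) (hcar : Car ρ (V : Set X)) (h2 : 2 ≤ V.card) :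
    ∃ (A : Ltr n → Prop) (x : Ltr n), CutV ρ (V : Set X) A x := by
  classical
  obtain ⟨V', _, _, E', f, hinj, hed, hfull, hcc⟩ :=
    wpr_b4_graph ρ htr m hFF V hcar (Finset.card_pos.1 (by omega))
  obtain ⟨A, x, hAx, hAbx, hturn, c, ⟨c', hcc'⟩, hstrict⟩ :=
    cut_general E' hfull hcc (D := {c // c ∈ V}) (fun c d c' => stp ρ c.1 d = c'.1)
      (by
        intro c d c' h
        show stp ρ c'.1 (bar d) = c.1
        have h1 : (ρ (lt d))⁻¹ c.1 = c'.1 := h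
        show (ρ (lt (bar d)))⁻¹ c'.1 = c.1
        rw [lt_bar, _root_.map_inv, inv_inv, ← h1]
        exact Equiv.apply_symm_apply _ _)
      (by
        intro c c'
        obtain ⟨g, hg⟩ := wpr_b4_conn2 ρ htr V hcar c c'
        induction hg with
        | refl => exact Relation.ReflTransGen.refl
        | step _ he ih => exact ih.tail ⟨_, (wpr_b4_edge ρ V _ _ _).1 he⟩)
      f hed
      (by
        obtain ⟨a, ha, b, hb, hab⟩ := Finset.one_lt_card.1 (show 1 < V.card by omega)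
        exact ⟨⟨a, ha⟩, ⟨b, hb⟩, fun h => hab (congrArg Subtype.val (hinj h))⟩)
  refine ⟨A, x, hAx, hAbx, ?_, c.1, Finset.mem_coe.2 c.2, ?_, ?_⟩
  · intro a ha d d' hd hd' hAd hdx
    exact hturn ⟨a, Finset.mem_coe.1 ha⟩ d d' ⟨⟨_, Finset.mem_coe.1 hd⟩, rfl⟩
      ⟨⟨_, Finset.mem_coe.1 hd'⟩, rfl⟩ hAd hdx
  · rw [hcc']; exact Finset.mem_coe.2 c'.2
  · intro d hd
    exact hstrict d ⟨⟨_, Finset.mem_coe.1 hd⟩, rfl⟩

end WPP
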