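import Pool.Agent.Lib.WPR_Base

/-!
# WPR, row c1: a finite vertex set which carries all walks
-/

namespace WPP

open FreeGroup List

namespace C1

variable {n : ℕ} {X : Type} (ρ : FreeGroup (Fin n) →* Equiv.Perm X) (V : Set X)

theorem mem_start {c : X} {h : FreeGroup (Fin n)} (p : Pth ρ V c h) : c ∈ V := by
  induction p with
  | refl h => exact h
  | step d _ _ ih => exact ih

theorem mem_end {c : X} {h : FreeGroup (Fin n)} (p : Pth ρ V c h) : (ρ h)⁻¹ c ∈ V := by
  cases p with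
  | refl h => simpa using h
  | step d _ h => exact h

theorem trans {c : X} {h h' : FreeGroup (Fin n)} (p : Pth ρ V c h)
    (q : Pth ρ V ((ρ h)⁻¹ c) h') : Pth ρ V c (h * h') := by
  generalize hc : (ρ h)⁻¹ c = c' at q
  induction q with
  | refl _ => rwa [mul_one]
  | step d _ hm ih =>
    rw [← mul_assoc]
    refine Pth.step d ih ?_
    rw [← hc] at hm
    rw [mul_assoc, _root_.map_mul, mul_inv_rev, Equiv.Perm.mul_apply]
    exact hm

theorem inv {c : X} {h : FreeGroup (Fin n)} (p : Pth ρ V c h) :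
    Pth ρ V ((ρ h)⁻¹ c) h⁻¹ := by
  induction p with
  | refl h => simpa using Pth.refl (ρ := ρ) h
  | @step h d p hm ih =>
    have h1 : Pth ρ V ((ρ (h * lt d))⁻¹ c) (1 * lt (bar d)) := by
      refine Pth.step (bar d) (Pth.refl hm) ?_
      have : (ρ (1 * lt (bar d)))⁻¹ ((ρ (h * lt d))⁻¹ c) = (ρ h)⁻¹ c := by
        rw [← Equiv.Perm.mul_apply, ← mul_inv_rev, ← _root_.map_mul]
        congr 3
        rw [one_mul, lt_bar, mul_assoc, mul_inv_cancel, mul_one]
      rw [this]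
      exact mem_end ρ V p
    have h2 : (ρ (1 * lt (bar d)))⁻¹ ((ρ (h * lt d))⁻¹ c) = (ρ h)⁻¹ c := by
      rw [← Equiv.Perm.mul_apply, ← mul_inv_rev, ← _root_.map_mul]
      congr 3
      rw [one_mul, lt_bar, mul_assoc, mul_inv_cancel, mul_one]
    have h3 := trans ρ V h1 (h' := h⁻¹) (by rw [h2]; exact ih)
    rwa [one_mul, lt_bar, ← mul_inv_rev] at h3

theorem of_prefix {c : X} (w : Word n)
    (h : ∀ p : Word n, p <+: w → (ρ (FreeGroup.mk p))⁻¹ c ∈ V) : Pth ρ V c (FreeGroup.mk w) := by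
  induction w using List.reverseRecOn with
  | nil =>
    have := h [] (List.nil_prefix)
    rw [← FreeGroup.one_eq_mk] at this ⊢
    exact Pth.refl (by simpa using this)
  | append_singleton w d ih =>
    have e : FreeGroup.mk (w ++ [d]) = FreeGroup.mk w * lt d := by
      rw [lt, FreeGroup.mul_mk]
    rw [e]
    refine Pth.step d (ih fun p hp => h p (hp.trans (List.prefix_append _ _))) ?_
    rw [← e]
    exact h _ (List.prefix_refl _)

end C1

theorem exists_V {n : ℕ} (A : Subgroup (FreeGroup (Fin n))) (B : Finset (FreeGroup (Fin n)))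
    (hA : A = Subgroup.closure (B : Set (FreeGroup (Fin n)))) :
    ∃ V : Finset (FreeGroup (Fin n) ⧸ A), V.Nonempty ∧
      Car (MulAction.toPermHom (FreeGroup (Fin n)) (FreeGroup (Fin n) ⧸ A))
        (V : Set (FreeGroup (Fin n) ⧸ A)) := by
  classical
  set ρ := MulAction.toPermHom (FreeGroup (Fin n)) (FreeGroup (Fin n) ⧸ A) with hρ
  let c0 : FreeGroup (Fin n) ⧸ A := QuotientGroup.mk 1
  let V : Finset (FreeGroup (Fin n) ⧸ A) := insert c0
    (B.biUnion fun b => (b.toWord.inits.map fun p => (ρ (FreeGroup.mk p))⁻¹ c0).toFinset)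
  have hact : ∀ (g x : FreeGroup (Fin n)),
      (ρ g)⁻¹ (QuotientGroup.mk x : FreeGroup (Fin n) ⧸ A) = QuotientGroup.mk (g⁻¹ * x) := by
    intro g x
    rw [← _root_.map_inv, hρ, MulAction.toPermHom_apply, MulAction.toPerm_apply]
    rfl
  have hc0 : c0 ∈ V := Finset.mem_insert_self _ _
  have hV : ∀ b ∈ B, ∀ p : Word n, p <+: b.toWord → (ρ (FreeGroup.mk p))⁻¹ c0 ∈ V := by
    intro b hb p hp
    refine Finset.mem_insert_of_mem (Finset.mem_biUnion.2 ⟨b, hb, ?_⟩)
    rw [List.mem_toFinset, List.mem_map]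
    exact ⟨p, (List.mem_inits _ _).2 hp, rfl⟩
  have hfix : ∀ a ∈ A, (ρ a)⁻¹ c0 = c0 := by
    intro a ha
    rw [hact, mul_one]
    exact QuotientGroup.eq.2 (by simpa using ha)
  -- loops
  have hloopB : ∀ b ∈ B, Pth ρ (V : Set _) c0 b := by
    intro b hb
    have := C1.of_prefix ρ (V : Set (FreeGroup (Fin n) ⧸ A)) (c := c0) b.toWord
      (fun p hp => hV b hb p hp)
    rwa [FreeGroup.mk_toWord] at this
  have hloop : ∀ a ∈ A, Pth ρ (V : Set (FreeGroup (Fin n) ⧸ A)) c0 a := by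
    intro a ha
    rw [hA] at ha
    induction ha using Subgroup.closure_induction with
    | mem x hx => exact hloopB x hx
    | one => exact Pth.refl hc0
    | mul x y hx hy ihx ihy =>
      refine C1.trans ρ _ ihx ?_
      rw [hfix x (hA ▸ hx)]
      exact ihy
    | inv x hx ih =>
      have := C1.inv ρ _ ih
      rwa [hfix x (hA ▸ hx)] at this
  -- every vertex is reached
  have hreach : ∀ c ∈ V, ∃ p : FreeGroup (Fin n), Pth ρ (V : Set (FreeGroup (Fin n) ⧸ A)) c0 p ∧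
      (ρ p)⁻¹ c0 = c := by
    intro c hc
    rcases Finset.mem_insert.1 hc with rfl | hc
    · exact ⟨1, Pth.refl hc0, by simp⟩
    · obtain ⟨b, hb, hc⟩ := Finset.mem_biUnion.1 hc
      rw [List.mem_toFinset, List.mem_map] at hc
      obtain ⟨p, hp, rfl⟩ := hc
      refine ⟨FreeGroup.mk p, ?_, rfl⟩
      exact C1.of_prefix ρ _ p fun q hq => hV b hb q (hq.trans ((List.mem_inits _ _).1 hp))
  refine ⟨V, ⟨c0, hc0⟩, ?_⟩
  intro c hc h hh
  obtain ⟨p, hp, hpc⟩ := hreach c hc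
  obtain ⟨q, hq, hqc⟩ := hreach _ hh
  have ha : p * h * q⁻¹ ∈ A := by
    have e : (ρ (p * h))⁻¹ c0 = (ρ q)⁻¹ c0 := by
      rw [hqc, _root_.map_mul, mul_inv_rev, Equiv.Perm.mul_apply, hpc]
    rw [hact, hact, mul_one, mul_one] at e
    have := QuotientGroup.eq.1 e
    simpa using this
  have h1 : Pth ρ (V : Set (FreeGroup (Fin n) ⧸ A)) c p⁻¹ := by
    have := C1.inv ρ _ hp
    rwa [hpc] at this
  have e1 : (ρ p⁻¹)⁻¹ c = c0 := by
    rw [← hpc, ← Equiv.Perm.mul_apply, ← mul_inv_rev, ← _root_.map_mul, mul_inv_cancel]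
    simp
  have h2 : Pth ρ (V : Set (FreeGroup (Fin n) ⧸ A)) c (p⁻¹ * (p * h * q⁻¹)) :=
    C1.trans ρ _ h1 (by rw [e1]; exact hloop _ ha)
  have e2 : (ρ (p⁻¹ * (p * h * q⁻¹)))⁻¹ c = c0 := by
    rw [_root_.map_mul, mul_inv_rev, Equiv.Perm.mul_apply, e1, hfix _ ha]
  have h3 := C1.trans ρ _ h2 (h' := q) (by rw [e2]; exact hq)
  have e3 : p⁻¹ * (p * h * q⁻¹) * q = h := by group
  rwa [e3] at h3

end WPP
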