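import Pool.Agent.Lib.WPR_Base

/-!
# PROJECT WPR, row c2: the action on the cosets of a free factor, transport by automorphisms
-/

namespace WPP

open FreeGroup List

theorem closure_image_equiv {n : ℕ} (e : FreeGroup (Fin n) ≃* FreeGroup (Fin n))
    (s : Set (FreeGroup (Fin n))) (h : FreeGroup (Fin n)) :
    e.symm h ∈ Subgroup.closure s ↔ h ∈ Subgroup.closure (e '' s) := by
  have hc : Subgroup.closure (e '' s) = (Subgroup.closure s).map e.toMonoidHom := by
    rw [MonoidHom.map_closure]
    rfl
  rw [hc]
  constructor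
  · intro h1
    exact ⟨e.symm h, h1, e.apply_symm_apply h⟩
  · rintro ⟨a, ha, rfl⟩
    have : e.symm (e.toMonoidHom a) = a := e.symm_apply_apply a
    rw [this]
    exact ha

theorem closure_image_top {n : ℕ} (e : FreeGroup (Fin n) ≃* FreeGroup (Fin n))
    (s : Set (FreeGroup (Fin n))) (hs : Subgroup.closure s = ⊤) :
    Subgroup.closure (e '' s) = ⊤ := by
  rw [Subgroup.eq_top_iff']
  intro x
  rw [← closure_image_equiv, hs]
  exact Subgroup.mem_top _

theorem FF_tw {n : ℕ} {X : Type} (ρ : FreeGroup (Fin n) →* Equiv.Perm X) (m : ℕ)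
    (h : FF ρ m) (e : FreeGroup (Fin n) ≃* FreeGroup (Fin n)) : FF (tw ρ e) m := by
  classical
  intro c
  obtain ⟨B, C, hB, hBC, hcl, hst⟩ := h c
  refine ⟨B.image e, C.image e, le_trans Finset.card_image_le hB,
    le_trans (Nat.add_le_add Finset.card_image_le Finset.card_image_le) hBC, ?_, ?_⟩
  · rw [Finset.coe_image, Finset.coe_image, ← Set.image_union]
    exact closure_image_top e _ hcl
  · intro x
    rw [Finset.coe_image, ← closure_image_equiv, ← hst]
    rfl

theorem trans_tw {n : ℕ} {X : Type} (ρ : FreeGroup (Fin n) →* Equiv.Perm X)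
    (h : Trans ρ) (e : FreeGroup (Fin n) ≃* FreeGroup (Fin n)) : Trans (tw ρ e) := by
  intro c c'
  obtain ⟨x, hx⟩ := h c c'
  refine ⟨e x, ?_⟩
  show ρ (e.symm (e x)) c = c'
  rw [e.symm_apply_apply]
  exact hx

theorem trans_init {n : ℕ} (A : Subgroup (FreeGroup (Fin n))) :
    Trans (MulAction.toPermHom (FreeGroup (Fin n)) (FreeGroup (Fin n) ⧸ A)) := by
  intro c c'
  obtain ⟨h, hh⟩ := MulAction.exists_smul_eq (FreeGroup (Fin n)) c c'
  exact ⟨h, hh⟩

theorem FF_init {n : ℕ} (Φ : FreeGroup (Fin n) ≃* FreeGroup (Fin n)) (T : Finset (Fin n)) :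
    FF (MulAction.toPermHom (FreeGroup (Fin n))
      (FreeGroup (Fin n) ⧸ ((FT (T : Set (Fin n))).map Φ.toMonoidHom))) T.card := by
  classical
  intro c
  induction c using QuotientGroup.induction_on with
  | H g =>
    let e : FreeGroup (Fin n) ≃* FreeGroup (Fin n) := Φ.trans (MulAut.conj g)
    have he : ∀ x, e x = g * Φ x * g⁻¹ := fun x => rfl
    refine ⟨(T.image FreeGroup.of).image e, ((Tᶜ).image FreeGroup.of).image e,
      le_trans Finset.card_image_le Finset.card_image_le, ?_, ?_, ?_⟩
    · refine le_trans (Nat.add_le_add (le_trans Finset.card_image_le Finset.card_image_le)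
        (le_trans Finset.card_image_le Finset.card_image_le)) ?_
      rw [Finset.card_add_card_compl, Fintype.card_fin]
    · simp only [Finset.coe_image]
      rw [← Set.image_union]
      apply closure_image_top
      rw [← Set.image_union, Finset.coe_compl, Set.union_compl_self, Set.image_univ]
      exact FreeGroup.closure_range_of _
    · intro x
      rw [Finset.coe_image, ← closure_image_equiv, Finset.coe_image]
      have h1 : (MulAction.toPermHom (FreeGroup (Fin n))
          (FreeGroup (Fin n) ⧸ ((FT (T : Set (Fin n))).map Φ.toMonoidHom))) x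
            (QuotientGroup.mk g) = QuotientGroup.mk (x * g) := rfl
      rw [h1]
      have h2 : (QuotientGroup.mk (x * g) :
          FreeGroup (Fin n) ⧸ ((FT (T : Set (Fin n))).map Φ.toMonoidHom)) = QuotientGroup.mk g ↔
          g⁻¹ * (x * g) ∈ (FT (T : Set (Fin n))).map Φ.toMonoidHom := by
        rw [eq_comm]
        exact QuotientGroup.eq
      rw [h2]
      have h3 : e (e.symm x) = x := e.apply_symm_apply x
      rw [he] at h3
      constructor
      · rintro ⟨a, ha, hax⟩
        have hax' : Φ a = g⁻¹ * (x * g) := hax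
        have : e a = x := by rw [he, hax']; group
        rw [← this, e.symm_apply_apply]
        exact ha
      · intro h4
        refine ⟨e.symm x, h4, ?_⟩
        show Φ (e.symm x) = g⁻¹ * (x * g)
        rw [← mul_assoc, eq_comm]
        calc g⁻¹ * x * g = g⁻¹ * (g * Φ (e.symm x) * g⁻¹) * g := by rw [h3]
          _ = Φ (e.symm x) := by group

end WPP
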