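import Pool.Agent.Lib.WPR_Base

/-!
# PROJECT WPR (MP_2e2606_al), row d1: the Whitehead move on vertex sets
-/

namespace WPP

open FreeGroup List

section VMove

variable {n : ℕ} {X : Type}

theorem stp_bar_d1 (ρ : FreeGroup (Fin n) →* Equiv.Perm X) (c : X) (d : Ltr n) :
    stp ρ (stp ρ c d) (bar d) = c := by
  unfold stp
  rw [lt_bar, _root_.map_inv, inv_inv]
  exact (ρ (lt d)).apply_symm_apply c

theorem stp_of_bar_d1 (ρ : FreeGroup (Fin n) →* Equiv.Perm X) (c : X) (d : Ltr n) :
    stp ρ (stp ρ c (bar d)) d = c := by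
  have h := stp_bar_d1 ρ c (bar d)
  rwa [bar_bar] at h

/-- `1` on the side `true`, `x` on the side `false` -/
def kpB (x : Ltr n) (s : Bool) : FreeGroup (Fin n) := cond s 1 (lt x)

/-- the point of the side `s` at `c` -/
def ptB (ρ : FreeGroup (Fin n) →* Equiv.Perm X) (x : Ltr n) (c : X) (s : Bool) : X :=
  cond s c (stp ρ c x)

/-- the side of a letter: `false` in `A` -/
noncomputable def sdB (A : Ltr n → Prop) (d : Ltr n) : Bool := by
  classical
  exact if A d then false else true

theorem kpB_sd (A : Ltr n → Prop) (x d : Ltr n) : kpB x (sdB A d) = Kp A x d := by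
  classical
  unfold kpB sdB Kp
  by_cases h : A d <;> simp [h]

theorem tw_tau (ρ : FreeGroup (Fin n) →* Equiv.Perm X) (A : Ltr n → Prop) (x : Ltr n)
    (h : FreeGroup (Fin n)) : tw ρ (tau A x) (tau A x h) = ρ h := by
  show ρ ((tau A x).symm (tau A x h)) = ρ h
  rw [MulEquiv.symm_apply_apply]

theorem tau_kpB (A : Ltr n → Prop) (x : Ltr n) (s : Bool) : tau A x (kpB x s) = kpB x s := by
  cases s
  · exact tauHom_fix A x x rfl
  · exact _root_.map_one _

theorem ptB_eq (ρ : FreeGroup (Fin n) →* Equiv.Perm X) (A : Ltr n → Prop) (x : Ltr n) (c : X)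
    (s : Bool) : ptB ρ x c s = (tw ρ (tau A x) (kpB x s))⁻¹ c := by
  rw [← tau_kpB A x s, tw_tau]
  cases s
  · rfl
  · show c = (ρ 1)⁻¹ c
    rw [_root_.map_one]; rfl

theorem pos_d1 (ρ : FreeGroup (Fin n) →* Equiv.Perm X) (A : Ltr n → Prop) (x : Ltr n) (c : X)
    (h : FreeGroup (Fin n)) (s s' : Bool) :
    (tw ρ (tau A x) ((kpB x s)⁻¹ * tau A x h * kpB x s'))⁻¹ (ptB ρ x c s) =
      ptB ρ x ((ρ h)⁻¹ c) s' := by
  rw [ptB_eq ρ A x c s, ptB_eq ρ A x _ s', _root_.map_mul, _root_.map_mul, tw_tau,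
    _root_.map_inv]
  simp [mul_inv_rev, Equiv.Perm.mul_apply]

/-- change of the side at the end of a path -/
theorem side_d1 (ρ : FreeGroup (Fin n) →* Equiv.Perm X) (A : Ltr n → Prop) (x : Ltr n)
    (W : Set X) (c : X) (h : FreeGroup (Fin n)) (s s1 s2 : Bool)
    (hp : Pth (tw ρ (tau A x)) W (ptB ρ x c s) ((kpB x s)⁻¹ * tau A x h * kpB x s1))
    (h2 : ptB ρ x ((ρ h)⁻¹ c) s2 ∈ W) :
    Pth (tw ρ (tau A x)) W (ptB ρ x c s) ((kpB x s)⁻¹ * tau A x h * kpB x s2) := by
  have key := pos_d1 ρ A x c h s s2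
  cases s1 <;> cases s2
  · exact hp
  · have e : (kpB x s)⁻¹ * tau A x h * kpB x true =
        ((kpB x s)⁻¹ * tau A x h * kpB x false) * lt (bar x) := by
      show _ * 1 = (_ * lt x) * lt (bar x)
      rw [lt_bar]; group
    rw [e] at key ⊢
    exact Pth.step _ hp (by rw [key]; exact h2)
  · have e : (kpB x s)⁻¹ * tau A x h * kpB x false =
        ((kpB x s)⁻¹ * tau A x h * kpB x true) * lt x := by
      show _ * lt x = (_ * 1) * lt x
      group
    rw [e] at key ⊢
    exact Pth.step _ hp (by rw [key]; exact h2)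
  · exact hp

/-- transport of a path -/
theorem path_d1 (ρ : FreeGroup (Fin n) →* Equiv.Perm X) (A : Ltr n → Prop) (x : Ltr n)
    (V W : Set X)
    (hdir : ∀ c ∈ V, ∀ d, stp ρ c d ∈ V → ptB ρ x c (sdB A d) ∈ W)
    (hx : A x) (hbx : ¬ A (bar x)) (c : X) (h : FreeGroup (Fin n)) (hp : Pth ρ V c h) :
    (ρ h)⁻¹ c ∈ V ∧ ∀ s s' : Bool, ptB ρ x c s ∈ W → ptB ρ x ((ρ h)⁻¹ c) s' ∈ W →
      Pth (tw ρ (tau A x)) W (ptB ρ x c s) ((kpB x s)⁻¹ * tau A x h * kpB x s') := by
  induction hp with
  | refl hc =>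
    refine ⟨by rw [_root_.map_one]; exact hc, fun s s' hs hs' => ?_⟩
    refine side_d1 ρ A x W _ 1 s s s' ?_ hs'
    have e : (kpB x s)⁻¹ * tau A x 1 * kpB x s = 1 := by
      rw [_root_.map_one]; group
    rw [e]
    exact Pth.refl hs
  | @step h d hp hd ih =>
    refine ⟨hd, fun s s' hs hs' => ?_⟩
    obtain ⟨hc1, ih⟩ := ih
    have hc2 : stp ρ ((ρ h)⁻¹ c) d ∈ V := by
      have e : (ρ (h * lt d))⁻¹ c = stp ρ ((ρ h)⁻¹ c) d := by
        unfold stp
        rw [_root_.map_mul, mul_inv_rev]; rfl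
      rwa [e] at hd
    have h1 := ih s (sdB A d) hs (hdir _ hc1 d hc2)
    have hback : ptB ρ x ((ρ (h * lt d))⁻¹ c) (sdB A (bar d)) ∈ W := by
      have e : (ρ (h * lt d))⁻¹ c = stp ρ ((ρ h)⁻¹ c) d := by
        unfold stp
        rw [_root_.map_mul, mul_inv_rev]; rfl
      rw [e]
      exact hdir _ hc2 (bar d) (by rw [stp_bar_d1]; exact hc1)
    by_cases hdx : d.1 = x.1
    · have hcase : d = x ∨ d = bar x := by
        obtain ⟨i, b⟩ := d
        obtain ⟨j, b'⟩ := x
        simp only at hdx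
        subst hdx
        simp only [bar, Prod.mk.injEq, true_and]
        cases b <;> cases b' <;> simp
      rcases hcase with rfl | rfl
      · refine side_d1 ρ A d W c (h * lt d) s true s' ?_ hs'
        have e : (kpB d s)⁻¹ * tau A d (h * lt d) * kpB d true =
            (kpB d s)⁻¹ * tau A d h * kpB d (sdB A d) := by
          rw [kpB_sd]
          have hk : Kp A d d = lt d := by simp [Kp, hx]
          have ht : tau A d (lt d) = lt d := tauHom_fix A d d rfl
          rw [hk, _root_.map_mul, ht]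
          show _ * 1 = _
          group
        rw [e]; exact h1
      · refine side_d1 ρ A x W c (h * lt (bar x)) s false s' ?_ hs'
        have e : (kpB x s)⁻¹ * tau A x (h * lt (bar x)) * kpB x false =
            (kpB x s)⁻¹ * tau A x h * kpB x (sdB A (bar x)) := by
          rw [kpB_sd]
          have hk : Kp A x (bar x) = 1 := by simp [Kp, hbx]
          have ht : tau A x (lt (bar x)) = lt (bar x) := tauHom_fix A x (bar x) rfl
          rw [hk, _root_.map_mul, ht, lt_bar]
          show _ * lt x = _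
          group
        rw [e]; exact h1
    · refine side_d1 ρ A x W c (h * lt d) s (sdB A (bar d)) s' ?_ hs'
      have e : (kpB x s)⁻¹ * tau A x (h * lt d) * kpB x (sdB A (bar d)) =
          ((kpB x s)⁻¹ * tau A x h * kpB x (sdB A d)) * lt d := by
        rw [kpB_sd, kpB_sd, _root_.map_mul]
        have ht : tau A x (lt d) = Kp A x d * lt d * (Kp A x (bar d))⁻¹ :=
          tauHom_lt A x d hdx
        rw [ht]
        group
      have key := pos_d1 ρ A x c (h * lt d) s (sdB A (bar d))
      rw [e] at key ⊢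
      exact Pth.step _ h1 (by rw [key]; exact hback)

end VMove

/-- the move on vertex sets: `V'` is the image of `c ↦` (`c x` if all directions of `c` in `V`
lie in `A`, else `c`) -/
theorem V_move {n : ℕ} {X : Type} (ρ : FreeGroup (Fin n) →* Equiv.Perm X) (_htr : Trans ρ)
    (V : Finset X) (hcar : Car ρ (V : Set X)) (A : Ltr n → Prop) (x : Ltr n)
    (hcut : CutV ρ (V : Set X) A x) :
    ∃ V' : Finset X, V'.Nonempty ∧ V'.card < V.card ∧ Car (tw ρ (tau A x)) (V' : Set X) := by
  classical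
  obtain ⟨hx, hbx, turn, c0, hc0, hc0x, hall0⟩ := hcut
  set al : X → Prop := fun c => ∀ d, stp ρ c d ∈ (V : Set X) → A d with hal
  set mu : X → X := fun c => if al c then stp ρ c x else c with hmu
  have hmem : ∀ c ∈ (V : Set X), mu c ∈ ((V.image mu : Finset X) : Set X) := fun c hc => by
    rw [Finset.mem_coe]
    exact Finset.mem_image_of_mem mu (by exact_mod_cast hc)
  have hdir : ∀ c ∈ (V : Set X), ∀ d, stp ρ c d ∈ (V : Set X) →
      ptB ρ x c (sdB A d) ∈ ((V.image mu : Finset X) : Set X) := by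
    intro c hc d hd
    by_cases hA : A d
    · have hs : sdB A d = false := by simp [sdB, hA]
      rw [hs]
      show stp ρ c x ∈ _
      by_cases hc' : al c
      · have h := hmem c hc
        have e : mu c = stp ρ c x := by simp only [hmu]; rw [if_pos hc']
        rwa [e] at h
      · have hdx : d = x := by
          by_contra hne
          exact hc' fun d' hd' => turn c hc d d' hd hd' hA hne
        subst hdx
        have h := hmem _ hd
        have hn : ¬ al (stp ρ c d) := fun h' => by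
          have := h' (bar d) (by rw [stp_bar_d1]; exact hc)
          exact hbx this
        have e : mu (stp ρ c d) = stp ρ c d := by simp only [hmu]; rw [if_neg hn]
        rwa [e] at h
    · have hs : sdB A d = true := by simp [sdB, hA]
      rw [hs]
      show c ∈ _
      have h := hmem c hc
      have e : mu c = c := by
        simp only [hmu]; rw [if_neg fun h' => hA (h' d hd)]
      rwa [e] at h
  refine ⟨V.image mu, ⟨mu c0, Finset.mem_image_of_mem mu (by exact_mod_cast hc0)⟩, ?_, ?_⟩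
  · refine lt_of_le_of_ne Finset.card_image_le fun heq => ?_
    have hinj := Finset.card_image_iff.1 heq
    have e1 : mu c0 = stp ρ c0 x := by simp only [hmu]; rw [if_pos hall0]
    have e2 : mu (stp ρ c0 x) = stp ρ c0 x := by
      simp only [hmu]
      rw [if_neg fun h' => hbx (h' (bar x) (by rw [stp_bar_d1]; exact hc0))]
    have e3 : c0 = stp ρ c0 x := hinj hc0 hc0x (e1.trans e2.symm)
    apply hbx
    apply hall0 (bar x)
    have e4 : stp ρ c0 (bar x) = c0 := by
      conv_lhs => rw [e3]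
      exact stp_bar_d1 ρ c0 x
    rw [e4]; exact hc0
  · intro c' hc' g hg
    have hrep : ∀ z ∈ ((V.image mu : Finset X) : Set X), ∃ c ∈ (V : Set X), ∃ s : Bool,
        z = ptB ρ x c s := by
      intro z hz
      rw [Finset.mem_coe, Finset.mem_image] at hz
      obtain ⟨c, hc, rfl⟩ := hz
      refine ⟨c, by exact_mod_cast hc, ?_⟩
      by_cases h : al c
      · exact ⟨false, by simp only [hmu]; rw [if_pos h]; rfl⟩
      · exact ⟨true, by simp only [hmu]; rw [if_neg h]; rfl⟩
    obtain ⟨c, hc, s, rfl⟩ := hrep c' hc'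
    obtain ⟨c1, hc1, s1, h1⟩ := hrep _ hg
    obtain ⟨h, hh⟩ : ∃ h, tau A x h = kpB x s * g * (kpB x s1)⁻¹ :=
      ⟨(tau A x).symm (kpB x s * g * (kpB x s1)⁻¹), (tau A x).apply_symm_apply _⟩
    have hg' : g = (kpB x s)⁻¹ * tau A x h * kpB x s1 := by rw [hh]; group
    have hpos : (ρ h)⁻¹ c = c1 := by
      have hp := pos_d1 ρ A x c h s s1
      rw [← hg', h1, ptB_eq ρ A x c1 s1, ptB_eq ρ A x _ s1] at hp
      exact ((tw ρ (tau A x) (kpB x s1))⁻¹.injective hp).symm
    have hp := hcar c hc h (by rw [hpos]; exact hc1)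
    have hq := (path_d1 ρ A x (V : Set X) _ hdir hx hbx c h hp).2 s s1 hc' (by
      rw [hpos, ← h1]; exact hg)
    rwa [← hg'] at hq

end WPP
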