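import Pool.Agent.Lib.WPR_Base

/-!
# WPR, row d2: a single vertex which carries all walks
-/

namespace WPP

open FreeGroup List

theorem V_end {n : ℕ} {X : Type} (ρ : FreeGroup (Fin n) →* Equiv.Perm X) (c : X)
    (hcar : Car ρ {c}) (h : FreeGroup (Fin n)) :
    ρ h c = c ↔ h ∈ FT {i : Fin n | ρ (FreeGroup.of i) c = c} := by
  have back : ∀ g ∈ FT {i : Fin n | ρ (FreeGroup.of i) c = c}, ρ g c = c := by
    intro g hg
    induction hg using Subgroup.closure_induction with
    | mem x hx =>
      obtain ⟨i, hi, rfl⟩ := hx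
      exact hi
    | one => simp
    | mul x y _ _ ihx ihy => rw [_root_.map_mul, Equiv.Perm.mul_apply, ihy, ihx]
    | inv x _ ih =>
      rw [_root_.map_inv, Equiv.Perm.inv_eq_iff_eq]
      exact ih.symm
  have key : ∀ g, Pth ρ {c} c g → g ∈ FT {i : Fin n | ρ (FreeGroup.of i) c = c} := by
    intro g hg
    induction hg with
    | refl _ => exact Subgroup.one_mem _
    | @step g d p hm ih =>
      refine Subgroup.mul_mem _ ih ?_
      have h1 : ρ g c = c := back g ih
      have h2 : ρ (g * lt d) c = c := by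
        have h3 : (ρ (g * lt d))⁻¹ c = c := hm
        rw [Equiv.Perm.inv_eq_iff_eq] at h3
        exact h3.symm
      rw [_root_.map_mul, Equiv.Perm.mul_apply] at h2
      have h4 : ρ (lt d) c = c := (ρ g).injective (h2.trans h1.symm)
      obtain ⟨i, b⟩ := d
      cases b
      · rw [lt_false] at h4 ⊢
        refine Subgroup.inv_mem _ (Subgroup.subset_closure ⟨i, ?_, rfl⟩)
        rw [_root_.map_inv, Equiv.Perm.inv_eq_iff_eq] at h4
        exact h4.symm
      · rw [lt_true] at h4 ⊢
        exact Subgroup.subset_closure ⟨i, h4, rfl⟩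
  constructor
  · intro hh
    refine key h (hcar c rfl h ?_)
    show (ρ h)⁻¹ c = c
    rw [Equiv.Perm.inv_eq_iff_eq]
    exact hh.symm
  · exact back h

end WPP
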