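import Pool.Agent.Lib.WPP_B
import Pool.Agent.Lib.WPR_Base

/-! PROJECT WPR, row e1: cancellation of closed chains -/

namespace WPP

open FreeGroup List

theorem wpr_e1_head {n : ℕ} {β : Type} {lab : β → Ltr n} {R : β → β → Prop}
    (hR : ∀ a b c d, R a b → R b c → R c d → lab c = bar (lab b) → R a d)
    (b c : β) (m : List β) (hm : m ≠ []) (hbc : lab c = bar (lab b))
    (h : Cyc R (b :: c :: m)) : Cyc R m := by
  obtain ⟨d, t, rfl⟩ := List.exists_cons_of_ne_nil hm
  obtain ⟨h1, h2⟩ := h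
  rw [List.isChain_cons_cons, List.isChain_cons_cons] at h1
  refine ⟨h1.2.2, ?_⟩
  intro a ha d' hd'
  have hd : d' = d := by simpa using hd'.symm
  subst hd
  have hab : R a b := h2 a (by simpa using ha) b (by simp)
  exact hR a b c _ hab h1.1 h1.2.1 hbc

theorem wpr_e1_mid {n : ℕ} {β : Type} {lab : β → Ltr n} {R : β → β → Prop}
    (hR : ∀ a b c d, R a b → R b c → R c d → lab c = bar (lab b) → R a d)
    (b c : β) (l₁ l₂ : List β) (hm : l₁ ++ l₂ ≠ []) (hbc : lab c = bar (lab b))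
    (h : Cyc R (l₁ ++ b :: c :: l₂)) : Cyc R (l₁ ++ l₂) := by
  have h1 := rowB_cyc_app R l₁ (b :: c :: l₂) h
  have h2 : Cyc R (l₂ ++ l₁) := by
    refine wpr_e1_head hR b c (l₂ ++ l₁) ?_ hbc (by simpa using h1)
    intro h0
    rw [List.append_eq_nil_iff] at h0
    exact hm (by rw [h0.1, h0.2]; rfl)
  exact rowB_cyc_app R l₂ l₁ h2

theorem wpr_e1_step {n : ℕ} {β : Type} {lab : β → Ltr n} {R : β → β → Prop}
    (hR : ∀ a b c d, R a b → R b c → R c d → lab c = bar (lab b) → R a d)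
    {u v : Word n} (hs : FreeGroup.Red.Step u v) (hv : v ≠ []) (l : List β)
    (hl : l.map lab = u) (h : Cyc R l) :
    ∃ l' : List β, (∀ a ∈ l', a ∈ l) ∧ l'.map lab = v ∧ Cyc R l' := by
  obtain ⟨L₁, L₂, x, b, rfl, rfl⟩ : ∃ (L₁ L₂ : Word n) (x : Fin n) (b : Bool),
      u = L₁ ++ (x, b) :: (x, !b) :: L₂ ∧ v = L₁ ++ L₂ := by
    cases hs with
    | not => exact ⟨_, _, _, _, rfl, rfl⟩
  rw [List.map_eq_append_iff] at hl
  obtain ⟨l₁, l', rfl, hl₁, hl'⟩ := hl
  rw [List.map_eq_cons_iff] at hl'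
  obtain ⟨p, l'', rfl, hp, hl''⟩ := hl'
  rw [List.map_eq_cons_iff] at hl''
  obtain ⟨q, l₂, rfl, hq, hl₂⟩ := hl''
  have hmap : (l₁ ++ l₂).map lab = L₁ ++ L₂ := by
    rw [List.map_append, hl₁, hl₂]
  refine ⟨l₁ ++ l₂, ?_, hmap, wpr_e1_mid hR p q l₁ l₂ ?_ ?_ h⟩
  · intro a ha
    rw [List.mem_append] at ha
    rcases ha with ha | ha
    · exact List.mem_append_left _ ha
    · exact List.mem_append_right _ (List.mem_cons_of_mem _ (List.mem_cons_of_mem _ ha))
  · intro h0
    rw [h0] at hmap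
    exact hv hmap.symm
  · rw [hp, hq]
    rfl

theorem wpr_e1_red {n : ℕ} {β : Type} {lab : β → Ltr n} {R : β → β → Prop}
    (hR : ∀ a b c d, R a b → R b c → R c d → lab c = bar (lab b) → R a d)
    {u w : Word n} (hr : FreeGroup.Red u w) (hw : w ≠ []) :
    ∀ l : List β, l.map lab = u → Cyc R l →
    ∃ l' : List β, (∀ a ∈ l', a ∈ l) ∧ l'.map lab = w ∧ Cyc R l' := by
  induction hr using Relation.ReflTransGen.head_induction_on with
  | refl => exact fun l hl h => ⟨l, fun _ ha => ha, hl, h⟩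
  | head hs hr ih =>
    rename_i u' v'
    intro l hl h
    have hv : v' ≠ [] := by
      intro h0
      rw [h0] at hr
      exact hw (FreeGroup.Red.nil_iff.1 hr)
    obtain ⟨l', h1, hl', h'⟩ := wpr_e1_step hR hs hv l hl h
    obtain ⟨l'', h2, hl'', h''⟩ := ih l' hl' h'
    exact ⟨l'', fun a ha => h1 a (h2 a ha), hl'', h''⟩

theorem wpr_e1_conj {n : ℕ} {β : Type} {lab : β → Ltr n} {R : β → β → Prop}
    (hR : ∀ a b c d, R a b → R b c → R c d → lab c = bar (lab b) → R a d)
    (P : Word n) (hP : P ≠ []) (c : Word n) :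
    ∀ l : List β, l.map lab = c ++ P ++ FreeGroup.invRev c → Cyc R l →
    ∃ l' : List β, (∀ a ∈ l', a ∈ l) ∧ l'.map lab = P ∧ Cyc R l' := by
  induction c with
  | nil =>
    intro l hl h
    exact ⟨l, fun _ ha => ha, by simpa using hl, h⟩
  | cons y c ih =>
    intro l hl h
    have hinv : FreeGroup.invRev (y :: c) = FreeGroup.invRev c ++ [bar y] := by
      simp [FreeGroup.invRev, bar]
    rw [hinv, show y :: c ++ P ++ (FreeGroup.invRev c ++ [bar y]) =
      y :: ((c ++ P ++ FreeGroup.invRev c) ++ [bar y]) by simp, List.map_eq_cons_iff] at hl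
    obtain ⟨a, l₁, rfl, ha, hl₁⟩ := hl
    rw [List.map_eq_append_iff] at hl₁
    obtain ⟨m, l₂, rfl, hm, hl₂⟩ := hl₁
    rw [List.map_eq_cons_iff] at hl₂
    obtain ⟨z, l₃, rfl, hz, hl₃⟩ := hl₂
    rw [List.map_eq_nil_iff] at hl₃
    subst hl₃
    have h1 : Cyc R (z :: a :: m) := by
      have := rowB_cyc_app R (a :: m) [z] (by simpa using h)
      simpa using this
    have hmne : m ≠ [] := by
      rintro rfl
      simp only [List.map_nil] at hm
      have := congrArg List.length hm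
      simp only [List.length_nil, List.length_append] at this
      exact hP (List.length_eq_zero_iff.1 (by omega))
    obtain ⟨l', h2, h3, h4⟩ := ih m hm (wpr_e1_head hR z a m hmne (by
      rw [ha, hz, rowB_bar_bar]) h1)
    exact ⟨l', fun b hb => List.mem_cons_of_mem _ (List.mem_append_left _ (h2 b hb)), h3, h4⟩

theorem cancel_cyc {n : ℕ} {β : Type} (lab : β → Ltr n) (E : β → β → Prop)
    (hE : ∀ a b c d, E a b → E b c → E c d → lab c = bar (lab b) → E a d)
    (l : List β) (hl : Cyc E l) (hne : FreeGroup.mk (l.map lab) ≠ 1) :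
    ∃ l' : List β, (∀ a ∈ l', a ∈ l) ∧ Cyc E l' ∧
      l'.map lab = reduceCyclically (FreeGroup.reduce (l.map lab)) := by
  have hrne : FreeGroup.reduce (l.map lab) ≠ [] := by
    intro h0
    apply hne
    rw [← FreeGroup.mk_toWord (x := FreeGroup.mk (l.map lab)), FreeGroup.toWord_mk, h0]
    rfl
  obtain ⟨l₁, h1, h2, h3⟩ := wpr_e1_red hE FreeGroup.reduce.red hrne l rfl hl
  have hconj := reduceCyclically.conj_conjugator_reduceCyclically
    (FreeGroup.reduce (l.map lab))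
  have hP : reduceCyclically (FreeGroup.reduce (l.map lab)) ≠ [] := by
    intro h0
    rw [h0, List.append_nil] at hconj
    have h4 := congrArg FreeGroup.mk hconj
    rw [← FreeGroup.mul_mk, ← FreeGroup.inv_mk, mul_inv_cancel, FreeGroup.reduce.self] at h4
    exact hne h4.symm
  rw [← hconj] at h2
  obtain ⟨l₂, h4, h5, h6⟩ := wpr_e1_conj hE _ hP _ l₁ h2 h3
  exact ⟨l₂, fun a ha => h1 a (h4 a ha), h6, h5⟩

end WPP
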