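import Pool.Agent.Lib.WPR_Base
import Pool.Agent.Lib.WPP_B

/-!
# PROJECT WPR, row e2: conjugate cyclically reduced words are rotations of each other
-/

namespace WPP
open FreeGroup List

section
variable {n : ℕ}

/-- reduced, in terms of `bar` -/
theorem wpr_e2_red (w : Word n) :
    IsReduced w ↔ List.IsChain (fun u v => v ≠ bar u) w := by
  unfold FreeGroup.IsReduced
  exact ⟨fun h => h.imp fun a b h => (rowB_red a b).1 h,
    fun h => h.imp fun a b h => (rowB_red a b).2 h⟩

theorem wpr_e2_mk_cons (d : Ltr n) (t : Word n) :
    FreeGroup.mk (d :: t) = lt d * FreeGroup.mk t := by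
  unfold lt
  rw [FreeGroup.mul_mk]
  rfl

theorem wpr_e2_mk_concat (t : Word n) (d : Ltr n) :
    FreeGroup.mk (t ++ [d]) = FreeGroup.mk t * lt d := by
  unfold lt
  rw [FreeGroup.mul_mk]

theorem wpr_e2_invRev (w : Word n) : FreeGroup.invRev w = (w.map bar).reverse := rfl

theorem wpr_e2_red_invRev (w : Word n) (h : IsReduced w) : IsReduced (FreeGroup.invRev w) := by
  rw [isReduced_iff_reduce_eq] at h ⊢
  rw [FreeGroup.reduce_invRev, h]

/-- the core: conjugation by a reduced word -/
theorem wpr_e2_core (k : Word n) : IsReduced k → ∀ w w' : Word n, IsCyclicallyReduced w →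
    IsCyclicallyReduced w' →
    FreeGroup.mk w' = FreeGroup.mk k * FreeGroup.mk w * (FreeGroup.mk k)⁻¹ → w' ~r w := by
  induction k using List.reverseRecOn with
  | nil =>
    intro _ w w' hw hw' h
    have h1 : FreeGroup.mk w' = FreeGroup.mk w := by
      rw [h, ← FreeGroup.one_eq_mk, one_mul, inv_one, mul_one]
    have h2 := FreeGroup.reduce.sound h1
    rw [hw.isReduced.reduce_eq, hw'.isReduced.reduce_eq] at h2
    rw [h2]
  | append_singleton k d ih =>
    intro hk w w' hw hw' h
    have hk0 : IsReduced k := by
      rw [wpr_e2_red] at hk ⊢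
      exact (List.isChain_append.1 hk).1
    rw [wpr_e2_mk_concat] at h
    by_cases hd1 : ∃ t, w = bar d :: t
    · obtain ⟨t, rfl⟩ := hd1
      have hrot : (bar d :: t) ~r (t ++ [bar d]) := by
        have := rowB_app_rot [bar d] t
        simpa using this
      have hw1 : IsCyclicallyReduced (t ++ [bar d]) :=
        (rowB_cycred _).2 (rowB_cyc_rot hrot ((rowB_cycred _).1 hw))
      refine (ih hk0 (t ++ [bar d]) w' hw1 hw' ?_).trans hrot.symm
      rw [h, wpr_e2_mk_cons, wpr_e2_mk_concat, lt_bar]
      group
    by_cases hd2 : ∃ t, w = t ++ [d]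
    · obtain ⟨t, rfl⟩ := hd2
      have hrot : (t ++ [d]) ~r (d :: t) := by
        have := rowB_app_rot t [d]
        simpa using this
      have hw1 : IsCyclicallyReduced (d :: t) :=
        (rowB_cycred _).2 (rowB_cyc_rot hrot ((rowB_cycred _).1 hw))
      refine (ih hk0 (d :: t) w' hw1 hw' ?_).trans hrot.symm
      rw [h, wpr_e2_mk_cons, wpr_e2_mk_concat]
      group
    rcases eq_or_ne w [] with rfl | hne
    · have h1 : FreeGroup.mk w' = FreeGroup.mk ([] : Word n) := by
        rw [h, ← FreeGroup.one_eq_mk, mul_one, mul_inv_cancel]
      have h2 := FreeGroup.reduce.sound h1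
      rw [hw.isReduced.reduce_eq, hw'.isReduced.reduce_eq] at h2
      rw [h2]
    · exfalso
      set L : Word n := (k ++ [d]) ++ (w ++ FreeGroup.invRev (k ++ [d])) with hL
      have hLmk : FreeGroup.mk w' = FreeGroup.mk L := by
        have e1 : FreeGroup.mk L = FreeGroup.mk (k ++ [d]) *
            (FreeGroup.mk w * FreeGroup.mk (FreeGroup.invRev (k ++ [d]))) := by
          rw [FreeGroup.mul_mk, FreeGroup.mul_mk]
        rw [h, e1, ← FreeGroup.inv_mk, wpr_e2_mk_concat]
        group
      have hinv : FreeGroup.invRev (k ++ [d]) = bar d :: FreeGroup.invRev k := by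
        rw [FreeGroup.invRev_append]
        rfl
      have hLred : IsReduced L := by
        rw [wpr_e2_red]
        have r1 := (wpr_e2_red _).1 hk
        have r2 := (wpr_e2_red _).1 hw.isReduced
        have r3 := (wpr_e2_red _).1 (wpr_e2_red_invRev _ hk)
        rw [hL, List.isChain_append]
        refine ⟨r1, ?_, ?_⟩
        · rw [List.isChain_append]
          refine ⟨r2, r3, ?_⟩
          intro x hx y hy
          rw [hinv] at hy
          simp only [List.head?_cons, Option.mem_def, Option.some.injEq] at hy
          subst hy
          intro hcon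
          apply hd2
          have hx' : x = d := by
            have := congrArg bar hcon
            rw [rowB_bar_bar, rowB_bar_bar] at this
            exact this.symm
          subst hx'
          exact ⟨w.dropLast, (List.dropLast_append_getLast? x hx).symm⟩
        · intro x hx y hy
          simp only [List.getLast?_append, List.getLast?_singleton, Option.some_or,
            Option.mem_def, Option.some.injEq] at hx
          subst hx
          intro hcon
          subst hcon
          rcases w with _ | ⟨a, t⟩
          · exact hne rfl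
          · apply hd1
            simp only [List.cons_append, List.head?_cons, Option.mem_def,
              Option.some.injEq] at hy
            exact ⟨t, by rw [hy]⟩
      have hLw : w' = L := by
        have h2 := FreeGroup.reduce.sound hLmk
        rw [hw'.isReduced.reduce_eq, hLred.reduce_eq] at h2
        exact h2
      -- the ends of `L` cancel
      obtain ⟨a, s, has⟩ : ∃ a s, k ++ [d] = a :: s := by
        cases k with
        | nil => exact ⟨d, [], rfl⟩
        | cons a s => exact ⟨a, s ++ [d], rfl⟩
      have hcyc := ((rowB_cycred _).1 hw').2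
      have h3 : bar a ∈ w'.getLast? := by
        rw [hLw, hL, has]
        have : FreeGroup.invRev (a :: s) = FreeGroup.invRev s ++ [bar a] := by
          rw [FreeGroup.invRev_cons]
          rfl
        rw [this, ← List.append_assoc, ← List.append_assoc, List.getLast?_concat]
        rfl
      have h4 : a ∈ w'.head? := by
        rw [hLw, hL, has]
        simp
      exact hcyc (bar a) h3 a h4 (rowB_bar_bar a).symm

end

theorem rot_of_conj {n : ℕ} (w w' : Word n) (hw : IsCyclicallyReduced w)
    (hw' : IsCyclicallyReduced w') (h : Cj (FreeGroup.mk w') (FreeGroup.mk w)) : w' ~r w := by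
  obtain ⟨k, hk⟩ := h
  refine wpr_e2_core k.toWord isReduced_toWord w w' hw hw' ?_
  rw [FreeGroup.mk_toWord]
  exact hk

theorem wpr_e2_length_reduceCyclically {n : ℕ} (L : Word n) :
    (reduceCyclically L).length ≤ L.length := by
  have h := congrArg List.length (reduceCyclically.conj_conjugator_reduceCyclically L)
  simp only [List.length_append] at h
  omega

theorem length_le_of_conj {n : ℕ} (w g : Word n) (hw : IsCyclicallyReduced w)
    (h : Cj (FreeGroup.mk w) (FreeGroup.mk g)) : w.length ≤ g.length := by
  obtain ⟨k, hk⟩ := h
  set L : Word n := FreeGroup.reduce g with hL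
  have hLr : IsReduced L := by
    rw [isReduced_iff_reduce_eq, hL, FreeGroup.reduce.idem]
  have hg : FreeGroup.mk g = FreeGroup.mk (reduceCyclically.conjugator L) *
      FreeGroup.mk (reduceCyclically L) * (FreeGroup.mk (reduceCyclically.conjugator L))⁻¹ := by
    rw [FreeGroup.inv_mk, FreeGroup.mul_mk, FreeGroup.mul_mk,
      reduceCyclically.conj_conjugator_reduceCyclically, hL, FreeGroup.reduce.self]
  have h1 : w ~r reduceCyclically L := by
    refine rot_of_conj _ _ (reduceCyclically.isCyclicallyReduced hLr) hw
      ⟨k * FreeGroup.mk (reduceCyclically.conjugator L), ?_⟩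
    rw [hk, hg]
    group
  have h2 := h1.perm.length_eq
  have h3 := wpr_e2_length_reduceCyclically L
  have h4 : L.length ≤ g.length := FreeGroup.norm_mk_le
  omega

end WPP
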