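import Pool.Agent.Lib.WPP_A4
import Pool.Agent.Lib.WPR_e1
import Pool.Agent.Lib.WPR_e2

/-!
# WPR, row e3: the turns of a cyclic word with a fixed point are turns of `V`
-/

namespace WPP

open FreeGroup List

namespace E3

variable {n : ℕ} {X : Type} (ρ : FreeGroup (Fin n) →* Equiv.Perm X) (V : Set X)

/-- consecutive positions of a walk in `V` -/
def E (a b : X × Ltr n) : Prop := stp ρ a.1 a.2 = b.1 ∧ a.1 ∈ V ∧ b.1 ∈ V

theorem stp_mul (c : X) (h : FreeGroup (Fin n)) (d : Ltr n) :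
    (ρ (h * lt d))⁻¹ c = stp ρ ((ρ h)⁻¹ c) d := by
  rw [stp, _root_.map_mul, mul_inv_rev, Equiv.Perm.mul_apply]

theorem stp_bar (c : X) (d : Ltr n) : stp ρ (stp ρ c d) (bar d) = c := by
  rw [stp, stp, ← Equiv.Perm.mul_apply, ← mul_inv_rev, ← _root_.map_mul, lt_bar, mul_inv_cancel]
  simp

theorem list_of_pth {c : X} {h : FreeGroup (Fin n)} (p : Pth ρ V c h) :
    ∃ l : List (X × Ltr n), FreeGroup.mk (l.map Prod.snd) = h ∧ List.IsChain (E ρ V) l ∧
      (∀ a ∈ l.head?, a.1 = c) ∧ (∀ a ∈ l.getLast?, stp ρ a.1 a.2 = (ρ h)⁻¹ c ∧ a.1 ∈ V) ∧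
      (l = [] → h = 1) := by
  have hend : ∀ {c : X} {h : FreeGroup (Fin n)}, Pth ρ V c h → (ρ h)⁻¹ c ∈ V := by
    intro c h p
    cases p with
    | refl h => simpa using h
    | step d _ h => exact h
  induction p with
  | refl hc => exact ⟨[], rfl, List.isChain_nil, by simp, by simp, fun _ => rfl⟩
  | @step h d p hm ih =>
    obtain ⟨l, h1, h2, h3, h4, h5⟩ := ih
    refine ⟨l ++ [((ρ h)⁻¹ c, d)], ?_, ?_, ?_, ?_, by simp⟩
    · rw [List.map_append, ← FreeGroup.mul_mk, h1]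
      rfl
    · rw [List.isChain_append]
      refine ⟨h2, List.isChain_singleton _, ?_⟩
      intro a ha b hb
      simp only [List.head?_cons, Option.mem_def, Option.some.injEq] at hb
      subst hb
      exact ⟨(h4 a ha).1, (h4 a ha).2, hend p⟩
    · intro a ha
      cases l with
      | nil =>
        simp only [List.nil_append, List.head?_cons, Option.mem_def, Option.some.injEq] at ha
        subst ha
        rw [h5 rfl]
        simp
      | cons b l => exact h3 a (by simpa using ha)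
    · intro a ha
      simp only [List.getLast?_append, List.getLast?_singleton, Option.some_or,
        Option.mem_def, Option.some.injEq] at ha
      subst ha
      exact ⟨(stp_mul ρ c h d).symm, hend p⟩

theorem conj_red (u : Word n) :
    Cj (FreeGroup.mk (reduceCyclically (FreeGroup.reduce u))) (FreeGroup.mk u) := by
  have h := reduceCyclically.conj_conjugator_reduceCyclically (FreeGroup.reduce u)
  have h2 : FreeGroup.mk u = FreeGroup.mk (reduceCyclically.conjugator (FreeGroup.reduce u)) *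
      FreeGroup.mk (reduceCyclically (FreeGroup.reduce u)) *
      (FreeGroup.mk (reduceCyclically.conjugator (FreeGroup.reduce u)))⁻¹ := by
    rw [FreeGroup.inv_mk, FreeGroup.mul_mk, FreeGroup.mul_mk, h, FreeGroup.reduce.self]
  refine ⟨(FreeGroup.mk (reduceCyclically.conjugator (FreeGroup.reduce u)))⁻¹, ?_⟩
  rw [h2]
  simp only [inv_inv]
  group

end E3

theorem turns_in_V {n : ℕ} {X : Type} (ρ : FreeGroup (Fin n) →* Equiv.Perm X)
    (htr : Trans ρ) (V : Set X) (hV : V.Nonempty) (hcar : Car ρ V) (w : Word n)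
    (hw : IsCyclicallyReduced w) (hfix : ∃ c, ρ (FreeGroup.mk w) c = c) (u v : Ltr n)
    (huv : CPair w u v) : ∃ c ∈ V, stp ρ c (bar u) ∈ V ∧ stp ρ c v ∈ V := by
  classical
  obtain ⟨c, hc⟩ := hfix
  obtain ⟨c0, hc0⟩ := hV
  obtain ⟨k, hk⟩ := htr c0 c
  set h := k⁻¹ * FreeGroup.mk w * k with hh
  have hfix0 : ρ h c0 = c0 := by
    rw [hh, _root_.map_mul, _root_.map_mul, Equiv.Perm.mul_apply, Equiv.Perm.mul_apply, hk, hc,
      _root_.map_inv, Equiv.Perm.inv_eq_iff_eq]
    exact hk.symm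
  have hfix1 : (ρ h)⁻¹ c0 = c0 := by
    rw [Equiv.Perm.inv_eq_iff_eq]; exact hfix0.symm
  obtain ⟨l, h1, h2, h3, h4, h5⟩ := E3.list_of_pth ρ V (hcar c0 hc0 h (by rw [hfix1]; exact hc0))
  have hwne : w ≠ [] := by
    rintro rfl
    have := (a4_mem huv).1
    simp at this
  have hmk : FreeGroup.mk w ≠ 1 := by
    intro e
    rw [FreeGroup.one_eq_mk, FreeGroup.Red.exact] at e
    obtain ⟨z, hz1, hz2⟩ := e
    have hr : FreeGroup.reduce w = w := (FreeGroup.isReduced_iff_reduce_eq).1 hw.isReduced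
    have : FreeGroup.reduce w = FreeGroup.reduce [] :=
      (FreeGroup.reduce.eq_of_red hz1).trans (FreeGroup.reduce.eq_of_red hz2).symm
    rw [hr] at this
    exact hwne (by simpa using this)
  have hne : h ≠ 1 := by
    intro e
    apply hmk
    have : FreeGroup.mk w = k * h * k⁻¹ := by rw [hh]; group
    rw [this, e]; group
  have hcyc : Cyc (E3.E ρ V) l := by
    refine ⟨h2, fun a ha b hb => ?_⟩
    have hb' := h3 b hb
    have ha' := h4 a ha
    exact ⟨by rw [ha'.1, hfix1, hb'], ha'.2, by rw [hb']; exact hc0⟩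
  have hE : ∀ a b c d, E3.E ρ V a b → E3.E ρ V b c → E3.E ρ V c d → c.2 = bar b.2 →
      E3.E ρ V a d := by
    intro a b c d h1 h2 h3 h4
    refine ⟨?_, h1.2.1, h3.2.2⟩
    rw [h1.1, ← h3.1, ← h2.1, h4, E3.stp_bar]
  obtain ⟨l', _, hl', hmap⟩ := cancel_cyc Prod.snd (E3.E ρ V) hE l hcyc (by rw [h1]; exact hne)
  have hcr : IsCyclicallyReduced (l'.map Prod.snd) := by
    rw [hmap]
    exact reduceCyclically.isCyclicallyReduced (FreeGroup.isReduced_iff_reduce_eq.2 FreeGroup.reduce.idem)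
  have hcj : Cj (FreeGroup.mk (l'.map Prod.snd)) (FreeGroup.mk w) := by
    rw [hmap]
    obtain ⟨g, hg⟩ := E3.conj_red (l.map Prod.snd)
    refine ⟨g * k⁻¹, ?_⟩
    rw [hg, h1, hh]
    group
  have hrot := rot_of_conj w _ hw hcr hcj
  obtain ⟨t, ht, hv⟩ := huv
  have hp : CPair (l'.map Prod.snd) u v := ⟨t, ht.trans hrot.symm, hv⟩
  obtain ⟨a, b, hab, rfl, rfl⟩ := a4_map Prod.snd hp
  have hEab := a4_rel hl' hab
  obtain ⟨b', hb'⟩ := a4_succ (a4_mem hab).2
  have hEbb := a4_rel hl' hb'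
  refine ⟨b.1, hEab.2.2, ?_, ?_⟩
  · rw [← hEab.1, E3.stp_bar]
    exact hEab.2.1
  · rw [hEbb.1]
    exact hEbb.2.2

end WPP
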