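import Pool.Agent.Lib.WPP_B
import Pool.Agent.Lib.WPR_Base

namespace WPP

open FreeGroup List

/-- the two forms of the Whitehead automorphism agree -/
theorem wpr_f1_tau {n : ℕ} (A : Ltr n → Prop) (x : Ltr n) (g : FreeGroup (Fin n)) :
    tau A x g = rowB_tau A x g := by
  have h : tauHom A x = FreeGroup.lift (rowB_f A x) := by
    refine FreeGroup.ext_hom _ _ fun i => ?_
    simp only [tauHom, FreeGroup.lift_apply_of, rowB_f, Kp, rowB_k]
  rw [tau_apply, h]
  rfl

/-- a word in `x`, `x⁻¹` is fixed -/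
theorem wpr_f1_fix {n : ℕ} (A : Ltr n → Prop) (x : Ltr n) :
    ∀ p : Word n, (∀ a ∈ p, a = x ∨ a = bar x) → tau A x (FreeGroup.mk p) = FreeGroup.mk p := by
  intro p
  induction p with
  | nil => intro _; rw [← FreeGroup.one_eq_mk, _root_.map_one]
  | cons v l ih =>
    intro h
    rw [rowB_mk_cons, _root_.map_mul, ih fun a ha => h a (List.mem_cons_of_mem _ ha), tau_apply,
      tauHom_fix]
    rcases h v List.mem_cons_self with h | h
    · rw [h]
    · rw [h]; rfl

/-- ROW f1: the move on cyclic words, with the explicit automorphism -/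
theorem move_word2 {n : ℕ} (p : Word n) (hp : IsCyclicallyReduced p) (A : Ltr n → Prop)
    (x : Ltr n) (hx : A x) (hbx : ¬ A (bar x)) (ht : Turn A x p) :
    ∃ p' : Word n, IsCyclicallyReduced p' ∧ p'.length ≤ p.length ∧
      (Cut A x p → p'.length < p.length) ∧ (p ≠ [] → p' ≠ []) ∧
      Cj (FreeGroup.mk p') (tau A x (FreeGroup.mk p)) ∧
      ∀ (β : Type) (lab : β → Ltr n) (R : β → β → Prop),
        Acc lab R p → Acc lab (mv lab A x R) p' := by
  by_cases hex : ∃ a ∈ p, a ≠ x ∧ a ≠ bar x
  · obtain ⟨a, hap, hax, hab⟩ := hex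
    obtain ⟨l₁, l₂, hl⟩ := List.append_of_mem hap
    -- the rotated word
    have hrot : p ~r (a :: (l₂ ++ l₁)) := by
      rw [hl, ← List.cons_append]; exact rowB_app_rot _ _
    generalize ht' : l₂ ++ l₁ = t at hrot
    have hred : Cyc (fun u v => v ≠ bar u) (a :: t) :=
      rowB_cyc_rot hrot ((rowB_cycred p).1 hp)
    have hT : List.IsChain (rowB_T A x) (a :: (t ++ [a])) := by
      rw [← rowB_cyc, rowB_cyc_iff]
      intro u v huv
      exact ⟨(rowB_cyc_iff _ a t).1 hred u v huv, ht u v (rowB_cpair_rot hrot.symm huv)⟩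
    set d := rowB_dl (fun y => y) A x a t a with hd
    -- the automorphism
    have hmk : FreeGroup.mk (a :: d) = (rowB_k x (A a))⁻¹ *
        rowB_tau A x ((FreeGroup.mk l₁)⁻¹ * FreeGroup.mk p * FreeGroup.mk l₁) *
          rowB_k x (A a) := by
      have hp0 : (FreeGroup.mk l₁)⁻¹ * FreeGroup.mk p * FreeGroup.mk l₁ =
          FreeGroup.mk (a :: t) := by
        rw [hl, ← ht', ← FreeGroup.mul_mk (L₁ := l₁) (L₂ := a :: l₂),
          show a :: (l₂ ++ l₁) = (a :: l₂) ++ l₁ by rfl,
          ← FreeGroup.mul_mk (L₁ := a :: l₂) (L₂ := l₁)]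
        group
      rw [hp0, rowB_mk_cons a t, _root_.map_mul, rowB_tau_lt A x a hax hab, rowB_mk_cons]
      have hw := rowB_word A x hx hbx a t a hT
      have hl1 : rowB_T A x ((a :: t).getLast (by simp)) a := by
        have h1 : Cyc (rowB_T A x) (a :: t) := (rowB_cyc _ _ _).2 hT
        refine h1.2 _ ?_ _ rfl
        rw [Option.mem_def]
        exact List.getLast?_eq_getLast_of_ne_nil (by simp)
      have hl2 : rowB_T A x a (t.headD a) := by
        rw [List.isChain_cons] at hT
        refine hT.1 _ ?_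
        cases t <;> simp
      have hba : bar a ≠ x := fun h => hab (by rw [← h, rowB_bar_bar])
      have e1 : (A (bar ((a :: t).getLast (by simp))) ∧ A a) ↔ A a :=
        ⟨fun h => h.2, fun h => ⟨hl1.2.2 ⟨h, hax⟩, h⟩⟩
      have e2 : (A (bar a) ∧ A (t.headD a)) ↔ A (bar a) :=
        ⟨fun h => h.1, fun h => ⟨h, hl2.2.1 ⟨h, hba⟩⟩⟩
      rw [propext e1, propext e2] at hw
      have hw' : rowB_tau A x (FreeGroup.mk t) =
          rowB_k x (A (bar a)) * FreeGroup.mk d * (rowB_k x (A a))⁻¹ := by
        rw [← hw]; group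
      rw [hw']
      group
    have hlen : p.length = t.length + 1 := by
      rw [hrot.perm.length_eq]; simp
    have hlen2 := rowB_len (fun y : Ltr n => y) A x a hax t a (fun h => absurd h hab)
    refine ⟨a :: d, ?_, ?_, ?_, fun _ => by simp, ?_, ?_⟩
    · -- reduced
      rw [rowB_cycred, rowB_cyc]
      have := rowB_chain (fun y : Ltr n => y) (rowB_T A x) A x hx hbx a hax hab t.length t a
        le_rfl hT hT (fun h => absurd h hab)
      exact this.imp fun u v h => rowB_mv_red A x u v h
    · rw [hlen, List.length_cons]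
      exact Nat.succ_le_succ hlen2.1
    · -- shorter
      rintro ⟨-, -, -, u₀, v₀, hcp, hst⟩
      rw [hlen, List.length_cons]
      rcases hlen2.2 with h | h
      · exact Nat.succ_lt_succ h
      · exfalso
        have h' := (rowB_cyc_iff _ a t).1 ((rowB_cyc _ a t).2 h) u₀ v₀
          (rowB_cpair_rot hrot hcp)
        rcases hst with ⟨h1, h2, h3⟩ | ⟨h1, h2, h3⟩
        · exact h'.2 ⟨by rw [← h1, rowB_bar_bar], h2⟩
        · exact h'.1 ⟨h1, h2⟩
    · -- the image
      refine ⟨(rowB_k x (A a))⁻¹ * (rowB_tau A x (FreeGroup.mk l₁))⁻¹, ?_⟩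
      rw [hmk, wpr_f1_tau, _root_.map_mul, _root_.map_mul, _root_.map_inv]
      group
    · -- closed chains
      intro β lab R hacc
      obtain ⟨l, hlab, hcyc⟩ := rowB_acc_rot hrot hacc
      rcases l with _ | ⟨b, l⟩
      · simp at hlab
      rw [List.map_cons, List.cons.injEq] at hlab
      obtain ⟨hb, hl'⟩ := hlab
      have hch : List.IsChain R (b :: (l ++ [b])) := (rowB_cyc _ _ _).1 hcyc
      have hTp : List.IsChain (fun c e => rowB_T A x (lab c) (lab e)) (b :: (l ++ [b])) := by
        rw [← List.isChain_map lab (R := rowB_T A x)]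
        simpa [hb, hl'] using hT
      have hres := rowB_chain lab R A x hx hbx b (by rw [hb]; exact hax) (by rw [hb]; exact hab)
        l.length l b le_rfl hch hTp (fun h => absurd (hb ▸ h) hab)
      refine ⟨b :: rowB_dl lab A x b l b, ?_, (rowB_cyc _ _ _).2 hres⟩
      rw [List.map_cons, rowB_map, hl', hb]
  · push Not at hex
    have hall : ∀ a ∈ p, a = x ∨ a = bar x := by
      intro a ha
      by_cases h : a = x
      · exact Or.inl h
      · exact Or.inr (hex a ha h)
    refine ⟨p, hp, le_rfl, ?_, fun h => h, ?_, ?_⟩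
    · rintro ⟨-, -, -, u₀, v₀, hcp, hst⟩
      exfalso
      have hm := rowB_cpair_mem hcp
      rcases hst with ⟨_, h2, h3⟩ | ⟨_, h2, h3⟩
      · rcases hall _ hm.2 with h | h
        · exact h3 h
        · exact hbx (h ▸ h2)
      · rcases hall _ hm.1 with h | h
        · exact hbx (h ▸ h2)
        · exact h3 (by rw [h, rowB_bar_bar])
    · refine ⟨1, ?_⟩
      rw [wpr_f1_fix A x p hall]
      group
    · rintro β lab R ⟨l, hl, hc⟩
      refine ⟨l, hl, ?_⟩
      rcases l with _ | ⟨b, l⟩
      · simp [Cyc]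
      rw [rowB_cyc_iff] at hc ⊢
      intro u v huv
      have hm := rowB_cpair_mem huv
      have hu : lab u = x ∨ lab u = bar x := hall _ (by rw [← hl]; exact List.mem_map_of_mem hm.1)
      have hv : lab v = x ∨ lab v = bar x := hall _ (by rw [← hl]; exact List.mem_map_of_mem hm.2)
      refine Or.inl ⟨hc u v huv, ?_⟩
      have e1 : Xs A x (lab u) := by
        rcases hu with h | h
        · exact Or.inl h
        · exact Or.inr (Or.inl h)
      have e2 : Es A x (lab v) := by
        rcases hv with h | h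
        · exact Or.inl h
        · exact Or.inr (Or.inl h)
      exact ⟨fun _ => e2, fun _ => e1⟩

end WPP
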