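import Pool.Agent.Lib.WPR_Base
import Pool.Agent.Lib.WPP_C1

/-! # PROJECT WPR, row f2: the Whitehead move on relations is sound, explicit automorphism -/

namespace WPP


theorem wpr_f2_tau {n : ℕ} (A : Ltr n → Prop) (x : Ltr n) (g : FreeGroup (Fin n)) :
    tau A x g = c1_tau A x g := by
  have key : tauHom A x = c1_tau A x := by
    refine FreeGroup.ext_hom _ _ fun i => ?_
    rw [← lt_true, c1_tau_lt]
    by_cases h : i = x.1
    · rw [tauHom_fix A x (i, true) h]
      have hE : Es A x (i, true) ∧ Xs A x (i, true) := by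
        obtain ⟨k, b⟩ := x
        have h' : i = k := h
        subst h'
        cases b
        · exact ⟨Or.inr (Or.inl rfl), Or.inr (Or.inl rfl)⟩
        · exact ⟨Or.inl rfl, Or.inl rfl⟩
      rw [c1_kap_true x hE.1, c1_kap_true x hE.2]
      simp
    · rw [tauHom_lt A x (i, true) h]
      have h1 : ((i, true) : Ltr n) ≠ x := fun he => h (congrArg Prod.fst he)
      have h2 : ((i, true) : Ltr n) ≠ bar x := fun he => h (congrArg Prod.fst he)
      have e1 : c1_kap x (Es A x (i, true)) = Kp A x (i, true) := by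
        unfold c1_kap Kp Es
        by_cases hA : A (i, true)
        · simp [hA, h1, h2]
        · simp [hA]
      have e2 : c1_kap x (Xs A x (i, true)) = Kp A x (bar (i, true)) := by
        unfold c1_kap Kp Xs
        by_cases hA : A (bar (i, true))
        · simp [hA, h1, h2]
        · simp [hA]
      rw [e1, e2]
  rw [tau_apply, key]

theorem sound_mv2 {n : ℕ} {β : Type} (S : Subgroup (FreeGroup (Fin n))) (lab : β → Ltr n)
    (R : β → β → Prop) (pre : β → FreeGroup (Fin n)) (h : Sound S lab R pre)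
    (A : Ltr n → Prop) (x : Ltr n) (hx : A x) (hbx : ¬ A (bar x)) :
    ∃ pre' : β → FreeGroup (Fin n),
      Sound (S.map (tau A x).toMonoidHom) lab (mv lab A x R) pre' := by
  refine ⟨fun a => c1_tau A x (pre a) * c1_kap x (Es A x (lab a)), ?_⟩
  intro a b hab
  rcases hab with ⟨hR, hXE⟩ | ⟨m, h1, h2, hm⟩
  · refine ⟨_, h a b hR, ?_⟩
    show tau A x (pre a * lt (lab a) * (pre b)⁻¹) =
      c1_tau A x (pre a) * c1_kap x (Es A x (lab a)) * lt (lab a) *
        (c1_tau A x (pre b) * c1_kap x (Es A x (lab b)))⁻¹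
    rw [wpr_f2_tau, map_mul, map_mul, map_inv, c1_tau_lt, c1_kap_congr x hXE]
    group
  · have hprod : pre a * lt (lab a) * lt (lab m) * (pre b)⁻¹ ∈ S := by
      have := S.mul_mem (h a m h1) (h m b h2)
      have e : pre a * lt (lab a) * (pre m)⁻¹ * (pre m * lt (lab m) * (pre b)⁻¹) =
          pre a * lt (lab a) * lt (lab m) * (pre b)⁻¹ := by group
      rwa [e] at this
    refine ⟨_, hprod, ?_⟩
    show tau A x (pre a * lt (lab a) * lt (lab m) * (pre b)⁻¹) =
      c1_tau A x (pre a) * c1_kap x (Es A x (lab a)) * lt (lab a) *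
        (c1_tau A x (pre b) * c1_kap x (Es A x (lab b)))⁻¹
    rw [wpr_f2_tau]
    rcases hm with ⟨hlm, hX, hE⟩ | ⟨hlm, hX, hE⟩
    · rw [hlm, map_mul, map_mul, map_mul, map_inv, c1_tau_x, c1_tau_lt,
        c1_kap_false x hX, c1_kap_true x hE]
      group
    · rw [hlm, map_mul, map_mul, map_mul, map_inv, c1_lt_bar, map_inv, c1_tau_x, c1_tau_lt,
        c1_kap_true x hX, c1_kap_false x hE]
      group

end WPP
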