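import Pool.Agent.Lib.WPR_Base

/-! PROJECT WPR, row f3: the general move on positions is sound -/

namespace WPP

open FreeGroup List

/-- side factor: `1` outside of `A`, `x` inside -/
def f3_kp {n : ℕ} (x : Ltr n) (s : Bool) : FreeGroup (Fin n) := if s then 1 else lt x

theorem f3_kp_true {n : ℕ} (x : Ltr n) : f3_kp x true = 1 := rfl

theorem f3_kp_false {n : ℕ} (x : Ltr n) : f3_kp x false = lt x := rfl

/-- value of a point -/
noncomputable def f3_val {n : ℕ} {β : Type} (lab : β → Ltr n) (pre : β → FreeGroup (Fin n))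
    (A : Ltr n → Prop) (x : Ltr n) (s : Pt β) : FreeGroup (Fin n) :=
  (if s.2.1 then tauHom A x (pre s.1 * lt (lab s.1)) else tauHom A x (pre s.1)) * f3_kp x s.2.2

theorem f3_val_start {n : ℕ} {β : Type} (lab : β → Ltr n) (pre : β → FreeGroup (Fin n))
    (A : Ltr n → Prop) (x : Ltr n) (p : β) (s : Bool) :
    f3_val lab pre A x (p, false, s) = tauHom A x (pre p) * f3_kp x s := rfl

theorem f3_val_end {n : ℕ} {β : Type} (lab : β → Ltr n) (pre : β → FreeGroup (Fin n))
    (A : Ltr n → Prop) (x : Ltr n) (p : β) (s : Bool) :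
    f3_val lab pre A x (p, true, s) =
      tauHom A x (pre p) * tauHom A x (lt (lab p)) * f3_kp x s := by
  show tauHom A x (pre p * lt (lab p)) * f3_kp x s = _
  rw [_root_.map_mul]

theorem f3_fst_cases {n : ℕ} (x y : Ltr n) (h : y.1 = x.1) : y = x ∨ y = bar x := by
  obtain ⟨i, b⟩ := x
  obtain ⟨j, c⟩ := y
  have h' : j = i := h
  subst h'
  cases b <;> cases c <;> simp [bar]

open Classical in
theorem f3_nat {n : ℕ} (A : Ltr n → Prop) (x y : Ltr n) :
    f3_kp x (decide (Es A x y)) * lt y = tauHom A x (lt y) * f3_kp x (decide (Xs A x y)) := by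
  by_cases h : y.1 = x.1
  · have hE : Es A x y := by
      rcases f3_fst_cases x y h with h1 | h1
      · exact Or.inl h1
      · exact Or.inr (Or.inl h1)
    have hX : Xs A x y := by
      rcases f3_fst_cases x y h with h1 | h1
      · exact Or.inl h1
      · exact Or.inr (Or.inl h1)
    rw [tauHom_fix A x y h]
    simp [hE, hX, f3_kp_true]
  · have n1 : y ≠ x := fun e => h (by rw [e])
    have n2 : y ≠ bar x := fun e => h (by rw [e]; rfl)
    have hE : Es A x y ↔ ¬ A y := by
      unfold Es
      constructor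
      · rintro (h1 | h1 | h1)
        · exact absurd h1 n1
        · exact absurd h1 n2
        · exact h1
      · exact fun h1 => Or.inr (Or.inr h1)
    have hX : Xs A x y ↔ ¬ A (bar y) := by
      unfold Xs
      constructor
      · rintro (h1 | h1 | h1)
        · exact absurd h1 n1
        · exact absurd h1 n2
        · exact h1
      · exact fun h1 => Or.inr (Or.inr h1)
    have k1 : f3_kp x (decide (Es A x y)) = Kp A x y := by
      unfold Kp
      by_cases hA : A y
      · have : ¬ Es A x y := fun e => (hE.1 e) hA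
        simp [this, hA, f3_kp_false]
      · have : Es A x y := hE.2 hA
        simp [this, hA, f3_kp_true]
    have k2 : f3_kp x (decide (Xs A x y)) = Kp A x (bar y) := by
      unfold Kp
      by_cases hA : A (bar y)
      · have : ¬ Xs A x y := fun e => (hX.1 e) hA
        simp [this, hA, f3_kp_false]
      · have : Xs A x y := hX.2 hA
        simp [this, hA, f3_kp_true]
    rw [k1, k2, tauHom_lt A x y h]
    group

theorem f3_comm {n : ℕ} (x y : Ltr n) (h : y.1 = x.1) : lt x * lt y = lt y * lt x := by
  rcases f3_fst_cases x y h with h1 | h1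
  · rw [h1]
  · rw [h1, lt_bar]
    group

theorem f3_step {n : ℕ} {β : Type} (lab : β → Ltr n) (pre : β → FreeGroup (Fin n))
    (A : Ltr n → Prop) (x : Ltr n) (q : β × Fin 4) (hq : q.2 = 1 → (lab q.1).1 = x.1) :
    f3_val lab pre A x (stG lab A x q) * lt (labG lab x q) =
      f3_val lab pre A x (enG lab A x q) := by
  classical
  obtain ⟨p, k⟩ := q
  fin_cases k
  · have e1 : stG lab A x (p, (0 : Fin 4)) = (p, false, decide (Es A x (lab p))) := by
      simp [stG]
    have e2 : enG lab A x (p, (0 : Fin 4)) = (p, true, decide (Xs A x (lab p))) := by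
      simp [enG]
    have e3 : labG lab x (p, (0 : Fin 4)) = lab p := by simp [labG]
    show f3_val lab pre A x (stG lab A x (p, (0 : Fin 4))) * lt (labG lab x (p, (0 : Fin 4))) =
      f3_val lab pre A x (enG lab A x (p, (0 : Fin 4)))
    rw [e1, e2, e3, f3_val_start, f3_val_end, mul_assoc, mul_assoc, f3_nat]
  · have e1 : stG lab A x (p, (1 : Fin 4)) = (p, false, false) := by simp [stG]
    have e2 : enG lab A x (p, (1 : Fin 4)) = (p, true, false) := by simp [enG]
    have e3 : labG lab x (p, (1 : Fin 4)) = lab p := by simp [labG]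
    have hx : (lab p).1 = x.1 := hq rfl
    show f3_val lab pre A x (stG lab A x (p, (1 : Fin 4))) * lt (labG lab x (p, (1 : Fin 4))) =
      f3_val lab pre A x (enG lab A x (p, (1 : Fin 4)))
    rw [e1, e2, e3, f3_val_start, f3_val_end, mul_assoc, mul_assoc, f3_kp_false,
      tauHom_fix A x _ hx, f3_comm x _ hx]
  · have e1 : stG lab A x (p, (2 : Fin 4)) = (p, true, true) := by simp [stG]
    have e2 : enG lab A x (p, (2 : Fin 4)) = (p, true, false) := by simp [enG]
    have e3 : labG lab x (p, (2 : Fin 4)) = x := by simp [labG]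
    show f3_val lab pre A x (stG lab A x (p, (2 : Fin 4))) * lt (labG lab x (p, (2 : Fin 4))) =
      f3_val lab pre A x (enG lab A x (p, (2 : Fin 4)))
    rw [e1, e2, e3, f3_val_end, f3_val_end, f3_kp_true, f3_kp_false, mul_one]
  · have e1 : stG lab A x (p, (3 : Fin 4)) = (p, false, false) := by simp [stG]
    have e2 : enG lab A x (p, (3 : Fin 4)) = (p, false, true) := by simp [enG]
    have e3 : labG lab x (p, (3 : Fin 4)) = bar x := by simp [labG]
    show f3_val lab pre A x (stG lab A x (p, (3 : Fin 4))) * lt (labG lab x (p, (3 : Fin 4))) =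
      f3_val lab pre A x (enG lab A x (p, (3 : Fin 4)))
    rw [e1, e2, e3, f3_val_start, f3_val_start, f3_kp_true, f3_kp_false, lt_bar]
    group

theorem f3_rel {n : ℕ} {β : Type} (S : Subgroup (FreeGroup (Fin n))) (lab : β → Ltr n)
    (R : β → β → Prop) (pre : β → FreeGroup (Fin n)) (h : Sound S lab R pre)
    (A : Ltr n → Prop) (x : Ltr n) (s t : Pt β) (hst : rel0 lab x R s t) :
    f3_val lab pre A x s * (f3_val lab pre A x t)⁻¹ ∈ S.map (tau A x).toMonoidHom := by
  obtain ⟨p, e, σ⟩ := s
  obtain ⟨q, e', σ'⟩ := t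
  rcases hst with ⟨hR, h1, h2, h3⟩ | ⟨h0, hl, h1, h2⟩ | ⟨h0, hl, h1, h2⟩
  · have h1' : e = true := h1
    have h2' : e' = false := h2
    have h3' : σ = σ' := h3
    have hR' : R p q := hR
    subst h1' h2' h3'
    refine ⟨_, h p q hR', ?_⟩
    show tauHom A x (pre p * lt (lab p) * (pre q)⁻¹) = _
    rw [f3_val_start, f3_val_end, _root_.map_mul, _root_.map_mul, _root_.map_inv]
    group
  · have h0' : p = q := h0
    have hl' : lab p = x := hl
    have h1' : (e, σ) = (false, false) := h1
    have h2' : (e', σ') = (true, true) := h2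
    obtain ⟨rfl, rfl⟩ := Prod.mk.inj h1'
    obtain ⟨rfl, rfl⟩ := Prod.mk.inj h2'
    subst h0'
    have hv : f3_val lab pre A x (p, false, false) * (f3_val lab pre A x (p, true, true))⁻¹ =
        1 := by
      rw [f3_val_start, f3_val_end, hl', f3_kp_true, f3_kp_false, tauHom_fix A x x rfl]
      group
    rw [hv]
    exact one_mem _
  · have h0' : p = q := h0
    have hl' : lab p = bar x := hl
    have h1' : (e, σ) = (false, true) := h1
    have h2' : (e', σ') = (true, false) := h2
    obtain ⟨rfl, rfl⟩ := Prod.mk.inj h1'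
    obtain ⟨rfl, rfl⟩ := Prod.mk.inj h2'
    subst h0'
    have hv : f3_val lab pre A x (p, false, true) * (f3_val lab pre A x (p, true, false))⁻¹ =
        1 := by
      rw [f3_val_start, f3_val_end, hl', f3_kp_true, f3_kp_false,
        tauHom_fix A x (bar x) rfl, lt_bar]
      group
    rw [hv]
    exact one_mem _

theorem f3_eqv {n : ℕ} {β : Type} (S : Subgroup (FreeGroup (Fin n))) (lab : β → Ltr n)
    (R : β → β → Prop) (pre : β → FreeGroup (Fin n)) (h : Sound S lab R pre)
    (A : Ltr n → Prop) (x : Ltr n) (s t : Pt β) (hst : Relation.EqvGen (rel0 lab x R) s t) :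
    f3_val lab pre A x s * (f3_val lab pre A x t)⁻¹ ∈ S.map (tau A x).toMonoidHom := by
  induction hst with
  | rel s t h1 => exact f3_rel S lab R pre h A x s t h1
  | refl s => rw [mul_inv_cancel]; exact one_mem _
  | symm s t _ ih =>
    have := inv_mem ih
    rwa [_root_.mul_inv_rev, inv_inv] at this
  | trans s t u _ _ ih1 ih2 =>
    have := mul_mem ih1 ih2
    have e : f3_val lab pre A x s * (f3_val lab pre A x t)⁻¹ *
        (f3_val lab pre A x t * (f3_val lab pre A x u)⁻¹) =
        f3_val lab pre A x s * (f3_val lab pre A x u)⁻¹ := by group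
    rwa [e] at this

theorem sound_mvG {n : ℕ} {β : Type} (S : Subgroup (FreeGroup (Fin n))) (lab : β → Ltr n)
    (R : β → β → Prop) (pre : β → FreeGroup (Fin n)) (h : Sound S lab R pre)
    (A : Ltr n → Prop) (x : Ltr n) :
    ∃ pre' : β × Fin 4 → FreeGroup (Fin n),
      Sound (S.map (tau A x).toMonoidHom) (labG lab x) (mvG lab A x R) pre' := by
  refine ⟨fun q => f3_val lab pre A x (stG lab A x q), ?_⟩
  intro a b hab
  obtain ⟨ha, _, hE⟩ := hab
  show f3_val lab pre A x (stG lab A x a) * lt (labG lab x a) *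
    (f3_val lab pre A x (stG lab A x b))⁻¹ ∈ _
  rw [f3_step lab pre A x a ha]
  exact f3_eqv S lab R pre h A x _ _ hE

end WPP
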