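import Pool.Agent.Lib.WPP_B
import Pool.Agent.Lib.WPR_Base

namespace WPP

open FreeGroup List

section WprG1Points

variable {n : ℕ} {β : Type}

theorem wpr_g1_Es_i (i j : Fin n) (s : Bool) : Es (Aal i j) (i, false) ((i, s) : Ltr n) := by
  cases s
  · exact Or.inl rfl
  · exact Or.inr (Or.inl rfl)

theorem wpr_g1_Xs_i (i j : Fin n) (s : Bool) : Xs (Aal i j) (i, false) ((i, s) : Ltr n) := by
  cases s
  · exact Or.inl rfl
  · exact Or.inr (Or.inl rfl)

theorem wpr_g1_Es_j (i j : Fin n) (hij : i ≠ j) (e : Bool) :
    Es (Aal i j) (i, false) ((j, e) : Ltr n) ↔ e = false := by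
  unfold Es Aal bar
  cases e <;> simp [hij.symm]

theorem wpr_g1_Xs_j (i j : Fin n) (hij : i ≠ j) (e : Bool) :
    Xs (Aal i j) (i, false) ((j, e) : Ltr n) ↔ e = true := by
  unfold Xs Aal bar
  cases e <;> simp [hij.symm]

theorem wpr_g1_st_i (lab : β → Ltr n) (i j : Fin n) (p : β) (s : Bool) (hp : lab p = (i, s)) :
    stG lab (Aal i j) (i, false) (p, 0) = (p, false, true) := by
  simp [stG, hp, wpr_g1_Es_i]

theorem wpr_g1_en_i (lab : β → Ltr n) (i j : Fin n) (p : β) (s : Bool) (hp : lab p = (i, s)) :
    enG lab (Aal i j) (i, false) (p, 0) = (p, true, true) := by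
  simp [enG, hp, wpr_g1_Xs_i]

theorem wpr_g1_st_j (lab : β → Ltr n) (i j : Fin n) (hij : i ≠ j) (p : β) (e : Bool)
    (hp : lab p = (j, e)) : stG lab (Aal i j) (i, false) (p, 0) = (p, false, !e) := by
  cases e <;> simp [stG, hp, wpr_g1_Es_j i j hij]

theorem wpr_g1_en_j (lab : β → Ltr n) (i j : Fin n) (hij : i ≠ j) (p : β) (e : Bool)
    (hp : lab p = (j, e)) : enG lab (Aal i j) (i, false) (p, 0) = (p, true, e) := by
  cases e <;> simp [enG, hp, wpr_g1_Xs_j i j hij]

theorem wpr_g1_st1 (lab : β → Ltr n) (i j : Fin n) (p : β) :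
    stG lab (Aal i j) (i, false) (p, 1) = (p, false, false) := by simp [stG]

theorem wpr_g1_en1 (lab : β → Ltr n) (i j : Fin n) (p : β) :
    enG lab (Aal i j) (i, false) (p, 1) = (p, true, false) := by simp [enG]

theorem wpr_g1_st2 (lab : β → Ltr n) (i j : Fin n) (p : β) :
    stG lab (Aal i j) (i, false) (p, 2) = (p, true, true) := by
  simp [stG, show (2 : Fin 4) ≠ 0 by decide, show (2 : Fin 4) ≠ 1 by decide]

theorem wpr_g1_en2 (lab : β → Ltr n) (i j : Fin n) (p : β) :
    enG lab (Aal i j) (i, false) (p, 2) = (p, true, false) := by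
  simp [enG, show (2 : Fin 4) ≠ 0 by decide, show (2 : Fin 4) ≠ 1 by decide]

theorem wpr_g1_st3 (lab : β → Ltr n) (i j : Fin n) (p : β) :
    stG lab (Aal i j) (i, false) (p, 3) = (p, false, false) := by
  simp [stG, show (3 : Fin 4) ≠ 0 by decide, show (3 : Fin 4) ≠ 1 by decide,
    show (3 : Fin 4) ≠ 2 by decide]

theorem wpr_g1_en3 (lab : β → Ltr n) (i j : Fin n) (p : β) :
    enG lab (Aal i j) (i, false) (p, 3) = (p, false, true) := by
  simp [enG, show (3 : Fin 4) ≠ 0 by decide, show (3 : Fin 4) ≠ 1 by decide,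
    show (3 : Fin 4) ≠ 2 by decide]

theorem wpr_g1_lab0 (lab : β → Ltr n) (x : Ltr n) (p : β) : labG lab x (p, 0) = lab p := by
  simp [labG]

theorem wpr_g1_lab1 (lab : β → Ltr n) (x : Ltr n) (p : β) : labG lab x (p, 1) = lab p := by
  simp [labG]

theorem wpr_g1_lab2 (lab : β → Ltr n) (x : Ltr n) (p : β) : labG lab x (p, 2) = x := by
  simp [labG, show (2 : Fin 4) ≠ 0 by decide, show (2 : Fin 4) ≠ 1 by decide]

theorem wpr_g1_lab3 (lab : β → Ltr n) (x : Ltr n) (p : β) : labG lab x (p, 3) = bar x := by
  simp [labG, show (3 : Fin 4) ≠ 0 by decide, show (3 : Fin 4) ≠ 1 by decide,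
    show (3 : Fin 4) ≠ 2 by decide]

theorem wpr_g1_eR (lab : β → Ltr n) (x : Ltr n) (R : β → β → Prop) (p q : β) (s : Bool)
    (h : R p q) : Relation.EqvGen (rel0 lab x R) (p, true, s) (q, false, s) :=
  Relation.EqvGen.rel _ _ (Or.inl ⟨h, rfl, rfl, rfl⟩)

theorem wpr_g1_eX (lab : β → Ltr n) (x : Ltr n) (R : β → β → Prop) (v : β) (h : lab v = x) :
    Relation.EqvGen (rel0 lab x R) (v, false, false) (v, true, true) :=
  Relation.EqvGen.rel _ _ (Or.inr (Or.inl ⟨rfl, h, rfl, rfl⟩))

theorem wpr_g1_eA (lab : β → Ltr n) (x : Ltr n) (R : β → β → Prop) (v : β) (h : lab v = bar x) :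
    Relation.EqvGen (rel0 lab x R) (v, false, true) (v, true, false) :=
  Relation.EqvGen.rel _ _ (Or.inr (Or.inr ⟨rfl, h, rfl, rfl⟩))

/-- walking through a run of `a`-letters -/
theorem wpr_g1_run (lab : β → Ltr n) (i j : Fin n) (R : β → β → Prop) (t : Fin 4) (sd : Bool)
    (rest : List (β × Fin 4)) :
    ∀ (r : List β) (_ : ∀ p ∈ r, stG lab (Aal i j) (i, false) (p, t) = (p, false, sd))
      (_ : ∀ p ∈ r, enG lab (Aal i j) (i, false) (p, t) = (p, true, sd))
      (_ : ∀ p ∈ r, (lab p).1 = i) (u : β) (P : β × Fin 4) (_ : P.2 = 1 → (lab P.1).1 = i)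
      (_ : Relation.EqvGen (rel0 lab (i, false) R) (enG lab (Aal i j) (i, false) P)
        (u, true, sd))
      (_ : List.IsChain R (u :: r))
      (_ : ∀ (P' : β × Fin 4) (w : β), (P'.2 = 1 → (lab P'.1).1 = i) →
        (u :: r).getLast? = some w →
        Relation.EqvGen (rel0 lab (i, false) R) (enG lab (Aal i j) (i, false) P')
          (w, true, sd) → List.IsChain (mvG lab (Aal i j) (i, false) R) (P' :: rest)),
      List.IsChain (mvG lab (Aal i j) (i, false) R) (P :: (r.map (fun p => (p, t)) ++ rest)) := by
  intro r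
  induction r with
  | nil =>
    intro _ _ _ u P hP hu _ hrest
    exact hrest P u hP rfl hu
  | cons v r ih =>
    intro hst hen hr u P hP hu hch hrest
    rw [List.isChain_cons_cons] at hch
    rw [List.map_cons, List.cons_append, List.isChain_cons_cons]
    refine ⟨⟨hP, fun _ => hr v List.mem_cons_self, ?_⟩, ?_⟩
    · rw [hst v List.mem_cons_self]
      exact hu.trans _ _ _ (wpr_g1_eR lab _ R u v sd hch.1)
    · refine ih (fun p hp => hst p (List.mem_cons_of_mem _ hp))
        (fun p hp => hen p (List.mem_cons_of_mem _ hp))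
        (fun p hp => hr p (List.mem_cons_of_mem _ hp)) v (v, t)
        (fun _ => hr v List.mem_cons_self) ?_ hch.2 ?_
      · rw [hen v List.mem_cons_self]
        exact Relation.EqvGen.refl _
      · intro P' w h1 h2 h3
        exact hrest P' w h1 (by rw [List.getLast?_cons_cons]; exact h2) h3

end WprG1Points

section WprG1Word

variable {n : ℕ}

theorem wpr_g1_mkconst (d : Ltr n) : ∀ r : Word n, (∀ y ∈ r, y = d) →
    FreeGroup.mk r = lt d ^ r.length := by
  intro r
  induction r with
  | nil => intro _; rw [← FreeGroup.one_eq_mk]; simp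
  | cons v l ih =>
    intro h
    rw [rowB_mk_cons, ih fun y hy => h y (List.mem_cons_of_mem _ hy), h v List.mem_cons_self,
      List.length_cons, pow_succ']

theorem wpr_g1_tau_i (i j : Fin n) (s : Bool) :
    tau (Aal i j) (i, false) (lt ((i, s) : Ltr n)) = lt (i, s) := by
  rw [tau_apply]
  exact tauHom_fix _ _ _ rfl

theorem wpr_g1_tau_b (i j : Fin n) (hij : i ≠ j) :
    tau (Aal i j) (i, false) (lt ((j, true) : Ltr n)) = (FreeGroup.of i)⁻¹ * lt (j, true) := by
  rw [tau_apply, tauHom_lt _ _ _ (fun h => hij h.symm)]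
  have h1 : Kp (Aal i j) ((i, false) : Ltr n) (j, true) = (FreeGroup.of i)⁻¹ := by
    simp [Kp, Aal, lt_false]
  have h2 : Kp (Aal i j) ((i, false) : Ltr n) (bar (j, true)) = 1 := by
    simp [Kp, Aal, bar, hij.symm]
  rw [h1, h2]
  group

theorem wpr_g1_tau_bb (i j : Fin n) (hij : i ≠ j) :
    tau (Aal i j) (i, false) (lt ((j, false) : Ltr n)) = lt (j, false) * FreeGroup.of i := by
  have h : lt ((j, false) : Ltr n) = (lt ((j, true) : Ltr n))⁻¹ := by
    rw [← lt_bar]; rfl
  rw [h, _root_.map_inv, wpr_g1_tau_b i j hij]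
  group

/-- what remains after a `b`-letter -/
def wpr_g1_ka (i : Fin n) (d : Ltr n) : FreeGroup (Fin n) :=
  if d.2 then 1 else FreeGroup.of i

end WprG1Word

section WprG1Block

variable {n : ℕ} {β : Type}

/-- the properties of the image `nr` of the run `r` between the `b`-letters `pb` and `c` -/
structure wpr_g1_Blk (lab : β → Ltr n) (i j : Fin n) (pb : β × Bool) (r : List (β × Bool))
    (c : β × Bool) (nr : List ((β × Fin 4) × Bool)) (s' : Bool) : Prop where
  lb : ∀ q ∈ nr, labG lab (i, false) q.1 = (i, s')
  nil : nr = [] → lab c.1 = lab pb.1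
  f1 : lab c.1 = (j, true) → (nr = [] ∨ s' = true) → c.2 = false
  f4 : lab pb.1 = (j, false) → (nr = [] ∨ s' = false) → pb.2 = false
  f2 : lab pb.1 = (j, true) → s' = true → ∀ q ∈ nr, q.2 = false
  f3 : lab c.1 = (j, false) → s' = false → ∀ q ∈ nr, q.2 = false
  cnt : r.countP (fun p => p.2) ≤ nr.countP (fun p => p.2)
  unm : ∀ q ∈ nr, q.2 = false → q.1.2 = 0 ∧ (q.1.1, false) ∈ r
  val : wpr_g1_ka i (lab pb.1) *
      tau (Aal i j) (i, false) (FreeGroup.mk (r.map fun p => lab p.1)) *
        tau (Aal i j) (i, false) (lt (lab c.1)) =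
      FreeGroup.mk (nr.map fun q => labG lab (i, false) q.1) * lt (lab c.1) *
        wpr_g1_ka i (lab c.1)
  mvg : ∀ R : β → β → Prop, List.IsChain R (pb.1 :: (r.map Prod.fst ++ [c.1])) →
    List.IsChain (mvG lab (Aal i j) (i, false) R)
      ((pb.1, (0 : Fin 4)) :: (nr.map Prod.fst ++ [(c.1, (0 : Fin 4))]))

theorem wpr_g1_tau_run (i j : Fin n) (s : Bool) (r : Word n) (h : ∀ y ∈ r, y = (i, s)) :
    tau (Aal i j) (i, false) (FreeGroup.mk r) = lt (i, s) ^ r.length := by
  rw [wpr_g1_mkconst _ r h, _root_.map_pow, wpr_g1_tau_i]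

theorem wpr_g1_map0 (lab : β → Ltr n) (x : Ltr n) (r : List (β × Bool)) :
    ((r.map fun p => ((p.1, (0 : Fin 4)), p.2)).map fun q => labG lab x q.1) =
      r.map fun p => lab p.1 := by
  rw [List.map_map]
  refine List.map_congr_left fun p _ => ?_
  exact wpr_g1_lab0 lab x p.1

theorem wpr_g1_map0f (t : Fin 4) (r : List (β × Bool)) :
    ((r.map fun p => ((p.1, t), p.2)).map Prod.fst) = (r.map Prod.fst).map fun p => (p, t) := by
  rw [List.map_map, List.map_map]
  rfl

theorem wpr_g1_cnt0 (r : List (β × Bool)) (t : Fin 4) :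
    (r.map fun p => ((p.1, t), p.2)).countP (fun p => p.2) = r.countP (fun p => p.2) := by
  rw [List.countP_map]
  rfl

theorem wpr_g1_unm0 (r : List (β × Bool)) :
    ∀ q ∈ (r.map fun p => ((p.1, (0 : Fin 4)), p.2)), q.2 = false →
      q.1.2 = 0 ∧ (q.1.1, false) ∈ r := by
  intro q hq h
  rw [List.mem_map] at hq
  obtain ⟨p, hp, rfl⟩ := hq
  refine ⟨rfl, ?_⟩
  have h' : p.2 = false := h
  have : p = (p.1, false) := by rw [← h']
  show (p.1, false) ∈ r
  rw [← this]
  exact hp

theorem wpr_g1_cz (r : List (β × Bool)) (h : ∀ p ∈ r, p.2 = false) :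
    r.countP (fun p => p.2) = 0 := by
  rw [List.countP_eq_zero]
  intro p hp
  simp [h p hp]

/-- signed length of a run -/
def wpr_g1_ex (s : Bool) (k : ℕ) : ℤ := if s then (k : ℤ) else -(k : ℤ)

theorem wpr_g1_pow (i : Fin n) (s : Bool) (k : ℕ) :
    lt ((i, s) : Ltr n) ^ k = FreeGroup.of i ^ wpr_g1_ex s k := by
  cases s
  · rw [lt_false]
    simp [wpr_g1_ex]
  · rw [lt_true]
    simp [wpr_g1_ex]

theorem wpr_g1_val (lab : β → Ltr n) (i j : Fin n) (hij : i ≠ j) (pb : β × Bool)
    (r : List (β × Bool)) (c : β × Bool) (nr : List ((β × Fin 4) × Bool)) (s s' e' e : Bool)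
    (he' : lab pb.1 = (j, e')) (he : lab c.1 = (j, e)) (hr : ∀ p ∈ r, lab p.1 = (i, s))
    (hnr : ∀ q ∈ nr, labG lab (i, false) q.1 = (i, s'))
    (hlen : wpr_g1_ex s' nr.length =
      wpr_g1_ex s r.length - (if e then 1 else 0) + (if e' then 0 else 1)) :
    wpr_g1_ka i (lab pb.1) *
      tau (Aal i j) (i, false) (FreeGroup.mk (r.map fun p => lab p.1)) *
        tau (Aal i j) (i, false) (lt (lab c.1)) =
      FreeGroup.mk (nr.map fun q => labG lab (i, false) q.1) * lt (lab c.1) *
        wpr_g1_ka i (lab c.1) := by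
  have h1 : tau (Aal i j) (i, false) (FreeGroup.mk (r.map fun p => lab p.1)) =
      FreeGroup.of i ^ wpr_g1_ex s r.length := by
    rw [wpr_g1_tau_run i j s, wpr_g1_pow, List.length_map]
    intro y hy
    rw [List.mem_map] at hy
    obtain ⟨p, hp, rfl⟩ := hy
    exact hr p hp
  have h2 : FreeGroup.mk (nr.map fun q => labG lab (i, false) q.1) =
      FreeGroup.of i ^ wpr_g1_ex s' nr.length := by
    rw [wpr_g1_mkconst (i, s'), wpr_g1_pow, List.length_map]
    intro y hy
    rw [List.mem_map] at hy
    obtain ⟨p, hp, rfl⟩ := hy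
    exact hnr p hp
  rw [h1, h2, he', he, hlen]
  generalize wpr_g1_ex s r.length = N
  cases e' <;> cases e
  · rw [wpr_g1_tau_bb i j hij]
    simp only [wpr_g1_ka, Bool.false_eq_true, if_false]
    group
  · rw [wpr_g1_tau_b i j hij]
    simp only [wpr_g1_ka, Bool.false_eq_true, if_false, if_true]
    group
  · rw [wpr_g1_tau_bb i j hij]
    simp only [wpr_g1_ka, Bool.false_eq_true, if_false, if_true]
    group
  · rw [wpr_g1_tau_b i j hij]
    simp only [wpr_g1_ka, if_true]
    group

/-- one block -/
theorem wpr_g1_block (lab : β → Ltr n) (i j : Fin n) (hij : i ≠ j) (pb : β × Bool)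
    (r : List (β × Bool)) (c : β × Bool) (s : Bool) (hpb : (lab pb.1).1 = j)
    (hc : (lab c.1).1 = j) (hr : ∀ p ∈ r, lab p.1 = (i, s))
    (hred : r = [] → lab c.1 = lab pb.1)
    (h1 : r ≠ [] → s = true → lab c.1 = (j, true) → c.2 = false)
    (h4 : r ≠ [] → s = false → lab pb.1 = (j, false) → pb.2 = false)
    (h2 : s = true → lab pb.1 = (j, true) → ∀ p ∈ r, p.2 = false)
    (h3 : s = false → lab c.1 = (j, false) → ∀ p ∈ r, p.2 = false) :
    ∃ (nr : List ((β × Fin 4) × Bool)) (s' : Bool), wpr_g1_Blk lab i j pb r c nr s' := by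
  obtain ⟨e', he'⟩ : ∃ e', lab pb.1 = (j, e') := ⟨(lab pb.1).2, by rw [← hpb]⟩
  obtain ⟨e, he⟩ : ∃ e, lab c.1 = (j, e) := ⟨(lab c.1).2, by rw [← hc]⟩
  have n01 : (0 : Fin 4) ≠ 1 := by decide
  have n21 : (2 : Fin 4) ≠ 1 := by decide
  have n31 : (3 : Fin 4) ≠ 1 := by decide
  cases e' <;> cases e
  · -- (-,-)
    rcases r with _ | ⟨v, r⟩
    · have lb : ∀ q ∈ [((c.1, (3 : Fin 4)), true)], labG lab (i, false) q.1 = (i, true) := by
        intro q hq
        rw [List.mem_singleton] at hq
        subst hq
        exact wpr_g1_lab3 lab _ c.1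
      refine ⟨[((c.1, 3), true)], true, ⟨lb, ?_, ?_, ?_, ?_, ?_, ?_, ?_, ?_, ?_⟩⟩
      · simp
      · rw [he]; simp
      · simp
      · rw [he']; simp
      · simp
      · simp
      · simp
      · exact wpr_g1_val lab i j hij pb [] c _ true true false false he' he (by simp) lb (by
          simp [wpr_g1_ex])
      · intro R hR
        simp only [List.map_nil, List.nil_append, List.isChain_cons_cons] at hR
        simp only [List.map_cons, List.map_nil, List.cons_append, List.nil_append,
          List.isChain_cons_cons, List.isChain_singleton, and_true]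
        refine ⟨⟨fun h => absurd h n01, fun h => absurd h n31, ?_⟩,
          ⟨fun h => absurd h n31, fun h => absurd h n01, ?_⟩⟩
        · rw [wpr_g1_en_j lab i j hij _ _ he', wpr_g1_st3]
          exact wpr_g1_eR lab _ R _ _ _ hR.1
        · rw [wpr_g1_en3, wpr_g1_st_j lab i j hij _ _ he]
          exact Relation.EqvGen.refl _
    · cases s
      · -- drop the first letter
        have hr' : ∀ p ∈ r, lab p.1 = (i, false) := fun p hp => hr p (List.mem_cons_of_mem _ hp)
        have lb : ∀ q ∈ (r.map fun p => ((p.1, (0 : Fin 4)), p.2)),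
            labG lab (i, false) q.1 = (i, false) := by
          intro q hq
          rw [List.mem_map] at hq
          obtain ⟨p, hp, rfl⟩ := hq
          rw [wpr_g1_lab0]
          exact hr' p hp
        have hz := h3 rfl he
        refine ⟨r.map fun p => ((p.1, 0), p.2), false, ⟨lb, ?_, ?_, ?_, ?_, ?_, ?_, ?_, ?_, ?_⟩⟩
        · intro _; rw [he, he']
        · rw [he]; simp
        · intro h _; exact h4 (by simp) rfl h
        · rw [he']; simp
        · intro _ _ q hq
          rw [List.mem_map] at hq
          obtain ⟨p, hp, rfl⟩ := hq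
          exact hz p (List.mem_cons_of_mem _ hp)
        · rw [wpr_g1_cz _ hz]; exact Nat.zero_le _
        · intro q hq h
          obtain ⟨h', h''⟩ := wpr_g1_unm0 r q hq h
          exact ⟨h', List.mem_cons_of_mem _ h''⟩
        · exact wpr_g1_val lab i j hij pb _ c _ false false false false he' he hr lb (by
            simp [wpr_g1_ex])
        · intro R hR
          rw [List.map_cons, List.cons_append, List.isChain_cons_cons, ← List.cons_append,
            List.isChain_append] at hR
          obtain ⟨hR1, hR2, -, hR3⟩ := hR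
          rw [wpr_g1_map0f]
          have hv : lab v.1 = (i, false) := hr v List.mem_cons_self
          refine wpr_g1_run lab i j R 0 true [(c.1, 0)] (r.map Prod.fst) ?_ ?_ ?_ v.1
            (pb.1, 0) (fun h => absurd h n01) ?_ hR2 ?_
          · intro p hp
            rw [List.mem_map] at hp
            obtain ⟨p, hp, rfl⟩ := hp
            exact wpr_g1_st_i lab i j _ _ (hr' p hp)
          · intro p hp
            rw [List.mem_map] at hp
            obtain ⟨p, hp, rfl⟩ := hp
            exact wpr_g1_en_i lab i j _ _ (hr' p hp)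
          · intro p hp
            rw [List.mem_map] at hp
            obtain ⟨p, hp, rfl⟩ := hp
            rw [hr' p hp]
          · rw [wpr_g1_en_j lab i j hij _ _ he']
            exact (wpr_g1_eR lab _ R _ _ _ hR1).trans _ _ _ (wpr_g1_eX lab _ R v.1 hv)
          · intro P' w hP' hw hE
            rw [List.isChain_cons_cons]
            refine ⟨⟨hP', fun h => absurd h n01, ?_⟩, List.isChain_singleton _⟩
            rw [wpr_g1_st_j lab i j hij _ _ he]
            exact hE.trans _ _ _ (wpr_g1_eR lab _ R _ _ _ (hR3 w hw c.1 rfl))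
      · -- prepend
        have lb : ∀ q ∈ ((v.1, (3 : Fin 4)), true) ::
            ((v :: r).map fun p => ((p.1, (0 : Fin 4)), p.2)),
            labG lab (i, false) q.1 = (i, true) := by
          intro q hq
          rw [List.mem_cons] at hq
          rcases hq with rfl | hq
          · exact wpr_g1_lab3 lab _ v.1
          · rw [List.mem_map] at hq
            obtain ⟨p, hp, rfl⟩ := hq
            rw [wpr_g1_lab0]
            exact hr p hp
        refine ⟨((v.1, 3), true) :: ((v :: r).map fun p => ((p.1, 0), p.2)), true,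
          ⟨lb, ?_, ?_, ?_, ?_, ?_, ?_, ?_, ?_, ?_⟩⟩
        · simp
        · rw [he]; simp
        · simp
        · rw [he']; simp
        · simp
        · rw [← wpr_g1_cnt0 (v :: r) 0]
          exact (List.sublist_cons_self _ _).countP_le
        · intro q hq h
          rw [List.mem_cons] at hq
          rcases hq with rfl | hq
          · simp at h
          · exact wpr_g1_unm0 _ q hq h
        · exact wpr_g1_val lab i j hij pb _ c _ true true false false he' he hr lb (by
            simp [wpr_g1_ex])
        · intro R hR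
          rw [List.map_cons, List.cons_append, List.isChain_cons_cons, ← List.cons_append,
            List.isChain_append] at hR
          obtain ⟨hR1, hR2, -, hR3⟩ := hR
          have hv : lab v.1 = (i, true) := hr v List.mem_cons_self
          rw [List.map_cons, wpr_g1_map0f, List.map_cons, List.map_cons, List.cons_append,
            List.cons_append, List.isChain_cons_cons, List.isChain_cons_cons]
          refine ⟨⟨fun h => absurd h n01, fun h => absurd h n31, ?_⟩,
            ⟨fun h => absurd h n31, fun h => absurd h n01, ?_⟩, ?_⟩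
          · rw [wpr_g1_en_j lab i j hij _ _ he', wpr_g1_st3]
            exact wpr_g1_eR lab _ R _ _ _ hR1
          · rw [wpr_g1_en3, wpr_g1_st_i lab i j _ _ hv]
            exact Relation.EqvGen.refl _
          · refine wpr_g1_run lab i j R 0 true [(c.1, 0)] (r.map Prod.fst) ?_ ?_ ?_ v.1
              (v.1, 0) (fun h => absurd h n01) ?_ hR2 ?_
            · intro p hp
              rw [List.mem_map] at hp
              obtain ⟨p, hp, rfl⟩ := hp
              exact wpr_g1_st_i lab i j _ _ (hr p (List.mem_cons_of_mem _ hp))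
            · intro p hp
              rw [List.mem_map] at hp
              obtain ⟨p, hp, rfl⟩ := hp
              exact wpr_g1_en_i lab i j _ _ (hr p (List.mem_cons_of_mem _ hp))
            · intro p hp
              rw [List.mem_map] at hp
              obtain ⟨p, hp, rfl⟩ := hp
              rw [hr p (List.mem_cons_of_mem _ hp)]
            · rw [wpr_g1_en_i lab i j _ _ hv]
              exact Relation.EqvGen.refl _
            · intro P' w hP' hw hE
              rw [List.isChain_cons_cons]
              refine ⟨⟨hP', fun h => absurd h n01, ?_⟩, List.isChain_singleton _⟩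
              rw [wpr_g1_st_j lab i j hij _ _ he]
              exact hE.trans _ _ _ (wpr_g1_eR lab _ R _ _ _ (hR3 w hw c.1 rfl))
  · -- (-,+)
    have hne : r ≠ [] := by
      intro h
      have := hred h
      rw [he, he'] at this
      simp at this
    have lb : ∀ q ∈ (r.map fun p => ((p.1, (1 : Fin 4)), true)),
        labG lab (i, false) q.1 = (i, s) := by
      intro q hq
      rw [List.mem_map] at hq
      obtain ⟨p, hp, rfl⟩ := hq
      rw [wpr_g1_lab1]
      exact hr p hp
    have hmf : (r.map fun p => ((p.1, (1 : Fin 4)), true)).map Prod.fst =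
        (r.map Prod.fst).map fun p => (p, 1) := by
      rw [List.map_map, List.map_map]; rfl
    refine ⟨r.map fun p => ((p.1, 1), true), s, ⟨lb, ?_, ?_, ?_, ?_, ?_, ?_, ?_, ?_, ?_⟩⟩
    · intro h; exact absurd (List.map_eq_nil_iff.1 h) hne
    · intro h hs
      rcases hs with hs | hs
      · exact absurd (List.map_eq_nil_iff.1 hs) hne
      · exact h1 hne hs h
    · intro h hs
      rcases hs with hs | hs
      · exact absurd (List.map_eq_nil_iff.1 hs) hne
      · exact h4 hne hs h
    · rw [he']; simp
    · rw [he]; simp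
    · rw [List.countP_map]
      refine le_trans List.countP_le_length ?_
      rw [List.countP_eq_length.2]
      intro a _
      rfl
    · intro q hq h
      rw [List.mem_map] at hq
      obtain ⟨p, hp, rfl⟩ := hq
      simp at h
    · exact wpr_g1_val lab i j hij pb _ c _ s s false true he' he hr lb (by
        simp)
    · intro R hR
      rw [← List.cons_append, List.isChain_append] at hR
      obtain ⟨hR2, -, hR3⟩ := hR
      rw [hmf]
      refine wpr_g1_run lab i j R 1 false [(c.1, 0)] (r.map Prod.fst) ?_ ?_ ?_ pb.1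
        (pb.1, 0) (fun h => absurd h n01) ?_ hR2 ?_
      · intro p _
        exact wpr_g1_st1 lab i j p
      · intro p _
        exact wpr_g1_en1 lab i j p
      · intro p hp
        rw [List.mem_map] at hp
        obtain ⟨p, hp, rfl⟩ := hp
        rw [hr p hp]
      · rw [wpr_g1_en_j lab i j hij _ _ he']
        exact Relation.EqvGen.refl _
      · intro P' w hP' hw hE
        rw [List.isChain_cons_cons]
        refine ⟨⟨hP', fun h => absurd h n01, ?_⟩, List.isChain_singleton _⟩
        rw [wpr_g1_st_j lab i j hij _ _ he]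
        exact hE.trans _ _ _ (wpr_g1_eR lab _ R _ _ _ (hR3 w hw c.1 rfl))
  · -- (+,-)
    have hne : r ≠ [] := by
      intro h
      have := hred h
      rw [he, he'] at this
      simp at this
    have lb : ∀ q ∈ (r.map fun p => ((p.1, (0 : Fin 4)), p.2)),
        labG lab (i, false) q.1 = (i, s) := by
      intro q hq
      rw [List.mem_map] at hq
      obtain ⟨p, hp, rfl⟩ := hq
      rw [wpr_g1_lab0]
      exact hr p hp
    refine ⟨r.map fun p => ((p.1, 0), p.2), s, ⟨lb, ?_, ?_, ?_, ?_, ?_, ?_, ?_, ?_, ?_⟩⟩
    · intro h; exact absurd (List.map_eq_nil_iff.1 h) hne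
    · rw [he]; simp
    · rw [he']; simp
    · intro h hs q hq
      rw [List.mem_map] at hq
      obtain ⟨p, hp, rfl⟩ := hq
      exact h2 hs h p hp
    · intro h hs q hq
      rw [List.mem_map] at hq
      obtain ⟨p, hp, rfl⟩ := hq
      exact h3 hs h p hp
    · rw [wpr_g1_cnt0]
    · exact wpr_g1_unm0 r
    · exact wpr_g1_val lab i j hij pb _ c _ s s true false he' he hr lb (by
        simp)
    · intro R hR
      rw [← List.cons_append, List.isChain_append] at hR
      obtain ⟨hR2, -, hR3⟩ := hR
      rw [wpr_g1_map0f]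
      refine wpr_g1_run lab i j R 0 true [(c.1, 0)] (r.map Prod.fst) ?_ ?_ ?_ pb.1
        (pb.1, 0) (fun h => absurd h n01) ?_ hR2 ?_
      · intro p hp
        rw [List.mem_map] at hp
        obtain ⟨p, hp, rfl⟩ := hp
        exact wpr_g1_st_i lab i j _ _ (hr p hp)
      · intro p hp
        rw [List.mem_map] at hp
        obtain ⟨p, hp, rfl⟩ := hp
        exact wpr_g1_en_i lab i j _ _ (hr p hp)
      · intro p hp
        rw [List.mem_map] at hp
        obtain ⟨p, hp, rfl⟩ := hp
        rw [hr p hp]
      · rw [wpr_g1_en_j lab i j hij _ _ he']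
        exact Relation.EqvGen.refl _
      · intro P' w hP' hw hE
        rw [List.isChain_cons_cons]
        refine ⟨⟨hP', fun h => absurd h n01, ?_⟩, List.isChain_singleton _⟩
        rw [wpr_g1_st_j lab i j hij _ _ he]
        exact hE.trans _ _ _ (wpr_g1_eR lab _ R _ _ _ (hR3 w hw c.1 rfl))
  · -- (+,+)
    rcases List.eq_nil_or_concat r with rfl | ⟨r, v, hrv⟩
    · have lb : ∀ q ∈ [((pb.1, (2 : Fin 4)), true)], labG lab (i, false) q.1 = (i, false) := by
        intro q hq
        rw [List.mem_singleton] at hq
        subst hq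
        exact wpr_g1_lab2 lab _ pb.1
      refine ⟨[((pb.1, 2), true)], false, ⟨lb, ?_, ?_, ?_, ?_, ?_, ?_, ?_, ?_, ?_⟩⟩
      · simp
      · simp
      · rw [he']; simp
      · simp
      · rw [he]; simp
      · simp
      · simp
      · exact wpr_g1_val lab i j hij pb [] c _ true false true true he' he (by simp) lb (by
          simp [wpr_g1_ex])
      · intro R hR
        simp only [List.map_nil, List.nil_append, List.isChain_cons_cons] at hR
        simp only [List.map_cons, List.map_nil, List.cons_append, List.nil_append,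
          List.isChain_cons_cons, List.isChain_singleton, and_true]
        refine ⟨⟨fun h => absurd h n01, fun h => absurd h n21, ?_⟩,
          ⟨fun h => absurd h n21, fun h => absurd h n01, ?_⟩⟩
        · rw [wpr_g1_en_j lab i j hij _ _ he', wpr_g1_st2]
          exact Relation.EqvGen.refl _
        · rw [wpr_g1_en2, wpr_g1_st_j lab i j hij _ _ he]
          exact wpr_g1_eR lab _ R _ _ _ hR.1
    · rw [List.concat_eq_append] at hrv
      subst hrv
      have hv : lab v.1 = (i, s) := hr v (by simp)
      have hr' : ∀ p ∈ r, lab p.1 = (i, s) := fun p hp => hr p (by simp [hp])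
      cases s
      · -- append
        have lb : ∀ q ∈ ((r ++ [v]).map fun p => ((p.1, (0 : Fin 4)), p.2)) ++
            [((v.1, (2 : Fin 4)), true)], labG lab (i, false) q.1 = (i, false) := by
          intro q hq
          rw [List.mem_append] at hq
          rcases hq with hq | hq
          · rw [List.mem_map] at hq
            obtain ⟨p, hp, rfl⟩ := hq
            rw [wpr_g1_lab0]
            exact hr p hp
          · rw [List.mem_singleton] at hq
            subst hq
            exact wpr_g1_lab2 lab _ v.1
        refine ⟨((r ++ [v]).map fun p => ((p.1, 0), p.2)) ++ [((v.1, 2), true)], false,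
          ⟨lb, ?_, ?_, ?_, ?_, ?_, ?_, ?_, ?_, ?_⟩⟩
        · simp
        · simp
        · rw [he']; simp
        · simp
        · rw [he]; simp
        · rw [← wpr_g1_cnt0 (r ++ [v]) 0]
          exact (List.sublist_append_left _ _).countP_le
        · intro q hq h
          rw [List.mem_append] at hq
          rcases hq with hq | hq
          · exact wpr_g1_unm0 _ q hq h
          · rw [List.mem_singleton] at hq
            subst hq
            simp at h
        · exact wpr_g1_val lab i j hij pb _ c _ false false true true he' he hr lb (by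
            simp [wpr_g1_ex]; ring)
        · intro R hR
          rw [← List.cons_append, List.isChain_append] at hR
          obtain ⟨hR2, -, hR3⟩ := hR
          have hlast : (pb.1 :: (r ++ [v]).map Prod.fst).getLast? = some v.1 := by
            rw [List.map_append, ← List.cons_append]
            exact List.getLast?_concat
          rw [List.map_append, wpr_g1_map0f, List.append_assoc]
          refine wpr_g1_run lab i j R 0 true _ ((r ++ [v]).map Prod.fst) ?_ ?_ ?_ pb.1
            (pb.1, 0) (fun h => absurd h n01) ?_ hR2 ?_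
          · intro p hp
            rw [List.mem_map] at hp
            obtain ⟨p, hp, rfl⟩ := hp
            exact wpr_g1_st_i lab i j _ _ (hr p hp)
          · intro p hp
            rw [List.mem_map] at hp
            obtain ⟨p, hp, rfl⟩ := hp
            exact wpr_g1_en_i lab i j _ _ (hr p hp)
          · intro p hp
            rw [List.mem_map] at hp
            obtain ⟨p, hp, rfl⟩ := hp
            rw [hr p hp]
          · rw [wpr_g1_en_j lab i j hij _ _ he']
            exact Relation.EqvGen.refl _
          · intro P' w hP' hw hE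
            rw [hlast, Option.some.injEq] at hw
            subst hw
            simp only [List.map_cons, List.map_nil, List.cons_append, List.nil_append,
              List.isChain_cons_cons, List.isChain_singleton, and_true]
            refine ⟨⟨hP', fun h => absurd h n21, ?_⟩,
              ⟨fun h => absurd h n21, fun h => absurd h n01, ?_⟩⟩
            · rw [wpr_g1_st2]
              exact hE
            · rw [wpr_g1_en2, wpr_g1_st_j lab i j hij _ _ he]
              exact wpr_g1_eR lab _ R _ _ _ (hR3 v.1 hlast c.1 rfl)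
      · -- drop the last letter
        have lb : ∀ q ∈ (r.map fun p => ((p.1, (0 : Fin 4)), p.2)),
            labG lab (i, false) q.1 = (i, true) := by
          intro q hq
          rw [List.mem_map] at hq
          obtain ⟨p, hp, rfl⟩ := hq
          rw [wpr_g1_lab0]
          exact hr' p hp
        have hz := h2 rfl he'
        refine ⟨r.map fun p => ((p.1, 0), p.2), true, ⟨lb, ?_, ?_, ?_, ?_, ?_, ?_, ?_, ?_, ?_⟩⟩
        · intro _; rw [he, he']
        · intro h _; exact h1 (by simp) rfl h
        · rw [he']; simp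
        · intro _ _ q hq
          rw [List.mem_map] at hq
          obtain ⟨p, hp, rfl⟩ := hq
          exact hz p (by simp [hp])
        · rw [he]; simp
        · rw [wpr_g1_cz _ hz]; exact Nat.zero_le _
        · intro q hq h
          obtain ⟨h', h''⟩ := wpr_g1_unm0 r q hq h
          exact ⟨h', by simp [h'']⟩
        · exact wpr_g1_val lab i j hij pb _ c _ true true true true he' he hr lb (by
            simp [wpr_g1_ex])
        · intro R hR
          rw [List.map_append, List.map_cons, List.map_nil, List.append_assoc,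
            ← List.cons_append, List.isChain_append] at hR
          obtain ⟨hR1, hR2, hR3⟩ := hR
          simp only [List.cons_append, List.nil_append, List.isChain_cons_cons,
            List.isChain_singleton, and_true] at hR2
          rw [wpr_g1_map0f]
          refine wpr_g1_run lab i j R 0 true [(c.1, 0)] (r.map Prod.fst) ?_ ?_ ?_ pb.1
            (pb.1, 0) (fun h => absurd h n01) ?_ hR1 ?_
          · intro p hp
            rw [List.mem_map] at hp
            obtain ⟨p, hp, rfl⟩ := hp
            exact wpr_g1_st_i lab i j _ _ (hr' p hp)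
          · intro p hp
            rw [List.mem_map] at hp
            obtain ⟨p, hp, rfl⟩ := hp
            exact wpr_g1_en_i lab i j _ _ (hr' p hp)
          · intro p hp
            rw [List.mem_map] at hp
            obtain ⟨p, hp, rfl⟩ := hp
            rw [hr' p hp]
          · rw [wpr_g1_en_j lab i j hij _ _ he']
            exact Relation.EqvGen.refl _
          · intro P' w hP' hw hE
            rw [List.isChain_cons_cons]
            refine ⟨⟨hP', fun h => absurd h n01, ?_⟩, List.isChain_singleton _⟩
            rw [wpr_g1_st_j lab i j hij _ _ he]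
            refine hE.trans _ _ _ ((wpr_g1_eR lab _ R _ _ _ (hR3 w hw v.1 (by simp))).trans _ _ _
              ((wpr_g1_eA lab (i, false) R v.1 hv).trans _ _ _ (wpr_g1_eR lab _ R _ _ _ hR2)))

end WprG1Block

section WprG1Glue

variable {n : ℕ} {β : Type}

/-- marked new positions together with the signs of the previous and of the next `b`-letter -/
abbrev wpr_g1_EE (β : Type) := ((β × Fin 4) × Bool) × (Bool × Bool)

def wpr_g1_en (p : β × Bool) : wpr_g1_EE β := (((p.1, 0), p.2), (true, true))

/-- the letter -/
def wpr_g1_L (lab : β → Ltr n) (i : Fin n) (u : wpr_g1_EE β) : Ltr n :=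
  labG lab (i, false) u.1.1

structure wpr_g1_S (lab : β → Ltr n) (i j : Fin n) (u v : wpr_g1_EE β) : Prop where
  red : wpr_g1_L lab i v ≠ bar (wpr_g1_L lab i u)
  f1 : wpr_g1_L lab i v = (j, true) →
    (wpr_g1_L lab i u = (i, true) ∨ wpr_g1_L lab i u = (j, true)) → v.1.2 = false
  f4 : wpr_g1_L lab i u = (j, false) →
    (wpr_g1_L lab i v = (i, false) ∨ wpr_g1_L lab i v = (j, false)) → u.1.2 = false
  g1 : wpr_g1_L lab i u = (j, true) → wpr_g1_L lab i v = (i, true) → v.2.1 = true
  g2 : wpr_g1_L lab i u = (i, true) → wpr_g1_L lab i v = (i, true) → v.2.1 = u.2.1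
  g3 : wpr_g1_L lab i u = (i, false) → wpr_g1_L lab i v = (i, false) → u.2.2 = v.2.2
  g4 : wpr_g1_L lab i u = (i, false) → wpr_g1_L lab i v = (j, false) → u.2.2 = false

def wpr_g1_U (lab : β → Ltr n) (i : Fin n) (e : wpr_g1_EE β) : Prop :=
  (wpr_g1_L lab i e = (i, true) → e.2.1 = true → e.1.2 = false) ∧
    (wpr_g1_L lab i e = (i, false) → e.2.2 = false → e.1.2 = false)

theorem wpr_g1_L_en (lab : β → Ltr n) (i : Fin n) (p : β × Bool) :
    wpr_g1_L lab i (wpr_g1_en p) = lab p.1 := wpr_g1_lab0 lab _ p.1

theorem wpr_g1_chA (lab : β → Ltr n) (i j : Fin n) (hij : i ≠ j) (c : β × Bool)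
    (s' e' e : Bool) (he : lab c.1 = (j, e))
    (hf1 : e = true → s' = true → c.2 = false) :
    ∀ (m : List (wpr_g1_EE β)) (_ : ∀ q ∈ m, wpr_g1_L lab i q = (i, s') ∧ q.2 = (e', e))
      (u : wpr_g1_EE β) (_ : wpr_g1_L lab i u = (i, s')) (_ : u.2 = (e', e)),
      List.IsChain (wpr_g1_S lab i j) (u :: (m ++ [wpr_g1_en c])) := by
  intro m
  induction m with
  | nil =>
    intro _ u hu hu2
    rw [List.nil_append, List.isChain_cons_cons]
    refine ⟨?_, List.isChain_singleton _⟩
    constructor
    · rw [wpr_g1_L_en, hu, he]; simp [bar, hij.symm]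
    · rw [wpr_g1_L_en, hu, he]
      intro h1 h2
      rcases h2 with h2 | h2
      · exact hf1 (by simpa using h1) (by simpa using h2)
      · simp [hij] at h2
    · rw [hu]; simp [hij]
    · rw [hu]; simp [hij]
    · rw [wpr_g1_L_en, hu, he]; simp [hij.symm]
    · rw [wpr_g1_L_en, hu, he]; simp [hij.symm]
    · rw [wpr_g1_L_en, hu, he, hu2]
      intro _ h
      simpa using h
  | cons v m ih =>
    intro hm u hu hu2
    obtain ⟨hv, hv2⟩ := hm v List.mem_cons_self
    rw [List.cons_append, List.isChain_cons_cons]
    refine ⟨?_, ih (fun q hq => hm q (List.mem_cons_of_mem _ hq)) v hv hv2⟩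
    constructor
    · rw [hu, hv]; simp [bar]
    · rw [hu, hv]; simp [hij]
    · rw [hu, hv]; simp [hij]
    · rw [hu, hv]; simp [hij]
    · intro _ _; rw [hu2, hv2]
    · intro _ _; rw [hu2, hv2]
    · rw [hu, hv]; simp [hij]

/-- the chain of a block -/
theorem wpr_g1_chB (lab : β → Ltr n) (i j : Fin n) (hij : i ≠ j) (pb c : β × Bool)
    (r : List (β × Bool)) (nr : List ((β × Fin 4) × Bool)) (s' e' e : Bool)
    (he' : lab pb.1 = (j, e')) (he : lab c.1 = (j, e)) (hb : wpr_g1_Blk lab i j pb r c nr s') :
    List.IsChain (wpr_g1_S lab i j)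
      (wpr_g1_en pb :: ((nr.map fun q => (q, (e', e))) ++ [wpr_g1_en c])) := by
  have hm : ∀ q ∈ (nr.map fun q => (q, (e', e))),
      wpr_g1_L lab i q = (i, s') ∧ q.2 = (e', e) := by
    intro q hq
    rw [List.mem_map] at hq
    obtain ⟨p, hp, rfl⟩ := hq
    exact ⟨hb.lb p hp, rfl⟩
  rcases nr with _ | ⟨v, nr⟩
  · rw [List.map_nil, List.nil_append, List.isChain_cons_cons]
    refine ⟨?_, List.isChain_singleton _⟩
    have hn := hb.nil rfl
    constructor
    · rw [wpr_g1_L_en, wpr_g1_L_en, hn]; exact (rowB_bar_ne _).symm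
    · intro h _
      rw [wpr_g1_L_en] at h
      exact hb.f1 h (Or.inl rfl)
    · intro h _
      rw [wpr_g1_L_en] at h
      exact hb.f4 h (Or.inl rfl)
    · rw [wpr_g1_L_en, wpr_g1_L_en, he, he']; simp [hij.symm]
    · rw [wpr_g1_L_en, wpr_g1_L_en, he, he']; simp [hij.symm]
    · rw [wpr_g1_L_en, wpr_g1_L_en, he, he']; simp [hij.symm]
    · rw [wpr_g1_L_en, wpr_g1_L_en, he, he']; simp [hij.symm]
  · rw [List.map_cons] at hm ⊢
    obtain ⟨hv, hv2⟩ := hm _ List.mem_cons_self
    rw [List.cons_append, List.isChain_cons_cons]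
    refine ⟨?_, wpr_g1_chA lab i j hij c s' e' e he
      (fun h h' => hb.f1 (by rw [he, h]) (Or.inr h')) _
      (fun q hq => hm q (List.mem_cons_of_mem _ hq)) _ hv hv2⟩
    constructor
    · rw [wpr_g1_L_en, hv, he']; simp [bar, hij]
    · rw [hv]; simp [hij]
    · rw [wpr_g1_L_en, hv]
      intro h h'
      rcases h' with h' | h'
      · exact hb.f4 h (Or.inr (by simpa using h'))
      · simp [hij] at h'
    · rw [wpr_g1_L_en, he']
      intro h _
      simpa using h
    · rw [wpr_g1_L_en, he']; simp [hij.symm]
    · rw [wpr_g1_L_en, he']; simp [hij.symm]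
    · rw [wpr_g1_L_en, he']; simp [hij.symm]

/-- the properties of the image `E` of the list `l` which follows the `b`-letter `pb` -/
structure wpr_g1_G (lab : β → Ltr n) (i j : Fin n) (pb : β × Bool) (l : List (β × Bool))
    (E : List (wpr_g1_EE β)) : Prop where
  mvg : ∀ R : β → β → Prop, List.IsChain R (pb.1 :: l.map Prod.fst) →
    List.IsChain (mvG lab (Aal i j) (i, false) R)
      ((pb.1, (0 : Fin 4)) :: E.map fun e => e.1.1)
  ch : List.IsChain (wpr_g1_S lab i j) (wpr_g1_en pb :: E)
  una : ∀ e ∈ E, wpr_g1_U lab i e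
  last : ∀ z, (pb :: l).getLast? = some z →
    (wpr_g1_en pb :: E).getLast? = some (wpr_g1_en z)
  ne : l ≠ [] → E ≠ []
  lets : ∀ e ∈ E, (wpr_g1_L lab i e).1 = i ∨ (wpr_g1_L lab i e).1 = j
  cnt : l.countP (fun p => p.2) ≤ E.countP (fun e => e.1.2)
  unm : ∀ e ∈ E, e.1.2 = false → e.1.1.2 = 0 ∧ (e.1.1.1, false) ∈ l
  val : ∀ z, (pb :: l).getLast? = some z → wpr_g1_ka i (lab pb.1) *
      tau (Aal i j) (i, false) (FreeGroup.mk (l.map fun p => lab p.1)) =
    FreeGroup.mk (E.map fun e => wpr_g1_L lab i e) * wpr_g1_ka i (lab z.1)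

/-- the conditions on the list -/
structure wpr_g1_H (lab : β → Ltr n) (i j : Fin n) (l : List (β × Bool)) : Prop where
  red : List.IsChain (fun u v : β × Bool => lab v.1 ≠ bar (lab u.1)) l
  k1 : List.IsChain (fun u v : β × Bool =>
    (lab u.1 = (i, true) → lab v.1 = (j, true) → v.2 = false) ∧
      (lab u.1 = (j, false) → lab v.1 = (i, false) → u.2 = false)) l
  h2 : ∀ l₁ u r v l₂, l = l₁ ++ u :: (r ++ v :: l₂) → lab u.1 = (j, true) →
    (∀ p ∈ r, lab p.1 = (i, true)) → lab v.1 = (i, true) → v.2 = false
  h3 : ∀ l₁ v r u l₂, l = l₁ ++ v :: (r ++ u :: l₂) → lab v.1 = (i, false) →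
    (∀ p ∈ r, lab p.1 = (i, false)) → lab u.1 = (j, false) → v.2 = false

theorem wpr_g1_H_suf (lab : β → Ltr n) (i j : Fin n) (l l' : List (β × Bool))
    (h : wpr_g1_H lab i j (l ++ l')) : wpr_g1_H lab i j l' where
  red := (List.isChain_append.1 h.red).2.1
  k1 := (List.isChain_append.1 h.k1).2.1
  h2 := fun l₁ u r v l₂ e => h.h2 (l ++ l₁) u r v l₂ (by rw [e]; simp)
  h3 := fun l₁ v r u l₂ e => h.h3 (l ++ l₁) v r u l₂ (by rw [e]; simp)

theorem wpr_g1_const (lab : β → Ltr n) (i : Fin n) : ∀ (r : List (β × Bool))
    (_ : ∀ p ∈ r, (lab p.1).1 = i)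
    (_ : List.IsChain (fun u v : β × Bool => lab v.1 ≠ bar (lab u.1)) r),
    ∃ s, ∀ p ∈ r, lab p.1 = (i, s) := by
  intro r
  induction r with
  | nil => intro _ _; exact ⟨true, by simp⟩
  | cons v r ih =>
    intro hr hch
    rcases r with _ | ⟨w, r⟩
    · refine ⟨(lab v.1).2, ?_⟩
      intro p hp
      rw [List.mem_singleton] at hp
      subst hp
      rw [← hr p (by simp)]
    · rw [List.isChain_cons_cons] at hch
      obtain ⟨s, hs⟩ := ih (fun p hp => hr p (List.mem_cons_of_mem _ hp)) hch.2
      refine ⟨s, ?_⟩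
      intro p hp
      rw [List.mem_cons] at hp
      rcases hp with rfl | hp
      · have h1 := hr p List.mem_cons_self
        have h2 := hs w List.mem_cons_self
        have h3 := hch.1
        rw [h2] at h3
        obtain ⟨k, b⟩ : ∃ b, lab p.1 = (i, b) := ⟨(lab p.1).2, by rw [← h1]⟩
        rw [b] at h3 ⊢
        cases s <;> cases k <;> simp [bar] at h3 ⊢
      · exact hs p hp

theorem wpr_g1_split (lab : β → Ltr n) (j : Fin n) : ∀ l : List (β × Bool),
    (∃ p ∈ l, (lab p.1).1 = j) → ∃ r c l₁, l = r ++ c :: l₁ ∧ (∀ p ∈ r, (lab p.1).1 ≠ j) ∧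
      (lab c.1).1 = j := by
  intro l
  induction l with
  | nil => rintro ⟨p, hp, _⟩; simp at hp
  | cons v l ih =>
    intro h
    by_cases hv : (lab v.1).1 = j
    · exact ⟨[], v, l, rfl, by simp, hv⟩
    · obtain ⟨r, c, l₁, h1, h2, h3⟩ := ih (by
        obtain ⟨p, hp, hp'⟩ := h
        rw [List.mem_cons] at hp
        rcases hp with rfl | hp
        · exact absurd hp' hv
        · exact ⟨p, hp, hp'⟩)
      refine ⟨v :: r, c, l₁, by rw [h1]; rfl, ?_, h3⟩
      intro p hp
      rw [List.mem_cons] at hp
      rcases hp with rfl | hp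
      · exact hv
      · exact h2 p hp

/-- all blocks -/
theorem wpr_g1_main (lab : β → Ltr n) (i j : Fin n) (hij : i ≠ j) :
    ∀ (N : ℕ) (l : List (β × Bool)) (pb : β × Bool), l.length ≤ N → (lab pb.1).1 = j →
      wpr_g1_H lab i j (pb :: l) → (∀ p ∈ l, (lab p.1).1 = i ∨ (lab p.1).1 = j) →
      (∀ z ∈ l.getLast?, (lab z.1).1 = j) → ∃ E, wpr_g1_G lab i j pb l E := by
  intro N
  induction N with
  | zero =>
    intro l pb hl hpb hH hlet hend
    have : l = [] := List.length_eq_zero_iff.1 (Nat.le_zero.1 hl)
    subst this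
    refine ⟨[], ?_, ?_, ?_, ?_, ?_, ?_, ?_, ?_, ?_⟩
    · intro R _; exact List.isChain_singleton _
    · exact List.isChain_singleton _
    · simp
    · intro z hz
      rw [List.getLast?_singleton, Option.some.injEq] at hz
      subst hz
      rfl
    · simp
    · simp
    · simp
    · simp
    · intro z hz
      rw [List.getLast?_singleton, Option.some.injEq] at hz
      subst hz
      rw [List.map_nil, List.map_nil, ← FreeGroup.one_eq_mk, _root_.map_one]
      group
  | succ N ih =>
    intro l pb hl hpb hH hlet hend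
    by_cases hne : l = []
    · subst hne
      exact ih [] pb (Nat.zero_le _) hpb hH hlet hend
    have hex : ∃ p ∈ l, (lab p.1).1 = j := by
      obtain ⟨z, hz⟩ : ∃ z, l.getLast? = some z := ⟨l.getLast hne, List.getLast?_eq_getLast_of_ne_nil hne⟩
      exact ⟨z, List.mem_of_getLast? hz, hend z hz⟩
    obtain ⟨r, c, l₁, rfl, hr, hc⟩ := wpr_g1_split lab j l hex
    have hri : ∀ p ∈ r, (lab p.1).1 = i := by
      intro p hp
      rcases hlet p (by simp [hp]) with h | h
      · exact h
      · exact absurd h (hr p hp)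
    have hH1 : wpr_g1_H lab i j (c :: l₁) := by
      refine wpr_g1_H_suf lab i j (pb :: r) _ ?_
      simpa using hH
    have hred := hH.red
    rw [← List.cons_append, List.isChain_append] at hred
    obtain ⟨hred1, -, hred2⟩ := hred
    have hk := hH.k1
    rw [← List.cons_append, List.isChain_append] at hk
    obtain ⟨hk1, -, hk2⟩ := hk
    obtain ⟨s, hs⟩ := wpr_g1_const lab i r hri (by
      rw [List.isChain_cons] at hred1
      exact hred1.2)
    obtain ⟨e', he'⟩ : ∃ e', lab pb.1 = (j, e') := ⟨(lab pb.1).2, by rw [← hpb]⟩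
    obtain ⟨e, he⟩ : ∃ e, lab c.1 = (j, e) := ⟨(lab c.1).2, by rw [← hc]⟩
    obtain ⟨nr, s', hb⟩ := wpr_g1_block lab i j hij pb r c s hpb hc hs
      (by
        rintro rfl
        have := hred2 pb rfl c rfl
        rw [he, he'] at this ⊢
        cases e <;> cases e' <;> simp [bar] at this ⊢)
      (by
        intro h hst h'
        rcases List.eq_nil_or_concat r with rfl | ⟨r, v, hrv⟩
        · exact absurd rfl h
        rw [List.concat_eq_append] at hrv
        subst hrv
        refine (hk2 v ?_ c rfl).1 ?_ h'
        · rw [← List.cons_append]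
          exact List.getLast?_concat
        · rw [hs v (by simp), hst])
      (by
        intro h hst h'
        rcases r with _ | ⟨v, r⟩
        · exact absurd rfl h
        rw [List.isChain_cons_cons] at hk1
        exact hk1.1.2 h' (by rw [hs v List.mem_cons_self, hst]))
      (by
        intro hst h' p hp
        obtain ⟨r₁, r₂, rfl⟩ := List.append_of_mem hp
        refine hH.h2 [] pb r₁ p (r₂ ++ c :: l₁) (by simp) h' ?_ ?_
        · intro q hq
          rw [hs q (by simp [hq]), hst]
        · rw [hs p hp, hst])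
      (by
        intro hst h' p hp
        obtain ⟨r₁, r₂, rfl⟩ := List.append_of_mem hp
        refine hH.h3 (pb :: r₁) p r₂ c l₁ (by simp) ?_ ?_ h'
        · rw [hs p hp, hst]
        · intro q hq
          rw [hs q (by simp [hq]), hst])
    obtain ⟨E, hE⟩ := ih l₁ c (by
        simp only [List.length_append, List.length_cons] at hl; omega) hc hH1
      (fun p hp => hlet p (by simp [hp])) (by
        intro z hz
        rcases l₁ with _ | ⟨w, l₁⟩
        · simp at hz
        · refine hend z ?_
          rw [Option.mem_def] at hz ⊢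
          rw [List.getLast?_append, List.getLast?_cons_cons, hz]
          rfl)
    have hlast : ∀ z, (pb :: (r ++ c :: l₁)).getLast? = some z → (c :: l₁).getLast? = some z := by
      intro z hz
      rw [← List.cons_append, List.getLast?_append] at hz
      obtain ⟨y, hy⟩ : ∃ y, (c :: l₁).getLast? = some y :=
        ⟨_, List.getLast?_eq_getLast_of_ne_nil (List.cons_ne_nil _ _)⟩
      rw [hy] at hz ⊢
      exact hz
    refine ⟨(nr.map fun q => (q, (e', e))) ++ wpr_g1_en c :: E, ?_, ?_, ?_, ?_, ?_, ?_, ?_, ?_, ?_⟩
    · -- mvg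
      intro R hR
      rw [List.map_append, List.map_cons, ← List.cons_append, List.isChain_split] at hR
      rw [List.map_append, List.map_cons, ← List.cons_append, List.isChain_split]
      refine ⟨?_, hE.mvg R hR.2⟩
      have := hb.mvg R (by simpa using hR.1)
      rw [List.map_map]
      exact this
    · -- ch
      rw [← List.cons_append, List.isChain_split]
      exact ⟨wpr_g1_chB lab i j hij pb c r nr s' e' e he' he hb, hE.ch⟩
    · -- una
      intro q hq
      rw [List.mem_append, List.mem_cons] at hq
      rcases hq with hq | rfl | hq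
      · rw [List.mem_map] at hq
        obtain ⟨q, hq', rfl⟩ := hq
        have hl := hb.lb q hq'
        refine ⟨fun h1 h2 => ?_, fun h1 h2 => ?_⟩
        · have h1' : labG lab (i, false) q.1 = (i, true) := h1
          rw [hl] at h1'
          have h2' : e' = true := h2
          exact hb.f2 (by rw [he', h2']) (by simpa using h1') q hq'
        · have h1' : labG lab (i, false) q.1 = (i, false) := h1
          rw [hl] at h1'
          have h2' : e = false := h2
          exact hb.f3 (by rw [he, h2']) (by simpa using h1') q hq'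
      · unfold wpr_g1_U
        rw [wpr_g1_L_en, he]
        simp [hij.symm]
      · exact hE.una q hq
    · -- last
      intro z hz
      have h := hE.last z (hlast z hz)
      rw [← List.cons_append, List.getLast?_append, h]
      rfl
    · simp
    · -- lets
      intro q hq
      rw [List.mem_append, List.mem_cons] at hq
      rcases hq with hq | rfl | hq
      · rw [List.mem_map] at hq
        obtain ⟨q, hq', rfl⟩ := hq
        have hl := hb.lb q hq'
        left
        show (labG lab (i, false) q.1).1 = i
        rw [hl]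
      · rw [wpr_g1_L_en]
        exact Or.inr hc
      · exact hE.lets q hq
    · -- cnt
      rw [List.countP_append, List.countP_append, List.countP_cons, List.countP_cons,
        List.countP_map]
      have h1 := hb.cnt
      have h2 := hE.cnt
      have h3 : List.countP ((fun e : wpr_g1_EE β => e.1.2) ∘ fun q => (q, (e', e))) nr =
          nr.countP (fun p => p.2) := rfl
      rw [h3]
      have h4 : (wpr_g1_en c).1.2 = c.2 := rfl
      rw [h4]
      omega
    · -- unm
      intro q hq hq0
      rw [List.mem_append, List.mem_cons] at hq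
      rcases hq with hq | rfl | hq
      · rw [List.mem_map] at hq
        obtain ⟨q, hq', rfl⟩ := hq
        obtain ⟨h1, h2⟩ := hb.unm q hq' hq0
        exact ⟨h1, List.mem_append_left _ h2⟩
      · refine ⟨rfl, List.mem_append_right _ ?_⟩
        have h' : c.2 = false := hq0
        have : c = (c.1, false) := by rw [← h']
        show (c.1, false) ∈ c :: l₁
        rw [← this]
        exact List.mem_cons_self
      · obtain ⟨h1, h2⟩ := hE.unm q hq hq0
        exact ⟨h1, List.mem_append_right _ (List.mem_cons_of_mem _ h2)⟩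
    · -- val
      intro z hz
      have h := hE.val z (hlast z hz)
      have h' := hb.val
      rw [List.map_append, List.map_cons, ← FreeGroup.mul_mk, rowB_mk_cons, _root_.map_mul,
        _root_.map_mul, ← mul_assoc, ← mul_assoc, h', mul_assoc, h, List.map_append,
        List.map_cons, ← FreeGroup.mul_mk, rowB_mk_cons, wpr_g1_L_en, List.map_map]
      simp only [mul_assoc]
      rfl

end WprG1Glue

section WprG1Final

variable {n : ℕ} {β : Type}

theorem wpr_g1_cyc_map {γ δ : Type} (R : δ → δ → Prop) (f : γ → δ) (l : List γ) :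
    Cyc R (l.map f) ↔ Cyc (fun a b => R (f a) (f b)) l := by
  unfold Cyc
  rw [List.isChain_map, List.getLast?_map, List.head?_map]
  simp

theorem wpr_g1_cyc_mono {γ : Type} (R S : γ → γ → Prop) (P : γ → Prop) (l : List γ)
    (hP : ∀ a ∈ l, P a) (h : ∀ a b, P a → P b → R a b → S a b) (hc : Cyc R l) : Cyc S l := by
  rcases l with _ | ⟨a, l⟩
  · simp [Cyc]
  rw [rowB_cyc_iff] at hc ⊢
  intro u v huv
  have hm := rowB_cpair_mem huv
  exact h u v (hP u hm.1) (hP v hm.2) (hc u v huv)

/-- rotations of an image list -/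
theorem wpr_g1_rot {γ δ : Type} (F : γ → δ) (E : List γ) (w : List δ) (h : w ~r E.map F) :
    ∃ E₁ E₂, E = E₁ ++ E₂ ∧ (E₂ ++ E₁).map F = w := by
  obtain ⟨p, q, rfl, h2⟩ := rowB_rot h
  obtain ⟨e₁, e₂, rfl, h3, h4⟩ := List.map_eq_append_iff.1 h2
  exact ⟨e₁, e₂, rfl, by rw [List.map_append, h3, h4]⟩

/-- the invariant for the new cyclic word -/
theorem wpr_g1_nof (lab : β → Ltr n) (i j : Fin n) (hij : i ≠ j) (E : List (wpr_g1_EE β))
    (hc : Cyc (wpr_g1_S lab i j) E) (hu : ∀ e ∈ E, wpr_g1_U lab i e) :
    NoF i j (E.map fun e => (wpr_g1_L lab i e, e.1.2)) := by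
  have key : ∀ w : List (Ltr n × Bool), w ~r (E.map fun e => (wpr_g1_L lab i e, e.1.2)) →
      ∃ E' : List (wpr_g1_EE β), (∀ e ∈ E', wpr_g1_U lab i e) ∧
        List.IsChain (wpr_g1_S lab i j) E' ∧
          (E'.map fun e => (wpr_g1_L lab i e, e.1.2)) = w := by
    intro w hw
    obtain ⟨E₁, E₂, rfl, h⟩ := wpr_g1_rot _ E w hw
    refine ⟨E₂ ++ E₁, ?_, (rowB_cyc_app _ _ _ hc).1, h⟩
    intro e he
    refine hu e ?_
    rw [List.mem_append] at he ⊢
    exact he.symm
  constructor
  · rintro ⟨m, ms, t, h⟩
    obtain ⟨E', -, hch, hE⟩ := key _ h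
    have aux : ∀ (ms : List Bool) (E' : List (wpr_g1_EE β)) (u : wpr_g1_EE β),
        (wpr_g1_L lab i u = (i, true) ∨ wpr_g1_L lab i u = (j, true)) →
        List.IsChain (wpr_g1_S lab i j) (u :: E') →
        (E'.map fun e => (wpr_g1_L lab i e, e.1.2)) =
          ms.map (fun m' => ((j, true), m')) ++ ((j, true), true) :: t → False := by
      intro ms
      induction ms with
      | nil =>
        intro E' u hu hch hE
        rcases E' with _ | ⟨v, E'⟩
        · simp at hE
        · simp only [List.map_cons, List.map_nil, List.nil_append, List.cons.injEq,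
            Prod.mk.injEq] at hE
          rw [List.isChain_cons_cons] at hch
          have := hch.1.f1 hE.1.1 hu
          rw [hE.1.2] at this
          exact Bool.noConfusion this
      | cons m ms ih =>
        intro E' u hu hch hE
        rcases E' with _ | ⟨v, E'⟩
        · simp at hE
        · simp only [List.map_cons, List.cons_append, List.cons.injEq, Prod.mk.injEq] at hE
          rw [List.isChain_cons_cons] at hch
          exact ih E' v (Or.inr hE.1.1) hch.2 hE.2
    rcases E' with _ | ⟨u, E'⟩
    · simp at hE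
    · simp only [List.map_cons, List.cons.injEq, Prod.mk.injEq] at hE
      exact aux ms E' u (Or.inl hE.1.1) hch hE.2
  · rintro ⟨m, ms, t, h⟩
    obtain ⟨E', hU, hch, hE⟩ := key _ h
    have aux : ∀ (ms : List Bool) (E' : List (wpr_g1_EE β)) (u : wpr_g1_EE β),
        (∀ e ∈ E', wpr_g1_U lab i e) →
        (wpr_g1_L lab i u = (j, true) ∨ (wpr_g1_L lab i u = (i, true) ∧ u.2.1 = true)) →
        List.IsChain (wpr_g1_S lab i j) (u :: E') →
        (E'.map fun e => (wpr_g1_L lab i e, e.1.2)) =
          ms.map (fun m' => ((i, true), m')) ++ ((i, true), true) :: t → False := by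
      intro ms
      induction ms with
      | nil =>
        intro E' u hU hu hch hE
        rcases E' with _ | ⟨v, E'⟩
        · simp at hE
        · simp only [List.map_cons, List.map_nil, List.nil_append, List.cons.injEq,
            Prod.mk.injEq] at hE
          rw [List.isChain_cons_cons] at hch
          have hv : v.2.1 = true := by
            rcases hu with hu | hu
            · exact hch.1.g1 hu hE.1.1
            · rw [hch.1.g2 hu.1 hE.1.1]; exact hu.2
          have := (hU v List.mem_cons_self).1 hE.1.1 hv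
          rw [hE.1.2] at this
          exact Bool.noConfusion this
      | cons m ms ih =>
        intro E' u hU hu hch hE
        rcases E' with _ | ⟨v, E'⟩
        · simp at hE
        · simp only [List.map_cons, List.cons_append, List.cons.injEq, Prod.mk.injEq] at hE
          rw [List.isChain_cons_cons] at hch
          have hv : v.2.1 = true := by
            rcases hu with hu | hu
            · exact hch.1.g1 hu hE.1.1
            · rw [hch.1.g2 hu.1 hE.1.1]; exact hu.2
          exact ih E' v (fun e he => hU e (List.mem_cons_of_mem _ he)) (Or.inr ⟨hE.1.1, hv⟩)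
            hch.2 hE.2
    rcases E' with _ | ⟨u, E'⟩
    · simp at hE
    · simp only [List.map_cons, List.cons.injEq, Prod.mk.injEq] at hE
      exact aux ms E' u (fun e he => hU e (List.mem_cons_of_mem _ he)) (Or.inl hE.1.1) hch hE.2
  · rintro ⟨m, ms, t, h⟩
    obtain ⟨E', hU, hch, hE⟩ := key _ h
    have aux : ∀ (ms : List Bool) (E' : List (wpr_g1_EE β)) (u : wpr_g1_EE β),
        wpr_g1_L lab i u = (i, false) →
        List.IsChain (wpr_g1_S lab i j) (u :: E') →
        (E'.map fun e => (wpr_g1_L lab i e, e.1.2)) =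
          ms.map (fun m' => ((i, false), m')) ++ ((j, false), m) :: t → u.2.2 = false := by
      intro ms
      induction ms with
      | nil =>
        intro E' u hu hch hE
        rcases E' with _ | ⟨v, E'⟩
        · simp at hE
        · simp only [List.map_cons, List.map_nil, List.nil_append, List.cons.injEq,
            Prod.mk.injEq] at hE
          rw [List.isChain_cons_cons] at hch
          exact hch.1.g4 hu hE.1.1
      | cons m ms ih =>
        intro E' u hu hch hE
        rcases E' with _ | ⟨v, E'⟩
        · simp at hE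
        · simp only [List.map_cons, List.cons_append, List.cons.injEq, Prod.mk.injEq] at hE
          rw [List.isChain_cons_cons] at hch
          rw [hch.1.g3 hu hE.1.1]
          exact ih E' v hE.1.1 hch.2 hE.2
    rcases E' with _ | ⟨u, E'⟩
    · simp at hE
    · simp only [List.map_cons, List.cons.injEq, Prod.mk.injEq] at hE
      have h1 := aux ms E' u hE.1.1 hch hE.2
      have h2 := (hU u List.mem_cons_self).2 hE.1.1 h1
      rw [hE.1.2] at h2
      exact Bool.noConfusion h2
  · rintro ⟨m, ms, t, h⟩
    obtain ⟨E', hU, hch, hE⟩ := key _ h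
    rcases E' with _ | ⟨u, E'⟩
    · simp at hE
    · simp only [List.map_cons, List.cons.injEq, Prod.mk.injEq] at hE
      rcases E' with _ | ⟨v, E'⟩
      · simp at hE
      rw [List.isChain_cons_cons] at hch
      have h2 : u.1.2 = false := by
        rcases ms with _ | ⟨m', ms⟩
        · simp only [List.map_cons, List.map_nil, List.nil_append, List.cons.injEq,
            Prod.mk.injEq] at hE
          exact hch.1.f4 hE.1.1 (Or.inl hE.2.1.1)
        · simp only [List.map_cons, List.cons_append, List.cons.injEq, Prod.mk.injEq] at hE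
          exact hch.1.f4 hE.1.1 (Or.inr hE.2.1.1)
      rw [hE.1.2] at h2
      exact Bool.noConfusion h2

/-- the linear conditions from the cyclic ones -/
theorem wpr_g1_hyp (lab : β → Ltr n) (i j : Fin n) (hij : i ≠ j) (l : List (β × Bool))
    (z : β × Bool) (t : List (β × Bool)) (hrot : l ~r (z :: t)) (hz : (lab z.1).1 = j)
    (hred : IsCyclicallyReduced (l.map fun p => lab p.1))
    (hF : NoF i j (l.map fun p => (lab p.1, p.2))) :
    wpr_g1_H lab i j (z :: (t ++ [z])) := by
  have hmk : ∀ w : List (β × Bool), w ~r l →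
      (w.map fun p => (lab p.1, p.2)) ~r (l.map fun p => (lab p.1, p.2)) :=
    fun w hw => hw.map _
  constructor
  · rw [← rowB_cyc]
    refine rowB_cyc_rot hrot ?_
    exact (wpr_g1_cyc_map _ (fun p : β × Bool => lab p.1) l).1 ((rowB_cycred _).1 hred)
  · rw [← rowB_cyc, rowB_cyc_iff]
    rintro u v ⟨t', h1, h2⟩
    have h3 := h1.trans hrot.symm
    constructor
    · intro hu hv
      rcases t' with _ | ⟨w, t'⟩
      · simp only [List.nil_append, List.head?_cons, Option.some.injEq] at h2
        subst h2
        rw [hu] at hv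
        simp [hij] at hv
      · simp only [List.cons_append, List.head?_cons, Option.some.injEq] at h2
        subst h2
        by_contra hm
        rw [Bool.not_eq_false] at hm
        refine hF.f1 ⟨u.2, [], t'.map fun p => (lab p.1, p.2), ?_⟩
        have := hmk _ h3
        rw [List.map_cons, List.map_cons, hu, hv, hm] at this
        exact this
    · intro hu hv
      rcases t' with _ | ⟨w, t'⟩
      · simp only [List.nil_append, List.head?_cons, Option.some.injEq] at h2
        subst h2
        rw [hu] at hv
        simp [hij.symm] at hv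
      · simp only [List.cons_append, List.head?_cons, Option.some.injEq] at h2
        subst h2
        by_contra hm
        rw [Bool.not_eq_false] at hm
        refine hF.f4 ⟨w.2, [], t'.map fun p => (lab p.1, p.2), ?_⟩
        have := hmk _ h3
        rw [List.map_cons, List.map_cons, hu, hv, hm] at this
        exact this
  · intro l₁ u r v l₂ e hu hr hv
    by_contra hm
    rw [Bool.not_eq_false] at hm
    rcases List.eq_nil_or_concat l₂ with rfl | ⟨l₂, y, hy⟩
    · have e' : (z :: t) ++ [z] = (l₁ ++ u :: r) ++ [v] := by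
        rw [List.cons_append, e]; simp
      have := (List.append_inj' e' rfl).2
      rw [List.cons.injEq] at this
      rw [this.1, hv] at hz
      exact hij hz
    · rw [List.concat_eq_append] at hy
      subst hy
      have e' : (z :: t) ++ [z] = (l₁ ++ u :: (r ++ v :: l₂)) ++ [y] := by
        rw [List.cons_append, e]; simp
      have e2 := (List.append_inj' e' rfl).1
      have h3 : ((u :: (r ++ v :: l₂)) ++ l₁) ~r l := by
        refine (rowB_app_rot _ _).trans ?_
        rw [← e2]
        exact hrot.symm
      refine hF.f2 ⟨u.2, r.map Prod.snd, (l₂ ++ l₁).map fun p => (lab p.1, p.2), ?_⟩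
      have h4 := hmk _ h3
      have h5 : (r.map Prod.snd).map (fun m' => (((i, true) : Ltr n), m')) =
          r.map fun p => (lab p.1, p.2) := by
        rw [List.map_map]
        refine List.map_congr_left fun p hp => ?_
        rw [hr p hp]
        rfl
      rw [h5]
      have h6 : (((u :: (r ++ v :: l₂)) ++ l₁).map fun p => (lab p.1, p.2)) =
          (((j, true) : Ltr n), u.2) :: ((r.map fun p => (lab p.1, p.2)) ++
            (((i, true) : Ltr n), true) :: ((l₂ ++ l₁).map fun p => (lab p.1, p.2))) := by
        simp [hu, hv, hm]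
      rw [← h6]
      exact h4
  · intro l₁ v r u l₂ e hv hr hu
    by_contra hm
    rw [Bool.not_eq_false] at hm
    rcases l₁ with _ | ⟨y, l₁⟩
    · rw [List.nil_append, List.cons.injEq] at e
      rw [e.1, hv] at hz
      exact hij hz
    · rw [List.cons_append, List.cons.injEq] at e
      have h3 : ((v :: (r ++ u :: l₂)) ++ l₁) ~r l := by
        refine (rowB_app_rot _ _).trans ?_
        rw [← e.2]
        exact (rowB_app_rot t [z]).trans hrot.symm
      refine hF.f3 ⟨u.2, r.map Prod.snd, (l₂ ++ l₁).map fun p => (lab p.1, p.2), ?_⟩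
      have h4 := hmk _ h3
      have h5 : (r.map Prod.snd).map (fun m' => (((i, false) : Ltr n), m')) =
          r.map fun p => (lab p.1, p.2) := by
        rw [List.map_map]
        refine List.map_congr_left fun p hp => ?_
        rw [hr p hp]
        rfl
      rw [h5]
      have h6 : (((v :: (r ++ u :: l₂)) ++ l₁).map fun p => (lab p.1, p.2)) =
          (((i, false) : Ltr n), true) :: ((r.map fun p => (lab p.1, p.2)) ++
            (((j, false) : Ltr n), u.2) :: ((l₂ ++ l₁).map fun p => (lab p.1, p.2))) := by
        simp [hu, hv, hm]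
      rw [← h6]
      exact h4

theorem wpr_g1_fixi (i j : Fin n) : ∀ w : Word n, (∀ y ∈ w, y.1 = i) →
    tau (Aal i j) (i, false) (FreeGroup.mk w) = FreeGroup.mk w := by
  intro w
  induction w with
  | nil => intro _; rw [← FreeGroup.one_eq_mk, _root_.map_one]
  | cons v w ih =>
    intro h
    rw [rowB_mk_cons, _root_.map_mul, ih fun y hy => h y (List.mem_cons_of_mem _ hy), tau_apply,
      tauHom_fix _ _ _ (h v List.mem_cons_self)]

end WprG1Final

/-- ROW g1 -/
theorem alpha_step {n : ℕ} (i j : Fin n) (hij : i ≠ j) {β : Type} (lab : β → Ltr n)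
    (l : List (β × Bool)) (hred : IsCyclicallyReduced (l.map fun p => lab p.1))
    (hlet : ∀ p ∈ l, (lab p.1).1 = i ∨ (lab p.1).1 = j)
    (hF : NoF i j (l.map fun p => (lab p.1, p.2))) :
    ∃ l' : List ((β × Fin 4) × Bool),
      IsCyclicallyReduced (l'.map fun p => labG lab (i, false) p.1) ∧
      (∀ p ∈ l', (labG lab (i, false) p.1).1 = i ∨ (labG lab (i, false) p.1).1 = j) ∧
      NoF i j (l'.map fun p => (labG lab (i, false) p.1, p.2)) ∧
      l.countP (fun p => p.2) ≤ l'.countP (fun p => p.2) ∧
      (∀ p ∈ l', p.2 = false → p.1.2 = 0 ∧ (p.1.1, false) ∈ l) ∧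
      Cj (FreeGroup.mk (l'.map fun p => labG lab (i, false) p.1))
        (tau (Aal i j) (i, false) (FreeGroup.mk (l.map fun p => lab p.1))) ∧
      ∀ R : β → β → Prop, Cyc R (l.map Prod.fst) →
        Cyc (mvG lab (Aal i j) (i, false) R) (l'.map Prod.fst) := by
  by_cases hex : ∃ z ∈ l, (lab z.1).1 = j
  · obtain ⟨z, hzl, hz⟩ := hex
    obtain ⟨l₁, l₂, hl⟩ := List.append_of_mem hzl
    have hrot : l ~r (z :: (l₂ ++ l₁)) := by
      rw [hl, ← List.cons_append]; exact rowB_app_rot _ _
    generalize l₂ ++ l₁ = t at hrot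
    have hrot2 : l ~r (t ++ [z]) := hrot.trans (rowB_app_rot [z] t)
    obtain ⟨E, hE⟩ := wpr_g1_main lab i j hij (t ++ [z]).length (t ++ [z]) z le_rfl hz
      (wpr_g1_hyp lab i j hij l z t hrot hz hred hF)
      (fun p hp => hlet p (hrot2.mem_iff.2 hp)) (by
        intro y hy
        rw [List.getLast?_concat, Option.mem_def, Option.some.injEq] at hy
        rw [← hy]
        exact hz)
    have hlast : (z :: (t ++ [z])).getLast? = some z := by
      rw [← List.cons_append]; exact List.getLast?_concat
    obtain ⟨E₀, rfl⟩ : ∃ E₀, E = E₀ ++ [wpr_g1_en z] := by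
      rcases List.eq_nil_or_concat E with rfl | ⟨E₀, y, hy⟩
      · exact absurd rfl (hE.ne (by simp))
      · rw [List.concat_eq_append] at hy
        subst hy
        refine ⟨E₀, ?_⟩
        have := hE.last z hlast
        rw [← List.cons_append, List.getLast?_concat, Option.some.injEq] at this
        rw [this]
    have hcS : Cyc (wpr_g1_S lab i j) (E₀ ++ [wpr_g1_en z]) := by
      have h1 := (rowB_cyc _ _ _).2 hE.ch
      exact rowB_cyc_app _ [wpr_g1_en z] E₀ h1
    generalize hEE : E₀ ++ [wpr_g1_en z] = E at *
    refine ⟨E.map Prod.fst, ?_, ?_, ?_, ?_, ?_, ?_, ?_⟩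
    · rw [rowB_cycred, List.map_map, wpr_g1_cyc_map]
      exact wpr_g1_cyc_mono _ _ (fun _ => True) E (fun _ _ => trivial)
        (fun a b _ _ h => h.red) hcS
    · intro p hp
      rw [List.mem_map] at hp
      obtain ⟨q, hq, rfl⟩ := hp
      exact hE.lets q hq
    · rw [List.map_map]
      exact wpr_g1_nof lab i j hij E hcS hE.una
    · rw [hrot2.perm.countP_eq, List.countP_map]
      exact hE.cnt
    · intro p hp h
      rw [List.mem_map] at hp
      obtain ⟨q, hq, rfl⟩ := hp
      obtain ⟨h1, h2⟩ := hE.unm q hq h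
      exact ⟨h1, hrot2.mem_iff.2 h2⟩
    · rw [List.map_map]
      have hv := hE.val z hlast
      have hm : (l.map fun p => lab p.1) ~r ((t ++ [z]).map fun p => lab p.1) := hrot2.map _
      obtain ⟨p, q, hp, hq⟩ := rowB_rot hm
      have h1 : FreeGroup.mk (E.map fun e => wpr_g1_L lab i e) =
          wpr_g1_ka i (lab z.1) *
            tau (Aal i j) (i, false) (FreeGroup.mk ((t ++ [z]).map fun p => lab p.1)) *
              (wpr_g1_ka i (lab z.1))⁻¹ := by
        rw [hv]; group
      refine ⟨wpr_g1_ka i (lab z.1) * (tau (Aal i j) (i, false) (FreeGroup.mk p))⁻¹, ?_⟩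
      have h2 : FreeGroup.mk ((t ++ [z]).map fun p => lab p.1) =
          (FreeGroup.mk p)⁻¹ * FreeGroup.mk (l.map fun p => lab p.1) * FreeGroup.mk p := by
        rw [hq, hp, ← FreeGroup.mul_mk, ← FreeGroup.mul_mk]; group
      have h3 : FreeGroup.mk (E.map ((fun p => labG lab (i, false) p.1) ∘ Prod.fst)) =
          FreeGroup.mk (E.map fun e => wpr_g1_L lab i e) := rfl
      rw [h3, h1, h2, _root_.map_mul, _root_.map_mul, _root_.map_inv]
      group
    · intro R hR
      have h1 : Cyc R ((z :: t).map Prod.fst) := rowB_cyc_rot (hrot.map _) hR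
      rw [List.map_cons, rowB_cyc] at h1
      have h2 := hE.mvg R (by rw [List.map_append]; exact h1)
      rw [← hEE, List.map_append, List.map_cons, List.map_nil] at h2
      have h3 := (rowB_cyc _ _ _).2 h2
      rw [← hEE, List.map_map, List.map_append, List.map_cons, List.map_nil]
      exact rowB_cyc_app _ [((z.1, (0 : Fin 4)) : β × Fin 4)] _ h3
  · push Not at hex
    have hi : ∀ p ∈ l, (lab p.1).1 = i := by
      intro p hp
      rcases hlet p hp with h | h
      · exact h
      · exact absurd h (hex p hp)
    have e1 : (l.map fun p => ((p.1, (0 : Fin 4)), p.2)).map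
        (fun q => labG lab (i, false) q.1) = l.map fun p => lab p.1 := wpr_g1_map0 lab _ l
    refine ⟨l.map fun p => ((p.1, 0), p.2), ?_, ?_, ?_, ?_, ?_, ?_, ?_⟩
    · rw [e1]; exact hred
    · intro p hp
      rw [List.mem_map] at hp
      obtain ⟨q, hq, rfl⟩ := hp
      rw [wpr_g1_lab0]
      exact hlet q hq
    · rw [List.map_map]
      have : (l.map ((fun p : (β × Fin 4) × Bool => (labG lab (i, false) p.1, p.2)) ∘
          fun p => ((p.1, 0), p.2))) = l.map fun p => (lab p.1, p.2) := by
        refine List.map_congr_left fun p _ => ?_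
        show (labG lab (i, false) (p.1, 0), p.2) = (lab p.1, p.2)
        rw [wpr_g1_lab0]
      rw [this]
      exact hF
    · rw [wpr_g1_cnt0]
    · exact wpr_g1_unm0 l
    · refine ⟨1, ?_⟩
      rw [e1, wpr_g1_fixi i j]
      · group
      · intro y hy
        rw [List.mem_map] at hy
        obtain ⟨p, hp, rfl⟩ := hy
        exact hi p hp
    · intro R hR
      rw [wpr_g1_map0f, wpr_g1_cyc_map]
      refine wpr_g1_cyc_mono R _ (fun p => (lab p).1 = i) _ ?_ ?_ hR
      · intro p hp
        rw [List.mem_map] at hp
        obtain ⟨q, hq, rfl⟩ := hp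
        exact hi q hq
      · intro a b ha hb hab
        refine ⟨fun h => absurd h (show (0 : Fin 4) ≠ 1 by decide),
          fun h => absurd h (show (0 : Fin 4) ≠ 1 by decide), ?_⟩
        rw [wpr_g1_en_i lab i j a (lab a).2 (by rw [← ha]),
          wpr_g1_st_i lab i j b (lab b).2 (by rw [← hb])]
        exact wpr_g1_eR lab _ R a b true hab

end WPP
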