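import Pool.Agent.Lib.WPR_Base
import Pool.Agent.Lib.WPP_A7
import Pool.Agent.Lib.WPP_E1

/-! PROJECT WPR, row h1: primitive cyclic words in two letters -/

namespace WPP

open FreeGroup List

theorem h1_succ {β : Type} {p : List β} (P : β → Prop)
    (h : ∀ u v, CPair p u v → P u → P v) {a : β} (ha : a ∈ p) (hP : P a) : ∀ b ∈ p, P b := by
  obtain ⟨l1, l2, rfl⟩ := List.append_of_mem ha
  have hrot : (l1 ++ a :: l2) ~r (a :: (l2 ++ l1)) := by
    simpa using rowB_app_rot l1 (a :: l2)
  have hc : Cyc (fun u v => P u → P v) (a :: (l2 ++ l1)) :=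
    (rowB_cyc_iff _ a (l2 ++ l1)).2 fun u v huv => h u v (rowB_cpair_rot hrot.symm huv)
  have key : ∀ (l : List β) (a : β), P a → List.IsChain (fun u v => P u → P v) (a :: l) →
      ∀ b ∈ l, P b := by
    intro l
    induction l with
    | nil => simp
    | cons c l ih =>
      intro a ha hch b hb
      rw [List.isChain_cons_cons] at hch
      rcases List.mem_cons.1 hb with rfl | hb
      · exact hch.1 ha
      · exact ih c (hch.1 ha) hch.2 b hb
  intro b hb
  have hb' := hrot.mem_iff.1 hb
  rcases List.mem_cons.1 hb' with rfl | hb'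
  · exact hP
  · exact key _ a hP hc.1 b hb'

theorem h1_pred {β : Type} {p : List β} (P : β → Prop)
    (h : ∀ u v, CPair p u v → P v → P u) {a : β} (ha : a ∈ p) (hP : P a) : ∀ b ∈ p, P b := by
  intro b hb
  by_contra hn
  exact h1_succ (fun x => ¬ P x) (fun u v huv hu hv => hu (h u v huv hv)) hb hn a ha hP

theorem h1_same {n : ℕ} {a b : Ltr n} (h : a.1 = b.1) : a = b ∨ a = bar b := by
  obtain ⟨i, s⟩ := a
  obtain ⟨j, t⟩ := b
  simp only at h
  subst h
  cases s <;> cases t <;> simp [bar]

theorem h1_fst {n : ℕ} {a b : Ltr n} (h : bar a = b) : a.1 = b.1 := by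
  rw [← h]
  rfl

theorem h1_fst' {n : ℕ} {a b : Ltr n} (h : a = bar b) : a.1 = b.1 := by
  rw [h]
  rfl

/-- the shape of a cyclic word in two letters with a cut pair -/
theorem h1_shape {n : ℕ} {i j : Fin n} {u : Word n}
    (hu : IsCyclicallyReduced u) (hlet : ∀ d ∈ u, d.1 = i ∨ d.1 = j) {A : Ltr n → Prop}
    {x : Ltr n} (hcut : Cut A x u) :
    ∃ y : Ltr n, y.1 ≠ x.1 ∧ (x.1 = i ∨ x.1 = j) ∧ (y.1 = i ∨ y.1 = j) ∧
      (∀ a, CPair u a y → a = bar x) ∧ (∀ b, CPair u (bar y) b → b = x) ∧
      ((y ∈ u ∧ ∀ d ∈ u, d = bar x ∨ d = y) ∨ (bar y ∈ u ∧ ∀ d ∈ u, d = x ∨ d = bar y)) := by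
  -- the letters of `u` have the index of `x` or of `y`
  have htwo : ∀ y : Ltr n, y.1 ≠ x.1 → (x.1 = i ∨ x.1 = j) → (y.1 = i ∨ y.1 = j) →
      ∀ d ∈ u, d = x ∨ d = bar x ∨ d = y ∨ d = bar y := by
    intro y hyx hx hy d hd
    have h1 : d.1 = x.1 ∨ d.1 = y.1 := by
      rcases hlet d hd with h | h <;> rcases hx with h' | h' <;> rcases hy with h'' | h''
      · exact Or.inl (h.trans h'.symm)
      · exact Or.inl (h.trans h'.symm)
      · exact Or.inr (h.trans h''.symm)
      · exact absurd (h''.trans h'.symm) hyx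
      · exact absurd (h''.trans h'.symm) hyx
      · exact Or.inr (h.trans h''.symm)
      · exact Or.inl (h.trans h'.symm)
      · exact Or.inl (h.trans h'.symm)
    rcases h1 with h1 | h1
    · rcases h1_same h1 with h | h
      · exact Or.inl h
      · exact Or.inr (Or.inl h)
    · rcases h1_same h1 with h | h
      · exact Or.inr (Or.inr (Or.inl h))
      · exact Or.inr (Or.inr (Or.inr h))
  have hred : ∀ {a b : Ltr n}, CPair u a b → b ≠ bar a := fun h => a4_red hu h
  -- the choice of `y`
  have hy : ∃ y : Ltr n, y.1 ≠ x.1 ∧ (x.1 = i ∨ x.1 = j) ∧ (y.1 = i ∨ y.1 = j) ∧ A y ∧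
      ¬ A (bar y) ∧ (y ∈ u ∨ bar y ∈ u) := by
    obtain ⟨p, q, hpq, h | h⟩ := hcut.strict
    · obtain ⟨h1, h2, h3⟩ := h
      have hp : p = bar x := by rw [← h1, a4_bar_bar]
      have hyx : q.1 ≠ x.1 := by
        intro he
        rcases h1_same he with h | h
        · exact h3 h
        · exact hcut.hbx (h ▸ h2)
      have hxi : x.1 = i ∨ x.1 = j := by
        have := hlet p (a4_mem hpq).1
        rw [hp] at this
        exact this
      have hyi := hlet q (a4_mem hpq).2
      refine ⟨q, hyx, hxi, hyi, h2, fun hb => ?_, Or.inl (a4_mem hpq).2⟩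
      have hall := h1_pred (p := u) (fun d => d = bar x) (fun a b hab hb' => by
        subst hb'
        have hac := hcut.turn a (bar x) hab
        rcases htwo q hyx hxi hyi a (a4_mem hab).1 with rfl | rfl | rfl | rfl
        · exact absurd rfl (hred hab)
        · rfl
        · exact absurd (hac.1 ⟨hb, fun he => hyx (h1_fst he)⟩) hcut.hbx
        · refine absurd (hac.1 ⟨?_, fun he => hyx ?_⟩) hcut.hbx
          · rw [a4_bar_bar]; exact h2
          · rw [a4_bar_bar] at he; exact congrArg Prod.fst he) (hp ▸ (a4_mem hpq).1) rfl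
      have h9 : q = bar x := hall q (a4_mem hpq).2
      exact hyx (h1_fst' h9)
    · obtain ⟨h1, h2, h3⟩ := h
      have hyx : (bar p).1 ≠ x.1 := by
        intro he
        rcases h1_same he with h | h
        · exact h3 h
        · exact hcut.hbx (h ▸ h2)
      have hxi : x.1 = i ∨ x.1 = j := by
        have := hlet q (a4_mem hpq).2
        rw [h1] at this
        exact this
      have hyi : (bar p).1 = i ∨ (bar p).1 = j := hlet p (a4_mem hpq).1
      have hpu : bar (bar p) ∈ u := by rw [a4_bar_bar]; exact (a4_mem hpq).1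
      refine ⟨bar p, hyx, hxi, hyi, h2, fun hb => ?_, Or.inr hpu⟩
      have hall := h1_succ (p := u) (fun d => d = x) (fun a b hab ha' => by
        subst ha'
        have hac := hcut.turn a b hab
        rcases htwo (bar p) hyx hxi hyi b (a4_mem hab).2 with rfl | rfl | rfl | rfl
        · rfl
        · exact absurd rfl (hred hab)
        · exact absurd (hac.2 ⟨h2, fun he => hyx (congrArg Prod.fst he)⟩) hcut.hbx
        · exact absurd (hac.2 ⟨hb, fun he => hyx (h1_fst he)⟩) hcut.hbx)
        (h1 ▸ (a4_mem hpq).2) rfl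
      have h9 : p = x := hall p (a4_mem hpq).1
      have h10 : p.1 = x.1 := congrArg Prod.fst h9
      exact hyx h10
  obtain ⟨y, hyx, hxi, hyi, hAy, hAby, hmem⟩ := hy
  have hyx' : y ≠ x := fun h => hyx (congrArg Prod.fst h)
  have hpred : ∀ a, CPair u a y → a = bar x := by
    intro a ha
    have h1 := (hcut.turn a y ha).2 ⟨hAy, hyx'⟩
    rcases htwo y hyx hxi hyi a (a4_mem ha).1 with rfl | rfl | rfl | rfl
    · exact absurd h1 hcut.hbx
    · rfl
    · exact absurd h1 hAby
    · exact absurd (a4_bar_bar y).symm (hred ha)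
  have hsucc : ∀ b, CPair u (bar y) b → b = x := by
    intro b hb
    have h1 := (hcut.turn (bar y) b hb).1 (by rw [a4_bar_bar]; exact ⟨hAy, hyx'⟩)
    rcases htwo y hyx hxi hyi b (a4_mem hb).2 with rfl | rfl | rfl | rfl
    · rfl
    · exact absurd h1 hcut.hbx
    · exact absurd (a4_bar_bar b).symm (hred hb)
    · exact absurd h1 hAby
  refine ⟨y, hyx, hxi, hyi, hpred, hsucc, ?_⟩
  rcases hmem with hmem | hmem
  · refine Or.inl ⟨hmem, h1_pred (p := u) (fun d => d = bar x ∨ d = y) (fun a b hab hb => ?_) hmem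
      (Or.inr rfl)⟩
    rcases hb with rfl | rfl
    · rcases htwo y hyx hxi hyi a (a4_mem hab).1 with rfl | rfl | rfl | rfl
      · exact absurd rfl (hred hab)
      · exact Or.inl rfl
      · exact Or.inr rfl
      · exact absurd (hsucc _ hab) (a4_bar_ne x)
    · exact Or.inl (hpred a hab)
  · refine Or.inr ⟨hmem, h1_succ (p := u) (fun d => d = x ∨ d = bar y) (fun a b hab ha => ?_) hmem
      (Or.inr rfl)⟩
    rcases ha with rfl | rfl
    · rcases htwo y hyx hxi hyi b (a4_mem hab).2 with rfl | rfl | rfl | rfl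
      · exact Or.inl rfl
      · exact absurd rfl (hred hab)
      · exact absurd (hpred a hab).symm (a4_bar_ne a)
      · exact Or.inr rfl
    · exact Or.inl (hsucc b hab)

/-! ### homomorphisms on words -/

theorem h1_hom {n : ℕ} (e : FreeGroup (Fin n) ≃* FreeGroup (Fin n)) (F : Ltr n → Word n)
    (w : Word n) (h : ∀ y ∈ w, e (lt y) = FreeGroup.mk (F y)) :
    e (FreeGroup.mk w) = FreeGroup.mk (w.flatMap F) := by
  induction w with
  | nil => exact _root_.map_one e
  | cons a w ih =>
    rw [rowB_mk_cons, _root_.map_mul, h a (by simp), ih fun y hy => h y (by simp [hy]),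
      List.flatMap_cons, FreeGroup.mul_mk]

theorem h1_map {n : ℕ} (e : FreeGroup (Fin n) ≃* FreeGroup (Fin n)) (f : Ltr n → Ltr n)
    (w : Word n) (h : ∀ y ∈ w, e (lt y) = lt (f y)) :
    e (FreeGroup.mk w) = FreeGroup.mk (w.map f) := by
  rw [h1_hom e (fun y => [f y]) w h]
  congr 1
  induction w with
  | nil => rfl
  | cons a w ih => rw [List.flatMap_cons, List.map_cons, ih fun y hy => h y (by simp [hy])]; rfl

theorem h1_alp_i {n : ℕ} (i j : Fin n) : alp i j (lt (i, true)) = lt (i, true) := by
  change tauHom (Aal i j) (bar (i, false)) (lt (i, true)) = _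
  exact tauHom_fix _ _ _ rfl

theorem h1_alp_j {n : ℕ} {i j : Fin n} (hij : i ≠ j) :
    alp i j (lt (j, true)) = FreeGroup.mk [(i, true), (j, true)] := by
  change tauHom (Aal i j) (bar (i, false)) (lt (j, true)) = _
  rw [tauHom_lt _ _ _ (by exact hij.symm)]
  have h1 : Kp (Aal i j) (bar (i, false)) (j, true) = lt (i, true) := by
    unfold Kp
    rw [if_pos (show Aal i j (j, true) from Or.inr rfl)]
    rfl
  have h2 : Kp (Aal i j) (bar (i, false)) (bar (j, true)) = 1 := by
    unfold Kp
    rw [if_neg]
    rintro (h | h)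
    · exact hij (congrArg Prod.fst h).symm
    · have := congrArg Prod.snd h
      simp [bar] at this
  rw [h1, h2, inv_one, mul_one]
  rfl

theorem h1_cj_trans {n : ℕ} {g h k : FreeGroup (Fin n)} (h1 : Cj g h) (h2 : Cj h k) :
    Cj g k := by
  obtain ⟨a, rfl⟩ := h1
  obtain ⟨b, rfl⟩ := h2
  exact ⟨a * b, by group⟩

theorem h1_cj_map {n : ℕ} (e : FreeGroup (Fin n) ≃* FreeGroup (Fin n))
    {g h : FreeGroup (Fin n)} (h1 : Cj g h) : Cj (e g) (e h) := by
  obtain ⟨a, rfl⟩ := h1
  exact ⟨e a, by rw [_root_.map_mul, _root_.map_mul, _root_.map_inv]⟩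

theorem h1_cj_rot {n : ℕ} {v w : Word n} (h : v ~r w) : Cj (FreeGroup.mk v) (FreeGroup.mk w) := by
  obtain ⟨l₁, l₂, rfl, rfl⟩ := rowB_rot h
  refine ⟨FreeGroup.mk l₁, ?_⟩
  rw [← FreeGroup.mul_mk, ← FreeGroup.mul_mk]
  group

theorem h1_prim_cj {n : ℕ} {g h : FreeGroup (Fin n)} (h1 : Cj g h) (hp : Prim g) : Prim h := by
  obtain ⟨a, rfl⟩ := h1
  have h2 := prim_conj hp (MulAut.conj a⁻¹)
  rwa [MulAut.conj_apply, inv_inv, show a⁻¹ * (a * h * a⁻¹) * a = h by group] at h2

/-! ### positive words -/

/-- the block map -/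
def h1_F {n : ℕ} (i j : Fin n) (y : Ltr n) : Word n :=
  if y = (j, true) then [(i, true), (j, true)] else [(i, true)]

theorem h1_blocks {n : ℕ} {i j : Fin n} (hij : i ≠ j) (N : ℕ) : ∀ w : Word n, w.length ≤ N →
    (∀ y ∈ w, y = (i, true) ∨ y = (j, true)) →
    List.IsChain (fun a b : Ltr n => ¬ (a = (j, true) ∧ b = (j, true))) w →
    w.head? ≠ some (j, true) →
    ∃ w' : Word n, (∀ y ∈ w', y = (i, true) ∨ y = (j, true)) ∧ w'.flatMap (h1_F i j) = w ∧
      w'.length ≤ w.length ∧ ((j, true) ∈ w → w'.length < w.length) := by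
  have hne : ((i, true) : Ltr n) ≠ (j, true) := fun h => hij (congrArg Prod.fst h)
  induction N with
  | zero =>
    intro w hw _ _ _
    have : w = [] := List.eq_nil_of_length_eq_zero (Nat.le_zero.1 hw)
    subst this
    exact ⟨[], by simp, by simp, by simp, by simp⟩
  | succ N ih =>
    intro w hw hlet hch hhd
    match w, hw, hlet, hch, hhd with
    | [], _, _, _, _ => exact ⟨[], by simp, by simp, by simp, by simp⟩
    | [a], _, hlet, _, hhd =>
      have ha : a = (i, true) := by
        rcases hlet a (by simp) with h | h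
        · exact h
        · exact absurd (by rw [h]; rfl) hhd
      subst ha
      refine ⟨[(i, true)], by simp, by simp [h1_F, hij], by simp, ?_⟩
      intro h
      simp only [List.mem_singleton] at h
      exact absurd h.symm hne
    | a :: b :: r, hw, hlet, hch, hhd =>
      have ha : a = (i, true) := by
        rcases hlet a (by simp) with h | h
        · exact h
        · exact absurd (by rw [h]; rfl) hhd
      subst ha
      rw [List.isChain_cons_cons] at hch
      simp only [List.length_cons] at hw
      rcases hlet b (by simp) with hb | hb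
      · subst hb
        obtain ⟨w', h1, h2, h3, h4⟩ := ih ((i, true) :: r) (by simp only [List.length_cons]; omega)
          (fun y hy => hlet y (List.mem_cons_of_mem _ hy)) hch.2
          (by rw [List.head?_cons]; exact fun h => hne (Option.some.inj h))
        refine ⟨(i, true) :: w', ?_, ?_, ?_, ?_⟩
        · intro y hy
          rcases List.mem_cons.1 hy with rfl | hy
          · exact Or.inl rfl
          · exact h1 y hy
        · rw [List.flatMap_cons, h2, h1_F, if_neg hne]
          rfl
        · simp only [List.length_cons] at h3 ⊢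
          omega
        · intro h
          have h5 : (j, true) ∈ ((i, true) : Ltr n) :: r := by
            rcases List.mem_cons.1 h with h | h
            · exact absurd h.symm hne
            · exact h
          have := h4 h5
          simp only [List.length_cons] at this ⊢
          omega
      · subst hb
        have hr : r.head? ≠ some (j, true) := by
          intro h
          cases r with
          | nil => simp at h
          | cons c r =>
            simp only [List.head?_cons, Option.some.injEq] at h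
            subst h
            have := hch.2
            rw [List.isChain_cons_cons] at this
            exact this.1 ⟨rfl, rfl⟩
        have hchr : List.IsChain (fun a b : Ltr n => ¬ (a = (j, true) ∧ b = (j, true))) r := by
          cases r with
          | nil => exact List.IsChain.nil
          | cons c r =>
            have := hch.2
            rw [List.isChain_cons_cons] at this
            exact this.2
        obtain ⟨w', h1, h2, h3, h4⟩ := ih r (by omega)
          (fun y hy => hlet y (List.mem_cons_of_mem _ (List.mem_cons_of_mem _ hy))) hchr hr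
        refine ⟨(j, true) :: w', ?_, ?_, ?_, ?_⟩
        · intro y hy
          rcases List.mem_cons.1 hy with rfl | hy
          · exact Or.inr rfl
          · exact h1 y hy
        · rw [List.flatMap_cons, h2, h1_F, if_pos rfl]
          rfl
        · simp only [List.length_cons]
          omega
        · intro _
          simp only [List.length_cons]
          omega

/-- a positive word in which `x_j` is isolated is the image of a shorter one under `α` -/
theorem h1_reduce {n : ℕ} {i j : Fin n} (hij : i ≠ j) (v : Word n)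
    (hpos : ∀ y ∈ v, y = (i, true) ∨ y = (j, true)) (hi : (i, true) ∈ v) (hj : (j, true) ∈ v)
    (hiso : ¬ CPair v (j, true) (j, true)) :
    ∃ v' : Word n, (∀ y ∈ v', y = (i, true) ∨ y = (j, true)) ∧ v'.length < v.length ∧
      Cj (FreeGroup.mk v) (alp i j (FreeGroup.mk v')) := by
  have hne : ((i, true) : Ltr n) ≠ (j, true) := fun h => hij (congrArg Prod.fst h)
  obtain ⟨l1, l2, hl⟩ := List.append_of_mem hi
  have hrot : v ~r ((i, true) :: (l2 ++ l1)) := by
    rw [hl]
    simpa using rowB_app_rot l1 ((i, true) :: l2)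
  have hc : Cyc (fun a b : Ltr n => ¬ (a = (j, true) ∧ b = (j, true)))
      ((i, true) :: (l2 ++ l1)) :=
    (rowB_cyc_iff _ _ _).2 fun a b hab h => by
      obtain ⟨rfl, rfl⟩ := h
      exact hiso (rowB_cpair_rot hrot.symm hab)
  obtain ⟨w', h1, h2, h3, h4⟩ := h1_blocks hij _ _ le_rfl
    (fun y hy => hpos y (hrot.mem_iff.2 hy)) hc.1
    (by rw [List.head?_cons]; exact fun h => hne (Option.some.inj h))
  have hlen : v.length = ((i, true) :: (l2 ++ l1)).length := hrot.perm.length_eq
  refine ⟨w', h1, ?_, ?_⟩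
  · rw [hlen]
    exact h4 (hrot.mem_iff.1 hj)
  · rw [h1_hom (alp i j) (h1_F i j) w' (fun y hy => ?_), h2]
    · exact h1_cj_rot hrot
    · rcases h1 y hy with rfl | rfl
      · rw [h1_alp_i, h1_F, if_neg hne]
        rfl
      · rw [h1_alp_j hij, h1_F, if_pos rfl]

theorem h1_iso {n : ℕ} {i j : Fin n} (hij : i ≠ j) (v : Word n)
    (hpos : ∀ y ∈ v, y = (i, true) ∨ y = (j, true)) (h2 : 2 ≤ v.length)
    (hp : Prim (FreeGroup.mk v)) :
    (i, true) ∈ v ∧ (j, true) ∈ v ∧
      (¬ CPair v (j, true) (j, true) ∨ ¬ CPair v (i, true) (i, true)) := by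
  have hsnd : ∀ y ∈ v, y.2 = true := fun y hy => by rcases hpos y hy with rfl | rfl <;> rfl
  have hlet : ∀ y ∈ v, y.1 = i ∨ y.1 = j := fun y hy => by
    rcases hpos y hy with rfl | rfl
    · exact Or.inl rfl
    · exact Or.inr rfl
  have hred : IsCyclicallyReduced v := by
    cases v with
    | nil => simp at h2
    | cons a t =>
      have h : Cyc (fun a b : Ltr n => a.1 = b.1 → a.2 = b.2) (a :: t) :=
        (rowB_cyc_iff _ a t).2 fun p q hpq _ =>
          (hsnd p (a4_mem hpq).1).trans (hsnd q (a4_mem hpq).2).symm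
      exact h
  obtain ⟨A, x, hcut⟩ := cut_exists v hred h2 hp
  obtain ⟨y, hyx, hxi, hyi, hpred, hsucc, hmem⟩ := h1_shape hred hlet hcut
  -- the isolated letter `c` and the other letter `d`
  have key : ∃ c d : Ltr n, c ∈ v ∧ d ∈ v ∧ c.1 ≠ d.1 ∧ ¬ CPair v c c := by
    rcases hmem with ⟨hm, _⟩ | ⟨hm, _⟩
    · obtain ⟨a, ha⟩ := a4_pred hm
      have h1 := hpred a ha
      refine ⟨y, bar x, hm, h1 ▸ (a4_mem ha).1, hyx, fun h => ?_⟩
      exact hyx (h1_fst' (hpred y h))
    · obtain ⟨b, hb⟩ := a4_succ hm
      have h1 := hsucc b hb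
      refine ⟨bar y, x, hm, h1 ▸ (a4_mem hb).2, hyx, fun h => ?_⟩
      exact hyx (h1_fst (hsucc (bar y) h))
  obtain ⟨c, d, hc, hd, hcd, hcc⟩ := key
  rcases hpos c hc with rfl | rfl <;> rcases hpos d hd with rfl | rfl
  · exact absurd rfl hcd
  · exact ⟨hc, hd, Or.inr hcc⟩
  · exact ⟨hd, hc, Or.inl hcc⟩
  · exact absurd rfl hcd

theorem h1_oml_true {n : ℕ} (σ : Equiv.Perm (Fin n)) (k : Fin n) :
    oml σ (fun _ => true) (k, true) = (σ k, true) := rfl

theorem h1_swp_lt {n : ℕ} (i j : Fin n) (y : Ltr n) :
    swp i j (lt y) = lt (oml (Equiv.swap i j) (fun _ => true) y) := omg_lt _ _ _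

theorem h1_main {n : ℕ} {i j : Fin n} (hij : i ≠ j) (N : ℕ) : ∀ v : Word n, v.length ≤ N →
    (∀ y ∈ v, y = (i, true) ∨ y = (j, true)) → Prim (FreeGroup.mk v) →
    ∃ μ : List Bool, Cj (FreeGroup.mk v) (muE i j μ (FreeGroup.of i)) := by
  have hne : ((i, true) : Ltr n) ≠ (j, true) := fun h => hij (congrArg Prod.fst h)
  induction N with
  | zero =>
    intro v hv _ hp
    have : v = [] := List.eq_nil_of_length_eq_zero (Nat.le_zero.1 hv)
    subst this
    exact absurd rfl (prim_ne_one hp)
  | succ N ih =>
    intro v hv hpos hp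
    rcases Nat.lt_or_ge v.length 2 with hlt | h2
    · match v, hpos, hp, hlt with
      | [], _, hp, _ => exact absurd rfl (prim_ne_one hp)
      | [y], hpos, _, _ =>
        rcases hpos y (by simp) with rfl | rfl
        · exact ⟨[], 1, by simp [muE]; rfl⟩
        · refine ⟨[false], 1, ?_⟩
          rw [inv_one, mul_one, one_mul]
          change lt (j, true) = swp i j (lt (i, true))
          rw [h1_swp_lt, h1_oml_true, Equiv.swap_apply_left]
    · obtain ⟨hi, hj, hiso⟩ := h1_iso hij v hpos h2 hp
      rcases hiso with hiso | hiso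
      · obtain ⟨v', h1, h3, h4⟩ := h1_reduce hij v hpos hi hj hiso
        have hp' : Prim (FreeGroup.mk v') := by
          have := prim_conj (h1_prim_cj h4 hp) (alp i j).symm
          rwa [MulEquiv.symm_apply_apply] at this
        obtain ⟨μ, hμ⟩ := ih v' (by omega) h1 hp'
        exact ⟨true :: μ, h1_cj_trans h4 (h1_cj_map (alp i j) hμ)⟩
      · set f : Ltr n → Ltr n := oml (Equiv.swap i j) (fun _ => true) with hf
        have hfi : f (i, true) = (j, true) := by
          rw [hf, h1_oml_true, Equiv.swap_apply_left]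
        have hfj : f (j, true) = (i, true) := by
          rw [hf, h1_oml_true, Equiv.swap_apply_right]
        have hmk : FreeGroup.mk (v.map f) = swp i j (FreeGroup.mk v) :=
          (h1_map (swp i j) f v fun y _ => h1_swp_lt i j y).symm
        have hpos' : ∀ y ∈ v.map f, y = (i, true) ∨ y = (j, true) := by
          intro y hy
          obtain ⟨z, hz, rfl⟩ := List.mem_map.1 hy
          rcases hpos z hz with rfl | rfl
          · exact Or.inr hfi
          · exact Or.inl hfj
        obtain ⟨v', h1, h3, h4⟩ := h1_reduce hij (v.map f) hpos'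
          (List.mem_map.2 ⟨_, hj, hfj⟩) (List.mem_map.2 ⟨_, hi, hfi⟩) (fun h => by
            obtain ⟨a, b, hab, ha, hb⟩ := a4_map f h
            have ha' : a = (i, true) := by
              rcases hpos a (a4_mem hab).1 with h | h
              · exact h
              · rw [h, hfj] at ha
                exact absurd ha hne
            have hb' : b = (i, true) := by
              rcases hpos b (a4_mem hab).2 with h | h
              · exact h
              · rw [h, hfj] at hb
                exact absurd hb hne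
            rw [ha', hb'] at hab
            exact hiso hab)
        rw [List.length_map] at h3
        have hp' : Prim (FreeGroup.mk v') := by
          have h5 : Prim (FreeGroup.mk (v.map f)) := by
            rw [hmk]
            exact prim_conj hp _
          have := prim_conj (h1_prim_cj h4 h5) (alp i j).symm
          rwa [MulEquiv.symm_apply_apply] at this
        obtain ⟨μ, hμ⟩ := ih v' (by omega) h1 hp'
        refine ⟨false :: true :: μ, ?_⟩
        have h6 : FreeGroup.mk v = swp i j (FreeGroup.mk (v.map f)) := by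
          rw [h1_map (swp i j) f (v.map f) fun y _ => h1_swp_lt i j y, List.map_map]
          congr 1
          symm
          rw [List.map_congr_left (g := id) (fun y hy => ?_), List.map_id]
          rcases hpos y hy with rfl | rfl
          · rw [Function.comp_apply, hfi, hfj]; rfl
          · rw [Function.comp_apply, hfj, hfi]; rfl
        rw [h6]
        exact h1_cj_map (swp i j) (h1_cj_trans h4 (h1_cj_map (alp i j) hμ))

theorem prim_form {n : ℕ} (i j : Fin n) (hij : i ≠ j) (u : Word n)
    (hu : IsCyclicallyReduced u) (hlet : ∀ d ∈ u, d.1 = i ∨ d.1 = j)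
    (hp : Prim (FreeGroup.mk u)) :
    ∃ (s : Fin n → Bool) (μ : List Bool),
      Cj (FreeGroup.mk u) (omg 1 s (muE i j μ (FreeGroup.of i))) := by
  classical
  have hs : ∃ s : Fin n → Bool, ∀ d ∈ u, d.2 = s d.1 := by
    rcases Nat.lt_or_ge u.length 2 with hlt | h2
    · match u, hlt with
      | [], _ => exact ⟨fun _ => true, by simp⟩
      | [y], _ => exact ⟨fun _ => y.2, by simp⟩
    · obtain ⟨A, x, hcut⟩ := cut_exists u hu h2 hp
      obtain ⟨y, hyx, hxi, hyi, hpred, hsucc, hmem⟩ := h1_shape hu hlet hcut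
      have aux : ∀ c d : Ltr n, c.1 ≠ d.1 → (∀ z ∈ u, z = c ∨ z = d) →
          ∃ s : Fin n → Bool, ∀ z ∈ u, z.2 = s z.1 := by
        intro c d hcd h
        refine ⟨fun k => if k = c.1 then c.2 else d.2, fun z hz => ?_⟩
        rcases h z hz with rfl | rfl
        · simp
        · simp only
          rw [if_neg (Ne.symm hcd)]
      rcases hmem with ⟨_, h⟩ | ⟨_, h⟩
      · exact aux (bar x) y (Ne.symm hyx) h
      · exact aux x (bar y) (Ne.symm hyx) h
  obtain ⟨s, hs⟩ := hs
  set v : Word n := u.map fun d => (d.1, true) with hv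
  have h1 : v.map (oml 1 s) = u := by
    rw [hv, List.map_map, List.map_congr_left (g := id) (fun y hy => ?_), List.map_id]
    obtain ⟨k, b⟩ := y
    have h2 := hs _ hy
    simp only at h2
    simp only [Function.comp_apply, oml, id, Equiv.Perm.coe_one]
    rw [h2]
    simp
  have h2 : omg 1 s (FreeGroup.mk v) = FreeGroup.mk u := by
    rw [h1_map (omg 1 s) (oml 1 s) v fun y _ => omg_lt _ _ _, h1]
  have h3 : Prim (FreeGroup.mk v) := by
    have := prim_conj hp (omg 1 s).symm
    rwa [← h2, MulEquiv.symm_apply_apply] at this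
  obtain ⟨μ, hμ⟩ := h1_main hij _ v le_rfl (fun y hy => by
    obtain ⟨z, hz, rfl⟩ := List.mem_map.1 hy
    rcases hlet z hz with h | h
    · exact Or.inl (by rw [h])
    · exact Or.inr (by rw [h])) h3
  exact ⟨s, μ, by rw [← h2]; exact h1_cj_map _ hμ⟩

end WPP
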