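import Pool.Agent.Lib.WPR_Base

/-!
# PROJECT WPR (MP_2e2606_al), row h2: automorphisms of a free group of rank two fixing one basis
element
-/

namespace WPP

open FreeGroup List

section FixA

variable {n : ℕ}

theorem isReduced_invRev_h2 {L : Word n} (h : IsReduced L) : IsReduced (invRev L) := by
  have e : invRev L = ((FreeGroup.mk L)⁻¹).toWord := by
    rw [toWord_inv, toWord_mk, h.reduce_eq]
  rw [e]; exact isReduced_toWord

theorem red_left_h2 {A B : Word n} (h : IsReduced (A ++ B)) : IsReduced A :=
  (List.isChain_append.1 h).1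

theorem red_right_h2 {A B : Word n} (h : IsReduced (A ++ B)) : IsReduced B :=
  (List.isChain_append.1 h).2.1

theorem letters_FT_h2 {T : Set (Fin n)} {g : FreeGroup (Fin n)} (hg : g ∈ FT T) :
    ∀ d ∈ g.toWord, d.1 ∈ T := by
  unfold FT at hg
  induction hg using Subgroup.closure_induction with
  | mem x hx =>
    obtain ⟨i, hi, rfl⟩ := hx
    intro d hd
    rw [toWord_of, List.mem_singleton] at hd
    subst hd; exact hi
  | one => intro d hd; simp at hd
  | mul x y _ _ hx hy =>
    intro d hd
    have h := (FreeGroup.toWord_mul_sublist x y).subset hd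
    rcases List.mem_append.1 h with h | h
    · exact hx d h
    · exact hy d h
  | inv x _ hx =>
    intro d hd
    rw [toWord_inv] at hd
    unfold invRev at hd
    rw [List.mem_reverse, List.mem_map] at hd
    obtain ⟨e, he, rfl⟩ := hd
    exact hx e he

theorem zpow_of_letters_h2 (i : Fin n) : ∀ L : Word n, (∀ d ∈ L, d.1 = i) →
    ∃ k : ℤ, FreeGroup.mk L = FreeGroup.of i ^ k
  | [], _ => ⟨0, rfl⟩
  | (d :: L), h => by
    obtain ⟨k, hk⟩ := zpow_of_letters_h2 i L fun d' hd' => h d' (List.mem_cons_of_mem _ hd')
    obtain ⟨x, b⟩ := d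
    have hx : x = i := h (x, b) List.mem_cons_self
    subst hx
    have e : FreeGroup.mk ((x, b) :: L) = lt (x, b) * FreeGroup.mk L := by
      unfold lt; rw [mul_mk]; rfl
    rw [e, hk]
    cases b
    · refine ⟨-1 + k, ?_⟩
      rw [zpow_add, lt_false, zpow_neg_one]
    · refine ⟨1 + k, ?_⟩
      rw [zpow_add, lt_true, zpow_one]

theorem of_ne_zpow_h2 {i j : Fin n} (hij : i ≠ j) (k : ℤ) :
    (FreeGroup.of j : FreeGroup (Fin n)) ≠ FreeGroup.of i ^ k := by
  intro h
  have h' := congrArg (FreeGroup.lift fun x : Fin n =>
    if x = j then Multiplicative.ofAdd (1 : ℤ) else 1) h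
  rw [_root_.map_zpow, FreeGroup.lift_apply_of, FreeGroup.lift_apply_of, if_pos rfl,
    if_neg hij, one_zpow] at h'
  have := congrArg Multiplicative.toAdd h'
  simp at this

theorem split_h2 (i j : Fin n) : ∀ V : Word n, (∀ d ∈ V, d.1 = i ∨ d.1 = j) →
    (∃ d ∈ V, d.1 = j) → ∃ L W : Word n, V = L ++ W ∧ (∀ d ∈ L, d.1 = i) ∧
      ∃ d ∈ W.head?, d.1 = j
  | [], _, h => by obtain ⟨d, hd, -⟩ := h; simp at hd
  | (d :: V), h, hj => by
    by_cases hd : d.1 = j
    · exact ⟨[], d :: V, rfl, by simp, d, by simp, hd⟩
    · have hi : d.1 = i := (h d List.mem_cons_self).resolve_right hd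
      obtain ⟨d', hd', hj'⟩ := hj
      have hd'' : d' ∈ V := by
        rcases List.mem_cons.1 hd' with rfl | h'
        · exact absurd hj' hd
        · exact h'
      obtain ⟨L, W, e, hL, hW⟩ := split_h2 i j V
        (fun x hx => h x (List.mem_cons_of_mem _ hx)) ⟨d', hd'', hj'⟩
      refine ⟨d :: L, W, by rw [e]; rfl, ?_, hW⟩
      intro x hx
      rcases List.mem_cons.1 hx with rfl | h'
      · exact hi
      · exact hL x h'

theorem isReduced_append_h2 {A B : Word n} (hA : IsReduced A) (hB : IsReduced B)
    (h : ∀ a ∈ A.getLast?, ∀ b ∈ B.head?, a.1 = b.1 → a.2 = b.2) : IsReduced (A ++ B) := by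
  unfold FreeGroup.IsReduced at *
  rw [List.isChain_append]
  exact ⟨hA, hB, h⟩

theorem blocks_h2 (i j : Fin n) (hij : i ≠ j) (U : Word n) (hU : IsReduced U) (hne : U ≠ [])
    (hhead : ∀ d ∈ U.head?, d.1 = j) (hlast : ∀ d ∈ U.getLast?, d.1 = j)
    (Ψ : FreeGroup (Fin n) →* FreeGroup (Fin n)) (hi : Ψ (FreeGroup.of i) = FreeGroup.of i)
    (hj : Ψ (FreeGroup.of j) = FreeGroup.mk U) (w : Word n) (hw : IsReduced w)
    (hlet : ∀ d ∈ w, d.1 = i ∨ d.1 = j) (hjw : ∃ d ∈ w, d.1 = j) :
    ∃ z : Word n, IsReduced z ∧ FreeGroup.mk z = Ψ (FreeGroup.mk w) ∧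
      U.length ≤ z.length := by
  classical
  set c := reduceCyclically.conjugator U with hc
  set t := reduceCyclically U with ht
  have hUct : c ++ t ++ invRev c = U := reduceCyclically.conj_conjugator_reduceCyclically U
  have htc : IsCyclicallyReduced t := reduceCyclically.isCyclicallyReduced hU
  have htne : t ≠ [] := by
    intro h0
    apply hne
    have h1 : FreeGroup.mk U = 1 := by
      rw [← hUct, h0, List.append_nil, ← mul_mk, ← inv_mk, mul_inv_cancel]
    have h2 := congrArg FreeGroup.toWord h1
    rwa [toWord_mk, hU.reduce_eq, toWord_one] at h2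
  set te : Bool → Word n := fun e => cond e t (invRev t) with hte
  have hte_ne : ∀ e, te e ≠ [] := by
    intro e
    cases e
    · intro h
      apply htne
      have := congrArg List.length h
      simp only [hte, cond_false, invRev_length, List.length_nil] at this
      exact List.length_eq_zero_iff.1 this
    · exact htne
  have htt : ∀ e, IsReduced (te e ++ te e) := by
    have h0 : IsReduced (t ++ t) := by
      have h := (htc.flatten_replicate 2).isReduced
      simpa using h
    intro e
    cases e
    · have h := isReduced_invRev_h2 h0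
      have e1 : invRev (t ++ t) = invRev t ++ invRev t := by simp [invRev]
      rwa [e1] at h
    · exact h0
  have hblk : ∀ e, IsReduced (c ++ te e ++ invRev c) := by
    intro e
    cases e
    · have h := isReduced_invRev_h2 hU
      rw [← hUct] at h
      have e1 : invRev (c ++ t ++ invRev c) = c ++ invRev t ++ invRev c := by
        simp [invRev, Function.comp_def]
      rwa [e1] at h
    · show IsReduced (c ++ t ++ invRev c)
      rw [hUct]; exact hU
  have hbh : ∀ e, ∀ d ∈ (c ++ te e ++ invRev c).head?, d.1 = j := by
    intro e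
    cases e
    · intro d hd
      have e1 : c ++ te false ++ invRev c = invRev U := by
        rw [← hUct]
        simp [invRev, Function.comp_def, hte]
      rw [e1] at hd
      unfold invRev at hd
      rw [List.head?_reverse, List.getLast?_map] at hd
      rcases hgl : U.getLast? with _ | x
      · rw [hgl] at hd; simp at hd
      · rw [hgl] at hd
        simp only [Option.map_some, Option.mem_def, Option.some.injEq] at hd
        rw [← hd]
        exact hlast x (by rw [hgl]; rfl)
    · intro d hd
      have e1 : c ++ te true ++ invRev c = U := hUct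
      rw [e1] at hd
      exact hhead d hd
  have hbl : ∀ e, ∀ d ∈ (c ++ te e ++ invRev c).getLast?, d.1 = j := by
    intro e
    cases e
    · intro d hd
      have e1 : c ++ te false ++ invRev c = invRev U := by
        rw [← hUct]
        simp [invRev, Function.comp_def, hte]
      rw [e1] at hd
      unfold invRev at hd
      rw [List.getLast?_reverse, List.head?_map] at hd
      rcases hgl : U.head? with _ | x
      · rw [hgl] at hd; simp at hd
      · rw [hgl] at hd
        simp only [Option.map_some, Option.mem_def, Option.some.injEq] at hd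
        rw [← hd]
        exact hhead x (by rw [hgl]; rfl)
    · intro d hd
      have e1 : c ++ te true ++ invRev c = U := hUct
      rw [e1] at hd
      exact hlast d hd
  have hlen : ∀ e, (c ++ te e ++ invRev c).length = U.length := by
    intro e
    conv_rhs => rw [← hUct]
    cases e <;> simp [hte, invRev_length]
  have hΨj : ∀ e, Ψ (lt (j, e)) =
      FreeGroup.mk c * FreeGroup.mk (te e) * (FreeGroup.mk c)⁻¹ := by
    have h0 : FreeGroup.mk U = FreeGroup.mk c * FreeGroup.mk t * (FreeGroup.mk c)⁻¹ := by
      rw [inv_mk, mul_mk, mul_mk, hUct]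
    intro e
    cases e
    · rw [lt_false, _root_.map_inv, hj, h0]
      show _ = FreeGroup.mk c * FreeGroup.mk (invRev t) * (FreeGroup.mk c)⁻¹
      rw [← inv_mk (L := t)]
      group
    · rw [lt_true, hj, h0]
      rfl
  have hΨi : ∀ e, Ψ (lt (i, e)) = lt (i, e) := by
    intro e
    cases e
    · rw [lt_false, _root_.map_inv, hi]
    · rw [lt_true, hi]
  have main : ∀ w : Word n, IsReduced w → (∀ d ∈ w, d.1 = i ∨ d.1 = j) →
      ∃ z : Word n, IsReduced z ∧ FreeGroup.mk z = Ψ (FreeGroup.mk w) ∧
        ((∃ d ∈ w, d.1 = j) → U.length ≤ z.length) ∧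
        (∀ d ∈ w.getLast?, (d.1 = i → z.getLast? = some d) ∧
          (d.1 = j → ∃ y, z = y ++ te d.2 ++ invRev c)) ∧ (w = [] → z = []) := by
    intro w
    induction w using List.reverseRecOn with
    | nil =>
      intro _ _
      refine ⟨[], IsReduced.nil, ?_, ?_, ?_, fun _ => rfl⟩
      · have e : (FreeGroup.mk ([] : Word n)) = 1 := rfl
        rw [e, _root_.map_one]
      · rintro ⟨d, hd, -⟩; simp at hd
      · intro d hd; simp at hd
    | append_singleton w d ih =>
      intro hw hlet
      have hw0 : IsReduced w := red_left_h2 hw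
      have hl0 : ∀ x ∈ w, x.1 = i ∨ x.1 = j := fun x hx =>
        hlet x (List.mem_append_left _ hx)
      obtain ⟨z, hz, hzm, hzl, hzg, hz0⟩ := ih hw0 hl0
      have hadj : ∀ a ∈ w.getLast?, a.1 = d.1 → a.2 = d.2 := by
        intro a ha
        have h := hw
        unfold FreeGroup.IsReduced at h
        rw [List.isChain_append] at h
        exact h.2.2 a ha d (by simp)
      have hmk : FreeGroup.mk (w ++ [d]) = FreeGroup.mk w * lt d := by
        unfold lt; rw [mul_mk]
      rcases hlet d (by simp) with hdi | hdj
      · -- an `i`-letter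
        obtain ⟨x, e⟩ := d
        simp only at hdi
        subst hdi
        refine ⟨z ++ [(x, e)], ?_, ?_, ?_, ?_, ?_⟩
        · refine isReduced_append_h2 hz IsReduced.singleton ?_
          intro a ha b hb hab
          simp only [List.head?_cons, Option.mem_def, Option.some.injEq] at hb
          subst hb
          rcases hgl : w.getLast? with _ | l
          · have hwn : w = [] := List.getLast?_eq_none_iff.1 hgl
            rw [hz0 hwn] at ha
            simp at ha
          · have hl1 : l ∈ w := List.mem_of_getLast? hgl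
            rcases hl0 l hl1 with hl | hl
            · have h1 := (hzg l (by rw [hgl]; rfl)).1 hl
              rw [h1] at ha
              simp only [Option.mem_def, Option.some.injEq] at ha
              subst ha
              exact hadj l (by rw [hgl]; rfl) hl
            · exfalso
              obtain ⟨y, hy⟩ := (hzg l (by rw [hgl]; rfl)).2 hl
              have h2 : a ∈ (c ++ te l.2 ++ invRev c).getLast? := by
                rw [hy, List.append_assoc] at ha
                rw [List.append_assoc]
                have hn : te l.2 ++ invRev c ≠ [] := by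
                  simp [hte_ne l.2]
                rw [List.getLast?_append_of_ne_nil _ hn] at ha ⊢
                exact ha
              have h3 := hbl l.2 a h2
              exact hij (hab.symm.trans h3)
        · rw [hmk, _root_.map_mul, hΨi, ← hzm]
          unfold lt; rw [mul_mk]
        · rintro ⟨d', hd', hj'⟩
          rcases List.mem_append.1 hd' with h | h
          · have := hzl ⟨d', h, hj'⟩
            simp only [List.length_append, List.length_singleton]
            omega
          · simp only [List.mem_singleton] at h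
            subst h
            exact absurd hj' hij
        · intro d' hd'
          rw [List.getLast?_concat, Option.mem_def, Option.some.injEq] at hd'
          subst hd'
          refine ⟨fun _ => by simp, fun h => absurd h hij⟩
        · intro h; simp at h
      · -- a `j`-letter
        obtain ⟨x, e⟩ := d
        simp only at hdj
        subst hdj
        have hlast' : ∀ z' y : Word n, z' = y ++ te e ++ invRev c →
            ∀ d' ∈ (w ++ [(x, e)]).getLast?, (d'.1 = i → z'.getLast? = some d') ∧
              (d'.1 = x → ∃ y, z' = y ++ te d'.2 ++ invRev c) := by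
          intro z' y hz' d' hd'
          rw [List.getLast?_concat, Option.mem_def, Option.some.injEq] at hd'
          subst hd'
          exact ⟨fun h => absurd h.symm hij, fun _ => ⟨y, hz'⟩⟩
        rcases hgl : w.getLast? with _ | l
        · have hwn : w = [] := List.getLast?_eq_none_iff.1 hgl
          subst hwn
          refine ⟨c ++ te e ++ invRev c, hblk e, ?_, fun _ => (hlen e).ge, ?_, ?_⟩
          · rw [hmk, _root_.map_mul, hΨj]
            have e0 : (FreeGroup.mk ([] : Word n)) = 1 := rfl
            rw [e0, _root_.map_one, one_mul, inv_mk, mul_mk, mul_mk]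
          · exact hlast' _ c rfl
          · intro h; simp at h
        · have hl1 : l ∈ w := List.mem_of_getLast? hgl
          have hg := hzg l (by rw [hgl]; rfl)
          rcases hl0 l hl1 with hl | hl
          · have h1 := hg.1 hl
            refine ⟨z ++ (c ++ te e ++ invRev c), ?_, ?_, ?_, ?_, ?_⟩
            · refine isReduced_append_h2 hz (hblk e) ?_
              intro a ha b hb hab
              rw [h1] at ha
              simp only [Option.mem_def, Option.some.injEq] at ha
              subst ha
              have hb' := hbh e b hb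
              exact absurd (hl.symm.trans (hab.trans hb')) hij
            · rw [hmk, _root_.map_mul, hΨj, ← hzm, inv_mk, mul_mk, mul_mk, mul_mk]
            · intro _
              rw [List.length_append, hlen e]
              omega
            · exact hlast' _ (z ++ c) (by simp)
            · intro h; simp at h
          · obtain ⟨y, hy⟩ := hg.2 hl
            have hle : l.2 = e := hadj l (by rw [hgl]; rfl) hl
            rw [hle] at hy
            refine ⟨y ++ te e ++ te e ++ invRev c, ?_, ?_, ?_, ?_, ?_⟩
            · have hz' : IsReduced (y ++ te e ++ invRev c) := by rw [← hy]; exact hz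
              have h1 : IsReduced (y ++ te e) := red_left_h2 hz'
              have h2 : IsReduced (te e ++ invRev c) := red_right_h2 (A := y) (by
                rwa [List.append_assoc] at hz')
              have h3 : IsReduced (y ++ te e ++ te e) :=
                IsReduced.append_overlap h1 (htt e) (hte_ne e)
              exact IsReduced.append_overlap h3 h2 (hte_ne e)
            · rw [hmk, _root_.map_mul, hΨj, ← hzm, hy, ← mul_mk, ← mul_mk, ← mul_mk, ← mul_mk,
                ← mul_mk, ← inv_mk]
              group
            · intro _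
              have := hzl ⟨l, hl1, hl⟩
              rw [hy] at this
              simp only [List.length_append] at this ⊢
              omega
            · exact hlast' _ (y ++ te e) (by simp)
            · intro h; simp at h
  obtain ⟨z, h1, h2, h3, -, -⟩ := main w hw hlet
  exact ⟨z, h1, h2, h3 hjw⟩

end FixA

theorem fix_a {n : ℕ} (i j : Fin n) (hij : i ≠ j)
    (Θ : FreeGroup (Fin n) ≃* FreeGroup (Fin n))
    (hΘ : (FT ({i, j} : Set (Fin n))).map Θ.toMonoidHom = FT {i, j})
    (hi : Θ (FreeGroup.of i) = FreeGroup.of i) :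
    ∃ (k l : ℤ) (ε : Bool),
      Θ (FreeGroup.of j) = FreeGroup.of i ^ k * lt (j, ε) * FreeGroup.of i ^ l := by
  classical
  have hjFT : (FreeGroup.of j : FreeGroup (Fin n)) ∈ FT ({i, j} : Set (Fin n)) :=
    Subgroup.subset_closure ⟨j, by simp, rfl⟩
  have hiFT : (FreeGroup.of i : FreeGroup (Fin n)) ∈ FT ({i, j} : Set (Fin n)) :=
    Subgroup.subset_closure ⟨i, by simp, rfl⟩
  have hv : Θ (FreeGroup.of j) ∈ FT ({i, j} : Set (Fin n)) := by
    rw [← hΘ]; exact ⟨_, hjFT, rfl⟩
  have hVlet : ∀ d ∈ (Θ (FreeGroup.of j)).toWord, d.1 = i ∨ d.1 = j := fun d hd => by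
    have := letters_FT_h2 hv d hd
    simpa using this
  have hVj : ∃ d ∈ (Θ (FreeGroup.of j)).toWord, d.1 = j := by
    by_contra hcon
    push Not at hcon
    obtain ⟨k, hk⟩ := zpow_of_letters_h2 i (Θ (FreeGroup.of j)).toWord fun d hd =>
      (hVlet d hd).resolve_right (hcon d hd)
    rw [mk_toWord] at hk
    have : Θ (FreeGroup.of j) = Θ (FreeGroup.of i ^ k) := by rw [hk, _root_.map_zpow, hi]
    exact of_ne_zpow_h2 hij k (Θ.injective this)
  obtain ⟨L, W, hLW, hL, d0, hd0, hd0j⟩ := split_h2 i j _ hVlet hVj
  have hWlet : ∀ d ∈ W.reverse, d.1 = i ∨ d.1 = j := fun d hd => by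
    apply hVlet d
    rw [hLW]
    exact List.mem_append_right _ (List.mem_reverse.1 hd)
  have hWj : ∃ d ∈ W.reverse, d.1 = j :=
    ⟨d0, List.mem_reverse.2 (List.mem_of_mem_head? hd0), hd0j⟩
  obtain ⟨R', U', hRU, hR', d1, hd1, hd1j⟩ := split_h2 i j _ hWlet hWj
  set U := U'.reverse with hU
  set R := R'.reverse with hR
  have hWU : W = U ++ R := by
    have := congrArg List.reverse hRU
    rw [List.reverse_reverse, List.reverse_append] at this
    exact this
  have hUne : U ≠ [] := by
    intro h
    have : U' = [] := by
      have := congrArg List.reverse h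
      rwa [hU, List.reverse_reverse] at this
    rw [this] at hd1; simp at hd1
  have hhead : ∀ d ∈ U.head?, d.1 = j := by
    intro d hd
    have h1 : W.head? = U.head? := by
      rw [hWU]
      cases hU2 : U with
      | nil => exact absurd hU2 hUne
      | cons a b => rfl
    rw [h1] at hd0
    have : d = d0 := by
      simp only [Option.mem_def] at hd hd0
      rw [hd] at hd0
      exact Option.some.inj hd0
    rw [this]; exact hd0j
  have hlast : ∀ d ∈ U.getLast?, d.1 = j := by
    intro d hd
    rw [hU, List.getLast?_reverse] at hd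
    have : d = d1 := by
      simp only [Option.mem_def] at hd hd1
      rw [hd] at hd1
      exact Option.some.inj hd1
    rw [this]; exact hd1j
  have hUred : IsReduced U := by
    have h : IsReduced (Θ (FreeGroup.of j)).toWord := isReduced_toWord
    rw [hLW, hWU] at h
    exact red_left_h2 (red_right_h2 h)
  obtain ⟨k, hk⟩ := zpow_of_letters_h2 i L hL
  obtain ⟨l, hl⟩ := zpow_of_letters_h2 i R fun d hd => hR' d (List.mem_reverse.1 hd)
  have hveq : Θ (FreeGroup.of j) = FreeGroup.of i ^ k * FreeGroup.mk U * FreeGroup.of i ^ l := by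
    conv_lhs => rw [← mk_toWord (x := Θ (FreeGroup.of j)), hLW, hWU]
    rw [← hk, ← hl, mul_mk, mul_mk]
    simp
  set Ψ : FreeGroup (Fin n) →* FreeGroup (Fin n) :=
    FreeGroup.lift fun x => if x = j then FreeGroup.mk U else FreeGroup.of x with hΨ
  set κ : FreeGroup (Fin n) →* FreeGroup (Fin n) :=
    FreeGroup.lift fun x => if x = j then FreeGroup.of i ^ k * FreeGroup.of j * FreeGroup.of i ^ l
      else FreeGroup.of x with hκ
  have hΨi : Ψ (FreeGroup.of i) = FreeGroup.of i := by
    rw [hΨ, FreeGroup.lift_apply_of, if_neg hij]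
  have hΨj : Ψ (FreeGroup.of j) = FreeGroup.mk U := by
    rw [hΨ, FreeGroup.lift_apply_of, if_pos rfl]
  have hκi : κ (FreeGroup.of i) = FreeGroup.of i := by
    rw [hκ, FreeGroup.lift_apply_of, if_neg hij]
  have hκj : κ (FreeGroup.of j) = FreeGroup.of i ^ k * FreeGroup.of j * FreeGroup.of i ^ l := by
    rw [hκ, FreeGroup.lift_apply_of, if_pos rfl]
  have heq : ∀ h ∈ FT ({i, j} : Set (Fin n)), Ψ (κ h) = Θ h := by
    have h0 : Set.EqOn (Ψ.comp κ) Θ.toMonoidHom
        (Subgroup.closure (FreeGroup.of '' ({i, j} : Set (Fin n)))) := by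
      refine MonoidHom.eqOn_closure ?_
      rintro _ ⟨x, hx, rfl⟩
      rcases hx with rfl | hx
      · show Ψ (κ (FreeGroup.of x)) = Θ (FreeGroup.of x)
        rw [hκi, hΨi, hi]
      · have hx' : x = j := hx
        subst hx'
        show Ψ (κ (FreeGroup.of x)) = Θ (FreeGroup.of x)
        rw [hκj, _root_.map_mul, _root_.map_mul, _root_.map_zpow, _root_.map_zpow, hΨi, hΨj, hveq]
    exact fun h hh => h0 hh
  have hκFT : ∀ h ∈ FT ({i, j} : Set (Fin n)), κ h ∈ FT ({i, j} : Set (Fin n)) := by
    have h0 : FT ({i, j} : Set (Fin n)) ≤ (FT ({i, j} : Set (Fin n))).comap κ := by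
      refine (Subgroup.closure_le _).2 ?_
      rintro _ ⟨x, hx, rfl⟩
      show κ (FreeGroup.of x) ∈ FT ({i, j} : Set (Fin n))
      rcases hx with rfl | hx
      · rw [hκi]; exact hiFT
      · have hx' : x = j := hx
        subst hx'
        rw [hκj]
        exact Subgroup.mul_mem _ (Subgroup.mul_mem _ (Subgroup.zpow_mem _ hiFT _) hjFT)
          (Subgroup.zpow_mem _ hiFT _)
    exact fun h hh => h0 hh
  obtain ⟨w0, hw0, hw0'⟩ : ∃ w0 ∈ FT ({i, j} : Set (Fin n)), Θ w0 = FreeGroup.of j := by
    have h := hjFT
    rw [← hΘ] at h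
    obtain ⟨w0, h1, h2⟩ := h
    exact ⟨w0, h1, h2⟩
  have hwFT := hκFT w0 hw0
  have hΨw : Ψ (κ w0) = FreeGroup.of j := (heq w0 hw0).trans hw0'
  have hwlet : ∀ d ∈ (κ w0).toWord, d.1 = i ∨ d.1 = j := fun d hd => by
    have := letters_FT_h2 hwFT d hd
    simpa using this
  have hwj : ∃ d ∈ (κ w0).toWord, d.1 = j := by
    by_contra hcon
    push Not at hcon
    obtain ⟨m, hm⟩ := zpow_of_letters_h2 i (κ w0).toWord fun d hd =>
      (hwlet d hd).resolve_right (hcon d hd)
    rw [mk_toWord] at hm
    rw [hm, _root_.map_zpow, hΨi] at hΨw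
    exact of_ne_zpow_h2 hij m hΨw.symm
  obtain ⟨z, hz, hzm, hzl⟩ := blocks_h2 i j hij U hUred hUne hhead hlast Ψ hΨi hΨj
    (κ w0).toWord isReduced_toWord hwlet hwj
  rw [mk_toWord, hΨw] at hzm
  have hz1 : z = [(j, true)] := by
    have := congrArg FreeGroup.toWord hzm
    rwa [toWord_mk, hz.reduce_eq, toWord_of] at this
  rw [hz1, List.length_singleton] at hzl
  obtain ⟨d, hd⟩ : ∃ d, U = [d] := by
    rw [← List.length_eq_one_iff]
    have : 0 < U.length := List.length_pos_iff.2 hUne
    omega
  have hdj : d.1 = j := hhead d (by rw [hd]; rfl)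
  refine ⟨k, l, d.2, ?_⟩
  rw [hveq, hd]
  have : d = (j, d.2) := by
    obtain ⟨x, e⟩ := d
    simp only at hdj ⊢
    rw [hdj]
  rw [this]
  rfl

end WPP
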