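import Pool.Agent.Lib.WPR_h3a
import Pool.Agent.Lib.WPR_h1
import Pool.Agent.Lib.WPR_h2

/-!
# PROJECT WPR, row h3: normal form of the automorphisms of a free factor of rank two
-/

namespace WPP

open FreeGroup List

section h3

theorem normal_form {n : ℕ} (i j : Fin n) (hij : i ≠ j)
    (Θ : FreeGroup (Fin n) ≃* FreeGroup (Fin n))
    (hΘ : (FT ({i, j} : Set (Fin n))).map Θ.toMonoidHom = FT {i, j}) :
    ∃ (s₁ s₂ : Fin n → Bool) (μ : List Bool) (k : FreeGroup (Fin n)),
      ∀ h ∈ FT ({i, j} : Set (Fin n)),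
        Θ h = k * omg 1 s₁ (muE i j μ (omg 1 s₂ h)) * k⁻¹ := by
  have mi : FreeGroup.of i ∈ FT ({i, j} : Set (Fin n)) := h3_mem_i
  -- the image of the first letter
  have hΘi : Θ (FreeGroup.of i) ∈ FT ({i, j} : Set (Fin n)) := (h3_mem_of_map hΘ mi).1
  set w := (Θ (FreeGroup.of i)).toWord with hw
  set u := reduceCyclically w with hu
  set c := reduceCyclically.conjugator w with hc
  have hcu : c ++ u ++ invRev c = w := reduceCyclically.conj_conjugator_reduceCyclically w
  have hwmk : FreeGroup.mk w = Θ (FreeGroup.of i) := FreeGroup.mk_toWord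
  have hmk : Θ (FreeGroup.of i) = FreeGroup.mk c * FreeGroup.mk u * (FreeGroup.mk c)⁻¹ := by
    rw [← hwmk, ← hcu, FreeGroup.inv_mk, FreeGroup.mul_mk, FreeGroup.mul_mk]
  have hucr : IsCyclicallyReduced u :=
    reduceCyclically.isCyclicallyReduced FreeGroup.isReduced_toWord
  have hlet : ∀ d ∈ u, d.1 = i ∨ d.1 = j := by
    intro d hd
    have h1 : d ∈ w := by
      rw [← hcu]; simp [hd]
    have h2 := h3_letters hΘi d h1
    simpa using h2
  have hprim : Prim (FreeGroup.mk u) := by
    refine ⟨Θ.trans (MulAut.conj (FreeGroup.mk c)⁻¹), i, ?_⟩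
    show (FreeGroup.mk c)⁻¹ * Θ (FreeGroup.of i) * ((FreeGroup.mk c)⁻¹)⁻¹ = FreeGroup.mk u
    rw [hmk]; group
  obtain ⟨s, μ, k₀, hk₀⟩ := prim_form i j hij u hucr hlet hprim
  set X := omg 1 s (muE i j μ (FreeGroup.of i)) with hX
  have hXm : X ∈ FT ({i, j} : Set (Fin n)) :=
    (h3_mem_of_map (h3_map_omg s _) (h3_mem_of_map (h3_map_muE hij μ) mi).1).1
  -- conjugator inside the factor
  obtain ⟨r, hr1, hr2⟩ := h3_retract ({i, j} : Set (Fin n))
  set K := r (FreeGroup.mk c * k₀) with hK
  have hKm : K ∈ FT ({i, j} : Set (Fin n)) := hr1 _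
  have hΘK : Θ (FreeGroup.of i) = K * X * K⁻¹ := by
    have h1 : Θ (FreeGroup.of i) = (FreeGroup.mk c * k₀) * X * (FreeGroup.mk c * k₀)⁻¹ := by
      rw [hmk, hk₀]; group
    have h2 := congrArg r h1
    rw [hr2 _ hΘi, _root_.map_mul, _root_.map_mul, _root_.map_inv, hr2 _ hXm] at h2
    exact h2
  -- the corrected automorphism
  set Φ : FreeGroup (Fin n) ≃* FreeGroup (Fin n) :=
    ((Θ.trans (MulAut.conj K⁻¹)).trans (omg 1 s).symm).trans (muE i j μ).symm with hΦ
  have hΦ1 : ∀ h, Φ h = (muE i j μ).symm ((omg 1 s).symm (K⁻¹ * Θ h * K)) := by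
    intro h
    show (muE i j μ).symm ((omg 1 s).symm (K⁻¹ * Θ h * (K⁻¹)⁻¹)) = _
    rw [inv_inv]
  have hΦs : ∀ h, Φ.symm h = Θ.symm (K * (omg 1 s) (muE i j μ h) * K⁻¹) := by
    intro h
    rw [MulEquiv.symm_apply_eq, hΦ1, MulEquiv.apply_symm_apply]
    have : K⁻¹ * (K * (omg 1 s) (muE i j μ h) * K⁻¹) * K = (omg 1 s) (muE i j μ h) := by group
    rw [this, MulEquiv.symm_apply_apply, MulEquiv.symm_apply_apply]
  have hΘΦ : ∀ h, Θ h = K * omg 1 s (muE i j μ (Φ h)) * K⁻¹ := by
    intro h
    rw [hΦ1, MulEquiv.apply_symm_apply, MulEquiv.apply_symm_apply]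
    group
  have hΦi : Φ (FreeGroup.of i) = FreeGroup.of i := by
    rw [hΦ1, hΘK]
    have : K⁻¹ * (K * X * K⁻¹) * K = X := by group
    rw [this, hX, MulEquiv.symm_apply_apply, MulEquiv.symm_apply_apply]
  have hΦm : (FT ({i, j} : Set (Fin n))).map Φ.toMonoidHom = FT {i, j} := by
    apply h3_map
    · intro x hx
      have h0 : FreeGroup.of x ∈ FT ({i, j} : Set (Fin n)) :=
        Subgroup.subset_closure ⟨x, hx, rfl⟩
      rw [hΦ1]
      exact (h3_mem_of_map (h3_map_muE hij μ) (h3_mem_of_map (h3_map_omg s _)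
        (mul_mem (mul_mem (inv_mem hKm) (h3_mem_of_map hΘ h0).1) hKm)).2).2
    · intro x hx
      have h0 : FreeGroup.of x ∈ FT ({i, j} : Set (Fin n)) :=
        Subgroup.subset_closure ⟨x, hx, rfl⟩
      rw [hΦs]
      exact (h3_mem_of_map hΘ (mul_mem (mul_mem hKm (h3_mem_of_map (h3_map_omg s _)
        (h3_mem_of_map (h3_map_muE hij μ) h0).1).1) (inv_mem hKm))).2
  obtain ⟨k, l, ε, hΦj⟩ := fix_a i j hij Φ hΦm hΦi
  -- the last factor
  have main : H3NF i j ((muE i j μ).toMonoidHom.comp Φ.toMonoidHom) := by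
    obtain ⟨g, m, hg⟩ : ∃ (g : FreeGroup (Fin n)) (m : ℤ), g * FreeGroup.of i * g⁻¹ =
        FreeGroup.of i ∧ Φ (FreeGroup.of j) =
        g * cond ε (FreeGroup.of i ^ m * FreeGroup.of j) (FreeGroup.of i ^ m * FreeGroup.of j)⁻¹ *
          g⁻¹ := by
      cases ε with
      | true =>
        refine ⟨FreeGroup.of i ^ (-l), k + l, ?_, ?_⟩
        · group
        · rw [hΦj, lt_true]
          simp only [cond_true]
          group
      | false =>
        refine ⟨FreeGroup.of i ^ k, -(k + l), ?_, ?_⟩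
        · group
        · rw [hΦj, lt_false]
          simp only [cond_false]
          group
    set t : Fin n → Bool := fun x => if x = j then ε else true with ht
    have hti : t i = true := by simp [ht, hij]
    have htj : t j = ε := by simp [ht]
    rcases Int.eq_nat_or_neg m with ⟨M, rfl | rfl⟩
    · have key := h3_ext (i := i) (j := j) Φ.toMonoidHom
        ((MulAut.conj g).toMonoidHom.comp ((muE i j (List.replicate M true)).toMonoidHom.comp
          (omg 1 t).toMonoidHom)) ?_ ?_
      · refine H3NF.of_muE (μ ++ List.replicate M true) (muE i j μ g) t _ fun x hx => ?_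
        have h1 : Φ x = g * muE i j (List.replicate M true) (omg 1 t x) * g⁻¹ := key x hx
        show muE i j μ (Φ x) = _
        rw [h1, h3_muE_append, _root_.map_mul, _root_.map_mul, _root_.map_inv]
      · show Φ (FreeGroup.of i) = g * muE i j (List.replicate M true) (omg 1 t (FreeGroup.of i)) *
          g⁻¹
        rw [hΦi, h3_omg, hti]
        simp only [cond_true]
        rw [h3_muE_rep_i, hg.1]
      · show Φ (FreeGroup.of j) = g * muE i j (List.replicate M true) (omg 1 t (FreeGroup.of j)) *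
          g⁻¹
        rw [hg.2, h3_omg, htj]
        cases ε with
        | true =>
          simp only [cond_true]
          rw [h3_muE_rep_j hij, zpow_natCast]
        | false =>
          simp only [cond_false]
          rw [_root_.map_inv, h3_muE_rep_j hij, zpow_natCast]
    · have key := h3_ext (i := i) (j := j) Φ.toMonoidHom
        ((MulAut.conj g).toMonoidHom.comp
          ((muE i j (List.replicate M true)).symm.toMonoidHom.comp (omg 1 t).toMonoidHom)) ?_ ?_
      · have h2 := h3_neg hij μ.length μ M le_rfl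
        have h3 : H3NF i j (((muE i j μ).toMonoidHom.comp
            (muE i j (List.replicate M true)).symm.toMonoidHom).comp (omg 1 t).toMonoidHom) :=
          h2.omg_right t fun x _ => rfl
        refine h3.conj (muE i j μ g) fun x hx => ?_
        have h1 : Φ x = g * (muE i j (List.replicate M true)).symm (omg 1 t x) * g⁻¹ := key x hx
        show muE i j μ (Φ x) = muE i j μ g *
          (muE i j μ ((muE i j (List.replicate M true)).symm (omg 1 t x))) * (muE i j μ g)⁻¹
        rw [h1, _root_.map_mul, _root_.map_mul, _root_.map_inv]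
      · show Φ (FreeGroup.of i) =
          g * (muE i j (List.replicate M true)).symm (omg 1 t (FreeGroup.of i)) * g⁻¹
        rw [hΦi, h3_omg, hti]
        simp only [cond_true]
        rw [h3_muE_reps_i, hg.1]
      · show Φ (FreeGroup.of j) =
          g * (muE i j (List.replicate M true)).symm (omg 1 t (FreeGroup.of j)) * g⁻¹
        rw [hg.2, h3_omg, htj]
        cases ε with
        | true =>
          simp only [cond_true]
          rw [h3_muE_reps_j hij, zpow_neg, zpow_natCast]
        | false =>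
          simp only [cond_false]
          rw [_root_.map_inv, h3_muE_reps_j hij, zpow_neg, zpow_natCast]
  have h4 : H3NF i j ((omg 1 s).toMonoidHom.comp ((muE i j μ).toMonoidHom.comp Φ.toMonoidHom)) :=
    main.omg_left s fun x _ => rfl
  have h5 : H3NF i j Θ.toMonoidHom := h4.conj K fun x _ => hΘΦ x
  obtain ⟨s₁, s₂, μ', k', h⟩ := h5
  exact ⟨s₁, s₂, μ', k', h⟩

end h3

end WPP
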