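import Pool.Agent.Lib.WPR_Base

/-!
# PROJECT WPR, row h3, first part: automorphisms of a free factor of rank two
-/

namespace WPP

open FreeGroup List

section h3

variable {n : ℕ} {i j : Fin n}

theorem h3_mem_i : FreeGroup.of i ∈ FT ({i, j} : Set (Fin n)) :=
  Subgroup.subset_closure ⟨i, by simp, rfl⟩

theorem h3_mem_j : FreeGroup.of j ∈ FT ({i, j} : Set (Fin n)) :=
  Subgroup.subset_closure ⟨j, by simp, rfl⟩

/-- homomorphisms with the same values at the two letters agree -/
theorem h3_ext {G : Type} [Group G] (f f' : FreeGroup (Fin n) →* G)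
    (hi : f (FreeGroup.of i) = f' (FreeGroup.of i)) (hj : f (FreeGroup.of j) = f' (FreeGroup.of j)) :
    ∀ h ∈ FT ({i, j} : Set (Fin n)), f h = f' h := by
  intro h hh
  refine Subgroup.closure_induction (p := fun x _ => f x = f' x) ?_ ?_ ?_ ?_ hh
  · rintro x ⟨k, hk, rfl⟩
    rcases hk with rfl | hk
    · exact hi
    · rw [Set.mem_singleton_iff] at hk; subst hk; exact hj
  · simp
  · intro x y _ _ h1 h2
    rw [_root_.map_mul, _root_.map_mul, h1, h2]
  · intro x _ h1
    rw [_root_.map_inv, _root_.map_inv, h1]

theorem h3_alps (h : FreeGroup (Fin n)) :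
    (alp i j).symm h = tauHom (Aal i j) (i, false) h := by
  rw [alp, MulEquiv.symm_symm, tau_apply]

theorem h3_alps_i : (alp i j).symm (FreeGroup.of i) = FreeGroup.of i := by
  rw [h3_alps, ← lt_true]
  exact tauHom_fix _ _ _ rfl

theorem h3_alp_i : alp i j (FreeGroup.of i) = FreeGroup.of i := by
  rw [← MulEquiv.eq_symm_apply, h3_alps_i]

theorem h3_alps_j (hij : i ≠ j) : (alp i j).symm (FreeGroup.of j) =
    (FreeGroup.of i)⁻¹ * FreeGroup.of j := by
  rw [h3_alps, ← lt_true, tauHom_lt _ _ _ (fun h => hij h.symm)]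
  have h1 : Kp (Aal i j) (i, false) (j, true) = (FreeGroup.of i)⁻¹ := by
    unfold Kp
    rw [if_pos (show Aal i j (j, true) from Or.inr rfl)]
    rfl
  have h2 : Kp (Aal i j) (i, false) (bar (j, true)) = 1 := by
    unfold Kp
    rw [if_neg]
    rintro (h | h)
    · simp only [bar, Prod.mk.injEq] at h
      exact hij h.1.symm
    · simp [bar] at h
  rw [h1, h2, inv_one, mul_one]

theorem h3_alp_j (hij : i ≠ j) : alp i j (FreeGroup.of j) = FreeGroup.of i * FreeGroup.of j := by
  rw [← MulEquiv.eq_symm_apply, _root_.map_mul, h3_alps_i, h3_alps_j hij]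
  group

theorem h3_swp_i : swp i j (FreeGroup.of i) = FreeGroup.of j := by
  rw [swp, ← lt_true, omg_lt]
  simp [oml, lt_true]

theorem h3_swp_j : swp i j (FreeGroup.of j) = FreeGroup.of i := by
  rw [swp, ← lt_true, omg_lt]
  simp [oml, lt_true]

theorem h3_omg (s : Fin n → Bool) (x : Fin n) :
    omg 1 s (FreeGroup.of x) = cond (s x) (FreeGroup.of x) (FreeGroup.of x)⁻¹ := by
  rw [← lt_true, omg_lt]
  cases h : s x <;> simp [oml, h, lt_true, lt_false]

theorem h3_omg_omg (s t : Fin n → Bool) (h : FreeGroup (Fin n)) :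
    omg 1 s (omg 1 t h) = omg 1 (fun x => t x == s x) h := by
  have key : (omg 1 s).toMonoidHom.comp (omg 1 t).toMonoidHom =
      (omg 1 (fun x => t x == s x)).toMonoidHom := by
    refine FreeGroup.ext_hom _ _ fun x => ?_
    show omg 1 s (omg 1 t (FreeGroup.of x)) = omg 1 _ (FreeGroup.of x)
    rw [h3_omg, h3_omg]
    cases ht : t x <;> cases hs : s x <;> simp [h3_omg, hs]
  exact DFunLike.congr_fun key h

theorem h3_muE_append (μ ν : List Bool) (h : FreeGroup (Fin n)) :
    muE i j (μ ++ ν) h = muE i j μ (muE i j ν h) := by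
  induction μ with
  | nil => rfl
  | cons b μ ih =>
    cases b
    · show swp i j (muE i j (μ ++ ν) h) = swp i j (muE i j μ (muE i j ν h))
      rw [ih]
    · show alp i j (muE i j (μ ++ ν) h) = alp i j (muE i j μ (muE i j ν h))
      rw [ih]

theorem h3_muE_true (h : FreeGroup (Fin n)) : muE i j [true] h = alp i j h := rfl

theorem h3_muE_false (h : FreeGroup (Fin n)) : muE i j [false] h = swp i j h := rfl

theorem h3_muE_rep_i (k : ℕ) :
    muE i j (List.replicate k true) (FreeGroup.of i) = FreeGroup.of i := by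
  induction k with
  | zero => rfl
  | succ k ih =>
    show alp i j (muE i j (List.replicate k true) (FreeGroup.of i)) = _
    rw [ih, h3_alp_i]

theorem h3_muE_rep_j (hij : i ≠ j) (k : ℕ) :
    muE i j (List.replicate k true) (FreeGroup.of j) = FreeGroup.of i ^ k * FreeGroup.of j := by
  induction k with
  | zero => simp [muE]
  | succ k ih =>
    show alp i j (muE i j (List.replicate k true) (FreeGroup.of j)) = _
    rw [ih, _root_.map_mul, _root_.map_pow, h3_alp_i, h3_alp_j hij, pow_succ, mul_assoc]

theorem h3_muE_reps_i (k : ℕ) :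
    (muE i j (List.replicate k true)).symm (FreeGroup.of i) = FreeGroup.of i := by
  rw [MulEquiv.symm_apply_eq, h3_muE_rep_i]

theorem h3_muE_reps_j (hij : i ≠ j) (k : ℕ) :
    (muE i j (List.replicate k true)).symm (FreeGroup.of j) =
      (FreeGroup.of i ^ k)⁻¹ * FreeGroup.of j := by
  rw [MulEquiv.symm_apply_eq, _root_.map_mul, _root_.map_inv, _root_.map_pow, h3_muE_rep_i,
    h3_muE_rep_j hij]
  group

/-- the normal form on the free factor -/
def H3NF (i j : Fin n) (f : FreeGroup (Fin n) →* FreeGroup (Fin n)) : Prop :=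
  ∃ (s₁ s₂ : Fin n → Bool) (μ : List Bool) (k : FreeGroup (Fin n)),
    ∀ h ∈ FT ({i, j} : Set (Fin n)), f h = k * omg 1 s₁ (muE i j μ (omg 1 s₂ h)) * k⁻¹

theorem h3_omg_one (h : FreeGroup (Fin n)) : omg 1 (fun _ => true) h = h := by
  have key : (omg 1 (fun _ => true)).toMonoidHom = MonoidHom.id (FreeGroup (Fin n)) := by
    refine FreeGroup.ext_hom _ _ fun x => ?_
    show omg 1 (fun _ => true) (FreeGroup.of x) = FreeGroup.of x
    rw [h3_omg]
    rfl
  exact DFunLike.congr_fun key h

theorem H3NF.of_muE (μ : List Bool) (g : FreeGroup (Fin n)) (s₂ : Fin n → Bool)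
    (f : FreeGroup (Fin n) →* FreeGroup (Fin n))
    (h : ∀ h ∈ FT ({i, j} : Set (Fin n)), f h = g * muE i j μ (omg 1 s₂ h) * g⁻¹) : H3NF i j f :=
  ⟨fun _ => true, s₂, μ, g, fun x hx => by rw [h x hx, h3_omg_one]⟩

theorem H3NF.conj {f f' : FreeGroup (Fin n) →* FreeGroup (Fin n)} (hf : H3NF i j f)
    (g : FreeGroup (Fin n)) (h : ∀ h ∈ FT ({i, j} : Set (Fin n)), f' h = g * f h * g⁻¹) :
    H3NF i j f' := by
  obtain ⟨s₁, s₂, μ, k, hk⟩ := hf
  refine ⟨s₁, s₂, μ, g * k, fun x hx => ?_⟩
  rw [h x hx, hk x hx]
  group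

theorem H3NF.congr {f f' : FreeGroup (Fin n) →* FreeGroup (Fin n)} (hf : H3NF i j f)
    (h : ∀ h ∈ FT ({i, j} : Set (Fin n)), f' h = f h) : H3NF i j f' :=
  hf.conj 1 fun x hx => by rw [h x hx]; group

theorem H3NF.omg_left {f f' : FreeGroup (Fin n) →* FreeGroup (Fin n)} (hf : H3NF i j f)
    (s : Fin n → Bool) (h : ∀ h ∈ FT ({i, j} : Set (Fin n)), f' h = omg 1 s (f h)) :
    H3NF i j f' := by
  obtain ⟨s₁, s₂, μ, k, hk⟩ := hf
  refine ⟨fun x => s₁ x == s x, s₂, μ, omg 1 s k, fun x hx => ?_⟩
  rw [h x hx, hk x hx, _root_.map_mul, _root_.map_mul, _root_.map_inv, h3_omg_omg]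

theorem h3_omg_mem (s : Fin n → Bool) {T : Set (Fin n)} (h : FreeGroup (Fin n)) (hh : h ∈ FT T) :
    omg 1 s h ∈ FT T := by
  refine Subgroup.closure_induction (p := fun x _ => omg 1 s x ∈ FT T) ?_ ?_ ?_ ?_ hh
  · rintro x ⟨k, hk, rfl⟩
    rw [h3_omg]
    have h1 : FreeGroup.of k ∈ FT T := Subgroup.subset_closure ⟨k, hk, rfl⟩
    cases s k
    · exact inv_mem h1
    · exact h1
  · rw [_root_.map_one]; exact one_mem _
  · intro x y _ _ h1 h2
    rw [_root_.map_mul]; exact mul_mem h1 h2
  · intro x _ h1
    rw [_root_.map_inv]; exact inv_mem h1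

theorem H3NF.omg_right {f f' : FreeGroup (Fin n) →* FreeGroup (Fin n)} (hf : H3NF i j f)
    (s : Fin n → Bool) (h : ∀ h ∈ FT ({i, j} : Set (Fin n)), f' h = f (omg 1 s h)) :
    H3NF i j f' := by
  obtain ⟨s₁, s₂, μ, k, hk⟩ := hf
  refine ⟨s₁, fun x => s x == s₂ x, μ, k, fun x hx => ?_⟩
  rw [h x hx, hk _ (h3_omg_mem s x hx), h3_omg_omg]

/-- sign change of one letter -/
def h3_sg (i : Fin n) : Fin n → Bool := fun x => decide (x ≠ i)

theorem h3_sg_self (i : Fin n) : h3_sg i i = false := by simp [h3_sg]

theorem h3_sg_ne {i j : Fin n} (h : i ≠ j) : h3_sg i j = true := by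
  simp only [h3_sg, decide_eq_true_eq]
  exact fun h' => h h'.symm

theorem h3_neg (hij : i ≠ j) : ∀ (N : ℕ) (μ : List Bool) (k : ℕ), μ.length ≤ N →
    H3NF i j ((muE i j μ).toMonoidHom.comp (muE i j (List.replicate k true)).symm.toMonoidHom) := by
  intro N
  induction N using Nat.strong_induction_on with
  | _ N ih =>
  intro μ k hμ
  rcases k with _ | k
  · refine H3NF.of_muE μ 1 (fun _ => true) _ fun x hx => ?_
    rw [h3_omg_one]
    show muE i j μ x = _
    group
  -- the last letter
  rcases List.eq_nil_or_concat μ with rfl | ⟨ν, b, rfl⟩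
  · refine ⟨h3_sg i, h3_sg i, List.replicate (k + 1) true, 1, ?_⟩
    have key := h3_ext (i := i) (j := j)
      ((muE i j ([] : List Bool)).toMonoidHom.comp
        (muE i j (List.replicate (k + 1) true)).symm.toMonoidHom)
      ((omg 1 (h3_sg i)).toMonoidHom.comp ((muE i j (List.replicate (k + 1) true)).toMonoidHom.comp
        (omg 1 (h3_sg i)).toMonoidHom)) ?_ ?_
    · intro x hx
      rw [key x hx]
      show omg 1 (h3_sg i) (muE i j (List.replicate (k + 1) true) (omg 1 (h3_sg i) x)) = _
      group
    · show (muE i j (List.replicate (k + 1) true)).symm (FreeGroup.of i) =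
        omg 1 (h3_sg i) (muE i j (List.replicate (k + 1) true) (omg 1 (h3_sg i) (FreeGroup.of i)))
      rw [h3_muE_reps_i, h3_omg, h3_sg_self]
      simp only [cond_false]
      rw [_root_.map_inv, h3_muE_rep_i, _root_.map_inv, h3_omg, h3_sg_self]
      simp
    · show (muE i j (List.replicate (k + 1) true)).symm (FreeGroup.of j) =
        omg 1 (h3_sg i) (muE i j (List.replicate (k + 1) true) (omg 1 (h3_sg i) (FreeGroup.of j)))
      rw [h3_muE_reps_j hij, h3_omg, h3_sg_ne hij]
      simp only [cond_true]
      rw [h3_muE_rep_j hij, _root_.map_mul, _root_.map_pow, h3_omg, h3_omg, h3_sg_self, h3_sg_ne hij]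
      simp only [cond_true, cond_false]
      rw [inv_pow]
  · rw [List.concat_eq_append] at hμ ⊢
    rw [List.length_append, List.length_singleton] at hμ
    rcases b with _ | _
    · -- the last letter is a swap
      rcases List.eq_nil_or_concat ν with rfl | ⟨ν', b', rfl⟩
      · refine ⟨h3_sg j, h3_sg i, false :: List.replicate (k + 1) true, 1, ?_⟩
        have key := h3_ext (i := i) (j := j)
          ((muE i j ([] ++ [false] : List Bool)).toMonoidHom.comp
            (muE i j (List.replicate (k + 1) true)).symm.toMonoidHom)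
          ((omg 1 (h3_sg j)).toMonoidHom.comp
            ((muE i j (false :: List.replicate (k + 1) true)).toMonoidHom.comp
            (omg 1 (h3_sg i)).toMonoidHom)) ?_ ?_
        · intro x hx
          rw [key x hx]
          show omg 1 (h3_sg j) (muE i j (false :: List.replicate (k + 1) true) (omg 1 (h3_sg i) x)) = _
          group
        · show swp i j ((muE i j (List.replicate (k + 1) true)).symm (FreeGroup.of i)) =
            omg 1 (h3_sg j) (swp i j (muE i j (List.replicate (k + 1) true)
              (omg 1 (h3_sg i) (FreeGroup.of i))))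
          rw [h3_muE_reps_i, h3_omg, h3_sg_self]
          simp only [cond_false]
          rw [_root_.map_inv, h3_muE_rep_i, _root_.map_inv, _root_.map_inv, h3_swp_i, h3_omg, h3_sg_self]
          simp
        · show swp i j ((muE i j (List.replicate (k + 1) true)).symm (FreeGroup.of j)) =
            omg 1 (h3_sg j) (swp i j (muE i j (List.replicate (k + 1) true)
              (omg 1 (h3_sg i) (FreeGroup.of j))))
          rw [h3_muE_reps_j hij, h3_omg, h3_sg_ne hij]
          simp only [cond_true]
          rw [h3_muE_rep_j hij, _root_.map_mul, _root_.map_mul, _root_.map_mul, _root_.map_inv,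
            _root_.map_pow, _root_.map_pow, h3_swp_i, h3_swp_j,
            h3_omg, h3_omg, h3_sg_self, h3_sg_ne (Ne.symm hij)]
          simp only [cond_true, cond_false]
          rw [inv_pow]
      · rw [List.concat_eq_append] at hμ ⊢
        rw [List.length_append, List.length_singleton] at hμ
        rcases b' with _ | _
        · -- two swaps
          refine (ih (N - 2) (by omega) ν' (k + 1) (by omega)).congr ?_
          refine h3_ext _ _ ?_ ?_
          · show muE i j ((ν' ++ [false]) ++ [false]) _ = muE i j ν' _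
            rw [h3_muE_append, h3_muE_append, h3_muE_false, h3_muE_false]
            show muE i j ν' (swp i j (swp i j ((muE i j (List.replicate (k + 1) true)).symm
              (FreeGroup.of i)))) = muE i j ν' ((muE i j (List.replicate (k + 1) true)).symm
              (FreeGroup.of i))
            rw [h3_muE_reps_i, h3_swp_i, h3_swp_j]
          · show muE i j ((ν' ++ [false]) ++ [false]) _ = muE i j ν' _
            rw [h3_muE_append, h3_muE_append, h3_muE_false, h3_muE_false]
            show muE i j ν' (swp i j (swp i j ((muE i j (List.replicate (k + 1) true)).symm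
              (FreeGroup.of j)))) = muE i j ν' ((muE i j (List.replicate (k + 1) true)).symm
              (FreeGroup.of j))
            rw [h3_muE_reps_j hij]
            simp only [_root_.map_mul, _root_.map_inv, _root_.map_pow, h3_swp_i, h3_swp_j]
        · -- alpha, swap
          set a := FreeGroup.of i with ha
          set b := FreeGroup.of j with hb
          refine H3NF.of_muE (ν' ++ ([false, true, false] ++ List.replicate k true))
            (muE i j ν' (b⁻¹ * ((b * a) ^ k)⁻¹)) (h3_sg j) _ ?_
          have hP : (a * b) ^ k = b⁻¹ * (b * a) ^ k * b := by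
            have h1 : a * b = b⁻¹ * (b * a) * (b⁻¹)⁻¹ := by group
            rw [h1, conj_pow, inv_inv]
          have key := h3_ext (i := i) (j := j)
            ((muE i j ((ν' ++ [true]) ++ [false])).toMonoidHom.comp
              (muE i j (List.replicate (k + 1) true)).symm.toMonoidHom)
            ((MulAut.conj (muE i j ν' (b⁻¹ * ((b * a) ^ k)⁻¹))).toMonoidHom.comp
              ((muE i j (ν' ++ ([false, true, false] ++ List.replicate k true))).toMonoidHom.comp
              (omg 1 (h3_sg j)).toMonoidHom)) ?_ ?_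
          · intro x hx
            rw [key x hx]
            rfl
          · show muE i j ((ν' ++ [true]) ++ [false])
                ((muE i j (List.replicate (k + 1) true)).symm (FreeGroup.of i)) =
              (muE i j ν' (b⁻¹ * ((b * a) ^ k)⁻¹)) *
              (muE i j (ν' ++ ([false, true, false] ++ List.replicate k true))
                (omg 1 (h3_sg j) (FreeGroup.of i))) * (muE i j ν' (b⁻¹ * ((b * a) ^ k)⁻¹))⁻¹
            rw [h3_muE_append, h3_muE_append, h3_muE_append, h3_muE_append, h3_muE_false, h3_muE_true, h3_muE_reps_i,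
              h3_omg, h3_sg_ne (Ne.symm hij)]
            simp only [cond_true]
            rw [h3_muE_rep_i]
            show muE i j ν' (alp i j (swp i j (FreeGroup.of i))) = _ * muE i j ν'
              (swp i j (alp i j (swp i j (FreeGroup.of i)))) * _
            rw [h3_swp_i, h3_alp_j hij, ← _root_.map_mul, ← _root_.map_inv, ← _root_.map_mul,
              _root_.map_mul (swp i j), h3_swp_i, h3_swp_j, ← ha, ← hb]
            congr 1
            have h2 : (b * a) ^ k * (b * a) = (b * a) * (b * a) ^ k :=
              (Commute.refl (b * a)).pow_left k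
            generalize (b * a) ^ k = P at h2
            have h3 : P⁻¹ * (b * a) * P = b * a := by
              rw [mul_assoc, ← h2]; group
            calc a * b = b⁻¹ * (b * a) * b := by group
              _ = b⁻¹ * (P⁻¹ * (b * a) * P) * b := by rw [h3]
              _ = _ := by group
          · show muE i j ((ν' ++ [true]) ++ [false])
                ((muE i j (List.replicate (k + 1) true)).symm (FreeGroup.of j)) =
              (muE i j ν' (b⁻¹ * ((b * a) ^ k)⁻¹)) *
              (muE i j (ν' ++ ([false, true, false] ++ List.replicate k true))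
                (omg 1 (h3_sg j) (FreeGroup.of j))) * (muE i j ν' (b⁻¹ * ((b * a) ^ k)⁻¹))⁻¹
            rw [h3_muE_append, h3_muE_append, h3_muE_append, h3_muE_append, h3_muE_false, h3_muE_true,
              h3_muE_reps_j hij, h3_omg, h3_sg_self]
            simp only [cond_false]
            rw [_root_.map_inv, h3_muE_rep_j hij]
            show muE i j ν' (alp i j (swp i j ((FreeGroup.of i ^ (k + 1))⁻¹ * FreeGroup.of j))) =
              _ * muE i j ν' (swp i j (alp i j (swp i j ((FreeGroup.of i ^ k *
                FreeGroup.of j)⁻¹)))) * _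
            simp only [_root_.map_mul (swp i j), _root_.map_inv (swp i j),
              _root_.map_pow (swp i j), _root_.map_mul (alp i j), _root_.map_inv (alp i j),
              _root_.map_pow (alp i j), h3_swp_i, h3_swp_j, h3_alp_i, h3_alp_j hij]
            rw [← _root_.map_mul, ← _root_.map_inv, ← _root_.map_mul, ← ha, ← hb]
            congr 1
            rw [pow_succ', hP]
            group
    · -- the last letter is alpha
      refine (ih (N - 1) (by omega) ν k (by omega)).congr ?_
      intro x _
      show muE i j (ν ++ [true]) ((muE i j (List.replicate (k + 1) true)).symm x) =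
        muE i j ν ((muE i j (List.replicate k true)).symm x)
      rw [h3_muE_append, h3_muE_true]
      congr 1
      have h1 : ∀ y, muE i j (List.replicate (k + 1) true) y =
          muE i j (List.replicate k true) (alp i j y) := by
        intro y
        rw [List.replicate_succ', h3_muE_append]
        rfl
      rw [MulEquiv.eq_symm_apply, ← h1, MulEquiv.apply_symm_apply]

/-- `FT {i, j}` is mapped onto itself -/
theorem h3_map (e : FreeGroup (Fin n) ≃* FreeGroup (Fin n)) {T : Set (Fin n)}
    (h1 : ∀ x ∈ T, e (FreeGroup.of x) ∈ FT T) (h2 : ∀ x ∈ T, e.symm (FreeGroup.of x) ∈ FT T) :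
    (FT T).map e.toMonoidHom = FT T := by
  have key : ∀ (f : FreeGroup (Fin n) ≃* FreeGroup (Fin n)),
      (∀ x ∈ T, f (FreeGroup.of x) ∈ FT T) → ∀ g ∈ FT T, f g ∈ FT T := by
    intro f hf g hg
    refine Subgroup.closure_induction (p := fun x _ => f x ∈ FT T) ?_ ?_ ?_ ?_ hg
    · rintro x ⟨k, hk, rfl⟩
      exact hf k hk
    · rw [_root_.map_one]; exact one_mem _
    · intro x y _ _ h1 h2
      rw [_root_.map_mul]; exact mul_mem h1 h2
    · intro x _ h1
      rw [_root_.map_inv]; exact inv_mem h1
  apply le_antisymm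
  · rintro _ ⟨g, hg, rfl⟩
    exact key e h1 g hg
  · intro g hg
    exact ⟨e.symm g, key e.symm h2 g hg, e.apply_symm_apply g⟩

theorem h3_mem_of_map {e : FreeGroup (Fin n) ≃* FreeGroup (Fin n)} {T : Set (Fin n)}
    (h : (FT T).map e.toMonoidHom = FT T) {g : FreeGroup (Fin n)} (hg : g ∈ FT T) :
    e g ∈ FT T ∧ e.symm g ∈ FT T := by
  constructor
  · rw [← h]
    exact ⟨g, hg, rfl⟩
  · rw [← h] at hg
    obtain ⟨y, hy, rfl⟩ := hg
    have : e.symm (e.toMonoidHom y) = y := e.symm_apply_apply y
    rw [this]
    exact hy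

theorem h3_map_muE (hij : i ≠ j) (μ : List Bool) :
    (FT ({i, j} : Set (Fin n))).map (muE i j μ).toMonoidHom = FT {i, j} := by
  have mi : FreeGroup.of i ∈ FT ({i, j} : Set (Fin n)) := h3_mem_i
  have mj : FreeGroup.of j ∈ FT ({i, j} : Set (Fin n)) := h3_mem_j
  have ha : (FT ({i, j} : Set (Fin n))).map (alp i j).toMonoidHom = FT {i, j} := by
    apply h3_map
    · rintro x (rfl | hx)
      · rw [h3_alp_i]; exact mi
      · rw [Set.mem_singleton_iff] at hx; subst hx
        rw [h3_alp_j hij]; exact mul_mem mi mj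
    · rintro x (rfl | hx)
      · rw [h3_alps_i]; exact mi
      · rw [Set.mem_singleton_iff] at hx; subst hx
        rw [h3_alps_j hij]; exact mul_mem (inv_mem mi) mj
  have hs : (FT ({i, j} : Set (Fin n))).map (swp i j).toMonoidHom = FT {i, j} := by
    have e1 : (swp i j).symm (FreeGroup.of i) = FreeGroup.of j := by
      rw [MulEquiv.symm_apply_eq, h3_swp_j]
    have e2 : (swp i j).symm (FreeGroup.of j) = FreeGroup.of i := by
      rw [MulEquiv.symm_apply_eq, h3_swp_i]
    apply h3_map
    · rintro x (rfl | hx)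
      · rw [h3_swp_i]; exact mj
      · rw [Set.mem_singleton_iff] at hx; subst hx
        rw [h3_swp_j]; exact mi
    · rintro x (rfl | hx)
      · rw [e1]; exact mj
      · rw [Set.mem_singleton_iff] at hx; subst hx
        rw [e2]; exact mi
  induction μ with
  | nil =>
    exact h3_map _ (fun x hx => Subgroup.subset_closure ⟨x, hx, rfl⟩)
      (fun x hx => Subgroup.subset_closure ⟨x, hx, rfl⟩)
  | cons b μ ih =>
    apply h3_map
    · intro x hx
      have h1 := (h3_mem_of_map ih (g := FreeGroup.of x)
        (Subgroup.subset_closure ⟨x, hx, rfl⟩)).1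
      cases b
      · exact (h3_mem_of_map hs h1).1
      · exact (h3_mem_of_map ha h1).1
    · intro x hx
      have h0 : FreeGroup.of x ∈ FT ({i, j} : Set (Fin n)) :=
        Subgroup.subset_closure ⟨x, hx, rfl⟩
      cases b
      · exact (h3_mem_of_map ih (h3_mem_of_map hs h0).2).2
      · exact (h3_mem_of_map ih (h3_mem_of_map ha h0).2).2

theorem h3_map_omg (s : Fin n → Bool) (T : Set (Fin n)) :
    (FT T).map (omg 1 s).toMonoidHom = FT T := by
  apply h3_map
  · intro x hx
    exact h3_omg_mem s _ (Subgroup.subset_closure ⟨x, hx, rfl⟩)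
  · intro x hx
    have h1 : (omg 1 s).symm (FreeGroup.of x) = omg 1 s (FreeGroup.of x) := by
      rw [MulEquiv.symm_apply_eq, h3_omg_omg]
      have : (fun y => s y == s y) = fun _ => true := by funext y; simp
      rw [this, h3_omg_one]
    rw [h1]
    exact h3_omg_mem s _ (Subgroup.subset_closure ⟨x, hx, rfl⟩)

/-- the retraction onto `FT T` -/
theorem h3_retract (T : Set (Fin n)) : ∃ r : FreeGroup (Fin n) →* FreeGroup (Fin n),
    (∀ g, r g ∈ FT T) ∧ ∀ g ∈ FT T, r g = g := by
  classical
  refine ⟨FreeGroup.lift fun x => if x ∈ T then FreeGroup.of x else 1, ?_, ?_⟩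
  · intro g
    induction g using FreeGroup.induction_on with
    | C1 => rw [_root_.map_one]; exact one_mem _
    | of x =>
      rw [FreeGroup.lift_apply_of]
      split_ifs with h
      · exact Subgroup.subset_closure ⟨x, h, rfl⟩
      · exact one_mem _
    | inv_of x ih => rw [_root_.map_inv]; exact inv_mem ih
    | mul x y h1 h2 => rw [_root_.map_mul]; exact mul_mem h1 h2
  · intro g hg
    refine Subgroup.closure_induction (p := fun x _ => FreeGroup.lift
      (fun x => if x ∈ T then FreeGroup.of x else 1) x = x) ?_ ?_ ?_ ?_ hg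
    · rintro x ⟨k, hk, rfl⟩
      rw [FreeGroup.lift_apply_of, if_pos hk]
    · rw [_root_.map_one]
    · intro x y _ _ h1 h2
      rw [_root_.map_mul, h1, h2]
    · intro x _ h1
      rw [_root_.map_inv, h1]

/-- the letters of an element of `FT T` -/
theorem h3_letters {T : Set (Fin n)} {g : FreeGroup (Fin n)} (hg : g ∈ FT T) :
    ∀ d ∈ g.toWord, d.1 ∈ T := by
  refine Subgroup.closure_induction (p := fun x _ => ∀ d ∈ x.toWord, d.1 ∈ T) ?_ ?_ ?_ ?_ hg
  · rintro x ⟨k, hk, rfl⟩ d hd
    rw [FreeGroup.toWord_of, List.mem_singleton] at hd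
    rw [hd]; exact hk
  · intro d hd
    simp at hd
  · intro x y _ _ h1 h2 d hd
    have h3 := (FreeGroup.toWord_mul_sublist x y).subset hd
    rcases List.mem_append.1 h3 with h | h
    · exact h1 d h
    · exact h2 d h
  · intro x _ h1 d hd
    rw [FreeGroup.toWord_inv, FreeGroup.invRev, List.mem_reverse, List.mem_map] at hd
    obtain ⟨e, he, rfl⟩ := hd
    exact h1 e he

end h3

end WPP
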