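import Pool.Agent.Lib.WPR_Base

/-!
# WPR, row i1: short chains of transitions
-/

namespace WPP

open FreeGroup List

namespace I1

theorem chain_of_rtg {α : Type} (r : α → α → Prop) (a b : α)
    (h : Relation.ReflTransGen r a b) :
    ∃ l : List α, List.IsChain r (a :: l) ∧ (a :: l).getLast (List.cons_ne_nil _ _) = b := by
  induction h using Relation.ReflTransGen.head_induction_on with
  | refl => exact ⟨[], List.isChain_singleton _, rfl⟩
  | head hab _ ih =>
    obtain ⟨l, hl, hb⟩ := ih
    exact ⟨_ :: l, List.isChain_cons_cons.2 ⟨hab, hl⟩, by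
      rw [List.getLast_cons (List.cons_ne_nil _ _)]; exact hb⟩

/-- a chain with a repeated entry can be shortened -/
theorem shorten {α : Type} (r : α → α → Prop) (a : α) (l : List α)
    (hl : List.IsChain r (a :: l)) (hd : ¬ (a :: l).Nodup) :
    ∃ l' : List α, List.IsChain r (a :: l') ∧ l'.length < l.length ∧
      (a :: l').getLast (List.cons_ne_nil _ _) = (a :: l).getLast (List.cons_ne_nil _ _) := by
  induction l generalizing a with
  | nil => exact absurd (List.nodup_singleton a) hd
  | cons c l ih =>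
    by_cases ha : a ∈ c :: l
    · obtain ⟨s, t, hst⟩ := List.append_of_mem ha
      refine ⟨t, ?_, ?_, ?_⟩
      · have h1 : List.IsChain r (a :: (s ++ a :: t)) := by rw [← hst]; exact hl
        have h2 : List.IsChain r ((a :: s) ++ (a :: t)) := h1
        exact (List.isChain_append.1 h2).2.1
      · rw [hst]; simp; omega
      · have : (a :: c :: l) = (a :: s) ++ (a :: t) := by rw [hst]; rfl
        simp only [this]
        rw [List.getLast_append_of_ne_nil _ (List.cons_ne_nil _ _)]
    · have hd' : ¬ (c :: l).Nodup := fun h => hd (List.nodup_cons.2 ⟨ha, h⟩)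
      obtain ⟨l', h1, h2, h3⟩ := ih c (List.isChain_cons_cons.1 hl).2 hd'
      refine ⟨c :: l', List.isChain_cons_cons.2 ⟨(List.isChain_cons_cons.1 hl).1, h1⟩, by
        simpa using h2, ?_⟩
      rw [List.getLast_cons (List.cons_ne_nil _ _), List.getLast_cons (List.cons_ne_nil _ _)]
      exact h3

theorem nodup_chain {α : Type} (r : α → α → Prop) (a b : α) (k : ℕ) :
    ∀ l : List α, l.length = k → List.IsChain r (a :: l) →
      (a :: l).getLast (List.cons_ne_nil _ _) = b →
    ∃ l : List α, List.IsChain r (a :: l) ∧ (a :: l).getLast (List.cons_ne_nil _ _) = b ∧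
      (a :: l).Nodup := by
  induction k using Nat.strong_induction_on with
  | _ k ih =>
    intro l hk hl hb
    by_cases hd : (a :: l).Nodup
    · exact ⟨l, hl, hb, hd⟩
    · obtain ⟨l', h1, h2, h3⟩ := shorten r a l hl hd
      exact ih l'.length (hk ▸ h2) l' rfl h1 (h3.trans hb)

theorem card_cfg (n M : ℕ) : Nat.card (Cfg n M) = bnd n M := by
  classical
  unfold Cfg bnd
  rw [Nat.card_prod, Nat.card_fun, Nat.card_fun, Nat.card_fun]
  have h : Fintype.card (Ltr n) = 2 * n := by
    simp [Ltr, Fintype.card_prod, mul_comm]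
  simp only [Nat.card_eq_fintype_card, Fintype.card_fin, Fintype.card_prop]
  rw [← pow_mul, h]

theorem es_of_chain {n M : ℕ} (l : List (Cfg n M)) : ∀ (c : Cfg n M)
    (S : Subgroup (FreeGroup (Fin n))), SndC S c → List.IsChain Tr (c :: l) →
    ∃ es : List (FreeGroup (Fin n) ≃* FreeGroup (Fin n)), es.length = l.length ∧
      (∀ e ∈ es, Short e) ∧
      SndC (S.map (cmp es).symm.toMonoidHom) ((c :: l).getLast (List.cons_ne_nil _ _)) := by
  induction l with
  | nil =>
    intro c S hS _
    refine ⟨[], rfl, by simp, ?_⟩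
    have : S.map (cmp ([] : List (FreeGroup (Fin n) ≃* FreeGroup (Fin n)))).symm.toMonoidHom
        = S := by
      ext x
      simp [cmp]
    rw [this]
    exact hS
  | cons c1 l ih =>
    intro c S hS hc
    obtain ⟨h1, h2⟩ := List.isChain_cons_cons.1 hc
    obtain ⟨e, he, hE⟩ := h1
    obtain ⟨es, hlen, hsh, hsnd⟩ := ih c1 _ (hE S hS) h2
    refine ⟨e.symm :: es, by simp [hlen], ?_, ?_⟩
    · intro f hf
      rcases List.mem_cons.1 hf with rfl | hf
      · exact he
      · exact hsh f hf
    · rw [List.getLast_cons (List.cons_ne_nil _ _)]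
      have : S.map (cmp (e.symm :: es)).symm.toMonoidHom =
          (S.map e.toMonoidHom).map (cmp es).symm.toMonoidHom := by
        rw [Subgroup.map_map]
        rfl
      rw [this]
      exact hsnd

end I1

theorem exists_short_chain {α : Type} [Fintype α] (r : α → α → Prop) (a b : α)
    (h : Relation.ReflTransGen r a b) :
    ∃ l : List α, List.IsChain r (a :: l) ∧ (a :: l).getLast (List.cons_ne_nil _ _) = b ∧
      l.length ≤ Fintype.card α := by
  obtain ⟨l, h1, h2⟩ := I1.chain_of_rtg r a b h
  obtain ⟨l', h1, h2, h3⟩ := I1.nodup_chain r a b l.length l rfl h1 h2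
  refine ⟨l', h1, h2, ?_⟩
  have := h3.length_le_card
  simp only [List.length_cons] at this
  omega

theorem es_of_tr {n M : ℕ} (c c' : Cfg n M) (h : Relation.ReflTransGen Tr c c')
    (S : Subgroup (FreeGroup (Fin n))) (hS : SndC S c) :
    ∃ es : List (FreeGroup (Fin n) ≃* FreeGroup (Fin n)), es.length ≤ bnd n M ∧
      (∀ e ∈ es, Short e) ∧ SndC (S.map (cmp es).symm.toMonoidHom) c' := by
  classical
  obtain ⟨l, h1, h2, h3⟩ := exists_short_chain Tr c c' h
  obtain ⟨es, hlen, hsh, hsnd⟩ := I1.es_of_chain l c S hS h1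
  refine ⟨es, ?_, hsh, h2 ▸ hsnd⟩
  rw [hlen, ← I1.card_cfg, Nat.card_eq_fintype_card]
  exact h3

end WPP
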