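import Pool.Agent.Lib.WPR_f1
import Pool.Agent.Lib.WPR_f2

/-! PROJECT WPR, row i2: accepted words give conjugates, the two kinds of transitions -/

namespace WPP

open FreeGroup List

theorem i2_chain {n : ℕ} {β : Type} (S : Subgroup (FreeGroup (Fin n))) (lab : β → Ltr n)
    (R : β → β → Prop) (pre : β → FreeGroup (Fin n)) (h : Sound S lab R pre) :
    ∀ (l : List β) (a : β), List.IsChain R (a :: l) → ∀ b, (a :: l).getLast? = some b →
      pre a * FreeGroup.mk ((a :: l).map lab) * (lt (lab b))⁻¹ * (pre b)⁻¹ ∈ S := by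
  intro l
  induction l with
  | nil =>
    intro a _ b hb
    simp only [List.getLast?_singleton, Option.some.injEq] at hb
    subst hb
    have e : pre a * FreeGroup.mk (List.map lab [a]) * (lt (lab a))⁻¹ * (pre a)⁻¹ = 1 := by
      show pre a * lt (lab a) * (lt (lab a))⁻¹ * (pre a)⁻¹ = 1
      group
    rw [e]
    exact S.one_mem
  | cons c l ih =>
    intro a hc b hb
    rw [List.isChain_cons_cons] at hc
    have hb' : (c :: l).getLast? = some b := by
      rw [List.getLast?_cons_cons] at hb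
      exact hb
    have h1 := ih c hc.2 b hb'
    have h2 := h a c hc.1
    have h3 := S.mul_mem h2 h1
    have e : pre a * lt (lab a) * (pre c)⁻¹ *
        (pre c * FreeGroup.mk ((c :: l).map lab) * (lt (lab b))⁻¹ * (pre b)⁻¹) =
        pre a * FreeGroup.mk ((a :: c :: l).map lab) * (lt (lab b))⁻¹ * (pre b)⁻¹ := by
      have e2 : FreeGroup.mk ((a :: c :: l).map lab) =
          lt (lab a) * FreeGroup.mk ((c :: l).map lab) := by
        unfold lt
        rw [FreeGroup.mul_mk]
        rfl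
      rw [e2]
      group
    rwa [e] at h3

theorem snd_acc {n M : ℕ} (S : Subgroup (FreeGroup (Fin n))) (c : Cfg n M) (hS : SndC S c)
    (w : Word n) (h : Acc c.1 c.2 w) : ∃ k, k * FreeGroup.mk w * k⁻¹ ∈ S := by
  obtain ⟨pre, hpre⟩ := hS
  obtain ⟨l, rfl, hch, hcl⟩ := h
  cases l with
  | nil =>
    refine ⟨1, ?_⟩
    have e : (1 : FreeGroup (Fin n)) * FreeGroup.mk (List.map c.1 []) * 1⁻¹ = 1 := by
      simp [FreeGroup.one_eq_mk]
    rw [e]
    exact S.one_mem
  | cons a l =>
    obtain ⟨b, hb⟩ : ∃ b, (a :: l).getLast? = some b :=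
      ⟨_, List.getLast?_eq_some_getLast (List.cons_ne_nil a l)⟩
    have h1 := i2_chain S c.1 c.2 pre hpre l a hch b hb
    have h2 : c.2 b a := hcl b (by rw [hb]; rfl) a rfl
    have h3 := S.mul_mem h1 (hpre b a h2)
    refine ⟨pre a, ?_⟩
    have e : pre a * FreeGroup.mk ((a :: l).map c.1) * (lt (c.1 b))⁻¹ * (pre b)⁻¹ *
        (pre b * lt (c.1 b) * (pre a)⁻¹) =
        pre a * FreeGroup.mk ((a :: l).map c.1) * (pre a)⁻¹ := by
      group
    rwa [e] at h3

theorem i2_short_tau {n : ℕ} (A : Ltr n → Prop) (x : Ltr n) : Short (tau A x).symm := by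
  intro i
  rw [tau_symm_apply, ← lt_true]
  by_cases h : i = (bar x).1
  · rw [tauHom_fix A (bar x) (i, true) h]
    unfold lt
    refine le_trans (FreeGroup.norm_mk_le) ?_
    simp
  · rw [tauHom_lt A (bar x) (i, true) h]
    have hK : ∀ d, (Kp A (bar x) d).norm ≤ 1 := by
      classical
      intro d
      unfold Kp
      split_ifs
      · unfold lt
        exact FreeGroup.norm_mk_le
      · simp
    have h1 := FreeGroup.norm_mul_le (Kp A (bar x) (i, true) * lt (i, true))
      (Kp A (bar x) (bar (i, true)))⁻¹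
    have h2 := FreeGroup.norm_mul_le (Kp A (bar x) (i, true)) (lt (i, true))
    have h3 : (lt ((i, true) : Ltr n)).norm ≤ 1 := by
      unfold lt
      exact FreeGroup.norm_mk_le
    rw [FreeGroup.norm_inv_eq] at h1
    have h4 := hK (i, true)
    have h5 := hK (bar (i, true))
    show FreeGroup.norm _ ≤ 3
    omega

theorem i2_short_omg {n : ℕ} (σ : Equiv.Perm (Fin n)) (s : Fin n → Bool) :
    Short (omg σ s).symm := by
  intro i
  have e : (omg σ s).symm (FreeGroup.of i) =
      lt (oml σ.symm (fun i => s (σ.symm i)) (i, true)) := by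
    show omgHom σ.symm (fun i => s (σ.symm i)) (FreeGroup.of i) = _
    rw [← lt_true, omgHom_lt]
  rw [e]
  have h3 : ∀ d : Ltr n, (lt d).norm ≤ 1 := by
    intro d
    unfold lt
    exact FreeGroup.norm_mk_le
  exact le_trans (h3 _) (by norm_num)

theorem tr_mv2 {n M N : ℕ} (c : Cfg n M) (w : Word n) (hst : St N c w) (A : Ltr n → Prop)
    (x : Ltr n) (hx : A x) (hbx : ¬ A (bar x)) (ht : Turn A x w) :
    ∃ (c' : Cfg n M) (w' : Word n), Tr c c' ∧ St N c' w' ∧
      Cj (FreeGroup.mk w') (tau A x (FreeGroup.mk w)) ∧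
      (Cut A x w → w'.length < w.length) := by
  obtain ⟨hw, hne, l, hl, ⟨hch, hcl⟩, hcard⟩ := hst
  obtain ⟨w', hw', -, hlt, hne', hcj, hacc⟩ := move_word2 w hw A x hx hbx ht
  obtain ⟨l', hl', hcyc'⟩ := hacc (Fin M) c.1 (fun a b => c.2 a b ∧ a ∈ l ∧ b ∈ l)
    ⟨l, hl, by
      have := hch
      rw [List.isChain_iff_getElem] at this ⊢
      intro i hi
      exact ⟨this i hi, List.getElem_mem _, List.getElem_mem _⟩, by
      intro a ha b hb
      refine ⟨hcl a ha b hb, List.mem_of_getLast? (by simpa using ha),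
        List.mem_of_head? (by simpa using hb)⟩⟩
  have hmem : ∀ a b, mv c.1 A x (fun a b => c.2 a b ∧ a ∈ l ∧ b ∈ l) a b → a ∈ l ∧ b ∈ l := by
    rintro a b (⟨h, -⟩ | ⟨m, h1, h2, -⟩)
    · exact h.2
    · exact ⟨h1.2.1, h2.2.2⟩
  refine ⟨(c.1, mv c.1 A x (fun a b => c.2 a b ∧ a ∈ l ∧ b ∈ l)), w', ?_, ?_, hcj, hlt⟩
  · refine ⟨tau A x, i2_short_tau A x, ?_⟩
    rintro S ⟨pre, hpre⟩
    exact sound_mv2 S c.1 _ pre (fun a b hab => hpre a b hab.1) A x hx hbx
  · refine ⟨hw', hne' hne, l', hl', hcyc', le_trans (Finset.card_le_card ?_) hcard⟩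
    intro a ha
    rw [List.mem_toFinset] at ha ⊢
    -- some pair with `a` as the first entry
    cases l' with
    | nil => simp at ha
    | cons b l' =>
      by_cases hlast : a ∈ (b :: l').getLast?
      · exact (hmem _ _ (hcyc'.2 a hlast b rfl)).1
      · obtain ⟨i, hi, rfl⟩ := List.getElem_of_mem ha
        have hi' : i + 1 < (b :: l').length := by
          rcases Nat.lt_or_ge (i + 1) (b :: l').length with h | h
          · exact h
          · exfalso
            apply hlast
            have hi2 : i = (b :: l').length - 1 := by omega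
            subst hi2
            simp [List.getLast?_eq_getElem?]
        exact (hmem _ _ ((List.isChain_iff_getElem.mp hcyc'.1) i hi')).1

theorem tr_mv {n M N : ℕ} (c : Cfg n M) (w : Word n) (hst : St N c w) (A : Ltr n → Prop)
    (x : Ltr n) (hx : A x) (hbx : ¬ A (bar x)) (ht : Turn A x w) :
    ∃ (c' : Cfg n M) (w' : Word n), Tr c c' ∧ St N c' w' ∧
      Cj (FreeGroup.mk w') (tau A x (FreeGroup.mk w)) := by
  obtain ⟨c', w', h1, h2, h3, -⟩ := tr_mv2 c w hst A x hx hbx ht
  exact ⟨c', w', h1, h2, h3⟩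

theorem i2_red_map {n : ℕ} (σ : Equiv.Perm (Fin n)) (s : Fin n → Bool) (a b : Ltr n)
    (h : a.1 = b.1 → a.2 = b.2) :
    (oml σ s a).1 = (oml σ s b).1 → (oml σ s a).2 = (oml σ s b).2 := by
  intro h1
  have h2 : a.1 = b.1 := σ.injective h1
  show (a.2 == s a.1) = (b.2 == s b.1)
  rw [h h2, h2]

theorem tr_omg {n M N : ℕ} (c : Cfg n M) (w : Word n) (hst : St N c w)
    (σ : Equiv.Perm (Fin n)) (s : Fin n → Bool) :
    ∃ c' : Cfg n M, Tr c c' ∧ St N c' (w.map (oml σ s)) := by
  obtain ⟨hw, hne, l, hl, hcyc, hcard⟩ := hst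
  refine ⟨(fun a => oml σ s (c.1 a), c.2), ?_, ?_, ?_, l, ?_, hcyc, hcard⟩
  · refine ⟨omg σ s, i2_short_omg σ s, ?_⟩
    rintro S ⟨pre, hpre⟩
    refine ⟨fun a => omg σ s (pre a), fun a b hab => ⟨_, hpre a b hab, ?_⟩⟩
    show omg σ s (pre a * lt (c.1 a) * (pre b)⁻¹) =
      omg σ s (pre a) * lt (oml σ s (c.1 a)) * (omg σ s (pre b))⁻¹
    rw [_root_.map_mul, _root_.map_mul, _root_.map_inv, omg_lt]
  · obtain ⟨h1, h2⟩ := hw
    refine ⟨?_, ?_⟩
    · unfold FreeGroup.IsReduced at h1 ⊢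
      rw [List.isChain_map]
      exact h1.imp fun a b hab => i2_red_map σ s a b hab
    · intro a ha b hb
      rw [List.getLast?_map] at ha
      rw [List.head?_map] at hb
      simp only [Option.mem_def, Option.map_eq_some_iff] at ha hb
      obtain ⟨a', ha', rfl⟩ := ha
      obtain ⟨b', hb', rfl⟩ := hb
      exact i2_red_map σ s a' b' (h2 a' ha' b' hb')
  · intro h
    exact hne (List.map_eq_nil_iff.mp h)
  · rw [← hl, List.map_map]
    rfl

end WPP
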