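import Pool.Agent.Lib.WPP_D1
import Pool.Agent.Lib.WPP_D2
import Pool.Agent.Lib.WPR_Base

/-! PROJECT WPR, row i3: the initial configuration -/

namespace WPP

open FreeGroup List

theorem wpr_i3_lift {n M : ℕ} (P : List (Pos n)) (dfl : Pos n) (hM : P.length ≤ M)
    (l₀ : List (Pos n)) (h : ∀ a ∈ l₀, a ∈ P) :
    ∃ l : List (Fin M), l.map (fun k => P.getD k.1 dfl) = l₀ ∧ ∀ k ∈ l, k.1 < P.length := by
  induction l₀ with
  | nil => exact ⟨[], rfl, by simp⟩
  | cons a t ih =>
    obtain ⟨l, h1, h2⟩ := ih fun b hb => h b (List.mem_cons_of_mem _ hb)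
    obtain ⟨i, hi, hia⟩ := List.getElem_of_mem (h a List.mem_cons_self)
    refine ⟨⟨i, by omega⟩ :: l, ?_, ?_⟩
    · rw [List.map_cons, h1, List.getD_eq_getElem _ _ hi, hia]
    · intro k hk
      rcases List.mem_cons.1 hk with rfl | hk
      · exact hi
      · exact h2 k hk

theorem exists_cfg0 {n : ℕ} (hn : 0 < n) (ws : List (Word n)) (M : ℕ)
    (hM : (posn (sym ws)).length ≤ M) :
    ∃ c0 : Cfg n M, SndC (gen ws) c0 ∧ ∀ q ∈ gen ws, q ≠ 1 →
      St (posn (sym ws)).length c0 (reduceCyclically q.toWord) := by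
  obtain ⟨R, pre, hB, -, hS⟩ := flower_sound ws
  set P := posn (sym ws) with hP
  set dfl : Pos n := ((⟨0, hn⟩, true), 0, 0) with hdfl
  refine ⟨(fun k => (P.getD k.1 dfl).1, fun a b => a.1 < P.length ∧ b.1 < P.length ∧
    R (P.getD a.1 dfl) (P.getD b.1 dfl)), ⟨fun k => pre (P.getD k.1 dfl), ?_⟩, ?_⟩
  · rintro a b ⟨-, -, hab⟩
    exact hS _ _ hab
  · intro q hq hq1
    obtain ⟨l₀, h1, h2, h3⟩ := flower_complete ws R hB q hq1 1 le_rfl (by rwa [pow_one])
    obtain ⟨l, hl, hlt⟩ := wpr_i3_lift P dfl hM l₀ h1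
    have h2' : l₀.map (fun a => a.1) = reduceCyclically q.toWord := by
      rw [h2]
      simp
    refine ⟨reduceCyclically.isCyclicallyReduced FreeGroup.isReduced_toWord, ?_, l, ?_, ?_, ?_⟩
    · intro h0
      have hconj := reduceCyclically.conj_conjugator_reduceCyclically q.toWord
      rw [h0, List.append_nil] at hconj
      have h4 := congrArg FreeGroup.mk hconj
      rw [← FreeGroup.mul_mk, ← FreeGroup.inv_mk, mul_inv_cancel, FreeGroup.mk_toWord] at h4
      exact hq1 h4.symm
    · rw [← h2', ← hl, List.map_map]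
      rfl
    · rw [← hl] at h3
      constructor
      · have h5 := h3.1
        rw [List.isChain_map] at h5
        exact List.IsChain.imp_of_mem_imp (fun a b ha hb hab => ⟨hlt a ha, hlt b hb, hab⟩) h5
      · intro a ha b hb
        refine ⟨hlt a (List.mem_of_getLast? ha), hlt b (List.mem_of_head? hb), ?_⟩
        refine h3.2 _ ?_ _ ?_
        · rw [List.getLast?_map, Option.mem_def, Option.map_eq_some_iff]
          exact ⟨a, ha, rfl⟩
        · rw [List.head?_map, Option.mem_def, Option.map_eq_some_iff]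
          exact ⟨b, hb, rfl⟩
    · have hinj : (l.toFinset.image fun k => k.1) ⊆ Finset.range P.length := by
        intro i hi
        obtain ⟨k, hk, rfl⟩ := Finset.mem_image.1 hi
        exact Finset.mem_range.2 (hlt k (List.mem_toFinset.1 hk))
      have h5 := Finset.card_le_card hinj
      rw [Finset.card_image_of_injective _ Fin.val_injective, Finset.card_range] at h5
      exact h5

end WPP
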