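import Pool.Agent.Lib.WPR_b4
import Pool.Agent.Lib.WPR_c2
import Pool.Agent.Lib.WPR_d1
import Pool.Agent.Lib.WPR_e3
import Pool.Agent.Lib.WPR_i2

/-!
# PROJECT WPR (MP_2e2606_al), row j1: phase 1 (helper73)
-/

namespace WPP

open FreeGroup List

theorem j1_tw_tw {n : ℕ} {X : Type} (ρ : FreeGroup (Fin n) →* Equiv.Perm X)
    (e e' : FreeGroup (Fin n) ≃* FreeGroup (Fin n)) : tw (tw ρ e) e' = tw ρ (e.trans e') := rfl

theorem j1_tw_refl {n : ℕ} {X : Type} (ρ : FreeGroup (Fin n) →* Equiv.Perm X) :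
    tw ρ (MulEquiv.refl _) = ρ := by
  ext g c
  rfl

theorem j1_cj_refl {n : ℕ} (g : FreeGroup (Fin n)) : Cj g g := ⟨1, by group⟩

theorem j1_cj_trans {n : ℕ} {g h k : FreeGroup (Fin n)} (h1 : Cj g h) (h2 : Cj h k) : Cj g k := by
  obtain ⟨a, rfl⟩ := h1
  obtain ⟨b, rfl⟩ := h2
  exact ⟨a * b, by group⟩

theorem j1_cj_symm {n : ℕ} {g h : FreeGroup (Fin n)} (h1 : Cj g h) : Cj h g := by
  obtain ⟨a, rfl⟩ := h1
  exact ⟨a⁻¹, by group⟩

theorem j1_cj_map {n : ℕ} {g h : FreeGroup (Fin n)} (e : FreeGroup (Fin n) ≃* FreeGroup (Fin n))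
    (h1 : Cj g h) : Cj (e g) (e h) := by
  obtain ⟨a, rfl⟩ := h1
  exact ⟨e a, by rw [_root_.map_mul, _root_.map_mul, _root_.map_inv]⟩

theorem j1_fix {n : ℕ} {X : Type} (ρ : FreeGroup (Fin n) →* Equiv.Perm X)
    {g h : FreeGroup (Fin n)} (h1 : Cj g h) (hfix : ∃ p, ρ h p = p) : ∃ p, ρ g p = p := by
  obtain ⟨a, rfl⟩ := h1
  obtain ⟨p, hp⟩ := hfix
  refine ⟨ρ a p, ?_⟩
  rw [_root_.map_mul, _root_.map_mul, _root_.map_inv, Equiv.Perm.mul_apply, Equiv.Perm.mul_apply]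
  show (ρ a) ((ρ h) ((ρ a).symm ((ρ a) p))) = (ρ a) p
  rw [Equiv.symm_apply_apply, hp]

theorem j1_tw_fix {n : ℕ} {X : Type} (ρ : FreeGroup (Fin n) →* Equiv.Perm X)
    (e : FreeGroup (Fin n) ≃* FreeGroup (Fin n)) {g : FreeGroup (Fin n)}
    (hfix : ∃ p, ρ g p = p) : ∃ p, tw ρ e (e g) p = p := by
  obtain ⟨p, hp⟩ := hfix
  refine ⟨p, ?_⟩
  show ρ (e.symm (e g)) p = p
  rw [MulEquiv.symm_apply_apply, hp]

-- ROW j1 (WPR_j1.lean; uses cut_V, turns_in_V, tr_mv, V_move, FF_tw, trans_tw)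
theorem phase1 {n M N : ℕ} (c : Cfg n M) (w : Word n) (hst : St N c w) {X : Type}
    (ρ : FreeGroup (Fin n) →* Equiv.Perm X) (htr : Trans ρ) (m : ℕ) (hFF : FF ρ m)
    (V : Finset X) (hV : V.Nonempty) (hcar : Car ρ (V : Set X))
    (hfix : ∃ p, ρ (FreeGroup.mk w) p = p) :
    ∃ (c' : Cfg n M) (w' : Word n) (e : FreeGroup (Fin n) ≃* FreeGroup (Fin n)) (p : X),
      Relation.ReflTransGen Tr c c' ∧ St N c' w' ∧
      Cj (FreeGroup.mk w') (e (FreeGroup.mk w)) ∧ Car (tw ρ e) {p} := by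
  induction hk : V.card using Nat.strong_induction_on generalizing c w ρ V with
  | _ k ih =>
    subst hk
    rcases Nat.lt_or_ge V.card 2 with h2 | h2
    · have h1 : V.card = 1 := by
        have := hV.card_pos
        omega
      obtain ⟨p, hp⟩ := Finset.card_eq_one.1 h1
      refine ⟨c, w, MulEquiv.refl _, p, Relation.ReflTransGen.refl, hst, j1_cj_refl _, ?_⟩
      rw [j1_tw_refl]
      rw [hp, Finset.coe_singleton] at hcar
      exact hcar
    · obtain ⟨A, x, hcut⟩ := cut_V ρ htr m hFF V hcar h2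
      have ht : Turn A x w := by
        intro u v huv
        obtain ⟨q, hq, hq1, hq2⟩ := turns_in_V ρ htr (V : Set X) hV hcar w hst.1 hfix u v huv
        exact ⟨fun h => hcut.turn q hq _ _ hq1 hq2 h.1 h.2,
          fun h => hcut.turn q hq _ _ hq2 hq1 h.1 h.2⟩
      obtain ⟨c', w', htr', hst', hcj⟩ := tr_mv c w hst A x hcut.hx hcut.hbx ht
      obtain ⟨V', hV', hlt, hcar'⟩ := V_move ρ htr V hcar A x hcut
      have hfix' : ∃ p, tw ρ (tau A x) (FreeGroup.mk w') p = p :=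
        j1_fix _ hcj (j1_tw_fix ρ (tau A x) hfix)
      obtain ⟨c'', w'', e', p, hr, hst'', hcj'', hcar''⟩ :=
        ih V'.card hlt c' w' hst' (tw ρ (tau A x)) (trans_tw ρ htr _) (FF_tw ρ m hFF _) V' hV'
          hcar' hfix' rfl
      refine ⟨c'', w'', (tau A x).trans e', p, Relation.ReflTransGen.head htr' hr, hst'', ?_, ?_⟩
      · exact j1_cj_trans hcj'' (j1_cj_map e' hcj)
      · exact hcar''

end WPP
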