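import Pool.Agent.Lib.WPR_g1
import Pool.Agent.Lib.WPR_f3
import Pool.Agent.Lib.WPR_e2

/-! PROJECT WPR, row j2: the second phase (powers of `α` and swaps in two letters) -/

namespace WPP

open FreeGroup List

theorem wpr_j2_Cj_trans {n : ℕ} {a b c : FreeGroup (Fin n)} (h1 : Cj a b) (h2 : Cj b c) :
    Cj a c := by
  obtain ⟨k, rfl⟩ := h1
  obtain ⟨l, rfl⟩ := h2
  exact ⟨k * l, by group⟩

theorem wpr_j2_Cj_map {n : ℕ} {a b : FreeGroup (Fin n)}
    (e : FreeGroup (Fin n) ≃* FreeGroup (Fin n)) (h : Cj a b) : Cj (e a) (e b) := by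
  obtain ⟨k, rfl⟩ := h
  exact ⟨e k, by simp⟩

/-! ### short automorphisms -/

theorem wpr_j2_norm_lt {n : ℕ} (d : Ltr n) : (lt d).norm ≤ 1 := by
  unfold FreeGroup.norm lt
  rw [FreeGroup.toWord_mk]
  have h : FreeGroup.Red [d] (FreeGroup.reduce [d]) := FreeGroup.reduce.red
  exact h.length_le

theorem wpr_j2_norm_Kp {n : ℕ} (A : Ltr n → Prop) (z d : Ltr n) : (Kp A z d).norm ≤ 1 := by
  classical
  unfold Kp
  by_cases h : A d
  · simp only [h, if_true]
    exact wpr_j2_norm_lt z
  · simp [h]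

theorem wpr_j2_norm_tauHom {n : ℕ} (A : Ltr n → Prop) (z d : Ltr n) :
    (tauHom A z (lt d)).norm ≤ 3 := by
  by_cases h : d.1 = z.1
  · rw [tauHom_fix A z d h]
    exact (wpr_j2_norm_lt d).trans (by norm_num)
  · rw [tauHom_lt A z d h]
    have h1 := FreeGroup.norm_mul_le (Kp A z d * lt d) (Kp A z (bar d))⁻¹
    have h2 := FreeGroup.norm_mul_le (Kp A z d) (lt d)
    rw [FreeGroup.norm_inv_eq] at h1
    have h3 := wpr_j2_norm_Kp A z d
    have h4 := wpr_j2_norm_Kp A z (bar d)
    have h5 := wpr_j2_norm_lt d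
    omega

theorem wpr_j2_short_tau {n : ℕ} (A : Ltr n → Prop) (x : Ltr n) : Short (tau A x).symm := by
  intro i
  rw [tau_symm_apply, ← lt_true]
  exact wpr_j2_norm_tauHom A (bar x) (i, true)

theorem wpr_j2_swp_symm {n : ℕ} (i j : Fin n) : (swp i j).symm = swp i j := by
  ext g
  show omgHom (Equiv.swap i j).symm (fun _ => true) g = omgHom (Equiv.swap i j) (fun _ => true) g
  rw [Equiv.symm_swap]

theorem wpr_j2_swp_lt {n : ℕ} (i j : Fin n) (d : Ltr n) :
    swp i j (lt d) = lt (oml (Equiv.swap i j) (fun _ => true) d) := omg_lt _ _ _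

theorem wpr_j2_short_swp {n : ℕ} (i j : Fin n) : Short (swp i j).symm := by
  intro k
  rw [wpr_j2_swp_symm, ← lt_true, wpr_j2_swp_lt]
  exact (wpr_j2_norm_lt _).trans (by norm_num)

theorem wpr_j2_swp_swp {n : ℕ} (i j : Fin n) (g : FreeGroup (Fin n)) :
    swp i j (swp i j g) = g := by
  have h := (swp i j).symm_apply_apply g
  rwa [wpr_j2_swp_symm] at h

/-! ### the swap of two letters -/

/-- swap of the letters -/
def wpr_j2_sw {n : ℕ} (i j : Fin n) (d : Ltr n) : Ltr n := (Equiv.swap i j d.1, d.2)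

theorem wpr_j2_sw_eq {n : ℕ} (i j : Fin n) (d : Ltr n) :
    oml (Equiv.swap i j) (fun _ => true) d = wpr_j2_sw i j d := by
  unfold oml wpr_j2_sw
  simp

theorem wpr_j2_sw_sw {n : ℕ} (i j : Fin n) (d : Ltr n) :
    wpr_j2_sw i j (wpr_j2_sw i j d) = d := by
  unfold wpr_j2_sw
  simp

theorem wpr_j2_mk_sw {n : ℕ} (i j : Fin n) (w : Word n) :
    FreeGroup.mk (w.map (wpr_j2_sw i j)) = swp i j (FreeGroup.mk w) := by
  induction w with
  | nil =>
    show (1 : FreeGroup (Fin n)) = swp i j 1
    rw [_root_.map_one]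
  | cons d w ih =>
    have h1 : FreeGroup.mk (d :: w) = lt d * FreeGroup.mk w := by
      unfold lt
      rw [FreeGroup.mul_mk]
      rfl
    have h2 : FreeGroup.mk ((d :: w).map (wpr_j2_sw i j)) =
        lt (wpr_j2_sw i j d) * FreeGroup.mk (w.map (wpr_j2_sw i j)) := by
      unfold lt
      rw [FreeGroup.mul_mk]
      rfl
    rw [h1, h2, ih, _root_.map_mul, wpr_j2_swp_lt, wpr_j2_sw_eq]

theorem wpr_j2_red_sw {n : ℕ} (i j : Fin n) (w : Word n) (h : IsCyclicallyReduced w) :
    IsCyclicallyReduced (w.map (wpr_j2_sw i j)) := by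
  have key : ∀ a b : Ltr n, (a.1 = b.1 → a.2 = b.2) →
      ((wpr_j2_sw i j a).1 = (wpr_j2_sw i j b).1 → (wpr_j2_sw i j a).2 = (wpr_j2_sw i j b).2) := by
    intro a b hab h'
    exact hab ((Equiv.swap i j).injective h')
  refine ⟨?_, ?_⟩
  · have h1 := h.1
    unfold FreeGroup.IsReduced at h1 ⊢
    rw [List.isChain_map]
    exact h1.imp key
  · intro a ha b hb
    rw [List.getLast?_map] at ha
    rw [List.head?_map] at hb
    obtain ⟨a', ha', rfl⟩ := Option.map_eq_some_iff.1 ha
    obtain ⟨b', hb', rfl⟩ := Option.map_eq_some_iff.1 hb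
    exact key a' b' (h.2 a' ha' b' hb')

theorem wpr_j2_forb_map {n : ℕ} (f : Ltr n → Ltr n) (c d : Ltr n) (w : List (Ltr n × Bool))
    (h : Forb c d w) : Forb (f c) (f d) (w.map fun p => (f p.1, p.2)) := by
  obtain ⟨m, ms, t, h⟩ := h
  refine ⟨m, ms, t.map (fun p => (f p.1, p.2)), ?_⟩
  have h' := h.map (fun p : Ltr n × Bool => (f p.1, p.2))
  simpa [List.map_append, List.map_map, Function.comp_def] using h'

theorem wpr_j2_forbR_map {n : ℕ} (f : Ltr n → Ltr n) (c d : Ltr n) (w : List (Ltr n × Bool))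
    (h : ForbR c d w) : ForbR (f c) (f d) (w.map fun p => (f p.1, p.2)) := by
  obtain ⟨m, ms, t, h⟩ := h
  refine ⟨m, ms, t.map (fun p => (f p.1, p.2)), ?_⟩
  have h' := h.map (fun p : Ltr n × Bool => (f p.1, p.2))
  simpa [List.map_append, List.map_map, Function.comp_def] using h'

theorem wpr_j2_sw_i {n : ℕ} (i j : Fin n) (b : Bool) : wpr_j2_sw i j (i, b) = (j, b) := by
  simp [wpr_j2_sw]

theorem wpr_j2_sw_j {n : ℕ} (i j : Fin n) (b : Bool) : wpr_j2_sw i j (j, b) = (i, b) := by
  simp [wpr_j2_sw]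

theorem wpr_j2_nof_sw {n : ℕ} (i j : Fin n) (w : List (Ltr n × Bool)) (h : NoF i j w) :
    NoF i j (w.map fun p => (wpr_j2_sw i j p.1, p.2)) := by
  have hid : (w.map fun p => (wpr_j2_sw i j p.1, p.2)).map
      (fun p => (wpr_j2_sw i j p.1, p.2)) = w := by
    rw [List.map_map]
    conv_rhs => rw [← List.map_id w]
    refine List.map_congr_left fun p _ => ?_
    simp [wpr_j2_sw_sw]
  refine ⟨fun h' => h.f2 ?_, fun h' => h.f1 ?_, fun h' => h.f4 ?_, fun h' => h.f3 ?_⟩
  · have := wpr_j2_forb_map (wpr_j2_sw i j) _ _ _ h'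
    rwa [hid, wpr_j2_sw_i, wpr_j2_sw_j] at this
  · have := wpr_j2_forb_map (wpr_j2_sw i j) _ _ _ h'
    rwa [hid, wpr_j2_sw_i, wpr_j2_sw_j] at this
  · have := wpr_j2_forbR_map (wpr_j2_sw i j) _ _ _ h'
    rwa [hid, wpr_j2_sw_i, wpr_j2_sw_j] at this
  · have := wpr_j2_forbR_map (wpr_j2_sw i j) _ _ _ h'
    rwa [hid, wpr_j2_sw_i, wpr_j2_sw_j] at this

/-! ### one step of the list `μ` on the level of conjugacy classes -/

theorem wpr_j2_cj_true {n : ℕ} (i j : Fin n) (μ : List Bool) (u g : FreeGroup (Fin n))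
    (h : Cj u (muE i j (true :: μ) g)) :
    Cj (tau (Aal i j) (i, false) u) (muE i j μ g) := by
  have h1 := wpr_j2_Cj_map (tau (Aal i j) (i, false)) h
  have h2 : tau (Aal i j) (i, false) (muE i j (true :: μ) g) = muE i j μ g := by
    show tau (Aal i j) (i, false) ((tau (Aal i j) (i, false)).symm (muE i j μ g)) = _
    rw [MulEquiv.apply_symm_apply]
  rwa [h2] at h1

theorem wpr_j2_cj_false {n : ℕ} (i j : Fin n) (μ : List Bool) (u g : FreeGroup (Fin n))
    (h : Cj u (muE i j (false :: μ) g)) :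
    Cj (swp i j u) (muE i j μ g) := by
  have h1 := wpr_j2_Cj_map (swp i j) h
  have h2 : swp i j (muE i j (false :: μ) g) = muE i j μ g := by
    show swp i j (swp i j (muE i j μ g)) = _
    rw [wpr_j2_swp_swp]
  rwa [h2] at h1

/-! ### the number of marks -/

theorem wpr_j2_marks {n : ℕ} (i j : Fin n) (hij : i ≠ j) (g : Word n) (μ : List Bool) :
    ∀ {β : Type} (lab : β → Ltr n) (l : List (β × Bool))
      (_ : IsCyclicallyReduced (l.map fun p => lab p.1))
      (_ : ∀ p ∈ l, (lab p.1).1 = i ∨ (lab p.1).1 = j)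
      (_ : NoF i j (l.map fun p => (lab p.1, p.2)))
      (_ : Cj (FreeGroup.mk (l.map fun p => lab p.1)) (muE i j μ (FreeGroup.mk g))),
      l.countP (fun p => p.2) ≤ g.length := by
  induction μ with
  | nil =>
    intro β lab l hred hlet hF hcj
    have h1 : l.countP (fun p => p.2) ≤ l.length := List.countP_le_length
    have h2 := length_le_of_conj _ _ hred hcj
    rw [List.length_map] at h2
    exact h1.trans h2
  | cons b μ ih =>
    intro β lab l hred hlet hF hcj
    cases b
    · have hm : ∀ (f : Ltr n → Ltr n), (l.map fun p => f (lab p.1)) =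
          (l.map fun p => lab p.1).map f := by
        intro f; rw [List.map_map]; rfl
      refine ih (fun q => wpr_j2_sw i j (lab q)) l ?_ ?_ ?_ ?_
      · rw [hm]
        exact wpr_j2_red_sw i j _ hred
      · intro p hp
        rcases hlet p hp with h | h
        · right
          show Equiv.swap i j (lab p.1).1 = j
          rw [h, Equiv.swap_apply_left]
        · left
          show Equiv.swap i j (lab p.1).1 = i
          rw [h, Equiv.swap_apply_right]
      · have h1 := wpr_j2_nof_sw i j _ hF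
        rw [List.map_map] at h1
        exact h1
      · rw [hm, wpr_j2_mk_sw]
        exact wpr_j2_cj_false i j μ _ _ hcj
    · obtain ⟨l', h1, h2, h3, h4, _, h6, _⟩ := alpha_step i j hij lab l hred hlet hF
      exact h4.trans (ih (labG lab (i, false)) l' h1 h2 h3
        (wpr_j2_Cj_trans h6 (wpr_j2_cj_true i j μ _ _ hcj)))

/-! ### transport to `Fin M` -/

theorem wpr_j2_transport {M : ℕ} {β : Type} (U : Finset β) (hU : U.card ≤ M)
    (hne : U.Nonempty) : ∃ (g : Fin M → β) (f : β → Fin M), ∀ q ∈ U, g (f q) = q := by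
  classical
  have hc : Fintype.card {x // x ∈ U} ≤ Fintype.card (Fin M) := by
    rw [Fintype.card_coe, Fintype.card_fin]; exact hU
  obtain ⟨emb⟩ := Function.Embedding.nonempty_of_card_le hc
  obtain ⟨u0, hu0⟩ := hne
  have : Nonempty {x // x ∈ U} := ⟨⟨u0, hu0⟩⟩
  refine ⟨fun a => (Function.invFun emb a).1,
    fun q => if h : q ∈ U then emb ⟨q, h⟩ else emb ⟨u0, hu0⟩, fun q hq => ?_⟩
  simp only [hq, dif_pos]
  rw [Function.leftInverse_invFun emb.injective]

theorem wpr_j2_cyc_map {β γ : Type} (R : β → β → Prop) (g : γ → β) (l : List γ)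
    (h : Cyc R (l.map g)) : Cyc (fun a b => R (g a) (g b)) l := by
  refine ⟨?_, ?_⟩
  · have h1 := h.1
    rwa [List.isChain_map] at h1
  · intro a ha b hb
    refine h.2 (g a) ?_ (g b) ?_
    · rw [List.getLast?_map]
      exact Option.mem_map_of_mem g ha
    · rw [List.head?_map]
      exact Option.mem_map_of_mem g hb

theorem wpr_j2_mk_ne {n : ℕ} (w : Word n) (h : IsCyclicallyReduced w) (hne : w ≠ []) :
    FreeGroup.mk w ≠ 1 := by
  intro h1
  have h2 : (FreeGroup.mk w).toWord = [] := by rw [h1, FreeGroup.toWord_one]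
  rw [FreeGroup.toWord_mk, h.1.reduce_eq] at h2
  exact hne h2

theorem wpr_j2_unmarked {M : ℕ} (l : List (Fin M × Bool)) (l' : List ((Fin M × Fin 4) × Bool))
    (h5 : ∀ p ∈ l', p.2 = false → p.1.2 = 0 ∧ (p.1.1, false) ∈ l) :
    ((l'.filter (fun p => !p.2)).map Prod.fst).toFinset.card ≤
      ((l.filter (fun p => !p.2)).map Prod.fst).toFinset.card := by
  classical
  have hmem : ∀ q : Fin M × Fin 4, q ∈ ((l'.filter (fun p => !p.2)).map Prod.fst).toFinset →
      q.2 = 0 ∧ (q.1, false) ∈ l := by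
    intro q hq
    rw [List.mem_toFinset, List.mem_map] at hq
    obtain ⟨p, hp, rfl⟩ := hq
    rw [List.mem_filter] at hp
    exact h5 p hp.1 (by simpa using hp.2)
  refine Finset.card_le_card_of_injOn Prod.fst ?_ ?_
  · intro q hq
    have h := hmem q (by simpa using hq)
    have : q.1 ∈ ((l.filter (fun p => !p.2)).map Prod.fst).toFinset := by
      rw [List.mem_toFinset, List.mem_map]
      exact ⟨(q.1, false), List.mem_filter.2 ⟨h.2, rfl⟩, rfl⟩
    simpa using this
  · intro q hq q' hq' he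
    have h := hmem q (by simpa using hq)
    have h' := hmem q' (by simpa using hq')
    exact Prod.ext he (h.1.trans h'.1.symm)

theorem wpr_j2_card {β : Type} [DecidableEq β] (l : List (β × Bool)) :
    (l.map Prod.fst).toFinset.card ≤
      ((l.filter (fun p => !p.2)).map Prod.fst).toFinset.card + l.countP (fun p => p.2) := by
  have h1 : (l.map Prod.fst).toFinset ⊆ ((l.filter (fun p => !p.2)).map Prod.fst).toFinset ∪
      ((l.filter (fun p => p.2)).map Prod.fst).toFinset := by
    intro q hq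
    rw [List.mem_toFinset, List.mem_map] at hq
    obtain ⟨p, hp, rfl⟩ := hq
    rw [Finset.mem_union, List.mem_toFinset, List.mem_toFinset, List.mem_map, List.mem_map]
    cases hb : p.2
    · exact Or.inl ⟨p, List.mem_filter.2 ⟨hp, by simp [hb]⟩, rfl⟩
    · exact Or.inr ⟨p, List.mem_filter.2 ⟨hp, by simp [hb]⟩, rfl⟩
  refine (Finset.card_le_card h1).trans ((Finset.card_union_le _ _).trans ?_)
  have h2 : ((l.filter (fun p => p.2)).map Prod.fst).toFinset.card ≤ l.countP (fun p => p.2) := by
    refine (List.toFinset_card_le _).trans ?_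
    rw [List.length_map, List.countP_eq_length_filter]
  omega

/-! ### the two transitions -/

theorem wpr_j2_tr_sw {n M : ℕ} (i j : Fin n) (c : Cfg n M) :
    Tr c ((fun a => wpr_j2_sw i j (c.1 a)), c.2) := by
  refine ⟨swp i j, wpr_j2_short_swp i j, ?_⟩
  rintro S ⟨pre, hS⟩
  refine ⟨fun a => swp i j (pre a), ?_⟩
  intro a b hab
  have h := hS a b hab
  refine ⟨_, h, ?_⟩
  show swp i j (pre a * lt (c.1 a) * (pre b)⁻¹) = _
  rw [_root_.map_mul, _root_.map_mul, _root_.map_inv, wpr_j2_swp_lt, wpr_j2_sw_eq]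

theorem wpr_j2_tr_al {n M : ℕ} (i j : Fin n) (c : Cfg n M) (g : Fin M → Fin M × Fin 4) :
    Tr c ((fun a => labG c.1 (i, false) (g a)),
      fun a b => mvG c.1 (Aal i j) (i, false) c.2 (g a) (g b)) := by
  refine ⟨tau (Aal i j) (i, false), wpr_j2_short_tau _ _, ?_⟩
  rintro S ⟨pre, hS⟩
  obtain ⟨pre', h'⟩ := sound_mvG S c.1 c.2 pre hS (Aal i j) (i, false)
  exact ⟨fun a => pre' (g a), fun a b hab => h' _ _ hab⟩

/-! ### the induction -/

theorem wpr_j2_main {n M N : ℕ} (i j : Fin n) (hij : i ≠ j) (g : Word n)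
    (hM : N + g.length ≤ M) (μ : List Bool) :
    ∀ (c : Cfg n M) (l : List (Fin M × Bool)) (_ : l ≠ [])
      (_ : IsCyclicallyReduced (l.map fun p => c.1 p.1))
      (_ : ∀ p ∈ l, (c.1 p.1).1 = i ∨ (c.1 p.1).1 = j)
      (_ : NoF i j (l.map fun p => (c.1 p.1, p.2)))
      (_ : Cyc c.2 (l.map Prod.fst))
      (_ : Cj (FreeGroup.mk (l.map fun p => c.1 p.1)) (muE i j μ (FreeGroup.mk g)))
      (_ : ((l.filter (fun p => !p.2)).map Prod.fst).toFinset.card ≤ N),
      ∃ (c' : Cfg n M) (w' : Word n), Relation.ReflTransGen Tr c c' ∧ St M c' w' ∧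
        Cj (FreeGroup.mk w') (FreeGroup.mk g) := by
  induction μ with
  | nil =>
    intro c l hne hred hlet hF hcyc hcj hN
    refine ⟨c, _, Relation.ReflTransGen.refl, ⟨hred, ?_, l.map Prod.fst, ?_, hcyc, ?_⟩, hcj⟩
    · simpa using hne
    · rw [List.map_map]; rfl
    · exact (Finset.card_le_univ _).trans (by rw [Fintype.card_fin])
  | cons b μ ih =>
    intro c l hne hred hlet hF hcyc hcj hN
    cases b
    · have hm : ∀ (f : Ltr n → Ltr n), (l.map fun p => f (c.1 p.1)) =
          (l.map fun p => c.1 p.1).map f := by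
        intro f; rw [List.map_map]; rfl
      obtain ⟨c', w', h1, h2, h3⟩ := ih ((fun a => wpr_j2_sw i j (c.1 a)), c.2) l hne
        (by rw [hm]; exact wpr_j2_red_sw i j _ hred)
        (by
          intro p hp
          rcases hlet p hp with h | h
          · right
            show Equiv.swap i j (c.1 p.1).1 = j
            rw [h, Equiv.swap_apply_left]
          · left
            show Equiv.swap i j (c.1 p.1).1 = i
            rw [h, Equiv.swap_apply_right])
        (by
          have h1 := wpr_j2_nof_sw i j _ hF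
          rw [List.map_map] at h1
          exact h1)
        hcyc
        (by
          rw [hm, wpr_j2_mk_sw]
          exact wpr_j2_cj_false i j μ _ _ hcj)
        hN
      exact ⟨c', w', Relation.ReflTransGen.head (wpr_j2_tr_sw i j c) h1, h2, h3⟩
    · obtain ⟨l', h1, h2, h3, h4, h5, h6, h7⟩ := alpha_step i j hij c.1 l hred hlet hF
      have hcj' := wpr_j2_Cj_trans h6 (wpr_j2_cj_true i j μ _ _ hcj)
      have hmk := wpr_j2_marks i j hij g μ (labG c.1 (i, false)) l' h1 h2 h3 hcj'
      have hun := (wpr_j2_unmarked l l' h5).trans hN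
      have hcard := wpr_j2_card l'
      have hne' : l' ≠ [] := by
        rintro rfl
        have hw : FreeGroup.mk (l.map fun p => c.1 p.1) ≠ 1 :=
          wpr_j2_mk_ne _ hred (by simpa using hne)
        obtain ⟨k, hk⟩ := h6
        have hk' : (1 : FreeGroup (Fin n)) = k * (tau (Aal i j) (i, false)
            (FreeGroup.mk (l.map fun p => c.1 p.1))) * k⁻¹ := hk
        have h9 : tau (Aal i j) (i, false) (FreeGroup.mk (l.map fun p => c.1 p.1)) = 1 :=
          conj_eq_one_iff.1 hk'.symm
        exact hw ((MulEquiv.map_eq_one_iff _).1 h9)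
      obtain ⟨gg, f, hgf⟩ := wpr_j2_transport (M := M) (l'.map Prod.fst).toFinset
        (by omega) (by
          rw [List.toFinset_nonempty_iff]
          simpa using hne')
      have hgf' : ∀ p ∈ l', gg (f p.1) = p.1 := fun p hp =>
        hgf p.1 (List.mem_toFinset.2 (List.mem_map_of_mem hp))
      have hlabs : ((l'.map fun p => (f p.1, p.2)).map
          fun p => labG c.1 (i, false) (gg p.1)) = l'.map fun p => labG c.1 (i, false) p.1 := by
        rw [List.map_map]
        refine List.map_congr_left fun p hp => ?_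
        show labG c.1 (i, false) (gg (f p.1)) = _
        rw [hgf' p hp]
      have hlabs2 : ((l'.map fun p => (f p.1, p.2)).map
          fun p => (labG c.1 (i, false) (gg p.1), p.2)) =
          l'.map fun p => (labG c.1 (i, false) p.1, p.2) := by
        rw [List.map_map]
        refine List.map_congr_left fun p hp => ?_
        show (labG c.1 (i, false) (gg (f p.1)), p.2) = _
        rw [hgf' p hp]
      obtain ⟨c', w', k1, k2, k3⟩ := ih
        ((fun a => labG c.1 (i, false) (gg a)),
          fun a b => mvG c.1 (Aal i j) (i, false) c.2 (gg a) (gg b))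
        (l'.map fun p => (f p.1, p.2)) (by simpa using hne')
        (by
          show IsCyclicallyReduced ((l'.map fun p => (f p.1, p.2)).map
            fun p => labG c.1 (i, false) (gg p.1))
          rw [hlabs]; exact h1)
        (by
          intro q hq
          obtain ⟨p, hp, rfl⟩ := List.mem_map.1 hq
          show (labG c.1 (i, false) (gg (f p.1))).1 = i ∨ (labG c.1 (i, false) (gg (f p.1))).1 = j
          rw [hgf' p hp]
          exact h2 p hp)
        (by
          show NoF i j ((l'.map fun p => (f p.1, p.2)).map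
            fun p => (labG c.1 (i, false) (gg p.1), p.2))
          rw [hlabs2]; exact h3)
        (by
          refine wpr_j2_cyc_map (mvG c.1 (Aal i j) (i, false) c.2) gg _ ?_
          have he : ((l'.map fun p => (f p.1, p.2)).map Prod.fst).map gg = l'.map Prod.fst := by
            rw [List.map_map, List.map_map]
            refine List.map_congr_left fun p hp => ?_
            exact hgf' p hp
          rw [he]
          exact h7 c.2 hcyc)
        (by
          show Cj (FreeGroup.mk ((l'.map fun p => (f p.1, p.2)).map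
            fun p => labG c.1 (i, false) (gg p.1))) _
          rw [hlabs]; exact hcj')
        (by
          have he : (((l'.map fun p => (f p.1, p.2)).filter (fun p => !p.2)).map
              Prod.fst).toFinset =
              (((l'.filter (fun p => !p.2)).map Prod.fst).toFinset).image f := by
            ext a
            simp only [List.mem_toFinset, List.mem_map, List.mem_filter, Finset.mem_image]
            constructor
            · rintro ⟨q, ⟨⟨p, hp, rfl⟩, hq⟩, rfl⟩
              exact ⟨p.1, ⟨p, ⟨hp, hq⟩, rfl⟩, rfl⟩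
            · rintro ⟨q, ⟨p, ⟨hp, hq⟩, rfl⟩, rfl⟩
              exact ⟨(f p.1, p.2), ⟨⟨p, hp, rfl⟩, hq⟩, rfl⟩
          rw [he]
          exact Finset.card_image_le.trans hun)
      exact ⟨c', w', Relation.ReflTransGen.head (wpr_j2_tr_al i j c gg) k1, k2, k3⟩

theorem wpr_j2_nof_start {n : ℕ} (i j : Fin n) (w : List (Ltr n × Bool))
    (h : ∀ p ∈ w, p.2 = false) : NoF i j w := by
  have k1 : ∀ c d : Ltr n, ¬ Forb c d w := by
    rintro c d ⟨m, ms, t, ht⟩
    have hm : ((d, true) : Ltr n × Bool) ∈ w := ht.perm.subset (by simp)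
    have := h _ hm
    simp at this
  have k2 : ∀ c d : Ltr n, ¬ ForbR c d w := by
    rintro c d ⟨m, ms, t, ht⟩
    have hm : ((d, true) : Ltr n × Bool) ∈ w := ht.perm.subset (by simp)
    have := h _ hm
    simp at this
  exact ⟨k1 _ _, k1 _ _, k2 _ _, k2 _ _⟩

theorem phase2 {n M N : ℕ} (i j : Fin n) (hij : i ≠ j) (g : Word n)
    (hM : N + g.length ≤ M) (μ : List Bool) (c : Cfg n M) (w : Word n) (hst : St N c w)
    (hlet : ∀ d ∈ w, d.1 = i ∨ d.1 = j)
    (hcj : Cj (FreeGroup.mk w) (muE i j μ (FreeGroup.mk g))) :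
    ∃ (c' : Cfg n M) (w' : Word n), Relation.ReflTransGen Tr c c' ∧ St M c' w' ∧
      Cj (FreeGroup.mk w') (FreeGroup.mk g) := by
  obtain ⟨hred, hne, l, rfl, hcyc, hN⟩ := hst
  have e1 : ((l.map fun a => (a, false)).map fun p => c.1 p.1) = l.map c.1 := by
    rw [List.map_map]; rfl
  have e2 : ((l.map fun a => (a, false)).map Prod.fst) = l := by
    rw [List.map_map]
    exact List.map_id l
  refine wpr_j2_main i j hij g hM μ c (l.map fun a => (a, false)) ?_ ?_ ?_ ?_ ?_ ?_ ?_
  · simpa using hne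
  · rw [e1]; exact hred
  · intro p hp
    obtain ⟨a, ha, rfl⟩ := List.mem_map.1 hp
    exact hlet _ (List.mem_map_of_mem ha)
  · refine wpr_j2_nof_start i j _ fun p hp => ?_
    rw [List.map_map] at hp
    obtain ⟨a, ha, rfl⟩ := List.mem_map.1 hp
    rfl
  · rw [e2]; exact hcyc
  · rw [e1]; exact hcj
  · refine (Finset.card_le_card ?_).trans hN
    intro a ha
    rw [List.mem_toFinset, List.mem_map] at ha
    obtain ⟨p, hp, rfl⟩ := ha
    have hp' := (List.mem_filter.1 hp).1
    obtain ⟨b, hb, rfl⟩ := List.mem_map.1 hp'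
    exact List.mem_toFinset.2 hb

end WPP
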