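import Pool.Agent.Lib.WPR_Base

/-!
# WPR, row k1: generators of a subgroup containing `T` basis elements (linear algebra over `ℚ`)
-/

namespace WPP

open FreeGroup List

namespace K1

/-- the abelianisation -/
noncomputable def ab (n : ℕ) : FreeGroup (Fin n) →* Multiplicative (Fin n → ℚ) :=
  FreeGroup.lift fun i => Multiplicative.ofAdd (Pi.single i 1)

theorem ab_of {n : ℕ} (i : Fin n) :
    Multiplicative.toAdd (ab n (FreeGroup.of i)) = Pi.single i 1 := by
  simp [ab]

theorem ab_mem {n : ℕ} (B : Finset (FreeGroup (Fin n))) (h : FreeGroup (Fin n))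
    (hh : h ∈ Subgroup.closure (B : Set (FreeGroup (Fin n)))) :
    Multiplicative.toAdd (ab n h) ∈ Submodule.span ℚ
      (((B.image fun b => Multiplicative.toAdd (ab n b)) : Finset (Fin n → ℚ)) :
        Set (Fin n → ℚ)) := by
  induction hh using Subgroup.closure_induction with
  | mem x hx => exact Submodule.subset_span (by
      rw [Finset.mem_coe, Finset.mem_image]; exact ⟨x, hx, rfl⟩)
  | one => rw [_root_.map_one, toAdd_one]; exact Submodule.zero_mem _
  | mul x y _ _ ihx ihy =>
    rw [_root_.map_mul, toAdd_mul]; exact Submodule.add_mem _ ihx ihy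
  | inv x _ ih => rw [_root_.map_inv, toAdd_inv]; exact Submodule.neg_mem _ ih

end K1

theorem card_le_of_gen {n : ℕ} (T : Finset (Fin n)) (B : Finset (FreeGroup (Fin n)))
    (h : FT (T : Set (Fin n)) ≤ Subgroup.closure (B : Set (FreeGroup (Fin n)))) :
    T.card ≤ B.card := by
  classical
  set W := Submodule.span ℚ
      (((B.image fun b => Multiplicative.toAdd (K1.ab n b)) : Finset (Fin n → ℚ)) :
        Set (Fin n → ℚ)) with hW
  have h1 : ∀ i : {i // i ∈ T}, (Pi.single i.1 1 : Fin n → ℚ) ∈ W := by
    intro i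
    rw [← K1.ab_of]
    refine K1.ab_mem B _ (h ?_)
    exact Subgroup.subset_closure ⟨i.1, i.2, rfl⟩
  have h2 : LinearIndependent ℚ fun i : {i // i ∈ T} => (Pi.single i.1 1 : Fin n → ℚ) := by
    have h3 := (Pi.basisFun ℚ (Fin n)).linearIndependent.comp
      (Subtype.val : {i // i ∈ T} → Fin n) Subtype.val_injective
    have e : (⇑(Pi.basisFun ℚ (Fin n)) ∘ (Subtype.val : {i // i ∈ T} → Fin n)) =
        fun i : {i // i ∈ T} => (Pi.single i.1 1 : Fin n → ℚ) := by
      funext i
      simp
    rwa [e] at h3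
  have h4 : LinearIndependent ℚ fun i : {i // i ∈ T} => (⟨Pi.single i.1 1, h1 i⟩ : W) :=
    LinearIndependent.of_comp W.subtype h2
  have h5 := h4.fintype_card_le_finrank
  have h6 : Module.finrank ℚ W ≤ B.card :=
    (finrank_span_finset_le_card _).trans Finset.card_image_le
  rw [Fintype.card_coe] at h5
  exact h5.trans h6

end WPP
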