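import Pool.Agent.Lib.WPR_e2

/-! PROJECT WPR, row l0: conjugacy, subgroups generated by basis elements -/

namespace WPP

open FreeGroup List

theorem wl_refl {n : ℕ} (g : FreeGroup (Fin n)) : Cj g g := ⟨1, by group⟩

theorem wl_symm {n : ℕ} {g h : FreeGroup (Fin n)} (H : Cj g h) : Cj h g := by
  obtain ⟨k, rfl⟩ := H
  exact ⟨k⁻¹, by group⟩

theorem wl_trans {n : ℕ} {g h l : FreeGroup (Fin n)} (H : Cj g h) (K : Cj h l) : Cj g l := by
  obtain ⟨k, rfl⟩ := H
  obtain ⟨m, rfl⟩ := K
  exact ⟨k * m, by group⟩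

theorem wl_map {n : ℕ} {g h : FreeGroup (Fin n)} (H : Cj g h)
    (e : FreeGroup (Fin n) ≃* FreeGroup (Fin n)) : Cj (e g) (e h) := by
  obtain ⟨k, rfl⟩ := H
  exact ⟨e k, by rw [_root_.map_mul, _root_.map_mul, _root_.map_inv]⟩

theorem wl_conj {n : ℕ} (k h : FreeGroup (Fin n)) : Cj (k * h * k⁻¹) h := ⟨k, rfl⟩

/-- the cyclically reduced form is conjugate to the element -/
theorem wl_rc {n : ℕ} (g : FreeGroup (Fin n)) :
    Cj (FreeGroup.mk (reduceCyclically g.toWord)) g := by
  refine wl_symm ⟨FreeGroup.mk (reduceCyclically.conjugator g.toWord), ?_⟩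
  rw [FreeGroup.inv_mk, FreeGroup.mul_mk, FreeGroup.mul_mk,
    reduceCyclically.conj_conjugator_reduceCyclically, FreeGroup.mk_toWord]

theorem wl_rc_sub {n : ℕ} (g : FreeGroup (Fin n)) (d : Ltr n)
    (hd : d ∈ reduceCyclically g.toWord) : d ∈ g.toWord := by
  rw [← reduceCyclically.conj_conjugator_reduceCyclically g.toWord]
  simp [hd]

theorem wl_letters {n : ℕ} (T : Set (Fin n)) (g : FreeGroup (Fin n)) (hg : g ∈ FT T) :
    ∀ d ∈ g.toWord, d.1 ∈ T := by
  unfold FT at hg
  induction hg using Subgroup.closure_induction with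
  | mem x hx =>
    obtain ⟨i, hi, rfl⟩ := hx
    intro d hd
    simp only [FreeGroup.toWord_of, List.mem_singleton] at hd
    rw [hd]
    exact hi
  | one =>
    intro d hd
    simp at hd
  | mul x y _ _ hx hy =>
    intro d hd
    have h1 : List.Sublist (x * y).toWord (x.toWord ++ y.toWord) := by
      rw [FreeGroup.toWord_mul]
      exact FreeGroup.Red.sublist FreeGroup.reduce.red
    have h2 := h1.subset hd
    rcases List.mem_append.1 h2 with h3 | h3
    · exact hx d h3
    · exact hy d h3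
  | inv x _ hx =>
    intro d hd
    rw [FreeGroup.toWord_inv] at hd
    simp only [FreeGroup.invRev, List.mem_reverse, List.mem_map] at hd
    obtain ⟨a, ha, rfl⟩ := hd
    exact hx a ha

theorem wl_mem {n : ℕ} (T : Set (Fin n)) (w : Word n) (hw : ∀ d ∈ w, d.1 ∈ T) :
    FreeGroup.mk w ∈ FT T := by
  induction w with
  | nil => exact (FT T).one_mem
  | cons d t ih =>
    rw [wpr_e2_mk_cons]
    refine (FT T).mul_mem ?_ (ih fun e he => hw e (List.mem_cons_of_mem _ he))
    have hd : FreeGroup.of d.1 ∈ FT T :=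
      Subgroup.subset_closure ⟨d.1, hw d List.mem_cons_self, rfl⟩
    obtain ⟨i, b⟩ := d
    cases b
    · rw [lt_false]
      exact (FT T).inv_mem hd
    · rw [lt_true]
      exact hd

theorem wl_cyc {n : ℕ} (T : Set (Fin n)) (w : Word n) (hw : IsCyclicallyReduced w)
    (h : FreeGroup (Fin n)) (hh : h ∈ FT T) (hc : Cj (FreeGroup.mk w) h) :
    ∀ d ∈ w, d.1 ∈ T := by
  intro d hd
  have h1 : IsCyclicallyReduced (reduceCyclically h.toWord) :=
    reduceCyclically.isCyclicallyReduced FreeGroup.isReduced_toWord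
  have h2 : w ~r reduceCyclically h.toWord :=
    rot_of_conj _ _ h1 hw (wl_trans hc (wl_symm (wl_rc h)))
  exact wl_letters T h hh d (wl_rc_sub h d (h2.mem_iff.1 hd))

theorem wl_omg {n : ℕ} (σ : Equiv.Perm (Fin n)) (s : Fin n → Bool) (w : Word n) :
    FreeGroup.mk (w.map (oml σ s)) = omg σ s (FreeGroup.mk w) := by
  induction w with
  | nil =>
    rw [List.map_nil, ← FreeGroup.one_eq_mk, _root_.map_one]
  | cons d t ih =>
    rw [List.map_cons, wpr_e2_mk_cons, wpr_e2_mk_cons, _root_.map_mul, omg_lt, ih]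

theorem wl_omg_invol {n : ℕ} (s : Fin n → Bool) (g : FreeGroup (Fin n)) :
    omg 1 s (omg 1 s g) = g := by
  have key : ((omg 1 s).toMonoidHom.comp (omg 1 s).toMonoidHom) = MonoidHom.id _ := by
    refine FreeGroup.ext_hom _ _ fun i => ?_
    change omg 1 s (omg 1 s (FreeGroup.of i)) = FreeGroup.of i
    rw [← lt_true, omg_lt, omg_lt]
    congr 1
    simp only [oml, Equiv.Perm.coe_one, id_eq, Prod.mk.injEq, true_and]
    cases s i <;> rfl
  exact DFunLike.congr_fun key g

/-- automorphisms of the infinite cyclic group -/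
theorem wl_aut_one (e : FreeGroup (Fin 1) ≃* FreeGroup (Fin 1)) (g : FreeGroup (Fin 1)) :
    e g = g ∨ e g = g⁻¹ := by
  have hz : ∀ x : FreeGroup (Fin 1), ∃ m : ℤ, FreeGroup.of 0 ^ m = x := by
    intro x
    have hx : x ∈ Subgroup.closure (Set.range (FreeGroup.of : Fin 1 → FreeGroup (Fin 1))) := by
      rw [FreeGroup.closure_range_of]
      exact Subgroup.mem_top x
    have hr : Set.range (FreeGroup.of : Fin 1 → FreeGroup (Fin 1)) = {FreeGroup.of 0} := by
      ext y
      constructor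
      · rintro ⟨i, rfl⟩
        rw [Subsingleton.elim i 0]
        rfl
      · intro hy
        exact ⟨0, hy.symm⟩
    rw [hr, ← Subgroup.zpowers_eq_closure] at hx
    exact Subgroup.mem_zpowers_iff.1 hx
  obtain ⟨m, hm⟩ := hz (e (FreeGroup.of 0))
  obtain ⟨m', hm'⟩ := hz (e.symm (FreeGroup.of 0))
  obtain ⟨r, rfl⟩ := hz g
  have h1 : e (e.symm (FreeGroup.of 0)) = FreeGroup.of 0 := e.apply_symm_apply _
  rw [← hm', _root_.map_zpow, ← hm, ← zpow_mul] at h1
  have h2 : m * m' = 1 := by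
    have h3 := congrArg (FreeGroup.lift fun _ : Fin 1 => Multiplicative.ofAdd (1 : ℤ)) h1
    rw [_root_.map_zpow, FreeGroup.lift_apply_of, ← ofAdd_zsmul] at h3
    have h4 := congrArg Multiplicative.toAdd h3
    rw [mul_comm]
    simpa using h4
  rw [_root_.map_zpow, ← hm, ← zpow_mul]
  rcases Int.eq_one_or_neg_one_of_mul_eq_one h2 with h | h
  · left; rw [h, one_mul]
  · right; rw [h, ← zpow_neg]; congr 1; ring

end WPP
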