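import Pool.Agent.Lib.WPR_l0
import Pool.Agent.Lib.WPR_i1
import Pool.Agent.Lib.WPR_i3
import Pool.Agent.Lib.WPR_k1
import Pool.Agent.Lib.WPR_c1
import Pool.Agent.Lib.WPR_c2
import Pool.Agent.Lib.WPR_d2
import Pool.Agent.Lib.WPR_h3
import Pool.Agent.Lib.WPR_i2
import Pool.Agent.Lib.WPR_j1
import Pool.Agent.Lib.WPR_j2

/-! PROJECT WPR, row l1: bounded chains of short automorphisms (rank at most two) -/

namespace WPP

open FreeGroup List

/-- an automorphism which maps `FT T` onto `FT T'` preserves the number of letters -/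
theorem wl_card {n : ℕ} (T T' : Finset (Fin n)) (Ψ : FreeGroup (Fin n) ≃* FreeGroup (Fin n))
    (h : (FT (T : Set (Fin n))).map Ψ.toMonoidHom = FT (T' : Set (Fin n))) :
    T'.card ≤ T.card := by
  classical
  refine (card_le_of_gen T' (T.image fun i => Ψ (FreeGroup.of i)) ?_).trans
    Finset.card_image_le
  rw [← h]
  unfold FT
  rw [MonoidHom.map_closure, Finset.coe_image]
  apply le_of_eq
  congr 1
  ext x
  simp [Set.mem_image]

theorem wl_card_eq {n : ℕ} (T T' : Finset (Fin n))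
    (Ψ : FreeGroup (Fin n) ≃* FreeGroup (Fin n))
    (h : (FT (T : Set (Fin n))).map Ψ.toMonoidHom = FT (T' : Set (Fin n))) :
    T.card = T'.card := by
  refine le_antisymm ?_ (wl_card T T' Ψ h)
  refine wl_card T' T Ψ.symm ?_
  rw [← h, Subgroup.map_map]
  have : Ψ.symm.toMonoidHom.comp Ψ.toMonoidHom = MonoidHom.id _ := by
    ext x
    simp
  rw [this, Subgroup.map_id]

/-- the end of phase one: the core of the free factor is a set of basis elements -/
theorem wl_stab {n : ℕ} (T : Set (Fin n)) (φ e : FreeGroup (Fin n) ≃* FreeGroup (Fin n))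
    (p : FreeGroup (Fin n) ⧸ (FT T).map φ.toMonoidHom)
    (hcar : Car (tw (MulAction.toPermHom (FreeGroup (Fin n))
      (FreeGroup (Fin n) ⧸ (FT T).map φ.toMonoidHom)) e) {p}) :
    ∃ (T' : Set (Fin n)) (k : FreeGroup (Fin n)),
      (FT T).map ((φ.trans e).trans (MulAut.conj k)).toMonoidHom = FT T' := by
  refine ⟨{i : Fin n | tw (MulAction.toPermHom (FreeGroup (Fin n))
      (FreeGroup (Fin n) ⧸ (FT T).map φ.toMonoidHom)) e (FreeGroup.of i) p = p}, ?_⟩
  obtain ⟨a, rfl⟩ := QuotientGroup.mk_surjective p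
  refine ⟨e a, ?_⟩
  ext h
  rw [← V_end _ _ hcar]
  have h1 : tw (MulAction.toPermHom (FreeGroup (Fin n))
      (FreeGroup (Fin n) ⧸ (FT T).map φ.toMonoidHom)) e h
      (a : FreeGroup (Fin n) ⧸ (FT T).map φ.toMonoidHom) =
      ((e.symm h * a : FreeGroup (Fin n)) : FreeGroup (Fin n) ⧸ (FT T).map φ.toMonoidHom) :=
    rfl
  rw [h1, QuotientGroup.eq]
  simp only [Subgroup.mem_map]
  constructor
  · rintro ⟨x, hx, rfl⟩
    refine ⟨x⁻¹, (FT T).inv_mem hx, ?_⟩
    change φ x⁻¹ = (e.symm (e a * e (φ x) * (e a)⁻¹) * a)⁻¹ * a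
    simp only [_root_.map_mul, _root_.map_inv, MulEquiv.symm_apply_apply]
    group
  · rintro ⟨x, hx, hx'⟩
    refine ⟨x⁻¹, (FT T).inv_mem hx, ?_⟩
    change e a * e (φ x⁻¹) * (e a)⁻¹ = h
    have h2 : φ x = (e.symm h * a)⁻¹ * a := hx'
    rw [_root_.map_inv, h2]
    simp only [_root_.map_mul, _root_.map_inv, MulEquiv.apply_symm_apply]
    group

theorem wl_perm {n : ℕ} (T T' : Finset (Fin n)) (h : T'.card = T.card) :
    ∃ σ : Equiv.Perm (Fin n), ∀ i, i ∈ T' ↔ σ i ∈ T := by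
  classical
  let f : {x // x ∈ T'} ≃ {x // x ∈ T} := Finset.equivOfCardEq h
  refine ⟨f.extendSubtype, fun i => ⟨fun hi => f.extendSubtype_mem i hi, fun hi => ?_⟩⟩
  by_contra hc
  exact f.extendSubtype_not_mem i hc hi

theorem wl_omg_FT {n : ℕ} (T T' : Finset (Fin n)) (σ : Equiv.Perm (Fin n))
    (h : ∀ i, i ∈ T' ↔ σ i ∈ T) :
    (FT (T' : Set (Fin n))).map (omg σ fun _ => true).toMonoidHom = FT (T : Set (Fin n)) := by
  unfold FT
  rw [MonoidHom.map_closure]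
  congr 1
  ext x
  simp only [Set.mem_image, Finset.mem_coe]
  have hom : ∀ i : Fin n, (omg σ fun _ => true).toMonoidHom (FreeGroup.of i) =
      FreeGroup.of (σ i) := by
    intro i
    change omg σ (fun _ => true) (FreeGroup.of i) = _
    rw [← lt_true, omg_lt]
    rfl
  constructor
  · rintro ⟨y, ⟨i, hi, rfl⟩, rfl⟩
    exact ⟨σ i, (h i).1 hi, (hom i).symm⟩
  · rintro ⟨j, hj, rfl⟩
    refine ⟨FreeGroup.of (σ.symm j), ⟨σ.symm j, ?_, rfl⟩, ?_⟩
    · rw [h, Equiv.apply_symm_apply]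
      exact hj
    · rw [hom, Equiv.apply_symm_apply]

/-- the case of two letters -/
theorem wl_two {n : ℕ} (ws : List (Word n)) (w : Word n) (i j : Fin n) (hij : i ≠ j)
    (hw : ∀ d ∈ w, d.1 = i ∨ d.1 = j) (hw1 : FreeGroup.mk w ≠ 1)
    (φ : FreeGroup (Fin n) ≃* FreeGroup (Fin n)) (h : φ (FreeGroup.mk w) ∈ gen ws) :
    ∃ es : List (FreeGroup (Fin n) ≃* FreeGroup (Fin n)),
      es.length ≤ bnd n ((posn (sym ws)).length + w.length) ∧ (∀ e ∈ es, Short e) ∧
      ∃ k, k * cmp es (FreeGroup.mk w) * k⁻¹ ∈ gen ws := by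
  classical
  have hn : 0 < n := i.pos
  have hq1 : φ (FreeGroup.mk w) ≠ 1 := by
    intro h0
    exact hw1 (φ.injective (h0.trans (_root_.map_one φ).symm))
  obtain ⟨c0, hS, hc0⟩ := exists_cfg0 hn ws ((posn (sym ws)).length + w.length)
    (Nat.le_add_right _ _)
  have hst0 := hc0 _ h hq1
  set q := φ (FreeGroup.mk w) with hq
  set w0 := reduceCyclically q.toWord with hw0
  have hcw0 : Cj (FreeGroup.mk w0) q := wl_rc q
  -- the letters
  set T : Finset (Fin n) := {i, j} with hT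
  have hTc : (T : Set (Fin n)) = {i, j} := by simp [hT]
  have hTcard : T.card = 2 := Finset.card_pair hij
  have hwT : FreeGroup.mk w ∈ FT (T : Set (Fin n)) := by
    refine wl_mem _ w fun d hd => ?_
    rw [hTc]
    simpa using hw d hd
  -- the action on the cosets of the free factor
  have hA : (FT (T : Set (Fin n))).map φ.toMonoidHom =
      Subgroup.closure ((T.image fun i => φ (FreeGroup.of i) : Finset _) :
        Set (FreeGroup (Fin n))) := by
    unfold FT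
    rw [MonoidHom.map_closure, Finset.coe_image]
    congr 1
    ext x
    simp [Set.mem_image]
  obtain ⟨V, hVne, hVcar⟩ := exists_V _ _ hA
  have hfix : ∃ p, MulAction.toPermHom (FreeGroup (Fin n))
      (FreeGroup (Fin n) ⧸ (FT (T : Set (Fin n))).map φ.toMonoidHom) (FreeGroup.mk w0) p = p := by
    obtain ⟨k, hk⟩ := hcw0
    refine ⟨(k : FreeGroup (Fin n) ⧸ (FT (T : Set (Fin n))).map φ.toMonoidHom), ?_⟩
    change ((FreeGroup.mk w0 * k : FreeGroup (Fin n)) :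
      FreeGroup (Fin n) ⧸ (FT (T : Set (Fin n))).map φ.toMonoidHom) = _
    rw [QuotientGroup.eq, hk]
    refine ⟨(FreeGroup.mk w)⁻¹, (FT (T : Set (Fin n))).inv_mem hwT, ?_⟩
    change φ (FreeGroup.mk w)⁻¹ = _
    rw [_root_.map_inv, ← hq]
    group
  obtain ⟨c1, w1, e, p, ht1, hst1, hcj1, hcar1⟩ :=
    phase1 c0 w0 hst0 _ (trans_init _) T.card (FF_init φ T) V hVne hVcar hfix
  obtain ⟨T'', k₁, hmap⟩ := wl_stab _ φ e p hcar1
  have hT'' : ((Finset.univ.filter fun i => i ∈ T'' : Finset (Fin n)) : Set (Fin n)) = T'' := by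
    ext x
    simp
  set T' : Finset (Fin n) := Finset.univ.filter fun i => i ∈ T'' with hT'
  rw [← hT''] at hmap
  set Ψ := (φ.trans e).trans (MulAut.conj k₁) with hΨ
  have hcard : T'.card = T.card := (wl_card_eq T T' Ψ hmap).symm
  obtain ⟨σ, hσ⟩ := wl_perm T T' hcard
  -- relabelling
  obtain ⟨c2, ht2, hst2⟩ := tr_omg c1 w1 hst1 σ fun _ => true
  set w2 := w1.map (oml σ fun _ => true) with hw2
  have hcj2 : Cj (FreeGroup.mk w2) (omg σ (fun _ => true) (Ψ (FreeGroup.mk w))) := by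
    rw [hw2, wl_omg]
    refine wl_map ?_ _
    have h1 : Cj (FreeGroup.mk w1) (e q) := wl_trans hcj1 (wl_map hcw0 e)
    exact wl_trans h1 (wl_symm (wl_conj k₁ (e q)))
  set Θ := Ψ.trans (omg σ fun _ => true) with hΘ
  have hΘm : (FT ({i, j} : Set (Fin n))).map Θ.toMonoidHom = FT {i, j} := by
    rw [← hTc]
    have h1 : Θ.toMonoidHom = (omg σ fun _ => true).toMonoidHom.comp Ψ.toMonoidHom := rfl
    rw [h1, ← Subgroup.map_map, hmap]
    exact wl_omg_FT T T' σ hσ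
  obtain ⟨s₁, s₂, μ, k₂, hnf⟩ := normal_form i j hij Θ hΘm
  have hcj2' : Cj (FreeGroup.mk w2) (omg 1 s₁ (muE i j μ (omg 1 s₂ (FreeGroup.mk w)))) := by
    refine wl_trans hcj2 ?_
    have h1 := hnf (FreeGroup.mk w) (by rw [← hTc]; exact hwT)
    change Cj (Θ (FreeGroup.mk w)) _
    rw [h1]
    exact wl_conj _ _
  obtain ⟨c3, ht3, hst3⟩ := tr_omg c2 w2 hst2 1 s₁
  set w3 := w2.map (oml 1 s₁) with hw3
  have hcj3 : Cj (FreeGroup.mk w3) (muE i j μ (FreeGroup.mk (w.map (oml 1 s₂)))) := by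
    rw [hw3, wl_omg 1 s₁ w2, wl_omg 1 s₂ w]
    have h1 := wl_map hcj2' (omg 1 s₁)
    rwa [wl_omg_invol] at h1
  have hlet3 : ∀ d ∈ w3, d.1 = i ∨ d.1 = j := by
    have hΘw : Θ (FreeGroup.mk w) ∈ FT (T : Set (Fin n)) := by
      rw [hTc, ← hΘm, ← hTc]
      exact ⟨_, hwT, rfl⟩
    have hl2 := wl_cyc _ w2 hst2.1 _ hΘw hcj2
    intro d hd
    rw [hw3] at hd
    obtain ⟨a, ha, rfl⟩ := List.mem_map.1 hd
    have h1 := hl2 a ha
    rw [hTc] at h1
    simpa [oml] using h1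
  obtain ⟨c4, w4, ht4, hst4, hcj4⟩ := phase2 i j hij (w.map (oml 1 s₂))
    (M := (posn (sym ws)).length + w.length) (N := (posn (sym ws)).length)
    (by rw [List.length_map]) μ c3 w3 hst3 hlet3 hcj3
  obtain ⟨c5, ht5, hst5⟩ := tr_omg c4 w4 hst4 1 s₂
  have hcj5 : Cj (FreeGroup.mk (w4.map (oml 1 s₂))) (FreeGroup.mk w) := by
    rw [wl_omg]
    have h1 := wl_map hcj4 (omg 1 s₂)
    rwa [wl_omg, wl_omg_invol] at h1
  have hall : Relation.ReflTransGen Tr c0 c5 :=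
    ((ht1.tail ht2).tail ht3).trans (ht4.tail ht5)
  obtain ⟨es, hlen, hshort, hsnd⟩ := es_of_tr c0 c5 hall (gen ws) hS
  obtain ⟨_, _, l, hl, hcyc, _⟩ := hst5
  obtain ⟨k, hk⟩ := snd_acc _ c5 hsnd _ ⟨l, hl, hcyc⟩
  obtain ⟨y, hy, hy'⟩ := hk
  refine ⟨es, hlen, hshort, ?_⟩
  obtain ⟨k', hk'⟩ := hcj5
  refine ⟨cmp es (k * k'), ?_⟩
  have h1 : (cmp es).symm y = k * FreeGroup.mk (w4.map (oml 1 s₂)) * k⁻¹ := hy'
  have h2 : y = cmp es (k * FreeGroup.mk (w4.map (oml 1 s₂)) * k⁻¹) := by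
    rw [← h1, MulEquiv.apply_symm_apply]
  have h3 : cmp es (k * k') * cmp es (FreeGroup.mk w) * (cmp es (k * k'))⁻¹ = y := by
    rw [h2, hk']
    simp only [_root_.map_mul, _root_.map_inv]
    group
  rw [h3]
  exact hy

theorem bounded {n : ℕ} (ws : List (Word n)) (w : Word n) (T : Finset (Fin n))
    (hT : T.card ≤ 2) (hw : ∀ d ∈ w, d.1 ∈ T) (hw1 : FreeGroup.mk w ≠ 1)
    (h : ∃ φ : FreeGroup (Fin n) ≃* FreeGroup (Fin n), φ (FreeGroup.mk w) ∈ gen ws) :
    ∃ es : List (FreeGroup (Fin n) ≃* FreeGroup (Fin n)),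
      es.length ≤ bnd n ((posn (sym ws)).length + w.length) ∧ (∀ e ∈ es, Short e) ∧
      ∃ k, k * cmp es (FreeGroup.mk w) * k⁻¹ ∈ gen ws := by
  classical
  obtain ⟨φ, hφ⟩ := h
  obtain ⟨d, hd⟩ : ∃ d, d ∈ w := by
    apply List.exists_mem_of_ne_nil
    rintro rfl
    exact hw1 rfl
  by_cases hn : n = 1
  · subst hn
    refine ⟨[], Nat.zero_le _, by simp, 1, ?_⟩
    have h1 : cmp ([] : List (FreeGroup (Fin 1) ≃* FreeGroup (Fin 1))) (FreeGroup.mk w) =
        FreeGroup.mk w := rfl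
    rw [h1, one_mul, inv_one, mul_one]
    rcases wl_aut_one φ (FreeGroup.mk w) with h2 | h2
    · rwa [h2] at hφ
    · rw [h2] at hφ
      exact (Subgroup.inv_mem_iff _).1 hφ
  · -- enlarge the set of letters to two elements
    have hn2 : 2 ≤ n := by
      have := d.1.pos
      omega
    obtain ⟨T₂, hT₂, hc⟩ : ∃ T₂ : Finset (Fin n), T ⊆ T₂ ∧ T₂.card = 2 := by
      obtain ⟨T₂, h1, _, h3⟩ := Finset.exists_subsuperset_card_eq (Finset.subset_univ T) hT
        (by rw [Finset.card_univ, Fintype.card_fin]; exact hn2)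
      exact ⟨T₂, h1, h3⟩
    obtain ⟨i, j, hij, rfl⟩ := Finset.card_eq_two.1 hc
    refine wl_two ws w i j hij (fun a ha => ?_) hw1 φ hφ
    have := hT₂ (hw a ha)
    simpa using this

end WPP
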