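import Pool.Agent.Lib.WPR_e2
import Pool.Agent.Lib.WPR_e1

/-!
# PROJECT WPR (MP_2e2606_al): a closed walk in `V` with a given cyclically reduced label
-/

namespace WPP

open FreeGroup List

/-- steps in `V` -/
def wpr_m0_E {n : ℕ} {X : Type} (ρ : FreeGroup (Fin n) →* Equiv.Perm X) (V : Set X)
    (a b : X × Ltr n) : Prop := a.1 ∈ V ∧ b.1 ∈ V ∧ stp ρ a.1 a.2 = b.1

/-- a walk in `V` as a list of points and letters -/
theorem wpr_m0_path {n : ℕ} {X : Type} (ρ : FreeGroup (Fin n) →* Equiv.Perm X) (V : Set X)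
    {c : X} {h : FreeGroup (Fin n)} (hp : Pth ρ V c h) :
    ∃ L : List (X × Ltr n), FreeGroup.mk (L.map Prod.snd) = h ∧ (ρ h)⁻¹ c ∈ V ∧
      (∀ y : Ltr n, List.IsChain (wpr_m0_E ρ V) (L ++ [((ρ h)⁻¹ c, y)])) ∧
      (∀ a ∈ L.head?, a.1 = c) := by
  induction hp with
  | refl hc =>
    refine ⟨[], rfl, by simpa using hc, fun y => by simp, by simp⟩
  | @step h d _ hV ih =>
    obtain ⟨L, h1, h2, h3, h4⟩ := ih
    refine ⟨L ++ [((ρ h)⁻¹ c, d)], ?_, hV, ?_, ?_⟩
    · rw [List.map_append, ← FreeGroup.mul_mk, h1]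
      rfl
    · intro y
      rw [List.isChain_append]
      refine ⟨h3 d, by simp, ?_⟩
      intro a ha b hb
      simp only [List.getLast?_append, List.getLast?_singleton, Option.some_or, Option.mem_def,
        Option.some.injEq] at ha
      simp only [List.head?_cons, Option.mem_def, Option.some.injEq] at hb
      subst ha hb
      refine ⟨h2, hV, ?_⟩
      show (ρ (lt d))⁻¹ ((ρ h)⁻¹ c) = (ρ (h * lt d))⁻¹ c
      rw [_root_.map_mul, mul_inv_rev, Equiv.Perm.mul_apply]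
    · intro a ha
      rcases L with _ | ⟨b, L⟩
      · simp only [List.nil_append, List.head?_cons, Option.mem_def, Option.some.injEq] at ha
        subst ha
        have h5 : h = 1 := h1.symm
        simp [h5]
      · refine h4 a ?_
        simpa using ha

theorem wpr_m0_walk {n : ℕ} {X : Type} (ρ : FreeGroup (Fin n) →* Equiv.Perm X) (htr : Trans ρ)
    (V : Set X) (hV : V.Nonempty) (hcar : Car ρ V) (w : Word n) (hw : IsCyclicallyReduced w)
    (hne : w ≠ []) (hfix : ∃ c, ρ (FreeGroup.mk w) c = c) :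
    ∃ l : List (X × Ltr n), Cyc (wpr_m0_E ρ V) l ∧ l.map Prod.snd = w := by
  obtain ⟨c, hc⟩ := hfix
  obtain ⟨c1, hc1⟩ := hV
  obtain ⟨k, hk⟩ := htr c c1
  have hw1 : FreeGroup.mk w ≠ 1 := by
    intro h1
    have h2 : FreeGroup.reduce w = [] := by
      rw [← FreeGroup.toWord_mk, h1, FreeGroup.toWord_one]
    rw [hw.isReduced.reduce_eq] at h2
    exact hne h2
  set h : FreeGroup (Fin n) := k * FreeGroup.mk w * k⁻¹ with hh
  have hhc : ρ h c1 = c1 := by
    have h1 : ρ k⁻¹ c1 = c := by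
      rw [← hk, _root_.map_inv]
      exact Equiv.symm_apply_apply _ _
    rw [hh, _root_.map_mul, _root_.map_mul, Equiv.Perm.mul_apply, Equiv.Perm.mul_apply, h1, hc, hk]
  have hhc' : (ρ h)⁻¹ c1 = c1 := by
    rw [Equiv.Perm.inv_eq_iff_eq]
    exact hhc.symm
  have hh1 : h ≠ 1 := by
    intro h1
    apply hw1
    have h2 : FreeGroup.mk w = k⁻¹ * h * k := by rw [hh]; group
    rw [h2, h1]
    group
  obtain ⟨L, h1, _, h3, h4⟩ := wpr_m0_path ρ V (hcar c1 hc1 h (by rw [hhc']; exact hc1))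
  have hL : L ≠ [] := by
    rintro rfl
    exact hh1 h1.symm
  obtain ⟨a, t, rfl⟩ := List.exists_cons_of_ne_nil hL
  have ha : a.1 = c1 := h4 a rfl
  have hcyc : Cyc (wpr_m0_E ρ V) (a :: t) := by
    rw [rowB_cyc]
    have h5 := h3 a.2
    rw [hhc', ← ha] at h5
    exact h5
  have hcancel : ∀ a b c d : X × Ltr n, wpr_m0_E ρ V a b → wpr_m0_E ρ V b c →
      wpr_m0_E ρ V c d → c.2 = bar b.2 → wpr_m0_E ρ V a d := by
    intro a b c d hab hbc hcd he
    refine ⟨hab.1, hcd.2.1, ?_⟩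
    rw [hab.2.2, ← hcd.2.2, he, ← hbc.2.2]
    show b.1 = (ρ (lt (bar b.2)))⁻¹ ((ρ (lt b.2))⁻¹ b.1)
    rw [lt_bar, _root_.map_inv, inv_inv]
    exact (Equiv.apply_symm_apply _ _).symm
  obtain ⟨l', _, h6, h7⟩ := cancel_cyc Prod.snd (wpr_m0_E ρ V) hcancel (a :: t) hcyc
    (by rw [h1]; exact hh1)
  set u : Word n := (a :: t).map Prod.snd with hu
  have hred : IsCyclicallyReduced (reduceCyclically (FreeGroup.reduce u)) :=
    reduceCyclically.isCyclicallyReduced (FreeGroup.isReduced_iff_reduce_eq.2 FreeGroup.reduce.idem)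
  have hconj : Cj (FreeGroup.mk (reduceCyclically (FreeGroup.reduce u))) (FreeGroup.mk w) := by
    have h8 := congrArg FreeGroup.mk (reduceCyclically.conj_conjugator_reduceCyclically
      (FreeGroup.reduce u))
    rw [← FreeGroup.mul_mk, ← FreeGroup.mul_mk, ← FreeGroup.inv_mk, FreeGroup.reduce.self,
      h1] at h8
    refine ⟨(FreeGroup.mk (reduceCyclically.conjugator (FreeGroup.reduce u)))⁻¹ * k, ?_⟩
    have h9 : FreeGroup.mk (reduceCyclically (FreeGroup.reduce u)) =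
        (FreeGroup.mk (reduceCyclically.conjugator (FreeGroup.reduce u)))⁻¹ * h *
          FreeGroup.mk (reduceCyclically.conjugator (FreeGroup.reduce u)) := by
      rw [← h8]; group
    rw [h9, hh]
    group
  obtain ⟨r, hr⟩ := rot_of_conj w _ hw hred hconj
  refine ⟨l'.rotate r, rowB_cyc_rot ⟨r, rfl⟩ h6, ?_⟩
  rw [List.map_rotate, h7, hr]

end WPP
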