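import Pool.Agent.Lib.WPR_b4
import Pool.Agent.Lib.WPR_m0
import Pool.Agent.Lib.WPR_k1
import Pool.Agent.Lib.WPP_A5

/-!
# PROJECT WPR (MP_2e2606_al), row m1: cut pairs for elements of free factors of rank two which use
at least three letters
-/

namespace WPP

open FreeGroup List

theorem sep_cut {n : ℕ} {X : Type} (ρ : FreeGroup (Fin n) →* Equiv.Perm X) (htr : Trans ρ)
    (hFF : FF ρ 2) (V : Finset X) (hV : V.Nonempty) (hcar : Car ρ (V : Set X)) (w : Word n)
    (hw : IsCyclicallyReduced w) (hfix : ∃ c, ρ (FreeGroup.mk w) c = c) (h3 : 3 ≤ supp w) :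
    ∃ (A : Ltr n → Prop) (x : Ltr n), Cut A x w := by
  classical
  have hne : w ≠ [] := by
    rintro rfl
    simp [supp] at h3
  obtain ⟨l, hl, hlw⟩ := wpr_m0_walk ρ htr (V : Set X) (by simpa using hV) hcar w hw hne hfix
  -- all points of the walk lie in `V`
  have hmem : ∀ a ∈ l, a.1 ∈ V := by
    intro a ha
    obtain ⟨b, hb⟩ := a4_succ ha
    exact Finset.mem_coe.1 (a4_rel hl hb).1
  by_cases hv : ∃ a ∈ l, ∃ b ∈ l, a.1 ≠ b.1
  · obtain ⟨V', _, _, E', f, hinj, hed, hfull, hcc⟩ :=
      wpr_b4_graph ρ htr 2 hFF V hcar hV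
    -- extend `f` to all points
    let F : X → V' := fun c => if h : c ∈ V then f ⟨c, h⟩ else f ⟨hV.choose, hV.choose_spec⟩
    have hF : ∀ c (h : c ∈ V), F c = f ⟨c, h⟩ := fun c h => dif_pos h
    have hcyc : Cyc (fun a b : V' × Ltr n => Edge E' a.1 a.2 b.1)
        (l.map fun a => (F a.1, a.2)) := by
      have hR : ∀ a b : X × Ltr n, wpr_m0_E ρ (V : Set X) a b → Edge E' (F a.1) a.2 (F b.1) := by
        intro a b hab
        rw [hF _ (Finset.mem_coe.1 hab.1), hF _ (Finset.mem_coe.1 hab.2.1)]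
        exact hed _ _ _ hab.2.2
      refine ⟨?_, ?_⟩
      · rw [List.isChain_map]
        exact hl.1.imp hR
      · intro a ha b hb
        rw [List.getLast?_map, Option.mem_def, Option.map_eq_some_iff] at ha
        rw [List.head?_map, Option.mem_def, Option.map_eq_some_iff] at hb
        obtain ⟨a', ha', rfl⟩ := ha
        obtain ⟨b', hb', rfl⟩ := hb
        exact hR a' b' (hl.2 a' ha' b' hb')
    have hmap : (l.map fun a => (F a.1, a.2)).map Prod.snd = w := by
      rw [List.map_map, ← hlw]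
      rfl
    obtain ⟨A, x, hcut⟩ := cut_of_walk E' hfull hcc (l.map fun a => (F a.1, a.2)) hcyc
      (by rw [hmap]; exact hw)
      (by
        obtain ⟨a, ha, b, hb, hab⟩ := hv
        refine ⟨_, List.mem_map.2 ⟨a, ha, rfl⟩, _, List.mem_map.2 ⟨b, hb, rfl⟩, ?_⟩
        intro h
        apply hab
        have h1 : F a.1 = F b.1 := h
        rw [hF _ (hmem a ha), hF _ (hmem b hb)] at h1
        exact congrArg Subtype.val (hinj h1))
    rw [hmap] at hcut
    exact ⟨A, x, hcut⟩
  · exfalso
    push Not at hv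
    -- the only point
    obtain ⟨a0, ha0⟩ : ∃ a, a ∈ l := by
      rcases l with _ | ⟨a, t⟩
      · simp at hlw
        exact absurd hlw hne
      · exact ⟨a, by simp⟩
    obtain ⟨B, C, hB2, _, _, hstab⟩ := hFF a0.1
    have hstep : ∀ a ∈ l, ρ (lt a.2) a0.1 = a0.1 := by
      intro a ha
      obtain ⟨b, hb⟩ := a4_succ ha
      have h1 : stp ρ a.1 a.2 = b.1 := (a4_rel hl hb).2.2
      rw [hv a ha a0 ha0, hv b (a4_mem hb).2 a0 ha0] at h1
      have h2 : (ρ (lt a.2))⁻¹ a0.1 = a0.1 := h1
      rw [Equiv.Perm.inv_eq_iff_eq] at h2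
      exact h2.symm
    have hsub : FT (((w.map Prod.fst).toFinset : Finset (Fin n)) : Set (Fin n)) ≤
        Subgroup.closure (B : Set (FreeGroup (Fin n))) := by
      rw [FT, Subgroup.closure_le]
      rintro _ ⟨i, hi, rfl⟩
      have hi' : i ∈ w.map Prod.fst := by simpa using hi
      obtain ⟨d, hd, rfl⟩ := List.mem_map.1 hi'
      rw [← hlw] at hd
      obtain ⟨a, ha, rfl⟩ := List.mem_map.1 hd
      refine (hstab _).1 ?_
      have h1 := hstep a ha
      rcases hs : a.2.2 with _ | _
      · have e : lt a.2 = (FreeGroup.of a.2.1)⁻¹ := by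
          rw [show a.2 = (a.2.1, false) from Prod.ext rfl hs]; rfl
        rw [e, _root_.map_inv, Equiv.Perm.inv_eq_iff_eq] at h1
        exact h1.symm
      · have e : lt a.2 = FreeGroup.of a.2.1 := by
          rw [show a.2 = (a.2.1, true) from Prod.ext rfl hs]; rfl
        rwa [e] at h1
    have h4 := card_le_of_gen _ B hsub
    have h5 : supp w = (w.map Prod.fst).toFinset.card := by
      rw [supp, List.card_toFinset]
    omega

end WPP
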