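import Pool.Agent.Lib.WPR_j1
import Pool.Agent.Lib.WPR_m1
import Pool.Agent.Lib.WPR_c1
import Pool.Agent.Lib.WPR_e2
import Pool.Agent.Lib.WPR_f1

/-!
# PROJECT WPR (MP_2e2606_al), row m2: reduction of the support to two letters (helper73)
-/

namespace WPP

open FreeGroup List

theorem m2_kp_length {n : ℕ} (A : Ltr n → Prop) (z d : Ltr n) :
    (Kp A z d).toWord.length ≤ 1 := by
  classical
  unfold Kp
  split_ifs
  · simp [lt, FreeGroup.toWord_mk]
  · simp

theorem m2_tau_short {n : ℕ} (A : Ltr n → Prop) (x : Ltr n) : Short (tau A x) := by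
  intro i
  rw [tau_apply]
  by_cases h : i = x.1
  · have h1 : tauHom A x (FreeGroup.of i) = FreeGroup.of i := tauHom_fix A x (i, true) h
    rw [h1]
    simp
  · have h1 : tauHom A x (FreeGroup.of i) =
        Kp A x (i, true) * lt (i, true) * (Kp A x (bar (i, true)))⁻¹ := tauHom_lt A x (i, true) h
    rw [h1]
    have h2 := FreeGroup.toWord_mul_sublist (Kp A x (i, true) * lt (i, true))
      (Kp A x (bar (i, true)))⁻¹
    have h3 := FreeGroup.toWord_mul_sublist (Kp A x (i, true)) (lt (i, true))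
    have h4 := h2.length_le
    have h5 := h3.length_le
    rw [List.length_append] at h4 h5
    have h6 := m2_kp_length A x (i, true)
    have h7 := m2_kp_length A x (bar (i, true))
    have h8 : (lt ((i, true) : Ltr n)).toWord.length = 1 := by
      simp [lt, FreeGroup.toWord_mk]
    rw [FreeGroup.toWord_inv, FreeGroup.invRev_length] at h4
    omega

theorem m2_cmp_append {n : ℕ} (es : List (FreeGroup (Fin n) ≃* FreeGroup (Fin n)))
    (e : FreeGroup (Fin n) ≃* FreeGroup (Fin n)) (g : FreeGroup (Fin n)) :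
    cmp (es ++ [e]) g = cmp es (e g) := by
  induction es with
  | nil => rfl
  | cons a es ih =>
    show a (cmp (es ++ [e]) g) = a (cmp es (e g))
    rw [ih]

theorem m2_cyc_cj {n : ℕ} (g : FreeGroup (Fin n)) :
    Cj (FreeGroup.mk (reduceCyclically g.toWord)) g := by
  have h := reduceCyclically.conj_conjugator_reduceCyclically g.toWord
  refine ⟨(FreeGroup.mk (reduceCyclically.conjugator g.toWord))⁻¹, ?_⟩
  have h2 : g = FreeGroup.mk (reduceCyclically.conjugator g.toWord) *
      FreeGroup.mk (reduceCyclically g.toWord) *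
      (FreeGroup.mk (reduceCyclically.conjugator g.toWord))⁻¹ := by
    rw [FreeGroup.inv_mk, FreeGroup.mul_mk, FreeGroup.mul_mk, h, FreeGroup.mk_toWord]
  have h3 : ∀ c r g : FreeGroup (Fin n), g = c * r * c⁻¹ → r = c⁻¹ * g * c⁻¹⁻¹ := by
    rintro c r g rfl
    group
  exact h3 _ _ _ h2

theorem m2_cyc_cr {n : ℕ} (g : FreeGroup (Fin n)) :
    IsCyclicallyReduced (reduceCyclically g.toWord) :=
  reduceCyclically.isCyclicallyReduced FreeGroup.isReduced_toWord

theorem m2_FT_closure {n : ℕ} (φ : FreeGroup (Fin n) ≃* FreeGroup (Fin n)) (T : Finset (Fin n)) :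
    (FT (T : Set (Fin n))).map φ.symm.toMonoidHom =
      Subgroup.closure ((T.image fun i => φ.symm (FreeGroup.of i) :
        Finset (FreeGroup (Fin n))) : Set (FreeGroup (Fin n))) := by
  unfold FT
  rw [MonoidHom.map_closure]
  congr 1
  ext g
  simp only [Set.mem_image, Finset.coe_image, Finset.mem_coe]
  constructor
  · rintro ⟨h, ⟨i, hi, rfl⟩, rfl⟩
    exact ⟨i, hi, rfl⟩
  · rintro ⟨i, hi, rfl⟩
    exact ⟨_, ⟨i, hi, rfl⟩, rfl⟩

theorem m2_FF_mono {n : ℕ} {X : Type} (ρ : FreeGroup (Fin n) →* Equiv.Perm X) {m m' : ℕ}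
    (hm : m ≤ m') (h : FF ρ m) : FF ρ m' := by
  intro c
  obtain ⟨B, C, h1, h2, h3, h4⟩ := h c
  exact ⟨B, C, h1.trans hm, h2, h3, h4⟩

theorem m2_C2_map {n : ℕ} {g : FreeGroup (Fin n)} (h : C2 g)
    (e : FreeGroup (Fin n) ≃* FreeGroup (Fin n)) : C2 (e g) := by
  obtain ⟨φ, T, hT, hg⟩ := h
  refine ⟨e.symm.trans φ, T, hT, ?_⟩
  show φ (e.symm (e g)) ∈ _
  rw [MulEquiv.symm_apply_apply]
  exact hg

theorem m2_cut {n : ℕ} (g : FreeGroup (Fin n)) (hC : C2 g)
    (h3 : 3 ≤ supp (reduceCyclically g.toWord)) :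
    ∃ (A : Ltr n → Prop) (x : Ltr n), Cut A x (reduceCyclically g.toWord) := by
  obtain ⟨φ, T, hT, hg⟩ := hC
  obtain ⟨V, hV, hcar⟩ := exists_V ((FT (T : Set (Fin n))).map φ.symm.toMonoidHom) _
    (m2_FT_closure φ T)
  refine sep_cut _ (trans_init _) (m2_FF_mono _ hT (FF_init φ.symm T)) V hV hcar _ (m2_cyc_cr g)
    ?_ h3
  refine j1_fix _ (m2_cyc_cj g) ⟨QuotientGroup.mk 1, ?_⟩
  change (QuotientGroup.mk (s := (FT (T : Set (Fin n))).map φ.symm.toMonoidHom) (g * 1)) =
    QuotientGroup.mk 1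
  rw [mul_one, QuotientGroup.eq, mul_one]
  refine Subgroup.inv_mem _ ⟨φ g, hg, ?_⟩
  show φ.symm (φ g) = g
  rw [MulEquiv.symm_apply_apply]

/-- the induction of row m2 -/
theorem m2_main {n : ℕ} (N : ℕ) : ∀ g : FreeGroup (Fin n), C2 g →
    (reduceCyclically g.toWord).length ≤ N →
    ∃ es : List (FreeGroup (Fin n) ≃* FreeGroup (Fin n)), es.length ≤ N ∧
      (∀ e ∈ es, Short e) ∧ supp (reduceCyclically (cmp es g).toWord) ≤ 2 := by
  induction N with
  | zero =>
    intro g _ hl
    have h0 : reduceCyclically g.toWord = [] := List.length_eq_zero_iff.1 (by omega)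
    refine ⟨[], le_rfl, by simp, ?_⟩
    show supp (reduceCyclically g.toWord) ≤ 2
    rw [h0]
    simp [supp]
  | succ N ih =>
    intro g hC hl
    rcases Nat.lt_or_ge (supp (reduceCyclically g.toWord)) 3 with h3 | h3
    · exact ⟨[], Nat.zero_le _, by simp, by
        show supp (reduceCyclically g.toWord) ≤ 2
        omega⟩
    · obtain ⟨A, x, hcut⟩ := m2_cut g hC h3
      obtain ⟨p', hp', -, hlt, -, hcj, -⟩ := move_word2 (reduceCyclically g.toWord) (m2_cyc_cr g)
        A x hcut.hx hcut.hbx hcut.turn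
      have h1 : (reduceCyclically (tau A x g).toWord).length ≤ N := by
        have h2 : Cj (FreeGroup.mk (reduceCyclically (tau A x g).toWord)) (FreeGroup.mk p') := by
          refine j1_cj_trans (m2_cyc_cj _) (j1_cj_trans (j1_cj_map (tau A x) ?_)
            (j1_cj_symm hcj))
          exact j1_cj_symm (m2_cyc_cj g)
        have h4 := length_le_of_conj _ _ (m2_cyc_cr _) h2
        have h5 := hlt hcut
        omega
      obtain ⟨es, he1, he2, he3⟩ := ih (tau A x g) (m2_C2_map hC _) h1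
      refine ⟨es ++ [tau A x], ?_, ?_, ?_⟩
      · rw [List.length_append, List.length_singleton]
        omega
      · intro e he
        rcases List.mem_append.1 he with he | he
        · exact he2 e he
        · rw [List.mem_singleton.1 he]
          exact m2_tau_short A x
      · rw [m2_cmp_append]
        exact he3

-- ROW m2 (WPR_m2.lean; uses m1, f1, c1, c2)
theorem c2_bounded {n : ℕ} (w : Word n) (hC : C2 (FreeGroup.mk w)) :
    ∃ es : List (FreeGroup (Fin n) ≃* FreeGroup (Fin n)), es.length ≤ w.length ∧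
      (∀ e ∈ es, Short e) ∧
      supp (reduceCyclically (cmp es (FreeGroup.mk w)).toWord) ≤ 2 := by
  refine m2_main w.length _ hC ?_
  exact length_le_of_conj _ _ (m2_cyc_cr _) (m2_cyc_cj _)

end WPP
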