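import Pool.Agent.Lib.WPR_n1d
import Pool.Agent.Lib.WPP_F2
import Pool.Agent.Lib.WPP_F4

/-! PROJECT WPR, row n1: the two certificates are primitive recursive -/

namespace WPP

open FreeGroup List

/-- one step of the walk -/
def stepW {n : ℕ} (W : List (Word n)) (E : List (Pos n × Pos n)) (L : List (Pos n)) (y : Ltr n) :
    List (Pos n) :=
  L.flatMap fun b => (posn W).filter fun c => decide (c.1 = y ∧ (b, c) ∈ E)

theorem walkW_eq {n : ℕ} (W : List (Word n)) (E : List (Pos n × Pos n)) (w : Word n)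
    (L : List (Pos n)) : walkW W E w L = w.foldl (stepW W E) L := by
  induction w generalizing L with
  | nil => rfl
  | cons y w ih => rw [walkW, ih]; rfl

section

variable {α : Type} [Primcodable α]

theorem stepW_primrec {n : ℕ} {W : α → List (Word n)} {E : α → List (Pos n × Pos n)}
    {L : α → List (Pos n)} {y : α → Ltr n} (hW : Primrec W) (hE : Primrec E)
    (hL : Primrec L) (hy : Primrec y) : Primrec fun z => stepW (W z) (E z) (L z) (y z) := by
  unfold stepW
  refine Primrec.list_flatMap hL ?_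
  have hF : Primrec fun v : α × Pos n => v.1 := Primrec.fst
  have hP : PrimrecRel fun (c : Pos n) (v : α × Pos n) =>
      c.1 = y v.1 ∧ (v.2, c) ∈ E v.1 := by
    have hF' : Primrec fun w : Pos n × (α × Pos n) => w.2.1 := hF.comp Primrec.snd
    exact (pp_eq (Primrec.fst.comp Primrec.fst) (hy.comp hF')).and
      (pp_mem (Primrec.pair (Primrec.snd.comp Primrec.snd) Primrec.fst) (hE.comp hF'))
  have := hP.listFilter.comp (((posn_primrec n).comp (hW.comp hF))) Primrec.id
  exact this

theorem walkW_primrec {n : ℕ} {W : α → List (Word n)} {E : α → List (Pos n × Pos n)}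
    {w : α → Word n} {L : α → List (Pos n)} (hW : Primrec W) (hE : Primrec E)
    (hw : Primrec w) (hL : Primrec L) :
    Primrec fun z => walkW (W z) (E z) (w z) (L z) := by
  have h : Primrec fun z => (w z).foldl (fun s y => stepW (W z) (E z) s y) (L z) := by
    refine Primrec.list_foldl (h := fun (z : α) (q : List (Pos n) × Ltr n) =>
      stepW (W z) (E z) q.1 q.2) hw hL ?_
    exact stepW_primrec (hW.comp Primrec.fst) (hE.comp Primrec.fst)
      (Primrec.fst.comp Primrec.snd) (Primrec.snd.comp Primrec.snd)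
  exact h.of_eq fun z => (walkW_eq (W z) (E z) (w z) (L z)).symm

theorem negC_primrec {n : ℕ} {ws : α → List (Word n)} {u k c : α → Word n}
    {E : α → List (Pos n × Pos n)} (hws : Primrec ws) (hu : Primrec u) (hk : Primrec k)
    (hc : Primrec c) (hE : Primrec E) :
    PrimrecPred fun z => NegC (ws z) (u z) (k z) (c z) (E z) := by
  have hW : Primrec fun z => sym (ws z) := sym_primrec.comp hws
  have hp : Primrec fun z => posn (sym (ws z)) := (posn_primrec n).comp hW
  have c1 : PrimrecPred fun z => ∀ a ∈ posn (sym (ws z)), ∀ b ∈ posn (sym (ws z)),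
      D0 (sym (ws z)) a b → (a, b) ∈ E z := by
    refine pp_all hp (pp_all (hp.comp Primrec.fst) ?_)
    have F : Primrec fun v : (α × Pos n) × Pos n => v.1.1 := Primrec.fst.comp Primrec.fst
    have A : Primrec fun v : (α × Pos n) × Pos n => v.1.2 := Primrec.snd.comp Primrec.fst
    have B : Primrec fun v : (α × Pos n) × Pos n => v.2 := Primrec.snd
    exact pp_imp (d0_primrec (hW.comp F) A B) (pp_mem (Primrec.pair A B) (hE.comp F))
  have c2 : PrimrecPred fun z => ∀ a ∈ posn (sym (ws z)), ∀ b ∈ posn (sym (ws z)),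
      ∀ c ∈ posn (sym (ws z)), ∀ d ∈ posn (sym (ws z)), (a, b) ∈ E z → (b, c) ∈ E z →
        (c, d) ∈ E z → c.1 = bar b.1 → (a, d) ∈ E z := by
    refine pp_all hp (pp_all (hp.comp Primrec.fst) (pp_all (hp.comp (Primrec.fst.comp
      Primrec.fst)) (pp_all (hp.comp (Primrec.fst.comp (Primrec.fst.comp Primrec.fst))) ?_)))
    have F : Primrec fun v : (((α × Pos n) × Pos n) × Pos n) × Pos n => v.1.1.1.1 :=
      Primrec.fst.comp (Primrec.fst.comp (Primrec.fst.comp Primrec.fst))
    have A : Primrec fun v : (((α × Pos n) × Pos n) × Pos n) × Pos n => v.1.1.1.2 :=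
      Primrec.snd.comp (Primrec.fst.comp (Primrec.fst.comp Primrec.fst))
    have B : Primrec fun v : (((α × Pos n) × Pos n) × Pos n) × Pos n => v.1.1.2 :=
      Primrec.snd.comp (Primrec.fst.comp Primrec.fst)
    have C : Primrec fun v : (((α × Pos n) × Pos n) × Pos n) × Pos n => v.1.2 :=
      Primrec.snd.comp Primrec.fst
    have D : Primrec fun v : (((α × Pos n) × Pos n) × Pos n) × Pos n => v.2 := Primrec.snd
    exact pp_imp (pp_mem (Primrec.pair A B) (hE.comp F)) (pp_imp
      (pp_mem (Primrec.pair B C) (hE.comp F)) (pp_imp (pp_mem (Primrec.pair C D) (hE.comp F))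
        (pp_imp (pp_eq (Primrec.fst.comp C) (bar_primrec.comp (Primrec.fst.comp B)))
          (pp_mem (Primrec.pair A D) (hE.comp F)))))
  have c3 : PrimrecPred fun z => ∀ a ∈ posn (sym (ws z)),
      a ∉ walkW (sym (ws z)) (E z) (c z) [a] := by
    refine pp_all hp ?_
    exact (pp_mem Primrec.snd (walkW_primrec (hW.comp Primrec.fst) (hE.comp Primrec.fst)
      (hc.comp Primrec.fst) (Primrec.list_cons.comp Primrec.snd (Primrec.const [])))).not
  have c4 : PrimrecPred fun z => FreeGroup.reduce (k z ++ c z ++ FreeGroup.invRev (k z)) =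
      FreeGroup.reduce (u z) :=
    pp_eq ((reduce_primrec n).comp (Primrec.list_append.comp (Primrec.list_append.comp hk hc)
      (invRev_primrec.comp hk))) ((reduce_primrec n).comp hu)
  have c5 : PrimrecPred fun z => c z ≠ [] := (pp_eq hc (Primrec.const [])).not
  have c6 : PrimrecPred fun z => FreeGroup.reduce (c z ++ c z) = c z ++ c z :=
    pp_eq ((reduce_primrec n).comp (Primrec.list_append.comp hc hc))
      (Primrec.list_append.comp hc hc)
  exact (c4.and (c5.and (c6.and (c1.and (c2.and c3))))).of_eq fun z =>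
    ⟨fun h => ⟨h.1, h.2.1, h.2.2.1, h.2.2.2.1, h.2.2.2.2.1, h.2.2.2.2.2⟩,
      fun h => ⟨h.eq, h.ne, h.red, h.d0, h.cancel, h.noLoop⟩⟩

theorem posC_primrec {n : ℕ} {ws : α → List (Word n)} {u k : α → Word n}
    {e : α → List (ℕ × Bool)} (hws : Primrec ws) (hu : Primrec u) (hk : Primrec k)
    (he : Primrec e) : PrimrecPred fun z => PosC (ws z) (u z) (k z) (e z) := by
  have h : PrimrecPred fun z => FreeGroup.reduce (k z ++ u z ++ FreeGroup.invRev (k z)) =
      FreeGroup.reduce ((e z).flatMap fun q =>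
        bif q.2 then (ws z).getD q.1 [] else FreeGroup.invRev ((ws z).getD q.1 [])) := by
    refine pp_eq ((reduce_primrec n).comp (Primrec.list_append.comp (Primrec.list_append.comp hk
      hu) (invRev_primrec.comp hk))) ((reduce_primrec n).comp (Primrec.list_flatMap he ?_))
    have hg : Primrec fun v : α × (ℕ × Bool) => (ws v.1).getD v.2.1 [] :=
      (Primrec.list_getD []).comp (hws.comp Primrec.fst) (Primrec.fst.comp Primrec.snd)
    exact pp_bif (Primrec.snd.comp Primrec.snd) hg (invRev_primrec.comp hg)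
  exact h.of_eq fun z => ⟨fun h => ⟨h⟩, fun h => h.eq⟩

end

/-- conclusion, from the correctness of the two certificates -/
theorem n1_of (n : ℕ)
    (hneg : ∀ (ws : List (Word n)) (u : Word n), (∃ k c E, NegC ws u k c E) ↔
      ¬ ∃ k, k * FreeGroup.mk u * k⁻¹ ∈ gen ws)
    (hpos : ∀ (ws : List (Word n)) (u : Word n), (∃ k e, PosC ws u k e) ↔
      ∃ k, k * FreeGroup.mk u * k⁻¹ ∈ gen ws) :
    ComputablePred fun z : List (Word n) × Word n =>
      ∃ k, k * FreeGroup.mk z.2 * k⁻¹ ∈ gen z.1 := by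
  refine computablePred_of_certs
    (β := Word n × List (ℕ × Bool)) (γ := Word n × Word n × List (Pos n × Pos n))
    (P := fun z : List (Word n) × Word n => ∃ k, k * FreeGroup.mk z.2 * k⁻¹ ∈ gen z.1)
    (C₁ := fun q => PosC q.1.1 q.1.2 q.2.1 q.2.2)
    (C₂ := fun q => NegC q.1.1 q.1.2 q.2.1 q.2.2.1 q.2.2.2) ?_ ?_ ?_ ?_
  · exact posC_primrec (Primrec.fst.comp Primrec.fst) (Primrec.snd.comp Primrec.fst)
      (Primrec.fst.comp Primrec.snd) (Primrec.snd.comp Primrec.snd)
  · exact negC_primrec (Primrec.fst.comp Primrec.fst) (Primrec.snd.comp Primrec.fst)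
      (Primrec.fst.comp Primrec.snd) (Primrec.fst.comp (Primrec.snd.comp Primrec.snd))
      (Primrec.snd.comp (Primrec.snd.comp Primrec.snd))
  · rintro ⟨ws, u⟩
    rw [← hpos ws u]
    exact ⟨fun ⟨k, e, h⟩ => ⟨(k, e), h⟩, fun ⟨⟨k, e⟩, h⟩ => ⟨k, e, h⟩⟩
  · rintro ⟨ws, u⟩
    rw [← hneg ws u]
    exact ⟨fun ⟨k, c, E, h⟩ => ⟨(k, c, E), h⟩, fun ⟨⟨k, c, E⟩, h⟩ => ⟨k, c, E, h⟩⟩

end WPP
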