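import Pool.Agent.Lib.WPR_n1a
import Pool.Agent.Lib.WPR_n1b

/-! PROJECT WPR, row n1 -/

namespace WPP

open FreeGroup List

theorem conj_mem_computable (n : ℕ) : ComputablePred fun z : List (Word n) × Word n =>
    ∃ k, k * FreeGroup.mk z.2 * k⁻¹ ∈ gen z.1 :=
  n1_of n (fun ws u => n1_neg ws u) (fun ws u => n1_pos ws u)

end WPP
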