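import Pool.Agent.Lib.WPR_n1d
import Pool.Agent.Lib.WPP_D1
import Pool.Agent.Lib.WPP_D2
import Pool.Agent.Lib.WPP_F3
import Pool.Agent.Lib.WPR_e2

/-! PROJECT WPR, row n1, first half: certificates for `some conjugate of u lies in the subgroup` -/

namespace WPP

open FreeGroup List

theorem n1_pos {n : ℕ} (ws : List (Word n)) (u : Word n) :
    (∃ k e, PosC ws u k e) ↔ ∃ k, k * FreeGroup.mk u * k⁻¹ ∈ gen ws := by
  constructor
  · rintro ⟨k, e, h⟩
    refine ⟨FreeGroup.mk k, ?_⟩
    have h1 := (red_red_iff _ _).1 h.eq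
    rw [FreeGroup.inv_mk, FreeGroup.mul_mk, FreeGroup.mul_mk, h1, mk_flat]
    refine Subgroup.list_prod_mem _ ?_
    intro x hx
    rw [List.mem_map] at hx
    obtain ⟨q, -, rfl⟩ := hx
    exact mk_bif_mem ws q
  · rintro ⟨k, hk⟩
    obtain ⟨e, he⟩ := exists_exp ws _ hk
    refine ⟨k.toWord, e, ⟨?_⟩⟩
    rw [red_red_iff, he, ← FreeGroup.mul_mk, ← FreeGroup.mul_mk, ← FreeGroup.inv_mk,
      FreeGroup.mk_toWord]

theorem n1_walk {n : ℕ} (S : Subgroup (FreeGroup (Fin n))) (W : List (Word n))
    (E : List (Pos n × Pos n)) (pre : Pos n → FreeGroup (Fin n))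
    (h : ∀ a b, (a, b) ∈ E → pre a * lt a.1 * (pre b)⁻¹ ∈ S) :
    ∀ (w : Word n) (L : List (Pos n)) (b : Pos n), b ∈ walkW W E w L →
      ∃ a ∈ L, (pre a * lt a.1) * FreeGroup.mk w * (pre b * lt b.1)⁻¹ ∈ S := by
  intro w
  induction w with
  | nil =>
    intro L b hb
    refine ⟨b, hb, ?_⟩
    have e : (pre b * lt b.1) * FreeGroup.mk ([] : Word n) * (pre b * lt b.1)⁻¹ = 1 := by
      rw [← FreeGroup.one_eq_mk]
      group
    rw [e]
    exact S.one_mem
  | cons y w ih =>
    intro L b hb
    obtain ⟨a', ha', h1⟩ := ih _ b hb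
    simp only [List.mem_flatMap, List.mem_filter, decide_eq_true_eq] at ha'
    obtain ⟨a, ha, -, hy, hE⟩ := ha'
    refine ⟨a, ha, ?_⟩
    have h2 := S.mul_mem (h a a' hE) h1
    have e : pre a * lt a.1 * (pre a')⁻¹ *
        ((pre a' * lt a'.1) * FreeGroup.mk w * (pre b * lt b.1)⁻¹) =
        (pre a * lt a.1) * FreeGroup.mk (y :: w) * (pre b * lt b.1)⁻¹ := by
      have e2 : FreeGroup.mk (y :: w) = lt y * FreeGroup.mk w := by
        unfold lt
        rw [FreeGroup.mul_mk]
        rfl
      rw [e2, hy]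
      group
    rwa [e] at h2

theorem n1_chain {n : ℕ} (W : List (Word n)) (E : List (Pos n × Pos n)) :
    ∀ (l : List (Pos n)) (a : Pos n) (L : List (Pos n)), a ∈ L →
      (∀ b ∈ l, b ∈ posn W) → List.IsChain (fun a b => (a, b) ∈ E) (a :: l) →
      ∀ b, (a :: l).getLast? = some b → b ∈ walkW W E (l.map fun b => b.1) L := by
  intro l
  induction l with
  | nil =>
    intro a L ha _ _ b hb
    simp only [List.getLast?_singleton, Option.some.injEq] at hb
    subst hb
    exact ha
  | cons c l ih =>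
    intro a L ha hW hch b hb
    rw [List.isChain_cons_cons] at hch
    rw [List.getLast?_cons_cons] at hb
    refine ih c _ ?_ (fun b hb => hW b (List.mem_cons_of_mem _ hb)) hch.2 b hb
    rw [List.mem_flatMap]
    refine ⟨a, ha, ?_⟩
    rw [List.mem_filter]
    exact ⟨hW c List.mem_cons_self, decide_eq_true ⟨rfl, hch.1⟩⟩

theorem n1_red_iff {n : ℕ} (c : Word n) :
    FreeGroup.reduce (c ++ c) = c ++ c ↔ IsCyclicallyReduced c := by
  rw [← FreeGroup.isReduced_iff_reduce_eq]
  unfold IsCyclicallyReduced FreeGroup.IsReduced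
  rw [List.isChain_append]
  constructor
  · rintro ⟨h1, -, h3⟩
    exact ⟨h1, h3⟩
  · rintro ⟨h1, h3⟩
    exact ⟨h1, h1, h3⟩

theorem n1_neg {n : ℕ} (ws : List (Word n)) (u : Word n) :
    (∃ k c E, NegC ws u k c E) ↔ ¬ ∃ k, k * FreeGroup.mk u * k⁻¹ ∈ gen ws := by
  constructor
  · rintro ⟨k, c, E, h⟩ ⟨k0, hk0⟩
    have hc := (n1_red_iff c).1 h.red
    have hu : FreeGroup.mk u = FreeGroup.mk k * FreeGroup.mk c * (FreeGroup.mk k)⁻¹ := by
      rw [FreeGroup.inv_mk, FreeGroup.mul_mk, FreeGroup.mul_mk]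
      exact ((red_red_iff _ _).1 h.eq).symm
    set q : FreeGroup (Fin n) := k0 * FreeGroup.mk u * k0⁻¹ with hq
    have hcj : Cj q (FreeGroup.mk c) := ⟨k0 * FreeGroup.mk k, by rw [hq, hu]; group⟩
    have hc1 : FreeGroup.mk c ≠ 1 := by
      intro h0
      have h2 := congrArg FreeGroup.toWord h0
      rw [FreeGroup.toWord_mk, FreeGroup.toWord_one,
        FreeGroup.IsReduced.reduce_eq hc.isReduced] at h2
      exact h.ne h2
    have hq1 : q ≠ 1 := by
      intro h0
      obtain ⟨g, hg⟩ := hcj
      rw [h0] at hg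
      apply hc1
      have : FreeGroup.mk c = g⁻¹ * 1 * g := by
        rw [hg]; group
      rw [this]; group
    obtain ⟨l, hl1, hl2, hl3⟩ := flower_complete ws (fun a b => (a, b) ∈ E)
      ⟨h.d0, h.cancel⟩ q hq1 1 le_rfl (by rw [pow_one]; exact hk0)
    rw [List.replicate_one, List.flatten_singleton] at hl2
    have hqc : Cj (FreeGroup.mk (reduceCyclically q.toWord)) (FreeGroup.mk c) := by
      obtain ⟨g, hg⟩ := hcj
      have h2 := reduceCyclically.conj_conjugator_reduceCyclically q.toWord
      have h3 : q = FreeGroup.mk (reduceCyclically.conjugator q.toWord) *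
          FreeGroup.mk (reduceCyclically q.toWord) *
          (FreeGroup.mk (reduceCyclically.conjugator q.toWord))⁻¹ := by
        rw [FreeGroup.inv_mk, FreeGroup.mul_mk, FreeGroup.mul_mk, h2, FreeGroup.mk_toWord]
      refine ⟨(FreeGroup.mk (reduceCyclically.conjugator q.toWord))⁻¹ * g, ?_⟩
      have h4 : FreeGroup.mk (reduceCyclically q.toWord) =
          (FreeGroup.mk (reduceCyclically.conjugator q.toWord))⁻¹ * q *
            FreeGroup.mk (reduceCyclically.conjugator q.toWord) := by
        generalize FreeGroup.mk (reduceCyclically.conjugator q.toWord) = A at h3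
        generalize FreeGroup.mk (reduceCyclically q.toWord) = B at h3
        rw [h3]
        group
      rw [h4, hg]
      group
    have hrot := rot_of_conj c (reduceCyclically q.toWord) hc
      (reduceCyclically.isCyclicallyReduced FreeGroup.isReduced_toWord) hqc
    obtain ⟨m, hm⟩ := hrot
    rw [← hl2, ← List.map_rotate] at hm
    -- the rotated chain
    have hcyc : Cyc (fun a b => (a, b) ∈ E) (l.rotate m) := by
      rw [List.rotate_eq_drop_append_take_mod]
      apply rowB_cyc_app
      rw [List.take_append_drop]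
      exact hl3
    have hne : l.rotate m ≠ [] := by
      intro h0
      rw [h0] at hm
      exact h.ne hm.symm
    obtain ⟨a, ha⟩ : ∃ a, (l.rotate m).getLast? = some a :=
      ⟨_, List.getLast?_eq_some_getLast hne⟩
    have haW : a ∈ posn (sym ws) := by
      have := List.mem_of_getLast? ha
      rw [List.mem_rotate] at this
      exact hl1 a this
    obtain ⟨p, t, hpt⟩ := List.exists_cons_of_ne_nil hne
    have hch : List.IsChain (fun a b => (a, b) ∈ E) (a :: l.rotate m) := by
      rw [hpt, List.isChain_cons_cons]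
      rw [hpt] at hcyc ha
      exact ⟨hcyc.2 a (by rw [ha]; rfl) p rfl, hcyc.1⟩
    have hlast : (a :: l.rotate m).getLast? = some a := by
      rw [hpt, List.getLast?_cons_cons, ← hpt]
      exact ha
    have := n1_chain (sym ws) E (l.rotate m) a [a] (List.mem_singleton.mpr rfl)
      (fun b hb => hl1 b (List.mem_rotate.mp hb)) hch a hlast
    rw [hm] at this
    exact h.noLoop a haW this
  · intro hno
    classical
    obtain ⟨R, pre, hbase, hsup, hsound⟩ := flower_sound ws
    have hcc := reduceCyclically.conj_conjugator_reduceCyclically (FreeGroup.reduce u)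
    have hu : FreeGroup.mk u =
        FreeGroup.mk (reduceCyclically.conjugator (FreeGroup.reduce u)) *
          FreeGroup.mk (reduceCyclically (FreeGroup.reduce u)) *
          (FreeGroup.mk (reduceCyclically.conjugator (FreeGroup.reduce u)))⁻¹ := by
      rw [FreeGroup.inv_mk, FreeGroup.mul_mk, FreeGroup.mul_mk, hcc, FreeGroup.reduce.self]
    set k := reduceCyclically.conjugator (FreeGroup.reduce u) with hk
    set c := reduceCyclically (FreeGroup.reduce u) with hc
    have hcne : c ≠ [] := by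
      intro h0
      apply hno
      refine ⟨1, ?_⟩
      rw [hu, h0, ← FreeGroup.one_eq_mk]
      have e : (1 : FreeGroup (Fin n)) * (FreeGroup.mk k * 1 * (FreeGroup.mk k)⁻¹) * 1⁻¹ = 1 := by
        group
      rw [e]
      exact (gen ws).one_mem
    have hcred : IsCyclicallyReduced c :=
      reduceCyclically.isCyclicallyReduced (FreeGroup.isReduced_iff_reduce_eq.mpr (by
        rw [FreeGroup.reduce.idem]))
    have hmem : ∀ a b, (a, b) ∈ ((posn (sym ws)) ×ˢ (posn (sym ws))).filter
        (fun z => decide (R z.1 z.2)) ↔ R a b := by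
      intro a b
      rw [List.mem_filter, List.mem_product]
      simp only [decide_eq_true_eq]
      exact ⟨fun h => h.2, fun h => ⟨hsup a b h, h⟩⟩
    refine ⟨k, c, ((posn (sym ws)) ×ˢ (posn (sym ws))).filter (fun z => decide (R z.1 z.2)),
      ⟨?_, hcne, (n1_red_iff c).2 hcred, ?_, ?_, ?_⟩⟩
    · rw [hcc, FreeGroup.reduce.idem]
    · intro a ha b hb hab
      rw [hmem]
      exact hbase.d0 a ha b hb hab
    · intro a ha b hb c' hc' d hd h1 h2 h3 h4
      rw [hmem] at h1 h2 h3 ⊢
      exact hbase.cancel a ha b hb c' hc' d hd h1 h2 h3 h4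
    · intro a ha hloop
      obtain ⟨a', ha', h1⟩ := n1_walk (gen ws) (sym ws) _ pre
        (fun a b hab => hsound a b ((hmem a b).1 hab)) c [a] a hloop
      rw [List.mem_singleton] at ha'
      subst ha'
      apply hno
      refine ⟨(pre a' * lt a'.1) * (FreeGroup.mk k)⁻¹, ?_⟩
      rw [hu]
      have e : (pre a' * lt a'.1) * (FreeGroup.mk k)⁻¹ *
          (FreeGroup.mk k * FreeGroup.mk c * (FreeGroup.mk k)⁻¹) *
          ((pre a' * lt a'.1) * (FreeGroup.mk k)⁻¹)⁻¹ =
          (pre a' * lt a'.1) * FreeGroup.mk c * (pre a' * lt a'.1)⁻¹ := by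
        group
      rw [e]
      exact h1

end WPP
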