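import Pool.Agent.Lib.WPR_Base

/-! PROJECT WPR, row n1: certificates for `some conjugate of u lies in the subgroup` -/

namespace WPP

open FreeGroup List

/-- end points of the walks in `E` which start behind a position of `L` and read `w` -/
def walkW {n : ℕ} (W : List (Word n)) (E : List (Pos n × Pos n)) :
    Word n → List (Pos n) → List (Pos n)
  | [], L => L
  | y :: w, L => walkW W E w (L.flatMap fun b =>
      (posn W).filter fun c => decide (c.1 = y ∧ (b, c) ∈ E))

/-- certificate: no conjugate of `u` lies in the subgroup -/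
structure NegC {n : ℕ} (ws : List (Word n)) (u k c : Word n) (E : List (Pos n × Pos n)) :
    Prop where
  eq : FreeGroup.reduce (k ++ c ++ FreeGroup.invRev k) = FreeGroup.reduce u
  ne : c ≠ []
  red : FreeGroup.reduce (c ++ c) = c ++ c
  d0 : ∀ a ∈ posn (sym ws), ∀ b ∈ posn (sym ws), D0 (sym ws) a b → (a, b) ∈ E
  cancel : ∀ a ∈ posn (sym ws), ∀ b ∈ posn (sym ws), ∀ c ∈ posn (sym ws), ∀ d ∈ posn (sym ws),
    (a, b) ∈ E → (b, c) ∈ E → (c, d) ∈ E → c.1 = bar b.1 → (a, d) ∈ E
  noLoop : ∀ a ∈ posn (sym ws), a ∉ walkW (sym ws) E c [a]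

/-- certificate: some conjugate of `u` lies in the subgroup -/
structure PosC {n : ℕ} (ws : List (Word n)) (u k : Word n) (e : List (ℕ × Bool)) : Prop where
  eq : FreeGroup.reduce (k ++ u ++ FreeGroup.invRev k) =
    FreeGroup.reduce (e.flatMap fun q =>
      bif q.2 then ws.getD q.1 [] else FreeGroup.invRev (ws.getD q.1 []))

end WPP
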