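import Pool.Agent.Lib.WPR_NDef
import Pool.Agent.Lib.WPP_F2
import Pool.Agent.Lib.WPP_F3

/-! PROJECT WPR, row n2: finite lists, sequences of codes of short automorphisms -/

namespace WPP

open FreeGroup List

theorem mem_lists {β : Type} (L : List β) (k : ℕ) (l : List β) :
    l ∈ lists L k ↔ l.length = k ∧ ∀ a ∈ l, a ∈ L := by
  induction k generalizing l with
  | zero =>
    simp only [lists, List.mem_singleton]
    constructor
    · rintro rfl; simp
    · rintro ⟨h, -⟩; exact List.length_eq_zero_iff.1 h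
  | succ k ih =>
    simp only [lists, List.mem_flatMap, List.mem_map]
    constructor
    · rintro ⟨l', hl', a, ha, rfl⟩
      obtain ⟨h1, h2⟩ := (ih l').1 hl'
      refine ⟨by simp [h1], fun b hb => ?_⟩
      rcases List.mem_cons.1 hb with rfl | hb
      · exact ha
      · exact h2 b hb
    · rintro ⟨h1, h2⟩
      cases l with
      | nil => simp at h1
      | cons a l =>
        refine ⟨l, (ih l).2 ⟨by simpa using h1, fun b hb => h2 b (List.mem_cons_of_mem _ hb)⟩, a,
          h2 a List.mem_cons_self, rfl⟩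

theorem mem_letters {n : ℕ} (d : Ltr n) : d ∈ letters n := by
  obtain ⟨i, b⟩ := d
  refine List.mem_flatMap.2 ⟨i, List.mem_finRange i, ?_⟩
  cases b <;> simp

theorem lists_primrec {α β : Type} [Primcodable α] [Primcodable β] {L : α → List β} {k : α → ℕ}
    (hL : Primrec L) (hk : Primrec k) : Primrec fun a => lists (L a) (k a) := by
  have hs : Primrec₂ fun (a : α) (q : ℕ × List (List β)) =>
      q.2.flatMap fun l => (L a).map fun b => b :: l := by
    refine Primrec.list_flatMap (Primrec.snd.comp Primrec.snd) ?_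
    refine Primrec.list_map (hL.comp (Primrec.fst.comp Primrec.fst)) ?_
    exact Primrec.list_cons.comp Primrec.snd (Primrec.snd.comp Primrec.fst)
  have h := Primrec.nat_rec' hk (Primrec.const [[]]) hs
  refine h.of_eq fun a => ?_
  induction k a with
  | zero => rfl
  | succ m ih =>
    rw [lists]
    simp only [ih]

theorem seqs_primrec (n : ℕ) : Primrec (seqs n) :=
  Primrec.list_flatMap (Primrec.list_range.comp Primrec.succ)
    (lists_primrec (Primrec.const (codes n)) Primrec.snd)

theorem substSeq_primrec (n : ℕ) :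
    Primrec fun z : List (List (Word n)) × Word n => substSeq z.1 z.2 := by
  have h : Primrec₂ fun (_ : List (List (Word n)) × Word n) (q : List (Word n) × Word n) =>
      FreeGroup.reduce (subst q.1 q.2) :=
    (reduce_primrec n).comp (subst_primrec (Primrec.fst.comp Primrec.snd)
      (Primrec.snd.comp Primrec.snd))
  exact Primrec.list_foldr Primrec.fst Primrec.snd h

/-- the code of an automorphism -/
def n2_code {n : ℕ} (e : FreeGroup (Fin n) ≃* FreeGroup (Fin n)) : List (Word n) :=
  List.ofFn fun j : Fin n => (e (FreeGroup.of j)).toWord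

theorem mem_words3 {n : ℕ} (w : Word n) (h : w.length ≤ 3) : w ∈ words3 n :=
  List.mem_flatMap.2 ⟨w.length, List.mem_range.2 (by omega),
    (mem_lists _ _ _).2 ⟨rfl, fun a _ => mem_letters a⟩⟩

theorem n2_hom_code {n : ℕ} (e : FreeGroup (Fin n) ≃* FreeGroup (Fin n))
    (g : FreeGroup (Fin n)) : hom (n2_code e) g = e g :=
  DFunLike.congr_fun (hom_ofFn e.toMonoidHom) g

theorem n2_code_mem {n : ℕ} (e : FreeGroup (Fin n) ≃* FreeGroup (Fin n)) (he : Short e) :
    n2_code e ∈ codes n := by
  classical
  unfold codes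
  rw [List.mem_filter]
  refine ⟨(mem_lists _ _ _).2 ⟨by simp [n2_code], fun a ha => ?_⟩, ?_⟩
  · obtain ⟨j, rfl⟩ := List.mem_ofFn.1 ha
    exact mem_words3 _ (he j)
  · rw [decide_eq_true_eq]
    refine ⟨e, fun i => ?_⟩
    rw [n2_code, getD_ofFn, FreeGroup.mk_toWord]

theorem n2_codes_hom {n : ℕ} {us : List (Word n)} (h : us ∈ codes n) :
    ∃ e : FreeGroup (Fin n) ≃* FreeGroup (Fin n), ∀ g, hom us g = e g := by
  classical
  unfold codes at h
  rw [List.mem_filter, decide_eq_true_eq] at h
  obtain ⟨e, he⟩ := h.2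
  refine ⟨e, fun g => ?_⟩
  have key : hom us = e.toMonoidHom := by
    refine FreeGroup.ext_hom _ _ fun i => ?_
    rw [hom_of]
    exact (he i).symm
  exact DFunLike.congr_fun key g

theorem substSeq_cons {n : ℕ} (us : List (Word n)) (s : List (List (Word n))) (w : Word n) :
    FreeGroup.mk (substSeq (us :: s) w) = hom us (FreeGroup.mk (substSeq s w)) := by
  have h : substSeq (us :: s) w = FreeGroup.reduce (subst us (substSeq s w)) := rfl
  rw [h, ← mk_subst]
  exact FreeGroup.reduce.self

theorem mem_seqs {n B : ℕ} (s : List (List (Word n))) :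
    s ∈ seqs n B ↔ s.length ≤ B ∧ ∀ us ∈ s, us ∈ codes n := by
  unfold seqs
  simp only [List.mem_flatMap, List.mem_range, mem_lists]
  constructor
  · rintro ⟨k, hk, rfl, h⟩
    exact ⟨by omega, h⟩
  · rintro ⟨h1, h2⟩
    exact ⟨s.length, by omega, rfl, h2⟩

theorem seqs_code {n B : ℕ} (es : List (FreeGroup (Fin n) ≃* FreeGroup (Fin n)))
    (h1 : es.length ≤ B) (h2 : ∀ e ∈ es, Short e) :
    ∃ s ∈ seqs n B, ∀ w : Word n, FreeGroup.mk (substSeq s w) = cmp es (FreeGroup.mk w) := by
  refine ⟨es.map n2_code, (mem_seqs _).2 ⟨by simpa using h1, fun us hus => ?_⟩, fun w => ?_⟩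
  · obtain ⟨e, he, rfl⟩ := List.mem_map.1 hus
    exact n2_code_mem e (h2 e he)
  · clear h1 h2
    induction es with
    | nil => rfl
    | cons e es ih =>
      rw [List.map_cons, substSeq_cons, ih, n2_hom_code]
      rfl

theorem seqs_aut {n B : ℕ} (s : List (List (Word n))) (hs : s ∈ seqs n B) :
    ∃ e : FreeGroup (Fin n) ≃* FreeGroup (Fin n),
      ∀ w : Word n, FreeGroup.mk (substSeq s w) = e (FreeGroup.mk w) := by
  have h := ((mem_seqs s).1 hs).2
  clear hs
  induction s with
  | nil => exact ⟨MulEquiv.refl _, fun w => rfl⟩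
  | cons us s ih =>
    obtain ⟨e, he⟩ := ih fun u hu => h u (List.mem_cons_of_mem _ hu)
    obtain ⟨e', he'⟩ := n2_codes_hom (h us List.mem_cons_self)
    refine ⟨e.trans e', fun w => ?_⟩
    rw [substSeq_cons, he, he']
    rfl

end WPP
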