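import Pool.Agent.Lib.WPR_NDef
import Pool.Agent.Lib.WPP_F2

/-! PROJECT WPR, row n3: the cyclically reduced form is primitive recursive -/

namespace WPP

open FreeGroup List

/-- cancel the first and the last letter once, if possible -/
def rown3_strip {n : ℕ} (l : Word n) : Word n :=
  if l.reverse.head? = l.head?.map bar then (l.tail.reverse.tail).reverse else l

theorem rown3_single {n : ℕ} (a : Ltr n) : rown3_strip [a] = [a] := by
  unfold rown3_strip
  rw [if_neg]
  intro h
  have h1 : a = bar a := by simpa using h
  have h2 : a.2 = !a.2 := congrArg Prod.snd h1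
  cases h3 : a.2 <;> simp [h3] at h2

theorem rown3_cons {n : ℕ} (a b : Ltr n) (L : Word n) :
    rown3_strip (a :: (L ++ [b])) =
      if b.1 = a.1 ∧ (!b.2) = a.2 then L else a :: L ++ [b] := by
  unfold rown3_strip
  have e : ((a :: (L ++ [b])).reverse.head? = (a :: (L ++ [b])).head?.map bar) ↔
      (b.1 = a.1 ∧ (!b.2) = a.2) := by
    obtain ⟨i, s⟩ := a
    obtain ⟨j, t⟩ := b
    simp only [List.reverse_cons, List.reverse_append, List.reverse_nil, List.nil_append,
      List.cons_append, List.head?_cons, Option.map_some, Option.some.injEq, bar, Prod.mk.injEq]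
    cases s <;> cases t <;> simp
  by_cases h : b.1 = a.1 ∧ (!b.2) = a.2
  · rw [if_pos h, if_pos (e.2 h)]
    simp
  · rw [if_neg h, if_neg fun h' => h (e.1 h')]
    simp

theorem rown3_iter {n : ℕ} (l : Word n) :
    ∀ k, l.length ≤ k → rown3_strip^[k] l = reduceCyclically l := by
  induction l using List.bidirectionalRec with
  | nil =>
    intro k _
    have h0 : rown3_strip ([] : Word n) = [] := by simp [rown3_strip]
    rw [Function.iterate_fixed h0, reduceCyclically.nil]
  | singleton a =>
    intro k _
    rw [Function.iterate_fixed (rown3_single a), reduceCyclically.singleton]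
  | cons_append a L b ih =>
    intro k hk
    rw [reduceCyclically.cons_append]
    by_cases h : b.1 = a.1 ∧ (!b.2) = a.2
    · rw [if_pos h]
      rcases k with _ | k
      · simp at hk
      · rw [Function.iterate_succ_apply, rown3_cons, if_pos h]
        refine ih k ?_
        simp only [List.length_cons, List.length_append, List.length_nil] at hk
        omega
    · rw [if_neg h]
      have h1 : rown3_strip (a :: (L ++ [b])) = a :: (L ++ [b]) := by
        rw [rown3_cons, if_neg h]; rfl
      rw [Function.iterate_fixed h1]
      rfl

theorem rown3_strip_primrec (n : ℕ) : Primrec (rown3_strip : Word n → Word n) := by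
  refine Primrec.ite (pp_eq ?_ ?_) ?_ Primrec.id
  · exact Primrec.list_head?.comp Primrec.list_reverse
  · exact (Primrec.option_map₁ bar_primrec).comp Primrec.list_head?
  · exact Primrec.list_reverse.comp (Primrec.list_tail.comp
      (Primrec.list_reverse.comp Primrec.list_tail))

/-- ROW n3 -/
theorem crw_primrec (n : ℕ) : Primrec (crw : Word n → Word n) := by
  have h : Primrec fun w : Word n => rown3_strip^[w.length] w :=
    Primrec.nat_iterate Primrec.list_length Primrec.id
      ((rown3_strip_primrec n).comp Primrec.snd)
  refine (h.comp (reduce_primrec n)).of_eq fun w => ?_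
  exact rown3_iter _ _ le_rfl

end WPP
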