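import Mathlib

/-! PROJECT WPR, row n4: conjunctions and bounded search for computable predicates -/

namespace WPP

theorem cp_and {α : Type} [Primcodable α] {P Q : α → Prop} (hP : ComputablePred P)
    (hQ : ComputablePred Q) : ComputablePred fun a => P a ∧ Q a := by
  obtain ⟨dP, hP⟩ := hP
  obtain ⟨dQ, hQ⟩ := hQ
  refine ⟨fun a => instDecidableAnd, ?_⟩
  refine (Primrec.and.to_comp.comp hP hQ).of_eq fun a => ?_
  exact (Bool.decide_and (P a) (Q a)).symm

theorem n4_rec {α β : Type} (P : α × β → Prop) [DecidablePred P] (a : α) (L : List β) (k : ℕ) :
    (Nat.rec false (fun y IH => IH || (L[y]?).casesOn false (fun b => decide (P (a, b)))) k : Bool)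
      = decide (∃ b ∈ L.take k, P (a, b)) := by
  induction k with
  | zero => simp
  | succ k ih =>
    show ((Nat.rec false (fun y IH => IH ||
      (L[y]?).casesOn false (fun b => decide (P (a, b)))) k : Bool) ||
        ((L[k]?).casesOn false (fun b => decide (P (a, b))) : Bool)) = _
    rw [ih, List.take_add_one]
    cases hk : L[k]? with
    | none => simp
    | some b =>
      show (decide (∃ b ∈ List.take k L, P (a, b)) || decide (P (a, b))) =
        decide (∃ b' ∈ List.take k L ++ [b], P (a, b'))
      rw [← Bool.decide_or]
      congr 1
      apply propext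
      constructor
      · rintro (⟨c, hc, hPc⟩ | h)
        · exact ⟨c, List.mem_append_left _ hc, hPc⟩
        · exact ⟨b, List.mem_append_right _ (List.mem_singleton.mpr rfl), h⟩
      · rintro ⟨c, hc, hPc⟩
        rcases List.mem_append.mp hc with hc | hc
        · exact Or.inl ⟨c, hc, hPc⟩
        · rw [List.mem_singleton] at hc
          subst hc
          exact Or.inr hPc

theorem cp_ex {α β : Type} [Primcodable α] [Primcodable β] {l : α → List β}
    (hl : Computable l) {P : α × β → Prop} (hP : ComputablePred P) :
    ComputablePred fun a => ∃ b ∈ l a, P (a, b) := by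
  obtain ⟨dP, hP⟩ := hP
  refine ⟨fun a => List.decidableBEx (p := fun b => P (a, b)) (l a), ?_⟩
  have hstep : Computable₂ (fun (a : α) (z : ℕ × Bool) =>
      (z.2 || ((l a)[z.1]?).casesOn false (fun b => decide (P (a, b))) : Bool)) := by
    refine Primrec.or.to_comp.comp (Computable.snd.comp Computable.snd) ?_
    refine Computable.option_casesOn (o := fun (x : α × (ℕ × Bool)) => (l x.1)[x.2.1]?)
      ?_ (Computable.const false) ?_
    · exact Computable.list_getElem?.comp (hl.comp Computable.fst)
        (Computable.fst.comp Computable.snd)
    · exact hP.comp (Computable.pair (Computable.fst.comp Computable.fst) Computable.snd)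
  have hrec := Computable.nat_rec (Computable.list_length.comp hl)
    (Computable.const false) hstep
  refine hrec.of_eq fun a => ?_
  have h := n4_rec P a (l a) (l a).length
  rw [List.take_length] at h
  exact h.trans (by congr 1)

end WPP
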