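import Pool.Agent.Lib.WPR_n2
import Pool.Agent.Lib.WPR_n4
import Pool.Agent.Lib.WPP_F1
import Pool.Agent.Lib.WPR_n1

/-! PROJECT WPR, row n5: decidability from a bound on the number of short automorphisms -/

namespace WPP

open FreeGroup List

theorem n5_pow (a : ℕ) {α : Type} [Primcodable α] {f : α → ℕ} (hf : Primrec f) :
    Primrec fun x => a ^ f x := by
  have h : Primrec fun m : ℕ => (Nat.rec 1 (fun _ IH => IH * a) m : ℕ) :=
    Primrec.nat_rec₁ 1 ((Primrec.nat_mul.comp Primrec.snd (Primrec.const a)).to₂)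
  refine (h.comp hf).of_eq fun x => ?_
  induction f x with
  | zero => rfl
  | succ m ih => rw [pow_succ, ← ih]

theorem n5_bnd (n : ℕ) : Primrec (bnd n) := by
  unfold bnd
  exact Primrec.nat_mul.comp (n5_pow (2 * n) Primrec.id)
    (n5_pow 2 (Primrec.nat_mul.comp Primrec.id Primrec.id))

theorem n5_comp {α β : Type} [Primcodable α] [Primcodable β] {P : β → Prop}
    (hP : ComputablePred P) {f : α → β} (hf : Computable f) :
    ComputablePred fun a => P (f a) := by
  obtain ⟨d, hP⟩ := hP
  exact ⟨fun a => d (f a), hP.comp hf⟩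

theorem n5_conj {n : ℕ} (k : FreeGroup (Fin n)) (g : FreeGroup (Fin n)) :
    MulAut.conj k g = k * g * k⁻¹ := rfl

theorem decidable_of_bounded {n : ℕ} (C : Word n → Prop) (L : Word n → List (Word n))
    (hC : ComputablePred C) (hL : Computable L)
    (h1 : ∀ w, C w → ∀ p ∈ L w, ∃ φ : FreeGroup (Fin n) ≃* FreeGroup (Fin n),
      φ (FreeGroup.mk w) = FreeGroup.mk p)
    (h2 : ∀ (ws : List (Word n)) (w : Word n), C w →
      (∃ φ : FreeGroup (Fin n) ≃* FreeGroup (Fin n), φ (FreeGroup.mk w) ∈ gen ws) →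
      ∃ p ∈ L w, ∃ es : List (FreeGroup (Fin n) ≃* FreeGroup (Fin n)),
        es.length ≤ bnd n ((posn (sym ws)).length + p.length) ∧ (∀ e ∈ es, Short e) ∧
        ∃ k, k * cmp es (FreeGroup.mk p) * k⁻¹ ∈ gen ws) :
    ComputablePred fun z : List (Word n) × Word n => C z.2 ∧
      ∃ φ : FreeGroup (Fin n) ≃* FreeGroup (Fin n), φ (FreeGroup.mk z.2) ∈ gen z.1 := by
  -- the bounded search
  have hS : Primrec fun z : (List (Word n) × Word n) × Word n =>
      seqs n (bnd n ((posn (sym z.1.1)).length + z.2.length)) := by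
    refine (seqs_primrec n).comp ((n5_bnd n).comp (Primrec.nat_add.comp ?_ ?_))
    · exact Primrec.list_length.comp ((posn_primrec n).comp
        (sym_primrec.comp (Primrec.fst.comp Primrec.fst)))
    · exact Primrec.list_length.comp Primrec.snd
  have hin : ComputablePred fun z : (List (Word n) × Word n) × Word n =>
      ∃ s ∈ seqs n (bnd n ((posn (sym z.1.1)).length + z.2.length)),
        ∃ k, k * FreeGroup.mk (substSeq s z.2) * k⁻¹ ∈ gen z.1.1 := by
    refine cp_ex (P := fun y : ((List (Word n) × Word n) × Word n) × List (List (Word n)) =>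
      ∃ k, k * FreeGroup.mk (substSeq y.2 y.1.2) * k⁻¹ ∈ gen y.1.1.1) hS.to_comp ?_
    have hf : Computable fun y : ((List (Word n) × Word n) × Word n) × List (List (Word n)) =>
        (y.1.1.1, substSeq y.2 y.1.2) :=
      (Primrec.pair (Primrec.fst.comp (Primrec.fst.comp Primrec.fst))
        ((substSeq_primrec n).comp (Primrec.pair Primrec.snd
          (Primrec.snd.comp Primrec.fst)))).to_comp
    exact n5_comp (conj_mem_computable n) hf
  have hout : ComputablePred fun z : List (Word n) × Word n =>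
      ∃ p ∈ L z.2, ∃ s ∈ seqs n (bnd n ((posn (sym z.1)).length + p.length)),
        ∃ k, k * FreeGroup.mk (substSeq s p) * k⁻¹ ∈ gen z.1 :=
    cp_ex (l := fun z : List (Word n) × Word n => L z.2) (hL.comp Computable.snd) hin
  have hCz : ComputablePred fun z : List (Word n) × Word n => C z.2 :=
    n5_comp hC Computable.snd
  refine (cp_and hCz hout).of_eq fun z => ?_
  refine and_congr_right fun hc => ⟨?_, ?_⟩
  · rintro ⟨p, hp, s, hs, k, hk⟩
    obtain ⟨φ, hφ⟩ := h1 z.2 hc p hp
    obtain ⟨e, he⟩ := seqs_aut s hs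
    refine ⟨(φ.trans e).trans (MulAut.conj k), ?_⟩
    change MulAut.conj k (e (φ (FreeGroup.mk z.2))) ∈ gen z.1
    rw [hφ, ← he, n5_conj]
    exact hk
  · intro hex
    obtain ⟨p, hp, es, hlen, hsh, k, hk⟩ := h2 z.1 z.2 hc hex
    obtain ⟨s, hs, hs'⟩ := seqs_code es hlen hsh
    exact ⟨p, hp, s, hs, k, by rw [hs']; exact hk⟩

end WPP
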