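import Pool.Agent.Lib.WPR_i1
import Pool.Agent.Lib.WPR_i2
import Pool.Agent.Lib.WPR_i3
import Pool.Agent.Lib.WPR_e2
import Pool.Agent.Lib.WPR_f1

/-! PROJECT WPR, row o1: iterate cut pairs (helper49) -/

namespace WPP

open FreeGroup List

theorem wpr_o1_cj_symm {n : ℕ} {a b : FreeGroup (Fin n)} (h : Cj a b) : Cj b a := by
  obtain ⟨k, hk⟩ := h
  exact ⟨k⁻¹, by rw [hk]; group⟩

theorem wpr_o1_cj_trans {n : ℕ} {a b c : FreeGroup (Fin n)} (h : Cj a b) (h' : Cj b c) :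
    Cj a c := by
  obtain ⟨k, hk⟩ := h
  obtain ⟨k', hk'⟩ := h'
  exact ⟨k * k', by rw [hk, hk']; group⟩

theorem wpr_o1_cj_map {n : ℕ} {a b : FreeGroup (Fin n)} (h : Cj a b)
    (e : FreeGroup (Fin n) ≃* FreeGroup (Fin n)) : Cj (e a) (e b) := by
  obtain ⟨k, hk⟩ := h
  exact ⟨e k, by rw [hk, _root_.map_mul, _root_.map_mul, _root_.map_inv]⟩

theorem wpr_o1_cj_red {n : ℕ} (q : FreeGroup (Fin n)) :
    Cj (FreeGroup.mk (reduceCyclically q.toWord)) q := by
  refine ⟨(FreeGroup.mk (reduceCyclically.conjugator q.toWord))⁻¹, ?_⟩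
  have hg : q = FreeGroup.mk (reduceCyclically.conjugator q.toWord) *
      FreeGroup.mk (reduceCyclically q.toWord) *
      (FreeGroup.mk (reduceCyclically.conjugator q.toWord))⁻¹ := by
    rw [FreeGroup.inv_mk, FreeGroup.mul_mk, FreeGroup.mul_mk,
      reduceCyclically.conj_conjugator_reduceCyclically, FreeGroup.mk_toWord]
  generalize FreeGroup.mk (reduceCyclically.conjugator q.toWord) = a at hg ⊢
  generalize FreeGroup.mk (reduceCyclically q.toWord) = b at hg ⊢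
  rw [hg]
  group

/-- the descent along cut pairs -/
theorem wpr_o1_iter {n M N : ℕ} : ∀ (L : ℕ) (c : Cfg n M) (w : Word n), w.length ≤ L →
    St N c w → ∃ (c' : Cfg n M) (p : Word n) (e : FreeGroup (Fin n) ≃* FreeGroup (Fin n)),
      Relation.ReflTransGen Tr c c' ∧ St N c' p ∧ (¬ ∃ A x, Cut A x p) ∧
      Cj (FreeGroup.mk p) (e (FreeGroup.mk w)) := by
  intro L
  induction L with
  | zero =>
    intro c w hL hst
    exact absurd (List.length_eq_zero_iff.1 (Nat.le_zero.1 hL)) hst.2.1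
  | succ L ih =>
    intro c w hL hst
    by_cases hcut : ∃ A x, Cut A x w
    · obtain ⟨A, x, hc⟩ := hcut
      obtain ⟨c1, w1, htr, hst1, hcj1⟩ := tr_mv c w hst A x hc.hx hc.hbx hc.turn
      obtain ⟨p', hp', -, hlt, -, hcjp, -⟩ := move_word2 w hst.1 A x hc.hx hc.hbx hc.turn
      have hlen : w1.length < w.length := by
        have h1 : Cj (FreeGroup.mk w1) (FreeGroup.mk p') :=
          wpr_o1_cj_trans hcj1 (wpr_o1_cj_symm hcjp)
        have h2 : w1 ~r p' := rot_of_conj p' w1 hp' hst1.1 h1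
        rw [h2.perm.length_eq]
        exact hlt hc
      obtain ⟨c', p, e, h1, h2, h3, h4⟩ := ih c1 w1 (by omega) hst1
      refine ⟨c', p, (tau A x).trans e, Relation.ReflTransGen.head htr h1, h2, h3, ?_⟩
      exact wpr_o1_cj_trans h4 (wpr_o1_cj_map hcj1 e)
    · exact ⟨c, w, MulEquiv.refl _, Relation.ReflTransGen.refl, hst, hcut, 1, by simp⟩

theorem bounded_gen {n : ℕ} (ws : List (Word n)) (w : Word n) (hw1 : FreeGroup.mk w ≠ 1)
    (h : ∃ φ : FreeGroup (Fin n) ≃* FreeGroup (Fin n), φ (FreeGroup.mk w) ∈ gen ws) :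
    ∃ p : Word n, IsCyclicallyReduced p ∧ p ≠ [] ∧ (¬ ∃ A x, Cut A x p) ∧
      (∃ ψ : FreeGroup (Fin n) ≃* FreeGroup (Fin n), ψ (FreeGroup.mk w) = FreeGroup.mk p) ∧
      ∃ es : List (FreeGroup (Fin n) ≃* FreeGroup (Fin n)),
        es.length ≤ bnd n (posn (sym ws)).length ∧ (∀ e ∈ es, Short e) ∧
        ∃ k, k * cmp es (FreeGroup.mk p) * k⁻¹ ∈ gen ws := by
  obtain ⟨φ, hφ⟩ := h
  have hn : 0 < n := by
    rcases Nat.eq_zero_or_pos n with h0 | h0
    · subst h0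
      exact absurd (Subsingleton.elim _ _) hw1
    · exact h0
  obtain ⟨c0, hS, hst⟩ := exists_cfg0 hn ws (posn (sym ws)).length le_rfl
  have hq1 : φ (FreeGroup.mk w) ≠ 1 := by
    intro h1
    exact hw1 (φ.injective (by rw [h1, _root_.map_one]))
  have hst0 := hst _ hφ hq1
  set q := φ (FreeGroup.mk w) with hq
  obtain ⟨c', p, e, hrt, hstp, hncut, hcj⟩ := wpr_o1_iter _ c0 _ le_rfl hst0
  have hcq : Cj (FreeGroup.mk (reduceCyclically q.toWord)) q := wpr_o1_cj_red q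
  have hcj2 : Cj (FreeGroup.mk p) (e q) := wpr_o1_cj_trans hcj (wpr_o1_cj_map hcq e)
  obtain ⟨k, hk⟩ := hcj2
  obtain ⟨es, hes1, hes2, hes3⟩ := es_of_tr c0 c' hrt (gen ws) hS
  obtain ⟨l, hl1, hl2, -⟩ := hstp.2.2
  obtain ⟨k', hk'⟩ := snd_acc _ c' hes3 p ⟨l, hl1, hl2⟩
  refine ⟨p, hstp.1, hstp.2.1, hncut, ⟨(φ.trans e).trans (MulAut.conj k), ?_⟩, es, hes1, hes2,
    cmp es k', ?_⟩
  · rw [hk]; rfl
  · obtain ⟨s, hs, hs'⟩ := Subgroup.mem_map.1 hk'
    have h2 : s = cmp es (k' * FreeGroup.mk p * k'⁻¹) := by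
      rw [← hs']
      exact ((cmp es).apply_symm_apply s).symm
    rw [_root_.map_mul, _root_.map_mul, _root_.map_inv] at h2
    rw [← h2]
    exact hs

end WPP
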