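import Pool.Agent.Lib.WPQ_Claim
import Pool.Agent.Lib.WPR_NDef

/-! PROJECT WPR, row p1: words without cut pair in the orbit of a quadratic word are quadratic -/

namespace WPP

open FreeGroup List

theorem wpr_p1_quad {n : ℕ} (q : Word n) :
    Quad q ↔ ∀ j : Fin n, (q.countP fun y => decide (y.1 = j)) ≤ 2 := by
  unfold Quad
  have h : ∀ j : Fin n, (q.map Prod.fst).count j = q.countP fun y => decide (y.1 = j) := by
    intro j
    rw [List.count, List.countP_map]
    congr 1
  simp only [h]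

theorem claim_S {n : ℕ} (q p : Word n) (hq : Quad q) (_hq1 : FreeGroup.mk q ≠ 1)
    (hp : IsCyclicallyReduced p) (hcut : ¬ ∃ A x, Cut A x p)
    (φ : FreeGroup (Fin n) ≃* FreeGroup (Fin n))
    (h : Cj (FreeGroup.mk p) (φ (FreeGroup.mk q))) : Quad p := by
  rw [wpr_p1_quad] at hq ⊢
  intro j
  by_cases hp0 : p = []
  · rw [hp0]
    simp
  obtain ⟨k, hk⟩ := h
  exact WPQ.quad_of_noCut q p (φ.trans (MulAut.conj k)) hq hp hp0
    (by rw [hk]; rfl) hcut j

end WPP
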