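import Pool.Agent.Lib.WPR_NDef
import Pool.Agent.Lib.WPR_o1
import Pool.Agent.Lib.WPR_p1

/-! PROJECT WPR, row o2: powers of quadratic words (helper49) -/

namespace WPP

open FreeGroup List

/-- a rotation of a power is the power of a rotation -/
theorem wpr_o2_rot_pow {β : Type} {k : ℕ} (hk : 1 ≤ k) (w p : List β)
    (h : p ~r (List.replicate k w).flatten) :
    ∃ w', w' ~r w ∧ p = (List.replicate k w').flatten := by
  obtain ⟨m, hm⟩ := h.symm
  clear h
  induction m generalizing p with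
  | zero =>
    exact ⟨w, List.IsRotated.refl _, by rw [← hm, List.rotate_zero]⟩
  | succ m ih =>
    obtain ⟨w', h1, h2⟩ := ih _ rfl
    rw [← List.rotate_rotate, h2] at hm
    obtain ⟨k, rfl⟩ : ∃ k', k = k' + 1 := ⟨k - 1, by omega⟩
    rcases w' with _ | ⟨a, t⟩
    · refine ⟨[], h1, ?_⟩
      rw [← hm]
      simp
    · refine ⟨t ++ [a], ?_, ?_⟩
      · exact (rowB_app_rot t [a]).trans h1
      · rw [← hm]
        have := rowB_pow_split [a] t k
        rw [List.singleton_append] at this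
        rw [this, List.singleton_append, List.rotate_cons_succ, List.rotate_zero,
          List.replicate_succ', List.flatten_append]
        simp

theorem wpr_o2_cpow {β : Type} (u : β) (t : List β) (k : ℕ) :
    ∃ s, (List.replicate (k + 1) (u :: t)).flatten = u :: s ∧
      (s ++ [u]).head? = (t ++ [u]).head? := by
  refine ⟨t ++ (List.replicate k (u :: t)).flatten, ?_, ?_⟩
  · rw [List.replicate_succ, List.flatten_cons, List.cons_append]
  · rcases t with _ | ⟨b, t⟩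
    · rcases k with _ | k
      · simp
      · rw [List.replicate_succ, List.flatten_cons]
        simp
    · simp

/-- the cyclically consecutive pairs of a power are those of the word -/
theorem wpr_o2_cpair {β : Type} {k : ℕ} (hk : 1 ≤ k) (w : List β) (u v : β) :
    CPair (List.replicate k w).flatten u v ↔ CPair w u v := by
  obtain ⟨k, rfl⟩ : ∃ k', k = k' + 1 := ⟨k - 1, by omega⟩
  constructor
  · rintro ⟨s, h1, h2⟩
    obtain ⟨w', h3, h4⟩ := wpr_o2_rot_pow hk w _ h1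
    rcases w' with _ | ⟨a, t⟩
    · simp at h4
    · obtain ⟨s', h5, h6⟩ := wpr_o2_cpow a t k
      rw [h5] at h4
      obtain ⟨rfl, rfl⟩ := List.cons.inj h4
      exact ⟨t, h3, by rw [← h6, h2]⟩
  · rintro ⟨t, h1, h2⟩
    obtain ⟨s, h5, h6⟩ := wpr_o2_cpow u t k
    refine ⟨s, ?_, by rw [h6, h2]⟩
    rw [← h5]
    exact rowB_pow_rot h1 (k + 1)

theorem wpr_o2_cut {n k : ℕ} (hk : 1 ≤ k) (w : Word n) (A : Ltr n → Prop) (x : Ltr n)
    (h : Cut A x w) : Cut A x (List.replicate k w).flatten where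
  hx := h.hx
  hbx := h.hbx
  turn u v huv := h.turn u v ((wpr_o2_cpair hk w u v).1 huv)
  strict := by
    obtain ⟨u, v, h1, h2⟩ := h.strict
    exact ⟨u, v, (wpr_o2_cpair hk w u v).2 h1, h2⟩

theorem wpr_o2_len {n : ℕ} (q : Word n) (h : Quad q) : q.length ≤ 2 * n := by
  classical
  have h1 := List.sum_toFinset_count_eq_length (q.map Prod.fst)
  rw [List.length_map] at h1
  rw [← h1]
  calc ∑ a ∈ (q.map Prod.fst).toFinset, (q.map Prod.fst).count a
      ≤ ∑ a ∈ (q.map Prod.fst).toFinset, 2 := Finset.sum_le_sum fun a _ => by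
        convert h a
    _ = (q.map Prod.fst).toFinset.card * 2 := by rw [Finset.sum_const, smul_eq_mul]
    _ ≤ n * 2 := Nat.mul_le_mul_right 2 ((Finset.card_le_univ _).trans (by simp))
    _ = 2 * n := by ring

/-- row o2, from `claim_S` -/
theorem wpr_o2_main {n : ℕ} (hS : ∀ (q p : Word n), Quad q → FreeGroup.mk q ≠ 1 →
      IsCyclicallyReduced p → (¬ ∃ A x, Cut A x p) →
      ∀ φ : FreeGroup (Fin n) ≃* FreeGroup (Fin n),
        Cj (FreeGroup.mk p) (φ (FreeGroup.mk q)) → Quad p)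
    (q p : Word n) (k : ℕ) (hk : 1 ≤ k) (hq : Quad q)
    (hq1 : FreeGroup.mk q ≠ 1) (hp : IsCyclicallyReduced p) (hcut : ¬ ∃ A x, Cut A x p)
    (φ : FreeGroup (Fin n) ≃* FreeGroup (Fin n))
    (h : Cj (FreeGroup.mk p) (φ (FreeGroup.mk q ^ k))) :
    ∃ q' : Word n, Quad q' ∧ q'.length ≤ 2 * n ∧ p = (List.replicate k q').flatten ∧
      ∃ ψ : FreeGroup (Fin n) ≃* FreeGroup (Fin n), ψ (FreeGroup.mk q) = FreeGroup.mk q' := by
  set q0 : Word n := reduceCyclically (φ (FreeGroup.mk q)).toWord with hq0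
  have hc0 : IsCyclicallyReduced q0 := reduceCyclically.isCyclicallyReduced isReduced_toWord
  have hcj0 : Cj (FreeGroup.mk q0) (φ (FreeGroup.mk q)) := wpr_o1_cj_red _
  have hck : IsCyclicallyReduced (List.replicate k q0).flatten := hc0.flatten_replicate k
  have hmk : FreeGroup.mk (List.replicate k q0).flatten = FreeGroup.mk q0 ^ k := by
    rw [FreeGroup.pow_mk]
  have hcj1 : Cj (FreeGroup.mk p) (FreeGroup.mk (List.replicate k q0).flatten) := by
    refine wpr_o1_cj_trans h (wpr_o1_cj_symm ?_)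
    obtain ⟨c, hc⟩ := hcj0
    refine ⟨c, ?_⟩
    rw [hmk, hc, conj_pow, _root_.map_pow]
  have hrot := rot_of_conj _ _ hck hp hcj1
  obtain ⟨q', hq', hpq⟩ := wpr_o2_rot_pow hk q0 p hrot
  have hcq' : IsCyclicallyReduced q' :=
    (rowB_cycred _).2 (rowB_cyc_rot hq'.symm ((rowB_cycred _).1 hc0))
  have hcj2 : Cj (FreeGroup.mk q') (φ (FreeGroup.mk q)) := by
    refine wpr_o1_cj_trans ?_ hcj0
    obtain ⟨l₁, l₂, h1, h2⟩ := rowB_rot hq'
    rw [h1, h2, ← FreeGroup.mul_mk, ← FreeGroup.mul_mk]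
    exact ⟨FreeGroup.mk l₁, by group⟩
  have hncut : ¬ ∃ A x, Cut A x q' := by
    rintro ⟨A, x, hA⟩
    exact hcut ⟨A, x, by rw [hpq]; exact wpr_o2_cut hk q' A x hA⟩
  have hQ : Quad q' := hS q q' hq hq1 hcq' hncut φ hcj2
  obtain ⟨c, hc⟩ := hcj2
  refine ⟨q', hQ, wpr_o2_len q' hQ, hpq, φ.trans (MulAut.conj c), ?_⟩
  rw [hc]
  rfl

theorem quad_power {n : ℕ} (q p : Word n) (k : ℕ) (hk : 1 ≤ k) (hq : Quad q)
    (hq1 : FreeGroup.mk q ≠ 1) (hp : IsCyclicallyReduced p) (hcut : ¬ ∃ A x, Cut A x p)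
    (φ : FreeGroup (Fin n) ≃* FreeGroup (Fin n))
    (h : Cj (FreeGroup.mk p) (φ (FreeGroup.mk q ^ k))) :
    ∃ q' : Word n, Quad q' ∧ q'.length ≤ 2 * n ∧ p = (List.replicate k q').flatten ∧
      ∃ ψ : FreeGroup (Fin n) ≃* FreeGroup (Fin n), ψ (FreeGroup.mk q) = FreeGroup.mk q' :=
  wpr_o2_main (fun q p a b c d φ e => claim_S q p a b c d φ e) q p k hk hq hq1 hp hcut φ h

end WPP
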