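import Pool.Agent.Lib.WPR_f1
import Pool.Agent.Lib.WPR_e2

/-!
# PROJECT WPR, row o3: removing all cut pairs with few short automorphisms
-/

namespace WPP
open FreeGroup List

/-- a Whitehead automorphism is short -/
theorem wpr_o3_short {n : ℕ} (A : Ltr n → Prop) (x : Ltr n) : Short (tau A x) := by
  classical
  intro i
  have hle : ∀ L : Word n, (FreeGroup.mk L).toWord.length ≤ L.length := fun L =>
    FreeGroup.norm_mk_le
  rw [tau_apply]
  by_cases h : i = x.1
  · have h1 := tauHom_fix A x (i, true) h
    rw [lt_true] at h1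
    rw [h1]
    exact (hle [(i, true)]).trans (by simp)
  · have h1 := tauHom_lt A x (i, true) h
    rw [lt_true] at h1
    rw [h1]
    unfold Kp
    by_cases ha : A (i, true) <;> by_cases hb : A (bar (i, true)) <;>
      simp only [ha, hb, if_true, if_false]
    · have : lt x * FreeGroup.of i * (lt x)⁻¹ =
          FreeGroup.mk [x, (i, true), bar x] := by
        rw [← lt_bar, ← lt_true]
        unfold lt
        rw [FreeGroup.mul_mk, FreeGroup.mul_mk]
        rfl
      rw [this]
      exact (hle _).trans (by simp)
    · have : lt x * FreeGroup.of i * (1 : FreeGroup (Fin n))⁻¹ =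
          FreeGroup.mk [x, (i, true)] := by
        rw [inv_one, mul_one, ← lt_true]
        unfold lt
        rw [FreeGroup.mul_mk]
        rfl
      rw [this]
      exact (hle _).trans (by simp)
    · have : 1 * FreeGroup.of i * (lt x)⁻¹ =
          FreeGroup.mk [(i, true), bar x] := by
        rw [one_mul, ← lt_bar, ← lt_true]
        unfold lt
        rw [FreeGroup.mul_mk]
        rfl
      rw [this]
      exact (hle _).trans (by simp)
    · have : 1 * FreeGroup.of i * (1 : FreeGroup (Fin n))⁻¹ =
          FreeGroup.mk [(i, true)] := by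
        rw [inv_one, mul_one, one_mul]
        rfl
      rw [this]
      exact (hle _).trans (by simp)

theorem wpr_o3_cmp {n : ℕ} (es : List (FreeGroup (Fin n) ≃* FreeGroup (Fin n)))
    (e : FreeGroup (Fin n) ≃* FreeGroup (Fin n)) (g : FreeGroup (Fin n)) :
    cmp (es ++ [e]) g = cmp es (e g) := by
  induction es with
  | nil => rfl
  | cons a es ih =>
    show a (cmp (es ++ [e]) g) = a (cmp es (e g))
    rw [ih]

/-- `g` is conjugate to its cyclic reduction -/
theorem wpr_o3_conj {n : ℕ} (g : FreeGroup (Fin n)) :
    Cj (FreeGroup.mk (reduceCyclically g.toWord)) g := by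
  set L : Word n := g.toWord with hL
  have hg : g = FreeGroup.mk (reduceCyclically.conjugator L) *
      FreeGroup.mk (reduceCyclically L) * (FreeGroup.mk (reduceCyclically.conjugator L))⁻¹ := by
    rw [FreeGroup.inv_mk, FreeGroup.mul_mk, FreeGroup.mul_mk,
      reduceCyclically.conj_conjugator_reduceCyclically, hL, FreeGroup.mk_toWord]
  refine ⟨(FreeGroup.mk (reduceCyclically.conjugator L))⁻¹, ?_⟩
  conv_rhs => rw [hg]
  group

theorem wpr_o3_main {n : ℕ} : ∀ (N : ℕ) (g : FreeGroup (Fin n)),
    (reduceCyclically g.toWord).length ≤ N →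
    ∃ es : List (FreeGroup (Fin n) ≃* FreeGroup (Fin n)), es.length ≤ N ∧
      (∀ e ∈ es, Short e) ∧
      ¬ ∃ A x, Cut A x (reduceCyclically (cmp es g).toWord) := by
  intro N
  induction N with
  | zero =>
    intro g hg
    refine ⟨[], le_rfl, by simp, ?_⟩
    rintro ⟨A, x, hc⟩
    have h0 : reduceCyclically g.toWord = [] := List.length_eq_zero_iff.1 (Nat.le_zero.1 hg)
    obtain ⟨u, v, ⟨t, ht, -⟩, -⟩ := hc.strict
    have h1 : reduceCyclically (cmp ([] : List (FreeGroup (Fin n) ≃* FreeGroup (Fin n))) g).toWord
      = [] := h0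
    rw [h1] at ht
    have := ht.perm.length_eq
    simp at this
  | succ N ih =>
    intro g hg
    by_cases hcut : ∃ A x, Cut A x (reduceCyclically g.toWord)
    · obtain ⟨A, x, hc⟩ := hcut
      have hp : IsCyclicallyReduced (reduceCyclically g.toWord) :=
        reduceCyclically.isCyclicallyReduced isReduced_toWord
      obtain ⟨p', hp', -, hlt, -, hcj, -⟩ := move_word2 _ hp A x hc.hx hc.hbx hc.turn
      have hlt' := hlt hc
      have hlen : (reduceCyclically (tau A x g).toWord).length ≤ N := by
        have h1 : p' ~r reduceCyclically (tau A x g).toWord := by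
          refine rot_of_conj _ _ (reduceCyclically.isCyclicallyReduced isReduced_toWord) hp' ?_
          obtain ⟨a, ha⟩ := hcj
          obtain ⟨b, hb⟩ := wpr_o3_conj g
          obtain ⟨c, hc'⟩ := wpr_o3_conj (tau A x g)
          refine ⟨a * tau A x b * c⁻¹, ?_⟩
          rw [ha, hb, hc', _root_.map_mul, _root_.map_mul, _root_.map_inv]
          group
        have := h1.perm.length_eq
        omega
      obtain ⟨es, h1, h2, h3⟩ := ih (tau A x g) hlen
      refine ⟨es ++ [tau A x], by simpa using h1, ?_, ?_⟩
      · intro e he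
        rcases List.mem_append.1 he with he | he
        · exact h2 e he
        · rw [List.mem_singleton.1 he]
          exact wpr_o3_short A x
      · rw [wpr_o3_cmp]
        exact h3
    · exact ⟨[], Nat.zero_le _, by simp, hcut⟩

/-- ROW o3 -/
theorem nocut_bounded {n : ℕ} (w : Word n) :
    ∃ es : List (FreeGroup (Fin n) ≃* FreeGroup (Fin n)), es.length ≤ w.length ∧
      (∀ e ∈ es, Short e) ∧
      ¬ ∃ A x, Cut A x (reduceCyclically (cmp es (FreeGroup.mk w)).toWord) := by
  refine wpr_o3_main w.length (FreeGroup.mk w) ?_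
  exact (wpr_e2_length_reduceCyclically _).trans FreeGroup.norm_mk_le

end WPP
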