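import Pool.Agent.Lib.WPR_NDef
import Pool.Agent.Lib.WPR_o2
import Pool.Agent.Lib.WPR_o3

/-!
# PROJECT WPR, row o4: words in the orbit of a power of a quadratic word
-/

namespace WPP
open FreeGroup List

theorem qp_bounded {n : ℕ} (w : Word n) (h1 : FreeGroup.mk w ≠ 1) (hQ : QP (FreeGroup.mk w)) :
    ∃ es : List (FreeGroup (Fin n) ≃* FreeGroup (Fin n)), es.length ≤ w.length ∧
      (∀ e ∈ es, Short e) ∧ ∃ (q : Word n) (k : ℕ), Quad q ∧ q.length ≤ 2 * n ∧ 1 ≤ k ∧
        reduceCyclically (cmp es (FreeGroup.mk w)).toWord = (List.replicate k q).flatten := by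
  obtain ⟨es, hlen, hshort, hcut⟩ := nocut_bounded w
  obtain ⟨φ, q, k, hq, hφ⟩ := hQ
  refine ⟨es, hlen, hshort, ?_⟩
  set L : Word n := (cmp es (FreeGroup.mk w)).toWord with hL
  have hp : IsCyclicallyReduced (reduceCyclically L) :=
    reduceCyclically.isCyclicallyReduced isReduced_toWord
  have hφ1 : φ (FreeGroup.mk w) ≠ 1 := fun h => h1 ((MulEquiv.map_eq_one_iff φ).1 h)
  have hk : 1 ≤ k := by
    rcases Nat.eq_zero_or_pos k with h | h
    · subst h
      rw [pow_zero] at hφ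
      exact absurd hφ hφ1
    · exact h
  have hq1 : FreeGroup.mk q ≠ 1 := by
    intro h
    rw [h, one_pow] at hφ
    exact hφ1 hφ
  have hmk : FreeGroup.mk L = cmp es (FreeGroup.mk w) := by
    rw [hL, FreeGroup.mk_toWord]
  have hconj : FreeGroup.mk L = FreeGroup.mk (reduceCyclically.conjugator L) *
      FreeGroup.mk (reduceCyclically L) * (FreeGroup.mk (reduceCyclically.conjugator L))⁻¹ := by
    rw [FreeGroup.inv_mk, FreeGroup.mul_mk, FreeGroup.mul_mk,
      reduceCyclically.conj_conjugator_reduceCyclically]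
  have hcj : Cj (FreeGroup.mk (reduceCyclically L))
      ((φ.symm.trans (cmp es)) (FreeGroup.mk q ^ k)) := by
    refine ⟨(FreeGroup.mk (reduceCyclically.conjugator L))⁻¹, ?_⟩
    have h2 : (φ.symm.trans (cmp es)) (FreeGroup.mk q ^ k) = FreeGroup.mk L := by
      rw [MulEquiv.trans_apply, ← hφ, MulEquiv.symm_apply_apply, hmk]
    rw [h2]
    conv_rhs => rw [hconj]
    group
  obtain ⟨q', h3, h4, h5, -⟩ := quad_power q (reduceCyclically L) k hk hq hq1 hp hcut
    (φ.symm.trans (cmp es)) hcj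
  exact ⟨q', k, h3, h4, hk, h5⟩

end WPP
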