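import Pool.Agent.Lib.WPR_n2
import Pool.Agent.Lib.WPR_n3
import Pool.Agent.Lib.WPP_F1
import Pool.Agent.Lib.WPP_F2

/-!
# PROJECT WPR, row o5: the list of start words is primitive recursive
-/

namespace WPP
open FreeGroup List

theorem wpr_o5_supp {n : ℕ} (v : Word n) : supp v ≤ 2 ↔
    v = [] ∨ ∃ z ∈ (List.finRange n ×ˢ List.finRange n), ∀ d ∈ v, d.1 = z.1 ∨ d.1 = z.2 := by
  have hs : supp v = (v.map Prod.fst).toFinset.card := (List.card_toFinset _).symm
  rw [hs]
  constructor
  · intro h
    rcases v with _ | ⟨a, t⟩
    · exact Or.inl rfl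
    · right
      have : Nonempty (Fin n) := ⟨a.1⟩
      have h0 : a.1 ∈ ((a :: t).map Prod.fst).toFinset := by simp
      have h1 : (((a :: t).map Prod.fst).toFinset.erase a.1).card ≤ 1 := by
        rw [Finset.card_erase_of_mem h0]
        omega
      rw [Finset.card_le_one_iff_subset_singleton] at h1
      obtain ⟨b, hb⟩ := h1
      refine ⟨(a.1, b), by simp [List.mem_finRange], ?_⟩
      intro d hd
      by_cases hda : d.1 = a.1
      · exact Or.inl hda
      · right
        have : d.1 ∈ ((a :: t).map Prod.fst).toFinset.erase a.1 := by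
          rw [Finset.mem_erase, List.mem_toFinset]
          exact ⟨hda, List.mem_map_of_mem hd⟩
        exact Finset.mem_singleton.1 (hb this)
  · rintro (rfl | ⟨z, -, hz⟩)
    · simp
    · refine le_trans (Finset.card_le_card (t := {z.1, z.2}) ?_) Finset.card_le_two
      intro i hi
      rw [List.mem_toFinset, List.mem_map] at hi
      obtain ⟨d, hd, rfl⟩ := hi
      rw [Finset.mem_insert, Finset.mem_singleton]
      exact hz d hd

theorem wpr_o5_supp_pp (n : ℕ) : PrimrecPred fun v : Word n => supp v ≤ 2 := by
  have h : PrimrecPred fun v : Word n => v = [] ∨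
      ∃ z ∈ (List.finRange n ×ˢ List.finRange n), ∀ d ∈ v, d.1 = z.1 ∨ d.1 = z.2 := by
    refine (pp_eq Primrec.id (Primrec.const [])).or ?_
    refine pp_ex (Primrec.const _) ?_
    refine pp_all Primrec.fst ?_
    refine (pp_eq (Primrec.fst.comp Primrec.snd) ?_).or (pp_eq (Primrec.fst.comp Primrec.snd) ?_)
    · exact Primrec.fst.comp (Primrec.snd.comp Primrec.fst)
    · exact Primrec.snd.comp (Primrec.snd.comp Primrec.fst)
  exact h.of_eq fun v => (wpr_o5_supp v).symm

theorem wpr_o5_startW (n : ℕ) : Primrec (startW : Word n → List (Word n)) := by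
  classical
  unfold startW
  refine Primrec.list_append.comp ?_ ?_
  · exact Primrec.ite (wpr_o5_supp_pp n)
      (Primrec.list_cons.comp Primrec.id (Primrec.const [])) (Primrec.const [])
  · refine Primrec.list_flatMap (Primrec.const (table n)) ?_
    refine Primrec.list_flatMap
      (Primrec.list_range.comp (Primrec.succ.comp (Primrec.list_length.comp Primrec.fst))) ?_
    have hk : Primrec fun z : (Word n × (Word n × Word n)) × ℕ => z.2 := Primrec.snd
    have h1 : Primrec fun z : (Word n × (Word n × Word n)) × ℕ => z.1.2.1 :=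
      Primrec.fst.comp (Primrec.snd.comp Primrec.fst)
    have h2 : Primrec fun z : (Word n × (Word n × Word n)) × ℕ => z.1.2.2 :=
      Primrec.snd.comp (Primrec.snd.comp Primrec.fst)
    have e1 : Primrec fun z : (Word n × (Word n × Word n)) × ℕ =>
        (List.replicate z.2 z.1.2.1).flatten :=
      Primrec.list_flatten.comp (replicate_primrec hk h1)
    have e2 : Primrec fun z : (Word n × (Word n × Word n)) × ℕ =>
        (List.replicate z.2 z.1.2.2).flatten :=
      Primrec.list_flatten.comp (replicate_primrec hk h2)
    exact Primrec.ite (pp_eq (Primrec.fst.comp Primrec.fst) e1)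
      (Primrec.list_cons.comp e2 (Primrec.const [])) (Primrec.const [])

theorem start_primrec (n : ℕ) : Primrec (start : Word n → List (Word n)) := by
  unfold start
  refine Primrec.list_flatMap ((seqs_primrec n).comp Primrec.list_length) ?_
  exact (wpr_o5_startW n).comp ((crw_primrec n).comp ((substSeq_primrec n).comp
    (Primrec.pair Primrec.snd Primrec.fst)))

end WPP
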