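import Pool.Agent.Lib.WPR_l1
import Pool.Agent.Lib.WPR_n5
import Pool.Agent.Lib.WPR_o1
import Pool.Agent.Lib.WPR_o2
import Pool.Agent.Lib.WPR_o5
import Pool.Agent.Lib.WPR_o4
import Pool.Agent.Lib.WPR_m2

/-! PROJECT WPR, row o6: the final assembly -/

namespace WPP

open FreeGroup List

theorem o6_crw {n : ℕ} (w : Word n) : crw w = reduceCyclically (FreeGroup.mk w).toWord := by
  rw [crw, FreeGroup.toWord_mk]

theorem o6_crw_nil {n : ℕ} (w : Word n) (h : FreeGroup.mk w = 1) : crw w = [] := by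
  rw [o6_crw, h, FreeGroup.toWord_one, reduceCyclically.nil]

theorem o6_seqs_nil {n B : ℕ} : ([] : List (List (Word n))) ∈ seqs n B := by
  obtain ⟨s, hs, h2⟩ := seqs_code (B := B) ([] : List (FreeGroup (Fin n) ≃* FreeGroup (Fin n)))
    (Nat.zero_le _) (by simp)
  unfold seqs
  refine List.mem_flatMap.2 ⟨0, by simp, ?_⟩
  simp [lists]

theorem o6_nil {n : ℕ} (w : Word n) (h : FreeGroup.mk w = 1) : ([] : Word n) ∈ start w := by
  refine List.mem_flatMap.2 ⟨[], o6_seqs_nil, ?_⟩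
  have h1 : substSeq ([] : List (List (Word n))) w = w := rfl
  rw [h1, o6_crw_nil w h]
  refine List.mem_append_left _ ?_
  have h2 : supp ([] : Word n) ≤ 2 := by simp [supp]
  rw [if_pos h2]
  exact List.mem_singleton_self _

theorem o6_words2 {n : ℕ} (q : Word n) (h : q.length ≤ 2 * n) : q ∈ words2 n := by
  refine List.mem_flatMap.2 ⟨q.length, List.mem_range.2 (by omega), ?_⟩
  exact (mem_lists _ _ _).2 ⟨rfl, fun a _ => mem_letters a⟩

theorem o6_table {n : ℕ} (q q' : Word n) :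
    (q, q') ∈ table n ↔ q ∈ words2 n ∧ q' ∈ words2 n ∧ Quad q ∧
      ∃ φ : FreeGroup (Fin n) ≃* FreeGroup (Fin n), φ (FreeGroup.mk q) = FreeGroup.mk q' := by
  unfold table
  simp only [List.mem_filter, List.mem_flatMap, List.mem_map, Prod.mk.injEq, decide_eq_true_eq]
  constructor
  · rintro ⟨⟨a, ha, b, hb, rfl, rfl⟩, h1, h2⟩
    exact ⟨ha, hb, h1, h2⟩
  · rintro ⟨ha, hb, h1, h2⟩
    exact ⟨⟨q, ha, q', hb, rfl, rfl⟩, h1, h2⟩

theorem o6_pow {n : ℕ} (q : Word n) (k : ℕ) :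
    FreeGroup.mk (List.replicate k q).flatten = FreeGroup.mk q ^ k := by
  rw [FreeGroup.pow_mk]

/-- the start words are read off `v` -/
theorem o6_startW {n : ℕ} (v p : Word n) :
    p ∈ startW v ↔ (supp v ≤ 2 ∧ p = v) ∨ ∃ q q' k, (q, q') ∈ table n ∧ k ≤ v.length ∧
      v = (List.replicate k q).flatten ∧ p = (List.replicate k q').flatten := by
  unfold startW
  rw [List.mem_append]
  refine or_congr ?_ ?_
  · by_cases h : supp v ≤ 2
    · simp [h]
    · simp [h]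
  · constructor
    · intro h
      obtain ⟨⟨q, q'⟩, hz, h⟩ := List.mem_flatMap.1 h
      obtain ⟨k, hk, h⟩ := List.mem_flatMap.1 h
      by_cases hv : v = (List.replicate k q).flatten
      · rw [if_pos hv, List.mem_singleton] at h
        exact ⟨q, q', k, hz, by simpa [Nat.lt_succ_iff] using hk, hv, h⟩
      · rw [if_neg hv] at h
        simp at h
    · rintro ⟨q, q', k, hz, hk, hv, hp⟩
      refine List.mem_flatMap.2 ⟨(q, q'), hz, List.mem_flatMap.2 ⟨k, ?_, ?_⟩⟩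
      · rw [List.mem_range]
        omega
      · dsimp only
        rw [if_pos hv, List.mem_singleton]
        exact hp

/-- the number of letters -/
theorem o6_supp {n : ℕ} (v : Word n) : (v.map Prod.fst).toFinset.card = supp v := by
  rw [supp, List.card_toFinset]

/-- a sequence of codes, then cyclic reduction -/
theorem o6_orbit {n B : ℕ} (w : Word n) (s : List (List (Word n))) (hs : s ∈ seqs n B) :
    ∃ φ : FreeGroup (Fin n) ≃* FreeGroup (Fin n),
      φ (FreeGroup.mk w) = FreeGroup.mk (crw (substSeq s w)) := by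
  obtain ⟨e, he⟩ := seqs_aut s hs
  obtain ⟨k, hk⟩ := wl_rc (FreeGroup.mk (substSeq s w))
  refine ⟨e.trans (MulAut.conj k), ?_⟩
  change k * e (FreeGroup.mk w) * k⁻¹ = _
  rw [o6_crw, hk, he]

/-- start words lie in the orbit -/
theorem o6_start_orbit {n : ℕ} (w p : Word n) (hp : p ∈ start w) :
    ∃ φ : FreeGroup (Fin n) ≃* FreeGroup (Fin n), φ (FreeGroup.mk w) = FreeGroup.mk p := by
  obtain ⟨s, hs, hp⟩ := List.mem_flatMap.1 hp
  obtain ⟨φ, hφ⟩ := o6_orbit w s hs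
  rcases (o6_startW _ _).1 hp with ⟨-, rfl⟩ | ⟨q, q', k, hz, -, hv, rfl⟩
  · exact ⟨φ, hφ⟩
  · obtain ⟨-, -, -, ψ, hψ⟩ := (o6_table q q').1 hz
    refine ⟨φ.trans ψ, ?_⟩
    rw [MulEquiv.trans_apply, hφ, hv, o6_pow, o6_pow, _root_.map_pow, hψ]

/-- the class -/
theorem o6_class {n : ℕ} (w : Word n) :
    start w ≠ [] → C2 (FreeGroup.mk w) ∨ QP (FreeGroup.mk w) := by
  intro h
  obtain ⟨p, hp⟩ := List.exists_mem_of_ne_nil _ h
  obtain ⟨s, hs, hp⟩ := List.mem_flatMap.1 hp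
  obtain ⟨φ, hφ⟩ := o6_orbit w s hs
  rcases (o6_startW _ _).1 hp with ⟨h2, -⟩ | ⟨q, q', k, hz, -, hv, -⟩
  · left
    refine ⟨φ, ((crw (substSeq s w)).map Prod.fst).toFinset, by rwa [o6_supp], ?_⟩
    rw [hφ]
    refine wl_mem _ _ fun d hd => ?_
    simp only [List.coe_toFinset, List.mem_map, Set.mem_ofPred_eq]
    exact ⟨d, hd, rfl⟩
  · right
    obtain ⟨-, -, hq, -⟩ := (o6_table q q').1 hz
    exact ⟨φ, q, k, hq, by rw [hφ, hv, o6_pow]⟩

/-- words of the class with at most two letters -/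
theorem o6_c2 {n : ℕ} (w : Word n) (h : C2 (FreeGroup.mk w)) :
    ∃ s ∈ seqs n w.length, supp (crw (substSeq s w)) ≤ 2 := by
  obtain ⟨es, hlen, hsh, h2⟩ := c2_bounded w h
  obtain ⟨s, hs, hs'⟩ := seqs_code es hlen hsh
  exact ⟨s, hs, by rw [o6_crw, hs']; exact h2⟩

theorem o6_qp {n : ℕ} (w : Word n) (h1 : FreeGroup.mk w ≠ 1) (h : QP (FreeGroup.mk w)) :
    ∃ s ∈ seqs n w.length, ∃ (q : Word n) (k : ℕ), Quad q ∧ q.length ≤ 2 * n ∧ 1 ≤ k ∧
      crw (substSeq s w) = (List.replicate k q).flatten := by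
  obtain ⟨es, hlen, hsh, q, k, hq, hq2, hk, hv⟩ := qp_bounded w h1 h
  obtain ⟨s, hs, hs'⟩ := seqs_code es hlen hsh
  exact ⟨s, hs, q, k, hq, hq2, hk, by rw [o6_crw, hs', hv]⟩

theorem o6_klen {n : ℕ} (q : Word n) (k : ℕ) (v : Word n)
    (hv : v = (List.replicate k q).flatten) (hv1 : v ≠ []) : k ≤ v.length := by
  have hq : q ≠ [] := by
    rintro rfl
    apply hv1
    rw [hv]
    simp
  have h1 : 0 < q.length := List.length_pos_iff.2 hq
  rw [hv, List.length_flatten, List.map_replicate, List.sum_replicate, smul_eq_mul]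
  exact Nat.le_mul_of_pos_right k h1

theorem o6_mk_ne {n : ℕ} (w v : Word n) (h1 : FreeGroup.mk w ≠ 1)
    (φ : FreeGroup (Fin n) ≃* FreeGroup (Fin n)) (hφ : φ (FreeGroup.mk w) = FreeGroup.mk v) :
    FreeGroup.mk v ≠ 1 := by
  intro h0
  rw [h0] at hφ
  exact h1 (φ.injective (hφ.trans (_root_.map_one φ).symm))

theorem o6_bnd {n : ℕ} (hn : 0 < n) {M M' : ℕ} (h : M ≤ M') : bnd n M ≤ bnd n M' := by
  unfold bnd
  exact Nat.mul_le_mul (Nat.pow_le_pow_right (by omega) h)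
    (Nat.pow_le_pow_right (by omega) (Nat.mul_le_mul h h))

theorem o6_start_ne {n : ℕ} (w : Word n) (h : C2 (FreeGroup.mk w) ∨ QP (FreeGroup.mk w)) :
    start w ≠ [] := by
  by_cases h1 : FreeGroup.mk w = 1
  · exact List.ne_nil_of_mem (o6_nil w h1)
  rcases h with h | h
  · obtain ⟨s, hs, h2⟩ := o6_c2 w h
    refine List.ne_nil_of_mem (a := crw (substSeq s w)) ?_
    exact List.mem_flatMap.2 ⟨s, hs, (o6_startW _ _).2 (Or.inl ⟨h2, rfl⟩)⟩
  · obtain ⟨s, hs, q, k, hq, hq2, hk, hv⟩ := o6_qp w h1 h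
    obtain ⟨φ, hφ⟩ := o6_orbit w s hs
    have hv1 : crw (substSeq s w) ≠ [] := by
      intro h0
      apply o6_mk_ne _ _ h1 φ hφ
      rw [h0]
      rfl
    refine List.ne_nil_of_mem (a := crw (substSeq s w)) ?_
    refine List.mem_flatMap.2 ⟨s, hs, (o6_startW _ _).2 (Or.inr ⟨q, q, k, ?_, ?_, hv, hv⟩)⟩
    · exact (o6_table q q).2 ⟨o6_words2 q hq2, o6_words2 q hq2, hq, MulEquiv.refl _, rfl⟩
    · exact o6_klen q k _ hv hv1

/-- the bound for the whole class -/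
theorem o6_bounded {n : ℕ} (ws : List (Word n)) (w : Word n)
    (hC : C2 (FreeGroup.mk w) ∨ QP (FreeGroup.mk w))
    (h : ∃ φ : FreeGroup (Fin n) ≃* FreeGroup (Fin n), φ (FreeGroup.mk w) ∈ gen ws) :
    ∃ p ∈ start w, ∃ es : List (FreeGroup (Fin n) ≃* FreeGroup (Fin n)),
      es.length ≤ bnd n ((posn (sym ws)).length + p.length) ∧ (∀ e ∈ es, Short e) ∧
      ∃ k, k * cmp es (FreeGroup.mk p) * k⁻¹ ∈ gen ws := by
  obtain ⟨φ₀, hφ₀⟩ := h
  by_cases h1 : FreeGroup.mk w = 1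
  · refine ⟨[], o6_nil w h1, [], Nat.zero_le _, by simp, 1, ?_⟩
    have h2 : cmp ([] : List (FreeGroup (Fin n) ≃* FreeGroup (Fin n)))
        (FreeGroup.mk ([] : Word n)) = 1 := rfl
    rw [h2, one_mul, inv_one, mul_one]
    exact (gen ws).one_mem
  rcases hC with hC | hC
  · obtain ⟨s, hs, h2⟩ := o6_c2 w hC
    obtain ⟨φ, hφ⟩ := o6_orbit w s hs
    refine ⟨crw (substSeq s w), List.mem_flatMap.2 ⟨s, hs,
      (o6_startW _ _).2 (Or.inl ⟨h2, rfl⟩)⟩, ?_⟩
    refine bounded ws (crw (substSeq s w)) ((crw (substSeq s w)).map Prod.fst).toFinset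
      (by rwa [o6_supp]) (fun d hd => ?_) (o6_mk_ne w _ h1 φ hφ) ⟨φ.symm.trans φ₀, ?_⟩
    · rw [List.mem_toFinset]
      exact List.mem_map_of_mem hd
    · rw [MulEquiv.trans_apply, ← hφ, MulEquiv.symm_apply_apply]
      exact hφ₀
  · obtain ⟨s, hs, q, k, hq, hq2, hk, hv⟩ := o6_qp w h1 hC
    obtain ⟨φ, hφ⟩ := o6_orbit w s hs
    have hv2 := o6_mk_ne w _ h1 φ hφ
    have hv1 : crw (substSeq s w) ≠ [] := by
      intro h0
      apply hv2
      rw [h0]
      rfl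
    obtain ⟨p, hp, hp1, hcut, ⟨ψ, hψ⟩, es, hlen, hsh, hk'⟩ :=
      bounded_gen ws (crw (substSeq s w)) hv2 ⟨φ.symm.trans φ₀, by
        rw [MulEquiv.trans_apply, ← hφ, MulEquiv.symm_apply_apply]
        exact hφ₀⟩
    have hq1 : FreeGroup.mk q ≠ 1 := by
      intro h0
      apply hv2
      rw [hv, o6_pow, h0, one_pow]
    obtain ⟨q', hq', hq2', hpq, ψ', hψ'⟩ := quad_power q p k hk hq hq1 hp hcut ψ (by
      rw [← o6_pow, ← hv, hψ]
      exact wl_refl _)
    refine ⟨p, List.mem_flatMap.2 ⟨s, hs, (o6_startW _ _).2 (Or.inr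
      ⟨q, q', k, ?_, o6_klen q k _ hv hv1, hv, hpq⟩)⟩, es, ?_, hsh, hk'⟩
    · exact (o6_table q q').2 ⟨o6_words2 q hq2, o6_words2 q' hq2', hq, ψ', hψ'⟩
    · have hn : 0 < n := by
        obtain ⟨d, -⟩ := List.exists_mem_of_ne_nil _ hp1
        exact d.1.pos
      exact hlen.trans (o6_bnd hn (Nat.le_add_right _ _))

theorem final_WPR (n : ℕ) :
    (ComputablePred fun w : Word n => C2 (FreeGroup.mk w) ∨ QP (FreeGroup.mk w)) ∧
    ComputablePred fun z : List (Word n) × Word n =>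
      (C2 (FreeGroup.mk z.2) ∨ QP (FreeGroup.mk z.2)) ∧
      ∃ φ : FreeGroup (Fin n) ≃* FreeGroup (Fin n), φ (FreeGroup.mk z.2) ∈ gen z.1 := by
  have hC : ComputablePred fun w : Word n => C2 (FreeGroup.mk w) ∨ QP (FreeGroup.mk w) := by
    have h1 : PrimrecPred fun w : Word n => start w ≠ [] :=
      (pp_eq (start_primrec n) (Primrec.const [])).not
    have h2 : ComputablePred fun w : Word n => start w ≠ [] := by
      obtain ⟨d, h⟩ := h1
      exact ⟨d, h.to_comp⟩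
    exact h2.of_eq fun w => ⟨o6_class w, o6_start_ne w⟩
  exact ⟨hC, decidable_of_bounded _ start hC (start_primrec n).to_comp
    (fun w _ p hp => o6_start_orbit w p hp) o6_bounded⟩

end WPP
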