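import Pool.Agent.Lib.WPR_o6

/-! PROJECT WPR, row o7: the two classes separately -/

namespace WPP

open FreeGroup List

theorem o7_crw_primrec (n : ℕ) : Primrec fun z : Word n × List (List (Word n)) =>
    crw (substSeq z.2 z.1) :=
  (crw_primrec n).comp ((substSeq_primrec n).comp (Primrec.pair Primrec.snd Primrec.fst))

theorem o7_seqs (n : ℕ) : Primrec fun w : Word n => seqs n w.length :=
  (seqs_primrec n).comp Primrec.list_length

theorem o7_cp {α : Type} [Primcodable α] {P : α → Prop} (h : PrimrecPred P) :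
    ComputablePred P := by
  obtain ⟨d, h⟩ := h
  exact ⟨d, h.to_comp⟩

theorem o7_c2 (n : ℕ) : ComputablePred fun w : Word n => C2 (FreeGroup.mk w) := by
  have h1 : PrimrecPred fun w : Word n => ∃ s ∈ seqs n w.length,
      supp (crw (substSeq s w)) ≤ 2 := by
    refine pp_ex (P := fun (w : Word n) (s : List (List (Word n))) =>
      supp (crw (substSeq s w)) ≤ 2) (o7_seqs n) ?_
    exact (wpr_o5_supp_pp n).comp (o7_crw_primrec n)
  refine (o7_cp h1).of_eq fun w => ⟨?_, o6_c2 w⟩
  rintro ⟨s, hs, h2⟩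
  obtain ⟨φ, hφ⟩ := o6_orbit w s hs
  refine ⟨φ, ((crw (substSeq s w)).map Prod.fst).toFinset, by rwa [o6_supp], ?_⟩
  rw [hφ]
  refine wl_mem _ _ fun d hd => ?_
  simp only [List.coe_toFinset, List.mem_map, Set.mem_ofPred_eq]
  exact ⟨d, hd, rfl⟩

/-- the quadratic words of length at most `2 n` -/
noncomputable def quadW (n : ℕ) : List (Word n) := by
  classical
  exact (words2 n).filter fun q => decide (Quad q)

theorem o7_quadW {n : ℕ} (q : Word n) : q ∈ quadW n ↔ q ∈ words2 n ∧ Quad q := by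
  unfold quadW
  simp [List.mem_filter]

theorem o7_qp (n : ℕ) : ComputablePred fun w : Word n => QP (FreeGroup.mk w) := by
  have h1 : PrimrecPred fun w : Word n => FreeGroup.reduce w = [] ∨
      ∃ s ∈ seqs n w.length, ∃ q ∈ quadW n,
        ∃ k ∈ List.range ((crw (substSeq s w)).length + 1),
          crw (substSeq s w) = (List.replicate k q).flatten := by
    refine PrimrecPred.or (pp_eq (reduce_primrec n) (Primrec.const [])) ?_
    refine pp_ex (P := fun (w : Word n) (s : List (List (Word n))) => ∃ q ∈ quadW n,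
      ∃ k ∈ List.range ((crw (substSeq s w)).length + 1),
        crw (substSeq s w) = (List.replicate k q).flatten) (o7_seqs n) ?_
    refine pp_ex (P := fun (z : Word n × List (List (Word n))) (q : Word n) =>
      ∃ k ∈ List.range ((crw (substSeq z.2 z.1)).length + 1),
        crw (substSeq z.2 z.1) = (List.replicate k q).flatten) (Primrec.const _) ?_
    refine pp_ex (P := fun (z : (Word n × List (List (Word n))) × Word n) (k : ℕ) =>
        crw (substSeq z.1.2 z.1.1) = (List.replicate k z.2).flatten)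
      (Primrec.list_range.comp (Primrec.succ.comp (Primrec.list_length.comp
        ((o7_crw_primrec n).comp Primrec.fst)))) ?_
    refine pp_eq ((o7_crw_primrec n).comp (Primrec.fst.comp Primrec.fst)) ?_
    exact Primrec.list_flatten.comp (replicate_primrec Primrec.snd
      (Primrec.snd.comp Primrec.fst))
  refine (o7_cp h1).of_eq fun w => ⟨?_, fun h => ?_⟩
  · rintro (h | ⟨s, hs, q, hq, k, -, hv⟩)
    · refine ⟨MulEquiv.refl _, [], 0, fun i => by simp, ?_⟩
      rw [pow_zero, MulEquiv.refl_apply]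
      have h2 : FreeGroup.mk (FreeGroup.reduce w) = FreeGroup.mk w := FreeGroup.reduce.self
      rw [← h2, h]
      rfl
    · obtain ⟨φ, hφ⟩ := o6_orbit w s hs
      exact ⟨φ, q, k, ((o7_quadW q).1 hq).2, by rw [hφ, hv, o6_pow]⟩
  · by_cases h1 : FreeGroup.mk w = 1
    · left
      have h2 := FreeGroup.toWord_mk (L₁ := w)
      rw [← h2, h1, FreeGroup.toWord_one]
    · right
      obtain ⟨s, hs, q, k, hq, hq2, hk, hv⟩ := o6_qp w h1 h
      obtain ⟨φ, hφ⟩ := o6_orbit w s hs
      have hv1 : crw (substSeq s w) ≠ [] := by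
        intro h0
        apply o6_mk_ne _ _ h1 φ hφ
        rw [h0]
        rfl
      refine ⟨s, hs, q, (o7_quadW q).2 ⟨o6_words2 q hq2, hq⟩, k, ?_, hv⟩
      rw [List.mem_range]
      have := o6_klen q k _ hv hv1
      omega

theorem o7_main_c2 (n : ℕ) :
    (ComputablePred fun w : Word n => C2 (FreeGroup.mk w)) ∧
    ComputablePred fun z : List (Word n) × Word n => C2 (FreeGroup.mk z.2) ∧
      ∃ φ : FreeGroup (Fin n) ≃* FreeGroup (Fin n), φ (FreeGroup.mk z.2) ∈ gen z.1 := by
  refine ⟨o7_c2 n, (cp_and (n5_comp (o7_c2 n) (f := fun z : List (Word n) × Word n => z.2)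
    Computable.snd) (final_WPR n).2).of_eq fun z => ?_⟩
  constructor
  · rintro ⟨h1, -, h2⟩
    exact ⟨h1, h2⟩
  · rintro ⟨h1, h2⟩
    exact ⟨h1, Or.inl h1, h2⟩

theorem o7_main_qp (n : ℕ) :
    (ComputablePred fun w : Word n => QP (FreeGroup.mk w)) ∧
    ComputablePred fun z : List (Word n) × Word n => QP (FreeGroup.mk z.2) ∧
      ∃ φ : FreeGroup (Fin n) ≃* FreeGroup (Fin n), φ (FreeGroup.mk z.2) ∈ gen z.1 := by
  refine ⟨o7_qp n, (cp_and (n5_comp (o7_qp n) (f := fun z : List (Word n) × Word n => z.2)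
    Computable.snd) (final_WPR n).2).of_eq fun z => ?_⟩
  constructor
  · rintro ⟨h1, -, h2⟩
    exact ⟨h1, h2⟩
  · rintro ⟨h1, h2⟩
    exact ⟨h1, Or.inr h1, h2⟩

end WPP
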